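import Mathlib

/-!
# Definitions for the statement (MP_d3517d_nt, Gouvêa's slope distribution)

`p` is a prime, `G = GL₂(ℚ_p)`, `K = GL₂(ℤ_p)`, `Ω` a set with an action of `G`.

* `slash n g f = (c z + d)^n f((a z + b)/(c z + d))` for polynomials `f` of degree `≤ n`
  (a right action);
* `Forms n` = functions `f : Ω → {polynomials of degree ≤ n}` with
  `f (k x) = f(x) | k⁻¹` for `k ∈ K` (automorphic forms of weight `k = n + 2`);
* `heckeT n` = the Hecke operator `T_p f (x) = Σ_a f(a x) | a`, the sum over representatives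
  `a` of `K \ K diag(p,1) K`;
* a commutative ring `R` acting on `ℤ_p[Ω]` by `G`-equivariant endomorphisms acts on `Forms n`;
  for a maximal ideal `m` of `R` containing `p`, `FormsAt m n` is the part of `Forms n` on which
  all elements of `m` are topologically nilpotent: the span of the (generalised) eigenforms
  whose system of eigenvalues reduces to `m` (i.e. with residual representation `ρ̄`).
-/

open Polynomial Finset Filter Topology

noncomputable section

namespace Gouvea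

variable (p : ℕ) [Fact p.Prime]

/-- `GL₂(ℚ_p)`. -/
abbrev G := Matrix.GeneralLinearGroup (Fin 2) ℚ_[p]

/-- `GL₂(ℤ_p)` as a subgroup of `GL₂(ℚ_p)`. -/
def K : Subgroup (G p) :=
  (Matrix.GeneralLinearGroup.map (n := Fin 2) (algebraMap ℤ_[p] ℚ_[p])).range

/-- The element of `GL₂(ℚ_p)` with rows `(a, b)`, `(0, d)`, `a d ≠ 0`. -/
def upper (a b d : ℚ_[p]) (h : a * d ≠ 0) : G p :=
  Matrix.GeneralLinearGroup.mkOfDetNeZero !![a, b; 0, d] (by simpa [Matrix.det_fin_two] using h)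

lemma p_ne_zero : (p : ℚ_[p]) ≠ 0 := by exact_mod_cast (Fact.out : p.Prime).ne_zero

/-- `(p 0; 0 1)`. -/
def repInf : G p := upper p (p : ℚ_[p]) 0 1 (by simpa using p_ne_zero p)

/-- `(1 b; 0 p)`. -/
def rep (b : ℕ) : G p := upper p 1 (b : ℚ_[p]) (p : ℚ_[p]) (by simpa using p_ne_zero p)

/-- the scalar matrix `p`. -/
def scal : G p := upper p (p : ℚ_[p]) 0 (p : ℚ_[p]) (by simpa using p_ne_zero p)

variable {p}

/-- `(c z + d)^n f((a z + b)/(c z + d))`, for `f` of degree `≤ n`. -/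
def slash (n : ℕ) (g : G p) : ℚ_[p][X] →ₗ[ℚ_[p]] ℚ_[p][X] where
  toFun f := ∑ j ∈ range (n + 1), C (f.coeff j) *
    ((C (g 0 0) * X + C (g 0 1)) ^ j * (C (g 1 0) * X + C (g 1 1)) ^ (n - j))
  map_add' f g := by simp [add_mul, Finset.sum_add_distrib]
  map_smul' a f := by simp [Finset.smul_sum, smul_eq_C_mul, mul_assoc]

variable (Ω : Type) [MulAction (G p) Ω]

/-- Automorphic forms of weight `n + 2` on `Ω`. -/
def Forms (n : ℕ) : Submodule ℚ_[p] (Ω → ℚ_[p][X]) where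
  carrier := {f | (∀ x, f x ∈ degreeLE ℚ_[p] n) ∧ ∀ k ∈ K p, ∀ x, f (k • x) = slash n k⁻¹ (f x)}
  add_mem' := by
    rintro f g ⟨hf, hf'⟩ ⟨hg, hg'⟩
    exact ⟨fun x => Submodule.add_mem _ (hf x) (hg x), fun k hk x => by
      simp [hf' k hk x, hg' k hk x]⟩
  zero_mem' := ⟨fun x => Submodule.zero_mem _, fun k _ x => by simp⟩
  smul_mem' := by
    rintro a f ⟨hf, hf'⟩
    exact ⟨fun x => Submodule.smul_mem _ a (hf x), fun k hk x => by simp [hf' k hk x]⟩

/-- The Hecke operator `T_p` on all functions `Ω → ℚ_p[X]`, in weight `n + 2`. -/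
def heckeT (n : ℕ) : (Ω → ℚ_[p][X]) →ₗ[ℚ_[p]] (Ω → ℚ_[p][X]) where
  toFun f := fun x => slash n (repInf p) (f (repInf p • x)) +
    ∑ b ∈ range p, slash n (rep p b) (f (rep p b • x))
  map_add' f g := by ext1 x; simp [Finset.sum_add_distrib]; ring
  map_smul' a f := by ext1 x; simp [Finset.smul_sum]

variable {Ω}

/-- A `G`-equivariant endomorphism of `ℤ_p[Ω]`. -/
def Equivariant (t : (Ω →₀ ℤ_[p]) →ₗ[ℤ_[p]] (Ω →₀ ℤ_[p])) : Prop :=
  ∀ (g : G p) (v : Ω →₀ ℤ_[p]),
    t (Finsupp.mapDomain (g • ·) v) = Finsupp.mapDomain (g • ·) (t v)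

/-- The operator on functions defined by an endomorphism of `ℤ_p[Ω]`:
`(t f)(x) = Σ_y t_{x,y} f(y)` if `t [x] = Σ_y t_{x,y} [y]`. -/
def corr (t : (Ω →₀ ℤ_[p]) →ₗ[ℤ_[p]] (Ω →₀ ℤ_[p])) :
    (Ω → ℚ_[p][X]) →ₗ[ℚ_[p]] (Ω → ℚ_[p][X]) where
  toFun f := fun x => (t (Finsupp.single x 1)).sum fun y a => (a : ℚ_[p]) • f y
  map_add' f g := by
    ext1 x
    simp [Finsupp.sum_add]
  map_smul' a f := by
    ext1 x
    simp only [Pi.smul_apply, RingHom.id_apply, Finsupp.smul_sum]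
    exact Finsupp.sum_congr fun y _ => smul_comm _ _ _

variable {R : Type} [CommRing R]

/-- The part of `Forms n` at the maximal ideal `m` of the Hecke ring `R`. -/
def FormsAt (act : R →+* Module.End ℤ_[p] (Ω →₀ ℤ_[p])) (m : Ideal R) (n : ℕ) :
    Submodule ℚ_[p] (Ω → ℚ_[p][X]) where
  carrier := {f | f ∈ Forms Ω n ∧ ∀ t ∈ m, ∀ (x : Ω) (i : ℕ),
    Tendsto (fun N : ℕ => ((corr (act t) ^ N) f x).coeff i) atTop (𝓝 0)}
  add_mem' := by
    rintro f g ⟨hf, hf'⟩ ⟨hg, hg'⟩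
    refine ⟨Submodule.add_mem _ hf hg, fun t ht x i => ?_⟩
    simpa using (hf' t ht x i).add (hg' t ht x i)
  zero_mem' := ⟨Submodule.zero_mem _, fun t _ x i => by simp⟩
  smul_mem' := by
    rintro a f ⟨hf, hf'⟩
    refine ⟨Submodule.smul_mem _ a hf, fun t ht x i => ?_⟩
    simpa using (hf' t ht x i).const_mul a

end Gouvea
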