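import Pool.Agent.Work.MP_d3517d_nt.Comb

/-!
# M5, second part: the row exponents `φ` and the balance
-/

set_option autoImplicit false

open Polynomial Finset

noncomputable section

namespace Gouvea

variable {p : ℕ} [Fact p.Prime]

namespace Comb

theorem padicValNat_factorial_le (i : ℕ) : padicValNat p i.factorial ≤ i := by
  rcases Nat.eq_zero_or_pos i with h | h
  · subst h
    simp
  · exact (padicValNat_factorial_lt_of_ne_zero p h.ne').le

/-- increments of `φ` -/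
theorem phi_sub_ge (i j : ℕ) {V : ℕ} (hi : i < p ^ (V + 1)) :
    ((p : ℝ) - 2) / ((p : ℝ) - 1) * ((j : ℝ) - i) - (V + 1) ≤ (phi p j : ℝ) - phi p i := by
  have hpp : p.Prime := Fact.out
  have hp2 := hpp.two_le
  have hp1 : ((p - 1 : ℕ) : ℝ) = (p : ℝ) - 1 := by
    rw [Nat.cast_sub (by omega)]
    simp
  have hp0 : (0 : ℝ) < (p : ℝ) - 1 := by
    rw [← hp1]
    exact_mod_cast (show 0 < p - 1 by omega)
  have hi' : (phi p i : ℝ) = i - padicValNat p i.factorial := by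
    rw [phi, Nat.cast_sub (padicValNat_factorial_le i)]
  have hj' : (phi p j : ℝ) = j - padicValNat p j.factorial := by
    rw [phi, Nat.cast_sub (padicValNat_factorial_le j)]
  have h1 : ((p : ℝ) - 1) * padicValNat p i.factorial = i - (p.digits i).sum := by
    have := sub_one_mul_padicValNat_factorial (p := p) i
    rw [← hp1, ← Nat.cast_mul, this, Nat.cast_sub (Nat.digit_sum_le p i)]
  have h2 : ((p : ℝ) - 1) * padicValNat p j.factorial = j - (p.digits j).sum := by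
    have := sub_one_mul_padicValNat_factorial (p := p) j
    rw [← hp1, ← Nat.cast_mul, this, Nat.cast_sub (Nat.digit_sum_le p j)]
  have h3 : (p.digits i).sum ≤ (p - 1) * (V + 1) := by
    have h4 : (p.digits i).length ≤ V + 1 := (Nat.digits_length_le_iff hpp.one_lt i).2 hi
    have h5 : (p.digits i).sum ≤ (p.digits i).length • (p - 1) := by
      refine List.sum_le_card_nsmul _ _ fun d hd => ?_
      have := Nat.digits_lt_base hpp.one_lt hd
      omega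
    refine h5.trans ?_
    rw [smul_eq_mul, mul_comm]
    exact Nat.mul_le_mul_left _ h4
  have h3' : (((p.digits i).sum : ℕ) : ℝ) ≤ ((p : ℝ) - 1) * (V + 1) := by
    rw [← hp1]
    exact_mod_cast h3
  have h6 : (0 : ℝ) ≤ ((p.digits j).sum : ℕ) := Nat.cast_nonneg _
  have h7 : ((p : ℝ) - 1) * (((p : ℝ) - 2) / ((p : ℝ) - 1) * ((j : ℝ) - i) - (V + 1)) ≤
      ((p : ℝ) - 1) * ((phi p j : ℝ) - phi p i) := by
    have e1 : ((p : ℝ) - 1) * (((p : ℝ) - 2) / ((p : ℝ) - 1) * ((j : ℝ) - i) - (V + 1)) =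
        ((p : ℝ) - 2) * ((j : ℝ) - i) - ((p : ℝ) - 1) * (V + 1) := by
      field_simp
    rw [e1, hi', hj']
    nlinarith
  exact le_of_mul_le_mul_left h7 hp0

omit [Fact p.Prime] in
theorem cX_eq {q M u L r : ℕ} (hML : M ≤ L) (a : ℕ → ℕ) (ha : ∀ i, a i ≤ q)
    (hr : r + u = q * M) (hsum : ∑ i ∈ range L, a i = r) : cX q M a = cY M L a + u := by
  have h1 : cX q M a + ∑ i ∈ range M, a i = q * M := by
    rw [cX, ← sum_add_distrib, sum_congr rfl (fun i _ => Nat.sub_add_cancel (ha i)), sum_const,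
      card_range, smul_eq_mul, mul_comm]
  have h2 : ∑ i ∈ range M, a i + cY M L a = r := by
    rw [cY, ← hsum, range_eq_Ico, range_eq_Ico]
    exact sum_Ico_consecutive a (Nat.zero_le _) hML
  omega

end Comb

open Comb

/-- (4.2) -/
theorem comb_phi (hp : 5 ≤ p) {q M u L r V : ℕ} (hM : 1 ≤ M) (hML : M ≤ L)
    (hV : M < p ^ (V + 1)) (hu : u ≤ q)
    (a : ℕ → ℕ) (ha : ∀ i, a i ≤ q) (hr : r + u = q * M) (hsum : ∑ i ∈ range L, a i = r) :
    (Lam0 p q M u : ℝ) + ((p : ℝ) - 2) / (p - 1) * cost q M L a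
      - (cX q M a + cY M L a) * (V + 1) ≤ LamA p q M u L a := by
  have _ := hp
  have _ := hu
  have h0 := cX_eq hML a ha hr hsum
  have h0' : (cX q M a : ℝ) = cY M L a + u := by exact_mod_cast h0
  have hsplit : ∑ i ∈ range L, (a i : ℝ) * phi p i =
      ∑ i ∈ range M, (a i : ℝ) * phi p i + ∑ i ∈ Ico M L, (a i : ℝ) * phi p i := by
    rw [range_eq_Ico, range_eq_Ico]
    exact (sum_Ico_consecutive (fun i => (a i : ℝ) * phi p i) (Nat.zero_le _) hML).symm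
  have hlow : ∑ i ∈ range M, (a i : ℝ) * phi p i =
      q * ∑ i ∈ range M, (phi p i : ℝ) - ∑ i ∈ range M, ((q - a i : ℕ) : ℝ) * phi p i := by
    rw [mul_sum, ← sum_sub_distrib]
    refine sum_congr rfl fun i _ => ?_
    rw [Nat.cast_sub (ha i)]
    ring
  have hY : ((p : ℝ) - 2) / (p - 1) * costY M L a - cY M L a * (V + 1) ≤
      ∑ i ∈ Ico M L, (a i : ℝ) * phi p i - cY M L a * phi p (M - 1) := by
    have h1 : ∀ i ∈ Ico M L, ((p : ℝ) - 2) / (p - 1) * ((a i : ℝ) * ((i + 1 - M : ℕ) : ℝ)) -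
        (a i : ℝ) * (V + 1) ≤ (a i : ℝ) * phi p i - (a i : ℝ) * phi p (M - 1) := by
      intro i hi
      rw [mem_Ico] at hi
      have h2 := phi_sub_ge (p := p) (M - 1) i (V := V) (by omega)
      have h3 : (i : ℝ) - ((M - 1 : ℕ) : ℝ) = ((i + 1 - M : ℕ) : ℝ) := by
        rw [Nat.cast_sub (by omega), Nat.cast_sub (by omega)]
        push_cast
        ring
      rw [h3] at h2
      have h4 := mul_le_mul_of_nonneg_left h2 (Nat.cast_nonneg (α := ℝ) (a i))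
      calc _ = (a i : ℝ) * (((p : ℝ) - 2) / (p - 1) * ((i + 1 - M : ℕ) : ℝ) - (V + 1)) := by
            ring
        _ ≤ _ := h4
        _ = _ := by ring
    have h2 := sum_le_sum h1
    rw [sum_sub_distrib, sum_sub_distrib, ← mul_sum, ← sum_mul, ← sum_mul] at h2
    rw [costY, cY]
    push_cast
    exact h2
  have hX : ((p : ℝ) - 2) / (p - 1) * costX q M a - cX q M a * (V + 1) ≤
      cX q M a * phi p (M - 1) - ∑ i ∈ range M, ((q - a i : ℕ) : ℝ) * phi p i := by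
    have h1 : ∀ i ∈ range M,
        ((p : ℝ) - 2) / (p - 1) * (((q - a i : ℕ) : ℝ) * ((M - 1 - i : ℕ) : ℝ)) -
        ((q - a i : ℕ) : ℝ) * (V + 1) ≤
        ((q - a i : ℕ) : ℝ) * phi p (M - 1) - ((q - a i : ℕ) : ℝ) * phi p i := by
      intro i hi
      rw [mem_range] at hi
      have h2 := phi_sub_ge (p := p) i (M - 1) (V := V) (by omega)
      have h3 : ((M - 1 : ℕ) : ℝ) - (i : ℝ) = ((M - 1 - i : ℕ) : ℝ) := by
        rw [Nat.cast_sub (show i ≤ M - 1 by omega)]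
      rw [h3] at h2
      have h4 := mul_le_mul_of_nonneg_left h2 (Nat.cast_nonneg (α := ℝ) (q - a i))
      calc _ = ((q - a i : ℕ) : ℝ) *
            (((p : ℝ) - 2) / (p - 1) * ((M - 1 - i : ℕ) : ℝ) - (V + 1)) := by
            ring
        _ ≤ _ := h4
        _ = _ := by ring
    have h2 := sum_le_sum h1
    rw [sum_sub_distrib, sum_sub_distrib, ← mul_sum, ← sum_mul, ← sum_mul] at h2
    rw [costX, cX]
    push_cast
    exact h2
  have hc : ((cost q M L a : ℕ) : ℝ) = costY M L a + costX q M a := by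
    rw [cost_eq]
    push_cast
    ring
  have hL : (LamA p q M u L a : ℝ) - Lam0 p q M u =
      (∑ i ∈ Ico M L, (a i : ℝ) * phi p i - cY M L a * phi p (M - 1)) +
      (cX q M a * phi p (M - 1) - ∑ i ∈ range M, ((q - a i : ℕ) : ℝ) * phi p i) := by
    unfold LamA Lam0
    push_cast
    rw [hsplit, hlow, sum_add_distrib, h0']
    ring
  have h5 := add_le_add hY hX
  rw [← hL] at h5
  rw [hc]
  have e : (Lam0 p q M u : ℝ) + ((p : ℝ) - 2) / (p - 1) * (costY M L a + costX q M a) -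
      (cX q M a + cY M L a) * (V + 1) = Lam0 p q M u +
      (((p : ℝ) - 2) / (p - 1) * costY M L a - cY M L a * (V + 1) +
        (((p : ℝ) - 2) / (p - 1) * costX q M a - cX q M a * (V + 1))) := by ring
  rw [e]
  linarith

/-- (4.3): `β ≥ cost / 2 - (|X| + |Y|) (5 V + 1) - |X| / 4` -/
theorem comb_beta_aux (hp : 5 ≤ p) {h q M u L r V : ℕ} (hq : q = (p + 1) * h)
    (hM : 1 ≤ M) (hML : M ≤ L) (hV : M < p ^ (V + 1))
    (hu : u ≤ q) (a : ℕ → ℕ) (ha : ∀ i, a i ≤ q) (hr : r + u = q * M)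
    (hsum : ∑ i ∈ range L, a i = r) (w : ℕ → ℝ) (hw : IB p w V) (N : Finset ℕ)
    (hN : ∀ n ∈ N, M ≤ n ∧ n < L) :
    (Lam0 p q M u : ℝ) + ∑ n ∈ N, (mr p h r n : ℝ) * w n + (cost q M L a : ℝ) / 2 -
      (cX q M a + cY M L a) * (5 * V + 1) - (cX q M a : ℝ) / 4 ≤
      LamA p q M u L a + ∑ n ∈ N, (ma h r a L n : ℝ) * w n := by
  have h1 := comb_ghost hp hq hM hu a ha hr hsum w hw N hN
  have h2 := comb_phi hp hM hML hV hu a ha hr hsum
  have hp' : (5 : ℝ) ≤ p := by exact_mod_cast hp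
  have hp0 : (0 : ℝ) < (p : ℝ) - 1 := by linarith
  have hP : (0 : ℝ) < ((p : ℝ) - 1) ^ 2 := pow_pos hp0 2
  have hc0 : (0 : ℝ) ≤ cost q M L a := Nat.cast_nonneg _
  have hX0 : (0 : ℝ) ≤ cX q M a := Nat.cast_nonneg _
  have h3 : 4 / ((p : ℝ) - 1) ^ 2 ≤ 1 / 4 := by
    rw [div_le_div_iff₀ hP (by norm_num)]
    nlinarith
  have h4 : 1 / 2 + 4 / ((p : ℝ) - 1) ^ 2 ≤ ((p : ℝ) - 2) / (p - 1) := by
    have e : ((p : ℝ) - 2) / (p - 1) = ((p : ℝ) - 2) * (p - 1) / ((p : ℝ) - 1) ^ 2 := by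
      field_simp
    rw [e, le_div_iff₀ hP, add_mul, div_mul_cancel₀ _ hP.ne']
    nlinarith
  have h5 : 4 / ((p : ℝ) - 1) ^ 2 * (cX q M a : ℝ) ≤ (cX q M a : ℝ) / 4 := by
    nlinarith [mul_le_mul_of_nonneg_right h3 hX0]
  have h6 : (cost q M L a : ℝ) / 2 + 4 / ((p : ℝ) - 1) ^ 2 * (cost q M L a : ℝ) ≤
      ((p : ℝ) - 2) / (p - 1) * (cost q M L a : ℝ) := by
    nlinarith [mul_le_mul_of_nonneg_right h4 hc0]
  have e1 : 4 / ((p : ℝ) - 1) ^ 2 * ((cost q M L a : ℝ) + cX q M a) =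
      4 / ((p : ℝ) - 1) ^ 2 * (cost q M L a : ℝ) + 4 / ((p : ℝ) - 1) ^ 2 * cX q M a := by ring
  rw [e1] at h1
  nlinarith

/-- (4.3), the two consequences -/
theorem comb_beta (hp : 5 ≤ p) {h q M u L r V : ℕ} (hq : q = (p + 1) * h) (hh : 1 ≤ h)
    (hM : 1 ≤ M) (hML : M ≤ L) (hV : M < p ^ (V + 1))
    (hu : u ≤ q) (a : ℕ → ℕ) (ha : ∀ i, a i ≤ q) (hr : r + u = q * M)
    (hsum : ∑ i ∈ range L, a i = r) (w : ℕ → ℝ) (hw : IB p w V) (N : Finset ℕ)
    (hN : ∀ n ∈ N, M ≤ n ∧ n < L) :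
    (Lam0 p q M u : ℝ) + ∑ n ∈ N, (mr p h r n : ℝ) * w n - 2 * q * (5 * V + 3) ^ 2 ≤
      LamA p q M u L a + ∑ n ∈ N, (ma h r a L n : ℝ) * w n := by
  have h1 := comb_beta_aux hp hq hM hML hV hu a ha hr hsum w hw N hN
  have h2 : (cX q M a : ℝ) ^ 2 ≤ 2 * q * (costX q M a + cX q M a) := by
    exact_mod_cast cX_sq_le a
  have h3 : (cY M L a : ℝ) ^ 2 ≤ 2 * q * costY M L a := by
    exact_mod_cast cY_sq_le a ha
  have hc : ((cost q M L a : ℕ) : ℝ) = costY M L a + costX q M a := by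
    rw [cost_eq]
    push_cast
    ring
  have hq1 : (1 : ℝ) ≤ q := by
    rw [hq]
    have : 1 ≤ (p + 1) * h := Nat.mul_pos (by omega) hh
    exact_mod_cast this
  set x : ℝ := (cX q M a : ℝ)
  set y : ℝ := (cY M L a : ℝ)
  set c : ℝ := (cost q M L a : ℝ)
  have hV0 : (0 : ℝ) ≤ V := Nat.cast_nonneg _
  have h4 : x ^ 2 + y ^ 2 ≤ 2 * q * c + 2 * q * x := by
    rw [hc]
    linarith
  have h5 : (0 : ℝ) ≤ 4 * q * (c / 2 - (x + y) * (5 * V + 1) - x / 4 +
      2 * q * (5 * V + 3) ^ 2) := by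
    nlinarith [sq_nonneg (x - 2 * q * (5 * V + 7 / 4)), sq_nonneg (y - 2 * q * (5 * V + 1)),
      mul_nonneg (mul_nonneg (by linarith : (0 : ℝ) ≤ q) (by linarith : (0 : ℝ) ≤ q)) hV0,
      mul_nonneg (by linarith : (0 : ℝ) ≤ q) (by linarith : (0 : ℝ) ≤ q)]
  have h6 := nonneg_of_mul_nonneg_right h5 (by linarith : (0 : ℝ) < 4 * q)
  linarith

theorem comb_beta' (hp : 5 ≤ p) {h q M u L r V X4 : ℕ} (hq : q = (p + 1) * h) (hh : 1 ≤ h)
    (hV1 : 1 ≤ V) (hM : 1 ≤ M) (hML : M ≤ L) (hV : M < p ^ (V + 1))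
    (hu : u ≤ q) (a : ℕ → ℕ) (ha : ∀ i, a i ≤ q) (hr : r + u = q * M)
    (hsum : ∑ i ∈ range L, a i = r) (w : ℕ → ℝ) (hw : IB p w V) (N : Finset ℕ)
    (hN : ∀ n ∈ N, M ≤ n ∧ n < L) (hX : 32 * q * (5 * V + 2) ^ 2 ≤ X4)
    (hc : 4 * X4 ≤ cost q M L a) :
    (Lam0 p q M u : ℝ) + ∑ n ∈ N, (mr p h r n : ℝ) * w n + X4 ≤
      LamA p q M u L a + ∑ n ∈ N, (ma h r a L n : ℝ) * w n := by
  have h1 := comb_beta_aux hp hq hM hML hV hu a ha hr hsum w hw N hN
  have h2 : (cX q M a : ℝ) ^ 2 ≤ 2 * q * (costX q M a + cX q M a) := by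
    exact_mod_cast cX_sq_le a
  have h3 : (cY M L a : ℝ) ^ 2 ≤ 2 * q * costY M L a := by
    exact_mod_cast cY_sq_le a ha
  have hcc : ((cost q M L a : ℕ) : ℝ) = costY M L a + costX q M a := by
    rw [cost_eq]
    push_cast
    ring
  have hq1 : (1 : ℝ) ≤ q := by
    rw [hq]
    have : 1 ≤ (p + 1) * h := Nat.mul_pos (by omega) hh
    exact_mod_cast this
  have hX' : 32 * (q : ℝ) * (5 * V + 2) ^ 2 ≤ X4 := by exact_mod_cast hX
  have hc' : 4 * (X4 : ℝ) ≤ cost q M L a := by exact_mod_cast hc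
  have hV1' : (1 : ℝ) ≤ V := by exact_mod_cast hV1
  set x : ℝ := (cX q M a : ℝ)
  set y : ℝ := (cY M L a : ℝ)
  set c : ℝ := (cost q M L a : ℝ)
  set k : ℝ := 5 * V + 2 with hk
  have hk7 : 7 ≤ k := by linarith
  have hx0 : 0 ≤ x := Nat.cast_nonneg _
  have hy0 : 0 ≤ y := Nat.cast_nonneg _
  have h4 : x ^ 2 + y ^ 2 ≤ 2 * q * c + 2 * q * x := by
    rw [hcc]
    linarith
  have h5 : 4 * k * (x + y) ≤ c := by
    by_contra hcon
    rw [not_le] at hcon
    have hc0 : 0 < c := by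
      have : (0 : ℝ) < 32 * q * k ^ 2 := by positivity
      linarith
    have hS0 : 0 < x + y := by
      by_contra h0
      have h0' : x + y = 0 := le_antisymm (not_lt.1 h0) (by linarith)
      rw [h0', mul_zero] at hcon
      linarith
    have h6 : (x + y) * (x + y) ≤ (16 * q * k + 4 * q) * (x + y) := by
      have h7 : 4 * q * c ≤ 4 * q * (4 * k * (x + y)) :=
        mul_le_mul_of_nonneg_left hcon.le (by linarith)
      nlinarith [sq_nonneg (x - y)]
    have h7 : x + y ≤ 16 * q * k + 4 * q := le_of_mul_le_mul_right h6 hS0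
    have h8 : x + y ≤ 17 * q * k := by nlinarith
    have h9 : 4 * k * (x + y) ≤ 4 * k * (17 * q * k) :=
      mul_le_mul_of_nonneg_left h8 (by linarith)
    nlinarith
  nlinarith

end Gouvea
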