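import Pool.Agent.Work.MP_d3517d_nt.Minors

/-!
# Levels and the Hodge bound for sums of principal minors
-/

namespace Pool.Agent.Gouv

open Matrix Polynomial Finset

section Levels

variable {ι : Type*} [DecidableEq ι]

/-- If every level occurs at most `q` times, a monotone function of the level, summed over a set
of `r` indices, is at least its sum over the `r` lowest levels. -/
theorem sum_level_ge {q : ℕ} (lev : ι → ℕ) {φ : ℕ → ℕ} (hφ : Monotone φ)
    (s : Finset ι) (hs : ∀ t, (s.filter fun x => lev x = t).card ≤ q) :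
    ∑ j ∈ range s.card, φ (j / q) ≤ ∑ x ∈ s, φ (lev x) := by
  induction hc : s.card generalizing s with
  | zero => simp
  | succ c ih =>
    have hne : s.Nonempty := by
      rw [← card_pos, hc]
      exact Nat.succ_pos c
    obtain ⟨x, hx, hmax⟩ := exists_max_image s lev hne
    have hcard : s.card ≤ q * (lev x + 1) := by
      have h1 : s.card = ∑ t ∈ range (lev x + 1), (s.filter fun y => lev y = t).card :=
        card_eq_sum_card_fiberwise fun y hy => by
          have := hmax y hy
          exact mem_coe.2 (mem_range.2 (by omega))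
      rw [h1]
      calc ∑ t ∈ range (lev x + 1), (s.filter fun y => lev y = t).card
          ≤ ∑ _t ∈ range (lev x + 1), q := sum_le_sum fun t _ => hs t
        _ = q * (lev x + 1) := by rw [sum_const, card_range, smul_eq_mul, mul_comm]
    have h2 : c / q ≤ lev x := by
      have : c < q * (lev x + 1) := by omega
      exact Nat.lt_succ_iff.1 (Nat.div_lt_of_lt_mul this)
    have h3 := ih (s.erase x) (fun t => (card_le_card (filter_subset_filter _
      (erase_subset x s))).trans (hs t)) (by rw [card_erase_of_mem hx, hc]; rfl)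
    rw [sum_range_succ, ← sum_erase_add s _ hx]
    exact add_le_add h3 (hφ h2)

/-- the sum of the `r` lowest levels if every level occurs `q` times -/
def hodge (q r : ℕ) : ℕ := ∑ j ∈ range r, j / q

theorem hodge_zero (q : ℕ) : hodge q 0 = 0 := rfl

theorem hodge_succ (q r : ℕ) : hodge q (r + 1) = hodge q r + r / q := sum_range_succ _ _

theorem hodge_mono (q : ℕ) : Monotone (hodge q) := fun _ _ h =>
  sum_le_sum_of_subset (range_mono h)

theorem sum_level_ge' {q : ℕ} (lev : ι → ℕ) (s : Finset ι)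
    (hs : ∀ t, (s.filter fun x => lev x = t).card ≤ q) :
    hodge q s.card ≤ ∑ x ∈ s, lev x :=
  sum_level_ge lev monotone_id s hs

/-- the closed form of `hodge` -/
theorem two_mul_hodge {q : ℕ} (hq : 0 < q) (r : ℕ) :
    2 * hodge q r + q * (r / q) = q * (r / q) ^ 2 + 2 * (r % q) * (r / q) := by
  induction r with
  | zero => simp [hodge_zero]
  | succ r ih =>
    rw [hodge_succ]
    rcases Nat.lt_or_ge (r % q + 1) q with h | h
    · have h1 : (r + 1) / q = r / q := by
        rw [Nat.div_eq_iff hq]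
        have := Nat.div_add_mod r q
        have e : q * (r / q) = r / q * q := mul_comm _ _
        constructor
        · omega
        · omega
      have h2 : (r + 1) % q = r % q + 1 := by
        have a1 := Nat.div_add_mod r q
        have a2 := Nat.div_add_mod (r + 1) q
        rw [h1] at a2
        omega
      rw [h1, h2]
      nlinarith [ih]
    · have hlt : r % q < q := Nat.mod_lt _ hq
      have h0 : r % q + 1 = q := by omega
      have h1 : (r + 1) / q = r / q + 1 := by
        rw [Nat.div_eq_iff hq]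
        have := Nat.div_add_mod r q
        have e : q * (r / q) = r / q * q := mul_comm _ _
        constructor
        · rw [add_mul]; omega
        · rw [add_mul]; omega
      have h2 : (r + 1) % q = 0 := by
        have a1 := Nat.div_add_mod r q
        have a2 := Nat.div_add_mod (r + 1) q
        rw [h1, mul_add] at a2
        omega
      rw [h1, h2]
      have h3 : r % q = q - 1 := by omega
      rw [h3] at ih
      obtain ⟨q, rfl⟩ : ∃ k, q = k + 1 := ⟨q - 1, by omega⟩
      simp only [Nat.add_sub_cancel] at ih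
      nlinarith [ih]

/-- `b_r ≥ r ^ 2 / (2 q) - r / 2` -/
theorem sq_le_hodge {q : ℕ} (hq : 0 < q) (r : ℕ) : r ^ 2 ≤ q * (2 * hodge q r + r) := by
  have h1 := two_mul_hodge hq r
  have h2 := Nat.div_add_mod r q
  have h3 : r % q ≤ q := (Nat.mod_lt _ hq).le
  generalize hodge q r = H at *
  generalize r / q = M at *
  generalize r % q = a at *
  subst h2
  have h4 : a * a ≤ q * a := Nat.mul_le_mul_right _ h3
  have h5 : q * (2 * H + (q * M + a)) = q * (q * M ^ 2 + 2 * a * M) + q * a := by
    rw [← h1]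
    ring
  rw [h5]
  nlinarith [h4]

end Levels

section Minors

variable {n : Type*} [Fintype n] [DecidableEq n] {R : Type*} [CommRing R]

omit [Fintype n] in
/-- If the row `i` of `A` is divisible by `π ^ l i`, the minor `s` is divisible by
`π ^ (∑ i ∈ s, l i)`. -/
theorem pow_dvd_pmin {π : R} {l : n → ℕ} {A : Matrix n n R} (h : ∀ i j, π ^ l i ∣ A i j)
    (s : Finset n) : π ^ (∑ i ∈ s, l i) ∣ pmin A s := by
  choose B hB using h
  have : A.submatrix (Subtype.val : s → n) (Subtype.val : s → n) =
      Matrix.of fun i j : s => π ^ l i * B i j := by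
    ext i j
    simp [hB]
  rw [pmin, this]
  have h2 := det_mul_column (fun i : s => π ^ l i) (Matrix.of fun i j : s => B i j)
  have h3 : (∏ i : s, π ^ l i) = π ^ (∑ i ∈ s, l i) := by
    rw [← prod_pow_eq_pow_sum]
    exact prod_coe_sort s fun i => π ^ l i
  rw [h3] at h2
  exact ⟨_, h2⟩

theorem pow_dvd_esum {π : R} {l : n → ℕ} {A : Matrix n n R} (h : ∀ i j, π ^ l i ∣ A i j)
    {r b : ℕ} (hb : ∀ s : Finset n, s.card = r → b ≤ ∑ i ∈ s, l i) : π ^ b ∣ esum r A :=
  dvd_sum fun s hs => (pow_dvd_pow _ (hb s (mem_powersetCard.1 hs).2)).trans (pow_dvd_pmin h s)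

/-- **The Hodge bound.** -/
theorem pow_hodge_dvd_esum {π : R} {l : n → ℕ} {q : ℕ}
    (hl : ∀ t, (univ.filter fun i => l i = t).card ≤ q) {A : Matrix n n R}
    (h : ∀ i j, π ^ l i ∣ A i j) (r : ℕ) : π ^ hodge q r ∣ esum r A := by
  refine pow_dvd_esum h fun s hs => ?_
  rw [← hs]
  exact sum_level_ge' l s fun t => (card_le_card (filter_subset_filter _
    (subset_univ s))).trans (hl t)

end Minors

section Norm

variable {n : Type*} [Fintype n] [DecidableEq n] {K : Type*} [NormedField K]
  [IsUltrametricDist K]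

theorem norm_det_le {A : Matrix n n K} {c : n → ℝ} (hc : ∀ i, 0 ≤ c i)
    (h : ∀ i j, ‖A i j‖ ≤ c i) : ‖A.det‖ ≤ ∏ i, c i := by
  rw [det_apply]
  refine IsUltrametricDist.norm_sum_le_of_forall_le_of_nonneg (prod_nonneg fun i _ => hc i)
    fun σ _ => ?_
  have h1 : ‖Equiv.Perm.sign σ • ∏ i, A (σ i) i‖ = ‖∏ i, A (σ i) i‖ := by
    rcases Int.units_eq_one_or (Equiv.Perm.sign σ) with h | h <;> simp [h]
  rw [h1, norm_prod, ← Equiv.prod_comp σ c]
  exact prod_le_prod (fun i _ => norm_nonneg _) fun i _ => h _ _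

omit [Fintype n] in
theorem norm_pmin_le {A : Matrix n n K} {c : n → ℝ} (hc : ∀ i, 0 ≤ c i)
    (h : ∀ i j, ‖A i j‖ ≤ c i) (s : Finset n) : ‖pmin A s‖ ≤ ∏ i ∈ s, c i := by
  rw [← prod_coe_sort]
  exact norm_det_le (fun i : s => hc i) fun i j => h _ _

theorem norm_esum_le {A : Matrix n n K} {c : n → ℝ} (hc : ∀ i, 0 ≤ c i)
    (h : ∀ i j, ‖A i j‖ ≤ c i) {r : ℕ} {b : ℝ} (hb0 : 0 ≤ b)
    (hb : ∀ s : Finset n, s.card = r → ∏ i ∈ s, c i ≤ b) : ‖esum r A‖ ≤ b :=
  IsUltrametricDist.norm_sum_le_of_forall_le_of_nonneg hb0 fun s hs =>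
    (norm_pmin_le hc h s).trans (hb s (mem_powersetCard.1 hs).2)

/-- **The Hodge bound** for norms. -/
theorem norm_esum_le_hodge {ρ : ℝ} (hρ : 0 ≤ ρ) (hρ1 : ρ ≤ 1) {l : n → ℕ} {q : ℕ}
    (hl : ∀ t, (univ.filter fun i => l i = t).card ≤ q) {A : Matrix n n K}
    (h : ∀ i j, ‖A i j‖ ≤ ρ ^ l i) (r : ℕ) : ‖esum r A‖ ≤ ρ ^ hodge q r := by
  refine norm_esum_le (fun i => pow_nonneg hρ _) h (pow_nonneg hρ _) fun s hs => ?_
  rw [prod_pow_eq_pow_sum, ← hs]
  exact pow_le_pow_of_le_one hρ hρ1 (sum_level_ge' l s fun t => (card_le_card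
    (filter_subset_filter _ (subset_univ s))).trans (hl t))

end Norm

end Pool.Agent.Gouv
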