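import Pool.Agent.Work.MP_d3517d_nt.Basic
import Pool.Agent.Work.MP_d3517d_nt.Levels

/-!
# MP_d3517d_nt: the sums of principal minors `cr` (library)
-/

open Polynomial Finset Matrix

namespace Gouvea

open Pool.Agent.Gouv

section Ring

variable {ι κ : Type} [Fintype ι] [DecidableEq ι] [Fintype κ] [DecidableEq κ]
  {A : Type} [CommRing A]

theorem mg_cr_eq_esum (U : Matrix ι ι A) (r : ℕ) : cr U r = esum r U := rfl

/-- `c_r` is the coefficient of `X ^ r` in `det (1 + X U)`. -/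
theorem cr_eq_coeff (U : Matrix ι ι A) (r : ℕ) :
    cr U r = (det (1 + (X : A[X]) • U.map C)).coeff r := (coeff_eP U r).symm

theorem cr_zero (U : Matrix ι ι A) : cr U 0 = 1 := esum_zero U

theorem cr_of_lt (U : Matrix ι ι A) {r : ℕ} (hr : Fintype.card ι < r) : cr U r = 0 :=
  esum_of_lt U hr

theorem cr_card (U : Matrix ι ι A) : cr U (Fintype.card ι) = U.det := esum_card U

theorem cr_mul_comm (U : Matrix ι κ A) (V : Matrix κ ι A) (r : ℕ) :
    cr (U * V) r = cr (V * U) r := esum_mul_comm U V r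

theorem cr_submatrix_equiv (e : κ ≃ ι) (U : Matrix ι ι A) (r : ℕ) :
    cr (U.submatrix e e) r = cr U r := esum_submatrix_equiv e U r

theorem cr_map {B : Type} [CommRing B] (f : A →+* B) (U : Matrix ι ι A) (r : ℕ) :
    cr (U.map f) r = f (cr U r) := esum_map f U r

theorem cr_eval (U : Matrix ι ι A[X]) (r : ℕ) (x : A) :
    (cr U r).eval x = cr (U.map fun F => F.eval x) r :=
  (cr_map (evalRingHom x) U r).symm

theorem cr_smul (c : A) (U : Matrix ι ι A) (r : ℕ) : cr (c • U) r = c ^ r * cr U r :=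
  esum_smul c U r

theorem cr_fromBlocks (U : Matrix ι ι A) (B : Matrix ι κ A) (D : Matrix κ κ A) (r : ℕ) :
    cr (fromBlocks U B 0 D) r = ∑ x ∈ antidiagonal r, cr U x.1 * cr D x.2 :=
  esum_fromBlocks U B D r

/-- Block triangular matrices: `M x y = 0` if `P y` and not `P x`. -/
theorem cr_block (M : Matrix ι ι A) (P : ι → Prop) [DecidablePred P]
    (h : ∀ x y, ¬ P x → P y → M x y = 0) (r : ℕ) :
    cr M r = ∑ x ∈ antidiagonal r,
      cr (M.submatrix (Subtype.val : {x // P x} → ι) Subtype.val) x.1 *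
      cr (M.submatrix (Subtype.val : {x // ¬ P x} → ι) Subtype.val) x.2 := by
  have h1 := cr_submatrix_equiv (Equiv.sumCompl P) M r
  have h2 : M.submatrix (Equiv.sumCompl P) (Equiv.sumCompl P) =
      fromBlocks (M.submatrix (Subtype.val : {x // P x} → ι) Subtype.val)
        (M.submatrix (Subtype.val : {x // P x} → ι) (Subtype.val : {x // ¬ P x} → ι)) 0
        (M.submatrix (Subtype.val : {x // ¬ P x} → ι) Subtype.val) := by
    ext (x | x) (y | y)
    · rfl
    · rfl
    · exact h x y x.2 y.2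
    · rfl
  rw [← h1, h2, cr_fromBlocks]

end Ring

section Field

variable {ι : Type} [Fintype ι] [DecidableEq ι] {F : Type} [Field F]

/-- If `U * V = c` then `c ^ j c_(D - j) (U) = det U * c_j (V)`. -/
theorem cr_reverse {U V : Matrix ι ι F} {c : F} (hc : c ≠ 0) (h : U * V = c • 1) {j : ℕ}
    (hj : j ≤ Fintype.card ι) :
    c ^ j * cr U (Fintype.card ι - j) = U.det * cr V j := esum_reverse hc h hj

end Field

section Padic

variable {p : ℕ} [hp : Fact p.Prime]

theorem mgVB_zero (Λ : ℤ) : VB p 0 Λ := by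
  unfold VB
  rw [norm_zero]
  positivity

theorem mgVB_add {x y : ℚ_[p]} {Λ : ℤ} (hx : VB p x Λ) (hy : VB p y Λ) : VB p (x + y) Λ :=
  (IsUltrametricDist.norm_add_le_max x y).trans (max_le hx hy)

theorem mgVB_sum {α : Type} (s : Finset α) {f : α → ℚ_[p]} {Λ : ℤ} (h : ∀ i ∈ s, VB p (f i) Λ) :
    VB p (∑ i ∈ s, f i) Λ := by
  classical
  induction s using Finset.induction_on with
  | empty => simpa using mgVB_zero Λ
  | insert a s ha ih =>
    rw [sum_insert ha]
    exact mgVB_add (h a (mem_insert_self _ _)) (ih fun i hi => h i (mem_insert_of_mem hi))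

theorem mgVB_mono {x : ℚ_[p]} {Λ Λ' : ℤ} (h : Λ' ≤ Λ) (hx : VB p x Λ) : VB p x Λ' :=
  hx.trans (zpow_le_zpow_right₀ (by exact_mod_cast hp.out.one_le) (neg_le_neg h))

theorem mgVB_mul {x y : ℚ_[p]} {Λ Λ' : ℤ} (hx : VB p x Λ) (hy : VB p y Λ') :
    VB p (x * y) (Λ + Λ') := by
  unfold VB at *
  have hp0 : (p : ℝ) ≠ 0 := by exact_mod_cast hp.out.ne_zero
  rw [norm_mul, neg_add, zpow_add₀ hp0]
  exact mul_le_mul hx hy (norm_nonneg _) (by positivity)

variable {ι : Type} [Fintype ι] [DecidableEq ι]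

omit [Fintype ι] in
/-- Rows divisible by `p ^ l x`: the minors. -/
theorem VB_minor {Q : Matrix ι ι ℚ_[p]} {l : ι → ℕ} (h : ∀ x y, VB p (Q x y) (l x))
    (R : Finset ι) : VB p (minor Q R) (∑ x ∈ R, (l x : ℤ)) := by
  have h1 := norm_pmin_le (A := Q) (c := fun x => (p : ℝ) ^ (-(l x : ℤ)))
    (fun x => by positivity) h R
  have h2 : ∏ x ∈ R, (p : ℝ) ^ (-(l x : ℤ)) = (p : ℝ) ^ (-(∑ x ∈ R, (l x : ℤ))) := by
    have hp0 : (p : ℝ) ≠ 0 := by exact_mod_cast hp.out.ne_zero
    rw [← sum_neg_distrib]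
    induction R using Finset.induction_on with
    | empty => simp
    | insert a s ha ih => rw [prod_insert ha, sum_insert ha, zpow_add₀ hp0, ih (norm_pmin_le
        (A := Q) (c := fun x => (p : ℝ) ^ (-(l x : ℤ))) (fun x => by positivity) h s)]
  unfold VB
  rw [← h2]
  exact h1

/-- Rows divisible by `p ^ l x`, all `l x ≥ m`: `v(c_r) ≥ m r`. -/
theorem VB_cr_of_le {Q : Matrix ι ι ℚ_[p]} {l : ι → ℕ} {m : ℕ} (h : ∀ x y, VB p (Q x y) (l x))
    (hm : ∀ x, m ≤ l x) (r : ℕ) : VB p (cr Q r) (m * r) := by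
  refine mgVB_sum _ fun R hR => mgVB_mono ?_ (VB_minor h R)
  have h1 : ∑ _x ∈ R, (m : ℤ) ≤ ∑ x ∈ R, (l x : ℤ) := sum_le_sum fun x _ => by
    exact_mod_cast hm x
  rw [sum_const, (mem_powersetCard.1 hR).2, nsmul_eq_mul] at h1
  linarith

/-- **The Hodge bound**: rows divisible by `p ^ l x`, every level at most `q` times. -/
theorem VB_cr_hodge {Q : Matrix ι ι ℚ_[p]} {l : ι → ℕ} {q : ℕ} (h : ∀ x y, VB p (Q x y) (l x))
    (hl : ∀ t, (univ.filter fun i => l i = t).card ≤ q) (r : ℕ) :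
    VB p (cr Q r) (hodge q r) := by
  refine mgVB_sum _ fun R hR => mgVB_mono ?_ (VB_minor h R)
  have h1 := sum_level_ge' (q := q) l R fun t => (card_le_card (filter_subset_filter _
    (subset_univ R))).trans (hl t)
  rw [(mem_powersetCard.1 hR).2] at h1
  exact_mod_cast h1

end Padic

end Gouvea
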