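import Mathlib

/-! Section 2 of note 6144, Lemma 2.1: divided powers in `p z`, the monic polynomials `C_j`,
and the factorisation of the matrices of the weight family. -/

namespace Pool.Agent.Gouv

open PowerSeries Finset

section DP

variable {B : Type*} [CommRing B] [Algebra ℚ B]

/-- Power series whose `i`-th coefficient lies in `(p^i / i!) R`. -/
def DP (R : Subring B) (p : ℕ) : Subring B⟦X⟧ where
  carrier := {f | ∀ i, ∃ r ∈ R, ((i.factorial : ℕ) : B) * coeff i f = (p : B) ^ i * r}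
  zero_mem' := fun i => ⟨0, R.zero_mem, by simp⟩
  one_mem' := by
    intro i
    rcases Nat.eq_zero_or_pos i with h | h
    · subst h
      exact ⟨1, R.one_mem, by simp⟩
    · exact ⟨0, R.zero_mem, by simp [PowerSeries.coeff_one, h.ne']⟩
  add_mem' := by
    rintro f g hf hg i
    obtain ⟨r, hr, h1⟩ := hf i
    obtain ⟨s, hs, h2⟩ := hg i
    exact ⟨r + s, R.add_mem hr hs, by rw [map_add, mul_add, h1, h2]; ring⟩
  neg_mem' := by
    rintro f hf i
    obtain ⟨r, hr, h1⟩ := hf i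
    exact ⟨-r, R.neg_mem hr, by rw [map_neg, mul_neg, h1]; ring⟩
  mul_mem' := by
    rintro f g hf hg n
    choose r hr h1 using hf
    choose s hs h2 using hg
    refine ⟨∑ x ∈ antidiagonal n, ((n.choose x.1 : ℕ) : B) * (r x.1 * s x.2), ?_, ?_⟩
    · refine R.sum_mem fun x _ => R.mul_mem ?_ (R.mul_mem (hr _) (hs _))
      exact natCast_mem R _
    · rw [PowerSeries.coeff_mul, Finset.mul_sum, Finset.mul_sum]
      refine Finset.sum_congr rfl fun x hx => ?_
      obtain ⟨i, j⟩ := x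
      have hij : i + j = n := by simpa using hx
      subst hij
      have e1 : (((i + j).factorial : ℕ) : B) = (((i + j).choose i : ℕ) : B)
          * ((i.factorial : ℕ) : B) * ((j.factorial : ℕ) : B) := by
        rw [← Nat.add_choose_mul_factorial_mul_factorial i j]
        push_cast
        rw [Nat.choose_symm_add]
      simp only
      rw [e1, pow_add]
      calc _ = (((i + j).choose i : ℕ) : B) * (((i.factorial : ℕ) : B) * coeff i f)
            * (((j.factorial : ℕ) : B) * coeff j g) := by ring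
        _ = _ := by rw [h1, h2]; ring

theorem mem_DP {R : Subring B} {p : ℕ} {f : B⟦X⟧} :
    f ∈ DP R p ↔ ∀ i, ∃ r ∈ R, ((i.factorial : ℕ) : B) * coeff i f = (p : B) ^ i * r := Iff.rfl

theorem natCast_mul_cancel {n : ℕ} (hn : n ≠ 0) {x y : B}
    (h : (n : B) * x = (n : B) * y) : x = y := by
  have h2 : (algebraMap ℚ B (1 / (n : ℚ))) * (n : B) = 1 := by
    have : ((n : ℕ) : B) = algebraMap ℚ B (n : ℚ) := by simp
    rw [this, ← map_mul]
    rw [one_div, inv_mul_cancel₀ (by exact_mod_cast hn), map_one]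
  calc x = (algebraMap ℚ B (1 / (n : ℚ))) * (n : B) * x := by rw [h2, one_mul]
    _ = (algebraMap ℚ B (1 / (n : ℚ))) * ((n : B) * x) := by ring
    _ = (algebraMap ℚ B (1 / (n : ℚ))) * ((n : B) * y) := by rw [h]
    _ = (algebraMap ℚ B (1 / (n : ℚ))) * (n : B) * y := by ring
    _ = y := by rw [h2, one_mul]

theorem exists_div {n : ℕ} (hn : n ≠ 0) (x : B) : ∃ y : B, x = (n : B) * y := by
  refine ⟨(algebraMap ℚ B (1 / (n : ℚ))) * x, ?_⟩
  have h2 : (n : B) * (algebraMap ℚ B (1 / (n : ℚ))) = 1 := by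
    have : ((n : ℕ) : B) = algebraMap ℚ B (n : ℚ) := by simp
    rw [this, ← map_mul]
    rw [one_div, mul_inv_cancel₀ (by exact_mod_cast hn), map_one]
  rw [← mul_assoc, h2, one_mul]

theorem exists_div_ps {n : ℕ} (hn : n ≠ 0) (x : B⟦X⟧) : ∃ y : B⟦X⟧, x = (n : B⟦X⟧) * y := by
  choose f hf using fun i => exists_div hn (coeff i x)
  refine ⟨PowerSeries.mk f, ?_⟩
  ext i
  have : ((n : ℕ) : B⟦X⟧) = PowerSeries.C ((n : ℕ) : B) := by simp
  rw [this, PowerSeries.coeff_C_mul, PowerSeries.coeff_mk, hf i]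

theorem ps_natCast_mul_cancel {n : ℕ} (hn : n ≠ 0) {x y : B⟦X⟧}
    (h : (n : B⟦X⟧) * x = (n : B⟦X⟧) * y) : x = y := by
  ext i
  have : ((n : ℕ) : B⟦X⟧) = PowerSeries.C ((n : ℕ) : B) := by simp
  have h2 := congrArg (coeff i) h
  rw [this, PowerSeries.coeff_C_mul, PowerSeries.coeff_C_mul] at h2
  exact natCast_mul_cancel hn h2

/-- Membership from the derivative. -/
theorem mem_DP_of_derivative {R : Subring B} {p : ℕ} {f g : B⟦X⟧}
    (h0 : coeff 0 f ∈ R) (hg : g ∈ DP R p) (h : d⁄dX B f = (p : B⟦X⟧) * g) : f ∈ DP R p := by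
  intro i
  cases i with
  | zero => exact ⟨_, h0, by simp⟩
  | succ i =>
    obtain ⟨r, hr, h1⟩ := hg i
    refine ⟨r, hr, ?_⟩
    have h2 := congrArg (coeff i) h
    rw [PowerSeries.coeff_derivative] at h2
    have : ((p : ℕ) : B⟦X⟧) = PowerSeries.C ((p : ℕ) : B) := by simp
    rw [this, PowerSeries.coeff_C_mul] at h2
    rw [Nat.factorial_succ]
    push_cast
    calc ((i : B) + 1) * ((i.factorial : ℕ) : B) * coeff (i + 1) f
        = ((i.factorial : ℕ) : B) * (coeff (i + 1) f * ((i : B) + 1)) := by ring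
      _ = (p : B) * (((i.factorial : ℕ) : B) * coeff i g) := by rw [h2]; ring
      _ = _ := by rw [h1]; ring

theorem derivative_of_mem_DP {R : Subring B} {p : ℕ} (hp : p ≠ 0) {f : B⟦X⟧}
    (hf : f ∈ DP R p) : ∃ g ∈ DP R p, d⁄dX B f = (p : B⟦X⟧) * g := by
  obtain ⟨g, hg⟩ := exists_div_ps hp (d⁄dX B f)
  refine ⟨g, ?_, hg⟩
  intro i
  obtain ⟨r, hr, h1⟩ := hf (i + 1)
  refine ⟨r, hr, ?_⟩
  have h2 := congrArg (coeff i) hg
  rw [PowerSeries.coeff_derivative] at h2
  have : ((p : ℕ) : B⟦X⟧) = PowerSeries.C ((p : ℕ) : B) := by simp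
  rw [this, PowerSeries.coeff_C_mul] at h2
  apply natCast_mul_cancel hp
  rw [Nat.factorial_succ] at h1
  push_cast at h1
  calc (p : B) * (((i.factorial : ℕ) : B) * coeff i g)
      = ((i.factorial : ℕ) : B) * ((p : B) * coeff i g) := by ring
    _ = ((i : B) + 1) * ((i.factorial : ℕ) : B) * coeff (i + 1) f := by rw [← h2]; ring
    _ = _ := by rw [h1]; ring

/-- Divided powers. -/
theorem divpow {R : Subring B} {p : ℕ} (hp : p ≠ 0) {x : B⟦X⟧} (hx : x ∈ DP R p)
    (h0 : coeff 0 x = 0) (m : ℕ) :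
    ∃ y ∈ DP R p, x ^ m = ((m.factorial : ℕ) : B⟦X⟧) * y ∧ (m ≠ 0 → coeff 0 y = 0) := by
  obtain ⟨x', hx', hd⟩ := derivative_of_mem_DP hp hx
  induction m with
  | zero => exact ⟨1, (DP R p).one_mem, by simp, fun h => absurd rfl h⟩
  | succ m ih =>
    obtain ⟨y, hy, h1, -⟩ := ih
    obtain ⟨z, hz⟩ := exists_div_ps (Nat.factorial_ne_zero (m + 1)) (x ^ (m + 1))
    have hz0 : coeff 0 z = 0 := by
      have h2 := congrArg (coeff 0) hz
      have : (((m + 1).factorial : ℕ) : B⟦X⟧) = PowerSeries.C (((m + 1).factorial : ℕ) : B) := by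
        simp
      rw [this, PowerSeries.coeff_C_mul] at h2
      have h3 : coeff 0 (x ^ (m + 1)) = 0 := by
        rw [PowerSeries.coeff_zero_eq_constantCoeff_apply] at h0 ⊢
        rw [map_pow, h0]
        exact zero_pow (Nat.succ_ne_zero m)
      rw [h3] at h2
      apply natCast_mul_cancel (Nat.factorial_ne_zero (m + 1))
      rw [← h2, mul_zero]
    refine ⟨z, ?_, hz, fun _ => hz0⟩
    refine mem_DP_of_derivative (g := y * x') (by rw [hz0]; exact R.zero_mem)
      ((DP R p).mul_mem hy hx') ?_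
    apply ps_natCast_mul_cancel (Nat.factorial_ne_zero (m + 1))
    have h4 : d⁄dX B (x ^ (m + 1)) = ((m + 1 : ℕ) : B⟦X⟧) * x ^ m * d⁄dX B x := by
      rw [Derivation.leibniz_pow]
      simp only [smul_eq_mul, nsmul_eq_mul, Nat.add_sub_cancel]
      ring
    have h5 : d⁄dX B ((((m + 1).factorial : ℕ) : B⟦X⟧) * z)
        = (((m + 1).factorial : ℕ) : B⟦X⟧) * d⁄dX B z := by
      rw [Derivation.leibniz]
      simp
    rw [← h5, ← hz, h4, h1, hd, Nat.factorial_succ]
    push_cast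
    ring


/-- `x ^ p = p * x'` with `x'` in the divided power ring, constant term `0`. -/
theorem pow_p_DP {R : Subring B} {p : ℕ} (hp : p ≠ 0) {x : B⟦X⟧} (hx : x ∈ DP R p)
    (h0 : coeff 0 x = 0) : ∃ y ∈ DP R p, x ^ p = (p : B⟦X⟧) * y ∧ coeff 0 y = 0 := by
  obtain ⟨y, hy, h1, h2⟩ := divpow hp hx h0 p
  obtain ⟨k, rfl⟩ := Nat.exists_eq_succ_of_ne_zero hp
  refine ⟨((k.factorial : ℕ) : B⟦X⟧) * y, (DP R _).mul_mem (natCast_mem _ _) hy, ?_, ?_⟩
  · rw [h1, Nat.succ_eq_add_one, Nat.factorial_succ]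
    push_cast
    ring
  · have : ((k.factorial : ℕ) : B⟦X⟧) = PowerSeries.C ((k.factorial : ℕ) : B) := by simp
    rw [this, PowerSeries.coeff_C_mul, h2 hp, mul_zero]

/-- the exponents `w_e = (p^e - 1)/(p - 1)` -/
def wE (p : ℕ) : ℕ → ℕ
  | 0 => 0
  | e + 1 => p * wE p e + 1

theorem wE_eq (p : ℕ) (hp : 1 ≤ p) (e : ℕ) : (p - 1) * wE p e + 1 = p ^ e := by
  induction e with
  | zero => simp [wE]
  | succ e ih =>
    rw [pow_succ, ← ih, wE]
    obtain ⟨k, rfl⟩ := Nat.exists_eq_add_of_le hp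
    simp only [Nat.add_sub_cancel_left]
    ring

theorem wE_lt (p : ℕ) (hp : 1 ≤ p) (e : ℕ) : wE p e + 1 ≤ wE p (e + 1) := by
  rw [wE]
  have := Nat.mul_le_mul_right (wE p e) hp
  omega

/-- the polynomials `C^(e)` -/
noncomputable def Ce (p : ℕ) : ℕ → Polynomial ℤ
  | 0 => Polynomial.X
  | e + 1 => (Ce p e) ^ p - Polynomial.C ((p : ℤ) ^ (p ^ e - 1)) * Ce p e

theorem Ce_monic (p : ℕ) (hp : 2 ≤ p) (e : ℕ) :
    (Ce p e).Monic ∧ (Ce p e).natDegree = p ^ e := by
  induction e with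
  | zero => exact ⟨Polynomial.monic_X, by simp [Ce]⟩
  | succ e ih =>
    obtain ⟨h1, h2⟩ := ih
    have hm : ((Ce p e) ^ p).Monic := h1.pow p
    have hd : ((Ce p e) ^ p).natDegree = p ^ (e + 1) := by
      rw [h1.natDegree_pow, h2, pow_succ, mul_comm]
    have hlt : (Polynomial.C ((p : ℤ) ^ (p ^ e - 1)) * Ce p e).natDegree
        < ((Ce p e) ^ p).natDegree := by
      refine lt_of_le_of_lt (Polynomial.natDegree_C_mul_le _ _) ?_
      rw [hd, h2]
      exact Nat.pow_lt_pow_right (by omega) (Nat.lt_succ_self e)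
    constructor
    · rw [Ce]
      exact hm.sub_of_left (Polynomial.degree_lt_degree hlt)
    · rw [Ce, Polynomial.natDegree_sub_eq_left_of_natDegree_lt hlt, hd]

/-- The ring of values: a subring of `R` in which `t^p - t` is divisible by `p`. -/
structure Frob (R T : Subring B) (p : ℕ) : Prop where
  le : T ≤ R
  frob : ∀ t ∈ T, ∃ s ∈ T, t ^ p - t = (p : B) * s

theorem C_mem_DP {R : Subring B} {p : ℕ} {r : B} (hr : r ∈ R) : PowerSeries.C r ∈ DP R p := by
  intro i
  rcases Nat.eq_zero_or_pos i with h | h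
  · subst h
    exact ⟨r, hr, by simp⟩
  · exact ⟨0, R.zero_mem, by simp [PowerSeries.coeff_C, h.ne']⟩

/-- Expansion of the `p`-th power of `p^w t + p^s x`. -/
theorem pow_expand {R T : Subring B} {p : ℕ} (hp : p.Prime) (hT : T ≤ R)
    {t : B} (ht : t ∈ T) {x : B⟦X⟧} (hx : x ∈ DP R p) (h0 : coeff 0 x = 0) (w s : ℕ)
    (hws : s ≤ w) :
    ∃ x' ∈ DP R p, coeff 0 x' = 0 ∧
      ((p : B⟦X⟧) ^ w * PowerSeries.C t + (p : B⟦X⟧) ^ s * x) ^ p
        = (p : B⟦X⟧) ^ (p * w) * PowerSeries.C (t ^ p) + (p : B⟦X⟧) ^ (p * s + 1) * x' := by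
  obtain ⟨k, rfl⟩ := Nat.exists_eq_add_of_le hws
  obtain ⟨y, hy, hy1, hy0⟩ := pow_p_DP hp.ne_zero hx h0
  set a : B⟦X⟧ := (p : B⟦X⟧) ^ k * PowerSeries.C t with ha
  have hamem : a ∈ DP R p :=
    (DP R p).mul_mem ((DP R p).pow_mem (natCast_mem _ _) _) (C_mem_DP (hT ht))
  set Q : B⟦X⟧ := ∑ k ∈ Ioo 0 p, a ^ (k - 1) * x ^ (p - k - 1) * ((p.choose k / p : ℕ) : B⟦X⟧)
    with hQ
  have hQmem : Q ∈ DP R p := by
    refine (DP R p).sum_mem fun j _ => ?_
    exact (DP R p).mul_mem ((DP R p).mul_mem ((DP R p).pow_mem hamem _)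
      ((DP R p).pow_mem hx _)) (natCast_mem _ _)
  have hexp : (a + x) ^ p = a ^ p + x ^ p + p * a * x * Q := add_pow_prime_eq hp a x
  refine ⟨y + a * x * Q, (DP R p).add_mem hy ((DP R p).mul_mem
    ((DP R p).mul_mem hamem hx) hQmem), ?_, ?_⟩
  · rw [PowerSeries.coeff_zero_eq_constantCoeff_apply] at *
    rw [map_add, map_mul, map_mul, hy0, h0]
    ring
  · have e1 : (p : B⟦X⟧) ^ (s + k) * PowerSeries.C t + (p : B⟦X⟧) ^ s * x
        = (p : B⟦X⟧) ^ s * (a + x) := by
      rw [ha]; ring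
    rw [e1, mul_pow, hexp, hy1, ha, mul_pow, map_pow]
    ring

/-- Claim in the proof of Lemma 2.1. -/
theorem Ce_eval {R T : Subring B} {p : ℕ} (hp : p.Prime) (hT : Frob R T p)
    {y : B⟦X⟧} (hy : y ∈ DP R p) (hy0 : coeff 0 y ∈ T) (e : ℕ) :
    ∃ t ∈ T, ∃ x ∈ DP R p, coeff 0 x = 0 ∧ Polynomial.aeval y (Ce p e)
      = (p : B⟦X⟧) ^ (wE p e) * PowerSeries.C t + (p : B⟦X⟧) ^ (wE p (e - 1)) * x := by
  have hp1 : 1 ≤ p := hp.one_le
  have hx0mem : y - PowerSeries.C (coeff 0 y) ∈ DP R p :=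
    (DP R p).sub_mem hy (C_mem_DP (hT.le hy0))
  have hx00 : coeff 0 (y - PowerSeries.C (coeff 0 y)) = 0 := by
    simp
  induction e with
  | zero =>
    refine ⟨coeff 0 y, hy0, y - PowerSeries.C (coeff 0 y), hx0mem, hx00, ?_⟩
    simp [Ce, wE]
  | succ e ih =>
    obtain ⟨t, ht, x, hx, hx0, h1⟩ := ih
    obtain ⟨s, hs, hts⟩ := hT.frob t ht
    have hmono : wE p (e - 1) ≤ wE p e := by
      cases e with
      | zero => exact le_rfl
      | succ e => have := wE_lt p hp1 e; simp only [Nat.add_sub_cancel]; omega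
    obtain ⟨x', hx', hx0', h2⟩ := pow_expand hp hT.le ht hx hx0 (wE p e) (wE p (e - 1)) hmono
    have hpe : p ^ e - 1 = (p - 1) * wE p e := by
      have := wE_eq p hp1 e; omega
    have hpw : (p - 1) * wE p e + wE p e = p * wE p e := by
      obtain ⟨k, rfl⟩ := Nat.exists_eq_add_of_le hp1
      simp only [Nat.add_sub_cancel_left]
      ring
    have hC : Polynomial.aeval y (Ce p (e + 1)) =
        (p : B⟦X⟧) ^ (p * wE p e + 1) * PowerSeries.C s
          + ((p : B⟦X⟧) ^ (p * wE p (e - 1) + 1) * x'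
          - (p : B⟦X⟧) ^ (p ^ e - 1 + wE p (e - 1)) * x) := by
      rw [Ce, map_sub, map_pow, map_mul, h1, h2, Polynomial.aeval_C]
      have e2 : (algebraMap ℤ B⟦X⟧ ((p : ℤ) ^ (p ^ e - 1))) = (p : B⟦X⟧) ^ (p ^ e - 1) := by
        simp
      have e3 : PowerSeries.C (t ^ p) = PowerSeries.C t + (p : B⟦X⟧) * PowerSeries.C s := by
        have : t ^ p = t + (p : B) * s := by rw [← hts]; ring
        rw [this, map_add, map_mul]
        simp
      rw [e2, e3, hpe]
      have e4 : (p : B⟦X⟧) ^ (p * wE p e) = (p : B⟦X⟧) ^ ((p - 1) * wE p e)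
          * (p : B⟦X⟧) ^ (wE p e) := by
        rw [← pow_add, hpw]
      rw [pow_add, pow_add, pow_add, e4, pow_one]
      ring
    rcases Nat.eq_zero_or_pos e with he | he
    · subst he
      refine ⟨s, hs, (p : B⟦X⟧) * x' - x, (DP R p).sub_mem ((DP R p).mul_mem
        (natCast_mem _ _) hx') hx, ?_, ?_⟩
      · rw [PowerSeries.coeff_zero_eq_constantCoeff_apply] at *
        rw [map_sub, map_mul, hx0', hx0]
        ring
      · rw [hC]
        simp [wE]
    · obtain ⟨f, rfl⟩ : ∃ f, e = f + 1 := ⟨e - 1, by omega⟩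
      have hle : p * wE p f + 1 ≤ p ^ (f + 1) - 1 + wE p f := by
        have h3 := wE_lt p hp1 f
        have h4 : (p - 1) * (wE p f + 1) ≤ (p - 1) * wE p (f + 1) := Nat.mul_le_mul_left _ h3
        have h5 : (p - 1) * wE p f + wE p f = p * wE p f := by
          obtain ⟨k, rfl⟩ := Nat.exists_eq_add_of_le hp1
          simp only [Nat.add_sub_cancel_left]
          ring
        have h6 : 1 ≤ p - 1 := by have := hp.two_le; omega
        rw [hpe]
        rw [mul_add] at h4
        omega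
      obtain ⟨d, hd⟩ := Nat.exists_eq_add_of_le hle
      refine ⟨s, hs, x' - (p : B⟦X⟧) ^ d * x, (DP R p).sub_mem hx' ((DP R p).mul_mem
        ((DP R p).pow_mem (natCast_mem _ _) _) hx), ?_, ?_⟩
      · rw [PowerSeries.coeff_zero_eq_constantCoeff_apply] at *
        rw [map_sub, map_mul, hx0', hx0]
        ring
      · rw [hC]
        simp only [Nat.add_sub_cancel] at hd ⊢
        have e5 : wE p (f + 1 + 1) = p * wE p (f + 1) + 1 := rfl
        have e6 : wE p (f + 1) = p * wE p f + 1 := rfl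
        rw [hd, e5]
        nth_rewrite 3 [e6]
        ring

/-- The polynomials `C_j`. -/
theorem exists_poly_aux {R T : Subring B} {p : ℕ} [hp : Fact p.Prime] (hT : Frob R T p) (j : ℕ) :
    ∀ e, 1 ≤ e → ∃ P : Polynomial ℤ, P.Monic ∧ P.natDegree = p ^ e * j ∧
      ∀ y ∈ DP R p, coeff 0 y ∈ T → ∃ g ∈ DP R p, Polynomial.aeval y P
        = (p : B⟦X⟧) ^ (wE p (e - 1) * j + padicValNat p j.factorial) * g := by
  induction j using Nat.strong_induction_on with
  | _ j ih =>
    intro e he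
    rcases Nat.eq_zero_or_pos j with hj | hj
    · subst hj
      exact ⟨1, Polynomial.monic_one, by simp, fun y _ _ => ⟨1, (DP R p).one_mem, by simp⟩⟩
    · have hlt : j / p < j := Nat.div_lt_self hj hp.out.one_lt
      obtain ⟨P, hP1, hP2, hP3⟩ := ih (j / p) hlt (e + 1) (by omega)
      obtain ⟨hm, hd⟩ := Ce_monic p hp.out.two_le e
      refine ⟨(Ce p e) ^ (j % p) * P, (hm.pow _).mul hP1, ?_, ?_⟩
      · rw [(hm.pow _).natDegree_mul hP1, hm.natDegree_pow, hd, hP2]
        have := Nat.div_add_mod j p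
        nth_rewrite 3 [← this]
        ring
      · intro y hy hy0
        obtain ⟨g, hg, h1⟩ := hP3 y hy hy0
        obtain ⟨t, ht, x, hx, hx0, h2⟩ := Ce_eval hp.out hT hy hy0 e
        have hle : wE p (e - 1) ≤ wE p e := by
          obtain ⟨f, rfl⟩ : ∃ f, e = f + 1 := ⟨e - 1, by omega⟩
          have := wE_lt p hp.out.one_le f
          simp only [Nat.add_sub_cancel]; omega
        obtain ⟨d, hd'⟩ := Nat.exists_eq_add_of_le hle
        have h3 : Polynomial.aeval y (Ce p e) = (p : B⟦X⟧) ^ (wE p (e - 1)) *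
            ((p : B⟦X⟧) ^ d * PowerSeries.C t + x) := by
          rw [h2, hd']; ring
        refine ⟨((p : B⟦X⟧) ^ d * PowerSeries.C t + x) ^ (j % p) * g,
          (DP R p).mul_mem ((DP R p).pow_mem ((DP R p).add_mem ((DP R p).mul_mem
            ((DP R p).pow_mem (natCast_mem _ _) _) (C_mem_DP (hT.le ht))) hx) _) hg, ?_⟩
        rw [map_mul, map_pow, h1, h3, mul_pow]
        have hfac : padicValNat p j.factorial = padicValNat p (j / p).factorial + j / p := by
          rw [← padicValNat_mul_div_factorial, padicValNat_factorial_mul]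
        have hexp : wE p (e - 1) * j + padicValNat p j.factorial
            = wE p (e - 1) * (j % p) + (wE p (e + 1 - 1) * (j / p)
              + padicValNat p (j / p).factorial) := by
          obtain ⟨f, rfl⟩ : ∃ f, e = f + 1 := ⟨e - 1, by omega⟩
          have e5 : wE p (f + 1 + 1 - 1) = p * wE p f + 1 := rfl
          rw [e5, hfac, Nat.add_sub_cancel]
          have := Nat.div_add_mod j p
          nth_rewrite 1 [← this]
          ring
        rw [hexp, pow_add, pow_add, pow_mul]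
        ring

theorem exists_poly {R T : Subring B} {p : ℕ} [hp : Fact p.Prime] (hT : Frob R T p) (j : ℕ) :
    ∃ P : Polynomial ℤ, P.Monic ∧ P.natDegree = j ∧
      ∀ y ∈ DP R p, coeff 0 y ∈ T → ∃ g ∈ DP R p, Polynomial.aeval y P
        = (p : B⟦X⟧) ^ (padicValNat p (j / p).factorial) * g := by
  obtain ⟨P, hP1, hP2, hP3⟩ := exists_poly_aux hT (j / p) 1 le_rfl
  refine ⟨Polynomial.X ^ (j % p) * P, (Polynomial.monic_X_pow _).mul hP1, ?_, ?_⟩
  · rw [(Polynomial.monic_X_pow _).natDegree_mul hP1, hP2, Polynomial.natDegree_X_pow]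
    have := Nat.div_add_mod j p
    rw [pow_one]
    omega
  · intro y hy hy0
    obtain ⟨g, hg, h1⟩ := hP3 y hy hy0
    refine ⟨y ^ (j % p) * g, (DP R p).mul_mem ((DP R p).pow_mem hy _) hg, ?_⟩
    rw [map_mul, map_pow, Polynomial.aeval_X, h1]
    simp only [wE, Nat.sub_self, zero_mul, zero_add]
    ring

end DP

/-- expansion of `X^j` in a sequence of monic polynomials -/
theorem exists_expansion (P : ℕ → Polynomial ℤ) (h : ∀ j, (P j).Monic ∧ (P j).natDegree = j) :
    ∃ H : ℕ → ℕ → ℤ, ∀ j, Polynomial.X ^ j = ∑ k ∈ range (j + 1), Polynomial.C (H k j) * P k := by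
  have key : ∀ n : ℕ, ∀ f : Polynomial ℤ, f.natDegree ≤ n →
      ∃ H : ℕ → ℤ, f = ∑ k ∈ range (n + 1), Polynomial.C (H k) * P k := by
    intro n
    induction n with
    | zero =>
      intro f hf
      have h0 : P 0 = 1 := by
        have := h 0
        exact Polynomial.eq_one_of_monic_natDegree_zero this.1 this.2
      refine ⟨fun _ => f.coeff 0, ?_⟩
      rw [zero_add, Finset.sum_range_one, h0, mul_one]
      exact Polynomial.eq_C_of_natDegree_le_zero hf
    | succ n ih =>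
      intro f hf
      set c := f.coeff (n + 1) with hc
      have hdeg : (f - Polynomial.C c * P (n + 1)).natDegree ≤ n := by
        rw [Polynomial.natDegree_le_iff_coeff_eq_zero]
        intro N hN
        rw [Polynomial.coeff_sub, Polynomial.coeff_C_mul]
        rcases Nat.lt_or_ge (n + 1) N with h1 | h1
        · rw [Polynomial.coeff_eq_zero_of_natDegree_lt (lt_of_le_of_lt hf h1),
            Polynomial.coeff_eq_zero_of_natDegree_lt (by rw [(h (n + 1)).2]; exact h1)]
          ring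
        · have hNn : N = n + 1 := by omega
          subst hNn
          have : (P (n + 1)).coeff (n + 1) = 1 := by
            have h2 := (h (n + 1)).1.coeff_natDegree
            rwa [(h (n + 1)).2] at h2
          rw [this, hc]
          ring
      obtain ⟨H, hH⟩ := ih _ hdeg
      refine ⟨fun k => if k = n + 1 then c else H k, ?_⟩
      rw [Finset.sum_range_succ]
      simp only [if_true]
      have : ∑ k ∈ range (n + 1), Polynomial.C (if k = n + 1 then c else H k) * P k
          = ∑ k ∈ range (n + 1), Polynomial.C (H k) * P k := by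
        refine Finset.sum_congr rfl fun k hk => ?_
        have : k ≠ n + 1 := by have := Finset.mem_range.mp hk; omega
        rw [if_neg this]
      rw [this, ← hH]
      ring
  choose H hH using fun j : ℕ => key j (Polynomial.X ^ j) (by simp)
  exact ⟨fun k j => H j k, fun j => hH j⟩

/-- Lemma 2.1: the powers of `y` in terms of divided powers. -/
theorem exists_family {B : Type*} [CommRing B] [Algebra ℚ B] {R T : Subring B} {p : ℕ}
    [hp : Fact p.Prime] (hT : Frob R T p) :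
    ∃ H : ℕ → ℕ → ℤ, ∀ y ∈ DP R p, coeff 0 y ∈ T → ∃ gg : ℕ → B⟦X⟧,
      (∀ k, gg k ∈ DP R p) ∧ ∀ j, y ^ j = ∑ k ∈ range (j + 1), ((H k j : ℤ) : B⟦X⟧) *
        ((p : B⟦X⟧) ^ (padicValNat p (k / p).factorial) * gg k) := by
  choose P hP1 hP2 hP3 using fun j => exists_poly (p := p) hT j
  obtain ⟨H, hH⟩ := exists_expansion P fun j => ⟨hP1 j, hP2 j⟩
  refine ⟨H, fun y hy hy0 => ?_⟩
  choose gg hgg1 hgg2 using fun k => hP3 k y hy hy0
  refine ⟨gg, hgg1, fun j => ?_⟩
  have h2 := congrArg (Polynomial.aeval y) (hH j)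
  rw [map_pow, Polynomial.aeval_X, map_sum] at h2
  rw [h2]
  refine Finset.sum_congr rfl fun k _ => ?_
  rw [map_mul, hgg2 k, Polynomial.aeval_C]
  simp

end Pool.Agent.Gouv
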