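import Pool.Agent.Work.MP_d3517d_nt.FamDef
import Pool.Agent.Work.MP_d3517d_nt.DivPow

/-! Lemma 2.1 of note 6144 in coordinates: the factorisation `D_φ G D_ψ H` of the weight family. -/

open Finset

noncomputable section

namespace Gouvea

open Pool.Agent.Gouv

section

variable (p : ℕ) [hp : Fact p.Prime]

/-- integral polynomials in `κ` -/
def RInt : Subring (Polynomial ℚ_[p]) := (Polynomial.mapRingHom (algebraMap ℤ_[p] ℚ_[p])).range

/-- constants in `ℤ_p` -/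
def TInt : Subring (Polynomial ℚ_[p]) :=
  ((Polynomial.C).comp (algebraMap ℤ_[p] ℚ_[p])).range

variable {p}

theorem C_mem_RInt {x : ℚ_[p]} (hx : ‖x‖ ≤ 1) : Polynomial.C x ∈ RInt p :=
  ⟨Polynomial.C ⟨x, hx⟩, by simp⟩

theorem C_mem_TInt {x : ℚ_[p]} (hx : ‖x‖ ≤ 1) : Polynomial.C x ∈ TInt p :=
  ⟨⟨x, hx⟩, by simp⟩

theorem GB_of_mem_RInt {f : Polynomial ℚ_[p]} (hf : f ∈ RInt p) : GB p f 0 := by
  obtain ⟨g, rfl⟩ := hf
  intro i
  simp only [VB, neg_zero, zpow_zero, Polynomial.coe_mapRingHom, Polynomial.coeff_map]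
  exact PadicInt.norm_le_one (g.coeff i)

theorem frob_padic : Frob (RInt p) (TInt p) p where
  le := by
    rintro _ ⟨t, rfl⟩
    exact ⟨Polynomial.C t, by simp⟩
  frob := by
    rintro _ ⟨t, rfl⟩
    have h1 : (p : ℤ_[p]) ∣ t ^ p - t := by
      have h2 : PadicInt.toZMod (t ^ p - t) = 0 := by
        rw [map_sub, map_pow, ZMod.pow_card, sub_self]
      have h3 : t ^ p - t ∈ RingHom.ker (PadicInt.toZMod (p := p)) := h2
      rw [PadicInt.ker_toZMod, PadicInt.maximalIdeal_eq_span_p] at h3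
      exact Ideal.mem_span_singleton.mp h3
    obtain ⟨s, hs⟩ := h1
    refine ⟨_, ⟨s, rfl⟩, ?_⟩
    rw [← map_pow, ← map_sub, hs, map_mul]
    simp

theorem exists_norm_p_mul {x : ℤ_[p]} (h : (p : ℤ_[p]) ∣ x) :
    ∃ y : ℚ_[p], ‖y‖ ≤ 1 ∧ (x : ℚ_[p]) = p * y := by
  obtain ⟨y, rfl⟩ := h
  exact ⟨y, PadicInt.norm_le_one y, by simp⟩

theorem norm_unit_inv {d : ℤ_[p]} (hd : IsUnit d) : ‖(d : ℚ_[p])‖ = 1 := by
  have := PadicInt.isUnit_iff.mp hd
  simpa using this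

theorem wtP_mem (n0 : ℕ) : wtP p n0 ∈ RInt p := by
  unfold wtP
  refine (RInt p).add_mem (C_mem_RInt ?_) ((RInt p).mul_mem (C_mem_RInt ?_) ?_)
  · exact_mod_cast Padic.norm_int_le_one (p := p) (n0 : ℤ)
  · have := Padic.norm_int_le_one (p := p) ((p : ℤ) - 1)
    push_cast at this
    exact this
  · exact ⟨Polynomial.X, by simp⟩

/-- binomial series with a `p`-divisible argument -/
theorem binS_mem {m : Polynomial ℚ_[p]} (hm : m ∈ RInt p) {u : ℚ_[p]} (hu : ‖u‖ ≤ 1) :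
    PowerSeries.rescale (Polynomial.C ((p : ℚ_[p]) * u))
      (PowerSeries.binomialSeries (Polynomial ℚ_[p]) m) ∈ DP (RInt p) p := by
  intro i
  refine ⟨(Polynomial.C u) ^ i * (descPochhammer ℤ i).smeval m, ?_, ?_⟩
  · refine (RInt p).mul_mem ((RInt p).pow_mem (C_mem_RInt hu) _) ?_
    rw [Polynomial.smeval_eq_sum]
    refine (RInt p).sum_mem fun k _ => ?_
    simp only [Polynomial.smul_pow]
    exact (RInt p).zsmul_mem ((RInt p).pow_mem hm _) _
  · rw [PowerSeries.coeff_rescale, PowerSeries.binomialSeries_coeff,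
      Ring.descPochhammer_eq_factorial_smul_choose]
    simp only [smul_eq_mul, mul_one, nsmul_eq_mul, map_mul, mul_pow, map_natCast]
    ring

theorem Pd_mem (J : ℕ) {d : ℤ_[p]} (hd : IsUnit d) : Pd p J (d : ℚ_[p]) ∈ RInt p := by
  unfold Pd
  refine (RInt p).sum_mem fun t _ => ?_
  have h1 : (p : ℤ_[p]) ∣ d ^ (p - 1) - 1 := by
    have h2 : PadicInt.toZMod (d ^ (p - 1) - 1) = 0 := by
      rw [map_sub, map_pow, map_one, ZMod.pow_card_sub_one_eq_one, sub_self]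
      exact (hd.map (PadicInt.toZMod (p := p))).ne_zero
    have h3 : d ^ (p - 1) - 1 ∈ RingHom.ker (PadicInt.toZMod (p := p)) := h2
    rw [PadicInt.ker_toZMod, PadicInt.maximalIdeal_eq_span_p] at h3
    exact Ideal.mem_span_singleton.mp h3
  obtain ⟨y, hy, hy2⟩ := exists_norm_p_mul h1
  have hy3 : ((d : ℚ_[p])) ^ (p - 1) - 1 = p * y := by
    rw [← hy2]; push_cast; ring
  rw [hy3]
  have h4 : ((t.factorial : ℕ) : Polynomial ℚ_[p]) * Ring.choose (Polynomial.X : Polynomial ℚ_[p]) t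
      = (descPochhammer ℤ t).smeval (Polynomial.X : Polynomial ℚ_[p]) := by
    rw [Ring.descPochhammer_eq_factorial_smul_choose, nsmul_eq_mul]
  have h5 : (descPochhammer ℤ t).smeval (Polynomial.X : Polynomial ℚ_[p]) ∈ RInt p := by
    rw [Polynomial.smeval_eq_sum]
    refine (RInt p).sum_mem fun k _ => ?_
    simp only [Polynomial.smul_pow]
    exact (RInt p).zsmul_mem ((RInt p).pow_mem ⟨Polynomial.X, by simp⟩ _) _
  have hfac : ((t.factorial : ℕ) : ℚ_[p]) ≠ 0 := by exact_mod_cast Nat.factorial_ne_zero t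
  have h6 : Ring.choose (Polynomial.X : Polynomial ℚ_[p]) t * Polynomial.C (((p : ℚ_[p]) * y) ^ t)
      = Polynomial.C ((p : ℚ_[p]) ^ t / (t.factorial : ℕ)) * Polynomial.C (y ^ t)
        * (descPochhammer ℤ t).smeval (Polynomial.X : Polynomial ℚ_[p]) := by
    rw [← h4, mul_pow, ← Polynomial.C_mul]
    have : ((t.factorial : ℕ) : Polynomial ℚ_[p]) = Polynomial.C ((t.factorial : ℕ) : ℚ_[p]) := by
      simp
    rw [this]
    have e : Polynomial.C ((p : ℚ_[p]) ^ t / (t.factorial : ℕ) * y ^ t)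
        * (Polynomial.C ((t.factorial : ℕ) : ℚ_[p]) * Ring.choose (Polynomial.X : Polynomial ℚ_[p]) t)
        = Polynomial.C ((p : ℚ_[p]) ^ t / (t.factorial : ℕ) * y ^ t * ((t.factorial : ℕ) : ℚ_[p]))
          * Ring.choose (Polynomial.X : Polynomial ℚ_[p]) t := by
      rw [Polynomial.C_mul (a := (p : ℚ_[p]) ^ t / (t.factorial : ℕ) * y ^ t)]
      ring
    rw [e, mul_comm]
    congr 2
    field_simp
  rw [h6]
  refine (RInt p).mul_mem ((RInt p).mul_mem (C_mem_RInt ?_) (C_mem_RInt ?_)) h5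
  · rw [norm_div, norm_pow, Padic.norm_p, div_le_one (norm_pos_iff.mpr hfac)]
    have h7 : ‖((t.factorial : ℕ) : ℚ_[p])‖ = (p : ℝ) ^ (-(padicValNat p t.factorial : ℤ)) := by
      rw [Padic.norm_eq_zpow_neg_valuation hfac, Padic.valuation_natCast]
    rw [h7]
    have h8 : padicValNat p t.factorial ≤ t := by
      have := sub_one_mul_padicValNat_factorial (p := p) t
      have h9 : padicValNat p t.factorial ≤ (p - 1) * padicValNat p t.factorial := by
        have : 1 ≤ p - 1 := by have := hp.out.two_le; omega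
        nlinarith
      omega
    have hp1 : (1 : ℝ) ≤ p := by exact_mod_cast hp.out.one_le
    rw [inv_pow, ← zpow_natCast, ← zpow_neg]
    exact zpow_le_zpow_right₀ hp1 (by omega)
  · rw [norm_pow]
    exact pow_le_one₀ (norm_nonneg _) hy

/-- the series `y = (a z + b) / (c z + d)` -/
def ySer (g : Matrix (Fin 2) (Fin 2) ℤ_[p]) : PowerSeries (Polynomial ℚ_[p]) :=
  PowerSeries.C (Polynomial.C ((g 1 1 : ℚ_[p])⁻¹)) *
    PowerSeries.rescale (Polynomial.C ((g 1 0 : ℚ_[p]) / (g 1 1 : ℚ_[p])))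
      (PowerSeries.binomialSeries (Polynomial ℚ_[p]) (-1 : Polynomial ℚ_[p])) *
    (PowerSeries.C (Polynomial.C (g 0 0 : ℚ_[p])) * PowerSeries.X +
      PowerSeries.C (Polynomial.C (g 0 1 : ℚ_[p])))

/-- the factor of automorphy -/
def FSer (n0 J : ℕ) (g : Matrix (Fin 2) (Fin 2) ℤ_[p]) : PowerSeries (Polynomial ℚ_[p]) :=
  PowerSeries.C (Polynomial.C ((g 1 1 : ℚ_[p]) ^ (n0 : ℤ)) * Pd p J (g 1 1 : ℚ_[p])) *
    PowerSeries.rescale (Polynomial.C ((g 1 0 : ℚ_[p]) / (g 1 1 : ℚ_[p])))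
      (PowerSeries.binomialSeries (Polynomial ℚ_[p]) (wtP p n0))

theorem binS_sub (m : Polynomial ℚ_[p]) (j : ℕ) :
    PowerSeries.binomialSeries (Polynomial ℚ_[p]) (m - (j : Polynomial ℚ_[p]))
      = PowerSeries.binomialSeries (Polynomial ℚ_[p]) m *
        (PowerSeries.binomialSeries (Polynomial ℚ_[p]) (-1 : Polynomial ℚ_[p])) ^ j := by
  induction j with
  | zero => simp
  | succ j ih =>
    have : m - ((j + 1 : ℕ) : Polynomial ℚ_[p]) = (m - (j : Polynomial ℚ_[p])) + (-1) := by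
      push_cast; ring
    rw [this, PowerSeries.binomialSeries_add, ih, pow_succ, mul_assoc]

theorem famS_eq (n0 J : ℕ) {g : Matrix (Fin 2) (Fin 2) ℤ_[p]} (h11 : IsUnit (g 1 1)) (j : ℕ) :
    famS n0 J g j = FSer n0 J g * ySer g ^ j := by
  have hd : (g 1 1 : ℚ_[p]) ≠ 0 := by
    have := norm_unit_inv h11
    intro h
    rw [h, norm_zero] at this
    exact zero_ne_one this
  unfold famS FSer ySer
  rw [binS_sub, map_mul (PowerSeries.rescale _), map_pow (PowerSeries.rescale _)]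
  have e1 : (g 1 1 : ℚ_[p]) ^ ((n0 : ℤ) - (j : ℤ)) = (g 1 1 : ℚ_[p]) ^ (n0 : ℤ) *
      ((g 1 1 : ℚ_[p])⁻¹) ^ j := by
    rw [zpow_sub₀ hd, zpow_natCast (g 1 1 : ℚ_[p]) j, inv_pow, div_eq_mul_inv]
  rw [e1, Polynomial.C_mul, Polynomial.C_pow, mul_pow, mul_pow, ← map_pow (PowerSeries.C)]
  simp only [map_mul]
  ring

theorem div_of_dvd {g : Matrix (Fin 2) (Fin 2) ℤ_[p]} (h10 : (p : ℤ_[p]) ∣ g 1 0)
    (h11 : IsUnit (g 1 1)) :
    ∃ u : ℚ_[p], ‖u‖ ≤ 1 ∧ (g 1 0 : ℚ_[p]) / (g 1 1 : ℚ_[p]) = p * u := by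
  obtain ⟨y, hy, hy2⟩ := exists_norm_p_mul h10
  refine ⟨y / (g 1 1 : ℚ_[p]), ?_, by rw [hy2]; ring⟩
  rw [norm_div, norm_unit_inv h11, div_one]
  exact hy

theorem FSer_mem (n0 J : ℕ) {g : Matrix (Fin 2) (Fin 2) ℤ_[p]} (h10 : (p : ℤ_[p]) ∣ g 1 0)
    (h11 : IsUnit (g 1 1)) : FSer n0 J g ∈ DP (RInt p) p := by
  obtain ⟨u, hu, hu2⟩ := div_of_dvd h10 h11
  unfold FSer
  rw [hu2]
  refine (DP (RInt p) p).mul_mem (C_mem_DP ((RInt p).mul_mem (C_mem_RInt ?_) (Pd_mem J h11)))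
    (binS_mem (wtP_mem n0) hu)
  rw [norm_zpow, norm_unit_inv h11, one_zpow]

theorem lin_mem {a b : ℤ_[p]} (ha : (p : ℤ_[p]) ∣ a) :
    (PowerSeries.C (Polynomial.C (a : ℚ_[p])) * PowerSeries.X +
      PowerSeries.C (Polynomial.C (b : ℚ_[p]))) ∈ DP (RInt p) p := by
  obtain ⟨y, hy, hy2⟩ := exists_norm_p_mul ha
  refine (DP (RInt p) p).add_mem ?_ (C_mem_DP (C_mem_RInt (PadicInt.norm_le_one b)))
  intro i
  rcases eq_or_ne i 1 with h | h
  · subst h
    refine ⟨Polynomial.C y, C_mem_RInt hy, ?_⟩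
    rw [PowerSeries.coeff_C_mul, PowerSeries.coeff_X, if_pos rfl, hy2]
    simp
  · refine ⟨0, (RInt p).zero_mem, ?_⟩
    rw [PowerSeries.coeff_C_mul, PowerSeries.coeff_X, if_neg h]
    simp

theorem ySer_mem {g : Matrix (Fin 2) (Fin 2) ℤ_[p]} (h00 : (p : ℤ_[p]) ∣ g 0 0)
    (h10 : (p : ℤ_[p]) ∣ g 1 0) (h11 : IsUnit (g 1 1)) : ySer g ∈ DP (RInt p) p := by
  obtain ⟨u, hu, hu2⟩ := div_of_dvd h10 h11
  unfold ySer
  rw [hu2]
  refine (DP (RInt p) p).mul_mem ((DP (RInt p) p).mul_mem (C_mem_DP (C_mem_RInt ?_))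
    (binS_mem ((RInt p).neg_mem (RInt p).one_mem) hu)) (lin_mem h00)
  rw [norm_inv, norm_unit_inv h11, inv_one]

theorem ySer_coeff_zero {g : Matrix (Fin 2) (Fin 2) ℤ_[p]} (h11 : IsUnit (g 1 1)) :
    PowerSeries.coeff 0 (ySer g) ∈ TInt p := by
  have : PowerSeries.coeff 0 (ySer g) = Polynomial.C ((g 1 1 : ℚ_[p])⁻¹ * (g 0 1 : ℚ_[p])) := by
    rw [PowerSeries.coeff_zero_eq_constantCoeff_apply]
    unfold ySer
    rw [map_mul, map_mul, map_add, map_mul]
    have : PowerSeries.constantCoeff (PowerSeries.rescale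
        (Polynomial.C ((g 1 0 : ℚ_[p]) / (g 1 1 : ℚ_[p])))
        (PowerSeries.binomialSeries (Polynomial ℚ_[p]) (-1 : Polynomial ℚ_[p]))) = 1 := by
      rw [← PowerSeries.coeff_zero_eq_constantCoeff_apply, PowerSeries.coeff_rescale,
        PowerSeries.binomialSeries_coeff]
      simp
    rw [this]
    simp
  rw [this]
  refine C_mem_TInt ?_
  rw [norm_mul, norm_inv, norm_unit_inv h11, inv_one, one_mul]
  exact PadicInt.norm_le_one _

/-- coefficients of elements of the divided power ring -/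
theorem coeff_of_mem_DP {f : PowerSeries (Polynomial ℚ_[p])} (hf : f ∈ DP (RInt p) p) (i : ℕ) :
    ∃ r ∈ RInt p, PowerSeries.coeff i f = Polynomial.C ((p : ℚ_[p]) ^ phi p i) * r := by
  obtain ⟨r, hr, h1⟩ := hf i
  have hfac : ((i.factorial : ℕ) : ℚ_[p]) ≠ 0 := by exact_mod_cast Nat.factorial_ne_zero i
  have hp0 : (p : ℚ_[p]) ≠ 0 := by exact_mod_cast hp.out.ne_zero
  set v := padicValNat p i.factorial with hv
  have hvi : v ≤ i := by
    have := sub_one_mul_padicValNat_factorial (p := p) i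
    have h9 : padicValNat p i.factorial ≤ (p - 1) * padicValNat p i.factorial := by
      have : 1 ≤ p - 1 := by have := hp.out.two_le; omega
      nlinarith
    omega
  have hphi : phi p i + v = i := by
    unfold phi
    omega
  refine ⟨Polynomial.C ((p : ℚ_[p]) ^ v / (i.factorial : ℕ)) * r,
    (RInt p).mul_mem (C_mem_RInt ?_) hr, ?_⟩
  · have h7 : ‖((i.factorial : ℕ) : ℚ_[p])‖ = (p : ℝ) ^ (-(v : ℤ)) := by
      rw [Padic.norm_eq_zpow_neg_valuation hfac, Padic.valuation_natCast]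
    rw [norm_div, norm_pow, Padic.norm_p, h7, inv_pow, ← zpow_natCast, ← zpow_neg, div_self]
    have : (0 : ℝ) < p := by exact_mod_cast hp.out.pos
    positivity
  · have h2 : Polynomial.C (((i.factorial : ℕ) : ℚ_[p])) * PowerSeries.coeff i f
        = Polynomial.C ((p : ℚ_[p]) ^ i) * r := by
      simpa using h1
    have h3 : PowerSeries.coeff i f = Polynomial.C ((p : ℚ_[p]) ^ i / (i.factorial : ℕ)) * r := by
      calc PowerSeries.coeff i f
          = Polynomial.C (((i.factorial : ℕ) : ℚ_[p])⁻¹) *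
            (Polynomial.C (((i.factorial : ℕ) : ℚ_[p])) * PowerSeries.coeff i f) := by
            rw [← mul_assoc, ← Polynomial.C_mul, inv_mul_cancel₀ hfac, Polynomial.C_1, one_mul]
        _ = _ := by
            rw [h2, ← mul_assoc, ← Polynomial.C_mul]
            congr 2
            field_simp
    rw [h3, ← mul_assoc, ← Polynomial.C_mul]
    congr 2
    rw [mul_div_assoc', ← pow_add, hphi]

end

/-- The change of basis matrix and the factorisation of the weight family. -/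
theorem fam_fac (p : ℕ) [hp : Fact p.Prime] :
    ∃ H : ℕ → ℕ → ℤ, ∀ g : Matrix (Fin 2) (Fin 2) ℤ_[p], (p : ℤ_[p]) ∣ g 0 0 →
      (p : ℤ_[p]) ∣ g 1 0 → IsUnit (g 1 1) → ∀ n0 J : ℕ, ∃ Gm : ℕ → ℕ → Polynomial ℚ_[p],
      (∀ i k, GB p (Gm i k) 0) ∧ ∀ i j, PowerSeries.coeff i (famS n0 J g j) =
        ∑ k ∈ range (j + 1), Polynomial.C ((p : ℚ_[p]) ^ phi p i) * Gm i k *
          Polynomial.C ((p : ℚ_[p]) ^ psi p k * (H k j : ℚ_[p])) := by
  obtain ⟨H, hH⟩ := exists_family (B := Polynomial ℚ_[p]) (p := p) frob_padic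
  refine ⟨H, fun g h00 h10 h11 n0 J => ?_⟩
  obtain ⟨gg, hgg1, hgg2⟩ := hH (ySer g) (ySer_mem h00 h10 h11) (ySer_coeff_zero h11)
  choose r hr1 hr2 using fun (k i : ℕ) => coeff_of_mem_DP
    ((DP (RInt p) p).mul_mem (FSer_mem n0 J h10 h11) (hgg1 k)) i
  refine ⟨fun i k => r k i, fun i k => GB_of_mem_RInt (hr1 k i), fun i j => ?_⟩
  have h1 : ySer g ^ j = ∑ k ∈ range (j + 1), PowerSeries.C (Polynomial.C (H k j : ℚ_[p])) *
      (PowerSeries.C (Polynomial.C ((p : ℚ_[p]) ^ psi p k)) * gg k) := by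
    rw [hgg2 j]
    refine Finset.sum_congr rfl fun k _ => ?_
    simp [psi]
  rw [famS_eq n0 J h11, h1, Finset.mul_sum, map_sum]
  refine Finset.sum_congr rfl fun k _ => ?_
  have h3 : FSer n0 J g * (PowerSeries.C (Polynomial.C (H k j : ℚ_[p])) *
      (PowerSeries.C (Polynomial.C ((p : ℚ_[p]) ^ psi p k)) * gg k))
      = PowerSeries.C (Polynomial.C (H k j : ℚ_[p]) * Polynomial.C ((p : ℚ_[p]) ^ psi p k)) *
        (FSer n0 J g * gg k) := by
    rw [map_mul]; ring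
  rw [h3, PowerSeries.coeff_C_mul, hr2 k i, Polynomial.C_mul (a := (p : ℚ_[p]) ^ psi p k)]
  ring

end Gouvea
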