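import Mathlib

/-!
# Few exceptional weights (MP_d3517d_nt): double counting
-/

open Finset

namespace Gouvea

/-- a window of length `ℓ` contains at least `⌊ℓ/P⌋` members of a residue class mod `P` -/
theorem exc_window_card {P : ℕ} (hP : 0 < P) (a ℓ v : ℕ) :
    ℓ / P ≤ ((Ico a (a + ℓ)).filter fun M => M ≡ v [MOD P]).card := by
  set t := (v + (P - a % P)) % P with ht
  have htP : t < P := Nat.mod_lt _ hP
  have hta : a + t ≡ v [MOD P] := by
    have h1 : a + t ≡ a + (v + (P - a % P)) [MOD P] := by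
      refine Nat.ModEq.add_left a ?_
      rw [ht]; exact Nat.mod_modEq _ _
    have h2 : a + (v + (P - a % P)) ≡ v [MOD P] := by
      have h3 : a % P ≤ P := (Nat.mod_lt _ hP).le
      have h4 : a + (v + (P - a % P)) = v + (P * (a / P + 1)) := by
        have := Nat.div_add_mod a P
        have h5 : P * (a / P + 1) = P * (a / P) + P := by ring
        omega
      rw [h4]
      simp [Nat.ModEq]
    exact h1.trans h2
  have hinj : Set.InjOn (fun i => a + t + i * P) (range (ℓ / P) : Set ℕ) := by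
    intro i _ j _ hij
    have : i * P = j * P := by simpa using hij
    exact Nat.eq_of_mul_eq_mul_right hP this
  calc ℓ / P = (range (ℓ / P)).card := (card_range _).symm
    _ = ((range (ℓ / P)).image fun i => a + t + i * P).card := (card_image_of_injOn hinj).symm
    _ ≤ _ := card_le_card ?_
  intro M hM
  obtain ⟨i, hi, rfl⟩ := mem_image.1 hM
  rw [mem_range] at hi
  rw [mem_filter, mem_Ico]
  refine ⟨⟨by omega, ?_⟩, ?_⟩
  · have h1 : (i + 1) * P ≤ ℓ / P * P := Nat.mul_le_mul_right P hi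
    have h2 : ℓ / P * P ≤ ℓ := Nat.div_mul_le_self ℓ P
    have h3 : (i + 1) * P = i * P + P := by ring
    omega
  · have : a + t + i * P ≡ a + t [MOD P] := by simp [Nat.ModEq]
    exact this.trans hta

/-- the double count for one window -/
theorem exc_card_mul {P : ℕ} (hP : 0 < P) (a ℓ Nn : ℕ) (bad : ℕ → ℕ → Prop)
    (hbad : ∀ M ∈ Ico a (a + ℓ), ∀ S : Finset ℕ, (∀ n ∈ S, M ≡ n + 1 [MOD P] ∧ bad M n) →
      S.card < Nn)
    (Ex : Finset ℕ)
    (hEx : ∀ n ∈ Ex, ∀ M ∈ Ico a (a + ℓ), M ≡ n + 1 [MOD P] → bad M n) :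
    Ex.card * (ℓ / P) ≤ ℓ * Nn := by
  classical
  have h1 : Ex.card * (ℓ / P) ≤
      ∑ n ∈ Ex, ((Ico a (a + ℓ)).filter fun M => M ≡ n + 1 [MOD P]).card := by
    rw [← smul_eq_mul, ← sum_const]
    exact sum_le_sum fun n _ => exc_window_card hP a ℓ (n + 1)
  have h2 : ∑ n ∈ Ex, ((Ico a (a + ℓ)).filter fun M => M ≡ n + 1 [MOD P]).card =
      ∑ M ∈ Ico a (a + ℓ), (Ex.filter fun n => M ≡ n + 1 [MOD P]).card := by
    simp only [card_filter]
    rw [sum_comm]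
  have h3 : ∑ M ∈ Ico a (a + ℓ), (Ex.filter fun n => M ≡ n + 1 [MOD P]).card ≤
      ∑ _M ∈ Ico a (a + ℓ), Nn := by
    refine sum_le_sum fun M hM => (hbad M hM _ fun n hn => ?_).le
    rw [mem_filter] at hn
    exact ⟨hn.2, hEx n hn.1 M hM hn.2⟩
  rw [sum_const, Nat.card_Ico, Nat.add_sub_cancel_left, smul_eq_mul] at h3
  omega

/-- the number of exceptional `n` for a window of length `ℓ ≥ P` -/
theorem exc_card {P : ℕ} (hP : 0 < P) (a ℓ Nn : ℕ) (hℓ : P ≤ ℓ) (bad : ℕ → ℕ → Prop)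
    (hbad : ∀ M ∈ Ico a (a + ℓ), ∀ S : Finset ℕ, (∀ n ∈ S, M ≡ n + 1 [MOD P] ∧ bad M n) →
      S.card < Nn)
    (Ex : Finset ℕ)
    (hEx : ∀ n ∈ Ex, ∀ M ∈ Ico a (a + ℓ), M ≡ n + 1 [MOD P] → bad M n) :
    Ex.card ≤ 2 * P * Nn := by
  have h1 := exc_card_mul hP a ℓ Nn bad hbad Ex hEx
  have h2 : ℓ ≤ 2 * P * (ℓ / P) := by
    have h3 := Nat.div_add_mod ℓ P
    have h4 := Nat.mod_lt ℓ hP
    have h5 : 1 ≤ ℓ / P := (Nat.one_le_div_iff hP).2 hℓ
    nlinarith
  have h3 : 0 < ℓ / P := Nat.div_pos hℓ hP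
  have h4 : Ex.card * (ℓ / P) ≤ 2 * P * Nn * (ℓ / P) := by
    refine h1.trans ?_
    calc ℓ * Nn ≤ 2 * P * (ℓ / P) * Nn := Nat.mul_le_mul_right _ h2
      _ = 2 * P * Nn * (ℓ / P) := by ring
  exact Nat.le_of_mul_le_mul_right h4 h3

end Gouvea
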