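import Pool.Agent.Work.MP_d3517d_nt.GBTool

/-!
# M7: the interpolation argument
-/

open Polynomial Finset

noncomputable section

namespace Gouvea

variable {p : ℕ} [Fact p.Prime]

/-! ### valuation bounds -/

theorem p_pos' : (0 : ℝ) < p := by exact_mod_cast (Fact.out : p.Prime).pos

theorem p_one_lt : (1 : ℝ) < p := by exact_mod_cast (Fact.out : p.Prime).one_lt

theorem VB.pow {x : ℚ_[p]} {a : ℤ} (hx : VB p x a) (n : ℕ) : VB p (x ^ n) (n * a) := by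
  induction n with
  | zero => simpa using VB.one
  | succ n ih =>
    rw [pow_succ]
    have := ih.mul hx
    convert this using 1
    push_cast
    ring

theorem VB.nat (n : ℕ) : VB p (n : ℚ_[p]) 0 := by
  unfold VB
  rw [neg_zero, zpow_zero]
  have := Padic.norm_int_le_one (p := p) (n : ℤ)
  simpa using this

theorem norm_natSub {a b : ℕ} (h : a ≠ b) :
    ‖(a : ℚ_[p]) - b‖ = (p : ℝ) ^ (-(vd p a b : ℤ)) := by
  have h1 : ((a : ℤ) - (b : ℤ)) ≠ 0 := sub_ne_zero.2 (by exact_mod_cast h)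
  have h2 : ((a : ℚ_[p]) - b) = (((((a : ℤ) - (b : ℤ) : ℤ)) : ℚ) : ℚ_[p]) := by push_cast; rfl
  have h3 : ((((a : ℤ) - (b : ℤ) : ℤ)) : ℚ) ≠ 0 := by exact_mod_cast h1
  rw [h2, Padic.eq_padicNorm, padicNorm.eq_zpow_of_nonzero h3, padicValRat.of_int]
  push_cast
  rfl

theorem VB.natSub (a b : ℕ) : VB p ((a : ℚ_[p]) - b) (vd p a b) := by
  by_cases h : a = b
  · rw [h, sub_self]
    exact VB.zero _
  · exact (norm_natSub h).le

theorem vd_comm (a b : ℕ) : vd p a b = vd p b a := by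
  unfold vd padicValInt
  rw [← neg_sub, Int.natAbs_neg]

theorem zpow_inj {a b : ℤ} (h : (p : ℝ) ^ a = (p : ℝ) ^ b) : a = b :=
  zpow_right_injective₀ p_pos' p_one_lt.ne' h

theorem vd_ultra {a b c : ℕ} (hab : a ≠ b) (hbc : b ≠ c) (hac : a ≠ c)
    (h : vd p b c < vd p a b) : vd p a c = vd p b c := by
  have h1 : ((a : ℚ_[p]) - c) = (a - b) + (b - c) := by ring
  have h2 : ‖(a : ℚ_[p]) - b‖ < ‖(b : ℚ_[p]) - c‖ := by
    rw [norm_natSub hab, norm_natSub hbc]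
    exact zpow_lt_zpow_right₀ p_one_lt (by exact_mod_cast neg_lt_neg (by exact_mod_cast h))
  have h3 := Padic.add_eq_max_of_ne h2.ne
  rw [← h1, max_eq_right h2.le, norm_natSub hac, norm_natSub hbc] at h3
  have := zpow_inj h3
  omega

/-! ### Gauss bounds -/

theorem GB.X : GB p (Polynomial.X : ℚ_[p][X]) 0 := by
  intro k
  rw [coeff_X]
  split_ifs
  · exact VB.one
  · exact VB.zero _

theorem GB.pow {F : ℚ_[p][X]} {a : ℤ} (hF : GB p F a) (n : ℕ) : GB p (F ^ n) (n * a) := by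
  induction n with
  | zero => simpa using GB.one
  | succ n ih =>
    rw [pow_succ]
    have := ih.mul hF
    convert this using 1
    push_cast
    ring

theorem GB.comp {F g : ℚ_[p][X]} {a : ℤ} (hF : GB p F a) (hg : GB p g 0) :
    GB p (F.comp g) a := by
  rw [Polynomial.comp, eval₂_eq_sum_range]
  refine GB.sum fun i _ => ?_
  have := (GB.C (hF i)).mul (hg.pow i)
  rwa [mul_zero, add_zero] at this

theorem GB.divX {F : ℚ_[p][X]} {a : ℤ} (hF : GB p F a) {y : ℚ_[p]} (hy : VB p y 0) :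
    GB p (F /ₘ (Polynomial.X - Polynomial.C y)) a := by
  intro n
  rw [coeff_divByMonic_X_sub_C]
  refine VB.sum fun i _ => ?_
  have := (hy.pow (i - (n + 1))).mul (hF i)
  rwa [mul_zero, zero_add] at this

/-- the value of a polynomial at a point from its values at other points (crude form of the
Lagrange-Newton formula) -/
theorem newton_bound {ι : Type*} {y : ι → ℚ_[p]} {K : ℝ} (hK : 1 ≤ K) {x : ℚ_[p]}
    (hx : VB p x 0) (s : Finset ι) (hy : ∀ i ∈ s, VB p (y i) 0)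
    (hsep : ∀ i ∈ s, ∀ j ∈ s, i ≠ j → 1 ≤ K * ‖y i - y j‖) (Λ : ℤ) :
    ∀ (F : ℚ_[p][X]), GB p F Λ → ∀ t : ℝ, 0 ≤ t → (∀ i ∈ s, ‖F.eval (y i)‖ ≤ t) →
      ‖F.eval x‖ ≤ max ((p : ℝ) ^ (-Λ) * ∏ i ∈ s, ‖x - y i‖) (K ^ s.card * t) := by
  classical
  induction s using Finset.induction_on with
  | empty =>
    intro F hF t ht _
    rw [prod_empty, mul_one]
    exact (hF.eval hx).trans (le_max_left _ _)
  | insert a s ha ih =>
    intro F hF t ht hs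
    have hya := hy a (mem_insert_self _ _)
    set Q := F /ₘ (Polynomial.X - Polynomial.C (y a)) with hQ
    have hdiv : ∀ z, F.eval z = F.eval (y a) + (z - y a) * Q.eval z := by
      intro z
      have h1 := modByMonic_add_div F (Polynomial.X - Polynomial.C (y a))
      rw [modByMonic_X_sub_C_eq_C_eval] at h1
      have h2 := congrArg (Polynomial.eval z) h1
      rw [eval_add, eval_C, eval_mul, eval_sub, eval_X, eval_C] at h2
      exact h2.symm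
    have hKt : 0 ≤ K * t := by positivity
    have h1 := ih (fun i hi => hy i (mem_insert_of_mem hi))
      (fun i hi j hj => hsep i (mem_insert_of_mem hi) j (mem_insert_of_mem hj)) Q
      (hF.divX hya) (K * t) hKt (by
        intro i hi
        have hia : i ≠ a := fun h => ha (h ▸ hi)
        have h2 := hsep i (mem_insert_of_mem hi) a (mem_insert_self _ _) hia
        have h3 : (y i - y a) * Q.eval (y i) = F.eval (y i) - F.eval (y a) := by
          rw [hdiv (y i)]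
          ring
        have h4 : ‖y i - y a‖ * ‖Q.eval (y i)‖ ≤ t := by
          rw [← norm_mul, h3, sub_eq_add_neg]
          refine (Padic.nonarchimedean _ _).trans (max_le (hs i (mem_insert_of_mem hi)) ?_)
          rw [norm_neg]
          exact hs a (mem_insert_self _ _)
        calc ‖Q.eval (y i)‖ = 1 * ‖Q.eval (y i)‖ := (one_mul _).symm
          _ ≤ K * ‖y i - y a‖ * ‖Q.eval (y i)‖ := mul_le_mul_of_nonneg_right h2 (norm_nonneg _)
          _ = K * (‖y i - y a‖ * ‖Q.eval (y i)‖) := mul_assoc _ _ _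
          _ ≤ K * t := mul_le_mul_of_nonneg_left h4 (by linarith))
    rw [hdiv x, prod_insert ha, card_insert_of_notMem ha]
    have hxa : ‖x - y a‖ ≤ 1 := by
      have := hx.sub hya
      unfold VB at this
      rwa [neg_zero, zpow_zero] at this
    have hpow : (1 : ℝ) ≤ K ^ (s.card + 1) := one_le_pow₀ hK
    refine (Padic.nonarchimedean _ _).trans (max_le ?_ ?_)
    · refine le_trans ?_ (le_max_right _ _)
      calc ‖F.eval (y a)‖ ≤ 1 * t := by rw [one_mul]; exact hs a (mem_insert_self _ _)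
        _ ≤ K ^ (s.card + 1) * t := mul_le_mul_of_nonneg_right hpow ht
    · rw [norm_mul]
      rcases le_max_iff.1 h1 with h | h
      · refine le_trans ?_ (le_max_left _ _)
        calc ‖x - y a‖ * ‖Q.eval x‖ ≤ ‖x - y a‖ * ((p : ℝ) ^ (-Λ) * ∏ i ∈ s, ‖x - y i‖) :=
              mul_le_mul_of_nonneg_left h (norm_nonneg _)
          _ = _ := by ring
      · refine le_trans ?_ (le_max_right _ _)
        calc ‖x - y a‖ * ‖Q.eval x‖ ≤ 1 * (K ^ s.card * (K * t)) :=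
              mul_le_mul hxa h (norm_nonneg _) zero_le_one
          _ = _ := by ring

theorem prod_zpow {ι : Type*} (s : Finset ι) (g : ι → ℤ) :
    ∏ i ∈ s, (p : ℝ) ^ g i = (p : ℝ) ^ ∑ i ∈ s, g i := by
  classical
  induction s using Finset.induction_on with
  | empty => simp
  | insert a t ha ih => rw [prod_insert ha, sum_insert ha, zpow_add₀ p_pos'.ne', ih]

theorem zpow_le_iff' {a b : ℤ} : (p : ℝ) ^ a ≤ (p : ℝ) ^ b ↔ a ≤ b :=
  zpow_le_zpow_iff_right₀ p_one_lt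

theorem interp_main {ρ : Type} (Rs : Finset ρ) (c : ρ → ℚ_[p][X]) (Λ : ρ → ℤ)
    (mR : ρ → ℕ → ℕ) (Gh : Finset ℕ) (mg : ℕ → ℕ) (Λ0 : ℤ)
    (hfac : ∀ R ∈ Rs, ∃ e, GB p e (Λ R) ∧
      c R = (∏ k ∈ Gh, (X - C (k : ℚ_[p])) ^ (mR R k)) * e)
    (B : Finset ℕ) (hB : B ⊆ Gh) (D : ℕ → ℕ) (J1 Vmax eps X4 δ0 Nn κ0 : ℕ) (S : Finset ℕ)
    (hκ0 : κ0 ∉ Gh) (hSGh : ∀ s ∈ S, s ∉ Gh) (hκ0S : κ0 ∉ S)
    (hBdef : ∀ k ∈ Gh, k ∈ B ↔ J1 ≤ vd p κ0 k)
    (hSball : ∀ s ∈ S, J1 + 1 ≤ vd p κ0 s)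
    (hV : ∀ a ∈ insert κ0 S, ∀ b ∈ insert κ0 S, a ≠ b → vd p a b ≤ Vmax)
    (H1 : ∀ R ∈ Rs, Λ0 + ∑ k ∈ Gh, (mg k : ℤ) * (min (vd p κ0 k) J1 : ℕ) - eps ≤
      Λ R + ∑ k ∈ Gh, (mR R k : ℤ) * (min (vd p κ0 k) J1 : ℕ))
    (H2 : ∀ R ∈ Rs, (∃ k ∈ B, mR R k < mg k - D k) → ∀ s ∈ insert κ0 S,
      Λ0 + ∑ k ∈ Gh, (mg k : ℤ) * vd p s k + X4 ≤ Λ R + ∑ k ∈ Gh, (mR R k : ℤ) * vd p s k)
    (H3 : (p : ℝ) ^ (-(Λ0 + ∑ k ∈ Gh, (mg k : ℤ) * vd p κ0 k + δ0)) ≤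
      ‖(∑ R ∈ Rs, c R).eval (κ0 : ℚ_[p])‖)
    (H4 : ∀ s ∈ S, VB p ((∑ R ∈ Rs, c R).eval (s : ℚ_[p]))
      (Λ0 + ∑ k ∈ Gh, (mg k : ℤ) * vd p s k + X4))
    (H5 : δ0 + eps + ∑ k ∈ B, D k * (vd p κ0 k - J1) < Nn)
    (H6 : δ0 + ∑ k ∈ B, D k * vd p κ0 k + Nn * Vmax < X4) :
    S.card < Nn := by
  classical
  by_contra hcon
  push Not at hcon
  obtain ⟨S', hS'S, hS'c⟩ := Finset.exists_subset_card_eq hcon
  have hp0 : (0 : ℝ) < p := p_pos'
  have hp1 : (1 : ℝ) < p := p_one_lt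
  have hpq : (p : ℚ_[p]) ≠ 0 := by exact_mod_cast (Fact.out : p.Prime).ne_zero
  have hpJ : ((p : ℚ_[p]) ^ J1) ≠ 0 := pow_ne_zero _ hpq
  have hnJ : ‖((p : ℚ_[p]) ^ J1)‖ = (p : ℝ) ^ (-(J1 : ℤ)) := by
    rw [norm_pow, Padic.norm_p, inv_pow, zpow_neg, zpow_natCast]
  choose! e he hce using hfac
  set m' : ℕ → ℕ := fun k => mg k - D k with hm'
  set Imp := Rs.filter fun R => ∀ k ∈ B, m' k ≤ mR R k with hImp
  set Un := Rs.filter fun R => ¬ ∀ k ∈ B, m' k ≤ mR R k with hUn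
  set PB : ℚ_[p][X] := ∏ k ∈ B, (X - C (k : ℚ_[p])) ^ m' k with hPB
  set f : ρ → ℚ_[p][X] := fun R => (∏ k ∈ Gh \ B, (X - C (k : ℚ_[p])) ^ mR R k) *
    (∏ k ∈ B, (X - C (k : ℚ_[p])) ^ (mR R k - m' k)) * e R with hf
  set E : ℚ_[p][X] := ∑ R ∈ Imp, f R with hE
  have hcf : ∀ R ∈ Imp, c R = PB * f R := by
    intro R hR
    obtain ⟨hR1, hR2⟩ := mem_filter.1 hR
    rw [hce R hR1, ← prod_sdiff hB]
    have h1 : ∏ k ∈ B, (X - C (k : ℚ_[p])) ^ mR R k =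
        PB * ∏ k ∈ B, (X - C (k : ℚ_[p])) ^ (mR R k - m' k) := by
      rw [hPB, ← prod_mul_distrib]
      refine prod_congr rfl fun k hk => ?_
      rw [← pow_add, Nat.add_sub_cancel' (hR2 k hk)]
    rw [h1, hf]
    ring
  have hsplit : ∑ R ∈ Rs, c R = PB * E + ∑ R ∈ Un, c R := by
    rw [← sum_filter_add_sum_filter_not Rs (fun R => ∀ k ∈ B, m' k ≤ mR R k), ← hImp, ← hUn, hE,
      mul_sum, sum_congr rfl hcf]
  -- sums over Gh
  have hdec : ∀ g : ℕ → ℤ, ∑ k ∈ Gh, g k = ∑ k ∈ Gh \ B, g k + ∑ k ∈ B, g k :=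
    fun g => (sum_sdiff hB).symm
  set Sg : ℕ → ℤ := fun s => ∑ k ∈ Gh, (mg k : ℤ) * vd p s k with hSg
  set Sm : ℕ → ℤ := fun s => ∑ k ∈ B, (m' k : ℤ) * vd p s k with hSm
  -- the unimportant minors
  have hUnv : ∀ s ∈ insert κ0 S, VB p ((∑ R ∈ Un, c R).eval (s : ℚ_[p])) (Λ0 + Sg s + X4) := by
    intro s hs
    rw [eval_finsetSum]
    refine VB.sum fun R hR => ?_
    obtain ⟨hR1, hR2⟩ := mem_filter.1 hR
    push Not at hR2
    have h1 := H2 R hR1 hR2 s hs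
    refine VB.mono ?_ h1
    rw [hce R hR1, eval_mul, eval_prod, add_comm]
    refine VB.mul (VB.prod fun k _ => ?_) ((he R hR1).eval (VB.nat s))
    rw [eval_pow, eval_sub, eval_X, eval_C]
    exact (VB.natSub s k).pow _
  -- the values of PB
  have hPBv : ∀ s, s ∉ Gh → ‖PB.eval (s : ℚ_[p])‖ = (p : ℝ) ^ (-Sm s) := by
    intro s hs
    rw [hPB, eval_prod, norm_prod]
    have h1 : ∀ k ∈ B, ‖eval (s : ℚ_[p]) ((X - C (k : ℚ_[p])) ^ m' k)‖ =
        (p : ℝ) ^ (-((m' k : ℤ) * vd p s k)) := by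
      intro k hk
      have hsk : s ≠ k := by
        rintro rfl
        exact hs (hB hk)
      rw [eval_pow, eval_sub, eval_X, eval_C, norm_pow, norm_natSub hsk, ← zpow_natCast,
        ← zpow_mul]
      congr 1
      ring
    rw [prod_congr rfl h1, prod_zpow, hSm]
    simp only
    rw [sum_neg_distrib]
  have hδX : (δ0 : ℤ) < X4 := by
    have : δ0 < X4 := by
      have h1 : δ0 ≤ δ0 + ∑ k ∈ B, D k * vd p κ0 k + Nn * Vmax := by
        rw [add_assoc]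
        exact Nat.le_add_right _ _
      exact lt_of_le_of_lt h1 H6
    exact_mod_cast this
  -- the value of E at κ0
  have hEκ : (p : ℝ) ^ (-(Λ0 + Sg κ0 + δ0 - Sm κ0)) ≤ ‖E.eval (κ0 : ℚ_[p])‖ := by
    have h1 : (p : ℝ) ^ (-(Λ0 + Sg κ0 + δ0)) ≤ ‖(PB * E).eval (κ0 : ℚ_[p])‖ := by
      by_contra hlt
      push Not at hlt
      have h2 := hUnv κ0 (mem_insert_self _ _)
      have h3 : ‖(∑ R ∈ Un, c R).eval (κ0 : ℚ_[p])‖ < (p : ℝ) ^ (-(Λ0 + Sg κ0 + δ0)) :=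
        lt_of_le_of_lt h2 (zpow_lt_zpow_right₀ hp1 (by linarith))
      rw [hsplit, eval_add] at H3
      exact absurd H3 (not_le.2 (lt_of_le_of_lt (Padic.nonarchimedean _ _) (max_lt hlt h3)))
    rw [eval_mul, norm_mul, hPBv κ0 hκ0] at h1
    have h2 : (p : ℝ) ^ (-(Λ0 + Sg κ0 + δ0 - Sm κ0)) =
        (p : ℝ) ^ (Sm κ0) * (p : ℝ) ^ (-(Λ0 + Sg κ0 + δ0)) := by
      rw [← zpow_add₀ hp0.ne']
      congr 1
      ring
    rw [h2]
    calc (p : ℝ) ^ (Sm κ0) * (p : ℝ) ^ (-(Λ0 + Sg κ0 + δ0))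
        ≤ (p : ℝ) ^ (Sm κ0) * ((p : ℝ) ^ (-Sm κ0) * ‖eval (κ0 : ℚ_[p]) E‖) :=
          mul_le_mul_of_nonneg_left h1 (zpow_pos hp0 _).le
      _ = ‖eval (κ0 : ℚ_[p]) E‖ := by
          rw [← mul_assoc, ← zpow_add₀ hp0.ne', add_neg_cancel, zpow_zero, one_mul]
  -- the values of E on S
  have hEs : ∀ s ∈ S, ‖E.eval (s : ℚ_[p])‖ ≤ (p : ℝ) ^ (-(Λ0 + Sg s + X4 - Sm s)) := by
    intro s hs
    have h1 : VB p ((PB * E).eval (s : ℚ_[p])) (Λ0 + Sg s + X4) := by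
      have h2 := (H4 s hs).sub (hUnv s (mem_insert_of_mem hs))
      rw [hsplit, eval_add, add_sub_cancel_right] at h2
      exact h2
    unfold VB at h1
    rw [eval_mul, norm_mul, hPBv s (hSGh s hs)] at h1
    have h2 : (p : ℝ) ^ (-(Λ0 + Sg s + X4 - Sm s)) =
        (p : ℝ) ^ (Sm s) * (p : ℝ) ^ (-(Λ0 + Sg s + X4)) := by
      rw [← zpow_add₀ hp0.ne']
      congr 1
      ring
    rw [h2]
    calc ‖eval (s : ℚ_[p]) E‖
        = (p : ℝ) ^ (Sm s) * ((p : ℝ) ^ (-Sm s) * ‖eval (s : ℚ_[p]) E‖) := by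
          rw [← mul_assoc, ← zpow_add₀ hp0.ne', add_neg_cancel, zpow_zero, one_mul]
      _ ≤ _ := mul_le_mul_of_nonneg_left h1 (zpow_pos hp0 _).le
  -- the scaled polynomial
  set lin : ℚ_[p][X] := C (κ0 : ℚ_[p]) + C ((p : ℚ_[p]) ^ J1) * X with hlin
  have hVJ : VB p ((p : ℚ_[p]) ^ J1) J1 := hnJ.le
  have hlin0 : GB p lin 0 := by
    refine (GB.C (VB.nat κ0)).add ?_
    have := (GB.C hVJ).mul (GB.X (p := p))
    exact this.mono (by rw [add_zero]; exact Int.natCast_nonneg _)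
  have hlink : ∀ k ∈ Gh, GB p ((X - C (k : ℚ_[p])).comp lin) (min (vd p κ0 k) J1 : ℕ) := by
    intro k hk
    have h1 : (X - C (k : ℚ_[p])).comp lin = C ((κ0 : ℚ_[p]) - k) + C ((p : ℚ_[p]) ^ J1) * X := by
      rw [sub_comp, X_comp, C_comp, hlin, C_sub]
      ring
    rw [h1]
    refine ((GB.C (VB.natSub κ0 k)).mono ?_).add (((GB.C hVJ).mul (GB.X (p := p))).mono ?_)
    · exact_mod_cast min_le_left _ _
    · rw [add_zero]
      exact_mod_cast min_le_right _ _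
  set vB : ℤ := Λ0 + ∑ k ∈ Gh, (mg k : ℤ) * (min (vd p κ0 k) J1 : ℕ) - eps -
    ∑ k ∈ B, (m' k : ℤ) * J1 with hvB
  have hminB : ∀ k ∈ B, min (vd p κ0 k) J1 = J1 := fun k hk =>
    min_eq_right ((hBdef k (hB hk)).1 hk)
  have hGB : GB p (E.comp lin) vB := by
    rw [hE, Polynomial.sum_comp]
    refine GB.sum fun R hR => ?_
    obtain ⟨hR1, hR2⟩ := mem_filter.1 hR
    have h1 : GB p ((f R).comp lin) ((∑ k ∈ Gh \ B, (mR R k : ℤ) * (min (vd p κ0 k) J1 : ℕ) +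
        ∑ k ∈ B, ((mR R k - m' k : ℕ) : ℤ) * (min (vd p κ0 k) J1 : ℕ)) + Λ R) := by
      rw [hf]
      simp only [mul_comp, Polynomial.prod_comp, pow_comp]
      refine GB.mul (GB.mul (GB.prod fun k hk => ?_) (GB.prod fun k hk => ?_)) ?_
      · exact (hlink k (mem_sdiff.1 hk).1).pow _
      · exact (hlink k (hB hk)).pow _
      · exact (he R hR1).comp hlin0
    refine h1.mono ?_
    have h2 := H1 R hR1
    rw [hdec (fun k => (mR R k : ℤ) * (min (vd p κ0 k) J1 : ℕ))] at h2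
    have h3 : ∑ k ∈ B, ((mR R k - m' k : ℕ) : ℤ) * (min (vd p κ0 k) J1 : ℕ) =
        ∑ k ∈ B, (mR R k : ℤ) * (min (vd p κ0 k) J1 : ℕ) - ∑ k ∈ B, (m' k : ℤ) * J1 := by
      rw [← sum_sub_distrib]
      refine sum_congr rfl fun k hk => ?_
      rw [hminB k hk, Nat.cast_sub (hR2 k hk)]
      ring
    rw [h3, hvB]
    linarith
  -- the nodes
  set y : ℕ → ℚ_[p] := fun s => ((s : ℚ_[p]) - κ0) / (p : ℚ_[p]) ^ J1 with hy
  have hyE : ∀ s, (E.comp lin).eval (y s) = E.eval (s : ℚ_[p]) := by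
    intro s
    rw [eval_comp]
    congr 1
    rw [hlin, eval_add, eval_C, eval_mul, eval_C, eval_X, hy]
    field_simp
    ring
  have hκE : (E.comp lin).eval 0 = E.eval (κ0 : ℚ_[p]) := by
    rw [eval_comp]
    congr 1
    rw [hlin, eval_add, eval_C, eval_mul, eval_C, eval_X, mul_zero, add_zero]
  have hyn : ∀ s ∈ S, ‖y s‖ ≤ (p : ℝ) ^ (-(1 : ℤ)) := by
    intro s hs
    have hne : s ≠ κ0 := fun h => hκ0S (h ▸ hs)
    have h1 : ‖y s‖ = (p : ℝ) ^ (-(vd p s κ0 : ℤ) + J1) := by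
      rw [hy]
      simp only
      rw [norm_div, norm_natSub hne, hnJ, ← zpow_sub₀ hp0.ne']
      congr 1
      ring
    rw [h1, zpow_le_iff', vd_comm]
    have := hSball s hs
    omega
  have hyVB : ∀ s ∈ S', VB p (y s) 0 := by
    intro s hs
    have : VB p (y s) 1 := hyn s (hS'S hs)
    exact this.mono (by norm_num)
  have hNn : 0 < Nn := by omega
  have hne : S'.Nonempty := by
    rw [← card_pos, hS'c]
    exact hNn
  obtain ⟨s0, hs0, hmax⟩ := exists_max_image S' (fun s => ‖E.eval (s : ℚ_[p])‖) hne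
  have hK : (1 : ℝ) ≤ (p : ℝ) ^ Vmax := one_le_pow₀ hp1.le
  have hnb := newton_bound (y := y) hK (VB.zero 0 : VB p (0 : ℚ_[p]) 0) S' hyVB (by
    intro i hi j hj hij
    have h1 : y i - y j = ((i : ℚ_[p]) - j) / (p : ℚ_[p]) ^ J1 := by
      rw [hy]
      simp only
      rw [← sub_div]
      congr 1
      ring
    rw [h1, norm_div, norm_natSub hij, hnJ, ← zpow_sub₀ hp0.ne', ← zpow_natCast,
      ← zpow_add₀ hp0.ne']
    apply one_le_zpow₀ hp1.le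
    have := hV i (mem_insert_of_mem (hS'S hi)) j (mem_insert_of_mem (hS'S hj)) hij
    omega) vB (E.comp lin) hGB ‖E.eval (s0 : ℚ_[p])‖ (norm_nonneg _) (by
    intro s hs
    rw [hyE]
    exact hmax s hs)
  rw [hκE, hS'c] at hnb
  have hSgdec : ∀ s, Sg s = ∑ k ∈ Gh \ B, (mg k : ℤ) * vd p s k + ∑ k ∈ B, (mg k : ℤ) * vd p s k :=
    fun s => hdec _
  have hmm : ∀ k, (mg k : ℤ) - m' k ≤ D k := by
    intro k
    have : m' k = mg k - D k := rfl
    omega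
  have hmm0 : ∀ k, 0 ≤ (mg k : ℤ) - m' k := by
    intro k
    have : m' k = mg k - D k := rfl
    omega
  rcases le_max_iff.1 (hEκ.trans hnb) with h | h
  · -- the divided difference
    have h1 : ∏ s ∈ S', ‖(0 : ℚ_[p]) - y s‖ ≤ (p : ℝ) ^ (-(Nn : ℤ)) := by
      calc ∏ s ∈ S', ‖(0 : ℚ_[p]) - y s‖ ≤ ∏ _s ∈ S', (p : ℝ) ^ (-(1 : ℤ)) := by
            refine prod_le_prod (fun _ _ => norm_nonneg _) fun s hs => ?_
            rw [zero_sub, norm_neg]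
            exact hyn s (hS'S hs)
        _ = (p : ℝ) ^ (-(Nn : ℤ)) := by
            rw [prod_const, hS'c, ← zpow_natCast, ← zpow_mul]
            congr 1
            ring
    have h2 : (p : ℝ) ^ (-(Λ0 + Sg κ0 + δ0 - Sm κ0)) ≤ (p : ℝ) ^ (-(vB + Nn)) := by
      refine h.trans ?_
      rw [neg_add, zpow_add₀ hp0.ne']
      exact mul_le_mul_of_nonneg_left h1 (zpow_pos hp0 _).le
    rw [zpow_le_iff'] at h2
    have h3 : Sg κ0 - ∑ k ∈ Gh, (mg k : ℤ) * (min (vd p κ0 k) J1 : ℕ) =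
        ∑ k ∈ B, (mg k : ℤ) * ((vd p κ0 k : ℤ) - J1) := by
      rw [hSgdec, hdec (fun k => (mg k : ℤ) * (min (vd p κ0 k) J1 : ℕ))]
      have h4 : ∑ k ∈ Gh \ B, (mg k : ℤ) * (min (vd p κ0 k) J1 : ℕ) =
          ∑ k ∈ Gh \ B, (mg k : ℤ) * vd p κ0 k := by
        refine sum_congr rfl fun k hk => ?_
        obtain ⟨hk1, hk2⟩ := mem_sdiff.1 hk
        have h5 : ¬ J1 ≤ vd p κ0 k := fun h6 => hk2 ((hBdef k hk1).2 h6)
        rw [min_eq_left (by omega)]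
      have h5 : ∑ k ∈ B, (mg k : ℤ) * (min (vd p κ0 k) J1 : ℕ) =
          ∑ k ∈ B, (mg k : ℤ) * J1 := sum_congr rfl fun k hk => by rw [hminB k hk]
      rw [h4, h5]
      have h6 : ∑ k ∈ B, (mg k : ℤ) * ((vd p κ0 k : ℤ) - J1) =
          ∑ k ∈ B, (mg k : ℤ) * vd p κ0 k - ∑ k ∈ B, (mg k : ℤ) * J1 := by
        rw [← sum_sub_distrib]
        exact sum_congr rfl fun k _ => by ring
      rw [h6]
      ring
    have h4 : ∑ k ∈ B, (mg k : ℤ) * ((vd p κ0 k : ℤ) - J1) - Sm κ0 + ∑ k ∈ B, (m' k : ℤ) * J1 ≤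
        ((∑ k ∈ B, D k * (vd p κ0 k - J1) : ℕ) : ℤ) := by
      rw [hSm]
      simp only
      rw [← sum_sub_distrib, ← sum_add_distrib, Nat.cast_sum]
      refine sum_le_sum fun k hk => ?_
      have h5 := (hBdef k (hB hk)).1 hk
      rw [Nat.cast_mul, Nat.cast_sub h5]
      have h6 : (mg k : ℤ) * ((vd p κ0 k : ℤ) - J1) - (m' k : ℤ) * vd p κ0 k + (m' k : ℤ) * J1 =
          ((mg k : ℤ) - m' k) * ((vd p κ0 k : ℤ) - J1) := by ring
      rw [h6]
      exact mul_le_mul_of_nonneg_right (hmm k) (by omega)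
    have h5 : ((δ0 + eps + ∑ k ∈ B, D k * (vd p κ0 k - J1) : ℕ) : ℤ) < Nn := by exact_mod_cast H5
    rw [hvB] at h2
    push_cast at h4 h5 h2 h3
    linarith
  · -- some value of E is large
    have h1 := h.trans (mul_le_mul_of_nonneg_left (hEs s0 (hS'S hs0)) (by positivity))
    have h2 : ((p : ℝ) ^ Vmax) ^ Nn * (p : ℝ) ^ (-(Λ0 + Sg s0 + X4 - Sm s0)) =
        (p : ℝ) ^ ((Vmax : ℤ) * Nn + -(Λ0 + Sg s0 + X4 - Sm s0)) := by
      rw [← pow_mul, ← zpow_natCast, ← zpow_add₀ hp0.ne']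
      push_cast
      rfl
    rw [h2, zpow_le_iff'] at h1
    have hs0S := hS'S hs0
    have hs0κ : s0 ≠ κ0 := fun h => hκ0S (h ▸ hs0S)
    have h3 : Sg κ0 - Sg s0 = ∑ k ∈ B, (mg k : ℤ) * ((vd p κ0 k : ℤ) - vd p s0 k) := by
      rw [hSgdec, hSgdec]
      have h4 : ∑ k ∈ Gh \ B, (mg k : ℤ) * vd p s0 k = ∑ k ∈ Gh \ B, (mg k : ℤ) * vd p κ0 k := by
        refine sum_congr rfl fun k hk => ?_
        obtain ⟨hk1, hk2⟩ := mem_sdiff.1 hk
        have h5 : ¬ J1 ≤ vd p κ0 k := fun h6 => hk2 ((hBdef k hk1).2 h6)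
        have h6 := hSball s0 hs0S
        rw [vd_ultra hs0κ (fun h => hκ0 (h ▸ hk1)) (fun h => hSGh s0 hs0S (h ▸ hk1))
          (by rw [vd_comm s0 κ0]; omega)]
      rw [h4]
      have h6 : ∑ k ∈ B, (mg k : ℤ) * ((vd p κ0 k : ℤ) - vd p s0 k) =
          ∑ k ∈ B, (mg k : ℤ) * vd p κ0 k - ∑ k ∈ B, (mg k : ℤ) * vd p s0 k := by
        rw [← sum_sub_distrib]
        exact sum_congr rfl fun k _ => by ring
      rw [h6]
      ring
    have h4 : ∑ k ∈ B, (mg k : ℤ) * ((vd p κ0 k : ℤ) - vd p s0 k) - Sm κ0 + Sm s0 ≤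
        ((∑ k ∈ B, D k * vd p κ0 k : ℕ) : ℤ) := by
      rw [hSm]
      simp only
      rw [← sum_sub_distrib, ← sum_add_distrib, Nat.cast_sum]
      refine sum_le_sum fun k hk => ?_
      rw [Nat.cast_mul]
      have h6 : (mg k : ℤ) * ((vd p κ0 k : ℤ) - vd p s0 k) - (m' k : ℤ) * vd p κ0 k +
          (m' k : ℤ) * vd p s0 k =
          ((mg k : ℤ) - m' k) * (vd p κ0 k : ℤ) - ((mg k : ℤ) - m' k) * vd p s0 k := by ring
      rw [h6]
      have h7 := mul_le_mul_of_nonneg_right (hmm k) (Int.natCast_nonneg (vd p κ0 k))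
      have h8 := mul_nonneg (hmm0 k) (Int.natCast_nonneg (vd p s0 k))
      linarith
    have h5 : ((δ0 + ∑ k ∈ B, D k * vd p κ0 k + Nn * Vmax : ℕ) : ℤ) < X4 := by exact_mod_cast H6
    push_cast at h4 h5
    have h6 : (Nn : ℤ) * Vmax = (Vmax : ℤ) * Nn := mul_comm _ _
    linarith

end Gouvea
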