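import Pool.Agent.Work.MP_d3517d_nt.Basic2
import Pool.Agent.Work.MP_d3517d_nt.Levels

/-!
# M11: the special value: `c_r` at the weight `n = M - 1`, `r = q M - u`
-/

set_option autoImplicit false

open Polynomial Finset

noncomputable section

namespace Gouvea

open Pool.Agent.Gouv

variable {p : ℕ} [Fact p.Prime]

theorem cr_eq_esum {A ι : Type} [CommRing A] [Fintype ι] [DecidableEq ι]
    (U : Matrix ι ι A) (r : ℕ) : cr U r = esum r U := rfl

/-- evaluation of `c_r` -/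
theorem eval_cr {ι : Type} [Fintype ι] [DecidableEq ι] (U : Matrix ι ι ℚ_[p][X]) (r : ℕ)
    (x : ℚ_[p]) : (cr U r).eval x = esum r (U.map fun F => F.eval x) := by
  rw [cr_eq_esum]
  exact (esum_map (Polynomial.evalRingHom x) U r).symm

section Dat

variable {h : ℕ} {E V : Type} [Fintype E] [DecidableEq E] [Fintype V] [DecidableEq V]

/-- the matrix `(ι π - p) W` -/
def Bm (D : Dat p h E V) (n : ℕ) : Matrix (E × Fin (n + 1)) (E × Fin (n + 1)) ℤ_[p] :=
  (D.ι n * D.π n - (p : ℤ_[p]) • 1) * D.W n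

theorem Um_mul_Bm (D : Dat p h E V) {n : ℕ} (hn : Even n) :
    Um D.toGam n * Bm D n = ((p : ℤ_[p]) ^ (n + 1)) • 1 := by
  have h1 : (D.ι n * D.π n) * (D.ι n * D.π n) = ((p : ℤ_[p]) + 1) • (D.ι n * D.π n) := by
    rw [Matrix.mul_assoc, ← Matrix.mul_assoc (D.π n), D.πι n hn, Matrix.smul_mul, Matrix.one_mul,
      Matrix.mul_smul]
  have h2 : (D.ι n * D.π n - 1) * (D.ι n * D.π n - (p : ℤ_[p]) • 1) = (p : ℤ_[p]) • 1 := by
    rw [Matrix.sub_mul, Matrix.mul_sub, h1, Matrix.mul_smul, Matrix.mul_one, Matrix.one_mul,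
      add_smul, one_smul]
    abel
  rw [← D.WU n hn, Bm, Matrix.mul_assoc, ← Matrix.mul_assoc (D.ι n * D.π n - 1), h2,
    Matrix.smul_mul, Matrix.one_mul, Matrix.mul_smul, D.WW n hn, smul_smul, pow_succ']

/-- rows of `W` -/
theorem row_W (D : Dat p h E V) {n : ℕ} (hn : Even n) (x y : E × Fin (n + 1)) :
    (p : ℤ_[p]) ^ (x.2 : ℕ) ∣ D.W n x y := by
  by_cases h0 : D.W n x y = 0
  · rw [h0]
    exact dvd_zero _
  · obtain ⟨-, h1⟩ := D.W0 n hn x y h0
    have h2 := D.Wdvd n hn x y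
    rwa [show n - (y.2 : ℕ) = x.2 by omega] at h2

omit [DecidableEq E] in
theorem card_level (n : ℕ) (t : ℕ) :
    (univ.filter fun x : E × Fin (n + 1) => (x.2 : ℕ) = t).card ≤ Fintype.card E := by
  have h1 : ∀ x ∈ (univ.filter fun x : E × Fin (n + 1) => (x.2 : ℕ) = t), x.1 ∈ (univ : Finset E) :=
    fun x _ => mem_univ _
  refine card_le_card_of_injOn (fun x => x.1) h1 ?_
  intro x hx y hy hxy
  rw [mem_coe, mem_filter] at hx hy
  exact Prod.ext hxy (Fin.ext (hx.2.trans hy.2.symm))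

/-- `e_j` of the dual matrix is divisible by `p` for `j > q` -/
theorem esum_Bm (hh : 1 ≤ h) (D : Dat p h E V) {n : ℕ} (hn : Even n) {j : ℕ}
    (hj : (p + 1) * h < j) :
    (p : ℤ_[p]) ∣ esum j (Bm D n) := by
  set N : Matrix (E × Fin (n + 1)) (E × Fin (n + 1)) ℤ_[p] :=
    D.ι n * D.π n - (p : ℤ_[p]) • 1 with hN
  have h0 : esum j (Bm D n) = esum j (D.W n * N) := by rw [Bm, esum_mul_comm]
  rw [h0]
  have h1 : ∀ x y : E × Fin (n + 1), (p : ℤ_[p]) ^ (x.2 : ℕ) ∣ (D.W n * N) x y := by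
    intro x y
    rw [Matrix.mul_apply]
    exact dvd_sum fun z _ => dvd_mul_of_dvd_left (row_W D hn x z) _
  have h2 := pow_hodge_dvd_esum (q := (p + 1) * h)
    (fun t => (card_level (E := E) n t).trans D.cardE.le) h1 j
  refine dvd_trans ?_ h2
  refine dvd_pow_self _ ?_
  have h3 : hodge ((p + 1) * h) ((p + 1) * h + 1) ≤ hodge ((p + 1) * h) j := hodge_mono _ hj
  have h0 : 0 < (p + 1) * h := Nat.mul_pos (Nat.succ_pos p) hh
  rw [hodge_succ, Nat.div_self h0] at h3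
  omega

/-- the determinant of `W` -/
theorem norm_det_W (D : Dat p h E V) {n : ℕ} (hn : Even n) (hp2 : p ≠ 2) :
    ‖(D.W n).det‖ = (p : ℝ) ^ (-((n : ℤ) * ((p + 1) * h / 2 : ℕ) * (n + 1))) := by
  have hp := (Fact.out : p.Prime)
  have hp0 : (0 : ℝ) < p := by exact_mod_cast hp.pos
  have h1 := congrArg Matrix.det (D.WW n hn)
  rw [Matrix.det_mul, Matrix.det_smul, Matrix.det_one, mul_one, Fintype.card_prod,
    Fintype.card_fin, D.cardE] at h1
  have h2 := congrArg norm h1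
  rw [norm_mul, norm_pow, norm_pow, PadicInt.norm_p] at h2
  have heven : (p + 1) * h = 2 * ((p + 1) * h / 2) := by
    have : 2 ∣ (p + 1) * h := by
      refine Dvd.dvd.mul_right ?_ h
      obtain ⟨r, hr⟩ := hp.odd_of_ne_two hp2
      exact ⟨r + 1, by omega⟩
    omega
  set c := (p + 1) * h / 2 with hc
  have h3 : ‖(D.W n).det‖ ^ 2 = ((p : ℝ) ^ (-((n : ℤ) * c * (n + 1)))) ^ 2 := by
    rw [sq, h2, heven, ← zpow_natCast, ← zpow_natCast, ← zpow_natCast, ← zpow_mul, inv_zpow',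
      ← zpow_mul]
    congr 1
    push_cast
    ring
  exact (pow_left_inj₀ (norm_nonneg _) (zpow_nonneg hp0.le _) two_ne_zero).1 h3

/-- the determinant of `ι π - 1` -/
theorem norm_det_S (D : Dat p h E V) {n : ℕ} (hn : Even n) :
    ‖(D.ι n * D.π n - 1).det‖ = (p : ℝ) ^ (-((h : ℤ) * (n + 1))) := by
  have hp := (Fact.out : p.Prime)
  have h1 : (D.ι n * D.π n - 1) = -(1 - D.ι n * D.π n) := by abel
  have h2 : (1 - D.π n * D.ι n) = (-(p : ℤ_[p])) • (1 : Matrix (V × Fin (n + 1)) _ ℤ_[p]) := by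
    rw [D.πι n hn, add_smul, one_smul, neg_smul]
    abel
  rw [h1, Matrix.det_neg, norm_mul, norm_pow, norm_neg, norm_one, one_pow, one_mul,
    Matrix.det_one_sub_mul_comm, h2, Matrix.det_smul, Matrix.det_one, mul_one, norm_pow, norm_neg,
    PadicInt.norm_p, Fintype.card_prod, Fintype.card_fin, D.cardV, inv_pow, ← zpow_natCast,
    ← zpow_neg]
  push_cast
  rfl

theorem norm_det_Um (D : Dat p h E V) {n : ℕ} (hn : Even n) (hp2 : p ≠ 2) :
    ‖(Um D.toGam n).det‖ =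
      (p : ℝ) ^ (-((n : ℤ) * ((p + 1) * h / 2 : ℕ) * (n + 1) + h * (n + 1))) := by
  have hp := (Fact.out : p.Prime)
  have hp0 : (p : ℝ) ≠ 0 := by exact_mod_cast hp.ne_zero
  rw [← D.WU n hn, Matrix.det_mul, norm_mul, norm_det_W D hn hp2, norm_det_S D hn,
    ← zpow_add₀ hp0]
  congr 1
  ring

/-- The elementary symmetric functions of the classical matrix near the top. -/
theorem classical (hh : 1 ≤ h) (D : Dat p h E V) {n : ℕ} (hn : Even n) :
    ∃ u : ℕ, u ≤ (p + 1) * h ∧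
      ‖esum ((p + 1) * h * (n + 1) - u) (toQ (Um D.toGam n))‖ =
        ‖(Um D.toGam n).det‖ * (p : ℝ) ^ (u * (n + 1)) ∧
      ∀ j : ℕ, 1 ≤ j → u + j ≤ (p + 1) * h * (n + 1) →
        ‖esum ((p + 1) * h * (n + 1) - (u + j)) (toQ (Um D.toGam n))‖ ≤
          ‖(Um D.toGam n).det‖ * (p : ℝ) ^ ((u + j) * (n + 1)) * (p : ℝ)⁻¹ := by
  classical
  have hp := (Fact.out : p.Prime)
  have hp0 : (0 : ℝ) < p := by exact_mod_cast hp.pos
  set q := (p + 1) * h with hq
  have hcard : Fintype.card (E × Fin (n + 1)) = q * (n + 1) := by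
    rw [Fintype.card_prod, Fintype.card_fin, D.cardE]
  set N := q * (n + 1) with hN
  have hqN : q ≤ N := Nat.le_mul_of_pos_right q (Nat.succ_pos n)
  set P : ℕ → Prop := fun j => IsUnit (esum j (Bm D n)) with hP
  have hP0 : P 0 := by
    rw [hP]
    simp
  set u := Nat.findGreatest P N with hu
  have hPu : P u := Nat.findGreatest_spec (m := 0) (Nat.zero_le N) hP0
  have huq : u ≤ q := by
    by_contra hlt
    push Not at hlt
    have h1 := esum_Bm hh D hn (j := u) hlt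
    have h2 : IsUnit (p : ℤ_[p]) := isUnit_of_dvd_unit h1 hPu
    exact PadicInt.prime_p.not_isUnit h2
  have hgt : ∀ j, 1 ≤ j → u + j ≤ N → ¬ P (u + j) := by
    intro j hj hjN hPj
    have h1 := Nat.le_findGreatest hjN hPj
    omega
  -- the norm of `e_j` of the dual matrix
  have hprod : toQ (Um D.toGam n) * toQ (Bm D n) = ((p : ℚ_[p]) ^ (n + 1)) • 1 := by
    rw [← Matrix.map_mul, Um_mul_Bm D hn]
    ext x y
    rw [Matrix.map_apply, Matrix.smul_apply, Matrix.smul_apply, smul_eq_mul, smul_eq_mul,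
      map_mul, map_pow, map_natCast]
    congr 1
    by_cases hxy : x = y
    · subst hxy
      simp
    · simp [Matrix.one_apply_ne hxy]
  have hc0 : ((p : ℚ_[p]) ^ (n + 1)) ≠ 0 := pow_ne_zero _ (by exact_mod_cast hp.ne_zero)
  have hrev : ∀ j, j ≤ N → ‖esum (N - j) (toQ (Um D.toGam n))‖ =
      ‖(Um D.toGam n).det‖ * (p : ℝ) ^ (j * (n + 1)) * ‖esum j (Bm D n)‖ := by
    intro j hj
    have h1 := esum_reverse hc0 hprod (j := j) (by rw [hcard]; exact hj)
    rw [hcard] at h1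
    have h2 : esum j (toQ (Bm D n)) = ((esum j (Bm D n) : ℤ_[p]) : ℚ_[p]) :=
      esum_map (algebraMap ℤ_[p] ℚ_[p]) (Bm D n) j
    have h3 : (toQ (Um D.toGam n)).det = (((Um D.toGam n).det : ℤ_[p]) : ℚ_[p]) :=
      (RingHom.map_det (algebraMap ℤ_[p] ℚ_[p]) (Um D.toGam n)).symm
    rw [h2, h3] at h1
    have h4 := congrArg norm h1
    rw [norm_mul, norm_mul, norm_pow, norm_pow, Padic.norm_p] at h4
    have h5 : ‖(((Um D.toGam n).det : ℤ_[p]) : ℚ_[p])‖ = ‖(Um D.toGam n).det‖ :=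
      PadicInt.norm_def.symm
    have h6 : ‖((esum j (Bm D n) : ℤ_[p]) : ℚ_[p])‖ = ‖esum j (Bm D n)‖ :=
      PadicInt.norm_def.symm
    rw [h5, h6] at h4
    have h7 : ((p : ℝ)⁻¹ ^ (n + 1)) ^ j * (p : ℝ) ^ (j * (n + 1)) = 1 := by
      rw [← pow_mul, mul_comm (n + 1) j, ← mul_pow, inv_mul_cancel₀ hp0.ne', one_pow]
    calc ‖esum (N - j) (toQ (Um D.toGam n))‖
        = (((p : ℝ)⁻¹ ^ (n + 1)) ^ j * (p : ℝ) ^ (j * (n + 1))) *
            ‖esum (N - j) (toQ (Um D.toGam n))‖ := by rw [h7, one_mul]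
      _ = (p : ℝ) ^ (j * (n + 1)) * (((p : ℝ)⁻¹ ^ (n + 1)) ^ j *
            ‖esum (N - j) (toQ (Um D.toGam n))‖) := by ring
      _ = _ := by rw [h4]; ring
  refine ⟨u, huq, ?_, ?_⟩
  · rw [hrev u (huq.trans hqN), PadicInt.isUnit_iff.1 hPu, mul_one]
  · intro j hj hjN
    rw [hrev (u + j) hjN]
    refine mul_le_mul_of_nonneg_left ?_ (mul_nonneg (norm_nonneg _) (pow_nonneg hp0.le _))
    have h1 : esum (u + j) (Bm D n) ∈ nonunits ℤ_[p] := hgt j hj hjN
    rw [PadicInt.mem_nonunits] at h1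
    have h2 := (PadicInt.norm_lt_one_iff_dvd (esum (u + j) (Bm D n))).1 h1
    obtain ⟨c, hc⟩ := h2
    rw [hc, norm_mul, PadicInt.norm_p]
    exact mul_le_of_le_one_right (inv_nonneg.2 hp0.le) (PadicInt.norm_le_one c)

/-- splitting off the levels `≤ n` -/
def splitE (E : Type) {n L : ℕ} (hL : n < L) :
    (E × Fin (n + 1)) ⊕ (E × Fin (L - (n + 1))) ≃ E × Fin L :=
  (Equiv.prodSumDistrib E (Fin (n + 1)) (Fin (L - (n + 1)))).symm.trans
    (Equiv.prodCongr (Equiv.refl E) (finSumFinEquiv.trans (finCongr (by omega))))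

omit [Fintype E] [DecidableEq E] in
theorem splitE_inl {n L : ℕ} (hL : n < L) (x : E × Fin (n + 1)) :
    (splitE E hL (Sum.inl x)).1 = x.1 ∧ lev (splitE E hL (Sum.inl x)) = x.2 := ⟨rfl, rfl⟩

omit [Fintype E] [DecidableEq E] in
theorem splitE_inr {n L : ℕ} (hL : n < L) (x : E × Fin (L - (n + 1))) :
    n < lev (splitE E hL (Sum.inr x)) := by
  have h1 : lev (splitE E hL (Sum.inr x)) = n + 1 + x.2 := rfl
  omega

/-- **The special value.** -/
theorem special_value (hh : 1 ≤ h) (hp2 : p ≠ 2) (D : Dat p h E V) {n0 L J : ℕ}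
    (F : WFam p h n0 L J E) (hF : Compat F D.toGam) {M κ0 : ℕ}
    (hM : n0 + (p - 1) * κ0 + 1 = M) (hn : Even (n0 + (p - 1) * κ0))
    (hJ : n0 + (p - 1) * κ0 < J) (hL : n0 + (p - 1) * κ0 < L) :
    ∃ u r : ℕ, u ≤ (p + 1) * h ∧ r + u = (p + 1) * h * M ∧
      (p : ℝ) ^ (-(((M - 1 : ℕ) : ℤ) * ((p + 1) * h / 2 : ℕ) * M + h * M - u * M)) ≤
        ‖(cr F.U r).eval (κ0 : ℚ_[p])‖ := by
  classical
  have hp := (Fact.out : p.Prime)
  have hp0 : (0 : ℝ) < p := by exact_mod_cast hp.pos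
  have hp1 : (1 : ℝ) < p := by exact_mod_cast hp.one_lt
  set n := n0 + (p - 1) * κ0 with hndef
  obtain ⟨u, huq, hu, hrest⟩ := classical hh D hn
  set q := (p + 1) * h with hq
  have hqN : q ≤ q * (n + 1) := Nat.le_mul_of_pos_right q (Nat.succ_pos n)
  refine ⟨u, q * (n + 1) - u, huq, ?_, ?_⟩
  · rw [← hM]
    omega
  rw [eval_cr]
  set Mk : Matrix (E × Fin L) (E × Fin L) ℚ_[p] := F.U.map fun f => f.eval (κ0 : ℚ_[p]) with hMk
  set Q : Matrix (E × Fin (L - (n + 1))) (E × Fin (L - (n + 1))) ℚ_[p] :=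
    Mk.submatrix (fun x => splitE E hL (Sum.inr x)) (fun x => splitE E hL (Sum.inr x)) with hQ
  set B : Matrix (E × Fin (n + 1)) (E × Fin (L - (n + 1))) ℚ_[p] :=
    Mk.submatrix (fun x => splitE E hL (Sum.inl x)) (fun x => splitE E hL (Sum.inr x)) with hB
  have hblocks : Mk.submatrix (splitE E hL) (splitE E hL) =
      Matrix.fromBlocks (toQ (Um D.toGam n)) B 0 Q := by
    ext x y
    rcases x with x | x <;> rcases y with y | y
    · have h1 := hF.blk κ0 hJ hL (splitE E hL (Sum.inl x)) (splitE E hL (Sum.inl y))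
        (by rw [(splitE_inl hL x).2]; exact x.2.2) (by rw [(splitE_inl hL y).2]; exact y.2.2)
      exact h1
    · rfl
    · have h1 := hF.zero κ0 hJ hL (splitE E hL (Sum.inr x)) (splitE E hL (Sum.inl y))
        (splitE_inr hL x) (by rw [(splitE_inl hL y).2]; exact Nat.lt_succ_iff.1 y.2.2)
      exact h1
    · rfl
  have hQle : ∀ j, ‖esum j Q‖ ≤ ((p : ℝ) ^ (n + 1))⁻¹ ^ j := by
    intro j
    have hc0 : (0 : ℝ) ≤ ((p : ℝ) ^ (n + 1))⁻¹ := inv_nonneg.2 (pow_nonneg hp0.le _)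
    refine norm_esum_le (c := fun _ => ((p : ℝ) ^ (n + 1))⁻¹) (fun _ => hc0) ?_
      (pow_nonneg hc0 _) ?_
    · intro x y
      have h1 := hF.low κ0 hJ hL (splitE E hL (Sum.inr x)) (splitE E hL (Sum.inr y))
        (splitE_inr hL x)
      refine (show ‖Q x y‖ ≤ _ from h1).trans ?_
      rw [← zpow_natCast, ← zpow_neg]
      refine zpow_le_zpow_right₀ hp1.le ?_
      have h2 := splitE_inr hL x
      push_cast
      omega
    · intro s hs
      rw [prod_const, hs]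
  rw [← esum_submatrix_equiv (splitE E hL) Mk, hblocks, esum_fromBlocks]
  set r := q * (n + 1) - u with hr
  have hmem : (r, 0) ∈ antidiagonal r := by simp
  rw [← add_sum_erase _ _ hmem, esum_zero, mul_one]
  set main := esum r (toQ (Um D.toGam n)) with hmain
  have hmainn : ‖main‖ = ‖(Um D.toGam n).det‖ * (p : ℝ) ^ (u * (n + 1)) := hu
  have hdet := norm_det_Um D hn hp2
  have hmain0 : 0 < ‖main‖ := by
    rw [hmainn, hdet]
    positivity
  have hrestn : ‖∑ x ∈ (antidiagonal r).erase (r, 0), esum x.1 (toQ (Um D.toGam n)) * esum x.2 Q‖ ≤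
      ‖main‖ * (p : ℝ)⁻¹ := by
    refine IsUltrametricDist.norm_sum_le_of_forall_le_of_nonneg
      (mul_nonneg (norm_nonneg _) (inv_nonneg.2 hp0.le)) fun x hx => ?_
    rw [mem_erase, HasAntidiagonal.mem_antidiagonal] at hx
    obtain ⟨hx0, hxr⟩ := hx
    have hx2 : 1 ≤ x.2 := by
      rw [Nat.one_le_iff_ne_zero]
      intro h0
      apply hx0
      ext
      · show x.1 = r
        omega
      · exact h0
    have hle : u + x.2 ≤ q * (n + 1) := by omega
    have h1 := hrest x.2 hx2 hle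
    have h2 : q * (n + 1) - (u + x.2) = x.1 := by omega
    rw [h2] at h1
    rw [norm_mul]
    calc ‖esum x.1 (toQ (Um D.toGam n))‖ * ‖esum x.2 Q‖
        ≤ (‖(Um D.toGam n).det‖ * (p : ℝ) ^ ((u + x.2) * (n + 1)) * (p : ℝ)⁻¹) *
            ((p : ℝ) ^ (n + 1))⁻¹ ^ x.2 := by
          refine mul_le_mul h1 (hQle x.2) (norm_nonneg _) (by positivity)
      _ = ‖main‖ * (p : ℝ)⁻¹ := by
          rw [hmainn, add_mul, pow_add, inv_pow, ← pow_mul, mul_comm (n + 1) x.2]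
          have h3 : ((p : ℝ) ^ (x.2 * (n + 1))) ≠ 0 := by positivity
          field_simp
  have hlt : ‖main‖ * (p : ℝ)⁻¹ < ‖main‖ := by
    refine mul_lt_of_lt_one_right hmain0 ?_
    exact inv_lt_one_of_one_lt₀ hp1
  have hge : ‖main‖ ≤ ‖main + ∑ x ∈ (antidiagonal r).erase (r, 0),
      esum x.1 (toQ (Um D.toGam n)) * esum x.2 Q‖ := by
    rw [IsUltrametricDist.norm_add_eq_max_of_norm_ne_norm (ne_of_gt (hrestn.trans_lt hlt))]
    exact le_max_left _ _
  refine le_trans (le_of_eq ?_) hge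
  rw [hmainn, hdet, ← zpow_natCast, ← zpow_add₀ hp0.ne']
  congr 1
  rw [← hM, Nat.add_sub_cancel, ← hq]
  generalize q / 2 = c
  push_cast
  ring

end Dat

end Gouvea
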