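import Mathlib

/-!
# The mean multiplicity (MP_d3517d_nt)
-/

open Finset

noncomputable section

namespace Gouvea

/-- average of the periodic function `dd n` -/
def dens (p : ℕ) (dd : ℕ → ℕ → ℕ) (n : ℕ) : ℝ := (∑ i ∈ range (p - 1), (dd n i : ℝ)) / (p - 1)

end Gouvea
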