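import Pool.Agent.Work.MP_d3517d_nt.GaussProd

/-!
# MP_d3517d_nt: the Newton function of `det (1 - X A)` if the row `i` of `A` has size `≤ a i`
-/

open Matrix Polynomial

noncomputable section

namespace Pool.Agent.Gouv

section

variable {K : Type*} [NormedField K]

/-- all `‖coeff r‖ c^r` are `≤ C` -/
def HNB (c : ℝ) (P : K[X]) (C : ℝ) : Prop := ∀ r, ‖P.coeff r‖ * c ^ r ≤ C

theorem HNB.mono {c : ℝ} {P : K[X]} {C C' : ℝ} (h : HNB c P C) (hC : C ≤ C') : HNB c P C' :=
  fun r => (h r).trans hC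

theorem hnb_one {c : ℝ} : HNB c (1 : K[X]) 1 := by
  intro r
  rcases r with _ | r
  · simp
  · simp [coeff_one]

theorem HNB.neg {c : ℝ} {P : K[X]} {C : ℝ} (h : HNB c P C) : HNB c (-P) C := by
  intro r
  rw [coeff_neg, norm_neg]
  exact h r

variable [IsUltrametricDist K]

theorem HNB.sum {c : ℝ} (hc : 0 < c) {ι : Type*} (s : Finset ι) (P : ι → K[X]) {C : ℝ}
    (hC : 0 ≤ C) (h : ∀ i ∈ s, HNB c (P i) C) : HNB c (∑ i ∈ s, P i) C := by
  intro r
  rw [finsetSum_coeff, ← le_div_iff₀ (pow_pos hc r)]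
  refine IsUltrametricDist.norm_sum_le_of_forall_le_of_nonneg (div_nonneg hC (pow_pos hc r).le)
    fun i hi => ?_
  rw [le_div_iff₀ (pow_pos hc r)]
  exact h i hi r

theorem HNB.mul {c : ℝ} (hc : 0 < c) {P Q : K[X]} {C C' : ℝ} (h0 : 0 ≤ C) (h0' : 0 ≤ C')
    (h : HNB c P C) (h' : HNB c Q C') : HNB c (P * Q) (C * C') := by
  intro r
  rw [coeff_mul, ← le_div_iff₀ (pow_pos hc r)]
  refine IsUltrametricDist.norm_sum_le_of_forall_le_of_nonneg
    (div_nonneg (mul_nonneg h0 h0') (pow_pos hc r).le) fun i hi => ?_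
  have hr : i.1 + i.2 = r := Finset.HasAntidiagonal.mem_antidiagonal.1 hi
  rw [le_div_iff₀ (pow_pos hc r)]
  calc ‖P.coeff i.1 * Q.coeff i.2‖ * c ^ r
      = (‖P.coeff i.1‖ * c ^ i.1) * (‖Q.coeff i.2‖ * c ^ i.2) := by
        rw [norm_mul, ← hr, pow_add]
        ring
    _ ≤ C * C' := mul_le_mul (h i.1) (h' i.2) (by positivity) h0

theorem HNB.prod {c : ℝ} (hc : 0 < c) {ι : Type*} (s : Finset ι) (P : ι → K[X]) (C : ι → ℝ)
    (hC : ∀ i ∈ s, 0 ≤ C i) (h : ∀ i ∈ s, HNB c (P i) (C i)) :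
    HNB c (∏ i ∈ s, P i) (∏ i ∈ s, C i) := by
  classical
  induction s using Finset.induction_on with
  | empty => simpa using (hnb_one (K := K) (c := c))
  | insert a s ha ih =>
    rw [Finset.prod_insert ha, Finset.prod_insert ha]
    exact HNB.mul hc (hC a (Finset.mem_insert_self a s))
      (Finset.prod_nonneg fun i hi => hC i (Finset.mem_insert_of_mem hi))
      (h a (Finset.mem_insert_self a s))
      (ih (fun i hi => hC i (Finset.mem_insert_of_mem hi))
        fun i hi => h i (Finset.mem_insert_of_mem hi))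

theorem hnb_det {c : ℝ} (hc : 0 < c) {ι : Type*} [Fintype ι] [DecidableEq ι]
    (M : Matrix ι ι K[X]) (C : ι → ℝ) (hC : ∀ i, 0 ≤ C i) (h : ∀ i j, HNB c (M i j) (C i)) :
    HNB c M.det (∏ i, C i) := by
  rw [Matrix.det_apply]
  refine HNB.sum hc _ _ (Finset.prod_nonneg fun i _ => hC i) fun σ _ => ?_
  have h1 : HNB c (∏ i, M (σ i) i) (∏ i, C i) := by
    have h2 := HNB.prod hc Finset.univ (fun i => M (σ i) i) (fun i => C (σ i))
      (fun i _ => hC _) (fun i _ => h _ _)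
    rwa [Equiv.prod_comp σ C] at h2
  rcases Int.units_eq_one_or (Equiv.Perm.sign σ) with hs | hs
  · rw [hs, one_smul]
    exact h1
  · rw [hs, Units.neg_smul, one_smul]
    exact h1.neg

/-- If the row `i` of `A` has size `≤ ‖a i‖` then `F(x) ≥ - sum (x - v (a i))^+`. -/
theorem hodge_FF_ge {p : ℝ} (hp : 1 < p) {ι : Type*} [Fintype ι] [DecidableEq ι]
    (A : Matrix ι ι K) (a : ι → K) (h : ∀ i j, ‖A i j‖ ≤ ‖a i‖) (x : ℝ) :
    - ∑ i, pp p (a i) x ≤ FF p A.charpolyRev x := by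
  have hp0 : 0 < p := by linarith
  have hc : (0 : ℝ) < p ^ x := Real.rpow_pos_of_pos hp0 x
  have hb : HNB (p ^ x) A.charpolyRev (∏ i, max 1 (‖a i‖ * p ^ x)) := by
    unfold Matrix.charpolyRev
    refine hnb_det hc _ _ (fun i => le_trans zero_le_one (le_max_left _ _)) fun i j => ?_
    intro r
    have hn1 : ‖((1 : Matrix ι ι K[X]) i j).coeff 0‖ ≤ 1 := by
      rw [Matrix.one_apply]
      split_ifs <;> simp
    have hn2 : ∀ r, ((1 : Matrix ι ι K[X]) i j).coeff (r + 1) = 0 := by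
      intro r
      rw [Matrix.one_apply]
      split_ifs
      · simp [coeff_one]
      · simp
    rw [Matrix.sub_apply, Matrix.smul_apply, Matrix.map_apply, smul_eq_mul, coeff_sub]
    rcases r with _ | _ | r
    · rw [coeff_X_mul_zero, sub_zero, pow_zero, mul_one]
      exact le_trans hn1 (le_max_left _ _)
    · rw [hn2, coeff_X_mul, coeff_C_zero, zero_sub, norm_neg, pow_one]
      exact le_trans (mul_le_mul_of_nonneg_right (h i j) hc.le) (le_max_right _ _)
    · rw [hn2, coeff_X_mul, coeff_C_succ, sub_zero, norm_zero, zero_mul]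
      exact le_trans zero_le_one (le_max_left _ _)
  have h0 : A.charpolyRev ≠ 0 := by
    intro h1
    have h2 := Matrix.eval_charpolyRev (M := A)
    rw [h1] at h2
    simp at h2
  refine le_FF hp h0 fun r hr => ?_
  have h3 := hb r
  have h4 : 0 < ‖A.charpolyRev.coeff r‖ := norm_pos_iff.2 hr
  have h5 : Real.logb p (‖A.charpolyRev.coeff r‖ * (p ^ x) ^ r) ≤
      Real.logb p (∏ i, max 1 (‖a i‖ * p ^ x)) :=
    Real.logb_le_logb_of_le hp (by positivity) h3
  rw [Real.logb_mul h4.ne' (by positivity), ← Real.rpow_natCast, ← Real.rpow_mul hp0.le,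
    Real.logb_rpow hp0 hp.ne', Real.logb_prod _ _ (fun i _ => (lt_of_lt_of_le zero_lt_one
      (le_max_left _ _)).ne')] at h5
  unfold vv
  have h6 : ∑ i, pp p (a i) x = ∑ i, Real.logb p (max 1 (‖a i‖ * p ^ x)) := rfl
  rw [h6]
  linarith

end

end Pool.Agent.Gouv
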