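import Mathlib

/-!
# MP_d3517d_nt: idempotent matrices over a field
-/

open Matrix

noncomputable section

namespace Pool.Agent.Gouv

/-- An idempotent matrix over a field is diagonalised by an invertible matrix. -/
theorem hodge_idem_diag {K E : Type} [Field K] [Fintype E] [DecidableEq E] (P : Matrix E E K)
    (hP : P * P = P) : ∃ (g h : Matrix E E K) (S : Finset E), g * h = 1 ∧ h * g = 1 ∧
      P * g = g * Matrix.diagonal (fun e => if e ∈ S then 1 else 0) ∧ S.card = P.rank := by
  classical
  set f : (E → K) →ₗ[K] (E → K) := Matrix.toLin' P with hf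
  have hff : IsIdempotentElem f := by
    unfold IsIdempotentElem
    rw [hf, Module.End.mul_eq_comp, ← Matrix.toLin'_mul, hP]
  have hc : IsCompl (LinearMap.range f) (LinearMap.ker f) :=
    LinearMap.IsIdempotentElem.isCompl hff
  let b1 := Module.finBasis K (LinearMap.range f)
  let b2 := Module.finBasis K (LinearMap.ker f)
  let b := (b1.prod b2).map (Submodule.prodEquivOfIsCompl _ _ hc)
  have hcard : Fintype.card (Fin (Module.finrank K (LinearMap.range f)) ⊕
      Fin (Module.finrank K (LinearMap.ker f))) = Fintype.card E := by
    rw [← Module.finrank_eq_card_basis b, Module.finrank_fintype_fun_eq_card]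
  let e := Fintype.equivOfCardEq hcard
  let b' := b.reindex e
  let std := Pi.basisFun K E
  refine ⟨std.toMatrix b', b'.toMatrix std,
    Finset.univ.map ((Function.Embedding.inl).trans e.toEmbedding), ?_, ?_, ?_, ?_⟩
  · exact std.toMatrix_mul_toMatrix_flip b'
  · exact b'.toMatrix_mul_toMatrix_flip std
  · have hb : ∀ j, f (b' j) = if j ∈ Finset.univ.map
        ((Function.Embedding.inl).trans e.toEmbedding) then b' j else 0 := by
      intro j
      obtain ⟨k, rfl⟩ := e.surjective j
      have e1 : b' (e k) = b k := by simp [b']
      rw [e1]
      rcases k with k | k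
      · have h1 : b (Sum.inl k) = (b1 k : E → K) := by
          simp [b]
        have h2 : e (Sum.inl k) ∈ Finset.univ.map
            ((Function.Embedding.inl).trans e.toEmbedding) :=
          Finset.mem_map.2 ⟨k, Finset.mem_univ _, rfl⟩
        rw [if_pos h2, h1]
        obtain ⟨v, hv⟩ := (b1 k).2
        rw [← hv]
        exact congrArg (fun F : (E → K) →ₗ[K] (E → K) => F v) hff
      · have h1 : b (Sum.inr k) = (b2 k : E → K) := by
          simp [b]
        have h2 : e (Sum.inr k) ∉ Finset.univ.map
            ((Function.Embedding.inl).trans e.toEmbedding) := by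
          intro h3
          obtain ⟨l, -, hl⟩ := Finset.mem_map.1 h3
          have := e.injective hl
          simp at this
        rw [if_neg h2, h1]
        exact (b2 k).2
    ext i j
    have h1 : (P * std.toMatrix b') i j = (f (b' j)) i := by
      rw [hf, Matrix.toLin'_apply]
      rfl
    rw [h1, hb j, Matrix.mul_diagonal]
    split_ifs
    · rw [mul_one]
      rfl
    · rw [mul_zero]
      rfl
  · rw [Finset.card_map, Finset.card_univ, Fintype.card_fin, Matrix.rank_eq_finrank_range_toLin P
      std std]
    congr 1

end Pool.Agent.Gouv
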