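import Mathlib

/-!
# MP_d3517d_nt: linear algebra in a fixed weight (section 1 of the paper proof)

`ι : M → N`, `π : N → M`, `W : N → N` with `W² = c`, `π ι = p + 1`, `S = ι π`, `U = W (S - 1)`,
`T = π W ι`.
-/

set_option autoImplicit false

namespace Pool.Agent.Gouv

open Polynomial Matrix

section General

variable {R M N : Type*} [CommRing R] [Fintype M] [Fintype N] [DecidableEq M] [DecidableEq N]

theorem ib_det_comm (a : R) (B : Matrix N M R) (C : Matrix M N R) :
    a ^ Fintype.card M * (a • (1 : Matrix N N R) - B * C).det =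
      a ^ Fintype.card N * (a • (1 : Matrix M M R) - C * B).det := by
  have h := congrArg (Polynomial.eval a) (Matrix.charpoly_mul_comm' B C)
  rw [Polynomial.eval_mul, Polynomial.eval_mul, Polynomial.eval_pow, Polynomial.eval_pow,
    Polynomial.eval_X, Matrix.eval_charpoly, Matrix.eval_charpoly] at h
  rw [Matrix.smul_one_eq_diagonal, Matrix.smul_one_eq_diagonal]
  exact h

theorem ib_regular (c : R) (k : ℕ) {f g : R[X]}
    (h : (1 - C c * X ^ 2 : R[X]) ^ k * f = (1 - C c * X ^ 2) ^ k * g) : f = g := by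
  have hu : IsUnit ((((1 - C c * X ^ 2 : R[X]) ^ k : R[X]) : PowerSeries R)) := by
    rw [PowerSeries.isUnit_iff_constantCoeff, ← PowerSeries.coeff_zero_eq_constantCoeff_apply,
      Polynomial.coeff_coe]
    have : (((1 - C c * X ^ 2 : R[X]) ^ k : R[X])).coeff 0 = 1 := by
      rw [Polynomial.coeff_zero_eq_eval_zero]
      simp
    rw [this]
    exact isUnit_one
  have h2 := congrArg (fun x : R[X] => (x : PowerSeries R)) h
  simp only [Polynomial.coe_mul] at h2
  exact Polynomial.coe_injective R (hu.mul_left_cancel h2)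

end General

section Fixed

variable {R M N : Type*} [CommRing R] [Fintype M] [Fintype N] [DecidableEq M] [DecidableEq N]
variable (p c : R) (ι : Matrix N M R) (π : Matrix M N R) (W : Matrix N N R)

/-- `det(1 + X W) det(1 - X W) = (1 - c X²)^|N|` -/
theorem ib_W (hW : W * W = c • (1 : Matrix N N R)) :
    ((1 : Matrix N N R[X]) + (X : R[X]) • W.map C).det *
      ((1 : Matrix N N R[X]) - (X : R[X]) • W.map C).det =
      (1 - C c * X ^ 2) ^ Fintype.card N := by
  rw [← Matrix.det_mul]
  have h : ((1 : Matrix N N R[X]) + (X : R[X]) • W.map C) *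
      ((1 : Matrix N N R[X]) - (X : R[X]) • W.map C) =
      (1 - C c * X ^ 2 : R[X]) • (1 : Matrix N N R[X]) := by
    have h1 : W.map C * W.map C = (C c : R[X]) • (1 : Matrix N N R[X]) := by
      rw [← Matrix.map_mul, hW]
      ext i j
      by_cases hij : i = j
      · subst hij; simp
      · simp [hij]
    rw [add_mul, mul_sub, mul_sub, one_mul, one_mul, mul_one, Matrix.smul_mul, Matrix.mul_smul,
      h1, sub_smul, one_smul, smul_smul, smul_smul]
    rw [show (X : R[X]) * X * C c = C c * X ^ 2 by ring]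
    abel
  rw [h, Matrix.det_smul, Matrix.det_one, mul_one]

/-- (1.1) Ihara-Bass -/
theorem ib_ihara_bass (hW : W * W = c • (1 : Matrix N N R))
    (hπ : π * ι = (p + 1) • (1 : Matrix M M R)) :
    (1 - C c * X ^ 2) ^ Fintype.card M *
      ((1 : Matrix N N R[X]) - (X : R[X]) • (W * (ι * π - 1)).map C).det =
      ((1 : Matrix N N R[X]) + (X : R[X]) • W.map C).det *
        ((1 : Matrix M M R[X]) - (X : R[X]) • (π * W * ι).map C +
          (C (p * c) * X ^ 2 : R[X]) • (1 : Matrix M M R[X])).det := by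
  have hWm : W.map C * W.map C = (C c : R[X]) • (1 : Matrix N N R[X]) := by
    rw [← Matrix.map_mul, hW]
    ext i j
    by_cases hij : i = j
    · subst hij; simp
    · simp [hij]
  have hπm : π.map C * ι.map C = (C (p + 1) : R[X]) • (1 : Matrix M M R[X]) := by
    rw [← Matrix.map_mul, hπ]
    ext i j
    by_cases hij : i = j
    · subst hij; simp
    · simp [hij]
  obtain ⟨a, ha⟩ : ∃ a : R[X], a = 1 - C c * X ^ 2 := ⟨_, rfl⟩
  obtain ⟨w, hw⟩ : ∃ w : Matrix N N R[X], w = W.map C := ⟨_, rfl⟩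
  obtain ⟨i, hi⟩ : ∃ i : Matrix N M R[X], i = ι.map C := ⟨_, rfl⟩
  obtain ⟨r, hr⟩ : ∃ r : Matrix M N R[X], r = π.map C := ⟨_, rfl⟩
  have hU : (W * (ι * π - 1)).map C = w * (i * r - 1) := by
    have e : (ι * π - 1).map C = i * r - 1 := by
      rw [Matrix.map_sub _ (fun a b => map_sub C a b), Matrix.map_mul,
        Matrix.map_one _ (map_zero C) (map_one C), hi, hr]
    rw [Matrix.map_mul, hw, e]
  have hT : (π * W * ι).map C = r * w * i := by
    rw [Matrix.map_mul, Matrix.map_mul, hw, hi, hr]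
  rw [← hw] at hWm
  rw [← hi, ← hr] at hπm
  rw [hU, hT, ← hw, ← ha]
  -- multiply by `1 - X W`
  have h1 : ((1 : Matrix N N R[X]) - (X : R[X]) • w) *
      ((1 : Matrix N N R[X]) - (X : R[X]) • (w * (i * r - 1))) =
      a • (1 : Matrix N N R[X]) - ((X : R[X]) • (w * i) - (C c * X ^ 2 : R[X]) • i) * r := by
    have e1 : w * (i * r - 1) = w * i * r - w := by rw [mul_sub, mul_one, Matrix.mul_assoc]
    have e2 : w * (w * i * r) = (C c : R[X]) • (i * r) := by
      rw [← Matrix.mul_assoc, ← Matrix.mul_assoc, hWm, Matrix.smul_mul, Matrix.smul_mul,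
        Matrix.one_mul]
    have e3 : (X : R[X]) • w * (X : R[X]) • (w * i * r - w) =
        (C c * X ^ 2 : R[X]) • (i * r) - (C c * X ^ 2 : R[X]) • (1 : Matrix N N R[X]) := by
      rw [Matrix.smul_mul, Matrix.mul_smul, mul_sub, e2, hWm, ← smul_sub, smul_smul, smul_smul]
      rw [show (X : R[X]) * X * C c = C c * X ^ 2 by ring, smul_sub]
    rw [e1, sub_mul, mul_sub, mul_sub, one_mul, mul_one, one_mul, e3, Matrix.sub_mul,
      Matrix.smul_mul, Matrix.smul_mul, ha, sub_smul, one_smul, smul_sub]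
    abel
  have h2 := congrArg Matrix.det h1
  rw [Matrix.det_mul] at h2
  have h3 := ib_det_comm a ((X : R[X]) • (w * i) - (C c * X ^ 2 : R[X]) • i) r
  have h4 : r * ((X : R[X]) • (w * i) - (C c * X ^ 2 : R[X]) • i) =
      (X : R[X]) • (r * w * i) - (C c * X ^ 2 * C (p + 1) : R[X]) • (1 : Matrix M M R[X]) := by
    rw [Matrix.mul_sub, Matrix.mul_smul, Matrix.mul_smul, hπm, smul_smul, Matrix.mul_assoc]
  have h5 : a • (1 : Matrix M M R[X]) - r * ((X : R[X]) • (w * i) - (C c * X ^ 2 : R[X]) • i) =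
      (1 : Matrix M M R[X]) - (X : R[X]) • (r * w * i) +
          (C (p * c) * X ^ 2 : R[X]) • (1 : Matrix M M R[X]) := by
    rw [h4, ha, sub_smul, one_smul]
    have e : (C c * X ^ 2 * C (p + 1) : R[X]) • (1 : Matrix M M R[X]) =
        (C c * X ^ 2 : R[X]) • (1 : Matrix M M R[X]) +
          (C (p * c) * X ^ 2 : R[X]) • (1 : Matrix M M R[X]) := by
      rw [← add_smul]
      congr 1
      rw [map_add, map_mul, map_one]
      ring
    rw [e]
    abel
  rw [h5] at h3
  have h6 := ib_W c W hW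
  rw [← hw, ← ha] at h6
  -- put together
  have h7 : a ^ Fintype.card N * (a ^ Fintype.card M *
      ((1 : Matrix N N R[X]) - (X : R[X]) • (w * (i * r - 1))).det) =
      a ^ Fintype.card N * (((1 : Matrix N N R[X]) + (X : R[X]) • w).det *
        ((1 : Matrix M M R[X]) - (X : R[X]) • (r * w * i) +
          (C (p * c) * X ^ 2 : R[X]) • (1 : Matrix M M R[X])).det) := by
    calc _ = ((1 : Matrix N N R[X]) + (X : R[X]) • w).det * (a ^ Fintype.card M *
        (((1 : Matrix N N R[X]) - (X : R[X]) • w).det *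
          ((1 : Matrix N N R[X]) - (X : R[X]) • (w * (i * r - 1))).det)) := by
          rw [← h6]; ring
      _ = ((1 : Matrix N N R[X]) + (X : R[X]) • w).det * (a ^ Fintype.card N *
        ((1 : Matrix M M R[X]) - (X : R[X]) • (r * w * i) +
          (C (p * c) * X ^ 2 : R[X]) • (1 : Matrix M M R[X])).det) := by
          rw [h2, h3]
      _ = _ := by ring
  rw [ha] at h7
  have h8 := ib_regular c _ h7
  rw [← ha] at h8
  exact h8

omit [DecidableEq N] in
/-- `S² = (p + 1) S` -/
theorem ib_S_sq (hπ : π * ι = (p + 1) • (1 : Matrix M M R)) :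
    ι * π * (ι * π) = (p + 1) • (ι * π) := by
  rw [Matrix.mul_assoc, ← Matrix.mul_assoc π, hπ, Matrix.smul_mul, Matrix.one_mul,
    Matrix.mul_smul]

/-- `(S - 1)(S - p) = p` -/
theorem ib_S_mul (hπ : π * ι = (p + 1) • (1 : Matrix M M R)) :
    (ι * π - 1) * (ι * π - p • (1 : Matrix N N R)) = p • (1 : Matrix N N R) := by
  rw [sub_mul, mul_sub, ib_S_sq p ι π hπ, one_mul, Matrix.mul_smul, mul_one, add_smul, one_smul]
  abel

/-- (1.3) `U ((S - p) W) = p c` -/
theorem ib_U_mul (hW : W * W = c • (1 : Matrix N N R))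
    (hπ : π * ι = (p + 1) • (1 : Matrix M M R)) :
    W * (ι * π - 1) * ((ι * π - p • (1 : Matrix N N R)) * W) = (p * c) • (1 : Matrix N N R) := by
  rw [Matrix.mul_assoc, ← Matrix.mul_assoc (ι * π - 1), ib_S_mul p ι π hπ, Matrix.smul_mul,
    Matrix.one_mul, Matrix.mul_smul, hW, smul_smul]

omit [DecidableEq M] in
/-- the two forms of `U^∨` have the same characteristic power series -/
theorem ib_dual_comm :
    ((1 : Matrix N N R[X]) - (X : R[X]) • ((ι * π - p • (1 : Matrix N N R)) * W).map C).det =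
      ((1 : Matrix N N R[X]) - (X : R[X]) • (W * (ι * π - p • (1 : Matrix N N R))).map C).det := by
  rw [Matrix.map_mul, Matrix.map_mul, ← Matrix.smul_mul, Matrix.det_one_sub_mul_comm,
    Matrix.mul_smul]

/-- (1.2) `det (S - 1)` -/
theorem ib_det_S (hπ : π * ι = (p + 1) • (1 : Matrix M M R)) :
    (ι * π - 1).det = (-1) ^ (Fintype.card N + Fintype.card M) * p ^ Fintype.card M := by
  have h1 : ι * π - 1 = -(1 - ι * π) := by abel
  have h2 : (1 : Matrix M M R) - (p + 1) • (1 : Matrix M M R) = -(p • (1 : Matrix M M R)) := by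
    rw [add_smul, one_smul]; abel
  rw [h1, Matrix.det_neg, Matrix.det_one_sub_mul_comm, hπ, h2, Matrix.det_neg, Matrix.det_smul,
    Matrix.det_one, pow_add]
  ring

/-- (1.2) `det W` -/
theorem ib_det_W (hW : W * W = c • (1 : Matrix N N R)) :
    W.det ^ 2 = c ^ Fintype.card N := by
  rw [sq, ← Matrix.det_mul, hW, Matrix.det_smul, Matrix.det_one, mul_one]

/-- (1.2) `det U` -/
theorem ib_det_U (hW : W * W = c • (1 : Matrix N N R))
    (hπ : π * ι = (p + 1) • (1 : Matrix M M R)) :
    (W * (ι * π - 1)).det ^ 2 = c ^ Fintype.card N * p ^ (2 * Fintype.card M) := by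
  rw [Matrix.det_mul, mul_pow, ib_det_W c W hW, ib_det_S p ι π hπ, mul_pow, ← pow_mul, ← pow_mul,
    mul_comm (Fintype.card M) 2]
  rw [show (-1 : R) ^ ((Fintype.card N + Fintype.card M) * 2) = 1 by
    rw [mul_comm, pow_mul]; simp, one_mul]

end Fixed

end Pool.Agent.Gouv
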