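import Pool.Agent.Work.MP_d3517d_nt.GaussProd
import Pool.Agent.Work.MP_d3517d_nt.IharaBass

/-!
# MP_d3517d_nt: the Newton function of `det (1 - X U)` (Ihara-Bass and Gauss norms)

In a fixed weight `n` let `c = p^n`, `W² = c`, `π ι = p + 1`, `U = W (ι π - 1)`, `T = π W ι`.
For `x ≤ n/2` the Newton function of `det (1 - X U)` at `x` is `- sum (x - v λ)^+` over the
eigenvalues `λ` of `T`.
-/

set_option autoImplicit false

namespace Pool.Agent.Gouv

open Polynomial Matrix

noncomputable section

section Basic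

variable {K : Type*} [NormedField K] {p : ℝ}

theorem FF_nonpos (hp : 1 < p) {P : K[X]} (h : P.coeff 0 = 1) (x : ℝ) : FF p P x ≤ 0 := by
  have h1 := FF_le hp (P := P) (r := 0) (by rw [h]; exact one_ne_zero) x
  rw [h] at h1
  simpa [vv] using h1

theorem FF_one' (hp : 1 < p) (x : ℝ) : FF p (1 : K[X]) x = 0 := by
  have h := FF_one_sub hp (0 : K) x
  rw [pp_zero] at h
  simpa using h

theorem FF_pow (hp : 1 < p) (hna : IsNonarchimedean (NormedField.toAbsoluteValue K))
    {P : K[X]} (hP : P ≠ 0) (x : ℝ) (k : ℕ) : FF p (P ^ k) x = k * FF p P x := by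
  induction k with
  | zero => simp [FF_one' hp]
  | succ k ih =>
    rw [pow_succ, FF_mul hp hna (pow_ne_zero _ hP) hP, ih]
    push_cast
    ring

theorem FF_multiset (hp : 1 < p) (hna : IsNonarchimedean (NormedField.toAbsoluteValue K))
    {A : Type*} (s : Multiset A) (F : A → K[X]) (hF : ∀ a ∈ s, F a ≠ 0) (x : ℝ) :
    FF p (s.map F).prod x = (s.map fun a => FF p (F a) x).sum := by
  induction s using Multiset.induction_on with
  | empty => simp [FF_one' hp]
  | cons a s ih =>
    have h1 : (s.map F).prod ≠ 0 := by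
      apply Multiset.prod_ne_zero
      intro h0
      obtain ⟨b, hb, hb0⟩ := Multiset.mem_map.1 h0
      exact hF b (Multiset.mem_cons_of_mem hb) hb0
    rw [Multiset.map_cons, Multiset.prod_cons, FF_mul hp hna (hF a (Multiset.mem_cons_self a s)) h1,
      ih fun b hb => hF b (Multiset.mem_cons_of_mem hb), Multiset.map_cons, Multiset.sum_cons]

theorem ne_zero_of_coeff_zero {P : K[X]} (h : P.coeff 0 = 1) : P ≠ 0 := by
  intro h0
  rw [h0] at h
  simp at h

/-- A quadratic polynomial `1 - a X + d X²` with `‖d‖ p^(2x) ≤ 1` has the Newton function of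
`1 - a X` at `x`. -/
theorem FF_quad (hp : 1 < p) (a d : K) {x : ℝ} (hd : ‖d‖ * p ^ (2 * x) ≤ 1) :
    FF p (1 + C d * X ^ 2 - C a * X : K[X]) x = - pp p a x := by
  have hp0 : 0 < p := by linarith
  have hc : (0 : ℝ) < p ^ x := Real.rpow_pos_of_pos hp0 x
  have h2 : p ^ (2 * x) = (p ^ x) ^ 2 := by
    rw [← Real.rpow_natCast, ← Real.rpow_mul hp0.le]
    congr 1
    push_cast
    ring
  unfold FF pp
  congr 1
  congr 1
  apply le_antisymm
  · obtain ⟨r, hr⟩ := (1 + C d * X ^ 2 - C a * X : K[X]).exists_eq_gaussNorm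
      (NormedField.toAbsoluteValue K) (p ^ x)
    rw [hr, toAbs_apply]
    rcases r with _ | _ | _ | r
    · simp
    · simp [coeff_one, coeff_X_pow]
    · have e : (1 + C d * X ^ 2 - C a * X : K[X]).coeff (0 + 1 + 1) = d := by
        simp [coeff_one, coeff_X_pow]
      rw [e]
      refine le_trans ?_ (le_max_left _ _)
      rw [← h2]
      exact hd
    · have e : (1 + C d * X ^ 2 - C a * X : K[X]).coeff (r + 1 + 1 + 1) = 0 := by
        simp [coeff_one]
      rw [e]; simp
  · apply max_le
    · have := (1 + C d * X ^ 2 - C a * X : K[X]).le_gaussNorm (NormedField.toAbsoluteValue K)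
        hc.le 0
      rw [toAbs_apply] at this
      simpa using this
    · have := (1 + C d * X ^ 2 - C a * X : K[X]).le_gaussNorm (NormedField.toAbsoluteValue K)
        hc.le 1
      rw [toAbs_apply] at this
      simpa [coeff_one, coeff_X_pow] using this

theorem FF_one_sub_sq (hp : 1 < p) (c : K) {x : ℝ} (hc : ‖c‖ * p ^ (2 * x) ≤ 1) :
    FF p (1 - C c * X ^ 2 : K[X]) x = 0 := by
  have h := FF_quad hp 0 (-c) (x := x) (by rwa [norm_neg])
  rw [pp_zero] at h
  have e : (1 + C (-c) * X ^ 2 - C 0 * X : K[X]) = 1 - C c * X ^ 2 := by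
    simp [sub_eq_add_neg]
  rw [e] at h
  simpa using h

end Basic

section Det

/-- `det (s - t T) = prod (s - t a)` over the eigenvalues `a` of `T`. -/
theorem det_smul_sub_smul {L : Type*} [Field L] {n : Type*} [Fintype n] [DecidableEq n]
    (T : Matrix n n L) (roots : Multiset L)
    (hT : T.charpoly = (roots.map fun a => (X - C a : L[X])).prod) (s t : L[X]) (ht : t ≠ 0) :
    (s • (1 : Matrix n n L[X]) - t • T.map C).det = (roots.map fun a => s - C a * t).prod := by
  have hcard : Multiset.card roots = Fintype.card n := by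
    have h1 := congrArg natDegree hT
    rw [T.charpoly_natDegree_eq_dim, natDegree_multiset_prod_X_sub_C_eq_card] at h1
    exact h1.symm
  -- pass to the fraction field
  obtain ⟨j, hj⟩ : ∃ j : L[X] →+* FractionRing L[X], j = algebraMap L[X] (FractionRing L[X]) :=
    ⟨_, rfl⟩
  have hinj : Function.Injective j := by
    rw [hj]; exact IsFractionRing.injective L[X] (FractionRing L[X])
  have htj : j t ≠ 0 := by
    intro h0
    exact ht (hinj (by rw [h0, map_zero]))
  apply hinj
  rw [map_multiset_prod, Multiset.map_map, RingHom.map_det]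
  have e1 : j.mapMatrix (s • (1 : Matrix n n L[X]) - t • T.map C) =
      (j t) • ((j s / j t) • (1 : Matrix n n (FractionRing L[X])) - (T.map C).map j) := by
    rw [smul_sub, smul_smul, mul_div_cancel₀ _ htj]
    ext a b
    simp only [RingHom.mapMatrix_apply, Matrix.map_apply, Matrix.sub_apply, Matrix.smul_apply,
      smul_eq_mul, map_sub, map_mul]
    by_cases hab : a = b
    · subst hab; simp
    · simp [hab]
  rw [e1, Matrix.det_smul]
  have e2 : ((j s / j t) • (1 : Matrix n n (FractionRing L[X])) - (T.map C).map j).det =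
      (((T.map C).map j).charpoly).eval (j s / j t) := by
    rw [Matrix.eval_charpoly, Matrix.smul_one_eq_diagonal]
    rfl
  have e3 : ((T.map C).map j).charpoly = (roots.map fun a => (X - C (j (C a)))).prod := by
    have e4 : (T.map C).map j = T.map (j.comp C) := by
      ext a b; simp
    rw [e4, Matrix.charpoly_map, hT, Polynomial.map_multiset_prod, Multiset.map_map]
    congr 1
    apply Multiset.map_congr rfl
    intro a _
    simp
  rw [e2, e3, eval_multiset_prod, Multiset.map_map, ← hcard]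
  clear hT hcard e2 e3
  induction roots using Multiset.induction_on with
  | empty => simp
  | cons a s ih =>
    rw [Multiset.map_cons, Multiset.prod_cons, Multiset.map_cons, Multiset.prod_cons,
      Multiset.card_cons, pow_succ, ← ih]
    simp only [Function.comp_apply, eval_sub, eval_X, eval_C, map_sub, map_mul]
    field_simp

end Det

section Main

variable {K L : Type*} [NormedField K] [NormedField L] [IsAlgClosed L] {p : ℝ}

/-- The Newton function of `det (1 - X T + d X²)`, `‖d‖ p^(2x) ≤ 1`. -/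
theorem FF_det_T (hp : 1 < p) (hna : IsNonarchimedean (NormedField.toAbsoluteValue L))
    (f : K →+* L) (hf : ∀ a, ‖f a‖ = ‖a‖) {M : Type*} [Fintype M] [DecidableEq M]
    (T : Matrix M M K) (d : K) {x : ℝ} (hd : ‖d‖ * p ^ (2 * x) ≤ 1) :
    FF p ((1 : Matrix M M K[X]) - (X : K[X]) • T.map C +
      (C d * X ^ 2 : K[X]) • (1 : Matrix M M K[X])).det x =
      - ((T.charpoly.map f).roots.map fun a => pp p a x).sum := by
  have hsplit : (T.map f).charpoly =
      ((T.charpoly.map f).roots.map fun a => (X - C a : L[X])).prod := by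
    have h := (IsAlgClosed.splits (T.charpoly.map f)).eq_prod_roots
    rw [((T.charpoly_monic).map f).leadingCoeff, C_1, one_mul] at h
    rw [Matrix.charpoly_map, ← h]
  have e : ((1 : Matrix M M K[X]) - (X : K[X]) • T.map C +
      (C d * X ^ 2 : K[X]) • (1 : Matrix M M K[X])).det.map f =
      ((1 + C (f d) * X ^ 2 : L[X]) • (1 : Matrix M M L[X]) -
        (X : L[X]) • (T.map f).map C).det := by
    rw [← coe_mapRingHom, RingHom.map_det]
    congr 1
    ext a b : 2
    by_cases hab : a = b
    · subst hab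
      simp
      ring
    · simp [hab]
  rw [← FF_map f hf, e, det_smul_sub_smul (T.map f) _ hsplit _ _ X_ne_zero,
    FF_multiset hp hna _ _ ?_, ← Multiset.sum_map_neg]
  · congr 1
    apply Multiset.map_congr rfl
    intro a _
    exact FF_quad hp a (f d) (by rwa [hf])
  · intro a _
    apply ne_zero_of_coeff_zero
    simp

variable {M N : Type*} [Fintype M] [Fintype N] [DecidableEq M] [DecidableEq N]

omit [DecidableEq M] [Fintype M] in
theorem coeff_zero_det_one_add {R : Type*} [CommRing R] (W : Matrix N N R) :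
    ((1 : Matrix N N R[X]) + (X : R[X]) • W.map C).det.coeff 0 = 1 := by
  rw [coeff_zero_eq_eval_zero, ← coe_evalRingHom, RingHom.map_det]
  have : (evalRingHom (0 : R)).mapMatrix ((1 : Matrix N N R[X]) + (X : R[X]) • W.map C) = 1 := by
    ext a b
    by_cases hab : a = b
    · subst hab; simp
    · simp [hab]
  rw [this, Matrix.det_one]

/-- `det (1 + X W)` has trivial Newton function up to `n/2` (here `‖c‖ p^(2x) ≤ 1`). -/
theorem FF_det_W (hp : 1 < p) (hna : IsNonarchimedean (NormedField.toAbsoluteValue K))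
    (c : K) (W : Matrix N N K) (hW : W * W = c • (1 : Matrix N N K)) {x : ℝ}
    (hc : ‖c‖ * p ^ (2 * x) ≤ 1) :
    FF p ((1 : Matrix N N K[X]) + (X : K[X]) • W.map C).det x = 0 := by
  have c1 : ((1 : Matrix N N K[X]) + (X : K[X]) • W.map C).det.coeff 0 = 1 :=
    coeff_zero_det_one_add W
  have c2 : ((1 : Matrix N N K[X]) - (X : K[X]) • W.map C).det.coeff 0 = 1 := by
    have := coeff_zero_eq_eval_zero W.charpolyRev
    rw [Matrix.eval_charpolyRev] at this
    exact this
  have h : FF p (((1 : Matrix N N K[X]) + (X : K[X]) • W.map C).det *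
      ((1 : Matrix N N K[X]) - (X : K[X]) • W.map C).det) x =
      FF p ((1 - C c * X ^ 2) ^ Fintype.card N) x := by rw [ib_W c W hW]
  have h0 : (1 - C c * X ^ 2 : K[X]) ≠ 0 := ne_zero_of_coeff_zero (by simp)
  rw [FF_mul hp hna (ne_zero_of_coeff_zero c1) (ne_zero_of_coeff_zero c2), FF_pow hp hna h0,
    FF_one_sub_sq hp c hc, mul_zero] at h
  have h1 := FF_nonpos hp c1 x
  have h2 := FF_nonpos hp c2 x
  linarith

/-- The Newton function of `det (1 - X U)` in terms of the eigenvalues of `T`. -/
theorem FF_det_U (hp : 1 < p) (hnaK : IsNonarchimedean (NormedField.toAbsoluteValue K))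
    (hna : IsNonarchimedean (NormedField.toAbsoluteValue L))
    (f : K →+* L) (hf : ∀ a, ‖f a‖ = ‖a‖) (P c : K)
    (ι : Matrix N M K) (π : Matrix M N K) (W : Matrix N N K)
    (hW : W * W = c • (1 : Matrix N N K)) (hπ : π * ι = (P + 1) • (1 : Matrix M M K)) {x : ℝ}
    (hP : ‖P‖ ≤ 1) (hc : ‖c‖ * p ^ (2 * x) ≤ 1) :
    FF p (W * (ι * π - 1)).charpolyRev x =
      - (((π * W * ι).charpoly.map f).roots.map fun a => pp p a x).sum := by
  have hp0 : 0 < p := by linarith
  have hPc : ‖P * c‖ * p ^ (2 * x) ≤ 1 := by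
    rw [norm_mul, mul_assoc]
    have h1 : 0 ≤ ‖c‖ * p ^ (2 * x) := by positivity
    nlinarith [norm_nonneg P]
  have h : FF p ((1 - C c * X ^ 2) ^ Fintype.card M * (W * (ι * π - 1)).charpolyRev) x =
      FF p (((1 : Matrix N N K[X]) + (X : K[X]) • W.map C).det *
        ((1 : Matrix M M K[X]) - (X : K[X]) • (π * W * ι).map C +
          (C (P * c) * X ^ 2 : K[X]) • (1 : Matrix M M K[X])).det) x := by
    rw [← ib_ihara_bass P c ι π W hW hπ]
    rfl
  have h0 : (1 - C c * X ^ 2 : K[X]) ≠ 0 := ne_zero_of_coeff_zero (by simp)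
  have hU : (W * (ι * π - 1)).charpolyRev ≠ 0 := by
    apply ne_zero_of_coeff_zero
    rw [coeff_zero_eq_eval_zero, Matrix.eval_charpolyRev]
  have hWne : ((1 : Matrix N N K[X]) + (X : K[X]) • W.map C).det ≠ 0 := by
    apply ne_zero_of_coeff_zero
    exact coeff_zero_det_one_add W
  have hTne : ((1 : Matrix M M K[X]) - (X : K[X]) • (π * W * ι).map C +
          (C (P * c) * X ^ 2 : K[X]) • (1 : Matrix M M K[X])).det ≠ 0 := by
    apply ne_zero_of_coeff_zero
    rw [coeff_zero_eq_eval_zero, ← coe_evalRingHom, RingHom.map_det]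
    have : (evalRingHom (0 : K)).mapMatrix ((1 : Matrix M M K[X]) -
        (X : K[X]) • (π * W * ι).map C +
          (C (P * c) * X ^ 2 : K[X]) • (1 : Matrix M M K[X])) = 1 := by
      ext a b
      by_cases hab : a = b
      · subst hab; simp
      · simp [hab]
    rw [this, Matrix.det_one]
  rw [FF_mul hp hnaK (pow_ne_zero _ h0) hU, FF_pow hp hnaK h0, FF_one_sub_sq hp c hc, mul_zero,
    zero_add, FF_mul hp hnaK hWne hTne, FF_det_W hp hnaK c W hW hc, zero_add,
    FF_det_T hp hna f hf _ _ hPc] at h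
  exact h

/-! ### Linear maps (for the summands cut out by an idempotent) -/

variable {VM VN : Type*} [AddCommGroup VM] [Module K VM] [FiniteDimensional K VM]
  [AddCommGroup VN] [Module K VN] [FiniteDimensional K VN]

omit [Fintype M] [Fintype N] [DecidableEq M] [DecidableEq N] in
/-- The Newton function of `det (1 - X U)` in terms of the eigenvalues of `T`, for linear
maps. -/
theorem FF_linear_U (hp : 1 < p) (hnaK : IsNonarchimedean (NormedField.toAbsoluteValue K))
    (hna : IsNonarchimedean (NormedField.toAbsoluteValue L))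
    (f : K →+* L) (hf : ∀ a, ‖f a‖ = ‖a‖) (P c : K)
    (ι : VM →ₗ[K] VN) (π : VN →ₗ[K] VM) (W : VN →ₗ[K] VN)
    (hW : W ∘ₗ W = c • LinearMap.id) (hπ : π ∘ₗ ι = (P + 1) • LinearMap.id) {x : ℝ}
    (hP : ‖P‖ ≤ 1) (hc : ‖c‖ * p ^ (2 * x) ≤ 1) :
    FF p (W ∘ₗ (ι ∘ₗ π - LinearMap.id)).charpoly.reverse x =
      - (((π ∘ₗ W ∘ₗ ι).charpoly.map f).roots.map fun a => pp p a x).sum := by
  obtain ⟨bM⟩ : Nonempty (Module.Basis (Fin (Module.finrank K VM)) K VM) :=
    ⟨Module.finBasis K VM⟩
  obtain ⟨bN⟩ : Nonempty (Module.Basis (Fin (Module.finrank K VN)) K VN) :=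
    ⟨Module.finBasis K VN⟩
  have h := FF_det_U hp hnaK hna f hf P c (LinearMap.toMatrix bM bN ι) (LinearMap.toMatrix bN bM π)
    (LinearMap.toMatrix bN bN W) (x := x) ?_ ?_ hP hc
  · rw [← Matrix.reverse_charpoly, ← LinearMap.toMatrix_comp bN bM bN,
      ← LinearMap.toMatrix_id bN, ← map_sub, ← LinearMap.toMatrix_comp bN bN bN,
      LinearMap.charpoly_toMatrix, ← LinearMap.toMatrix_comp bN bN bM,
      ← LinearMap.toMatrix_comp bM bN bM, LinearMap.charpoly_toMatrix] at h
    exact h
  · rw [← LinearMap.toMatrix_comp bN bN bN, hW, map_smul, LinearMap.toMatrix_id]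
  · rw [← LinearMap.toMatrix_comp bM bN bM, hπ, map_smul, LinearMap.toMatrix_id]

/-! ### Idempotents -/

omit [IsAlgClosed L] [NormedField L] [Fintype M] [DecidableEq M] in
/-- An idempotent matrix over a field factors through its range. -/
theorem idem_factor {F : Type*} [Field F] (ε : Matrix N N F) (hε : ε * ε = ε) :
    ∃ (r : ℕ) (I : Matrix N (Fin r) F) (Q : Matrix (Fin r) N F), I * Q = ε ∧ Q * I = 1 := by
  obtain ⟨f, hf⟩ : ∃ f : (N → F) →ₗ[F] (N → F), f = Matrix.toLin' ε := ⟨_, rfl⟩
  have hff : ∀ v, f (f v) = f v := by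
    intro v
    have := congrArg (fun g : (N → F) →ₗ[F] (N → F) => g v)
      (congrArg Matrix.toLin' hε)
    simp only [Matrix.toLin'_mul, LinearMap.comp_apply, ← hf] at this
    exact this
  let b := Module.finBasis F (LinearMap.range f)
  refine ⟨_, LinearMap.toMatrix b (Pi.basisFun F N) (LinearMap.range f).subtype,
    LinearMap.toMatrix (Pi.basisFun F N) b f.rangeRestrict, ?_, ?_⟩
  · rw [← LinearMap.toMatrix_comp (Pi.basisFun F N) b (Pi.basisFun F N)]
    have e : (LinearMap.range f).subtype ∘ₗ f.rangeRestrict = f := by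
      ext v; rfl
    rw [e, hf, LinearMap.toMatrix_eq_toMatrix', LinearMap.toMatrix'_toLin']
  · rw [← LinearMap.toMatrix_comp b (Pi.basisFun F N) b]
    have e : f.rangeRestrict ∘ₗ (LinearMap.range f).subtype = LinearMap.id := by
      ext v : 2
      obtain ⟨v, w, rfl⟩ := v
      simp only [LinearMap.comp_apply, Submodule.subtype_apply, LinearMap.id_apply,
        LinearMap.codRestrict_apply]
      exact hff w
    rw [e, LinearMap.toMatrix_id]

theorem charpolyRev_mul_comm {R : Type*} [CommRing R] (A : Matrix M N R) (B : Matrix N M R) :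
    (A * B).charpolyRev = (B * A).charpolyRev := by
  unfold Matrix.charpolyRev
  rw [Matrix.map_mul, Matrix.map_mul, ← Matrix.smul_mul, Matrix.det_one_sub_mul_comm,
    Matrix.mul_smul]

/-- Ihara-Bass and Gauss norms for the summand cut out by an idempotent: for `‖c‖ p^(2x) ≤ 1`
the Newton functions of `det (1 - X ε U)` and of `det (1 - X ε T)` at `x` agree. -/
theorem FF_idem (hp : 1 < p) (hnaK : IsNonarchimedean (NormedField.toAbsoluteValue K))
    (hna : IsNonarchimedean (NormedField.toAbsoluteValue L))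
    (f : K →+* L) (hf : ∀ a, ‖f a‖ = ‖a‖) (P c : K)
    (ι : Matrix N M K) (π : Matrix M N K) (W : Matrix N N K)
    (εN : Matrix N N K) (εM : Matrix M M K)
    (hW : W * W = c • (1 : Matrix N N K)) (hπ : π * ι = (P + 1) • (1 : Matrix M M K))
    (idN : εN * εN = εN) (idM : εM * εM = εM) (comW : εN * W = W * εN)
    (comι : εN * ι = ι * εM) (comπ : π * εN = εM * π) {x : ℝ}
    (hP : ‖P‖ ≤ 1) (hc : ‖c‖ * p ^ (2 * x) ≤ 1) :
    FF p (εN * (W * (ι * π - 1))).charpolyRev x =
      - (((εM * (π * W * ι)).charpoly.map f).roots.map fun a => pp p a x).sum := by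
  obtain ⟨r, I, Q, hIQ, hQI⟩ := idem_factor εN idN
  obtain ⟨t, J, R, hJR, hRJ⟩ := idem_factor εM idM
  have hQ : Q * εN = Q := by rw [← hIQ, ← Matrix.mul_assoc, hQI, Matrix.one_mul]
  have hI : εN * I = I := by rw [← hIQ, Matrix.mul_assoc, hQI, Matrix.mul_one]
  have hR : R * εM = R := by rw [← hJR, ← Matrix.mul_assoc, hRJ, Matrix.one_mul]
  have hJ : εM * J = J := by rw [← hJR, Matrix.mul_assoc, hRJ, Matrix.mul_one]
  have h := FF_det_U hp hnaK hna f hf P c (Q * ι * J) (R * π * I) (Q * W * I) (x := x) ?_ ?_ hP hc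
  · have e1 : Q * W * I * (Q * ι * J * (R * π * I) - 1) = Q * (W * (ι * π - 1)) * I := by
      have a1 : Q * ι * J * (R * π * I) = Q * (ι * π) * I := by
        calc Q * ι * J * (R * π * I) = Q * ι * (J * R) * π * I := by
              simp only [Matrix.mul_assoc]
          _ = Q * (εN * ι) * π * I := by rw [hJR, Matrix.mul_assoc Q, ← comι]
          _ = Q * (ι * π) * I := by
              rw [← Matrix.mul_assoc Q εN, hQ, Matrix.mul_assoc Q]
      have a2 : Q * (ι * π) * I - 1 = Q * (ι * π - 1) * I := by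
        rw [Matrix.mul_sub, Matrix.sub_mul, Matrix.mul_one, hQI]
      rw [a1, a2]
      calc Q * W * I * (Q * (ι * π - 1) * I) = Q * W * (I * Q) * (ι * π - 1) * I := by
            simp only [Matrix.mul_assoc]
        _ = Q * (εN * W) * (ι * π - 1) * I := by rw [hIQ, Matrix.mul_assoc Q, ← comW]
        _ = Q * (W * (ι * π - 1)) * I := by
            rw [← Matrix.mul_assoc Q εN, hQ, Matrix.mul_assoc Q]
    have e2 : R * π * I * (Q * W * I) * (Q * ι * J) = R * (π * W * ι) * J := by
      calc R * π * I * (Q * W * I) * (Q * ι * J) = R * π * (I * Q) * W * (I * Q) * ι * J := by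
            simp only [Matrix.mul_assoc]
        _ = R * (π * εN) * (W * εN) * ι * J := by
            rw [hIQ]; simp only [Matrix.mul_assoc]
        _ = R * εM * π * (εN * W) * ι * J := by
            rw [comπ, comW]; simp only [Matrix.mul_assoc]
        _ = R * (π * εN) * W * ι * J := by rw [hR]; simp only [Matrix.mul_assoc]
        _ = R * εM * π * W * ι * J := by rw [comπ]; simp only [Matrix.mul_assoc]
        _ = R * (π * W * ι) * J := by rw [hR]; simp only [Matrix.mul_assoc]
    rw [e1, e2, ← FF_charpolyRev hp hna f hf, charpolyRev_mul_comm (Q * (W * (ι * π - 1))) I,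
      ← Matrix.mul_assoc I Q, hIQ, charpolyRev_mul_comm (R * (π * W * ι)) J,
      ← Matrix.mul_assoc J R, hJR] at h
    exact h.trans (FF_charpolyRev hp hna f hf _ x)
  · calc Q * W * I * (Q * W * I) = Q * W * (I * Q) * W * I := by simp only [Matrix.mul_assoc]
      _ = Q * (εN * W) * W * I := by rw [hIQ, Matrix.mul_assoc Q, ← comW]
      _ = Q * (W * W) * I := by rw [← Matrix.mul_assoc Q εN, hQ, Matrix.mul_assoc Q]
      _ = c • 1 := by rw [hW, Matrix.mul_smul, Matrix.mul_one, Matrix.smul_mul, hQI]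
  · calc R * π * I * (Q * ι * J) = R * (π * (I * Q)) * ι * J := by simp only [Matrix.mul_assoc]
      _ = R * εM * π * ι * J := by rw [hIQ, comπ]; simp only [Matrix.mul_assoc]
      _ = R * (π * ι) * J := by rw [hR]; simp only [Matrix.mul_assoc]
      _ = (P + 1) • 1 := by rw [hπ, Matrix.mul_smul, Matrix.mul_one, Matrix.smul_mul, hRJ]

end Main

end

end Pool.Agent.Gouv
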