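import Pool.Agent.Work.MP_d3517d_nt.Basic2
import Pool.Agent.Work.MP_d3517d_nt.IharaGauss

/-!
# MP_d3517d_nt: M10 + M12 for the data `Dat` and an idempotent `Summ`

For even `n` and `x ≤ n/2` the Newton function of `det (1 - X ε U)` at `x` is
`- sum (x - v λ)^+` over the eigenvalues `λ` of `ε T`.
-/

set_option autoImplicit false

open Polynomial Finset

noncomputable section

namespace Gouvea

open Pool.Agent.Gouv

variable {p : ℕ} [Fact p.Prime]

theorem one_lt_pI : (1 : ℝ) < p := by exact_mod_cast (Fact.out : p.Prime).one_lt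

theorem isNonarch_Qp : IsNonarchimedean (NormedField.toAbsoluteValue ℚ_[p]) := by
  intro x y
  exact Padic.nonarchimedean x y

theorem isNonarch_alg : IsNonarchimedean (NormedField.toAbsoluteValue (PadicAlgCl p)) := by
  intro x y
  exact PadicAlgCl.isNonarchimedean p x y

theorem norm_alg (a : ℚ_[p]) : ‖algebraMap ℚ_[p] (PadicAlgCl p) a‖ = ‖a‖ :=
  PadicAlgCl.norm_extends p a

theorem Gf_eq {ι : Type} [Fintype ι] [DecidableEq ι] (A : Matrix ι ι ℚ_[p]) (x : ℝ) :
    FF (p : ℝ) A.charpolyRev x = - Gf A x :=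
  FF_charpolyRev one_lt_pI isNonarch_alg (algebraMap ℚ_[p] (PadicAlgCl p)) norm_alg A x

theorem toQ_mul {ι κ μ : Type} [Fintype κ] (A : Matrix ι κ ℤ_[p]) (B : Matrix κ μ ℤ_[p]) :
    toQ (A * B) = toQ A * toQ B := Matrix.map_mul

theorem toQ_sub_one {ι : Type} [DecidableEq ι] (A : Matrix ι ι ℤ_[p]) :
    toQ (A - 1) = toQ A - 1 := by
  unfold toQ
  rw [Matrix.map_sub _ (fun a b => map_sub _ a b), Matrix.map_one _ (map_zero _) (map_one _)]

theorem norm_pow_mul_le {n : ℕ} {x : ℝ} (hx : x ≤ (n : ℝ) / 2) :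
    ‖((p : ℚ_[p]) ^ n)‖ * (p : ℝ) ^ (2 * x) ≤ 1 := by
  have hp0 : (0 : ℝ) < p := by linarith [one_lt_pI (p := p)]
  rw [norm_pow, Padic.norm_p, inv_pow, ← Real.rpow_natCast, ← Real.rpow_neg hp0.le,
    ← Real.rpow_add hp0]
  apply Real.rpow_le_one_of_one_le_of_nonpos one_lt_pI.le
  linarith

variable {h : ℕ} {E V : Type} [Fintype E] [DecidableEq E] [Fintype V] [DecidableEq V]

/-- M10 + M12, a summand. -/
theorem FF_summ {D : Dat p h E V} {n : ℕ} (hn : Even n) (s : Summ D n) {x : ℝ}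
    (hx : x ≤ (n : ℝ) / 2) :
    FF (p : ℝ) (toQ (s.εE * Um D.toGam n)).charpolyRev x = - Gf (toQ s.T) x := by
  have hW : toQ (D.W n) * toQ (D.W n) = ((p : ℚ_[p]) ^ n) • (1 : Matrix _ _ ℚ_[p]) := by
    rw [← Matrix.map_mul, D.WW n hn]
    ext i j
    by_cases hij : i = j
    · subst hij; simp
    · simp [hij]
  have hπ : toQ (D.π n) * toQ (D.ι n) = ((p : ℚ_[p]) + 1) • (1 : Matrix _ _ ℚ_[p]) := by
    rw [← Matrix.map_mul, D.πι n hn]
    ext i j
    by_cases hij : i = j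
    · subst hij; simp
    · simp [hij]
  have h := FF_idem (p := (p : ℝ)) one_lt_pI isNonarch_Qp isNonarch_alg
    (algebraMap ℚ_[p] (PadicAlgCl p)) norm_alg (p : ℚ_[p]) ((p : ℚ_[p]) ^ n)
    (toQ (D.ι n)) (toQ (D.π n)) (toQ (D.W n)) (toQ s.εE) (toQ s.εV) hW hπ
    (by rw [← toQ_mul, s.idE]) (by rw [← toQ_mul, s.idV])
    (by rw [← toQ_mul, s.comW, toQ_mul])
    (by rw [← toQ_mul, s.comι, toQ_mul])
    (by rw [← toQ_mul, s.comπ, toQ_mul]) (x := x)
    (by rw [Padic.norm_p]; exact inv_le_one_of_one_le₀ one_lt_pI.le) (norm_pow_mul_le hx)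
  have e1 : toQ (s.εE * Um D.toGam n) =
      toQ s.εE * (toQ (D.W n) * (toQ (D.ι n) * toQ (D.π n) - 1)) := by
    rw [← D.WU n hn, toQ_mul, toQ_mul, toQ_sub_one, toQ_mul]
  have e2 : toQ s.T = toQ s.εV * (toQ (D.π n) * toQ (D.W n) * toQ (D.ι n)) := by
    rw [Summ.T, toQ_mul, toQ_mul, toQ_mul]
  rw [e1, e2, h]
  rfl

/-- M10 + M12, everything. -/
theorem FF_total (D : Dat p h E V) {n : ℕ} (hn : Even n) {x : ℝ} (hx : x ≤ (n : ℝ) / 2) :
    FF (p : ℝ) (toQ (Um D.toGam n)).charpolyRev x =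
      - Gf (toQ (D.π n * D.W n * D.ι n)) x := by
  let s : Summ D n :=
    { εE := 1
      εV := 1
      idE := by simp
      idV := by simp
      comW := by simp
      comι := by simp
      comπ := by simp
      tri := fun x y hxy => by
        have : x ≠ y := by rintro rfl; exact lt_irrefl _ hxy
        rw [Matrix.one_apply_ne this]
        exact dvd_zero _ }
  have h := FF_summ hn s hx
  have e1 : s.εE * Um D.toGam n = Um D.toGam n := Matrix.one_mul _
  have e2 : s.T = D.π n * D.W n * D.ι n := Matrix.one_mul _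
  rwa [e1, e2] at h

end Gouvea
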