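import Pool.Agent.Work.MP_d3517d_nt.Basic2
import Pool.Agent.Work.MP_d3517d_nt.IharaSumm
import Pool.Agent.Work.MP_d3517d_nt.HodgeLin
import Pool.Agent.Work.MP_d3517d_nt.HodgeBound

/-!
# MP_d3517d_nt: the Hodge bound for a summand (M13)
-/

set_option autoImplicit false

open Matrix Polynomial Finset

noncomputable section

namespace Gouvea

open Pool.Agent.Gouv

variable {p : ℕ} [Fact p.Prime]

theorem hodge_isUnit_iff (x : ℤ_[p]) : IsUnit x ↔ PadicInt.toZMod x ≠ 0 := by
  have h1 : PadicInt.toZMod x = 0 ↔ x ∈ IsLocalRing.maximalIdeal ℤ_[p] := by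
    rw [← PadicInt.ker_toZMod, RingHom.mem_ker]
  rw [Ne, h1, IsLocalRing.mem_maximalIdeal, mem_nonunits_iff, not_not]

theorem hodge_toZMod_val (x : ZMod p) : PadicInt.toZMod ((x.val : ℕ) : ℤ_[p]) = x := by
  rw [map_natCast]
  exact ZMod.natCast_zmod_val x

theorem hodge_dvd_toZMod {x : ℤ_[p]} (h : (p : ℤ_[p]) ∣ x) : PadicInt.toZMod x = 0 := by
  obtain ⟨c, rfl⟩ := h
  rw [map_mul, map_natCast, ZMod.natCast_self, zero_mul]

/-- the diagonal matrix of the `p^level` -/
def Dm (p : ℕ) [Fact p.Prime] (E : Type) [DecidableEq E] (n : ℕ) :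
    Matrix (E × Fin (n + 1)) (E × Fin (n + 1)) ℤ_[p] :=
  Matrix.diagonal fun x => (p : ℤ_[p]) ^ (x.2 : ℕ)

/-- the graded piece of degree `i` modulo `p` -/
def hodgeGr {E : Type} {n : ℕ} (ε : Matrix (E × Fin (n + 1)) (E × Fin (n + 1)) ℤ_[p])
    (i : Fin (n + 1)) : Matrix E E (ZMod p) :=
  Matrix.of fun e e' : E => PadicInt.toZMod (ε (e, i) (e', i))

variable {E : Type} [Fintype E] [DecidableEq E] {n : ℕ}

omit [DecidableEq E] in
theorem hodgeGr_idem (ε : Matrix (E × Fin (n + 1)) (E × Fin (n + 1)) ℤ_[p])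
    (hid : ε * ε = ε) (tri : ∀ x y, y.2 < x.2 → (p : ℤ_[p]) ∣ ε x y) (i : Fin (n + 1)) :
    hodgeGr ε i * hodgeGr ε i = hodgeGr ε i := by
  ext e e'
  have h1 : PadicInt.toZMod (ε (e, i) (e', i)) =
      ∑ z : E × Fin (n + 1), PadicInt.toZMod (ε (e, i) z) * PadicInt.toZMod (ε z (e', i)) := by
    conv_lhs => rw [← hid]
    rw [Matrix.mul_apply, map_sum]
    exact Finset.sum_congr rfl fun z _ => map_mul _ _ _
  rw [Matrix.mul_apply]
  change ∑ j, PadicInt.toZMod (ε (e, i) (j, i)) * PadicInt.toZMod (ε (j, i) (e', i)) =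
    PadicInt.toZMod (ε (e, i) (e', i))
  rw [h1, Fintype.sum_prod_type]
  refine Finset.sum_congr rfl fun j _ => ?_
  rw [Finset.sum_eq_single i]
  · intro k _ hk
    rcases lt_or_gt_of_ne hk with h2 | h2
    · rw [hodge_dvd_toZMod (tri (e, i) (j, k) h2), zero_mul]
    · rw [hodge_dvd_toZMod (tri (j, k) (e', i) h2), mul_zero]
  · intro h
    exact absurd (mem_univ _) h

theorem hodge_normal (ε ε' : Matrix (E × Fin (n + 1)) (E × Fin (n + 1)) ℤ_[p])
    (hid : ε * ε = ε) (tri : ∀ x y, y.2 < x.2 → (p : ℤ_[p]) ∣ ε x y)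
    (hD : ε * Dm p E n = Dm p E n * ε') :
    ∃ (B B' : Matrix (E × Fin (n + 1)) (E × Fin (n + 1)) ℤ_[p])
      (S : Finset (E × Fin (n + 1))), IsUnit B.det ∧ IsUnit B'.det ∧
      B * Dm p E n = Dm p E n * B' ∧
      ε * B = B * Matrix.diagonal (fun x => if x ∈ S then 1 else 0) ∧
      ∀ i, (univ.filter fun e => (e, i) ∈ S).card = (hodgeGr ε i).rank := by
  classical
  choose g h T hgh hhg hPg hT using fun i => hodge_idem_diag (hodgeGr ε i) (hodgeGr_idem ε hid tri i)
  let S : Finset (E × Fin (n + 1)) := univ.filter fun x => x.1 ∈ T x.2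
  let G : Matrix (E × Fin (n + 1)) (E × Fin (n + 1)) ℤ_[p] :=
    Matrix.of fun x y => if x.2 = y.2 then (((g x.2 x.1 y.1).val : ℕ) : ℤ_[p]) else 0
  let δf : E × Fin (n + 1) → ℤ_[p] := fun x => if x ∈ S then 1 else 0
  let δ : Matrix (E × Fin (n + 1)) (E × Fin (n + 1)) ℤ_[p] := Matrix.diagonal δf
  have hSmem : ∀ x : E × Fin (n + 1), x ∈ S ↔ x.1 ∈ T x.2 := fun x => by simp [S]
  have hδδ : δ * δ = δ := by
    change Matrix.diagonal δf * Matrix.diagonal δf = Matrix.diagonal δf
    rw [Matrix.diagonal_mul_diagonal]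
    congr 1
    funext x
    simp only [δf]
    split_ifs <;> simp
  have hδD : δ * Dm p E n = Dm p E n * δ := by
    change Matrix.diagonal δf * Matrix.diagonal _ = Matrix.diagonal _ * Matrix.diagonal δf
    rw [Matrix.diagonal_mul_diagonal, Matrix.diagonal_mul_diagonal]
    congr 1
    funext x
    exact mul_comm _ _
  have hGD : G * Dm p E n = Dm p E n * G := by
    ext x y
    rw [Dm, Matrix.mul_diagonal, Matrix.diagonal_mul]
    change (if x.2 = y.2 then (((g x.2 x.1 y.1).val : ℕ) : ℤ_[p]) else 0) * _ =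
      _ * (if x.2 = y.2 then (((g x.2 x.1 y.1).val : ℕ) : ℤ_[p]) else 0)
    split_ifs with hxy
    · rw [hxy, mul_comm]
    · simp
  let B : Matrix (E × Fin (n + 1)) (E × Fin (n + 1)) ℤ_[p] := ε * G * δ + (1 - ε) * G * (1 - δ)
  let B' : Matrix (E × Fin (n + 1)) (E × Fin (n + 1)) ℤ_[p] :=
    ε' * G * δ + (1 - ε') * G * (1 - δ)
  have hBD : B * Dm p E n = Dm p E n * B' := by
    have h1 : ε * G * δ * Dm p E n = Dm p E n * (ε' * G * δ) := by
      rw [Matrix.mul_assoc (ε * G), hδD, ← Matrix.mul_assoc, Matrix.mul_assoc ε G, hGD,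
        ← Matrix.mul_assoc ε, hD]
      simp only [Matrix.mul_assoc]
    have h2 : (1 - ε) * G * (1 - δ) * Dm p E n = Dm p E n * ((1 - ε') * G * (1 - δ)) := by
      have h3 : (1 - δ) * Dm p E n = Dm p E n * (1 - δ) := by
        rw [Matrix.sub_mul, Matrix.mul_sub, hδD, Matrix.one_mul, Matrix.mul_one]
      have h4 : (1 - ε) * Dm p E n = Dm p E n * (1 - ε') := by
        rw [Matrix.sub_mul, Matrix.mul_sub, hD, Matrix.one_mul, Matrix.mul_one]
      rw [Matrix.mul_assoc ((1 - ε) * G), h3, ← Matrix.mul_assoc, Matrix.mul_assoc (1 - ε) G, hGD,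
        ← Matrix.mul_assoc (1 - ε), h4]
      simp only [Matrix.mul_assoc]
    change (ε * G * δ + (1 - ε) * G * (1 - δ)) * Dm p E n =
      Dm p E n * (ε' * G * δ + (1 - ε') * G * (1 - δ))
    rw [Matrix.add_mul, Matrix.mul_add, h1, h2]
  have hεB : ε * B = B * δ := by
    have h1 : ε * (1 - ε) = 0 := by
      rw [Matrix.mul_sub, hid, Matrix.mul_one, sub_self]
    have h2 : (1 - δ) * δ = 0 := by
      rw [Matrix.sub_mul, hδδ, Matrix.one_mul, sub_self]
    change ε * (ε * G * δ + (1 - ε) * G * (1 - δ)) = (ε * G * δ + (1 - ε) * G * (1 - δ)) * δ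
    have a1 : ε * (ε * G * δ) = ε * G * δ := by
      rw [← Matrix.mul_assoc, ← Matrix.mul_assoc, hid]
    have a2 : ε * ((1 - ε) * G * (1 - δ)) = 0 := by
      rw [← Matrix.mul_assoc, ← Matrix.mul_assoc, h1, Matrix.zero_mul, Matrix.zero_mul]
    have a3 : ε * G * δ * δ = ε * G * δ := by
      rw [Matrix.mul_assoc, hδδ]
    have a4 : (1 - ε) * G * (1 - δ) * δ = 0 := by
      rw [Matrix.mul_assoc, h2, Matrix.mul_zero]
    rw [Matrix.mul_add, Matrix.add_mul, a1, a2, a3, a4]
  -- reductions modulo `p`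
  have hG0 : ∀ x y, x.2 ≠ y.2 → G x y = 0 := fun x y hxy => if_neg hxy
  have hG1 : ∀ e e' k, PadicInt.toZMod (G (e, k) (e', k)) = g k e e' := fun e e' k => by
    have h1 : G (e, k) (e', k) = (((g k e e').val : ℕ) : ℤ_[p]) := if_pos rfl
    rw [h1, hodge_toZMod_val]
  have hεG : ∀ x y, PadicInt.toZMod ((ε * G) x y) =
      ∑ e, PadicInt.toZMod (ε x (e, y.2)) * g y.2 e y.1 := by
    intro x y
    rw [Matrix.mul_apply, map_sum, Fintype.sum_prod_type]
    refine Finset.sum_congr rfl fun e _ => ?_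
    rw [Finset.sum_eq_single y.2]
    · rw [map_mul]
      congr 1
      exact hG1 e y.1 y.2
    · intro k _ hk
      rw [hG0 (e, k) y hk, mul_zero, map_zero]
    · intro h1
      exact absurd (mem_univ _) h1
  have hBxy : ∀ x y, PadicInt.toZMod (B x y) =
      PadicInt.toZMod ((ε * G) x y) * PadicInt.toZMod (δf y) +
      (PadicInt.toZMod (G x y) - PadicInt.toZMod ((ε * G) x y)) *
        (1 - PadicInt.toZMod (δf y)) := by
    intro x y
    have h1 : B x y = (ε * G) x y * δf y + (G x y - (ε * G) x y) * (1 - δf y) := by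
      change (ε * G * δ + (1 - ε) * G * (1 - δ)) x y = _
      have h2 : (1 - δ : Matrix (E × Fin (n + 1)) (E × Fin (n + 1)) ℤ_[p]) =
          Matrix.diagonal (fun x => 1 - δf x) := by
        rw [← Matrix.diagonal_one]
        exact Matrix.diagonal_sub _ _
      have e1 : (ε * G * δ) x y = (ε * G) x y * δf y := Matrix.mul_diagonal _ _ _ _
      have e2 : ((1 - ε) * G * (1 - δ)) x y = ((1 - ε) * G) x y * (1 - δf y) := by
        rw [h2]
        exact Matrix.mul_diagonal _ _ _ _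
      have e3 : ((1 - ε) * G) x y = G x y - (ε * G) x y := by
        rw [Matrix.sub_mul, Matrix.one_mul]
        rfl
      rw [Matrix.add_apply, e1, e2, e3]
    rw [h1, map_add, map_mul, map_mul, map_sub, map_sub, map_one]
  have htriB : (B.map PadicInt.toZMod).BlockTriangular Prod.snd := by
    intro x y hxy
    rw [Matrix.map_apply, hBxy, hG0 x y (ne_of_gt hxy), map_zero, hεG]
    have h1 : ∑ e, PadicInt.toZMod (ε x (e, y.2)) * g y.2 e y.1 = 0 := by
      refine Finset.sum_eq_zero fun e _ => ?_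
      rw [hodge_dvd_toZMod (tri x (e, y.2) hxy), zero_mul]
    rw [h1]
    ring
  have hdiagB : ∀ e e' k, PadicInt.toZMod (B (e, k) (e', k)) = g k e e' := by
    intro e e' k
    have h1 : PadicInt.toZMod ((ε * G) (e, k) (e', k)) =
        g k e e' * (if e' ∈ T k then 1 else 0) := by
      rw [hεG]
      have h2 := congrFun (congrFun (hPg k) e) e'
      rw [Matrix.mul_diagonal, Matrix.mul_apply] at h2
      exact h2
    have h3 : PadicInt.toZMod (δf (e', k)) = if e' ∈ T k then 1 else 0 := by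
      simp only [δf]
      by_cases h4 : e' ∈ T k
      · rw [if_pos ((hSmem _).2 h4), if_pos h4, map_one]
      · rw [if_neg (fun h5 => h4 ((hSmem _).1 h5)), if_neg h4, map_zero]
    rw [hBxy, h1, h3, hG1]
    split_ifs <;> ring
  have hdetB : IsUnit B.det := by
    rw [hodge_isUnit_iff, RingHom.map_det]
    have h1 := htriB.det_fintype
    change (B.map PadicInt.toZMod).det ≠ 0
    rw [h1, Finset.prod_ne_zero_iff]
    intro k _
    let eq : E ≃ {a : E × Fin (n + 1) // a.2 = k} :=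
      { toFun := fun e => ⟨(e, k), rfl⟩
        invFun := fun a => a.1.1
        left_inv := fun e => rfl
        right_inv := fun a => Subtype.ext (Prod.ext rfl a.2.symm) }
    have h2 : ((B.map PadicInt.toZMod).toSquareBlock Prod.snd k).submatrix eq eq = g k := by
      ext e e'
      exact hdiagB e e' k
    rw [← Matrix.det_submatrix_equiv_self eq, h2]
    intro h3
    have h4 := congrArg Matrix.det (hgh k)
    rw [Matrix.det_mul, h3, zero_mul, Matrix.det_one] at h4
    exact zero_ne_one h4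
  have hdetD : (Dm p E n).det ≠ 0 := by
    rw [Dm, Matrix.det_diagonal, Finset.prod_ne_zero_iff]
    intro x _
    exact pow_ne_zero _ (by exact_mod_cast (Fact.out : p.Prime).ne_zero)
  have hdetB' : B'.det = B.det := by
    have h1 := congrArg Matrix.det hBD
    rw [Matrix.det_mul, Matrix.det_mul, mul_comm] at h1
    exact (mul_left_cancel₀ hdetD h1).symm
  refine ⟨B, B', S, hdetB, hdetB'.symm ▸ hdetB, hBD, hεB, fun i => ?_⟩
  rw [← hT i]
  congr 1
  ext e
  simp [hSmem]

/-- `ε D U'` is conjugate to `δ D Z` with `Z` integral. -/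
theorem hodge_charpolyRev {ε B B' U' : Matrix (E × Fin (n + 1)) (E × Fin (n + 1)) ℤ_[p]}
    {S : Finset (E × Fin (n + 1))} (hB : IsUnit B.det) (hB' : IsUnit B'.det)
    (hBD : B * Dm p E n = Dm p E n * B')
    (hεB : ε * B = B * Matrix.diagonal (fun x => if x ∈ S then 1 else 0)) :
    (ε * (Dm p E n * U')).charpolyRev =
      (Matrix.diagonal (fun x => if x ∈ S then (1 : ℤ_[p]) else 0) *
        (Dm p E n * (B'⁻¹ * U' * B))).charpolyRev := by
  have h1 : ε * (Dm p E n * U') * B = B * (Matrix.diagonal (fun x => if x ∈ S then 1 else 0) *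
      (Dm p E n * (B'⁻¹ * U' * B))) := by
    calc ε * (Dm p E n * U') * B = ε * (Dm p E n * (B' * B'⁻¹) * (U' * B)) := by
          rw [Matrix.mul_nonsing_inv _ hB', Matrix.mul_one]
          simp only [Matrix.mul_assoc]
      _ = ε * ((Dm p E n * B') * (B'⁻¹ * U' * B)) := by simp only [Matrix.mul_assoc]
      _ = ε * ((B * Dm p E n) * (B'⁻¹ * U' * B)) := by rw [hBD]
      _ = (ε * B) * (Dm p E n * (B'⁻¹ * U' * B)) := by simp only [Matrix.mul_assoc]
      _ = _ := by rw [hεB]; simp only [Matrix.mul_assoc]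
  have h2 : ε * (Dm p E n * U') = B * ((Matrix.diagonal (fun x => if x ∈ S then 1 else 0) *
      (Dm p E n * (B'⁻¹ * U' * B))) * B⁻¹) := by
    calc ε * (Dm p E n * U') = ε * (Dm p E n * U') * B * B⁻¹ := by
          rw [Matrix.mul_assoc (ε * (Dm p E n * U')), Matrix.mul_nonsing_inv _ hB, Matrix.mul_one]
      _ = _ := by rw [h1, Matrix.mul_assoc]
  rw [h2, charpolyRev_mul_comm, Matrix.mul_assoc, Matrix.nonsing_inv_mul _ hB, Matrix.mul_one]

theorem hodge_vv_pow (k : ℕ) : vv (p : ℝ) ((p : ℚ_[p]) ^ k) = k := by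
  have hp1 := one_lt_pI (p := p)
  have hp0 : (0 : ℝ) < p := by linarith
  rw [vv, norm_pow, Padic.norm_p, inv_pow, Real.logb_inv, neg_neg, Real.logb_pow,
    Real.logb_self_eq_one hp1, mul_one]

/-- the Newton function of `δ D Z` -/
theorem hodge_FF_diag (S : Finset (E × Fin (n + 1)))
    (Z : Matrix (E × Fin (n + 1)) (E × Fin (n + 1)) ℤ_[p]) (x : ℝ) :
    - ∑ i : Fin (n + 1), ((univ.filter fun e => (e, i) ∈ S).card : ℝ) * max 0 (x - (i : ℕ)) ≤
      FF (p : ℝ) (toQ (Matrix.diagonal (fun x => if x ∈ S then (1 : ℤ_[p]) else 0) *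
        (Dm p E n * Z))).charpolyRev x := by
  have hp1 := one_lt_pI (p := p)
  have hp0 : (p : ℚ_[p]) ≠ 0 := by exact_mod_cast (Fact.out : p.Prime).ne_zero
  have h1 := hodge_FF_ge hp1 (toQ (Matrix.diagonal (fun x => if x ∈ S then (1 : ℤ_[p]) else 0) *
        (Dm p E n * Z))) (fun y => if y ∈ S then (p : ℚ_[p]) ^ (y.2 : ℕ) else 0) ?_ x
  · refine le_trans (le_of_eq ?_) h1
    congr 1
    rw [Fintype.sum_prod_type_right]
    refine Finset.sum_congr rfl fun i _ => ?_
    rw [Finset.card_filter]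
    push_cast
    rw [Finset.sum_mul]
    refine Finset.sum_congr rfl fun e _ => ?_
    split_ifs with h2
    · rw [pp_eq hp1 (pow_ne_zero _ hp0), hodge_vv_pow, one_mul]
    · rw [pp_zero, zero_mul]
  · intro i j
    change ‖algebraMap ℤ_[p] ℚ_[p] ((Matrix.diagonal (fun x => if x ∈ S then (1 : ℤ_[p]) else 0) *
        (Dm p E n * Z)) i j)‖ ≤ ‖if i ∈ S then (p : ℚ_[p]) ^ (i.2 : ℕ) else 0‖
    rw [Matrix.diagonal_mul, Dm, Matrix.diagonal_mul]
    split_ifs with h2
    · rw [one_mul, map_mul, map_pow, map_natCast, norm_mul]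
      exact mul_le_of_le_one_right (norm_nonneg _) (PadicInt.norm_le_one _)
    · rw [zero_mul, map_zero]

variable {h : ℕ} {V : Type} [Fintype V] [DecidableEq V]

/-- the Atkin-Lehner operator is `D W₀` with an integral involution `W₀` -/
theorem hodge_W (D : Dat p h E V) (hn : Even n) :
    ∃ W₀ : Matrix (E × Fin (n + 1)) (E × Fin (n + 1)) ℤ_[p],
      D.W n = Dm p E n * W₀ ∧ W₀ * W₀ = 1 := by
  have h1 : ∀ x y, ∃ c : ℤ_[p], D.W n x y = (p : ℤ_[p]) ^ (x.2 : ℕ) * c ∧
      (c ≠ 0 → (x.2 : ℕ) + (y.2 : ℕ) = n) := by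
    intro x y
    by_cases h0 : D.W n x y = 0
    · exact ⟨0, by rw [h0, mul_zero], fun h => absurd rfl h⟩
    · obtain ⟨c, hc⟩ := D.Wdvd n hn x y
      have h2 := (D.W0 n hn x y h0).2
      refine ⟨c, ?_, fun _ => h2⟩
      rw [hc]
      congr 2
      omega
  choose W₀ hW hs using h1
  have hp0 : (p : ℤ_[p]) ≠ 0 := by exact_mod_cast (Fact.out : p.Prime).ne_zero
  have e1 : D.W n = Dm p E n * Matrix.of W₀ := by
    ext x y
    rw [Dm, Matrix.diagonal_mul]
    exact hW x y
  have e2 : Dm p E n * Matrix.of W₀ * Dm p E n = ((p : ℤ_[p]) ^ n) • Matrix.of W₀ := by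
    ext x y
    rw [Dm, Matrix.mul_diagonal, Matrix.diagonal_mul, Matrix.smul_apply, smul_eq_mul]
    change (p : ℤ_[p]) ^ (x.2 : ℕ) * W₀ x y * (p : ℤ_[p]) ^ (y.2 : ℕ) = (p : ℤ_[p]) ^ n * W₀ x y
    by_cases h0 : W₀ x y = 0
    · rw [h0]
      ring
    · have h3 : (p : ℤ_[p]) ^ n = (p : ℤ_[p]) ^ (x.2 : ℕ) * (p : ℤ_[p]) ^ (y.2 : ℕ) := by
        rw [← pow_add]
        congr 1
        exact (hs x y h0).symm
      rw [h3]
      ring
  refine ⟨Matrix.of W₀, e1, ?_⟩
  have e3 := D.WW n hn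
  rw [e1, ← Matrix.mul_assoc, e2, Matrix.smul_mul] at e3
  ext x y
  have e4 := congrFun (congrFun e3 x) y
  rw [Matrix.smul_apply, Matrix.smul_apply, smul_eq_mul, smul_eq_mul] at e4
  exact mul_left_cancel₀ (pow_ne_zero n hp0) e4

/-- the data of the normal form for a summand -/
theorem Summ.hodge {D : Dat p h E V} (hn : Even n) (s : Summ D n) :
    ∃ (U' ε' B B' : Matrix (E × Fin (n + 1)) (E × Fin (n + 1)) ℤ_[p])
      (S : Finset (E × Fin (n + 1))), Um D.toGam n = Dm p E n * U' ∧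
      IsUnit B.det ∧ IsUnit B'.det ∧ B * Dm p E n = Dm p E n * B' ∧
      s.εE * Dm p E n = Dm p E n * ε' ∧
      s.εE * B = B * Matrix.diagonal (fun x => if x ∈ S then 1 else 0) ∧
      ∀ i, (univ.filter fun e => (e, i) ∈ S).card = s.d i := by
  obtain ⟨W₀, hW, hWW⟩ := hodge_W D hn
  have h1 : s.εE * Dm p E n = Dm p E n * (W₀ * s.εE * W₀) := by
    have h2 := s.comW
    rw [hW] at h2
    calc s.εE * Dm p E n = s.εE * (Dm p E n * W₀) * W₀ := by
          rw [Matrix.mul_assoc s.εE, Matrix.mul_assoc (Dm p E n), hWW, Matrix.mul_one]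
      _ = Dm p E n * (W₀ * s.εE * W₀) := by
          rw [h2]
          simp only [Matrix.mul_assoc]
  obtain ⟨B, B', S, hB, hB', hBD, hεB, hS⟩ := hodge_normal s.εE _ s.idE s.tri h1
  refine ⟨W₀ * (D.ι n * D.π n - 1), _, B, B', S, ?_, hB, hB', hBD, h1, hεB, hS⟩
  rw [← D.WU n hn, hW, Matrix.mul_assoc]

/-- M13: the Hodge bound for a summand. -/
theorem hodge_le {D : Dat p h E V} (s : Summ D n) (hn : Even n) (x : ℝ) :
    Gf (toQ (s.εE * Um D.toGam n)) x ≤
      ∑ i : Fin (n + 1), (s.d i : ℝ) * max 0 (x - (i : ℕ)) := by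
  obtain ⟨U', ε', B, B', S, hU, hB, hB', hBD, -, hεB, hS⟩ := s.hodge hn
  have h1 := Gf_eq (toQ (s.εE * Um D.toGam n)) x
  have h2 : (toQ (s.εE * Um D.toGam n)).charpolyRev =
      (toQ (Matrix.diagonal (fun x => if x ∈ S then (1 : ℤ_[p]) else 0) *
        (Dm p E n * (B'⁻¹ * U' * B)))).charpolyRev := by
    rw [hU]
    unfold toQ
    rw [charpolyRev_map, charpolyRev_map, hodge_charpolyRev (U' := U') hB hB' hBD hεB]
  have h3 := hodge_FF_diag S (B'⁻¹ * U' * B) x
  rw [← h2, h1] at h3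
  simp only [hS] at h3
  linarith

/-- the rank of an idempotent and of its complement -/
theorem hodge_rank_compl {K : Type} [Field K] (P : Matrix E E K) (hP : P * P = P) :
    P.rank + (1 - P).rank = Fintype.card E := by
  classical
  obtain ⟨g, h, S, hgh, hhg, hPg, hS⟩ := hodge_idem_diag P hP
  have hg : IsUnit g.det := by
    rw [← Matrix.isUnit_iff_isUnit_det]
    exact ⟨⟨g, h, hgh, hhg⟩, rfl⟩
  have h1 : (1 - P) * g = g * Matrix.diagonal (fun e => if e ∈ S then (0 : K) else 1) := by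
    have h2 : Matrix.diagonal (fun e => if e ∈ S then (0 : K) else 1) =
        1 - Matrix.diagonal (fun e => if e ∈ S then (1 : K) else 0) := by
      rw [← Matrix.diagonal_one, Matrix.diagonal_sub]
      congr 1
      funext e
      split_ifs <;> simp
    rw [h2, Matrix.sub_mul, Matrix.mul_sub, hPg, Matrix.one_mul, Matrix.mul_one]
  have h3 : (1 - P).rank = Sᶜ.card := by
    rw [← Matrix.rank_mul_eq_left_of_isUnit_det g (1 - P) hg, h1,
      Matrix.rank_mul_eq_right_of_isUnit_det g _ hg, Matrix.rank_diagonal, Fintype.card_subtype]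
    congr 1
    ext e
    by_cases he : e ∈ S <;> simp [he]
  rw [h3, ← hS, Finset.card_add_card_compl]

/-- the ranks of a summand and of its complement -/
theorem Summ.d_add_compl {D : Dat p h E V} (s : Summ D n) (i : Fin (n + 1)) :
    s.d i + s.compl.d i = Fintype.card E := by
  have h1 := hodgeGr_idem s.εE s.idE s.tri i
  have h2 : hodgeGr s.compl.εE i = 1 - hodgeGr s.εE i := by
    ext e e'
    change PadicInt.toZMod ((1 - s.εE) (e, i) (e', i)) = _
    rw [Matrix.sub_apply, Matrix.sub_apply, map_sub]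
    congr 1
    by_cases h3 : e = e'
    · subst h3
      rw [Matrix.one_apply_eq, Matrix.one_apply_eq, map_one]
    · rw [Matrix.one_apply_ne h3, Matrix.one_apply_ne (fun h4 => h3 (congrArg Prod.fst h4)),
        map_zero]
  change (hodgeGr s.εE i).rank + (hodgeGr s.compl.εE i).rank = _
  rw [h2]
  exact hodge_rank_compl _ h1

/-- the rank of a summand of the forms of Iwahori level -/
theorem Summ.sum_d {D : Dat p h E V} (hn : Even n) (s : Summ D n) :
    ∑ i, s.d i = (toQ s.εE).rank := by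
  classical
  obtain ⟨U', ε', B, B', S, hU, hB, hB', hBD, -, hεB, hS⟩ := s.hodge hn
  have h1 : IsUnit (toQ B).det := by
    have h2 : (toQ B).det = algebraMap ℤ_[p] ℚ_[p] B.det := (RingHom.map_det _ _).symm
    rw [h2]
    exact hB.map _
  have h2 : toQ s.εE * toQ B = toQ B * toQ (Matrix.diagonal (fun x => if x ∈ S then 1 else 0)) := by
    rw [← toQ_mul, ← toQ_mul, hεB]
  have h3 : (toQ s.εE).rank =
      (toQ (Matrix.diagonal (fun x => if x ∈ S then (1 : ℤ_[p]) else 0))).rank := by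
    rw [← Matrix.rank_mul_eq_left_of_isUnit_det (toQ B) (toQ s.εE) h1, h2,
      Matrix.rank_mul_eq_right_of_isUnit_det (toQ B) _ h1]
  have h4 : toQ (Matrix.diagonal (fun x => if x ∈ S then (1 : ℤ_[p]) else 0)) =
      Matrix.diagonal (fun x => if x ∈ S then (1 : ℚ_[p]) else 0) := by
    unfold toQ
    rw [Matrix.diagonal_map (map_zero _)]
    congr 1
    funext x
    split_ifs
    · exact map_one _
    · exact map_zero _
  rw [h3, h4, Matrix.rank_diagonal]
  simp only [← hS, Finset.card_filter]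
  rw [Finset.sum_comm, ← Fintype.sum_prod_type (fun x : E × Fin (n + 1) => if x ∈ S then 1 else 0),
    ← Finset.card_filter, Fintype.card_subtype]
  congr 1
  ext x
  simp

/-- the ranks are symmetric -/
theorem Summ.d_rev {D : Dat p h E V} (hn : Even n) (s : Summ D n) (i : Fin (n + 1)) :
    s.d i = s.d i.rev := by
  obtain ⟨W₀, hW, hWW⟩ := hodge_W D hn
  have hp0 : (p : ℤ_[p]) ≠ 0 := by exact_mod_cast (Fact.out : p.Prime).ne_zero
  have h1 : s.εE * Dm p E n = Dm p E n * (W₀ * s.εE * W₀) := by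
    have h2 := s.comW
    rw [hW] at h2
    calc s.εE * Dm p E n = s.εE * (Dm p E n * W₀) * W₀ := by
          rw [Matrix.mul_assoc s.εE, Matrix.mul_assoc (Dm p E n), hWW, Matrix.mul_one]
      _ = Dm p E n * (W₀ * s.εE * W₀) := by
          rw [h2]
          simp only [Matrix.mul_assoc]
  have hW0 : ∀ x y, (x.2 : ℕ) + (y.2 : ℕ) ≠ n → W₀ x y = 0 := by
    intro x y hxy
    by_contra h0
    have h2 : D.W n x y ≠ 0 := by
      rw [hW, Dm, Matrix.diagonal_mul]
      exact mul_ne_zero (pow_ne_zero _ hp0) h0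
    exact hxy (D.W0 n hn x y h2).2
  have key : ∀ i : Fin (n + 1), s.d i ≤ s.d i.rev := by
    intro i
    have h2 : hodgeGr s.εE i = (Matrix.of fun e a : E => PadicInt.toZMod (W₀ (e, i) (a, i.rev))) *
        hodgeGr s.εE i.rev *
        (Matrix.of fun b e' : E => PadicInt.toZMod (W₀ (b, i.rev) (e', i))) := by
      ext e e'
      have h3 := congrFun (congrFun h1 (e, i)) (e', i)
      rw [Dm, Matrix.mul_diagonal, Matrix.diagonal_mul, mul_comm] at h3
      have h4 := mul_left_cancel₀ (pow_ne_zero _ hp0) h3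
      change PadicInt.toZMod (s.εE (e, i) (e', i)) = _
      rw [h4, Matrix.mul_apply, Matrix.mul_apply, map_sum, Fintype.sum_prod_type]
      refine Finset.sum_congr rfl fun b _ => ?_
      rw [Finset.sum_eq_single i.rev]
      · rw [map_mul, Matrix.mul_apply, Matrix.mul_apply, map_sum, Fintype.sum_prod_type]
        congr 1
        refine Finset.sum_congr rfl fun a _ => ?_
        rw [Finset.sum_eq_single i.rev]
        · rw [map_mul]
          rfl
        · intro k _ hk
          rw [hW0 (e, i) (a, k), zero_mul, map_zero]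
          intro h5
          apply hk
          ext
          rw [Fin.val_rev]
          simp only at h5
          omega
        · intro h5
          exact absurd (mem_univ _) h5
      · intro k _ hk
        rw [hW0 (b, k) (e', i), mul_zero, map_zero]
        intro h5
        apply hk
        ext
        rw [Fin.val_rev]
        simp only at h5
        omega
      · intro h5
        exact absurd (mem_univ _) h5
    change (hodgeGr s.εE i).rank ≤ (hodgeGr s.εE i.rev).rank
    rw [h2]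
    exact (Matrix.rank_mul_le_left _ _).trans (Matrix.rank_mul_le_right _ _)
  refine le_antisymm (key i) ?_
  have h2 := key i.rev
  rwa [Fin.rev_rev] at h2

theorem d_compl {D : Dat p h E V} (s : Summ D n) (i : Fin (n + 1)) :
    s.d i + s.compl.d i = Fintype.card E := s.d_add_compl i

theorem hodge {D : Dat p h E V} (s : Summ D n) (hn : Even n) (x : ℝ) :
    Gf (toQ (s.εE * Um D.toGam n)) x ≤
      ∑ i : Fin (n + 1), (s.d i : ℝ) * max 0 (x - ((n : ℝ) - (i : ℕ))) := by
  refine le_trans (hodge_le s hn x) (le_of_eq ?_)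
  rw [← Equiv.sum_comp Fin.revPerm]
  refine Finset.sum_congr rfl fun i _ => ?_
  have h1 : (((Fin.revPerm i : Fin (n + 1)) : ℕ) : ℝ) = (n : ℝ) - (i : ℕ) := by
    have h2 : ((Fin.revPerm i : Fin (n + 1)) : ℕ) = n - (i : ℕ) := by
      rw [Fin.revPerm_apply, Fin.val_rev]
      omega
    have h3 : (i : ℕ) ≤ n := Nat.lt_succ_iff.1 i.2
    rw [h2, Nat.cast_sub h3]
  rw [h1, Fin.revPerm_apply, ← s.d_rev hn i]

/-- the bound for the eigenvalues of `T` on the summand -/
theorem Gf_summ_le {D : Dat p h E V} (hn : Even n) (s : Summ D n) {x : ℝ}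
    (hx : x ≤ (n : ℝ) / 2) :
    Gf (toQ s.T) x ≤ ∑ i : Fin (n + 1), (s.d i : ℝ) * max 0 (x - (i : ℕ)) := by
  have h1 := FF_summ hn s hx
  have h2 := Gf_eq (toQ (s.εE * Um D.toGam n)) x
  have h3 := hodge_le s hn x
  rw [h1] at h2
  linarith

theorem exists_d_pos {D : Dat p h E V} (s : Summ D n) (hn : Even n) (hs : s.εV ≠ 0) :
    ∃ i, 0 < s.d i := by
  by_contra hno
  push Not at hno
  have h1 : (toQ s.εE).rank = 0 := by
    rw [← s.sum_d hn]
    exact Finset.sum_eq_zero fun i _ => Nat.le_zero.1 (hno i)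
  have h2 : toQ s.εE = 0 := by
    rw [Matrix.rank, Submodule.finrank_eq_zero, LinearMap.range_eq_bot] at h1
    ext i j
    have h3 := congrArg (fun f : (_ → ℚ_[p]) →ₗ[ℚ_[p]] (_ → ℚ_[p]) => f (Pi.single j 1) i) h1
    simpa using h3
  have hinj : Function.Injective (algebraMap ℤ_[p] ℚ_[p]) :=
    FaithfulSMul.algebraMap_injective _ _
  have h3 : s.εE = 0 := by
    ext i j
    have h4 := congrFun (congrFun h2 i) j
    exact hinj (h4.trans (map_zero (algebraMap ℤ_[p] ℚ_[p])).symm)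
  apply hs
  have h4 : ((p : ℤ_[p]) + 1) • s.εV = 0 := by
    calc ((p : ℤ_[p]) + 1) • s.εV = (D.π n * D.ι n) * s.εV := by
          rw [D.πι n hn, Matrix.smul_mul, Matrix.one_mul]
      _ = D.π n * (s.εE * D.ι n) := by rw [s.comι, Matrix.mul_assoc]
      _ = 0 := by rw [h3, Matrix.zero_mul, Matrix.mul_zero]
  have h5 : ((p : ℤ_[p]) + 1) ≠ 0 := by
    have : ((p + 1 : ℕ) : ℤ_[p]) ≠ 0 := by
      exact_mod_cast Nat.succ_ne_zero p
    simpa using this
  ext i j
  have h6 := congrFun (congrFun h4 i) j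
  rw [Matrix.smul_apply, smul_eq_mul, Matrix.zero_apply] at h6
  rcases mul_eq_zero.1 h6 with h7 | h7
  · exact absurd h7 h5
  · rw [h7]
    rfl

end Gouvea
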