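import Pool.Agent.Work.MP_d3517d_nt.FewBad
import Pool.Agent.Work.MP_d3517d_nt.Hodge
import Pool.Agent.Work.MP_d3517d_nt.Dens

/-!
# Approximate linearity of counting functions, outside weights of density zero

`Apx P F G β`: for every `δ > 0`, outside a set of `n` of density zero, `F n x = β n x` up to
`δ (n + 1)` for `0 ≤ x ≤ n / P` and `G n = β n n / P` up to `δ (n + 1)`.  The conditions are
literally those of `Weak.counts_union`.
-/

open Finset Filter Topology

noncomputable section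

namespace Gouvea

open scoped Classical in
/-- a set of natural numbers of density zero -/
def D0 (E : Set ℕ) : Prop :=
  Tendsto (fun N : ℕ => (#{n ∈ range N | n ∈ E} : ℝ) / N) atTop (𝓝 0)

theorem D0.of_bound {E : Set ℕ} {f : ℕ → ℝ} (hf : Tendsto f atTop (𝓝 0))
    (h : ∀ N : ℕ, open scoped Classical in (#{n ∈ range N | n ∈ E} : ℝ) / N ≤ f N) : D0 E := by
  refine squeeze_zero (fun N => by positivity) h hf

theorem D0.mono {E F : Set ℕ} (hF : D0 F) (h : E ⊆ F) : D0 E := by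
  classical
  refine D0.of_bound hF fun N => ?_
  gcongr

theorem D0.union {E F : Set ℕ} (hE : D0 E) (hF : D0 F) : D0 (E ∪ F) := by
  classical
  have h1 := hE.add hF
  rw [add_zero] at h1
  obtain ⟨S, hS⟩ : ∃ S, S = E ∪ F := ⟨_, rfl⟩
  rw [← hS]
  refine D0.of_bound h1 fun N => ?_
  rw [← add_div]
  gcongr
  have h2 : ({n ∈ range N | n ∈ S} : Finset ℕ) ⊆
      {n ∈ range N | n ∈ E} ∪ {n ∈ range N | n ∈ F} := by
    intro n hn
    rw [Finset.mem_filter] at hn
    rw [Finset.mem_union, Finset.mem_filter, Finset.mem_filter]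
    have hn2 := hn.2
    rw [hS] at hn2
    rcases hn2 with h | h
    · exact Or.inl ⟨hn.1, h⟩
    · exact Or.inr ⟨hn.1, h⟩
  have h3 := (Finset.card_le_card h2).trans (Finset.card_union_le _ _)
  exact_mod_cast h3

theorem D0.of_finite {E : Set ℕ} (hE : E.Finite) : D0 E := by
  classical
  have h1 : Tendsto (fun N : ℕ => (E.ncard : ℝ) / N) atTop (𝓝 0) :=
    tendsto_const_nhds.div_atTop tendsto_natCast_atTop_atTop
  refine D0.of_bound h1 fun N => ?_
  gcongr
  rw [← Set.ncard_coe_finset]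
  apply Set.ncard_le_ncard _ hE
  intro n hn
  simp only [Finset.coe_filter] at hn
  exact hn.2

theorem D0.empty : D0 ∅ := D0.of_finite Set.finite_empty

/-- From the epsilon form. -/
theorem D0.of_forall {E : Set ℕ}
    (h : ∀ ε : ℝ, 0 < ε → ∃ N0 : ℕ, ∀ N ≥ N0,
      open scoped Classical in (#{n ∈ range N | n ∈ E} : ℝ) ≤ ε * N) : D0 E := by
  classical
  unfold D0
  rw [Metric.tendsto_atTop]
  intro ε hε
  obtain ⟨N0, hN0⟩ := h (ε / 2) (by linarith)
  refine ⟨N0 + 1, fun N hN => ?_⟩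
  have h1 := hN0 N (by omega)
  have hNpos : (0 : ℝ) < N := by exact_mod_cast (show 0 < N by omega)
  rw [Real.dist_eq, sub_zero, abs_of_nonneg (by positivity), div_lt_iff₀ hNpos]
  refine lt_of_le_of_lt ?_ (lt_of_le_of_lt h1 ?_)
  · exact le_rfl
  · nlinarith

/-- The counting functions `F n x` (`0 ≤ x ≤ n / P`) and the totals `G n` are approximated by
`β n x` and `β n n / P`, outside sets of weights of density zero. -/
def Apx (P : ℝ) (F : ℕ → ℝ → ℝ) (G : ℕ → ℝ) (β : ℕ → ℝ) : Prop :=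
  ∀ δ : ℝ, 0 < δ → ∃ E : Set ℕ, D0 E ∧ ∀ n ∉ E, (∀ x : ℝ, 0 ≤ x → x ≤ n / P →
    |F n x - β n * x| ≤ δ * (n + 1)) ∧ |G n - β n * (n / P)| ≤ δ * (n + 1)

namespace Apx

variable {P : ℝ} {F F' : ℕ → ℝ → ℝ} {G G' : ℕ → ℝ} {β β' : ℕ → ℝ}

theorem zero : Apx P (fun _ _ => 0) (fun _ => 0) (fun _ => 0) := by
  intro δ hδ
  refine ⟨∅, D0.empty, fun n _ => ⟨fun x _ _ => ?_, ?_⟩⟩
  · simp only [zero_mul, sub_zero, abs_zero]; positivity
  · simp only [zero_mul, sub_zero, abs_zero]; positivity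

theorem add (h : Apx P F G β) (h' : Apx P F' G' β') :
    Apx P (fun n x => F n x + F' n x) (fun n => G n + G' n) (fun n => β n + β' n) := by
  intro δ hδ
  obtain ⟨E, hE, hE'⟩ := h (δ / 2) (by linarith)
  obtain ⟨E1, hE1, hE1'⟩ := h' (δ / 2) (by linarith)
  refine ⟨E ∪ E1, hE.union hE1, fun n hn => ?_⟩
  rw [Set.mem_union, not_or] at hn
  obtain ⟨a1, a2⟩ := hE' n hn.1
  obtain ⟨b1, b2⟩ := hE1' n hn.2
  refine ⟨fun x hx hxn => ?_, ?_⟩
  · calc |F n x + F' n x - (β n + β' n) * x|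
        = |(F n x - β n * x) + (F' n x - β' n * x)| := by ring_nf
      _ ≤ _ := abs_add_le _ _
      _ ≤ δ / 2 * (n + 1) + δ / 2 * (n + 1) := add_le_add (a1 x hx hxn) (b1 x hx hxn)
      _ = δ * (n + 1) := by ring
  · calc |G n + G' n - (β n + β' n) * (n / P)|
        = |(G n - β n * (n / P)) + (G' n - β' n * (n / P))| := by ring_nf
      _ ≤ _ := abs_add_le _ _
      _ ≤ δ / 2 * (n + 1) + δ / 2 * (n + 1) := add_le_add a2 b2
      _ = δ * (n + 1) := by ring

theorem smul (c : ℝ) (h : Apx P F G β) :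
    Apx P (fun n x => c * F n x) (fun n => c * G n) (fun n => c * β n) := by
  intro δ hδ
  obtain ⟨E, hE, hE'⟩ := h (δ / (|c| + 1)) (by positivity)
  refine ⟨E, hE, fun n hn => ?_⟩
  obtain ⟨a1, a2⟩ := hE' n hn
  have hc : |c| * (δ / (|c| + 1) * (n + 1)) ≤ δ * (n + 1) := by
    have h1 : |c| * (δ / (|c| + 1) * (n + 1)) = (|c| / (|c| + 1)) * (δ * (n + 1)) := by
      field_simp
    rw [h1]
    have h2 : |c| / (|c| + 1) ≤ 1 := by
      rw [div_le_one (by positivity)]; linarith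
    have h3 : 0 ≤ δ * ((n : ℝ) + 1) := by positivity
    nlinarith
  refine ⟨fun x hx hxn => ?_, ?_⟩
  · rw [show c * F n x - c * β n * x = c * (F n x - β n * x) by ring, abs_mul]
    exact (mul_le_mul_of_nonneg_left (a1 x hx hxn) (abs_nonneg c)).trans hc
  · rw [show c * G n - c * β n * (n / P) = c * (G n - β n * (n / P)) by ring, abs_mul]
    exact (mul_le_mul_of_nonneg_left a2 (abs_nonneg c)).trans hc

theorem sum {ι : Type} (s : Finset ι) (c : ι → ℝ) {F : ι → ℕ → ℝ → ℝ} {G : ι → ℕ → ℝ}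
    {β : ι → ℕ → ℝ} (h : ∀ i ∈ s, Apx P (F i) (G i) (β i)) :
    Apx P (fun n x => ∑ i ∈ s, c i * F i n x) (fun n => ∑ i ∈ s, c i * G i n)
      (fun n => ∑ i ∈ s, c i * β i n) := by
  classical
  induction s using Finset.induction_on with
  | empty => simpa using Apx.zero (P := P)
  | insert a s ha ih =>
    have h1 := ((h a (Finset.mem_insert_self a s)).smul (c a)).add
      (ih fun i hi => h i (Finset.mem_insert_of_mem hi))
    simpa only [Finset.sum_insert ha] using h1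

/-- bounded perturbations (for all large `n`) are harmless -/
theorem perturb (h : Apx P F G β) (C : ℝ) (n0 : ℕ)
    (hF : ∀ n ≥ n0, ∀ x : ℝ, 0 ≤ x → x ≤ n / P → |F' n x - F n x| ≤ C)
    (hG : ∀ n ≥ n0, |G' n - G n| ≤ C) : Apx P F' G' β := by
  intro δ hδ
  obtain ⟨E, hE, hE'⟩ := h (δ / 2) (by linarith)
  obtain ⟨n1, hn1⟩ := exists_nat_gt (C / (δ / 2))
  refine ⟨E ∪ {n | n < max n0 n1}, hE.union (D0.of_finite (Set.finite_lt_nat _)), fun n hn => ?_⟩
  rw [Set.mem_union, not_or] at hn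
  have hn2 : max n0 n1 ≤ n := by
    by_contra hcon
    exact hn.2 (not_le.1 hcon)
  have hn3 : n0 ≤ n := (le_max_left _ _).trans hn2
  have hn4 : C ≤ δ / 2 * (n + 1) := by
    have h1 : C / (δ / 2) < (n : ℝ) := by
      refine lt_of_lt_of_le hn1 ?_
      exact_mod_cast (le_max_right _ _).trans hn2
    rw [div_lt_iff₀ (by linarith)] at h1
    nlinarith
  obtain ⟨a1, a2⟩ := hE' n hn.1
  refine ⟨fun x hx hxn => ?_, ?_⟩
  · calc |F' n x - β n * x| = |(F' n x - F n x) + (F n x - β n * x)| := by ring_nf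
      _ ≤ _ := abs_add_le _ _
      _ ≤ δ / 2 * (n + 1) + δ / 2 * (n + 1) :=
        add_le_add ((hF n hn3 x hx hxn).trans hn4) (a1 x hx hxn)
      _ = δ * (n + 1) := by ring
  · calc |G' n - β n * (n / P)| = |(G' n - G n) + (G n - β n * (n / P))| := by ring_nf
      _ ≤ _ := abs_add_le _ _
      _ ≤ δ / 2 * (n + 1) + δ / 2 * (n + 1) := add_le_add ((hG n hn3).trans hn4) a2
      _ = δ * (n + 1) := by ring

theorem congr (h : Apx P F G β) (hF : ∀ n x, F' n x = F n x) (hG : ∀ n, G' n = G n)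
    (hβ : ∀ n, β' n = β n) : Apx P F' G' β' := by
  have e1 : F' = F := funext fun n => funext fun x => hF n x
  have e2 : G' = G := funext hG
  have e3 : β' = β := funext hβ
  rw [e1, e2, e3]
  exact h

end Apx

/-- The counting functions of a summand (`Summ`) of a `Dat`: `few_bad` in the form `Apx`. -/
theorem Apx.of_dat {p : ℕ} [Fact p.Prime] {h : ℕ} {E V : Type} [Fintype E] [DecidableEq E]
    [Fintype V] [DecidableEq V] (D : Dat p h E V) (hexc : FewExcStat D)
    (s : ∀ n, Even n → Summ D n) (dd : ℕ → ℕ → ℕ) (hd : ∀ n hn i, (s n hn).d i = dd n i)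
    (hi : ∀ n i, dd n (i + (p - 1)) = dd n i) :
    Apx ((p : ℝ) + 1) (fun n x => if hn : Even n then (Nf (toQ (s n hn).T) x : ℝ) else 0)
      (fun n => if hn : Even n then ((toQ (s n hn).εV).rank : ℝ) else 0)
      (fun n => if Even n then dens p dd n else 0) := by
  classical
  have hp0 : (0 : ℝ) < (p : ℝ) + 1 := by positivity
  intro δ hδ
  refine ⟨{n | ∃ hn : Even n, ¬ ((∀ x : ℝ, 0 ≤ x → x * (p + 1) ≤ n →
          |(Nf (toQ (s n hn).T) x : ℝ) - dens p dd n * x| ≤ δ * n) ∧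
        |((toQ (s n hn).εV).rank : ℝ) - dens p dd n * (n / (p + 1))| ≤ δ * n)}, ?_, ?_⟩
  · refine D0.of_forall fun ε hε => ?_
    obtain ⟨N0, hN0⟩ := few_bad_of D hexc (fun _ s hn x => hodge s hn x) (fun _ s i => d_compl s i)
      s dd hd hi δ ε hδ hε
    refine ⟨N0, fun N hN => ?_⟩
    refine le_trans (le_of_eq ?_) (hN0 N hN)
    congr 2
    ext n
    simp only [Finset.mem_filter, Set.mem_ofPred_eq]
  · intro n hnE
    have hnn : (0 : ℝ) ≤ n := Nat.cast_nonneg n
    by_cases hn : Even n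
    · have h1 : (∀ x : ℝ, 0 ≤ x → x * (p + 1) ≤ n →
            |(Nf (toQ (s n hn).T) x : ℝ) - dens p dd n * x| ≤ δ * n) ∧
          |((toQ (s n hn).εV).rank : ℝ) - dens p dd n * (n / (p + 1))| ≤ δ * n := by
        by_contra h2
        exact hnE ⟨hn, h2⟩
      simp only [dif_pos hn, if_pos hn]
      refine ⟨fun x hx hxn => (h1.1 x hx ?_).trans (by nlinarith), h1.2.trans (by nlinarith)⟩
      rwa [le_div_iff₀ hp0] at hxn
    · simp only [dif_neg hn, if_neg hn, zero_mul, sub_zero, abs_zero]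
      exact ⟨fun x _ _ => by positivity, by positivity⟩

end Gouvea
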