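import Pool.Agent.Work.MP_d3517d_nt.DatOf

/-!
# The Hecke operator in the coordinates of a frame (MP_d3517d_nt, M15)
-/

open Polynomial Finset Matrix

noncomputable section

namespace Gouvea

variable {p : ℕ} [Fact p.Prime]

lemma isInt_toG (k : K0 p) : IsInt (toG k) := isInt_of_mem_K (toG_mem_K k)

lemma intM_toG (k : K0 p) : intM (toG k) = k.1 :=
  intM_unique (isInt_toG k) _ fun _ _ => rfl

lemma intM_toG_inv (k : K0 p) : intM (toG k)⁻¹ = (k⁻¹ : K0 p).1 := by
  rw [← map_inv, intM_toG]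

lemma isInt_rep (b : ℕ) : IsInt (rep p b) := by
  intro i j
  fin_cases i <;> fin_cases j
  · simp [rep]
  · simpa [rep] using norm_nat_le (p := p) b
  · simp [rep]
  · simpa [rep] using norm_nat_le (p := p) p

lemma isInt_repInf : IsInt (repInf p) := by
  intro i j
  fin_cases i <;> fin_cases j
  · simpa [repInf] using norm_nat_le (p := p) p
  · simp [repInf]
  · simp [repInf]
  · simp [repInf]

lemma intM_rep (b : ℕ) : intM (rep p b) = !![1, (b : ℤ_[p]); 0, (p : ℤ_[p])] := by
  refine intM_unique (isInt_rep b) _ fun i j => ?_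
  fin_cases i <;> fin_cases j <;> simp [rep]

lemma intM_repInf : intM (repInf p) = !![(p : ℤ_[p]), 0; 0, 1] := by
  refine intM_unique isInt_repInf _ fun i j => ?_
  fin_cases i <;> fin_cases j <;> simp [repInf]

lemma etaM_mul_kt0 (b : ℕ) : etaM p * (kt0 (b : ℤ_[p])).1 = intM (rep p b) := by
  rw [intM_rep, kt0_coe]
  ext i j
  fin_cases i <;> fin_cases j <;> simp [etaM, Matrix.mul_apply, Fin.sum_univ_two]

lemma kt0_inv_mul_etaM : ((kt0 (0 : ℤ_[p]))⁻¹ : K0 p).1 * etaM p = intM (repInf p) := by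
  rw [intM_repInf, kt0_inv_coe]
  ext i j
  fin_cases i <;> fin_cases j <;> simp [etaM, Matrix.mul_apply, Fin.sum_univ_two]

lemma eta_mul_toG_kt0 (b : ℕ) : eta p * toG (kt0 (b : ℤ_[p])) = rep p b := by
  rw [← eta_mul_kt]
  congr 1
  apply ext_fin_two <;> simp [kt, toG_apply, kt0_coe]

lemma toG_kt0_mul_repInf : toG (kt0 (0 : ℤ_[p])) * repInf p = eta p := by
  rw [← kt_zero_mul_repInf]
  congr 1
  apply ext_fin_two <;> simp [kt, toG_apply, kt0_coe]

namespace Frame

variable {Ω : Type} [MulAction (G p) Ω] {E V : Type} (F : Frame p Ω E V)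
variable [DecidableEq E] [DecidableEq V] {n : ℕ}

lemma trE_mul_Wι [Fintype E] (hn : Even n) (k : K0 p) (w : Ω) :
    F.trE n k w * F.Wm n * F.ιm n = slM n (etaM p * k.1) * F.evV n (eta p • toG k • w) := by
  rw [trE, Matrix.mul_assoc (slM n k.1), F.evE_mul_W hn, ← Matrix.mul_assoc, ← slM_mul,
    Matrix.mul_assoc, F.evE_mul_ι hn]

/-- **The Hecke operator in coordinates.** -/
theorem evV_hecke [Fintype E] [Fintype V] (hn : Even n) (w : Ω) :
    slM n (intM (repInf p)) * F.evV n (repInf p • w) +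
      ∑ b ∈ range p, slM n (intM (rep p b)) * F.evV n (rep p b • w) =
      F.evV n w * (F.πm n * F.Wm n * F.ιm n) := by
  have h0 : F.trE n (rp none) w * F.Wm n * F.ιm n =
      slM n (intM (repInf p)) * F.evV n (repInf p • w) := by
    rw [F.trE_mul_Wι hn, rp_none, map_one, one_smul]
    have h1 : eta p • w = toG (kt0 (0 : ℤ_[p])) • repInf p • w := by
      rw [← mul_smul, toG_kt0_mul_repInf]
    rw [h1, F.evV_smul hn, ← Matrix.mul_assoc, ← slM_mul, Units.val_one, Matrix.mul_one,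
      kt0_inv_mul_etaM]
  have h1 : ∀ b : Fin p, F.trE n (rp (some b)) w * F.Wm n * F.ιm n =
      slM n (intM (rep p b)) * F.evV n (rep p b • w) := by
    intro b
    rw [F.trE_mul_Wι hn, rp_some, etaM_mul_kt0, ← mul_smul, eta_mul_toG_kt0]
  rw [← Matrix.mul_assoc, ← Matrix.mul_assoc, F.evV_mul_π hn, Fintype.sum_option,
    Matrix.add_mul, Matrix.add_mul, h0, Matrix.sum_mul, Matrix.sum_mul,
    Finset.sum_congr rfl fun b _ => h1 b,
    Fin.sum_univ_eq_sum_range (fun b => slM n (intM (rep p b)) * F.evV n (rep p b • w)) p]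

end Frame

end Gouvea
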