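import Pool.Agent.Work.MP_d3517d_nt.Basic2

/-!
# The action of the Hecke ring in coordinates (MP_d3517d_nt)
-/

noncomputable section

namespace Gouvea

variable {p : ℕ} [Fact p.Prime]

/-- The action of a commutative ring `R` on all the spaces of forms, in coordinates. -/
structure HRep {h : ℕ} {E V : Type} [Fintype E] [DecidableEq E] [Fintype V]
    [DecidableEq V] (D : Dat p h E V) (R : Type) [CommRing R] where
  TE : ∀ n, Even n → (R →+* Matrix (E × Fin (n + 1)) (E × Fin (n + 1)) ℤ_[p])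
  TV : ∀ n, Even n → (R →+* Matrix (V × Fin (n + 1)) (V × Fin (n + 1)) ℤ_[p])
  comW : ∀ n hn t, TE n hn t * D.W n = D.W n * TE n hn t
  comι : ∀ n hn t, TE n hn t * D.ι n = D.ι n * TV n hn t
  comπ : ∀ n hn t, D.π n * TE n hn t = TV n hn t * D.π n
  tri : ∀ n hn t x y, y.2 < x.2 → (p : ℤ_[p]) ∣ TE n hn t x y
  gr : ℕ → ℕ → R → Matrix E E (ZMod p)
  gr_eq : ∀ n hn t (i : Fin (n + 1)) e e',
    PadicInt.toZMod (TE n hn t (e, i) (e', i)) = gr n i t e e'
  gr_n : ∀ n i t, gr (n + (p - 1)) i t = gr n i t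
  gr_i : ∀ n i t, gr n (i + (p - 1)) t = gr n i t

end Gouvea
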