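import Pool.Agent.Work.MP_d3517d_nt.DatOf
import Pool.Agent.Work.MP_d3517d_nt.HRep

/-!
# The Hecke ring in coordinates (MP_d3517d_nt, M15)

For a `G`-equivariant endomorphism `t` of `ℤ_p[Ω]` the matrices `TEm n t`, `TVm n t` describe its
action on the forms for the Iwahori group and for `GL₂(ℤ_p)`.  They commute with `W`, `ι`, `π`.
-/

open Polynomial Finset Matrix

noncomputable section

namespace Gouvea

variable {p : ℕ} [Fact p.Prime]

section lc

variable {Ω : Type} {m : ℕ} {Y Z : Type}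

lemma lc_mul [Fintype Y] (f : Ω → Matrix (Fin m) Y ℤ_[p]) (N : Matrix Y Z ℤ_[p])
    (v : Ω →₀ ℤ_[p]) : Finsupp.linearCombination ℤ_[p] f v * N =
      Finsupp.linearCombination ℤ_[p] (fun w => f w * N) v := by
  induction v using Finsupp.induction_linear with
  | zero => simp
  | add a b ha hb => rw [map_add, map_add, Matrix.add_mul, ha, hb]
  | single a c =>
    rw [Finsupp.linearCombination_single, Finsupp.linearCombination_single, Matrix.smul_mul]

lemma mul_lc (M : Matrix (Fin m) (Fin m) ℤ_[p]) (f : Ω → Matrix (Fin m) Y ℤ_[p])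
    (v : Ω →₀ ℤ_[p]) : M * Finsupp.linearCombination ℤ_[p] f v =
      Finsupp.linearCombination ℤ_[p] (fun w => M * f w) v := by
  induction v using Finsupp.induction_linear with
  | zero => simp
  | add a b ha hb => rw [map_add, map_add, Matrix.mul_add, ha, hb]
  | single a c =>
    rw [Finsupp.linearCombination_single, Finsupp.linearCombination_single, Matrix.mul_smul]

lemma lc_comp (f : Ω → Matrix (Fin m) Y ℤ_[p]) (t : (Ω →₀ ℤ_[p]) →ₗ[ℤ_[p]] (Ω →₀ ℤ_[p]))
    (v : Ω →₀ ℤ_[p]) : Finsupp.linearCombination ℤ_[p] f (t v) =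
      Finsupp.linearCombination ℤ_[p]
        (fun w => Finsupp.linearCombination ℤ_[p] f (t (Finsupp.single w 1))) v := by
  induction v using Finsupp.induction_linear with
  | zero => simp
  | add a b ha hb => rw [map_add, map_add, map_add, ha, hb]
  | single a c =>
    have : Finsupp.single a c = c • Finsupp.single a (1 : ℤ_[p]) := by simp
    rw [Finsupp.linearCombination_single, this, map_smul, map_smul]

end lc

/-! ### reduction modulo `p` -/

lemma slR_upper_lt {R : Type*} [CommRing R] (n : ℕ) (M : Matrix (Fin 2) (Fin 2) R)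
    (h : M 1 0 = 0) {i j : ℕ} (hij : j < i) : slR n M i j = 0 := by
  rw [slR, h, map_zero, zero_mul, zero_add, ← map_pow, mul_comm, coeff_C_mul]
  rw [coeff_eq_zero_of_natDegree_lt, mul_zero]
  refine lt_of_le_of_lt (natDegree_pow_le.trans ?_) hij
  have := natDegree_linear_le (a := M 0 0) (b := M 0 1)
  nlinarith

lemma slR_upper_diag {R : Type*} [CommRing R] (n : ℕ) (M : Matrix (Fin 2) (Fin 2) R)
    (h : M 1 0 = 0) (i : ℕ) : slR n M i i = M 0 0 ^ i * M 1 1 ^ (n - i) := by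
  rw [slR, h, map_zero, zero_mul, zero_add, ← map_pow, mul_comm, coeff_C_mul, mul_comm]
  congr 1
  have h1 : (C (M 0 0) * X + C (M 0 1)).natDegree ≤ 1 := natDegree_linear_le
  have h2 := coeff_pow_of_natDegree_le h1 (m := i)
  rw [mul_one] at h2
  rw [h2]
  simp

lemma toZMod_sl (n : ℕ) (M : Matrix (Fin 2) (Fin 2) ℤ_[p]) (i j : ℕ) :
    PadicInt.toZMod (sl n M i j) = slR n (M.map (PadicInt.toZMod (p := p))) i j := by
  rw [slR_map]; rfl

lemma toZMod_eq_zero_iff (x : ℤ_[p]) : PadicInt.toZMod x = 0 ↔ (p : ℤ_[p]) ∣ x := by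
  rw [← RingHom.mem_ker, PadicInt.ker_toZMod, PadicInt.maximalIdeal_eq_span_p,
    Ideal.mem_span_singleton]

lemma Iw0_diag_ne_zero {k : K0 p} (hk : k ∈ Iw0 p) :
    PadicInt.toZMod (k 0 0) ≠ 0 ∧ PadicInt.toZMod (k 1 1) ≠ 0 := by
  have hdet : IsUnit (Matrix.det k.1) := k.1.isUnit_iff_isUnit_det.1 k.isUnit
  have h0 : PadicInt.toZMod (k 1 0) = 0 := (toZMod_eq_zero_iff _).2 hk
  have h1 := hdet.map (PadicInt.toZMod (p := p))
  rw [Matrix.det_fin_two, map_sub, map_mul, map_mul] at h1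
  have h2 : PadicInt.toZMod (k.1 1 0) = 0 := h0
  rw [h2, mul_zero, sub_zero] at h1
  have h3 := h1.ne_zero
  exact ⟨left_ne_zero_of_mul h3, right_ne_zero_of_mul h3⟩

namespace Frame

variable {Ω : Type} [MulAction (G p) Ω] {E V : Type} (F : Frame p Ω E V)
variable [DecidableEq E] [DecidableEq V] {n : ℕ}

/-- linear extension of `evE` -/
def LE (n : ℕ) : (Ω →₀ ℤ_[p]) →ₗ[ℤ_[p]] Matrix (Fin (n + 1)) (E × Fin (n + 1)) ℤ_[p] :=
  Finsupp.linearCombination ℤ_[p] (F.evE n)

/-- linear extension of `evV` -/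
def LV (n : ℕ) : (Ω →₀ ℤ_[p]) →ₗ[ℤ_[p]] Matrix (Fin (n + 1)) (V × Fin (n + 1)) ℤ_[p] :=
  Finsupp.linearCombination ℤ_[p] (F.evV n)

omit [DecidableEq V] in
lemma LE_single (w : Ω) : F.LE n (Finsupp.single w 1) = F.evE n w := by
  rw [LE, Finsupp.linearCombination_single, one_smul]

omit [DecidableEq E] in
lemma LV_single (w : Ω) : F.LV n (Finsupp.single w 1) = F.evV n w := by
  rw [LV, Finsupp.linearCombination_single, one_smul]

omit [DecidableEq V] in
lemma LE_smul (hn : Even n) {k : K0 p} (hk : k ∈ Iw0 p) (v : Ω →₀ ℤ_[p]) :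
    F.LE n (Finsupp.mapDomain (toG k • ·) v) = slM n (k⁻¹ : K0 p).1 * F.LE n v := by
  rw [LE, Finsupp.linearCombination_mapDomain, mul_lc]
  congr 2
  funext w
  exact F.evE_smul hn hk w

omit [DecidableEq E] in
lemma LV_smul (hn : Even n) (k : K0 p) (v : Ω →₀ ℤ_[p]) :
    F.LV n (Finsupp.mapDomain (toG k • ·) v) = slM n (k⁻¹ : K0 p).1 * F.LV n v := by
  rw [LV, Finsupp.linearCombination_mapDomain, mul_lc]
  congr 2
  funext w
  exact F.evV_smul hn k w

/-- The matrix of `t` on the forms for the Iwahori group. -/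
def TEm (n : ℕ) (t : (Ω →₀ ℤ_[p]) →ₗ[ℤ_[p]] (Ω →₀ ℤ_[p])) :
    Matrix (E × Fin (n + 1)) (E × Fin (n + 1)) ℤ_[p] :=
  rows fun e => F.LE n (t (Finsupp.single (F.x e) 1))

/-- The matrix of `t` on the forms for `GL₂(ℤ_p)`. -/
def TVm (n : ℕ) (t : (Ω →₀ ℤ_[p]) →ₗ[ℤ_[p]] (Ω →₀ ℤ_[p])) :
    Matrix (V × Fin (n + 1)) (V × Fin (n + 1)) ℤ_[p] :=
  rows fun v => F.LV n (t (Finsupp.single (F.y v) 1))

lemma single_smul (g : G p) (w : Ω) : Finsupp.single (g • w) (1 : ℤ_[p]) =
    Finsupp.mapDomain (g • ·) (Finsupp.single w 1) := by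
  rw [Finsupp.mapDomain_single]

variable {t s : (Ω →₀ ℤ_[p]) →ₗ[ℤ_[p]] (Ω →₀ ℤ_[p])}

omit [DecidableEq V] in
lemma evE_mul_TE [Fintype E] (hn : Even n) (ht : Equivariant t) (w : Ω) :
    F.evE n w * F.TEm n t = F.LE n (t (Finsupp.single w 1)) := by
  rw [TEm, evE_mul_rows, ← F.LE_smul hn (F.kE_mem w), ← ht, ← single_smul, F.kE_smul]

omit [DecidableEq E] in
lemma evV_mul_TV [Fintype V] (hn : Even n) (ht : Equivariant t) (w : Ω) :
    F.evV n w * F.TVm n t = F.LV n (t (Finsupp.single w 1)) := by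
  rw [TVm, evV_mul_rows, ← F.LV_smul hn, ← ht, ← single_smul, F.kV_smul]

omit [DecidableEq V] in
lemma LE_mul_TE [Fintype E] (hn : Even n) (ht : Equivariant t) (v : Ω →₀ ℤ_[p]) :
    F.LE n v * F.TEm n t = F.LE n (t v) := by
  rw [LE, lc_mul, lc_comp]
  congr 2
  funext w
  exact F.evE_mul_TE hn ht w

omit [DecidableEq E] in
lemma LV_mul_TV [Fintype V] (hn : Even n) (ht : Equivariant t) (v : Ω →₀ ℤ_[p]) :
    F.LV n v * F.TVm n t = F.LV n (t v) := by
  rw [LV, lc_mul, lc_comp]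
  congr 2
  funext w
  exact F.evV_mul_TV hn ht w

omit [DecidableEq V] in
lemma TE_mul_TE [Fintype E] (hn : Even n) (hs : Equivariant s) :
    F.TEm n t * F.TEm n s = F.TEm n (s ∘ₗ t) := by
  conv_lhs => lhs; rw [TEm]
  rw [rows_mul, TEm]
  congr 1
  funext e
  exact F.LE_mul_TE hn hs _

omit [DecidableEq E] in
lemma TV_mul_TV [Fintype V] (hn : Even n) (hs : Equivariant s) :
    F.TVm n t * F.TVm n s = F.TVm n (s ∘ₗ t) := by
  conv_lhs => lhs; rw [TVm]
  rw [rows_mul, TVm]
  congr 1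
  funext e
  exact F.LV_mul_TV hn hs _

omit [DecidableEq V] in
lemma LE_mul_W [Fintype E] (hn : Even n) (v : Ω →₀ ℤ_[p]) :
    F.LE n v * F.Wm n = slM n (etaM p) * F.LE n (Finsupp.mapDomain (eta p • ·) v) := by
  rw [LE, lc_mul, Finsupp.linearCombination_mapDomain, mul_lc]
  congr 2
  funext w
  exact F.evE_mul_W hn w

lemma LE_mul_ι [Fintype E] (hn : Even n) (v : Ω →₀ ℤ_[p]) :
    F.LE n v * F.ιm n = F.LV n v := by
  rw [LE, lc_mul, LV]
  congr 2
  funext w
  exact F.evE_mul_ι hn w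

/-- the linear extension of `trE` -/
def trL (n : ℕ) (k : K0 p) (v : Ω →₀ ℤ_[p]) : Matrix (Fin (n + 1)) (E × Fin (n + 1)) ℤ_[p] :=
  slM n k.1 * F.LE n (Finsupp.mapDomain (toG k • ·) v)

lemma LV_mul_π [Fintype V] (hn : Even n) (v : Ω →₀ ℤ_[p]) :
    F.LV n v * F.πm n =
      ∑ s, F.trL n (rp s) v := by
  induction v using Finsupp.induction_linear with
  | zero => simp [trL]
  | add a b ha hb =>
    rw [map_add, Matrix.add_mul, ha, hb, ← Finset.sum_add_distrib]
    refine Finset.sum_congr rfl fun s _ => ?_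
    rw [trL, trL, trL, Finsupp.mapDomain_add, map_add, Matrix.mul_add]
  | single w c =>
    have h1 : Finsupp.single w c = c • Finsupp.single w (1 : ℤ_[p]) := by simp
    rw [h1, map_smul, Matrix.smul_mul, LV_single, F.evV_mul_π hn, Finset.smul_sum]
    refine Finset.sum_congr rfl fun s _ => ?_
    rw [trL, Finsupp.mapDomain_smul, map_smul, Matrix.mul_smul, ← single_smul, LE_single, trE]

omit [DecidableEq V] in
lemma TE_comW [Fintype E] (hn : Even n) (ht : Equivariant t) :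
    F.TEm n t * F.Wm n = F.Wm n * F.TEm n t := by
  conv_lhs => lhs; rw [TEm]
  conv_rhs => lhs; rw [Wm]
  rw [rows_mul, rows_mul]
  congr 1
  funext e
  rw [F.LE_mul_W hn, ← ht, ← single_smul, Matrix.mul_assoc, F.evE_mul_TE hn ht]

lemma TE_comι [Fintype E] [Fintype V] (hn : Even n) (ht : Equivariant t) :
    F.TEm n t * F.ιm n = F.ιm n * F.TVm n t := by
  conv_lhs => lhs; rw [TEm]
  conv_rhs => lhs; rw [ιm]
  rw [rows_mul, rows_mul]
  congr 1
  funext e
  rw [F.LE_mul_ι hn, F.evV_mul_TV hn ht]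

lemma TE_comπ [Fintype E] [Fintype V] (hn : Even n) (ht : Equivariant t) :
    F.πm n * F.TEm n t = F.TVm n t * F.πm n := by
  conv_lhs => lhs; rw [πm]
  conv_rhs => lhs; rw [TVm]
  rw [rows_mul, rows_mul]
  congr 1
  funext v
  rw [F.LV_mul_π hn, Matrix.sum_mul]
  refine Finset.sum_congr rfl fun s _ => ?_
  rw [trE, trL, Matrix.mul_assoc, F.evE_mul_TE hn ht, single_smul, ht]

omit [DecidableEq V] in
lemma TEm_apply (n : ℕ) (x y : E × Fin (n + 1)) : F.TEm n t x y =
    (t (Finsupp.single (F.x x.1) 1)).sum fun w c => c * F.evE n w x.2 y := by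
  rw [TEm, rows_apply, LE, Finsupp.linearCombination_apply, Finsupp.sum, Matrix.sum_apply,
    Finsupp.sum]
  rfl

/-- the diagonal blocks modulo `p` -/
def grm (t : (Ω →₀ ℤ_[p]) →ₗ[ℤ_[p]] (Ω →₀ ℤ_[p])) (n i : ℕ) : Matrix E E (ZMod p) :=
  Matrix.of fun e e' => (t (Finsupp.single (F.x e) 1)).sum fun w c =>
    PadicInt.toZMod c * if F.cE w = e' then
      PadicInt.toZMod ((F.kE w)⁻¹ 0 0) ^ i *
        (PadicInt.toZMod ((F.kE w)⁻¹ 1 1) ^ n * (PadicInt.toZMod ((F.kE w)⁻¹ 1 1))⁻¹ ^ i) else 0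

omit [DecidableEq V] in
lemma TE_gr (i : Fin (n + 1)) (e e' : E) :
    PadicInt.toZMod (F.TEm n t (e, i) (e', i)) = F.grm t n i e e' := by
  rw [TEm_apply, grm, Matrix.of_apply, Finsupp.sum, Finsupp.sum, map_sum]
  refine Finset.sum_congr rfl fun w _ => ?_
  rw [map_mul]
  congr 1
  simp only [evE, Matrix.of_apply]
  split_ifs with h
  · have hk := (Iw0 p).inv_mem (F.kE_mem w)
    rw [slM_apply, toZMod_sl, slR_upper_diag _ _ ((toZMod_eq_zero_iff _).2 hk)]
    have hd := (Iw0_diag_ne_zero hk).2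
    have hi : (i : ℕ) ≤ n := Nat.lt_succ_iff.1 i.2
    rw [Matrix.map_apply, Matrix.map_apply]
    congr 1
    rw [inv_pow, pow_sub₀ _ hd hi]
  · simp

omit [DecidableEq V] in
lemma TE_tri {x y : E × Fin (n + 1)} (hxy : y.2 < x.2) : (p : ℤ_[p]) ∣ F.TEm n t x y := by
  rw [TEm_apply, Finsupp.sum]
  refine Finset.dvd_sum fun w _ => Dvd.dvd.mul_left ?_ _
  simp only [evE, Matrix.of_apply]
  split_ifs with h
  · have hk := (Iw0 p).inv_mem (F.kE_mem w)
    rw [← toZMod_eq_zero_iff, slM_apply, toZMod_sl]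
    exact slR_upper_lt _ _ ((toZMod_eq_zero_iff _).2 hk) hxy
  · exact dvd_zero _

omit [DecidableEq V] in
lemma gr_n (n i : ℕ) : F.grm t (n + (p - 1)) i = F.grm t n i := by
  ext e e'
  simp only [grm, Matrix.of_apply]
  refine Finsupp.sum_congr fun w _ => ?_
  have hd := (Iw0_diag_ne_zero ((Iw0 p).inv_mem (F.kE_mem w))).2
  rw [pow_add, ZMod.pow_card_sub_one_eq_one hd, mul_one]

omit [DecidableEq V] in
lemma gr_i (n i : ℕ) : F.grm t n (i + (p - 1)) = F.grm t n i := by
  ext e e'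
  simp only [grm, Matrix.of_apply]
  refine Finsupp.sum_congr fun w _ => ?_
  have hd := (Iw0_diag_ne_zero ((Iw0 p).inv_mem (F.kE_mem w)))
  rw [pow_add, ZMod.pow_card_sub_one_eq_one hd.1, mul_one, pow_add,
    ZMod.pow_card_sub_one_eq_one (inv_ne_zero hd.2), mul_one]

/-- The action of the Hecke ring in coordinates. -/
def hrep [Fintype E] [Fintype V] {h : ℕ} (hE : Fintype.card E = (p + 1) * h)
    (hV : Fintype.card V = h) {R : Type} [CommRing R]
    (act : R →+* Module.End ℤ_[p] (Ω →₀ ℤ_[p])) (hact : ∀ t, Equivariant (act t)) :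
    HRep (F.dat hE hV) R where
  TE n hn :=
    { toFun := fun t => F.TEm n (act t)
      map_one' := by
        rw [map_one, ← F.rows_evE_x hn, TEm]
        congr 1
        funext e
        exact F.LE_single _
      map_mul' := fun a b => by
        rw [F.TE_mul_TE hn (hact b), mul_comm a b, map_mul]
        rfl
      map_zero' := by
        rw [map_zero]
        ext x y
        simp [TEm, rows_apply]
      map_add' := fun a b => by
        rw [map_add]
        ext x y
        simp [TEm, rows_apply] }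
  TV n hn :=
    { toFun := fun t => F.TVm n (act t)
      map_one' := by
        rw [map_one, ← F.rows_evV_y hn, TVm]
        congr 1
        funext e
        exact F.LV_single _
      map_mul' := fun a b => by
        rw [F.TV_mul_TV hn (hact b), mul_comm a b, map_mul]
        rfl
      map_zero' := by
        rw [map_zero]
        ext x y
        simp [TVm, rows_apply]
      map_add' := fun a b => by
        rw [map_add]
        ext x y
        simp [TVm, rows_apply] }
  comW n hn t := F.TE_comW hn (hact t)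
  comι n hn t := F.TE_comι hn (hact t)
  comπ n hn t := F.TE_comπ hn (hact t)
  tri n hn t x y hxy := F.TE_tri hxy
  gr n i t := F.grm (act t) n i
  gr_eq n hn t i e e' := F.TE_gr i e e'
  gr_n n i t := F.gr_n n i
  gr_i n i t := F.gr_i n i

end Frame

end Gouvea
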