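import Pool.Agent.Work.MP_d3517d_nt.Iwahori

/-!
# From forms to coordinates (MP_d3517d_nt)

`Forms (p := p) Ω n ≃ (V × Fin (n+1) → ℚ_p)`, `f ↦ (f (y_v))_v`, for base points `y_v` of the `K`-orbits;
operators whose rows satisfy an identity at every point `ω` become matrices.
-/

open Polynomial Finset

noncomputable section

namespace Gouvea

variable {p : ℕ} [Fact p.Prime] {Ω : Type} [MulAction (G p) Ω]

/-- a frame for the `K`-orbits: `ω = kV ω • y (cV ω)`. -/
structure KFrame {V : Type} (y : V → Ω) (cV : Ω → V) (kV : Ω → G p) : Prop where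
  mem : ∀ ω, kV ω ∈ K p
  eq : ∀ ω, kV ω • y (cV ω) = ω
  inv : ∀ k ∈ K p, ∀ ω, cV (k • ω) = cV ω
  base : ∀ v, cV (y v) = v

section

variable {V : Type} [Fintype V] [DecidableEq V]

/-- the value at `ω` of a form, in terms of the coordinates. -/
def evV (cV : Ω → V) (kV : Ω → G p) (n : ℕ) (ω : Ω) :
    Matrix (Fin (n + 1)) (V × Fin (n + 1)) ℤ_[p] :=
  Matrix.of fun i x => if x.1 = cV ω then slM n (intM (kV ω)⁻¹) i x.2 else 0

/-- a polynomial of degree `≤ n` from its coefficients. -/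
def polyOf (n : ℕ) (c : Fin (n + 1) → ℚ_[p]) : ℚ_[p][X] :=
  ∑ j : Fin (n + 1), C (c j) * X ^ (j : ℕ)

lemma coeff_polyOf (n : ℕ) (c : Fin (n + 1) → ℚ_[p]) (i : Fin (n + 1)) :
    (polyOf n c).coeff i = c i := by
  simp only [polyOf, finsetSum_coeff, coeff_C_mul, coeff_X_pow]
  rw [Finset.sum_eq_single i]
  · simp
  · intro j _ hj
    rw [if_neg (fun h => hj (Fin.ext h.symm)), mul_zero]
  · simp

lemma polyOf_mem (n : ℕ) (c : Fin (n + 1) → ℚ_[p]) : polyOf n c ∈ degreeLE ℚ_[p] n := by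
  refine Submodule.sum_mem _ fun j _ => mem_degreeLE.2 ?_
  refine (degree_C_mul_X_pow_le _ _).trans ?_
  exact_mod_cast Nat.lt_succ_iff.1 j.2

lemma polyOf_add (n : ℕ) (c d : Fin (n + 1) → ℚ_[p]) :
    polyOf n (c + d) = polyOf n c + polyOf n d := by
  simp [polyOf, add_mul, Finset.sum_add_distrib]

lemma polyOf_smul (n : ℕ) (a : ℚ_[p]) (c : Fin (n + 1) → ℚ_[p]) :
    polyOf n (a • c) = a • polyOf n c := by
  simp [polyOf, Finset.smul_sum, smul_eq_C_mul, mul_assoc]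

lemma ext_deg {n : ℕ} {f g : ℚ_[p][X]} (hf : f ∈ degreeLE ℚ_[p] n) (hg : g ∈ degreeLE ℚ_[p] n)
    (h : ∀ i : Fin (n + 1), f.coeff i = g.coeff i) : f = g := by
  ext i
  by_cases hi : i < n + 1
  · exact h ⟨i, hi⟩
  · rw [coeff_eq_zero_of_degree_lt, coeff_eq_zero_of_degree_lt]
    · exact (mem_degreeLE.1 hg).trans_lt (by exact_mod_cast (by omega : n < i))
    · exact (mem_degreeLE.1 hf).trans_lt (by exact_mod_cast (by omega : n < i))

lemma polyOf_coeff {n : ℕ} {f : ℚ_[p][X]} (hf : f ∈ degreeLE ℚ_[p] n) :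
    polyOf n (fun i : Fin (n + 1) => f.coeff i) = f :=
  ext_deg (polyOf_mem n _) hf fun i => coeff_polyOf n _ i

/-- `-g` acts as `g` in even weights. -/
lemma slash_neg {n : ℕ} (hn : Even n) (g : G p) (f : ℚ_[p][X]) :
    slash n (-g) f = slash n g f := by
  rw [slash_eq, slash_eq, slashM_apply, slashM_apply]
  refine Finset.sum_congr rfl fun j hj => ?_
  have hj' : j ≤ n := by simpa [Nat.lt_succ_iff] using hj
  congr 1
  have h1 : (C ((-g : G p) 0 0) * X + C ((-g : G p) 0 1) : ℚ_[p][X]) =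
      -(C (g 0 0) * X + C (g 0 1)) := by
    simp; ring
  have h2 : (C ((-g : G p) 1 0) * X + C ((-g : G p) 1 1) : ℚ_[p][X]) =
      -(C (g 1 0) * X + C (g 1 1)) := by
    simp; ring
  rw [h1, h2, neg_pow, neg_pow (C (g 1 0) * X + C (g 1 1) : ℚ_[p][X])]
  have h3 : ((-1 : ℚ_[p][X]) ^ j) * (-1) ^ (n - j) = 1 := by
    rw [← pow_add, Nat.add_sub_cancel' hj', hn.neg_one_pow]
  calc _ = (((-1 : ℚ_[p][X]) ^ j) * (-1) ^ (n - j)) * ((C (g 0 0) * X + C (g 0 1)) ^ j *
        (C (g 1 0) * X + C (g 1 1)) ^ (n - j)) := by ring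
    _ = _ := by rw [h3, one_mul]

/-- the coefficient formula for an integral element, with `Fin (n+1)`. -/
lemma coeff_slash_fin {g : G p} (hg : IsInt g) (n : ℕ) (f : ℚ_[p][X]) (i : Fin (n + 1)) :
    (slash n g f).coeff i =
      ∑ j : Fin (n + 1), ((slM n (intM g) i j : ℤ_[p]) : ℚ_[p]) * f.coeff j := by
  rw [coeff_slash hg,
    ← Fin.sum_univ_eq_sum_range (fun j => ((sl n (intM g) i j : ℤ_[p]) : ℚ_[p]) * f.coeff j)
    (n + 1)]
  rfl

variable {y : V → Ω} {cV : Ω → V} {kV : Ω → G p}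

omit [Fintype V] [DecidableEq V] in
lemma KFrame.value (hF : KFrame y cV kV) {n : ℕ} {f : Ω → ℚ_[p][X]} (hf : f ∈ Forms (p := p) Ω n) (ω : Ω) :
    f ω = slash n (kV ω)⁻¹ (f (y (cV ω))) := by
  conv_lhs => rw [← hF.eq ω]
  exact hf.2 _ (hF.mem ω) _

/-- the coefficients of the value at `ω` in terms of the coordinates. -/
lemma KFrame.coeff_value (hF : KFrame y cV kV) {n : ℕ} {f : Ω → ℚ_[p][X]} (hf : f ∈ Forms (p := p) Ω n)
    (ω : Ω) (i : Fin (n + 1)) : (f ω).coeff i =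
      ∑ x : V × Fin (n + 1), ((evV cV kV n ω i x : ℤ_[p]) : ℚ_[p]) * (f (y x.1)).coeff x.2 := by
  rw [hF.value hf ω, coeff_slash_fin (isInt_of_mem_K ((K p).inv_mem (hF.mem ω))),
    Fintype.sum_prod_type, Finset.sum_eq_single (cV ω)]
  · exact Finset.sum_congr rfl fun j _ => by simp [evV]
  · intro v _ hv
    exact Finset.sum_eq_zero fun j _ => by simp [evV, hv]
  · simp

omit [Fintype V] [DecidableEq V] in
lemma KFrame.mem_forms (hst : ∀ k ∈ K p, ∀ ω : Ω, k • ω = ω → k = 1 ∨ k = -1)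
    (hF : KFrame y cV kV) {n : ℕ} (hn : Even n) (P : V → ℚ_[p][X]) :
    (fun ω => slash n (kV ω)⁻¹ (P (cV ω))) ∈ Forms (p := p) Ω n := by
  refine ⟨fun ω => slash_mem _ _ _, fun k hk ω => ?_⟩
  simp only
  rw [hF.inv k hk ω, slash_slash]
  have h1 : ((kV (k • ω))⁻¹ * k * kV ω) • y (cV ω) = y (cV ω) := by
    have h2 := hF.eq (k • ω)
    rw [hF.inv k hk ω] at h2
    rw [mul_smul, mul_smul, hF.eq ω, inv_smul_eq_iff]
    exact h2.symm
  rcases hst _ ((K p).mul_mem ((K p).mul_mem ((K p).inv_mem (hF.mem _)) hk) (hF.mem ω)) _ h1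
    with h | h
  · have h3 : (kV (k • ω))⁻¹ = (kV ω)⁻¹ * k⁻¹ := by
      have : (kV (k • ω))⁻¹ * k * kV ω * ((kV ω)⁻¹ * k⁻¹) = (kV ω)⁻¹ * k⁻¹ := by rw [h, one_mul]
      rw [← this]; group
    rw [h3]
  · have h3 : (kV (k • ω))⁻¹ = -((kV ω)⁻¹ * k⁻¹) := by
      have : (kV (k • ω))⁻¹ * k * kV ω * ((kV ω)⁻¹ * k⁻¹) = -((kV ω)⁻¹ * k⁻¹) := by
        rw [h, neg_mul, one_mul]
      rw [← this]; group
    rw [h3, slash_neg hn]

/-- the form with given coordinates -/
def formOf (hst : ∀ k ∈ K p, ∀ ω : Ω, k • ω = ω → k = 1 ∨ k = -1)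
    (hF : KFrame y cV kV) {n : ℕ} (hn : Even n) (c : V × Fin (n + 1) → ℚ_[p]) : Forms (p := p) Ω n :=
  ⟨fun ω => slash n (kV ω)⁻¹ (polyOf n fun j => c (cV ω, j)),
    hF.mem_forms hst hn fun v => polyOf n fun j => c (v, j)⟩

/-- Coordinates of forms. -/
def coordEquiv (hst : ∀ k ∈ K p, ∀ ω : Ω, k • ω = ω → k = 1 ∨ k = -1)
    (hF : KFrame y cV kV) {n : ℕ} (hn : Even n) :
    Forms (p := p) Ω n ≃ₗ[ℚ_[p]] (V × Fin (n + 1) → ℚ_[p]) where
  toFun f := fun x => ((f : Ω → ℚ_[p][X]) (y x.1)).coeff x.2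
  map_add' f g := by ext x; simp
  map_smul' a f := by ext x; simp
  invFun c := formOf hst hF hn c
  left_inv f := by
    apply Subtype.ext
    funext ω
    simp only [formOf]
    rw [polyOf_coeff (f.2.1 _)]
    exact (hF.value f.2 ω).symm
  right_inv c := by
    funext x
    obtain ⟨v, j⟩ := x
    simp only [formOf]
    have h1 : kV (y v) • y v = y v := by
      conv_lhs => rw [← hF.base v, hF.base]
      have := hF.eq (y v)
      rwa [hF.base] at this
    have h2 : slash n (kV (y v))⁻¹ (polyOf n fun j => c (cV (y v), j)) =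
        polyOf n fun j => c (v, j) := by
      rw [hF.base]
      rcases hst _ (hF.mem _) _ h1 with h | h
      · rw [h, inv_one, slash_one n _ (polyOf_mem n _)]
      · have h3 : (-1 : G p)⁻¹ = -1 := by
          rw [inv_eq_iff_mul_eq_one]; simp
        rw [h, h3, slash_neg hn, slash_one n _ (polyOf_mem n _)]
    rw [h2, coeff_polyOf]

variable (hst : ∀ k ∈ K p, ∀ ω : Ω, k • ω = ω → k = 1 ∨ k = -1)

omit [Fintype V] [DecidableEq V] in
lemma coordEquiv_apply (hF : KFrame y cV kV) {n : ℕ} (hn : Even n) (f : Forms (p := p) Ω n)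
    (x : V × Fin (n + 1)) :
    coordEquiv hst hF hn f x = ((f : Ω → ℚ_[p][X]) (y x.1)).coeff x.2 := rfl

/-- the value of the form with given coordinates. -/
lemma coeff_coordEquiv_symm (hF : KFrame y cV kV) {n : ℕ} (hn : Even n)
    (c : V × Fin (n + 1) → ℚ_[p]) (ω : Ω) (i : Fin (n + 1)) :
    ((((coordEquiv hst hF hn).symm c : Forms (p := p) Ω n) : Ω → ℚ_[p][X]) ω).coeff i =
      ∑ x : V × Fin (n + 1), ((evV cV kV n ω i x : ℤ_[p]) : ℚ_[p]) * c x := by
  have h := hF.coeff_value ((coordEquiv hst hF hn).symm c).2 ω i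
  have h2 : ∀ x : V × Fin (n + 1),
      ((((coordEquiv hst hF hn).symm c : Forms (p := p) Ω n) : Ω → ℚ_[p][X]) (y x.1)).coeff x.2 = c x := by
    intro x
    rw [← coordEquiv_apply hst hF hn, LinearEquiv.apply_symm_apply]
  rw [h]
  exact Finset.sum_congr rfl fun x _ => by rw [h2 x]

/-- An operator on functions whose value at every `ω` is given by `evV ω * M` preserves the forms
and acts on the coordinates by `M`. -/
theorem link_op (hF : KFrame y cV kV) {n : ℕ} (hn : Even n)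
    (A : (Ω → ℚ_[p][X]) → (Ω → ℚ_[p][X]))
    (M : Matrix (V × Fin (n + 1)) (V × Fin (n + 1)) ℤ_[p])
    (f : Ω → ℚ_[p][X]) (h0 : f ∈ Forms (p := p) Ω n)
    (hdeg : ∀ ω, A f ω ∈ degreeLE ℚ_[p] n)
    (hM : ∀ ω (i : Fin (n + 1)), (A f ω).coeff i =
      ∑ x : V × Fin (n + 1), (((evV cV kV n ω * M) i x : ℤ_[p]) : ℚ_[p]) *
        (f (y x.1)).coeff x.2) :
    ∃ h1 : A f ∈ Forms (p := p) Ω n, coordEquiv hst hF hn ⟨A f, h1⟩ =
      (toQ M).mulVec (coordEquiv hst hF hn ⟨f, h0⟩) := by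
  have key : A f = ((coordEquiv hst hF hn).symm
      ((toQ M).mulVec (coordEquiv hst hF hn ⟨f, h0⟩)) : Forms (p := p) Ω n) := by
    funext ω
    refine ext_deg (hdeg ω) (((coordEquiv hst hF hn).symm _).2.1 ω) fun i => ?_
    rw [hM, coeff_coordEquiv_symm]
    simp only [Matrix.mul_apply, Matrix.mulVec, dotProduct, coordEquiv_apply]
    simp only [Finset.mul_sum]
    rw [Finset.sum_comm]
    refine Finset.sum_congr rfl fun z _ => ?_
    rw [PadicInt.coe_sum, Finset.sum_mul]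
    refine Finset.sum_congr rfl fun x _ => ?_
    rw [PadicInt.coe_mul, mul_assoc]
    rfl
  have h1 : A f ∈ Forms (p := p) Ω n := by
    rw [key]; exact Subtype.property _
  refine ⟨h1, ?_⟩
  have h2 : (⟨A f, h1⟩ : Forms (p := p) Ω n) = (coordEquiv hst hF hn).symm
      ((toQ M).mulVec (coordEquiv hst hF hn ⟨f, h0⟩)) := Subtype.ext key
  rw [h2, LinearEquiv.apply_symm_apply]

lemma rep_isInt (b : ℕ) : IsInt (rep p b) := by
  intro i j
  fin_cases i <;> fin_cases j <;> simp [rep]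
  · exact norm_nat_le b
  · simpa using norm_nat_le (p := p) p

lemma repInf_isInt : IsInt (repInf p) := by
  intro i j
  fin_cases i <;> fin_cases j <;> simp [repInf]
  simpa using norm_nat_le (p := p) p

/-- one term of the Hecke operator. -/
lemma coeff_slash_value (hF : KFrame y cV kV) {n : ℕ} {f : Ω → ℚ_[p][X]}
    (hf : f ∈ Forms (p := p) Ω n) {g : G p} (hg : IsInt g) (ω : Ω) (i : Fin (n + 1)) :
    (slash n g (f ω)).coeff i =
      ∑ x : V × Fin (n + 1), (((slM n (intM g) * evV cV kV n ω) i x : ℤ_[p]) : ℚ_[p]) *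
        (f (y x.1)).coeff x.2 := by
  rw [coeff_slash_fin hg]
  simp only [hF.coeff_value hf ω, Finset.mul_sum]
  rw [Finset.sum_comm]
  refine Finset.sum_congr rfl fun x _ => ?_
  rw [Matrix.mul_apply, PadicInt.coe_sum, Finset.sum_mul]
  refine Finset.sum_congr rfl fun j _ => ?_
  rw [PadicInt.coe_mul, mul_assoc]

/-- The Hecke operator in coordinates. -/
theorem link_hecke (hF : KFrame y cV kV) {n : ℕ} (hn : Even n)
    (M : Matrix (V × Fin (n + 1)) (V × Fin (n + 1)) ℤ_[p])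
    (hM : ∀ ω, slM n (intM (repInf p)) * evV cV kV n (repInf p • ω) +
      ∑ b ∈ range p, slM n (intM (rep p b)) * evV cV kV n (rep p b • ω) = evV cV kV n ω * M)
    (f : Ω → ℚ_[p][X]) (h0 : f ∈ Forms (p := p) Ω n) :
    ∃ h1 : heckeT Ω n f ∈ Forms (p := p) Ω n, coordEquiv hst hF hn ⟨heckeT Ω n f, h1⟩ =
      (toQ M).mulVec (coordEquiv hst hF hn ⟨f, h0⟩) := by
  refine link_op hst hF hn (heckeT Ω n) M f h0 (fun ω => ?_) fun ω i => ?_
  · exact Submodule.add_mem _ (slash_mem _ _ _) (Submodule.sum_mem _ fun b _ => slash_mem _ _ _)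
  · rw [← hM ω]
    change (slash n (repInf p) (f (repInf p • ω)) +
      ∑ b ∈ range p, slash n (rep p b) (f (rep p b • ω))).coeff i = _
    rw [coeff_add, finsetSum_coeff, coeff_slash_value hF h0 repInf_isInt]
    simp only [coeff_slash_value hF h0 (rep_isInt _)]
    rw [Finset.sum_comm, ← Finset.sum_add_distrib]
    refine Finset.sum_congr rfl fun x _ => ?_
    rw [Matrix.add_apply, Matrix.sum_apply, PadicInt.coe_add, PadicInt.coe_sum, add_mul,
      Finset.sum_mul]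

/-- The operator of an endomorphism of `ℤ_p[Ω]` in coordinates. -/
theorem link_corr (hF : KFrame y cV kV) {n : ℕ} (hn : Even n)
    (t : (Ω →₀ ℤ_[p]) →ₗ[ℤ_[p]] (Ω →₀ ℤ_[p]))
    (M : Matrix (V × Fin (n + 1)) (V × Fin (n + 1)) ℤ_[p])
    (hM : ∀ ω, ((t (Finsupp.single ω 1)).sum fun ω' a => a • evV cV kV n ω') =
      evV cV kV n ω * M)
    (f : Ω → ℚ_[p][X]) (h0 : f ∈ Forms (p := p) Ω n) :
    ∃ h1 : corr t f ∈ Forms (p := p) Ω n, coordEquiv hst hF hn ⟨corr t f, h1⟩ =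
      (toQ M).mulVec (coordEquiv hst hF hn ⟨f, h0⟩) := by
  refine link_op hst hF hn (corr t) M f h0 (fun ω => ?_) fun ω i => ?_
  · exact Submodule.sum_mem _ fun ω' _ => Submodule.smul_mem _ _ (h0.1 ω')
  · rw [← hM ω]
    change ((t (Finsupp.single ω 1)).sum fun y a => (a : ℚ_[p]) • f y).coeff i = _
    rw [Finsupp.sum, finsetSum_coeff]
    have h1 : ∀ x : V × Fin (n + 1),
        (((((t (Finsupp.single ω 1)).sum fun ω' a => a • evV cV kV n ω') i x : ℤ_[p])) : ℚ_[p]) =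
        ∑ ω' ∈ (t (Finsupp.single ω 1)).support, ((t (Finsupp.single ω 1) ω' : ℤ_[p]) : ℚ_[p]) *
          ((evV cV kV n ω' i x : ℤ_[p]) : ℚ_[p]) := by
      intro x
      rw [Finsupp.sum, Matrix.sum_apply, PadicInt.coe_sum]
      refine Finset.sum_congr rfl fun ω' _ => ?_
      rw [Matrix.smul_apply, smul_eq_mul, PadicInt.coe_mul]
    simp only [h1, Finset.sum_mul]
    rw [Finset.sum_comm]
    refine Finset.sum_congr rfl fun ω' _ => ?_
    rw [coeff_smul, smul_eq_mul, hF.coeff_value h0 ω', Finset.mul_sum]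
    exact Finset.sum_congr rfl fun x _ => by rw [mul_assoc]

end

end Gouvea
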