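import Pool.Agent.Work.MP_d3517d_nt.FrameOf
import Pool.Agent.Work.MP_d3517d_nt.FrameT
import Pool.Agent.Work.MP_d3517d_nt.HRepOf
import Pool.Agent.Work.MP_d3517d_nt.Link

/-!
# From the `G`-set to the matrices (MP_d3517d_nt, M15)
-/

open Polynomial Finset

noncomputable section

namespace Gouvea

variable {p : ℕ} [Fact p.Prime] {Ω : Type} [MulAction (G p) Ω] {R : Type} [CommRing R]

lemma Frame.kFrame {E V : Type} (F : Frame p Ω E V) :
    KFrame F.y F.cV (fun ω => toG (F.kV ω)) where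
  mem ω := toG_mem_K _
  eq ω := F.kV_smul ω
  inv k hk ω := by
    obtain ⟨k', rfl⟩ := (mem_K_iff_toG k).1 hk
    exact F.cV_smul k' ω
  base v := F.cV_y v

lemma Frame.evV_eq {E V : Type} [DecidableEq E] [DecidableEq V] (F : Frame p Ω E V) (n : ℕ)
    (ω : Ω) : Gouvea.evV F.cV (fun ω => toG (F.kV ω)) n ω = F.evV n ω := by
  ext i x
  simp only [Gouvea.evV, Frame.evV, Matrix.of_apply, intM_toG_inv, eq_comm]

theorem exists_dat
    (hstab : ∀ k ∈ K p, ∀ x : Ω, k • x = x → k = 1 ∨ k = -1)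
    (horb : Finite (MulAction.orbitRel.Quotient (K p) Ω))
    (hscal : ∀ x : Ω, scal p • x = x)
    (act : R →+* Module.End ℤ_[p] (Ω →₀ ℤ_[p])) (hact : ∀ t, Equivariant (act t)) :
    ∃ (h : ℕ) (E V : Type) (_ : Fintype E) (_ : DecidableEq E) (_ : Fintype V)
      (_ : DecidableEq V) (D : Dat p h E V) (H : HRep D R)
      (Ψ : ∀ n, Even n → (Forms (p := p) Ω n ≃ₗ[ℚ_[p]] (V × Fin (n + 1) → ℚ_[p]))),
      ∀ (n : ℕ) (hn : Even n) (f : Ω → ℚ_[p][X]) (h0 : f ∈ Forms (p := p) Ω n),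
        (∃ h1 : heckeT Ω n f ∈ Forms Ω n,
          Ψ n hn ⟨heckeT Ω n f, h1⟩ = (toQ (D.π n * D.W n * D.ι n)).mulVec (Ψ n hn ⟨f, h0⟩)) ∧
        ∀ t, ∃ h2 : corr (act t) f ∈ Forms Ω n,
          Ψ n hn ⟨corr (act t) f, h2⟩ = (toQ (H.TV n hn t)).mulVec (Ψ n hn ⟨f, h0⟩) := by
  obtain ⟨V, E, i1, i2, i3, i4, hV, hE, ⟨F⟩⟩ := exists_frame hstab hscal horb
  refine ⟨_, E, V, i3, i4, i1, i2, F.dat hE hV, F.hrep hE hV act hact,
    fun n hn => coordEquiv hstab F.kFrame hn, ?_⟩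
  intro n hn f h0
  constructor
  · refine link_hecke hstab F.kFrame hn _ (fun ω => ?_) f h0
    simp only [F.evV_eq]
    exact F.evV_hecke hn ω
  · intro t
    refine link_corr hstab F.kFrame hn (act t) _ (fun ω => ?_) f h0
    simp only [F.evV_eq]
    exact (F.evV_mul_TV hn (hact t) ω).symm

end Gouvea
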