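import Pool.Agent.Work.MP_d3517d_nt.Bridge

/-!
# MP_d3517d_nt: M12, Gauss norms: the statements used in the skeleton
-/

set_option autoImplicit false

open Polynomial Finset

noncomputable section

namespace Gouvea

open Pool.Agent.Gouv

variable {p : ℕ} [Fact p.Prime]

section gauss

variable {ι : Type} [Fintype ι] [DecidableEq ι]

theorem gauss_norm_coeff (A : Matrix ι ι ℚ_[p]) (r : ℕ) :
    ‖A.charpolyRev.coeff r‖ = ‖cr A r‖ := by
  rw [bridge_coeff, norm_mul, norm_pow, norm_neg, norm_one, one_pow, one_mul, cr_eq_esum]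

theorem le_Gf (A : Matrix ι ι ℚ_[p]) (r : ℕ) (x : ℝ) :
    ‖cr A r‖ ≤ (p : ℝ) ^ (Gf A x - r * x) := by
  have hp1 := one_lt_pI (p := p)
  have hp0 : (0 : ℝ) < p := by linarith
  by_cases h0 : cr A r = 0
  · rw [h0, norm_zero]
    exact (Real.rpow_pos_of_pos hp0 _).le
  have hpos : 0 < ‖cr A r‖ := norm_pos_iff.2 h0
  have h1 := FF_le hp1 (P := A.charpolyRev) (r := r)
    (norm_pos_iff.1 (by rw [gauss_norm_coeff]; exact hpos)) x
  rw [Gf_eq, vv, gauss_norm_coeff] at h1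
  rw [← Real.logb_le_iff_le_rpow hp1 hpos]
  linarith

theorem Gf_le_of (A : Matrix ι ι ℚ_[p]) (x B : ℝ)
    (hB : ∀ r, r ≤ Fintype.card ι → ‖cr A r‖ ≤ (p : ℝ) ^ (B - r * x)) : Gf A x ≤ B := by
  have hp1 := one_lt_pI (p := p)
  have h1 : -B ≤ FF (p : ℝ) A.charpolyRev x := by
    apply le_FF hp1 (bridge_rev_ne_zero A)
    intro r hr
    have hpos : 0 < ‖cr A r‖ := by
      rw [← gauss_norm_coeff]
      exact norm_pos_iff.2 hr
    have hrc : r ≤ Fintype.card ι := by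
      by_contra hlt
      rw [not_le] at hlt
      rw [cr_eq_esum, esum_of_lt A hlt, norm_zero] at hpos
      exact lt_irrefl _ hpos
    have h2 := hB r hrc
    rw [← Real.logb_le_iff_le_rpow hp1 hpos] at h2
    rw [vv, gauss_norm_coeff]
    linarith
  rw [Gf_eq] at h1
  linarith

end gauss

section summ

variable {h : ℕ} {E V : Type} [Fintype E] [DecidableEq E] [Fintype V] [DecidableEq V]
  {D : Dat p h E V} {n : ℕ}

theorem Gf_fam {n0 L J : ℕ} (F : WFam p h n0 L J E) (D : Gam p E) (hc : Compat F D) (κ : ℕ)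
    (hJ : n0 + (p - 1) * κ < J) (hL : n0 + (p - 1) * κ < L) (r : ℕ) (x : ℝ)
    (hx : x ≤ (n0 + (p - 1) * κ : ℕ) + 1) :
    ‖(cr F.U r).eval (κ : ℚ_[p])‖ ≤
      (p : ℝ) ^ (Gf (toQ (Um D (n0 + (p - 1) * κ))) x - r * x) := by
  have h1 := le_Gf (F.U.map fun f => f.eval (κ : ℚ_[p])) r x
  have h2 := FF_family F hc hJ hL hx
  rw [Gf_eq, Gf_eq, neg_inj] at h2
  rwa [h2, cr_eq_esum, ← eval_cr] at h1

/-- Ihara-Bass (M10) and Gauss norms (M12), for a summand -/
theorem Gf_EV (_hp : 5 ≤ p) (s : Summ D n) (hn : Even n) (x : ℝ) (hx : 2 * x ≤ n) :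
    Gf (toQ (s.εE * Um D.toGam n)) x = Gf (toQ s.T) x := by
  have h1 := FF_summ hn s (x := x) (by linarith)
  rw [Gf_eq] at h1
  linarith

theorem Gf_compl (s : Summ D n) (hn : Even n) (x : ℝ) :
    Gf (toQ (Um D.toGam n)) x =
      Gf (toQ (s.εE * Um D.toGam n)) x + Gf (toQ (s.compl.εE * Um D.toGam n)) x := by
  have comU : Um D.toGam n * s.εE = s.εE * Um D.toGam n := by
    rw [← D.WU n hn]
    have e1 : (D.ι n * D.π n) * s.εE = s.εE * (D.ι n * D.π n) := by
      rw [Matrix.mul_assoc, s.comπ, ← Matrix.mul_assoc, ← s.comι, Matrix.mul_assoc]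
    have e2 : (D.ι n * D.π n - 1) * s.εE = s.εE * (D.ι n * D.π n - 1) := by
      rw [Matrix.sub_mul, e1, Matrix.one_mul, Matrix.mul_sub, Matrix.mul_one]
    rw [Matrix.mul_assoc, e2, ← Matrix.mul_assoc, ← s.comW, Matrix.mul_assoc]
  have h0 : (s.εE * Um D.toGam n) * (s.compl.εE * Um D.toGam n) = 0 := by
    show (s.εE * Um D.toGam n) * ((1 - s.εE) * Um D.toGam n) = 0
    rw [← comU, Matrix.mul_assoc, ← Matrix.mul_assoc s.εE, Matrix.mul_sub, s.idE, Matrix.mul_one,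
      sub_self, Matrix.zero_mul, Matrix.mul_zero]
  have h1 : Um D.toGam n = s.εE * Um D.toGam n + s.compl.εE * Um D.toGam n := by
    show Um D.toGam n = s.εE * Um D.toGam n + (1 - s.εE) * Um D.toGam n
    rw [Matrix.sub_mul, Matrix.one_mul]
    abel
  have h2 : toQ (Um D.toGam n) =
      toQ (s.εE * Um D.toGam n) + toQ (s.compl.εE * Um D.toGam n) := by
    conv_lhs => rw [h1]
    exact Matrix.map_add _ (fun a b => map_add _ a b) _ _
  have h3 : toQ (s.εE * Um D.toGam n) * toQ (s.compl.εE * Um D.toGam n) = 0 := by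
    rw [← toQ_mul, h0]
    ext i j
    simp
  have h4 := bridge_add _ _ h3
  have h5 := Gf_eq (toQ (Um D.toGam n)) x
  rw [h2, h4, FF_mul one_lt_pI isNonarch_Qp (bridge_rev_ne_zero _) (bridge_rev_ne_zero _), Gf_eq,
    Gf_eq, ← h2] at h5
  linarith

end summ

end Gouvea
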