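import Pool.Agent.Work.MP_d3517d_nt.FewBadCore
import Pool.Agent.Work.MP_d3517d_nt.GaussM
import Pool.Agent.Work.MP_d3517d_nt.Dens

/-!
# M14 (b): the counting functions of a summand for most weights

`few_bad_of` derives `few_bad` from its inputs: `few_exceptional`, `hodge`, `d_compl`.
No condition on the prime `p` is used.
-/

open Polynomial Finset Filter Topology

noncomputable section

namespace Gouvea

variable {p : ℕ} [Fact p.Prime] {h : ℕ} {E V : Type} [Fintype E] [DecidableEq E] [Fintype V]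
  [DecidableEq V]

open Classical in
/-- the conclusion of `few_exceptional` -/
def FewExcStat (D : Dat p h E V) : Prop :=
  ∀ η ε : ℝ, 0 < η → 0 < ε →
    ∃ N0 : ℕ, ∀ N ≥ N0, (((range N).filter fun n : ℕ => Even n ∧ ∃ x : ℝ, 0 ≤ x ∧
      x * (p + 1) ≤ n ∧ Gf (toQ (Um D.toGam n)) x <
        ((p : ℝ) + 1) * h * x ^ 2 / 2 - η * (n : ℝ) ^ 2).card : ℝ) ≤ ε * N

/-- the conclusion of `hodge` -/
def HodgeStat (D : Dat p h E V) : Prop :=
  ∀ (n : ℕ) (s : Summ D n) (_ : Even n) (x : ℝ),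
    Gf (toQ (s.εE * Um D.toGam n)) x ≤
      ∑ i : Fin (n + 1), (s.d i : ℝ) * max 0 (x - ((n : ℝ) - (i : ℕ)))

/-- the conclusion of `d_compl` -/
def DComplStat (D : Dat p h E V) : Prop :=
  ∀ (n : ℕ) (s : Summ D n) (i : Fin (n + 1)), s.d i + s.compl.d i = Fintype.card E

/-- `Gf_EV` without a condition on `p` -/
theorem Gf_EV' {D : Dat p h E V} {n : ℕ} (s : Summ D n) (hn : Even n) (x : ℝ) (hx : 2 * x ≤ n) :
    Gf (toQ (s.εE * Um D.toGam n)) x = Gf (toQ s.T) x := by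
  have h1 := FF_summ hn s (x := x) (by linarith)
  rw [Gf_eq] at h1
  linarith

theorem fb_rank_add {D : Dat p h E V} {n : ℕ} (s : Summ D n) :
    (toQ s.εV).rank + (toQ s.compl.εV).rank = h * (n + 1) := by
  have h1 : toQ s.compl.εV = 1 - toQ s.εV := by
    show toQ (1 - s.εV) = _
    unfold toQ
    rw [Matrix.map_sub _ (fun a b => map_sub _ a b), Matrix.map_one _ (map_zero _) (map_one _)]
  have h2 : toQ s.εV * toQ s.εV = toQ s.εV := by rw [← toQ_mul, s.idV]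
  rw [h1, rank_compl _ h2, Fintype.card_prod, D.cardV, Fintype.card_fin]

theorem fb_Nf_le {D : Dat p h E V} {n : ℕ} (s : Summ D n) (x : ℝ) :
    Nf (toQ s.T) x ≤ (toQ s.εV).rank := by
  refine (Nf_le_rank _ _).trans ?_
  have : toQ s.T = toQ s.εV * toQ (D.π n * D.W n * D.ι n) := by
    show toQ (s.εV * (D.π n * D.W n * D.ι n)) = _
    rw [toQ_mul]
  rw [this]
  exact Matrix.rank_mul_le_left _ _

/-- One weight. -/
theorem fb_one {D : Dat p h E V} (hhodge : HodgeStat D)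
    (hcompl : DComplStat D) {n : ℕ} (hn : Even n) (s : Summ D n) (g : ℕ → ℕ)
    (hd : ∀ i, s.d i = g i) (hi : ∀ i, g (i + (p - 1)) = g i) (hnP : p ≤ n + 1)
    {η δ : ℝ} (hη : 0 ≤ η) (hδ : 0 < δ)
    (hlow : ∀ x : ℝ, 0 ≤ x → x ≤ n / ((p : ℝ) + 1) →
      ((p : ℝ) + 1) * h * x ^ 2 / 2 - η * (n : ℝ) ^ 2 ≤ Gf (toQ (Um D.toGam n)) x) :
    (∀ x : ℝ, 0 ≤ x → x ≤ n / ((p : ℝ) + 1) →
      |(Nf (toQ s.T) x : ℝ) - (∑ i ∈ range (p - 1), (g i : ℝ)) / (p - 1) * x| ≤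
      h + 2 * (((p : ℝ) + 1) * h * δ) + 2 * (η * n ^ 2 + ((p : ℝ) + 1) * h *
        (((p - 1 : ℕ) : ℝ) * n + ((p - 1 : ℕ) : ℝ) ^ 2)) / δ) ∧
    |((toQ s.εV).rank : ℝ) - (∑ i ∈ range (p - 1), (g i : ℝ)) / (p - 1) * (n / (p + 1))| ≤
      h + 2 * (((p : ℝ) + 1) * h * δ) + 2 * (η * n ^ 2 + ((p : ℝ) + 1) * h *
        (((p - 1 : ℕ) : ℝ) * n + ((p - 1 : ℕ) : ℝ) ^ 2)) / δ := by
  have hp2 : 2 ≤ p := (Fact.out : p.Prime).two_le
  have hP : 0 < p - 1 := by omega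
  have hPr : ((p - 1 : ℕ) : ℝ) = (p : ℝ) - 1 := by rw [Nat.cast_sub (by omega)]; norm_num
  have hPpos : (0 : ℝ) < (p : ℝ) - 1 := by rw [← hPr]; exact_mod_cast hP
  have hp1 : (0 : ℝ) < (p : ℝ) + 1 := by positivity
  have hcE : (Fintype.card E : ℝ) = ((p : ℝ) + 1) * h := by rw [D.cardE]; push_cast; ring
  set g' : ℕ → ℕ := fun i => Fintype.card E - g i with hg'
  have hi' : ∀ i, g' (i + (p - 1)) = g' i := fun i => by simp only [hg', hi]
  have hd' : ∀ i : Fin (n + 1), s.compl.d i = g' i := by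
    intro i
    have h1 := hcompl n s i
    rw [hd i] at h1
    simp only [hg']
    omega
  have hle : ∀ i : ℕ, i < p - 1 → g i ≤ Fintype.card E := by
    intro i hip
    have h1 := hcompl n s ⟨i, by omega⟩
    rw [hd] at h1
    simp only at h1
    omega
  set β : ℝ := (∑ i ∈ range (p - 1), (g i : ℝ)) / (p - 1) with hβ
  set β' : ℝ := (∑ i ∈ range (p - 1), (g' i : ℝ)) / (p - 1) with hβ'
  have hβP : β * ((p - 1 : ℕ) : ℝ) = ∑ i ∈ range (p - 1), (g i : ℝ) := by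
    rw [hβ, hPr, div_mul_cancel₀ _ hPpos.ne']
  have hβP' : β' * ((p - 1 : ℕ) : ℝ) = ∑ i ∈ range (p - 1), (g' i : ℝ) := by
    rw [hβ', hPr, div_mul_cancel₀ _ hPpos.ne']
  have hββ : β + β' = ((p : ℝ) + 1) * h := by
    rw [hβ, hβ', ← add_div, ← Finset.sum_add_distrib, div_eq_iff hPpos.ne']
    have : ∀ i ∈ range (p - 1), ((g i : ℝ) + (g' i : ℝ)) = ((p : ℝ) + 1) * h := by
      intro i hip
      have h1 := hle i (Finset.mem_range.1 hip)
      simp only [hg']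
      rw [Nat.cast_sub h1, ← hcE]; ring
    rw [Finset.sum_congr rfl this, Finset.sum_const, Finset.card_range, nsmul_eq_mul, hPr]
    ring
  have hβ0 : 0 ≤ β := div_nonneg (Finset.sum_nonneg fun i _ => Nat.cast_nonneg _) hPpos.le
  have hβ0' : 0 ≤ β' := div_nonneg (Finset.sum_nonneg fun i _ => Nat.cast_nonneg _) hPpos.le
  have hn0 : (0 : ℝ) ≤ n := Nat.cast_nonneg _
  have hhalf : ∀ x : ℝ, x ≤ n / ((p : ℝ) + 1) → 2 * x ≤ n := by
    intro x hx
    rw [le_div_iff₀ hp1] at hx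
    have : (2 : ℝ) ≤ p := by exact_mod_cast hp2
    by_cases hx0 : 0 ≤ x
    · nlinarith
    · have : x < 0 := not_le.1 hx0
      linarith
  -- upper bounds
  have up : ∀ (t : Summ D n) (f : ℕ → ℕ) (b : ℝ), (∀ i : Fin (n + 1), t.d i = f i) →
      (∀ i, f (i + (p - 1)) = f i) → b * ((p - 1 : ℕ) : ℝ) = ∑ i ∈ range (p - 1), (f i : ℝ) →
      ∀ x : ℝ, 0 ≤ x → x ≤ n / ((p : ℝ) + 1) →
        Pool.Agent.Gouv.GG (p : ℝ) (specM (toQ t.T)) x ≤ b * (x + ((p - 1 : ℕ) : ℝ)) ^ 2 / 2 := by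
    intro t f b ht hf hb x hx0 hx
    have h1 := hhodge n t hn x
    rw [Gf_EV' t hn x (hhalf x hx)] at h1
    have h2 : ∑ i : Fin (n + 1), (t.d i : ℝ) * max 0 (x - ((n : ℝ) - (i : ℕ)))
        = ∑ i ∈ range (n + 1), (f i : ℝ) * max 0 (x - ((n : ℝ) - i)) := by
      rw [← Fin.sum_univ_eq_sum_range (fun i => (f i : ℝ) * max 0 (x - ((n : ℝ) - i)))]
      apply Finset.sum_congr rfl
      intro i _
      rw [ht i]
    rw [h2] at h1
    have h3 := per_sum_le hP hf b hb n x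
    have h4 : fbPhi (x + ((p - 1 : ℕ) : ℝ)) = (x + ((p - 1 : ℕ) : ℝ)) ^ 2 / 2 := by
      unfold fbPhi
      rw [max_eq_right (by positivity)]
    rw [h4] at h3
    have h5 : Pool.Agent.Gouv.GG (p : ℝ) (specM (toQ t.T)) x = Gf (toQ t.T) x := rfl
    rw [h5, mul_div_assoc]
    exact h1.trans h3
  have key := Pool.Agent.Gouv.core (p := (p : ℝ)) (s1 := specM (toQ s.T))
    (s2 := specM (toQ s.compl.T)) (β1 := β) (β2 := β') (q := ((p : ℝ) + 1) * h)
    (P := ((p - 1 : ℕ) : ℝ)) (h := (h : ℝ)) (η := η) (n := (n : ℝ))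
    (r1 := ((toQ s.εV).rank : ℝ)) (r2 := ((toQ s.compl.εV).rank : ℝ)) (δ := δ)
    one_lt_pF hβ0 hβ0' hββ rfl (Nat.cast_nonneg _) hη hn0 (Nat.cast_nonneg _) hδ
    (by exact_mod_cast fb_rank_add s)
    (fun x => by
      rw [← Nf_eq_cnt]
      exact_mod_cast fb_Nf_le s x)
    (fun x => by
      rw [← Nf_eq_cnt]
      exact_mod_cast fb_Nf_le s.compl x)
    (up s g β hd hi hβP)
    (up s.compl g' β' hd' hi' hβP')
    (fun x hx0 hx => by
      have h1 := hlow x hx0 hx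
      rw [Gf_compl s hn x, Gf_EV' s hn x (hhalf x hx), Gf_EV' s.compl hn x (hhalf x hx)] at h1
      exact h1)
  refine ⟨fun x hx0 hx => ?_, key.2⟩
  have := key.1 x hx0 hx
  rw [← Nf_eq_cnt] at this
  exact this

open Classical in
/-- `few_bad` from its inputs. -/
theorem few_bad_of (D : Dat p h E V) (hexc : FewExcStat D) (hhodge : HodgeStat D)
    (hcompl : DComplStat D) (s : ∀ n, Even n → Summ D n)
    (dd : ℕ → ℕ → ℕ) (hd : ∀ n hn i, (s n hn).d i = dd n i)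
    (hi : ∀ n i, dd n (i + (p - 1)) = dd n i)
    (η ε : ℝ) (hη : 0 < η) (hε : 0 < ε) :
    ∃ N0 : ℕ, ∀ N ≥ N0, (((range N).filter fun n : ℕ => ∃ hn : Even n,
      ¬ ((∀ x : ℝ, 0 ≤ x → x * (p + 1) ≤ n →
          |(Nf (toQ (s n hn).T) x : ℝ) - dens p dd n * x| ≤ η * n) ∧
        |((toQ (s n hn).εV).rank : ℝ) - dens p dd n * (n / (p + 1))| ≤ η * n)).card : ℝ) ≤
      ε * N := by
  have hp1 : (0 : ℝ) < (p : ℝ) + 1 := by positivity
  set q : ℝ := ((p : ℝ) + 1) * h with hq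
  have hq0 : 0 ≤ q := by positivity
  set δ0 : ℝ := η / (8 * (q + 1)) with hδ0
  have hδ0p : 0 < δ0 := by positivity
  have hδ0q : 2 * (q * δ0) ≤ η / 4 := by
    rw [hδ0]
    have : 2 * (q * (η / (8 * (q + 1)))) = η / 4 * (q / (q + 1)) := by field_simp; ring
    rw [this]
    have h1 : q / (q + 1) ≤ 1 := by rw [div_le_one (by positivity)]; linarith
    nlinarith
  set η' : ℝ := δ0 * η / 8 with hη'
  have hη'p : 0 < η' := by positivity
  set P : ℝ := ((p - 1 : ℕ) : ℝ) with hP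
  have hP0 : 0 ≤ P := Nat.cast_nonneg _
  -- the threshold
  obtain ⟨n1, hn1⟩ : ∃ n1 : ℕ,
      max (((h : ℝ) + 2 * (q * (P + P ^ 2)) / δ0) / (η / 2)) ((p : ℝ) + 1) < n1 :=
    exists_nat_gt _
  obtain ⟨N1, hN1⟩ := hexc η' (ε / 2) hη'p (by positivity)
  obtain ⟨N2, hN2⟩ := exists_nat_gt (2 * (n1 : ℝ) / ε)
  refine ⟨max N1 N2, fun N hN => ?_⟩
  have hNN1 := hN1 N (le_of_max_le_left hN)
  have hNN2 : 2 * (n1 : ℝ) / ε ≤ N := by
    have : (N2 : ℝ) ≤ N := by exact_mod_cast le_of_max_le_right hN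
    linarith
  -- inclusion
  have hsub : ((range N).filter fun n : ℕ => ∃ hn : Even n,
      ¬ ((∀ x : ℝ, 0 ≤ x → x * (p + 1) ≤ n →
          |(Nf (toQ (s n hn).T) x : ℝ) - dens p dd n * x| ≤ η * n) ∧
        |((toQ (s n hn).εV).rank : ℝ) - dens p dd n * (n / (p + 1))| ≤ η * n)) ⊆
      range n1 ∪ ((range N).filter fun n : ℕ => Even n ∧ ∃ x : ℝ, 0 ≤ x ∧
      x * (p + 1) ≤ n ∧ Gf (toQ (Um D.toGam n)) x <
        ((p : ℝ) + 1) * h * x ^ 2 / 2 - η' * (n : ℝ) ^ 2) := by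
    intro n hn
    obtain ⟨hnN, hne, hbad⟩ := Finset.mem_filter.1 hn
    rw [Finset.mem_union, Finset.mem_filter, Finset.mem_range]
    by_cases hnn : n < n1
    · exact Or.inl hnn
    right
    refine ⟨hnN, hne, ?_⟩
    by_contra hcon
    push Not at hcon
    apply hbad
    have hnr : (n1 : ℝ) ≤ n := by exact_mod_cast not_lt.1 hnn
    have hnbig1 : (h + 2 * (q * (P + P ^ 2)) / δ0) / (η / 2) ≤ n :=
      ((le_max_left _ _).trans hn1.le).trans hnr
    have hnbig2 : (p : ℝ) + 1 ≤ n := ((le_max_right _ _).trans hn1.le).trans hnr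
    have hn0 : (0 : ℝ) < n := by linarith
    have hn1' : (1 : ℝ) ≤ n := by linarith [(Nat.cast_nonneg p : (0 : ℝ) ≤ p)]
    rw [div_le_iff₀ (by positivity)] at hnbig1
    have hδn : 0 < δ0 * n := by positivity
    have key := fb_one (D := D) hhodge hcompl hne (s n hne) (dd n) (hd n hne) (hi n)
      (by
        have : p + 1 ≤ n := by exact_mod_cast hnbig2
        omega) hη'p.le hδn
      (fun x hx0 hx => hcon x hx0 (by rwa [le_div_iff₀ hp1] at hx))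
    have herr : h + 2 * (((p : ℝ) + 1) * h * (δ0 * n)) + 2 * (η' * n ^ 2 + ((p : ℝ) + 1) * h *
        (((p - 1 : ℕ) : ℝ) * n + ((p - 1 : ℕ) : ℝ) ^ 2)) / (δ0 * n) ≤ η * n := by
      rw [← hq, ← hP]
      have e1 : 2 * (η' * (n : ℝ) ^ 2 + q * (P * n + P ^ 2)) / (δ0 * n)
          = η / 4 * n + 2 * (q * (P + P ^ 2 / n)) / δ0 := by
        rw [hη']; field_simp; ring
      have e2 : P ^ 2 / (n : ℝ) ≤ P ^ 2 := div_le_self (by positivity) hn1'
      have e3 : 2 * (q * (P + P ^ 2 / n)) / δ0 ≤ 2 * (q * (P + P ^ 2)) / δ0 := by gcongr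
      have e4 : 2 * (q * (δ0 * n)) ≤ η / 4 * n := by
        have : 2 * (q * (δ0 * n)) = 2 * (q * δ0) * n := by ring
        rw [this]
        exact mul_le_mul_of_nonneg_right hδ0q hn0.le
      rw [e1]
      linarith
    refine ⟨fun x hx0 hx => ?_, ?_⟩
    · have := key.1 x hx0 (by rw [le_div_iff₀ hp1]; exact hx)
      exact this.trans herr
    · exact key.2.trans herr
  have h1 := Finset.card_le_card hsub
  have h2 := h1.trans (Finset.card_union_le _ _)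
  rw [Finset.card_range] at h2
  have h3 : (((range N).filter fun n : ℕ => ∃ hn : Even n,
      ¬ ((∀ x : ℝ, 0 ≤ x → x * (p + 1) ≤ n →
          |(Nf (toQ (s n hn).T) x : ℝ) - dens p dd n * x| ≤ η * n) ∧
        |((toQ (s n hn).εV).rank : ℝ) - dens p dd n * (n / (p + 1))| ≤ η * n)).card : ℝ) ≤
      n1 + (((range N).filter fun n : ℕ => Even n ∧ ∃ x : ℝ, 0 ≤ x ∧
      x * (p + 1) ≤ n ∧ Gf (toQ (Um D.toGam n)) x <
        ((p : ℝ) + 1) * h * x ^ 2 / 2 - η' * (n : ℝ) ^ 2).card : ℝ) := by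
    exact_mod_cast h2
  have h4 : (n1 : ℝ) ≤ ε / 2 * N := by
    rw [div_le_iff₀ hε] at hNN2
    linarith
  linarith

end Gouvea
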