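import Mathlib

/-!
# Idempotents defined by an ideal (MP_d3517d_nt)

`R` is a commutative ring acting on a finite ring `S`; an ideal `I` of `R` contains an element `t`
with idempotent image `f` such that `(1 - f) u` is nilpotent for all `u ∈ I`.  If `R` acts by
matrices over `ℤ_p` and the image of `t` is idempotent modulo `p` then a sequence of elements of
the ideal converges to an idempotent.
-/

open Filter Topology Finset

noncomputable section

namespace Pool.Agent.Gouv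

/-- In a finite monoid every element has an idempotent power. -/
theorem idem_pow {S : Type*} [Monoid S] [Finite S] (x : S) :
    ∃ m, 0 < m ∧ x ^ m * x ^ m = x ^ m := by
  obtain ⟨a, b, hab, hne⟩ : ∃ a b : ℕ, a < b ∧ x ^ a = x ^ b := by
    obtain ⟨a, b, hne, h⟩ := Finite.exists_ne_map_eq_of_infinite fun n : ℕ => x ^ n
    rcases lt_or_gt_of_ne hne with h1 | h1
    · exact ⟨a, b, h1, h⟩
    · exact ⟨b, a, h1, h.symm⟩
  have h1 : ∀ k n, a ≤ n → x ^ (n + k * (b - a)) = x ^ n := by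
    intro k n hn
    induction k with
    | zero => simp
    | succ k ih =>
      have e1 : n + (k + 1) * (b - a) = b + (n - a + k * (b - a)) := by
        rw [Nat.succ_mul]
        omega
      have e2 : n + k * (b - a) = a + (n - a + k * (b - a)) := by omega
      rw [e1, pow_add, ← hne, ← pow_add, ← e2, ih]
  refine ⟨(a + 1) * (b - a), Nat.mul_pos (by omega) (by omega), ?_⟩
  rw [← pow_add]
  apply h1
  calc a ≤ (a + 1) * 1 := by omega
    _ ≤ (a + 1) * (b - a) := Nat.mul_le_mul_left _ (by omega)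

/-- The large idempotent of an ideal. -/
theorem exists_big {R S : Type*} [CommRing R] [Ring S] [Finite S] (φ : R →+* S) (I : Ideal R) :
    ∃ t ∈ I, φ t * φ t = φ t ∧ ∀ u ∈ I, ∃ k, 0 < k ∧ φ u ^ k * (1 - φ t) = 0 := by
  classical
  set A : Set S := {f | ∃ t ∈ I, φ t = f ∧ f * f = f} with hA
  obtain ⟨f, ⟨t, ht, htf, hff⟩, hmax⟩ := Set.exists_max_image A
    (fun f => Nat.card {x : S | f * x = x}) (Set.toFinite _)
    ⟨0, 0, I.zero_mem, by simp, by simp⟩
  refine ⟨t, ht, by rw [htf, hff], fun u hu => ?_⟩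
  obtain ⟨m, hm, hg⟩ := idem_pow (φ u)
  refine ⟨m, hm, ?_⟩
  set g := φ u ^ m with hgdef
  have hcomm : f * g = g * f := by
    rw [hgdef, ← htf, ← map_pow, ← map_mul, ← map_mul, mul_comm]
  set f' := f + g - f * g with hf'
  have h1 : f' * f = f := by
    rw [hf', sub_mul, add_mul, hff, mul_assoc, ← hcomm, ← mul_assoc, hff]
    abel
  have h2 : f * f' = f := by
    rw [hf', mul_sub, mul_add, hff, ← mul_assoc, hff]
    abel
  have h3 : g * f' = g := by
    rw [hf', mul_sub, mul_add, hg, ← mul_assoc, ← hcomm, mul_assoc, hg]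
    abel
  have hA' : f' ∈ A := by
    refine ⟨t + u ^ m - t * u ^ m, ?_, ?_, ?_⟩
    · exact I.sub_mem (I.add_mem ht (I.pow_mem_of_mem hu m hm)) (I.mul_mem_right _ ht)
    · rw [map_sub, map_add, map_mul, map_pow, htf]
    · nth_rewrite 1 [hf']
      rw [sub_mul, add_mul, h2, h3, mul_assoc, h3]
  have h4 := hmax f' hA'
  have hsub : {x : S | f * x = x} ⊆ {x : S | f' * x = x} := by
    intro x hx
    have hx' : f * x = x := hx
    change f' * x = x
    nth_rewrite 1 [← hx']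
    rw [← mul_assoc, h1, hx']
  have heq : {x : S | f * x = x} = {x : S | f' * x = x} := by
    apply Set.eq_of_subset_of_ncard_le hsub
    · exact h4
  have hmem : f' ∈ {x : S | f * x = x} := by
    rw [heq]
    change f' * f' = f'
    nth_rewrite 1 [hf']
    rw [sub_mul, add_mul, h2, h3, mul_assoc, h3]
  have h5 : f' = f := by
    have h6 : f * f' = f' := hmem
    rw [← h6, h2]
  have h6 : g * f = g := by
    rw [← h5]
    exact h3
  rw [htf, mul_sub, mul_one, h6, sub_self]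

/-- The iteration `x ↦ 3 x ^ 2 - 2 x ^ 3`. -/
def tt {R : Type*} [CommRing R] (t : R) : ℕ → R
  | 0 => t
  | k + 1 => 3 * tt t k ^ 2 - 2 * tt t k ^ 3

theorem tt_mem {R : Type*} [CommRing R] {I : Ideal R} {t : R} (ht : t ∈ I) (k : ℕ) :
    tt t k ∈ I := by
  induction k with
  | zero => exact ht
  | succ k ih =>
    exact I.sub_mem (I.mul_mem_left _ (I.pow_mem_of_mem ih 2 (by norm_num)))
      (I.mul_mem_left _ (I.pow_mem_of_mem ih 3 (by norm_num)))

theorem tt_sq {R : Type*} [CommRing R] (t : R) (k : ℕ) :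
    ∃ y, tt t k ^ 2 - tt t k = (t ^ 2 - t) ^ (k + 1) * y := by
  induction k with
  | zero => exact ⟨1, by simp [tt]⟩
  | succ k ih =>
    obtain ⟨y, hy⟩ := ih
    refine ⟨(t ^ 2 - t) ^ k * y ^ 2 * (4 * (tt t k ^ 2 - tt t k) - 3), ?_⟩
    have h1 : tt t (k + 1) ^ 2 - tt t (k + 1) =
        (tt t k ^ 2 - tt t k) ^ 2 * (4 * (tt t k ^ 2 - tt t k) - 3) := by
      rw [tt]
      ring
    rw [h1]
    nth_rewrite 1 [hy]
    ring

theorem tt_sub {R : Type*} [CommRing R] (t : R) (k : ℕ) :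
    ∃ y, tt t (k + 1) - tt t k = (t ^ 2 - t) ^ (k + 1) * y := by
  obtain ⟨y, hy⟩ := tt_sq t k
  refine ⟨y * (1 - 2 * tt t k), ?_⟩
  rw [← mul_assoc, ← hy, tt]
  ring

section limit

variable {p : ℕ} [Fact p.Prime] {ι : Type*} [Fintype ι] [DecidableEq ι]

omit [Fintype ι] [DecidableEq ι] in
theorem dvd_of_map_eq {κ : Type*} {A B : Matrix κ ι ℤ_[p]}
    (h : A.map PadicInt.toZMod = B.map PadicInt.toZMod) (i : κ) (j : ι) :
    (p : ℤ_[p]) ∣ A i j - B i j := by
  have h1 := congrFun (congrFun h i) j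
  simp only [Matrix.map_apply] at h1
  have h2 : A i j - B i j ∈ RingHom.ker (PadicInt.toZMod (p := p)) := by
    rw [RingHom.mem_ker, map_sub, h1, sub_self]
  rw [PadicInt.ker_toZMod, PadicInt.maximalIdeal_eq_span_p, Ideal.mem_span_singleton] at h2
  exact h2

omit [Fintype ι] [DecidableEq ι] in
theorem map_eq_of_dvd {κ : Type*} {A B : Matrix κ ι ℤ_[p]}
    (h : ∀ i j, (p : ℤ_[p]) ∣ A i j - B i j) :
    A.map PadicInt.toZMod = B.map PadicInt.toZMod := by
  ext i j
  simp only [Matrix.map_apply]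
  have h2 : A i j - B i j ∈ RingHom.ker (PadicInt.toZMod (p := p)) := by
    rw [PadicInt.ker_toZMod, PadicInt.maximalIdeal_eq_span_p, Ideal.mem_span_singleton]
    exact h i j
  rw [RingHom.mem_ker, map_sub, sub_eq_zero] at h2
  exact h2

theorem pow_dvd_entries {A : Matrix ι ι ℤ_[p]} (h : ∀ i j, (p : ℤ_[p]) ∣ A i j) (k : ℕ) :
    ∀ i j, (p : ℤ_[p]) ^ k ∣ (A ^ k) i j := by
  induction k with
  | zero => intro i j; simp
  | succ k ih =>
    intro i j
    have e1 : (A ^ (k + 1)) i j = ∑ l, (A ^ k) i l * A l j := by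
      rw [pow_succ A k, Matrix.mul_apply]
    rw [e1, pow_succ]
    exact Finset.dvd_sum fun l _ => mul_dvd_mul (ih i l) (h l j)

/-- The limit idempotent. -/
theorem exists_limit {R : Type*} [CommRing R] (Φ : R →+* Matrix ι ι ℤ_[p]) (t : R)
    (ht : (Φ t * Φ t).map PadicInt.toZMod = (Φ t).map PadicInt.toZMod) :
    ∃ e : Matrix ι ι ℤ_[p], Tendsto (fun k => Φ (tt t k)) atTop (𝓝 e) ∧ e * e = e ∧
      e.map PadicInt.toZMod = (Φ t).map PadicInt.toZMod := by
  have hdvd : ∀ i j, (p : ℤ_[p]) ∣ (Φ (t ^ 2 - t)) i j := by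
    intro i j
    rw [map_sub, map_pow, pow_two, Matrix.sub_apply]
    exact dvd_of_map_eq ht i j
  have hstep : ∀ (k : ℕ) (y : R) i j,
      ‖(Φ ((t ^ 2 - t) ^ (k + 1) * y)) i j‖ ≤ (p : ℝ)⁻¹ ^ (k + 1) := by
    intro k y i j
    rw [map_mul, map_pow, Matrix.mul_apply]
    have h1 : (p : ℤ_[p]) ^ (k + 1) ∣ ∑ l, (Φ (t ^ 2 - t) ^ (k + 1)) i l * (Φ y) l j :=
      Finset.dvd_sum fun l _ => Dvd.dvd.mul_right (pow_dvd_entries hdvd (k + 1) i l) _
    obtain ⟨z, hz⟩ := h1
    rw [hz, norm_mul, norm_pow, PadicInt.norm_p]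
    calc ((p : ℝ)⁻¹) ^ (k + 1) * ‖z‖ ≤ ((p : ℝ)⁻¹) ^ (k + 1) * 1 :=
          mul_le_mul_of_nonneg_left (PadicInt.norm_le_one z) (by positivity)
      _ = _ := mul_one _
  have hp1 : (p : ℝ)⁻¹ < 1 := by
    apply inv_lt_one_of_one_lt₀
    exact_mod_cast (Fact.out : p.Prime).one_lt
  have hcau : ∀ i j, ∃ z : ℤ_[p], Tendsto (fun k => (Φ (tt t k)) i j) atTop (𝓝 z) := by
    intro i j
    apply cauchySeq_tendsto_of_complete
    apply cauchySeq_of_le_geometric (p : ℝ)⁻¹ (p : ℝ)⁻¹ hp1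
    intro k
    obtain ⟨y, hy⟩ := tt_sub t k
    have h1 := hstep k y i j
    rw [← hy, map_sub, Matrix.sub_apply] at h1
    rw [dist_comm, dist_eq_norm]
    calc _ ≤ (p : ℝ)⁻¹ ^ (k + 1) := h1
      _ = (p : ℝ)⁻¹ * (p : ℝ)⁻¹ ^ k := by rw [pow_succ']
  choose e he using hcau
  have hlim : Tendsto (fun k => Φ (tt t k)) atTop (𝓝 (Matrix.of e)) := by
    apply tendsto_pi_nhds.2
    intro i
    apply tendsto_pi_nhds.2
    intro j
    exact he i j
  refine ⟨Matrix.of e, hlim, ?_, ?_⟩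
  · have h1 : Tendsto (fun k => Φ (tt t k) * Φ (tt t k)) atTop
        (𝓝 (Matrix.of e * Matrix.of e)) := hlim.mul hlim
    have h2 : Tendsto (fun k => Φ (tt t k) * Φ (tt t k) - Φ (tt t k)) atTop (𝓝 0) := by
      apply tendsto_pi_nhds.2
      intro i
      apply tendsto_pi_nhds.2
      intro j
      have h3 : Tendsto (fun k : ℕ => (p : ℝ)⁻¹ ^ (k + 1)) atTop (𝓝 0) :=
        (tendsto_pow_atTop_nhds_zero_of_lt_one (by positivity) hp1).comp (tendsto_add_atTop_nat 1)
      apply squeeze_zero_norm _ h3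
      intro k
      obtain ⟨y, hy⟩ := tt_sq t k
      have h4 := hstep k y i j
      rw [← hy, map_sub, map_pow, pow_two] at h4
      exact h4
    have h3 := h1.sub hlim
    have h4 := tendsto_nhds_unique h3 h2
    exact sub_eq_zero.1 h4
  · apply map_eq_of_dvd
    intro i j
    rw [← PadicInt.norm_lt_one_iff_dvd]
    have h1 : ∀ k, ‖(Φ (tt t k)) i j - (Φ t) i j‖ ≤ (p : ℝ)⁻¹ := by
      intro k
      induction k with
      | zero => simp [tt]
      | succ k ih =>
        obtain ⟨y, hy⟩ := tt_sub t k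
        have h2 := hstep k y i j
        rw [← hy, map_sub, Matrix.sub_apply] at h2
        have h3 : (p : ℝ)⁻¹ ^ (k + 1) ≤ (p : ℝ)⁻¹ := by
          calc (p : ℝ)⁻¹ ^ (k + 1) ≤ (p : ℝ)⁻¹ ^ 1 :=
                pow_le_pow_of_le_one (by positivity) hp1.le (by omega)
            _ = _ := pow_one _
        have e1 : (Φ (tt t (k + 1))) i j - (Φ t) i j =
            ((Φ (tt t (k + 1))) i j - (Φ (tt t k)) i j) + ((Φ (tt t k)) i j - (Φ t) i j) := by
          ring
        rw [e1]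
        exact (PadicInt.nonarchimedean _ _).trans (max_le (h2.trans h3) ih)
    have h2 : ‖e i j - (Φ t) i j‖ ≤ (p : ℝ)⁻¹ :=
      le_of_tendsto ((he i j).sub_const _).norm (Eventually.of_forall h1)
    exact h2.trans_lt hp1

end limit

end Pool.Agent.Gouv
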