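import Pool.Agent.Work.MP_d3517d_nt.HRep
import Pool.Agent.Work.MP_d3517d_nt.IdemA

/-!
# Ideals and idempotents (MP_d3517d_nt, M16)
-/

open Finset Filter Topology Pool.Agent.Gouv

noncomputable section

namespace Gouvea

variable {p : ℕ} [Fact p.Prime] {h : ℕ} {E V : Type} [Fintype E] [DecidableEq E] [Fintype V]
  [DecidableEq V] {D : Dat p h E V} {R : Type} [CommRing R]

/-- The part of a graded piece on which the ideal acts by nilpotent operators. -/
def idNil (H : HRep D R) (I : Ideal R) (n i : ℕ) : Submodule (ZMod p) (E → ZMod p) where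
  carrier := {v | ∀ t ∈ I, ∃ k, ((H.gr n i t) ^ k).mulVec v = 0}
  add_mem' := by
    intro v w hv hw t ht
    obtain ⟨k, hk⟩ := hv t ht
    obtain ⟨l, hl⟩ := hw t ht
    refine ⟨k + l, ?_⟩
    rw [Matrix.mulVec_add]
    nth_rewrite 1 [add_comm k l]
    rw [pow_add, ← Matrix.mulVec_mulVec, hk, pow_add, ← Matrix.mulVec_mulVec, hl]
    simp
  zero_mem' := fun t _ => ⟨0, by simp⟩
  smul_mem' := by
    intro a v hv t ht
    obtain ⟨k, hk⟩ := hv t ht
    exact ⟨k, by rw [Matrix.mulVec_smul, hk, smul_zero]⟩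

/-- The graded pieces of a representation. -/
def grHom (H : HRep D R) (n : ℕ) (hn : Even n) (i : Fin (n + 1)) :
    R →+* Matrix E E (ZMod p) where
  toFun t := H.gr n i t
  map_one' := by
    ext e e'
    rw [← H.gr_eq n hn, map_one]
    by_cases he : e = e'
    · subst he
      simp
    · rw [Matrix.one_apply_ne he, Matrix.one_apply_ne (by simpa using he), map_zero]
  map_zero' := by
    ext e e'
    rw [← H.gr_eq n hn, map_zero]
    simp
  map_add' s t := by
    ext e e'
    rw [← H.gr_eq n hn, map_add, Matrix.add_apply, Matrix.add_apply, map_add, H.gr_eq, H.gr_eq]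
  map_mul' s t := by
    ext e e'
    rw [← H.gr_eq n hn, map_mul, Matrix.mul_apply, Matrix.mul_apply, map_sum,
      Fintype.sum_prod_type]
    apply Finset.sum_congr rfl
    intro e'' _
    rw [Finset.sum_eq_single i]
    · rw [map_mul, H.gr_eq, H.gr_eq]
    · intro j _ hj
      have hz : ∀ (u : R) (x y : E × Fin (n + 1)), y.2 < x.2 →
          PadicInt.toZMod (H.TE n hn u x y) = 0 := by
        intro u x y hxy
        have h1 := H.tri n hn u x y hxy
        rw [← RingHom.mem_ker, PadicInt.ker_toZMod, PadicInt.maximalIdeal_eq_span_p,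
          Ideal.mem_span_singleton]
        exact h1
      rw [map_mul]
      rcases lt_or_gt_of_ne hj with h1 | h1
      · rw [hz s (e, i) (e'', j) h1, zero_mul]
      · rw [hz t (e'', j) (e', i) h1, mul_zero]
    · intro hi
      exact absurd (Finset.mem_univ i) hi

theorem grHom_apply (H : HRep D R) (n : ℕ) (hn : Even n) (i : Fin (n + 1)) (t : R) :
    grHom H n hn i t = H.gr n i t := rfl

theorem norm_mulVec_le {κ : Type} [Fintype κ] {M : Matrix κ κ ℤ_[p]} {c : ℝ} (hc : 0 ≤ c)
    (hM : ∀ i j, ‖M i j‖ ≤ c) (v : κ → ℚ_[p]) : ‖(toQ M).mulVec v‖ ≤ c * ‖v‖ := by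
  rw [pi_norm_le_iff_of_nonneg (by positivity)]
  intro i
  rw [Matrix.mulVec, dotProduct]
  apply IsUltrametricDist.norm_sum_le_of_forall_le_of_nonneg (by positivity)
  intro j _
  rw [norm_mul]
  have h1 : ‖toQ M i j‖ ≤ c := by
    have h2 := hM i j
    simpa [toQ] using h2
  exact mul_le_mul h1 (norm_le_pi_norm v j) (norm_nonneg _) hc

theorem norm_mulVec_le_one {κ : Type} [Fintype κ] (M : Matrix κ κ ℤ_[p]) (v : κ → ℚ_[p]) :
    ‖(toQ M).mulVec v‖ ≤ ‖v‖ := by
  simpa using norm_mulVec_le zero_le_one (fun i j => PadicInt.norm_le_one (M i j)) v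

theorem norm_mulVec_le_inv {κ : Type} [Fintype κ] {M : Matrix κ κ ℤ_[p]}
    (hM : M.map PadicInt.toZMod = 0) (v : κ → ℚ_[p]) :
    ‖(toQ M).mulVec v‖ ≤ (p : ℝ)⁻¹ * ‖v‖ := by
  apply norm_mulVec_le (by positivity)
  intro i j
  have h1 : PadicInt.toZMod (M i j) = 0 := by
    have := congrFun (congrFun hM i) j
    simpa using this
  rw [← RingHom.mem_ker, PadicInt.ker_toZMod, PadicInt.maximalIdeal_eq_span_p,
    Ideal.mem_span_singleton] at h1
  obtain ⟨z, hz⟩ := h1
  rw [hz, norm_mul, PadicInt.norm_p]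
  calc (p : ℝ)⁻¹ * ‖z‖ ≤ (p : ℝ)⁻¹ * 1 :=
        mul_le_mul_of_nonneg_left (PadicInt.norm_le_one z) (by positivity)
    _ = _ := mul_one _

theorem inv_le_half : (p : ℝ)⁻¹ ≤ 1 / 2 := by
  have h1 : (2 : ℝ) ≤ p := by exact_mod_cast (Fact.out : p.Prime).two_le
  rw [inv_eq_one_div]
  exact one_div_le_one_div_of_le (by norm_num) h1

theorem toQ_mul_idem {ι κ l : Type} [Fintype κ] (A : Matrix ι κ ℤ_[p]) (B : Matrix κ l ℤ_[p]) :
    toQ (A * B) = toQ A * toQ B := Matrix.map_mul

theorem toQ_pow {κ : Type} [Fintype κ] [DecidableEq κ] (A : Matrix κ κ ℤ_[p]) (N : ℕ) :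
    toQ (A ^ N) = toQ A ^ N := by
  exact map_pow (RingHom.mapMatrix (algebraMap ℤ_[p] ℚ_[p])) A N

/-- Vectors killed by the limit idempotent. -/
theorem tendsto_iff {κ : Type} [Fintype κ] [DecidableEq κ] {I : Ideal R}
    (Φ : R →+* Matrix κ κ ℤ_[p]) {t : R} (ht : t ∈ I) {e : Matrix κ κ ℤ_[p]}
    (he : e * e = e) (het : e.map PadicInt.toZMod = (Φ t).map PadicInt.toZMod)
    (hcomm : ∀ u, e * Φ u = Φ u * e)
    (hbig : ∀ u ∈ I, ∃ k, 0 < k ∧ (Φ u ^ k * (1 - Φ t)).map PadicInt.toZMod = 0)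
    (v : κ → ℚ_[p]) :
    (∀ u ∈ I, ∀ i, Tendsto (fun N : ℕ => ((toQ (Φ u)) ^ N).mulVec v i) atTop (𝓝 0)) ↔
      (toQ (1 - e)).mulVec v = v := by
  have hQ1 : toQ (1 - e) = 1 - toQ e := by
    have := map_sub (RingHom.mapMatrix (algebraMap ℤ_[p] ℚ_[p])) 1 e
    rw [map_one] at this
    exact this
  have hiff : (toQ (1 - e)).mulVec v = v ↔ (toQ e).mulVec v = 0 := by
    rw [hQ1, Matrix.sub_mulVec, Matrix.one_mulVec]
    exact sub_eq_self
  have hmapmul : ∀ A B : Matrix κ κ ℤ_[p], (A * B).map PadicInt.toZMod =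
      A.map PadicInt.toZMod * B.map PadicInt.toZMod := fun A B =>
    map_mul (RingHom.mapMatrix (PadicInt.toZMod (p := p))) A B
  have hmapsub : ∀ A B : Matrix κ κ ℤ_[p], (A - B).map PadicInt.toZMod =
      A.map PadicInt.toZMod - B.map PadicInt.toZMod := fun A B =>
    map_sub (RingHom.mapMatrix (PadicInt.toZMod (p := p))) A B
  have hmapone : (1 : Matrix κ κ ℤ_[p]).map PadicInt.toZMod = 1 :=
    map_one (RingHom.mapMatrix (PadicInt.toZMod (p := p)))
  rw [hiff]
  constructor
  · intro hv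
    have hv' : Tendsto (fun N : ℕ => ‖((toQ (Φ t)) ^ N).mulVec v‖) atTop (𝓝 0) := by
      rw [tendsto_zero_iff_norm_tendsto_zero.symm]
      exact tendsto_pi_nhds.2 fun i => hv t ht i
    set w := (toQ e).mulVec v with hw
    have hew : (toQ e).mulVec w = w := by
      rw [hw, Matrix.mulVec_mulVec, ← toQ_mul_idem, he]
    have h1 : ∀ N : ℕ, ‖w‖ ≤ ‖((toQ (Φ t)) ^ N).mulVec v‖ + 1 / 2 * ‖w‖ := by
      intro N
      have h2 : (Φ t ^ N * e - e).map PadicInt.toZMod = 0 := by
        have h3 : ∀ N : ℕ, (Φ t ^ N * e).map PadicInt.toZMod = e.map PadicInt.toZMod := by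
          intro N
          induction N with
          | zero => simp
          | succ N ih =>
            rw [pow_succ', mul_assoc, hmapmul, ih, ← het, ← hmapmul, he]
        rw [hmapsub, h3, sub_self]
      have h4 := norm_mulVec_le_inv h2 w
      have h5 : (toQ (Φ t ^ N * e - e)).mulVec w = ((toQ (Φ t)) ^ N).mulVec w - w := by
        have h6 : toQ (Φ t ^ N * e - e) = toQ (Φ t ^ N * e) - toQ e :=
          map_sub (RingHom.mapMatrix (algebraMap ℤ_[p] ℚ_[p])) _ _
        rw [h6, Matrix.sub_mulVec, hew, toQ_mul_idem, ← Matrix.mulVec_mulVec, hew, toQ_pow]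
      have h7 : ((toQ (Φ t)) ^ N).mulVec w = (toQ e).mulVec (((toQ (Φ t)) ^ N).mulVec v) := by
        have h8 : ∀ N : ℕ, e * Φ t ^ N = Φ t ^ N * e := by
          intro N
          rw [← map_pow]
          exact hcomm _
        rw [hw, Matrix.mulVec_mulVec, Matrix.mulVec_mulVec, ← toQ_pow, ← toQ_mul_idem, ← toQ_mul_idem, h8]
      have h9 : ‖((toQ (Φ t)) ^ N).mulVec w‖ ≤ ‖((toQ (Φ t)) ^ N).mulVec v‖ := by
        rw [h7]
        exact norm_mulVec_le_one _ _
      rw [h5] at h4
      have h10 : ‖w‖ ≤ ‖((toQ (Φ t)) ^ N).mulVec w‖ + ‖((toQ (Φ t)) ^ N).mulVec w - w‖ := by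
        have := norm_sub_le (((toQ (Φ t)) ^ N).mulVec w) (((toQ (Φ t)) ^ N).mulVec w - w)
        simpa using this
      have h11 := mul_le_mul_of_nonneg_right (inv_le_half (p := p)) (norm_nonneg w)
      linarith
    have h2 : Tendsto (fun N : ℕ => ‖((toQ (Φ t)) ^ N).mulVec v‖ + 1 / 2 * ‖w‖) atTop
        (𝓝 (0 + 1 / 2 * ‖w‖)) := hv'.add_const _
    have h3 := ge_of_tendsto h2 (Eventually.of_forall h1)
    have h4 : ‖w‖ ≤ 0 := by linarith
    exact norm_le_zero_iff.1 h4
  · intro hv u hu i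
    obtain ⟨k, hk, hk'⟩ := hbig u hu
    have hC : (Φ u ^ k * (1 - e)).map PadicInt.toZMod = 0 := by
      rw [hmapmul, hmapsub, het, ← hmapsub, ← hmapmul]
      exact hk'
    have hzero : ∀ N : ℕ, (toQ e).mulVec (((toQ (Φ u)) ^ N).mulVec v) = 0 := by
      intro N
      have h8 : e * Φ u ^ N = Φ u ^ N * e := by
        rw [← map_pow]
        exact hcomm _
      rw [Matrix.mulVec_mulVec, ← toQ_pow, ← toQ_mul_idem, h8, toQ_mul_idem, ← Matrix.mulVec_mulVec, hv,
        Matrix.mulVec_zero]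
    set a : ℕ → ℝ := fun N => ‖((toQ (Φ u)) ^ N).mulVec v‖ with ha
    have hanti : Antitone a := by
      apply antitone_nat_of_succ_le
      intro N
      rw [ha]
      simp only
      rw [pow_succ', ← Matrix.mulVec_mulVec]
      exact norm_mulVec_le_one _ _
    have hstep : ∀ N, a (N + k) ≤ 1 / 2 * a N := by
      intro N
      have h1 := norm_mulVec_le_inv hC (((toQ (Φ u)) ^ N).mulVec v)
      have h2 : (toQ (Φ u ^ k * (1 - e))).mulVec (((toQ (Φ u)) ^ N).mulVec v) =
          ((toQ (Φ u)) ^ (N + k)).mulVec v := by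
        rw [toQ_mul_idem, ← Matrix.mulVec_mulVec, hQ1, Matrix.sub_mulVec, hzero, sub_zero,
          Matrix.one_mulVec, toQ_pow, Matrix.mulVec_mulVec, ← pow_add, add_comm]
      rw [h2] at h1
      have h3 := mul_le_mul_of_nonneg_right (inv_le_half (p := p))
        (norm_nonneg (((toQ (Φ u)) ^ N).mulVec v))
      exact h1.trans h3
    have hbdd : BddBelow (Set.range a) := ⟨0, by rintro _ ⟨N, rfl⟩; exact norm_nonneg _⟩
    have h1 := tendsto_atTop_ciInf hanti hbdd
    have h2 := h1.comp (tendsto_add_atTop_nat k)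
    have h3 : (⨅ i, a i) ≤ 1 / 2 * ⨅ i, a i :=
      le_of_tendsto_of_tendsto' h2 (h1.const_mul (1 / 2)) hstep
    have h4 : 0 ≤ ⨅ i, a i := le_ciInf fun N => norm_nonneg _
    have h5 : (⨅ i, a i) = 0 := le_antisymm (by linarith) h4
    rw [h5] at h1
    apply squeeze_zero_norm _ h1
    intro N
    exact norm_le_pi_norm _ i

theorem exists_summ (H : HRep D R) (I : Ideal R) :
    ∃ (s : ∀ n, Even n → Summ D n) (dd : ℕ → ℕ → ℕ),
      (∀ n hn i, (s n hn).d i = dd n i) ∧ (∀ n i, dd (n + (p - 1)) i = dd n i) ∧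
      (∀ n i, dd n (i + (p - 1)) = dd n i) ∧
      ∀ n hn (v : V × Fin (n + 1) → ℚ_[p]),
        (∀ t ∈ I, ∀ i, Tendsto (fun N : ℕ => ((toQ (H.TV n hn t)) ^ N).mulVec v i) atTop (𝓝 0)) ↔
        (toQ (s n hn).εV).mulVec v = v := by
  suffices hmain : ∀ n (hn : Even n), ∃ s : Summ D n,
      (∀ i : Fin (n + 1), s.d i = Module.finrank (ZMod p) (idNil H I n i)) ∧
      ∀ v : V × Fin (n + 1) → ℚ_[p],
        (∀ t ∈ I, ∀ i, Tendsto (fun N : ℕ => ((toQ (H.TV n hn t)) ^ N).mulVec v i) atTop (𝓝 0)) ↔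
        (toQ s.εV).mulVec v = v by
    choose s hs1 hs2 using hmain
    refine ⟨s, fun n i => Module.finrank (ZMod p) (idNil H I n i), hs1, ?_, ?_, hs2⟩
    · intro n i
      have h1 : idNil H I (n + (p - 1)) i = idNil H I n i := by
        ext v
        change (∀ t ∈ I, ∃ k, ((H.gr (n + (p - 1)) i t) ^ k).mulVec v = 0) ↔
          (∀ t ∈ I, ∃ k, ((H.gr n i t) ^ k).mulVec v = 0)
        simp only [H.gr_n]
      change Module.finrank (ZMod p) (idNil H I (n + (p - 1)) i) = _
      rw [h1]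
    · intro n i
      have h1 : idNil H I n (i + (p - 1)) = idNil H I n i := by
        ext v
        change (∀ t ∈ I, ∃ k, ((H.gr n (i + (p - 1)) t) ^ k).mulVec v = 0) ↔
          (∀ t ∈ I, ∃ k, ((H.gr n i t) ^ k).mulVec v = 0)
        simp only [H.gr_i]
      change Module.finrank (ZMod p) (idNil H I n (i + (p - 1))) = _
      rw [h1]
  intro n hn
  set φ : R →+* Matrix (E × Fin (n + 1)) (E × Fin (n + 1)) (ZMod p) ×
      Matrix (V × Fin (n + 1)) (V × Fin (n + 1)) (ZMod p) :=
    ((RingHom.mapMatrix PadicInt.toZMod).comp (H.TE n hn)).prod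
      ((RingHom.mapMatrix PadicInt.toZMod).comp (H.TV n hn)) with hφ
  have hφ1 : ∀ x, (φ x).1 = (H.TE n hn x).map PadicInt.toZMod := fun x => rfl
  have hφ2 : ∀ x, (φ x).2 = (H.TV n hn x).map PadicInt.toZMod := fun x => rfl
  have : Finite (Matrix (E × Fin (n + 1)) (E × Fin (n + 1)) (ZMod p)) :=
    inferInstanceAs (Finite (E × Fin (n + 1) → E × Fin (n + 1) → ZMod p))
  have : Finite (Matrix (V × Fin (n + 1)) (V × Fin (n + 1)) (ZMod p)) :=
    inferInstanceAs (Finite (V × Fin (n + 1) → V × Fin (n + 1) → ZMod p))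
  obtain ⟨t, ht, htt, hbig⟩ := exists_big φ I
  have hE0 : (H.TE n hn t * H.TE n hn t).map PadicInt.toZMod =
      (H.TE n hn t).map PadicInt.toZMod := by
    rw [← map_mul, ← hφ1, ← hφ1, map_mul, htt]
  have hV0 : (H.TV n hn t * H.TV n hn t).map PadicInt.toZMod =
      (H.TV n hn t).map PadicInt.toZMod := by
    rw [← map_mul, ← hφ2, ← hφ2, map_mul, htt]
  obtain ⟨eE, hEl, hEi, hEm⟩ := exists_limit (H.TE n hn) t hE0
  obtain ⟨eV, hVl, hVi, hVm⟩ := exists_limit (H.TV n hn) t hV0
  have hcW : eE * D.W n = D.W n * eE := by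
    have h1 : Tendsto (fun k => H.TE n hn (tt t k) * D.W n) atTop (𝓝 (eE * D.W n)) :=
      ((continuous_id.matrix_mul continuous_const).tendsto eE).comp hEl
    have h2 : Tendsto (fun k => D.W n * H.TE n hn (tt t k)) atTop (𝓝 (D.W n * eE)) :=
      ((continuous_const.matrix_mul continuous_id).tendsto eE).comp hEl
    simp only [H.comW] at h1
    exact tendsto_nhds_unique h1 h2
  have hcι : eE * D.ι n = D.ι n * eV := by
    have h1 : Tendsto (fun k => H.TE n hn (tt t k) * D.ι n) atTop (𝓝 (eE * D.ι n)) :=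
      ((continuous_id.matrix_mul continuous_const).tendsto eE).comp hEl
    have h2 : Tendsto (fun k => D.ι n * H.TV n hn (tt t k)) atTop (𝓝 (D.ι n * eV)) :=
      ((continuous_const.matrix_mul continuous_id).tendsto eV).comp hVl
    simp only [H.comι] at h1
    exact tendsto_nhds_unique h1 h2
  have hcπ : D.π n * eE = eV * D.π n := by
    have h1 : Tendsto (fun k => D.π n * H.TE n hn (tt t k)) atTop (𝓝 (D.π n * eE)) :=
      ((continuous_const.matrix_mul continuous_id).tendsto eE).comp hEl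
    have h2 : Tendsto (fun k => H.TV n hn (tt t k) * D.π n) atTop (𝓝 (eV * D.π n)) :=
      ((continuous_id.matrix_mul continuous_const).tendsto eV).comp hVl
    simp only [H.comπ] at h1
    exact tendsto_nhds_unique h1 h2
  have hcV : ∀ u, eV * H.TV n hn u = H.TV n hn u * eV := by
    intro u
    have h1 : Tendsto (fun k => H.TV n hn (tt t k) * H.TV n hn u) atTop
        (𝓝 (eV * H.TV n hn u)) :=
      ((continuous_id.matrix_mul continuous_const).tendsto eV).comp hVl
    have h2 : Tendsto (fun k => H.TV n hn u * H.TV n hn (tt t k)) atTop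
        (𝓝 (H.TV n hn u * eV)) :=
      ((continuous_const.matrix_mul continuous_id).tendsto eV).comp hVl
    have h3 : ∀ k, H.TV n hn (tt t k) * H.TV n hn u = H.TV n hn u * H.TV n hn (tt t k) := by
      intro k
      rw [← map_mul, mul_comm, map_mul]
    simp only [h3] at h1
    exact tendsto_nhds_unique h1 h2
  have hs1 : (1 - eE) * (1 - eE) = 1 - eE := by
    rw [sub_mul, mul_sub, mul_sub, hEi]
    simp
  have hs2 : (1 - eV) * (1 - eV) = 1 - eV := by
    rw [sub_mul, mul_sub, mul_sub, hVi]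
    simp
  have hs3 : (1 - eE) * D.W n = D.W n * (1 - eE) := by
    rw [sub_mul, mul_sub, hcW, one_mul, mul_one]
  have hs4 : (1 - eE) * D.ι n = D.ι n * (1 - eV) := by
    rw [Matrix.sub_mul, Matrix.mul_sub, hcι, Matrix.one_mul, Matrix.mul_one]
  have hs5 : D.π n * (1 - eE) = (1 - eV) * D.π n := by
    rw [Matrix.sub_mul, Matrix.mul_sub, hcπ, Matrix.one_mul, Matrix.mul_one]
  have hs6 : ∀ x y, y.2 < x.2 → (p : ℤ_[p]) ∣ (1 - eE) x y := by
    intro x y hxy
    have hne : x ≠ y := by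
      rintro rfl
      exact lt_irrefl _ hxy
    rw [Matrix.sub_apply, Matrix.one_apply_ne hne, zero_sub, dvd_neg]
    have h1 := dvd_of_map_eq hEm x y
    have h2 := H.tri n hn t x y hxy
    have h3 := dvd_add h1 h2
    simpa using h3
  refine ⟨⟨1 - eE, 1 - eV, hs1, hs2, hs3, hs4, hs5, hs6⟩, ?_, ?_⟩
  · intro i
    rw [Summ.d]
    set G := grHom H n hn i t with hG
    have hmat : (Matrix.of fun e e' : E => PadicInt.toZMod ((1 - eE) (e, i) (e', i))) =
        1 - G := by
      ext e e'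
      have h1 : PadicInt.toZMod (eE (e, i) (e', i)) = G e e' := by
        have h2 := congrFun (congrFun hEm (e, i)) (e', i)
        simp only [Matrix.map_apply] at h2
        rw [h2, H.gr_eq, hG, grHom_apply]
      rw [Matrix.of_apply, Matrix.sub_apply, map_sub, h1, Matrix.sub_apply]
      congr 1
      by_cases he : e = e'
      · subst he
        simp
      · rw [Matrix.one_apply_ne he, Matrix.one_apply_ne (by simpa using he), map_zero]
    rw [hmat, Matrix.rank]
    have hker : ∀ x : R, (φ x).1 = 0 → grHom H n hn i x = 0 := by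
      intro x hx
      ext e e'
      rw [grHom_apply, ← H.gr_eq n hn]
      have h2 := congrFun (congrFun hx (e, i)) (e', i)
      rw [hφ1] at h2
      simpa using h2
    have hGG : G * G = G := by
      have h1 := hker (t * t - t) (by rw [map_sub, map_mul, htt, sub_self]; rfl)
      rw [map_sub, map_mul, sub_eq_zero] at h1
      exact h1
    have hGu : ∀ u ∈ I, ∃ k, grHom H n hn i u ^ k * (1 - G) = 0 := by
      intro u hu
      obtain ⟨k, _, hk⟩ := hbig u hu
      refine ⟨k, ?_⟩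
      have h1 := hker (u ^ k * (1 - t)) (by
        rw [map_mul, map_pow, map_sub, map_one, hk]
        rfl)
      rw [map_mul, map_pow, map_sub, map_one] at h1
      exact h1
    have hsub : LinearMap.range (1 - G).mulVecLin = idNil H I n i := by
      ext v
      constructor
      · rintro ⟨w, rfl⟩ u hu
        obtain ⟨k, hk⟩ := hGu u hu
        refine ⟨k, ?_⟩
        rw [← grHom_apply H n hn, Matrix.mulVecLin_apply, Matrix.mulVec_mulVec, hk,
          Matrix.zero_mulVec]
      · intro hv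
        obtain ⟨k, hk⟩ := hv t ht
        have h1 : G.mulVec v = 0 := by
          rw [← grHom_apply H n hn, ← hG] at hk
          have h2 : ∀ k : ℕ, G * G ^ k = G := by
            intro k
            induction k with
            | zero => simp
            | succ k ih => rw [pow_succ, ← mul_assoc, ih, hGG]
          rw [← h2 k, ← Matrix.mulVec_mulVec, hk, Matrix.mulVec_zero]
        refine ⟨v, ?_⟩
        rw [Matrix.mulVecLin_apply, Matrix.sub_mulVec, Matrix.one_mulVec, h1, sub_zero]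
    rw [hsub]
  · intro v
    refine tendsto_iff (H.TV n hn) ht hVi hVm hcV (fun u hu => ?_) v
    obtain ⟨k, hk, hk'⟩ := hbig u hu
    refine ⟨k, hk, ?_⟩
    have h1 : φ u ^ k * (1 - φ t) = φ (u ^ k * (1 - t)) := by
      rw [map_mul, map_pow, map_sub, map_one]
    rw [h1] at hk'
    have h2 := hφ2 (u ^ k * (1 - t))
    rw [hk', map_mul, map_pow, map_sub, map_one] at h2
    exact h2.symm

end Gouvea
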