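import Pool.Agent.Work.MP_d3517d_nt.Core
import Pool.Agent.Work.MP_d3517d_nt.ExistsDat
import Pool.Agent.Work.MP_d3517d_nt.Idem
import Pool.Agent.Work.MP_d3517d_nt.FewBad
import Pool.Agent.Work.MP_d3517d_nt.Hodge

/-!
# The equidistribution theorem from the theorem on the exceptional weights
-/

open Polynomial Finset Filter Topology MeasureTheory

noncomputable section

namespace Gouvea

variable {p : ℕ} [Fact p.Prime]

/-- The equidistribution theorem, from the statement that there are few exceptional weights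
(any prime `p`). -/
theorem equidistribution_of
    (hexc : ∀ (h : ℕ) (E V : Type) [Fintype E] [DecidableEq E] [Fintype V] [DecidableEq V]
      (D : Dat p h E V), 1 ≤ h → FewExcStat D)
    (Ω : Type) [MulAction (G p) Ω]
    (hstab : ∀ k ∈ K p, ∀ x : Ω, k • x = x → k = 1 ∨ k = -1)
    (horb : Finite (MulAction.orbitRel.Quotient (K p) Ω))
    (hscal : ∀ x : Ω, scal p • x = x)
    (R : Type) [CommRing R] (act : R →+* Module.End ℤ_[p] (Ω →₀ ℤ_[p]))
    (hact : ∀ t, Equivariant (act t)) (m : Ideal R)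
    (hm : ∃ n, Even n ∧ FormsAt act m n ≠ ⊥) :
    (∀ n, Even n → (∀ f ∈ FormsAt act m n, heckeT Ω n f ∈ FormsAt act m n) ∧
      Module.Finite ℚ_[p] (FormsAt act m n) ∧
      ∀ l ∈ eigs (heckeT Ω n) (FormsAt act m n), ‖l‖ ≤ 1) ∧
    ∃ (μ : ℕ → ProbabilityMeasure ENNReal) (ν : ProbabilityMeasure ENNReal),
      (∀ᶠ T in atTop, (μ T : Measure ENNReal) = unif (slopes act m T)) ∧
      (ν : Measure ENNReal) = (volume.restrict (Set.Icc (0 : ℝ) 1)).map ENNReal.ofReal ∧
      Tendsto μ atTop (𝓝 ν) := by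
  obtain ⟨h, E, V, iE, dE, iV, dV, D, H, Ψ, hΨ⟩ := exists_dat hstab horb hscal act hact
  obtain ⟨s, dd, hd, hdn, hdi, hs⟩ := exists_summ H m
  have hh : 1 ≤ h := by
    by_contra hh
    obtain ⟨n, hn, hne⟩ := hm
    apply hne
    have h0 : h = 0 := by omega
    have hV : IsEmpty V := by
      rw [← Fintype.card_eq_zero_iff, D.cardV, h0]
    rw [eq_bot_iff]
    intro f hf
    have hf0 : f ∈ Forms Ω n := hf.1
    have h1 : (⟨f, hf0⟩ : Forms Ω n) = 0 := by
      apply (Ψ n hn).injective
      funext x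
      exact (hV.false x.1).elim
    have h2 : f = 0 := congrArg Subtype.val h1
    rw [h2]
    exact Submodule.zero_mem _
  refine equi_of_few D act m hm Ψ H.TV hΨ s dd hd hdn hdi hs
    (fun n hn hne => exists_d_pos (s n hn) hn hne) ?_
  intro η ε hη hε
  exact few_bad_of D (hexc h E V D hh) (fun _ s hn x => hodge s hn x)
    (fun _ s i => d_compl s i)
    s dd hd hdi η ε hη hε

end Gouvea
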