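import Pool.Agent.Work.MP_d3517d_nt.Iwahori

/-!
# Base points (MP_d3517d_nt)
-/

open Polynomial Finset

noncomputable section

namespace Gouvea

variable {p : ℕ} [Fact p.Prime] {Ω : Type} [MulAction (G p) Ω]

/-- a transversal for the orbits of `H`. -/
structure Transv (H : Subgroup (G p)) {E : Type} (x : E → Ω) : Prop where
  surj : ∀ ω, ∃ e, ∃ k ∈ H, ω = k • x e
  inj : ∀ e e', ∀ k ∈ H, k • x e = x e' → e = e'

lemma Transv.modify {H : Subgroup (G p)} {E : Type} {x x' : E → Ω} (hx : Transv H x)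
    (h : ∀ e, ∃ k ∈ H, x' e = k • x e) : Transv H x' := by
  constructor
  · intro ω
    obtain ⟨e, k, hk, rfl⟩ := hx.surj ω
    obtain ⟨l, hl, hl'⟩ := h e
    refine ⟨e, k * l⁻¹, H.mul_mem hk (H.inv_mem hl), ?_⟩
    rw [hl', smul_smul, inv_mul_cancel_right]
  · intro e e' k hk hke
    obtain ⟨l, hl, hl'⟩ := h e
    obtain ⟨l', hl1, hl1'⟩ := h e'
    apply hx.inj e e' (l'⁻¹ * k * l) (H.mul_mem (H.mul_mem (H.inv_mem hl1) hk) hl)
    rw [mul_smul, mul_smul, ← hl', hke, hl1', inv_smul_smul]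

lemma exists_transv (H : Subgroup (G p)) :
    Transv H (fun v : MulAction.orbitRel.Quotient H Ω => (Quotient.out v : Ω)) := by
  constructor
  · intro ω
    obtain ⟨k, hk⟩ : (MulAction.orbitRel H Ω).r
        (Quotient.out (Quotient.mk (MulAction.orbitRel H Ω) ω)) ω :=
      Quotient.mk_out (s := MulAction.orbitRel H Ω) ω
    refine ⟨Quotient.mk (MulAction.orbitRel H Ω) ω, (k⁻¹ : H), (k⁻¹).2, ?_⟩
    have hk' : (k : G p) • ω = Quotient.out (Quotient.mk (MulAction.orbitRel H Ω) ω) := hk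
    rw [← hk', smul_smul]
    simp
  · intro e e' k hk h
    have h2 : (MulAction.orbitRel H Ω).r (Quotient.out e') (Quotient.out e) := ⟨⟨k, hk⟩, h⟩
    rw [← Quotient.out_eq e, ← Quotient.out_eq e']
    exact (Quotient.sound h2).symm

/-- the Iwahori transversal from a transversal of `K`. -/
lemma transv_Iw (hst : ∀ k ∈ K p, ∀ ω : Ω, k • ω = ω → k = 1 ∨ k = -1) {V : Type} {y : V → Ω}
    (hy : Transv (K p) y) :
    Transv (Iw p) (fun e : V × Option (Fin p) => rIw p e.2 • y e.1) := by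
  constructor
  · intro ω
    obtain ⟨v, k, hk, rfl⟩ := hy.surj ω
    obtain ⟨i, hi, -⟩ := existsUnique_rIw hk
    refine ⟨(v, i), k * (rIw p i)⁻¹, hi, ?_⟩
    simp [smul_smul]
  · rintro ⟨v, i⟩ ⟨v', i'⟩ u hu h
    simp only at h
    have hvv : v = v' := by
      apply hy.inj v v' ((rIw p i')⁻¹ * u * rIw p i)
        ((K p).mul_mem ((K p).mul_mem ((K p).inv_mem (rIw_mem_K i')) hu.1) (rIw_mem_K i))
      rw [mul_smul, mul_smul, h, inv_smul_smul]
    subst hvv
    have h1 : ((rIw p i')⁻¹ * u * rIw p i) • y v = y v := by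
      rw [mul_smul, mul_smul, h, inv_smul_smul]
    have h2 : rIw p i' * (rIw p i)⁻¹ ∈ Iw p := by
      rcases hst _ ((K p).mul_mem ((K p).mul_mem ((K p).inv_mem (rIw_mem_K i')) hu.1)
        (rIw_mem_K i)) _ h1 with h3 | h3
      · have h4 : rIw p i' = u * rIw p i := by
          have h5 : rIw p i' * ((rIw p i')⁻¹ * u * rIw p i) = rIw p i' := by rw [h3, mul_one]
          rw [← h5]; group
        rw [h4, mul_inv_cancel_right]; exact hu
      · have h4 : rIw p i' = -(u * rIw p i) := by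
          have h5 : rIw p i' * ((rIw p i')⁻¹ * u * rIw p i) = -rIw p i' := by
            rw [h3, mul_neg, mul_one]
          have h6 : rIw p i' * ((rIw p i')⁻¹ * u * rIw p i) = u * rIw p i := by group
          rw [← h6, h5, neg_neg]
        rw [h4, neg_mul, mul_inv_cancel_right]
        refine ⟨mem_K_iff.2 ⟨?_, ?_⟩, ?_⟩
        · intro a b
          simpa using (mem_K_iff.1 hu.1).1 a b
        · have := (mem_K_iff.1 hu.1).2
          rw [det_fin_two] at this ⊢
          simpa using this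
        · simpa using hu.2
    obtain ⟨j, -, hj⟩ := existsUnique_rIw (rIw_mem_K (p := p) i')
    have h3 : i = j := hj i h2
    have h4 : i' = j := hj i' (by simp)
    rw [h3, h4]

/-- the involution of the classes of `Iw` given by `eta`. -/
lemma exists_sigma {E : Type} {x : E → Ω} (hx : Transv (Iw p) x)
    (hscal : ∀ ω : Ω, scal p • ω = ω) :
    ∃ σ : Equiv.Perm E, (∀ e, σ (σ e) = e) ∧ ∀ e, ∃ u ∈ Iw p, eta p • x e = u • x (σ e) := by
  choose f u hu hfu using fun e => hx.surj (eta p • x e)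
  have hff : ∀ e, f (f e) = e := by
    intro e
    apply hx.inj (f (f e)) e (eta p * u e * (eta p)⁻¹ * u (f e))
      ((Iw p).mul_mem (eta_conj_mem (hu e)) (hu (f e)))
    rw [mul_smul, ← hfu (f e), smul_smul, inv_mul_cancel_right, mul_smul, ← hfu e, smul_smul,
      eta_mul_eta, hscal]
  exact ⟨⟨f, f, hff, hff⟩, hff, fun e => ⟨u e, hu e, hfu e⟩⟩

/-- the fixed classes. -/
lemma fixed_base (hst : ∀ k ∈ K p, ∀ ω : Ω, k • ω = ω → k = 1 ∨ k = -1)
    (hscal : ∀ ω : Ω, scal p • ω = ω) {ω : Ω} {u : G p} (hu : u ∈ Iw p)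
    (h : eta p • ω = u • ω) :
    ∃ m ∈ Iw p, ∃ t : G p, IsDiag t ∧ eta p • (m • ω) = t • (m • ω) := by
  have hui := (Iw p).inv_mem hu
  have hg : (u⁻¹ * eta p) • ω = ω := by rw [mul_smul, h, inv_smul_smul]
  have hscal' : ∀ ω : Ω, (scal p)⁻¹ • ω = ω := fun ω => by
    rw [inv_smul_eq_iff, hscal]
  have hsq : (u⁻¹ * eta p) * (u⁻¹ * eta p) = (u⁻¹ * (eta p * u⁻¹ * (eta p)⁻¹)) * scal p := by
    rw [← eta_mul_eta]; group
  have hmem : u⁻¹ * (eta p * u⁻¹ * (eta p)⁻¹) ∈ K p :=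
    ((Iw p).mul_mem hui (eta_conj_mem hui)).1
  have hfix : (u⁻¹ * (eta p * u⁻¹ * (eta p)⁻¹)) • ω = ω := by
    have h1 : (u⁻¹ * (eta p * u⁻¹ * (eta p)⁻¹)) =
        (u⁻¹ * eta p) * (u⁻¹ * eta p) * (scal p)⁻¹ := by
      rw [hsq, mul_inv_cancel_right]
    rw [h1, mul_smul, hscal', mul_smul, hg, hg]
  have h01 : ((u⁻¹ * eta p) * (u⁻¹ * eta p)) 0 1 = 0 := by
    rw [hsq]
    rcases hst _ hmem _ hfix with h2 | h2
    · rw [h2, one_mul]; rfl
    · rw [h2, neg_mul, one_mul]; simp [scal]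
  obtain ⟨m, hm, t, ht, hmt⟩ := normal_form hui h01
  refine ⟨m, hm, t⁻¹, ⟨(Iw p).inv_mem ht.1, ?_, ?_⟩, ?_⟩
  · rw [Matrix.GeneralLinearGroup.coe_inv, Matrix.inv_def, Matrix.adjugate_fin_two]
    simp [ht.2.1]
  · rw [Matrix.GeneralLinearGroup.coe_inv, Matrix.inv_def, Matrix.adjugate_fin_two]
    simp [ht.2.2]
  · rw [eq_inv_smul_iff, smul_smul, ← hmt, smul_smul, inv_mul_cancel_right, mul_smul, hg]

theorem exists_good_Iw (hst : ∀ k ∈ K p, ∀ ω : Ω, k • ω = ω → k = 1 ∨ k = -1)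
    (hscal : ∀ ω : Ω, scal p • ω = ω) {E : Type} [Finite E] {x : E → Ω} (hx : Transv (Iw p) x) :
    ∃ (σ : Equiv.Perm E) (x' : E → Ω) (t : E → G p), Transv (Iw p) x' ∧ (∀ e, σ (σ e) = e) ∧
      (∀ e, IsDiag (t e)) ∧ ∀ e, eta p • x' e = t e • x' (σ e) := by
  classical
  obtain ⟨n, ⟨b⟩⟩ := Finite.exists_equiv_fin E
  obtain ⟨σ, hσ, hu⟩ := exists_sigma hx hscal
  have key : ∀ e, ∃ z : Ω, (∃ k ∈ Iw p, z = k • x e) ∧ (b e < b (σ e) → z = x e) ∧
      (b (σ e) < b e → z = eta p • x (σ e)) ∧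
      (σ e = e → ∃ t : G p, IsDiag t ∧ eta p • z = t • z) := by
    intro e
    rcases lt_trichotomy (b e) (b (σ e)) with h | h | h
    · exact ⟨x e, ⟨1, (Iw p).one_mem, by simp⟩, fun _ => rfl, fun h' => absurd h h'.not_gt,
        fun h' => absurd h (by rw [h']; exact lt_irrefl _)⟩
    · have he : σ e = e := (b.injective h).symm
      obtain ⟨u, hu', hu2⟩ := hu e
      rw [he] at hu2
      obtain ⟨m, hm, t, ht, hmt⟩ := fixed_base hst hscal hu' hu2
      exact ⟨m • x e, ⟨m, hm, rfl⟩, fun h' => absurd h' (by rw [he]; exact lt_irrefl _),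
        fun h' => absurd h' (by rw [he]; exact lt_irrefl _), fun _ => ⟨t, ht, hmt⟩⟩
    · refine ⟨eta p • x (σ e), ?_, fun h' => absurd h h'.not_gt, fun _ => rfl,
        fun h' => absurd h (by rw [h']; exact lt_irrefl _)⟩
      obtain ⟨u, hu', hu2⟩ := hu (σ e)
      rw [hσ] at hu2
      exact ⟨u, hu', hu2⟩
  choose x' h1 h2 h3 h4 using key
  have h5 : ∀ e, ∃ t : G p, IsDiag t ∧ eta p • x' e = t • x' (σ e) := by
    intro e
    rcases lt_trichotomy (b e) (b (σ e)) with h | h | h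
    · refine ⟨1, IsDiag.one, ?_⟩
      rw [one_smul, h2 e h, h3 (σ e) (by rw [hσ]; exact h), hσ]
    · have he : σ e = e := (b.injective h).symm
      obtain ⟨t, ht, htt⟩ := h4 e he
      exact ⟨t, ht, by rw [he]; exact htt⟩
    · refine ⟨1, IsDiag.one, ?_⟩
      rw [one_smul, h3 e h, h2 (σ e) (by rw [hσ]; exact h), smul_smul, eta_mul_eta, hscal]
  choose t ht htt using h5
  exact ⟨σ, x', t, hx.modify h1, hσ, ht, htt⟩

/-- **Base points.** -/
theorem exists_base (hst : ∀ k ∈ K p, ∀ ω : Ω, k • ω = ω → k = 1 ∨ k = -1)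
    (hscal : ∀ ω : Ω, scal p • ω = ω) (hfin : Finite (MulAction.orbitRel.Quotient (K p) Ω)) :
    ∃ (V E : Type) (_ : Fintype V) (_ : DecidableEq V) (_ : Fintype E) (_ : DecidableEq E)
      (y : V → Ω) (x : E → Ω) (σ : Equiv.Perm E) (t : E → G p),
      Fintype.card V = Nat.card (MulAction.orbitRel.Quotient (K p) Ω) ∧
      Fintype.card E = (p + 1) * Nat.card (MulAction.orbitRel.Quotient (K p) Ω) ∧
      Transv (K p) y ∧ Transv (Iw p) x ∧ (∀ e, σ (σ e) = e) ∧ (∀ e, IsDiag (t e)) ∧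
      ∀ e, eta p • x e = t e • x (σ e) := by
  classical
  let V := MulAction.orbitRel.Quotient (K p) Ω
  have : Fintype V := Fintype.ofFinite V
  have hy := exists_transv (Ω := Ω) (K p)
  obtain ⟨σ, x', t, hx', hσ, ht, htt⟩ := exists_good_Iw hst hscal (transv_Iw hst hy)
  refine ⟨V, V × Option (Fin p), inferInstance, inferInstance, inferInstance, inferInstance,
    _, x', σ, t, ?_, ?_, hy, hx', hσ, ht, htt⟩
  · rw [Nat.card_eq_fintype_card]
  · rw [Nat.card_eq_fintype_card, Fintype.card_prod, Fintype.card_option, Fintype.card_fin,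
      mul_comm]

end Gouvea
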