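import Mathlib

/-!
# Gouvêa slope distribution (MP_d3517d_nt): common definitions

`GB p F Λ` : every coefficient of the polynomial `F ∈ ℚ_p[X]` has valuation `≥ Λ`
(the Gauss valuation of `F` on the closed unit disc is `≥ Λ`).
-/

open Polynomial Finset

noncomputable section

namespace Gouvea

/-- `v(x) ≥ Λ`, written with the norm. -/
def VB (p : ℕ) [Fact p.Prime] (x : ℚ_[p]) (Λ : ℤ) : Prop := ‖x‖ ≤ (p : ℝ) ^ (-Λ)

/-- Gauss bound: all coefficients of `F` have valuation `≥ Λ`. -/
def GB (p : ℕ) [Fact p.Prime] (F : ℚ_[p][X]) (Λ : ℤ) : Prop := ∀ i, VB p (F.coeff i) Λ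

/-- `φ(i) = i - v_p(i!)`. -/
def phi (p i : ℕ) : ℕ := i - padicValNat p i.factorial

/-- `ψ(j) = v_p(⌊j/p⌋!)`. -/
def psi (p j : ℕ) : ℕ := padicValNat p (j / p).factorial

/-- valuation of the difference of two natural numbers (`0` if they are equal). -/
def vd (p a b : ℕ) : ℕ := padicValInt p ((a : ℤ) - (b : ℤ))

/-- the level of an index `(edge, level)`. -/
def lev {E : Type} {L : ℕ} (x : E × Fin L) : ℕ := x.2

/-- number of elements of level `i` in a finite set of indices. -/
def cnt {E : Type} [DecidableEq E] {L : ℕ} (R : Finset (E × Fin L)) (i : ℕ) : ℕ :=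
  (R.filter fun x => lev x = i).card

/-- upper bound for the rank of the Atkin-Lehner part plus the number of
columns of level `> n`, in terms of the level function `a` (support in `range L`). -/
def Acount (a : ℕ → ℕ) (L n : ℕ) : ℕ :=
  ∑ i ∈ range (n + 1), min (a i) (a (n - i)) + ∑ i ∈ Ico (n + 1) L, a i

/-- the multiplicity with which a principal minor with level function `a`, size `r`,
vanishes at the integer weight `n` (natural subtraction). -/
def ma (h r : ℕ) (a : ℕ → ℕ) (L n : ℕ) : ℕ := r - h * (n + 1) - Acount a L n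

/-- the ghost multiplicity (natural subtractions). -/
def mr (p h r n : ℕ) : ℕ := min (r - h * (n + 1)) (p * h * (n + 1) - r)

/-- Sum of the lower bound of the Gauss valuation, for the block `i < M` (`q` elements per level)
minus `u` elements of level `M - 1`. -/
def Lam0 (p q M u : ℕ) : ℤ :=
  (q : ℤ) * ∑ i ∈ range M, ((phi p i : ℤ) + psi p i) - u * ((phi p (M - 1) : ℤ) + psi p (M - 1))

/-- The Gauss bound for the principal minor with level function `a`. -/
def LamA (p q M u L : ℕ) (a : ℕ → ℕ) : ℤ :=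
  ∑ i ∈ range L, (a i : ℤ) * phi p i +
    ((q : ℤ) * ∑ i ∈ range M, (psi p i : ℤ) - u * (psi p (M - 1) : ℤ))

/-- A family (in the weight) of matrices: `U(κ)`, `n = n0 + (p-1) κ`. -/
structure WFam (p h n0 L J : ℕ) [Fact p.Prime] (E : Type) [Fintype E] [DecidableEq E] where
  /-- the matrix, polynomial in `κ` -/
  U : Matrix (E × Fin L) (E × Fin L) ℚ_[p][X]
  /-- the involution on the edges -/
  σ : Equiv.Perm E
  /-- integral factorisation `U = D_φ G D_ψ H` -/
  G : Matrix (E × Fin L) (E × Fin L) ℚ_[p][X]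
  H : Matrix (E × Fin L) (E × Fin L) ℚ_[p]
  hG : ∀ x y, GB p (G x y) 0
  hH : ∀ x y, VB p (H x y) 0
  fac : ∀ x y, U x y = ∑ z, C ((p : ℚ_[p]) ^ phi p (lev x)) * G x z *
    C ((p : ℚ_[p]) ^ psi p (lev z) * H z y)
  /-- at an integer weight `n = n0 + (p-1) κ < J` the matrix is a sum of a matrix `P` of rank
  `≤ h(n+1)` and a matrix `Q` which is antidiagonal on the columns of level `≤ n`. -/
  dec : ∀ κ : ℕ, n0 + (p - 1) * κ < J → ∃ P Q : Matrix (E × Fin L) (E × Fin L) ℚ_[p],
    (U.map fun F => F.eval (κ : ℚ_[p])) = P + Q ∧ P.rank ≤ h * (n0 + (p - 1) * κ + 1) ∧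
    ∀ x y, Q x y ≠ 0 → (n0 + (p - 1) * κ < lev y ∨
      (x.1 = σ y.1 ∧ lev x + lev y = n0 + (p - 1) * κ))

/-- the principal minor of `U` with index set `R`. -/
def minor {A ι : Type} [CommRing A] [DecidableEq ι] (U : Matrix ι ι A) (R : Finset ι) : A :=
  (U.submatrix (Subtype.val : R → ι) (Subtype.val : R → ι)).det

/-- `c_r`, the sum of the principal minors of size `r`. -/
def cr {A ι : Type} [CommRing A] [Fintype ι] [DecidableEq ι]
    (U : Matrix ι ι A) (r : ℕ) : A :=
  ∑ R ∈ powersetCard r univ, minor U R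

end Gouvea
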