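import Pool.Agent.Work.MP_d3517d_nt.Basic

/-!
# Gouvêa slope distribution (MP_d3517d_nt): definitions, part II (matrices)
-/

open Polynomial Finset

noncomputable section

namespace Gouvea

section Matrices

variable {p : ℕ} [Fact p.Prime]

/-- Matrix coefficients of `f ↦ f | g`, `(f|g)(X) = (cX+d)^n f((aX+b)/(cX+d))`:
the coefficient of `X^i` in `(aX+b)^j (cX+d)^(n-j)`. -/
def sl (n : ℕ) (g : Matrix (Fin 2) (Fin 2) ℤ_[p]) (i j : ℕ) : ℤ_[p] :=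
  ((C (g 0 0) * X + C (g 0 1)) ^ j * (C (g 1 0) * X + C (g 1 1)) ^ (n - j)).coeff i

end Matrices

/-- The edges data: `(Uf)_e = Σ_t c_{e,t} f_{tgt e t} | γ_{e,t}`, `t < m`, with coefficients
`c_{e,t} ∈ ℤ_p` and `γ = (pa b; pc d)` with `d` a unit. -/
structure Gam (p : ℕ) [Fact p.Prime] (E : Type) where
  m : ℕ
  co : E → Fin m → ℤ_[p]
  tgt : E → Fin m → E
  γ : E → Fin m → Matrix (Fin 2) (Fin 2) ℤ_[p]
  h00 : ∀ e t, (p : ℤ_[p]) ∣ γ e t 0 0
  h10 : ∀ e t, (p : ℤ_[p]) ∣ γ e t 1 0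
  h11 : ∀ e t, IsUnit (γ e t 1 1)

/-- The matrix of `U` in weight `n`. -/
def Um {p : ℕ} [Fact p.Prime] {E : Type} [DecidableEq E] (D : Gam p E) (n : ℕ) :
    Matrix (E × Fin (n + 1)) (E × Fin (n + 1)) ℤ_[p] :=
  fun x y => ∑ t, if D.tgt x.1 t = y.1 then D.co x.1 t * sl n (D.γ x.1 t) x.2 y.2 else 0

/-- All the data attached to a `GL₂(ℚ_p)`-set (in even weights). -/
structure Dat (p h : ℕ) [Fact p.Prime] (E V : Type) [Fintype E] [DecidableEq E] [Fintype V]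
    [DecidableEq V] extends Gam p E where
  cardE : Fintype.card E = (p + 1) * h
  cardV : Fintype.card V = h
  σ : Equiv.Perm E
  W : ∀ n : ℕ, Matrix (E × Fin (n + 1)) (E × Fin (n + 1)) ℤ_[p]
  ι : ∀ n : ℕ, Matrix (E × Fin (n + 1)) (V × Fin (n + 1)) ℤ_[p]
  π : ∀ n : ℕ, Matrix (V × Fin (n + 1)) (E × Fin (n + 1)) ℤ_[p]
  πι : ∀ n, Even n → π n * ι n = ((p : ℤ_[p]) + 1) • (1 : Matrix _ _ ℤ_[p])
  WW : ∀ n, Even n → W n * W n = ((p : ℤ_[p]) ^ n) • (1 : Matrix _ _ ℤ_[p])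
  W0 : ∀ n, Even n → ∀ x y, W n x y ≠ 0 → x.1 = σ y.1 ∧ (x.2 : ℕ) + (y.2 : ℕ) = n
  Wdvd : ∀ n, Even n → ∀ x y, (p : ℤ_[p]) ^ (n - (y.2 : ℕ)) ∣ W n x y
  WU : ∀ n, Even n → W n * (ι n * π n - 1) = Um toGam n

/-- The family `F` interpolates the matrices `Um D n`, `n = n0 + (p-1) κ`. -/
structure Compat {p h n0 L J : ℕ} [Fact p.Prime] {E : Type} [Fintype E] [DecidableEq E]
    (F : WFam p h n0 L J E) (D : Gam p E) : Prop where
  blk : ∀ κ : ℕ, n0 + (p - 1) * κ < J → n0 + (p - 1) * κ < L → ∀ x y : E × Fin L,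
    ∀ (hx : lev x < n0 + (p - 1) * κ + 1) (hy : lev y < n0 + (p - 1) * κ + 1),
    (F.U x y).eval (κ : ℚ_[p]) =
      ((Um D (n0 + (p - 1) * κ) (x.1, ⟨lev x, hx⟩) (y.1, ⟨lev y, hy⟩) : ℤ_[p]) : ℚ_[p])
  zero : ∀ κ : ℕ, n0 + (p - 1) * κ < J → n0 + (p - 1) * κ < L → ∀ x y : E × Fin L,
    n0 + (p - 1) * κ < lev x → lev y ≤ n0 + (p - 1) * κ → (F.U x y).eval (κ : ℚ_[p]) = 0
  low : ∀ κ : ℕ, n0 + (p - 1) * κ < J → n0 + (p - 1) * κ < L → ∀ x y : E × Fin L,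
    n0 + (p - 1) * κ < lev x → VB p ((F.U x y).eval (κ : ℚ_[p])) (lev x)

section Spectra

variable {p : ℕ} [Fact p.Prime] {ι : Type} [Fintype ι] [DecidableEq ι]

/-- The eigenvalues (with multiplicities) of a matrix over `ℚ_p`. -/
def specM (A : Matrix ι ι ℚ_[p]) : Multiset (PadicAlgCl p) :=
  (A.charpoly.map (algebraMap ℚ_[p] (PadicAlgCl p))).roots

/-- `Σ_λ (x - v(λ))^+`. -/
def Gf (A : Matrix ι ι ℚ_[p]) (x : ℝ) : ℝ :=
  ((specM A).map fun l => Real.logb p (max 1 (‖l‖ * (p : ℝ) ^ x))).sum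

open Classical in
/-- the number of eigenvalues `λ` with `v(λ) ≤ x`. -/
def Nf (A : Matrix ι ι ℚ_[p]) (x : ℝ) : ℕ :=
  ((specM A).filter fun l => (p : ℝ) ^ (-x) ≤ ‖l‖).card

end Spectra

/-- the matrix over `ℚ_p` of a matrix over `ℤ_p` -/
abbrev toQ {p : ℕ} [Fact p.Prime] {ι κ : Type} (A : Matrix ι κ ℤ_[p]) : Matrix ι κ ℚ_[p] :=
  A.map (algebraMap ℤ_[p] ℚ_[p])

/-- An idempotent (in weight `n`) commuting with all the structure. -/
structure Summ {p h : ℕ} [Fact p.Prime] {E V : Type} [Fintype E] [DecidableEq E] [Fintype V]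
    [DecidableEq V] (D : Dat p h E V) (n : ℕ) where
  εE : Matrix (E × Fin (n + 1)) (E × Fin (n + 1)) ℤ_[p]
  εV : Matrix (V × Fin (n + 1)) (V × Fin (n + 1)) ℤ_[p]
  idE : εE * εE = εE
  idV : εV * εV = εV
  comW : εE * D.W n = D.W n * εE
  comι : εE * D.ι n = D.ι n * εV
  comπ : D.π n * εE = εV * D.π n
  /-- modulo `p` the idempotent preserves the filtration by the degree -/
  tri : ∀ x y, y.2 < x.2 → (p : ℤ_[p]) ∣ εE x y

namespace Summ

variable {p h : ℕ} [Fact p.Prime] {E V : Type} [Fintype E] [DecidableEq E] [Fintype V]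
    [DecidableEq V] {D : Dat p h E V} {n : ℕ}

/-- The rank of the idempotent on the graded piece of degree `i` modulo `p`. -/
def d (s : Summ D n) (i : Fin (n + 1)) : ℕ :=
  (Matrix.of fun e e' : E => PadicInt.toZMod (s.εE (e, i) (e', i))).rank

/-- The complementary idempotent. -/
def compl (s : Summ D n) : Summ D n where
  εE := 1 - s.εE
  εV := 1 - s.εV
  idE := by simp [mul_sub, sub_mul, s.idE]
  idV := by simp [mul_sub, sub_mul, s.idV]
  comW := by simp [mul_sub, sub_mul, s.comW]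
  comι := by simp [Matrix.mul_sub, Matrix.sub_mul, s.comι]
  comπ := by simp [Matrix.mul_sub, Matrix.sub_mul, s.comπ]
  tri := fun x y hxy => by
    have : x ≠ y := by rintro rfl; exact lt_irrefl _ hxy
    simpa [Matrix.one_apply_ne this] using s.tri x y hxy

/-- The operator `T = π W ι` on the summand. -/
def T (s : Summ D n) : Matrix (V × Fin (n + 1)) (V × Fin (n + 1)) ℤ_[p] :=
  s.εV * (D.π n * D.W n * D.ι n)

end Summ

end Gouvea
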