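import Pool.Agent.Work.MP_d3517d_nt.IharaSumm
import Pool.Agent.Work.MP_d3517d_nt.Special

/-!
# MP_d3517d_nt: the bridge between the family and the Newton function

* `Gf_add` : `Gf` of the operator `T` is the sum of its values on the two summands of an
  idempotent.
* `FF_family` : at an integer weight `n` the Newton function of `det (1 - X U(κ))` is that of the
  classical matrix for `x ≤ n + 1`.
* `le_Gf_of_cr` : `r x - v(c_r(κ)) ≤ Gf T x` for `x ≤ n / 2`.
-/

set_option autoImplicit false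

open Polynomial Finset

noncomputable section

namespace Gouvea

open Pool.Agent.Gouv

section General

variable {ι R : Type*} [Fintype ι] [DecidableEq ι] [CommRing R]

theorem bridge_coeff (A : Matrix ι ι R) (r : ℕ) :
    A.charpolyRev.coeff r = (-1) ^ r * esum r A := by
  have h : A.charpolyRev = eP ((-1 : R) • A) := by
    unfold Matrix.charpolyRev eP
    congr 1
    ext i j : 2
    by_cases hij : i = j
    · subst hij; simp [sub_eq_add_neg]
    · simp [hij]
  rw [h, coeff_eP, esum_smul]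

theorem bridge_add (A B : Matrix ι ι R) (h : A * B = 0) :
    (A + B).charpolyRev = A.charpolyRev * B.charpolyRev := by
  unfold Matrix.charpolyRev
  rw [← Matrix.det_mul]
  congr 1
  have h1 : A.map (C : R → R[X]) * B.map C = 0 := by
    rw [← Matrix.map_mul, h]
    ext i j
    simp
  have h2 : (A + B).map (C : R → R[X]) = A.map C + B.map C :=
    Matrix.map_add _ (fun a b => map_add C a b) _ _
  have h3 : ((X : R[X]) • A.map C) * ((X : R[X]) • B.map C) = 0 := by
    rw [Matrix.smul_mul, Matrix.mul_smul, h1, smul_zero, smul_zero]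
  rw [h2, sub_mul, one_mul, mul_sub, mul_one, h3, smul_add]
  abel

theorem bridge_rev_ne_zero {K : Type*} [Field K] (A : Matrix ι ι K) : A.charpolyRev ≠ 0 := by
  intro h0
  have h1 := Matrix.eval_charpolyRev (M := A)
  rw [h0, eval_zero] at h1
  exact zero_ne_one h1

end General

variable {p : ℕ} [Fact p.Prime] {h : ℕ} {E V : Type} [Fintype E] [DecidableEq E] [Fintype V]
  [DecidableEq V]

/-- `Gf` is additive over the two summands of an idempotent. -/
theorem Gf_add {D : Dat p h E V} {n : ℕ} (s : Summ D n) (x : ℝ) :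
    Gf (toQ s.T) x + Gf (toQ s.compl.T) x = Gf (toQ (D.π n * D.W n * D.ι n)) x := by
  have comT : (D.π n * D.W n * D.ι n) * s.εV = s.εV * (D.π n * D.W n * D.ι n) := by
    calc (D.π n * D.W n * D.ι n) * s.εV = D.π n * D.W n * (D.ι n * s.εV) := by
          simp only [Matrix.mul_assoc]
      _ = D.π n * (D.W n * s.εE) * D.ι n := by rw [← s.comι]; simp only [Matrix.mul_assoc]
      _ = D.π n * s.εE * D.W n * D.ι n := by rw [← s.comW]; simp only [Matrix.mul_assoc]
      _ = s.εV * (D.π n * D.W n * D.ι n) := by rw [s.comπ]; simp only [Matrix.mul_assoc]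
  have h0 : s.T * s.compl.T = 0 := by
    show s.εV * (D.π n * D.W n * D.ι n) * ((1 - s.εV) * (D.π n * D.W n * D.ι n)) = 0
    rw [← comT, Matrix.mul_assoc, ← Matrix.mul_assoc s.εV, Matrix.mul_sub, s.idV, Matrix.mul_one,
      sub_self, Matrix.zero_mul, Matrix.mul_zero]
  have h1 : s.T + s.compl.T = D.π n * D.W n * D.ι n := by
    show s.εV * (D.π n * D.W n * D.ι n) + (1 - s.εV) * (D.π n * D.W n * D.ι n) = _
    rw [Matrix.sub_mul, Matrix.one_mul]
    abel
  have h2 : toQ (D.π n * D.W n * D.ι n) = toQ s.T + toQ s.compl.T := by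
    rw [← h1]
    exact Matrix.map_add _ (fun a b => map_add _ a b) _ _
  have h3 : toQ s.T * toQ s.compl.T = 0 := by
    rw [← toQ_mul, h0]
    ext i j
    simp
  have h4 := bridge_add _ _ h3
  have h5 := Gf_eq (toQ (D.π n * D.W n * D.ι n)) x
  rw [h2, h4, FF_mul one_lt_pI isNonarch_Qp (bridge_rev_ne_zero _) (bridge_rev_ne_zero _), Gf_eq,
    Gf_eq, ← h2] at h5
  linarith

/-- A matrix whose rows are divisible by `p^(n+1)` has a trivial Newton function up to
`n + 1`. -/
theorem FF_small {ι : Type} [Fintype ι] [DecidableEq ι] (Q : Matrix ι ι ℚ_[p]) (n : ℕ)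
    (hQ : ∀ i j, VB p (Q i j) (n + 1 : ℕ)) {x : ℝ} (hx : x ≤ n + 1) :
    FF (p : ℝ) Q.charpolyRev x = 0 := by
  have hp1 := one_lt_pI (p := p)
  have hp0 : (0 : ℝ) < p := by linarith
  apply le_antisymm
  · apply FF_nonpos hp1
    rw [coeff_zero_eq_eval_zero, Matrix.eval_charpolyRev]
  · apply le_FF hp1 (bridge_rev_ne_zero _)
    intro r hr
    have hc0 : (0 : ℝ) ≤ ((p : ℝ) ^ (n + 1))⁻¹ := inv_nonneg.2 (pow_nonneg hp0.le _)
    have h1 : ‖Q.charpolyRev.coeff r‖ ≤ ((p : ℝ) ^ (n + 1))⁻¹ ^ r := by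
      rw [bridge_coeff, norm_mul, norm_pow, norm_neg, norm_one, one_pow, one_mul]
      refine norm_esum_le (c := fun _ => ((p : ℝ) ^ (n + 1))⁻¹) (fun _ => hc0) ?_
        (pow_nonneg hc0 _) ?_
      · intro i j
        refine (hQ i j).trans ?_
        rw [← zpow_natCast, ← zpow_neg]
      · intro s hs
        rw [prod_const, hs]
    have h0 : 0 < ‖Q.charpolyRev.coeff r‖ := norm_pos_iff.2 hr
    have h2 : ((p : ℝ) ^ (n + 1))⁻¹ ^ r = (p : ℝ) ^ (-(((n : ℝ) + 1) * r)) := by
      rw [Real.rpow_neg hp0.le, Real.rpow_mul hp0.le, inv_pow]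
      norm_cast
    rw [h2] at h1
    have h3 := Real.logb_le_logb_of_le hp1 h0 h1
    rw [Real.logb_rpow hp0 hp1.ne'] at h3
    unfold vv
    have hr0 : (0 : ℝ) ≤ r := Nat.cast_nonneg r
    nlinarith

/-- At an integer weight the Newton function of the family is the classical one up to
`n + 1`. -/
theorem FF_family {n0 L J : ℕ} (F : WFam p h n0 L J E) {D : Gam p E} (hF : Compat F D) {κ : ℕ}
    (hJ : n0 + (p - 1) * κ < J) (hL : n0 + (p - 1) * κ < L) {x : ℝ}
    (hx : x ≤ ((n0 + (p - 1) * κ : ℕ) : ℝ) + 1) :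
    FF (p : ℝ) (F.U.map fun f => f.eval (κ : ℚ_[p])).charpolyRev x =
      FF (p : ℝ) (toQ (Um D (n0 + (p - 1) * κ))).charpolyRev x := by
  set n := n0 + (p - 1) * κ with hndef
  set Mk : Matrix (E × Fin L) (E × Fin L) ℚ_[p] := F.U.map fun f => f.eval (κ : ℚ_[p]) with hMk
  set Q : Matrix (E × Fin (L - (n + 1))) (E × Fin (L - (n + 1))) ℚ_[p] :=
    Mk.submatrix (fun x => splitE E hL (Sum.inr x)) (fun x => splitE E hL (Sum.inr x)) with hQ
  set B : Matrix (E × Fin (n + 1)) (E × Fin (L - (n + 1))) ℚ_[p] :=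
    Mk.submatrix (fun x => splitE E hL (Sum.inl x)) (fun x => splitE E hL (Sum.inr x)) with hB
  have hblocks : Mk.submatrix (splitE E hL) (splitE E hL) =
      Matrix.fromBlocks (toQ (Um D n)) B 0 Q := by
    ext x y
    rcases x with x | x <;> rcases y with y | y
    · have h1 := hF.blk κ hJ hL (splitE E hL (Sum.inl x)) (splitE E hL (Sum.inl y))
        (by rw [(splitE_inl hL x).2]; exact x.2.2) (by rw [(splitE_inl hL y).2]; exact y.2.2)
      exact h1
    · rfl
    · have h1 := hF.zero κ hJ hL (splitE E hL (Sum.inr x)) (splitE E hL (Sum.inl y))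
        (splitE_inr hL x) (by rw [(splitE_inl hL y).2]; exact Nat.lt_succ_iff.1 y.2.2)
      exact h1
    · rfl
  have hrev : Mk.charpolyRev = (toQ (Um D n)).charpolyRev * Q.charpolyRev := by
    ext r
    rw [bridge_coeff, ← esum_submatrix_equiv (splitE E hL) Mk, hblocks, esum_fromBlocks, coeff_mul,
      mul_sum]
    refine sum_congr rfl fun y hy => ?_
    rw [HasAntidiagonal.mem_antidiagonal] at hy
    rw [bridge_coeff, bridge_coeff, ← hy, pow_add]
    ring
  rw [hrev, FF_mul one_lt_pI isNonarch_Qp (bridge_rev_ne_zero _) (bridge_rev_ne_zero _),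
    FF_small Q n ?_ hx, add_zero]
  intro i j
  have h1 := hF.low κ hJ hL (splitE E hL (Sum.inr i)) (splitE E hL (Sum.inr j)) (splitE_inr hL i)
  refine (show ‖Q i j‖ ≤ _ from h1).trans ?_
  refine zpow_le_zpow_right₀ one_lt_pI.le ?_
  have h2 := splitE_inr hL i
  push_cast
  omega

/-- `r x - v(c_r(κ)) ≤ Gf T x` for `x ≤ n / 2`. -/
theorem le_Gf_of_cr {n0 L J : ℕ} (F : WFam p h n0 L J E) (D : Dat p h E V)
    (hF : Compat F D.toGam) {κ : ℕ} (hJ : n0 + (p - 1) * κ < J) (hL : n0 + (p - 1) * κ < L)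
    (hn : Even (n0 + (p - 1) * κ)) {x : ℝ} (hx : x ≤ ((n0 + (p - 1) * κ : ℕ) : ℝ) / 2)
    {r : ℕ} {Λ : ℝ} (hr : (p : ℝ) ^ (-Λ) ≤ ‖(cr F.U r).eval (κ : ℚ_[p])‖) :
    r * x - Λ ≤ Gf (toQ (D.π (n0 + (p - 1) * κ) * D.W (n0 + (p - 1) * κ) *
      D.ι (n0 + (p - 1) * κ))) x := by
  have hp1 := one_lt_pI (p := p)
  have hp0 : (0 : ℝ) < p := by linarith
  have hpos : 0 < ‖(cr F.U r).eval (κ : ℚ_[p])‖ := lt_of_lt_of_le (Real.rpow_pos_of_pos hp0 _) hr
  have hn0 : (0 : ℝ) ≤ ((n0 + (p - 1) * κ : ℕ) : ℝ) := Nat.cast_nonneg _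
  have h1 := FF_family F hF hJ hL (x := x) (by linarith)
  rw [FF_total D hn hx] at h1
  have h2 : (F.U.map fun f => f.eval (κ : ℚ_[p])).charpolyRev.coeff r =
      (-1) ^ r * (cr F.U r).eval (κ : ℚ_[p]) := by rw [bridge_coeff, eval_cr]
  have h3 : ‖(F.U.map fun f => f.eval (κ : ℚ_[p])).charpolyRev.coeff r‖ =
      ‖(cr F.U r).eval (κ : ℚ_[p])‖ := by
    rw [h2, norm_mul, norm_pow, norm_neg, norm_one, one_pow, one_mul]
  have h4 := FF_le hp1 (P := (F.U.map fun f => f.eval (κ : ℚ_[p])).charpolyRev) (r := r)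
    (norm_pos_iff.1 (by rw [h3]; exact hpos)) x
  rw [h1, vv, h3] at h4
  have h5 := Real.logb_le_logb_of_le hp1 (Real.rpow_pos_of_pos hp0 _) hr
  rw [Real.logb_rpow hp0 hp1.ne'] at h5
  linarith

end Gouvea
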