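import Mathlib

/-!
# Gouvêa's distribution question (MP_d3517d_nt), Q1: the statement

Everything is stated for Mathlib's cusp forms.
-/

open Filter Topology MeasureTheory UpperHalfPlane CongruenceSubgroup
open scoped MatrixGroups ModularForm ENNReal

noncomputable section

namespace Gouvea

/-- `Γ₀(N)` as a subgroup of `GL₂(ℝ)`. -/
abbrev Gam0 (N : ℕ) : Subgroup (GL (Fin 2) ℝ) :=
  (Gamma0 N).map (Matrix.SpecialLinearGroup.mapGL ℝ)

/-- Cusp forms of weight `k` for `Γ₀(N)` (trivial character). -/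
abbrev Cusp (N k : ℕ) : Type := CuspForm (Gam0 N) k

/-- The matrix with rows `(a, b)`, `(0, d)`. -/
def tri (a b d : ℝ) (h : a * d ≠ 0) : GL (Fin 2) ℝ :=
  Matrix.GeneralLinearGroup.mkOfDetNeZero !![a, b; 0, d] (by simpa [Matrix.det_fin_two] using h)

/-- The `n`-th coefficient of the `q`-expansion of `f`. -/
def coef (f : ℍ → ℂ) (n : ℕ) : ℂ := (qExpansion 1 f).coeff n

/-- The Hecke operator `T_l` of weight `k`, `l` a prime not dividing the level: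
`T_l f = f | (l 0; 0 1) + Σ_{0 ≤ b < l} f | (1 b; 0 l)`. -/
def Tl (k l : ℕ) [NeZero l] (f : ℍ → ℂ) : ℍ → ℂ :=
  f ∣[(k : ℤ)] tri l 0 1 (by simp [NeZero.ne l]) +
    ∑ b ∈ Finset.range l, f ∣[(k : ℤ)] tri 1 b l (by simp [NeZero.ne l])

/-- The space of old forms: spanned by the forms `g(z)` and `g(l z)`, where `g` has level `N / l`
and `l` is a prime divisor of `N`. -/
def old (N k : ℕ) : Submodule ℂ (Cusp N k) :=
  Submodule.span ℂ {f | ∃ l : ℕ, l.Prime ∧ l ∣ N ∧ ∃ g : Cusp (N / l) k,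
    (∀ z : ℍ, f z = g z) ∨ (∀ z w : ℍ, (w : ℂ) = l * z → f z = g w)}

/-- The Petersson inner product on the cusp forms for `Γ₀(N)`: the integral over a fundamental
domain of `Γ₀(N)` is written as an integral over the standard fundamental domain of `SL₂(ℤ)`. -/
def pet (N k : ℕ) (f g : Cusp N k) : ℂ :=
  ∫ z in ModularGroup.fd, ∑ᶠ c : SL(2, ℤ) ⧸ Gamma0 N,
    petersson k (⇑f ∣[(k : ℤ)] (Quotient.out c)⁻¹) (⇑g ∣[(k : ℤ)] (Quotient.out c)⁻¹) z

/-- `f` is a newform of level `Γ₀(N)` and weight `k`: a normalised cusp form which is an eigenform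
of all `T_l`, `l` a prime not dividing `N`, and is orthogonal to the old forms. -/
structure IsNewform (N k : ℕ) (f : Cusp N k) : Prop where
  norm : coef f 1 = 1
  eigen : ∀ (l : ℕ) [NeZero l], l.Prime → ¬ l ∣ N → ∃ a : ℂ, Tl k l f = a • ⇑f
  new : ∀ g ∈ old N k, pet N k f g = 0

variable (p : ℕ) [Fact p.Prime]

/-- An embedding `j` of the algebraic numbers into `\bar ℚ_p`, extended by `0`. -/
def emb (j : algebraicClosure ℚ ℂ →+* PadicAlgCl p) (z : ℂ) : PadicAlgCl p :=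
  open Classical in if h : z ∈ algebraicClosure ℚ ℂ then j ⟨z, h⟩ else 0

/-- The valuation `v_p(x) ∈ [0, ∞]` of an integral element of `\bar ℚ_p`. -/
def vp (x : PadicAlgCl p) : ℝ≥0∞ :=
  open Classical in if x = 0 then ⊤ else ENNReal.ofReal (-Real.logb p ‖x‖)

/-- The set `x_T(ρ̄)` for `ρ̄ = ρ̄_{f₀}`: the newforms `f` of level `N` and weight `k ≤ T` such that
`a_l(f)` is congruent to `a_l(f₀)` for all primes `l` not dividing `N p`. -/
def xT (N : ℕ) (j : algebraicClosure ℚ ℂ →+* PadicAlgCl p) (f₀ : ℍ → ℂ) (T : ℕ) :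
    Set (Σ k : ℕ, Cusp N k) :=
  {f | f.1 ≤ T ∧ IsNewform N f.1 f.2 ∧ ∀ l : ℕ, l.Prime → ¬ l ∣ N * p →
    ‖emb p j (coef f.2 l) - emb p j (coef f₀ l)‖ < 1}

/-- The uniform measure on the numbers `(p + 1) / k * v_p(a_p(f))`, `f ∈ x_T`. -/
def unifT (N : ℕ) (j : algebraicClosure ℚ ℂ →+* PadicAlgCl p) (f₀ : ℍ → ℂ) (T : ℕ) :
    Measure ℝ≥0∞ :=
  ((xT p N j f₀ T).ncard : ℝ≥0∞)⁻¹ • Measure.sum fun f : xT p N j f₀ T =>
    Measure.dirac (ENNReal.ofReal ((p + 1 : ℝ) / f.1.1) * vp p (emb p j (coef f.1.2 p)))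

/-- **Gouvêa's question Q1.** -/
def Q1 (N : ℕ) : Prop :=
  ∀ (j : algebraicClosure ℚ ℂ →+* PadicAlgCl p) (k₀ : ℕ) (f₀ : Cusp N k₀), IsNewform N k₀ f₀ →
    (∀ k (f : Cusp N k), IsNewform N k f → ∀ l : ℕ, l.Prime → ¬ l ∣ N →
      IsIntegral ℤ (coef f l)) ∧
    (∀ T, (xT p N j f₀ T).Finite) ∧
    ∃ (μ : ℕ → ProbabilityMeasure ℝ≥0∞) (ν : ProbabilityMeasure ℝ≥0∞),
      (∀ᶠ T in atTop, (μ T : Measure ℝ≥0∞) = unifT p N j f₀ T) ∧
      (ν : Measure ℝ≥0∞) = (volume.restrict (Set.Icc (0 : ℝ) 1)).map ENNReal.ofReal ∧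
      Tendsto μ atTop (𝓝 ν)

end Gouvea
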