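import Mathlib

/-!
# MP_d3517d_nt: divisibility of minors of a factored matrix ((2.2) of the paper proof)
-/

set_option autoImplicit false

namespace Pool.Agent.Gouv

open Finset Matrix

section Minors

variable {R I ρ : Type*} [CommRing R] [Fintype I] [Fintype ρ] [DecidableEq ρ]

/-- expansion of the determinant of a product along all maps -/
theorem cb_det_mul (A : Matrix ρ I R) (B : Matrix I ρ R) :
    (A * B).det = ∑ f : ρ → I, (∏ i, A i (f i)) * (B.submatrix f id).det := by
  classical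
  have h1 : (A * B).det = (Matrix.detRowAlternating : (ρ → R) [⋀^ρ]→ₗ[R] R)
      (fun i => ∑ k : I, A i k • B k) := by
    have e : (fun i => ∑ k : I, A i k • B k) = A * B := by
      funext i j
      simp [Matrix.mul_apply, Finset.sum_apply]
    rw [e]
    rfl
  rw [h1]
  have h2 := (Matrix.detRowAlternating : (ρ → R) [⋀^ρ]→ₗ[R] R).toMultilinearMap.map_sum
    (fun (i : ρ) (k : I) => A i k • B k)
  have h3 : (Matrix.detRowAlternating : (ρ → R) [⋀^ρ]→ₗ[R] R)
      (fun i => ∑ k : I, A i k • B k) = ∑ f : ρ → I,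
        (Matrix.detRowAlternating : (ρ → R) [⋀^ρ]→ₗ[R] R) (fun i => A i (f i) • B (f i)) := h2
  rw [h3]
  refine sum_congr rfl fun f _ => ?_
  have h4 := (Matrix.detRowAlternating : (ρ → R) [⋀^ρ]→ₗ[R] R).toMultilinearMap.map_smul_univ
    (fun i => A i (f i)) (fun i => B (f i))
  exact h4

omit [Fintype I] in
theorem cb_det_eq_zero {f : ρ → I} (hf : ¬ Function.Injective f) (B : Matrix I ρ R) :
    (B.submatrix f id).det = 0 := by
  rw [Function.not_injective_iff] at hf
  obtain ⟨a, b, hab, hne⟩ := hf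
  refine Matrix.det_zero_of_row_eq hne ?_
  funext j
  simp [hab]

/-- (2.2), square form: `x ^ m` divides `det (A D B)`, `D` diagonal with entries `x ^ (ψ i)`, if
every injection into the index set has `ψ`-sum at least `m`. -/
theorem cb_dvd [DecidableEq I] (x : R) (ψ : I → ℕ) (A : Matrix ρ I R) (B : Matrix I ρ R) (m : ℕ)
    (hm : ∀ f : ρ → I, Function.Injective f → m ≤ ∑ c, ψ (f c)) :
    x ^ m ∣ (A * Matrix.diagonal (fun i => x ^ ψ i) * B).det := by
  rw [cb_det_mul]
  refine dvd_sum fun f _ => ?_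
  by_cases hf : Function.Injective f
  · refine Dvd.dvd.mul_right ?_ _
    have h1 : (∏ i, (A * Matrix.diagonal (fun i => x ^ ψ i)) i (f i)) =
        (∏ i, A i (f i)) * x ^ (∑ c, ψ (f c)) := by
      rw [← Finset.prod_pow_eq_pow_sum, ← Finset.prod_mul_distrib]
      refine Finset.prod_congr rfl fun i _ => ?_
      rw [Matrix.mul_diagonal]
    rw [h1]
    exact Dvd.dvd.mul_left (pow_dvd_pow _ (hm f hf)) _
  · rw [cb_det_eq_zero hf, mul_zero]
    exact dvd_zero _

/-- (2.2): if `U = D_φ G D_ψ H` then the minor of `U` with rows `a` and columns `b` is divisible by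
`x ^ (φ(rows) + m)`, `m` a lower bound for the `ψ`-sum of `ρ` different indices. -/
theorem cb_minor_dvd [DecidableEq I] (x : R) (φ ψ : I → ℕ) (U G H : Matrix I I R)
    (hU : U = Matrix.diagonal (fun i => x ^ φ i) * G * Matrix.diagonal (fun i => x ^ ψ i) * H)
    (a b : ρ → I) (m : ℕ) (hm : ∀ f : ρ → I, Function.Injective f → m ≤ ∑ c, ψ (f c)) :
    x ^ (∑ c, φ (a c) + m) ∣ (U.submatrix a b).det := by
  have h1 : U.submatrix a b = Matrix.diagonal (fun c => x ^ φ (a c)) *
      (G.submatrix a id * Matrix.diagonal (fun i => x ^ ψ i) * H.submatrix id b) := by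
    rw [hU]
    ext i j
    rw [Matrix.diagonal_mul, Matrix.submatrix_apply, Matrix.mul_apply, Matrix.mul_apply,
      Finset.mul_sum]
    refine Finset.sum_congr rfl fun k _ => ?_
    rw [Matrix.mul_diagonal, Matrix.mul_diagonal, Matrix.diagonal_mul, Matrix.submatrix_apply,
      Matrix.submatrix_apply]
    simp only [id]
    ring
  rw [h1, Matrix.det_mul, Matrix.det_diagonal, Finset.prod_pow_eq_pow_sum, pow_add]
  exact mul_dvd_mul dvd_rfl (cb_dvd x ψ _ _ m hm)

/-- row version only: rows `a c` of `U` are divisible by `x ^ φ (a c)`. -/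
theorem cb_rows_dvd {I : Type*} (x : R) (φ : I → ℕ) (U : Matrix I I R)
    (hU : ∀ i j, x ^ φ i ∣ U i j) (a b : ρ → I) :
    x ^ (∑ c, φ (a c)) ∣ (U.submatrix a b).det := by
  choose G hG using hU
  have h1 : U.submatrix a b = Matrix.diagonal (fun c => x ^ φ (a c)) *
      (Matrix.of G).submatrix a b := by
    ext i j
    rw [Matrix.diagonal_mul, Matrix.submatrix_apply, Matrix.submatrix_apply, hG]
    rfl
  rw [h1, Matrix.det_mul, Matrix.det_diagonal, Finset.prod_pow_eq_pow_sum]
  exact dvd_mul_right _ _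

end Minors

section Low

variable {E : Type*} [Fintype E] [DecidableEq E]

omit [Fintype E] in
theorem ls_split (A B : Finset (E × ℕ)) (f : E × ℕ → ℕ) :
    ∑ x ∈ A, f x = ∑ x ∈ A \ B, f x + ∑ x ∈ A ∩ B, f x := by
  rw [← sum_union (disjoint_sdiff_inter A B), sdiff_union_inter]

/-- the sum of a monotone function of the level over `r = q M - u` places is at least its sum over
the box `E × [0, M)` minus `u` times the value at the level `M - 1`. -/
theorem low_sum {ψ : ℕ → ℕ} (hψ : Monotone ψ) (S : Finset (E × ℕ)) (M u : ℕ)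
    (hS : S.card + u = Fintype.card E * M) :
    Fintype.card E * ∑ i ∈ range M, ψ i ≤ ∑ x ∈ S, ψ x.2 + u * ψ (M - 1) := by
  obtain ⟨B, hB⟩ : ∃ B : Finset (E × ℕ), B = univ ×ˢ range M := ⟨_, rfl⟩
  have hBc : B.card = Fintype.card E * M := by
    rw [hB, card_product, card_univ, card_range]
  have hBs : ∑ x ∈ B, ψ x.2 = Fintype.card E * ∑ i ∈ range M, ψ i := by
    rw [hB, sum_product]
    simp only [sum_const, card_univ, smul_eq_mul]
  have h1 : ∑ x ∈ B, ψ x.2 = ∑ x ∈ B \ S, ψ x.2 + ∑ x ∈ B ∩ S, ψ x.2 :=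
    ls_split B S (fun x => ψ x.2)
  have h2 : ∑ x ∈ S, ψ x.2 = ∑ x ∈ S \ B, ψ x.2 + ∑ x ∈ B ∩ S, ψ x.2 := by
    rw [inter_comm]
    exact ls_split S B (fun x => ψ x.2)
  have h3 : ∑ x ∈ B \ S, ψ x.2 ≤ (B \ S).card * ψ (M - 1) := by
    rw [← smul_eq_mul]
    refine sum_le_card_nsmul _ _ _ fun x hx => hψ ?_
    have := (mem_sdiff.1 hx).1
    rw [hB, mem_product, mem_range] at this
    omega
  have h4 : (S \ B).card * ψ (M - 1) ≤ ∑ x ∈ S \ B, ψ x.2 := by
    rw [← smul_eq_mul]
    refine card_nsmul_le_sum _ _ _ fun x hx => hψ ?_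
    have := (mem_sdiff.1 hx).2
    rw [hB, mem_product, mem_range] at this
    simp only [mem_univ, true_and, not_lt] at this
    omega
  have h5 : (B \ S).card = (S \ B).card + u := by
    have e1 := card_sdiff_add_card_inter B S
    have e2 := card_sdiff_add_card_inter S B
    rw [inter_comm] at e2
    omega
  rw [← hBs, h1, h2]
  rw [h5, add_mul] at h3
  omega

end Low

end Pool.Agent.Gouv
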