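import Pool.Agent.Work.MP_d3517d_nt.Basic

/-!
# M5: the combinatorial inequality

A set of indices with `a i ≤ q` elements of level `i` is compared with the set of all indices of
level `< M` (minus `u` of level `M - 1`).
-/

set_option autoImplicit false

open Polynomial Finset

noncomputable section

namespace Gouvea

variable {p : ℕ} [Fact p.Prime]

/-- `|X| = Σ_{i<M} (q - a i)` -/
def cX (q M : ℕ) (a : ℕ → ℕ) : ℕ := ∑ i ∈ range M, (q - a i)
/-- `|Y| = Σ_{M ≤ i < L} a i` -/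
def cY (M L : ℕ) (a : ℕ → ℕ) : ℕ := ∑ i ∈ Ico M L, a i
/-- the cost -/
def cost (q M L : ℕ) (a : ℕ → ℕ) : ℕ :=
  ∑ i ∈ Ico M L, a i * (i + 1 - M) + ∑ i ∈ range M, (q - a i) * (M - 1 - i)

/-- interval bound for a weight function `w` -/
def IB (p : ℕ) (w : ℕ → ℝ) (V : ℕ) : Prop :=
  (∀ n, 0 ≤ w n) ∧ ∀ a b : ℕ, a ≤ b → ∑ n ∈ Ico a b, w n ≤ ((b : ℝ) - a) / ((p : ℝ) - 1) ^ 2 + V

namespace Comb

/-- reflection of a sum over `i ≤ n` -/
theorem sum_reflect (n : ℕ) (f : ℕ → ℕ) :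
    ∑ i ∈ range (n + 1), f (n - i) = ∑ i ∈ range (n + 1), f i := by
  rw [← Finset.sum_range_reflect f (n + 1)]
  refine sum_congr rfl fun i _ => ?_
  rw [show n + 1 - 1 - i = n - i by omega]

/-- `Σ_{i ≤ n} min (f i) (f (n - i)) ≤ 2 Σ_{i ≤ n, n ≤ 2 i} f i` -/
theorem sum_min_le_up (n : ℕ) (f : ℕ → ℕ) :
    ∑ i ∈ range (n + 1), min (f i) (f (n - i)) ≤
      2 * ∑ i ∈ (range (n + 1)).filter (fun i => n ≤ 2 * i), f i := by
  have h1 : ∀ i ∈ range (n + 1), min (f i) (f (n - i)) ≤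
      (if n ≤ 2 * i then f i else 0) + (if n ≤ 2 * (n - i) then f (n - i) else 0) := by
    intro i hi
    rw [mem_range] at hi
    by_cases h : n ≤ 2 * i
    · rw [if_pos h]
      exact (min_le_left _ _).trans (Nat.le_add_right _ _)
    · rw [if_pos (show n ≤ 2 * (n - i) by omega)]
      exact (min_le_right _ _).trans (Nat.le_add_left _ _)
  refine (sum_le_sum h1).trans (le_of_eq ?_)
  rw [sum_add_distrib, sum_reflect n (fun i => if n ≤ 2 * i then f i else 0), ← sum_filter]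
  ring

/-- `Σ_{i ≤ n} min (f i) (f (n - i)) ≤ 2 Σ_{i ≤ n, 2 i ≤ n} f i` -/
theorem sum_min_le_down (n : ℕ) (f : ℕ → ℕ) :
    ∑ i ∈ range (n + 1), min (f i) (f (n - i)) ≤
      2 * ∑ i ∈ (range (n + 1)).filter (fun i => 2 * i ≤ n), f i := by
  have h1 : ∀ i ∈ range (n + 1), min (f i) (f (n - i)) ≤
      (if 2 * i ≤ n then f i else 0) + (if 2 * (n - i) ≤ n then f (n - i) else 0) := by
    intro i hi
    rw [mem_range] at hi
    by_cases h : 2 * i ≤ n
    · rw [if_pos h]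
      exact (min_le_left _ _).trans (Nat.le_add_right _ _)
    · rw [if_pos (show 2 * (n - i) ≤ n by omega)]
      exact (min_le_right _ _).trans (Nat.le_add_left _ _)
  refine (sum_le_sum h1).trans (le_of_eq ?_)
  rw [sum_add_distrib, sum_reflect n (fun i => if 2 * i ≤ n then f i else 0), ← sum_filter]
  ring

/-- `Σ min (a i) (a (n - i)) = 2 Σ a i - q (n + 1) + Σ min (q - a i) (q - a (n - i))` -/
theorem sum_min_compl {q : ℕ} (n : ℕ) (a : ℕ → ℕ) (ha : ∀ i, a i ≤ q) :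
    ∑ i ∈ range (n + 1), min (a i) (a (n - i)) + q * (n + 1) =
      2 * ∑ i ∈ range (n + 1), a i + ∑ i ∈ range (n + 1), min (q - a i) (q - a (n - i)) := by
  have h1 : ∀ i ∈ range (n + 1), min (a i) (a (n - i)) + q =
      (a i + a (n - i)) + min (q - a i) (q - a (n - i)) := by
    intro i _
    have h2 := ha i
    have h3 := ha (n - i)
    omega
  have h2 : ∑ i ∈ range (n + 1), q = q * (n + 1) := by
    rw [sum_const, card_range, smul_eq_mul, mul_comm]
  rw [← h2, ← sum_add_distrib, sum_congr rfl h1, sum_add_distrib, sum_add_distrib,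
    sum_reflect n a]
  ring

theorem Acount_le_up {M n L : ℕ} (a : ℕ → ℕ) (hn : 2 * M ≤ n + 1) (hnL : n < L) :
    Acount a L n ≤ 2 * ∑ i ∈ (Ico M L).filter (fun i => n ≤ 2 * i), a i := by
  unfold Acount
  have h1 := sum_min_le_up n a
  have h2 : ∑ i ∈ (range (n + 1)).filter (fun i => n ≤ 2 * i), a i + ∑ i ∈ Ico (n + 1) L, a i ≤
      ∑ i ∈ (Ico M L).filter (fun i => n ≤ 2 * i), a i := by
    rw [← sum_union]
    · refine sum_le_sum_of_subset fun i hi => ?_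
      rw [mem_union, mem_filter, mem_range, mem_Ico] at hi
      rw [mem_filter, mem_Ico]
      omega
    · rw [disjoint_left]
      intro i hi hi2
      rw [mem_filter, mem_range] at hi
      rw [mem_Ico] at hi2
      omega
  omega

theorem Acount_add_le {q M n L r : ℕ} (a : ℕ → ℕ) (ha : ∀ i, a i ≤ q)
    (hsum : ∑ i ∈ range L, a i = r) (hn : n + 2 ≤ 2 * M) (hnL : n < L) :
    Acount a L n + q * (n + 1) ≤
      2 * r + 2 * ∑ i ∈ (range M).filter (fun i => 2 * i ≤ n), (q - a i) := by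
  unfold Acount
  have h1 := sum_min_compl n a ha
  have h2 := sum_min_le_down n (fun i => q - a i)
  have h3 : ∑ i ∈ range (n + 1), a i + ∑ i ∈ Ico (n + 1) L, a i = r := by
    rw [← hsum, range_eq_Ico, range_eq_Ico]
    exact sum_Ico_consecutive a (Nat.zero_le _) hnL
  have h4 : ∑ i ∈ (range (n + 1)).filter (fun i => 2 * i ≤ n), (q - a i) ≤
      ∑ i ∈ (range M).filter (fun i => 2 * i ≤ n), (q - a i) := by
    refine sum_le_sum_of_subset fun i hi => ?_
    rw [mem_filter, mem_range] at hi ⊢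
    omega
  omega

/-- for `n ≥ 2 M - 1` the loss is at most `2 Σ_{i ≥ M, 2 i ≥ n} a i` -/
theorem loss_up {p h M n L r : ℕ} (a : ℕ → ℕ) (hn : 2 * M ≤ n + 1) (hnL : n < L) :
    mr p h r n ≤ ma h r a L n + 2 * ∑ i ∈ (Ico M L).filter (fun i => n ≤ 2 * i), a i := by
  have h1 := Acount_le_up a hn hnL
  unfold mr ma
  omega

/-- for `n ≤ 2 M - 2` the loss is at most `2 Σ_{i < M, 2 i ≤ n} (q - a i)` -/
theorem loss_down {p h q M n L r : ℕ} (hq : q = (p + 1) * h) (a : ℕ → ℕ) (ha : ∀ i, a i ≤ q)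
    (hsum : ∑ i ∈ range L, a i = r) (hn : n + 2 ≤ 2 * M) (hnL : n < L) :
    mr p h r n ≤ ma h r a L n +
      2 * ∑ i ∈ (range M).filter (fun i => 2 * i ≤ n), (q - a i) := by
  have h1 := Acount_add_le a ha hsum hn hnL
  have h2 : q * (n + 1) = p * h * (n + 1) + h * (n + 1) := by
    rw [hq]
    ring
  rw [h2] at h1
  unfold mr ma
  omega

/-- `(Σ f) ^ 2 ≤ 2 Σ_i f i Σ_{j ≤ i} f j` -/
theorem sq_sum_le (T : Finset ℕ) (f : ℕ → ℕ) :
    (∑ i ∈ T, f i) ^ 2 ≤ 2 * ∑ i ∈ T, f i * ∑ j ∈ T.filter (fun j => j ≤ i), f j := by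
  have h1 : (∑ i ∈ T, f i) ^ 2 = ∑ i ∈ T, ∑ j ∈ T, f i * f j := by
    rw [sq, sum_mul_sum]
  have h2 : ∀ i ∈ T, ∀ j ∈ T, f i * f j ≤
      (if j ≤ i then f i * f j else 0) + (if i ≤ j then f j * f i else 0) := by
    intro i _ j _
    rcases le_total j i with h | h
    · rw [if_pos h]
      exact Nat.le_add_right _ _
    · rw [if_pos h, mul_comm (f i) (f j)]
      exact Nat.le_add_left _ _
  have h3 : ∑ i ∈ T, ∑ j ∈ T, (if j ≤ i then f i * f j else 0) =
      ∑ i ∈ T, f i * ∑ j ∈ T.filter (fun j => j ≤ i), f j := by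
    refine sum_congr rfl fun i _ => ?_
    rw [← sum_filter, mul_sum]
  have h4 : ∑ i ∈ T, ∑ j ∈ T, (if i ≤ j then f j * f i else 0) =
      ∑ i ∈ T, f i * ∑ j ∈ T.filter (fun j => j ≤ i), f j := by
    rw [sum_comm]
    exact h3
  rw [h1]
  refine (sum_le_sum fun i hi => sum_le_sum (h2 i hi)).trans (le_of_eq ?_)
  rw [← h3]
  simp only [sum_add_distrib]
  rw [h4, h3]
  ring

/-- `(Σ f) ^ 2 ≤ 2 Σ_i f i Σ_{j ≥ i} f j` -/
theorem sq_sum_le' (T : Finset ℕ) (f : ℕ → ℕ) :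
    (∑ i ∈ T, f i) ^ 2 ≤ 2 * ∑ i ∈ T, f i * ∑ j ∈ T.filter (fun j => i ≤ j), f j := by
  refine (sq_sum_le T f).trans (le_of_eq ?_)
  congr 1
  have h3 : ∀ P : ℕ → ℕ → Prop, [∀ i j, Decidable (P i j)] → ∀ i ∈ T,
      f i * ∑ j ∈ T.filter (fun j => P j i), f j = ∑ j ∈ T, if P j i then f i * f j else 0 := by
    intro P _ i _
    rw [← sum_filter, mul_sum]
  rw [sum_congr rfl (h3 (fun j i => j ≤ i)), sum_congr rfl (h3 (fun j i => i ≤ j)), sum_comm]
  refine sum_congr rfl fun i _ => sum_congr rfl fun j _ => ?_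
  by_cases h : i ≤ j
  · rw [if_pos h, if_pos h, mul_comm]
  · rw [if_neg h, if_neg h]

/-- the part of the cost above `M` -/
def costY (M L : ℕ) (a : ℕ → ℕ) : ℕ := ∑ i ∈ Ico M L, a i * (i + 1 - M)

/-- the part of the cost below `M` -/
def costX (q M : ℕ) (a : ℕ → ℕ) : ℕ := ∑ i ∈ range M, (q - a i) * (M - 1 - i)

theorem cost_eq (q M L : ℕ) (a : ℕ → ℕ) : cost q M L a = costY M L a + costX q M a := rfl

theorem cY_sq_le {q M L : ℕ} (a : ℕ → ℕ) (ha : ∀ i, a i ≤ q) :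
    (cY M L a) ^ 2 ≤ 2 * q * costY M L a := by
  refine (sq_sum_le _ _).trans ?_
  rw [mul_assoc]
  refine Nat.mul_le_mul_left _ ?_
  rw [costY, mul_sum]
  refine sum_le_sum fun i hi => ?_
  rw [mem_Ico] at hi
  have h1 : ∑ j ∈ (Ico M L).filter (fun j => j ≤ i), a j ≤ ∑ j ∈ Ico M (i + 1), q := by
    refine (sum_le_sum fun j _ => ha j).trans (sum_le_sum_of_subset fun j hj => ?_)
    rw [mem_filter, mem_Ico] at hj
    rw [mem_Ico]
    omega
  rw [sum_const, Nat.card_Ico, smul_eq_mul] at h1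
  calc a i * ∑ j ∈ (Ico M L).filter (fun j => j ≤ i), a j ≤ a i * ((i + 1 - M) * q) :=
        Nat.mul_le_mul_left _ h1
    _ = q * (a i * (i + 1 - M)) := by ring

theorem cX_sq_le {q M : ℕ} (a : ℕ → ℕ) :
    (cX q M a) ^ 2 ≤ 2 * q * (costX q M a + cX q M a) := by
  refine (sq_sum_le' _ _).trans ?_
  rw [mul_assoc]
  refine Nat.mul_le_mul_left _ ?_
  rw [costX, cX, ← sum_add_distrib, mul_sum]
  refine sum_le_sum fun i hi => ?_
  rw [mem_range] at hi
  have h1 : ∑ j ∈ (range M).filter (fun j => i ≤ j), (q - a j) ≤ ∑ j ∈ Ico i M, q := by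
    refine (sum_le_sum fun j _ => Nat.sub_le _ _).trans (sum_le_sum_of_subset fun j hj => ?_)
    rw [mem_filter, mem_range] at hj
    rw [mem_Ico]
    omega
  rw [sum_const, Nat.card_Ico, smul_eq_mul] at h1
  calc (q - a i) * ∑ j ∈ (range M).filter (fun j => i ≤ j), (q - a j) ≤
        (q - a i) * ((M - i) * q) := Nat.mul_le_mul_left _ h1
    _ = q * ((q - a i) * (M - 1 - i) + (q - a i)) := by
        rw [show M - i = M - 1 - i + 1 by omega]
        ring

end Comb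

open Comb

theorem cX_sq {q M L : ℕ} (a : ℕ → ℕ) (ha : ∀ i, a i ≤ q) :
    (cX q M a) ^ 2 ≤ 2 * q * (cost q M L a + cX q M a) := by
  have _ := ha
  refine (cX_sq_le a).trans (Nat.mul_le_mul_left _ ?_)
  rw [cost_eq]
  omega

theorem cY_sq {q M L : ℕ} (a : ℕ → ℕ) (ha : ∀ i, a i ≤ q) :
    (cY M L a) ^ 2 ≤ 2 * q * cost q M L a := by
  refine (cY_sq_le a ha).trans (Nat.mul_le_mul_left _ ?_)
  rw [cost_eq]
  omega

omit [Fact p.Prime] in
/-- (4.1) -/
theorem comb_ghost (hp : 5 ≤ p) {h q M u L r V : ℕ} (hq : q = (p + 1) * h) (hM : 1 ≤ M)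
    (hu : u ≤ q) (a : ℕ → ℕ) (ha : ∀ i, a i ≤ q) (hr : r + u = q * M)
    (hsum : ∑ i ∈ range L, a i = r) (w : ℕ → ℝ) (hw : IB p w V) (N : Finset ℕ)
    (hN : ∀ n ∈ N, M ≤ n ∧ n < L) :
    ∑ n ∈ N, (mr p h r n : ℝ) * w n ≤ ∑ n ∈ N, (ma h r a L n : ℝ) * w n +
      4 / ((p : ℝ) - 1) ^ 2 * (cost q M L a + cX q M a) + 4 * (cX q M a + cY M L a) * V := by
  have _ := hu
  have _ := hr
  obtain ⟨hw0, hw1⟩ := hw
  have hp' : (5 : ℝ) ≤ p := by exact_mod_cast hp
  have hP : (0 : ℝ) < ((p : ℝ) - 1) ^ 2 := pow_pos (by linarith) 2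
  -- the two parts of `N`
  have hup : ∑ n ∈ N.filter (fun n => 2 * M ≤ n + 1), (mr p h r n : ℝ) * w n ≤
      ∑ n ∈ N.filter (fun n => 2 * M ≤ n + 1), (ma h r a L n : ℝ) * w n +
      ∑ i ∈ Ico M L, 2 * (a i : ℝ) * ∑ n ∈ Ico (2 * M - 1) (2 * i + 1), w n := by
    have h1 : ∀ n ∈ N.filter (fun n => 2 * M ≤ n + 1), (mr p h r n : ℝ) * w n ≤
        (ma h r a L n : ℝ) * w n +
          ∑ i ∈ Ico M L, if n ≤ 2 * i then 2 * (a i : ℝ) * w n else 0 := by
      intro n hn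
      rw [mem_filter] at hn
      have h2 := loss_up (p := p) (h := h) (r := r) a hn.2 (hN n hn.1).2
      have h3 : (mr p h r n : ℝ) ≤ (ma h r a L n : ℝ) +
          2 * ∑ i ∈ (Ico M L).filter (fun i => n ≤ 2 * i), (a i : ℝ) := by
        exact_mod_cast h2
      refine (mul_le_mul_of_nonneg_right h3 (hw0 n)).trans (le_of_eq ?_)
      rw [← sum_filter, add_mul, mul_sum, sum_mul]
    refine (sum_le_sum h1).trans ?_
    rw [sum_add_distrib]
    refine add_le_add le_rfl ?_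
    rw [sum_comm]
    refine sum_le_sum fun i _ => ?_
    rw [← sum_filter, mul_sum]
    refine sum_le_sum_of_subset_of_nonneg (fun n hn => ?_)
      (fun n _ _ => mul_nonneg (by positivity) (hw0 n))
    rw [mem_filter, mem_filter] at hn
    rw [mem_Ico]
    omega
  have hdn : ∑ n ∈ N.filter (fun n => ¬ 2 * M ≤ n + 1), (mr p h r n : ℝ) * w n ≤
      ∑ n ∈ N.filter (fun n => ¬ 2 * M ≤ n + 1), (ma h r a L n : ℝ) * w n +
      ∑ i ∈ range M, 2 * ((q - a i : ℕ) : ℝ) * ∑ n ∈ Ico (2 * i) (2 * M - 1), w n := by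
    have h1 : ∀ n ∈ N.filter (fun n => ¬ 2 * M ≤ n + 1), (mr p h r n : ℝ) * w n ≤
        (ma h r a L n : ℝ) * w n +
          ∑ i ∈ range M, if 2 * i ≤ n then 2 * ((q - a i : ℕ) : ℝ) * w n else 0 := by
      intro n hn
      rw [mem_filter] at hn
      have h2 := loss_down (M := M) hq a ha hsum (n := n) (by omega) (hN n hn.1).2
      have h3 : (mr p h r n : ℝ) ≤ (ma h r a L n : ℝ) +
          2 * ∑ i ∈ (range M).filter (fun i => 2 * i ≤ n), ((q - a i : ℕ) : ℝ) := by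
        exact_mod_cast h2
      refine (mul_le_mul_of_nonneg_right h3 (hw0 n)).trans (le_of_eq ?_)
      rw [← sum_filter, add_mul, mul_sum, sum_mul]
    refine (sum_le_sum h1).trans ?_
    rw [sum_add_distrib]
    refine add_le_add le_rfl ?_
    rw [sum_comm]
    refine sum_le_sum fun i _ => ?_
    rw [← sum_filter, mul_sum]
    refine sum_le_sum_of_subset_of_nonneg (fun n hn => ?_)
      (fun n _ _ => mul_nonneg (by positivity) (hw0 n))
    rw [mem_filter, mem_filter] at hn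
    rw [mem_Ico]
    omega
  have hY : ∑ i ∈ Ico M L, 2 * (a i : ℝ) * ∑ n ∈ Ico (2 * M - 1) (2 * i + 1), w n ≤
      4 / ((p : ℝ) - 1) ^ 2 * costY M L a + 2 * cY M L a * V := by
    have h1 : ∀ i ∈ Ico M L, 2 * (a i : ℝ) * ∑ n ∈ Ico (2 * M - 1) (2 * i + 1), w n ≤
        4 / ((p : ℝ) - 1) ^ 2 * ((a i : ℝ) * ((i + 1 - M : ℕ) : ℝ)) + 2 * (a i : ℝ) * V := by
      intro i hi
      rw [mem_Ico] at hi
      have h2 := hw1 (2 * M - 1) (2 * i + 1) (by omega)
      have h3 : ((2 * i + 1 : ℕ) : ℝ) - ((2 * M - 1 : ℕ) : ℝ) = 2 * ((i + 1 - M : ℕ) : ℝ) := by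
        rw [Nat.cast_sub (by omega), Nat.cast_sub (by omega)]
        push_cast
        ring
      rw [h3] at h2
      calc _ ≤ 2 * (a i : ℝ) * (2 * ((i + 1 - M : ℕ) : ℝ) / ((p : ℝ) - 1) ^ 2 + V) :=
            mul_le_mul_of_nonneg_left h2 (by positivity)
        _ = _ := by ring
    refine (sum_le_sum h1).trans (le_of_eq ?_)
    rw [sum_add_distrib, ← mul_sum, ← sum_mul, ← mul_sum, costY, cY]
    push_cast
    ring
  have hX : ∑ i ∈ range M, 2 * ((q - a i : ℕ) : ℝ) * ∑ n ∈ Ico (2 * i) (2 * M - 1), w n ≤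
      4 / ((p : ℝ) - 1) ^ 2 * (costX q M a + cX q M a) + 2 * cX q M a * V := by
    have h1 : ∀ i ∈ range M,
        2 * ((q - a i : ℕ) : ℝ) * ∑ n ∈ Ico (2 * i) (2 * M - 1), w n ≤
        4 / ((p : ℝ) - 1) ^ 2 * (((q - a i : ℕ) : ℝ) * ((M - 1 - i : ℕ) : ℝ)) +
          4 / ((p : ℝ) - 1) ^ 2 * ((q - a i : ℕ) : ℝ) + 2 * ((q - a i : ℕ) : ℝ) * V := by
      intro i hi
      rw [mem_range] at hi
      have h2 := hw1 (2 * i) (2 * M - 1) (by omega)
      have h3 : ((2 * M - 1 : ℕ) : ℝ) - ((2 * i : ℕ) : ℝ) ≤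
          2 * ((M - 1 - i : ℕ) : ℝ) + 2 := by
        rw [Nat.cast_sub (by omega), Nat.cast_sub (by omega), Nat.cast_sub (by omega)]
        push_cast
        linarith
      have h4 : ∑ n ∈ Ico (2 * i) (2 * M - 1), w n ≤
          (2 * ((M - 1 - i : ℕ) : ℝ) + 2) / ((p : ℝ) - 1) ^ 2 + V := by
        refine h2.trans (add_le_add ?_ le_rfl)
        gcongr
      calc _ ≤ 2 * ((q - a i : ℕ) : ℝ) *
            ((2 * ((M - 1 - i : ℕ) : ℝ) + 2) / ((p : ℝ) - 1) ^ 2 + V) :=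
            mul_le_mul_of_nonneg_left h4 (by positivity)
        _ = _ := by ring
    refine (sum_le_sum h1).trans (le_of_eq ?_)
    rw [sum_add_distrib, sum_add_distrib, ← mul_sum, ← mul_sum, ← sum_mul, ← mul_sum, costX, cX]
    push_cast
    ring
  have hs1 := sum_filter_add_sum_filter_not N (fun n => 2 * M ≤ n + 1)
    (fun n => (mr p h r n : ℝ) * w n)
  have hs2 := sum_filter_add_sum_filter_not N (fun n => 2 * M ≤ n + 1)
    (fun n => (ma h r a L n : ℝ) * w n)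
  have hc : ((cost q M L a : ℕ) : ℝ) = costY M L a + costX q M a := by
    rw [cost_eq]
    push_cast
    ring
  rw [← hs1, ← hs2, hc]
  have hX0 : (0 : ℝ) ≤ (cX q M a : ℝ) * V := by positivity
  have hY0 : (0 : ℝ) ≤ (cY M L a : ℝ) * V := by positivity
  have e1 : 4 / ((p : ℝ) - 1) ^ 2 * ((costY M L a : ℝ) + costX q M a + cX q M a) =
      4 / ((p : ℝ) - 1) ^ 2 * costY M L a +
        4 / ((p : ℝ) - 1) ^ 2 * ((costX q M a : ℝ) + cX q M a) := by ring
  rw [e1]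
  nlinarith [hup, hdn, hY, hX]

omit [Fact p.Prime] in
/-- (4.4) -/
theorem comb_cost1 {h q M u L r k n : ℕ} (hq : q = (p + 1) * h) (hM : 1 ≤ M)
    (hu : u ≤ q) (a : ℕ → ℕ) (ha : ∀ i, a i ≤ q) (hr : r + u = q * M)
    (hsum : ∑ i ∈ range L, a i = r) (hn : M ≤ n) (hnL : n < L)
    (hk : ma h r a L n + k ≤ mr p h r n) :
    (k : ℤ) * |(n : ℤ) + 2 - 2 * M| ≤ 4 * cost q M L a := by
  have _ := hM
  have _ := hu
  have _ := hr
  have _ := hn
  rcases Nat.lt_or_ge (n + 1) (2 * M) with h1 | h1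
  · have h2 := loss_down hq a ha hsum (show n + 2 ≤ 2 * M by omega) hnL
    have h3 : k ≤ 2 * ∑ i ∈ (range M).filter (fun i => 2 * i ≤ n), (q - a i) := by omega
    have h4 : (∑ i ∈ (range M).filter (fun i => 2 * i ≤ n), (q - a i)) * (2 * M - 2 - n) ≤
        2 * costX q M a := by
      rw [sum_mul, costX, mul_sum]
      refine (sum_le_sum fun i hi => ?_).trans (sum_le_sum_of_subset (filter_subset _ _))
      rw [mem_filter] at hi
      calc (q - a i) * (2 * M - 2 - n) ≤ (q - a i) * (2 * (M - 1 - i)) :=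
            Nat.mul_le_mul_left _ (by omega)
        _ = 2 * ((q - a i) * (M - 1 - i)) := by ring
    have h5 : k * (2 * M - 2 - n) ≤ 4 * cost q M L a := by
      calc k * (2 * M - 2 - n) ≤
          2 * (∑ i ∈ (range M).filter (fun i => 2 * i ≤ n), (q - a i)) * (2 * M - 2 - n) :=
            Nat.mul_le_mul_right _ h3
        _ = 2 * ((∑ i ∈ (range M).filter (fun i => 2 * i ≤ n), (q - a i)) *
            (2 * M - 2 - n)) := by ring
        _ ≤ 2 * (2 * costX q M a) := Nat.mul_le_mul_left _ h4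
        _ ≤ _ := by
          rw [cost_eq]
          omega
    have h6 : |(n : ℤ) + 2 - 2 * M| = ((2 * M - 2 - n : ℕ) : ℤ) := by
      rw [abs_of_nonpos (by omega)]
      omega
    rw [h6]
    exact_mod_cast h5
  · have h2 := loss_up (p := p) (h := h) (r := r) a h1 hnL
    have h3 : k ≤ 2 * ∑ i ∈ (Ico M L).filter (fun i => n ≤ 2 * i), a i := by omega
    have h4 : (∑ i ∈ (Ico M L).filter (fun i => n ≤ 2 * i), a i) * (n + 2 - 2 * M) ≤
        2 * costY M L a := by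
      rw [sum_mul, costY, mul_sum]
      refine (sum_le_sum fun i hi => ?_).trans (sum_le_sum_of_subset (filter_subset _ _))
      rw [mem_filter] at hi
      calc a i * (n + 2 - 2 * M) ≤ a i * (2 * (i + 1 - M)) :=
            Nat.mul_le_mul_left _ (by omega)
        _ = 2 * (a i * (i + 1 - M)) := by ring
    have h5 : k * (n + 2 - 2 * M) ≤ 4 * cost q M L a := by
      calc k * (n + 2 - 2 * M) ≤
          2 * (∑ i ∈ (Ico M L).filter (fun i => n ≤ 2 * i), a i) * (n + 2 - 2 * M) :=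
            Nat.mul_le_mul_right _ h3
        _ = 2 * ((∑ i ∈ (Ico M L).filter (fun i => n ≤ 2 * i), a i) *
            (n + 2 - 2 * M)) := by ring
        _ ≤ 2 * (2 * costY M L a) := Nat.mul_le_mul_left _ h4
        _ ≤ _ := by
          rw [cost_eq]
          omega
    have h6 : |(n : ℤ) + 2 - 2 * M| = ((n + 2 - 2 * M : ℕ) : ℤ) := by
      rw [abs_of_nonneg (by omega)]
      omega
    rw [h6]
    exact_mod_cast h5

omit [Fact p.Prime] in
theorem comb_cost2 {h q M u L r k n : ℕ} (hq : q = (p + 1) * h) (hM : 1 ≤ M)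
    (hu : u ≤ q) (a : ℕ → ℕ) (ha : ∀ i, a i ≤ q) (hr : r + u = q * M)
    (hsum : ∑ i ∈ range L, a i = r) (hn : M ≤ n) (hnL : n < L)
    (hk : ma h r a L n + k ≤ mr p h r n) :
    k ^ 2 ≤ 8 * q * (cost q M L a + cX q M a) := by
  have _ := hM
  have _ := hu
  have _ := hr
  have _ := hn
  rcases Nat.lt_or_ge (n + 1) (2 * M) with h1 | h1
  · have h2 := loss_down hq a ha hsum (show n + 2 ≤ 2 * M by omega) hnL
    have h3 : ∑ i ∈ (range M).filter (fun i => 2 * i ≤ n), (q - a i) ≤ cX q M a :=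
      sum_le_sum_of_subset (filter_subset _ _)
    have h4 : k ≤ 2 * cX q M a := by omega
    calc k ^ 2 ≤ (2 * cX q M a) ^ 2 := Nat.pow_le_pow_left h4 2
      _ = 4 * (cX q M a) ^ 2 := by ring
      _ ≤ 4 * (2 * q * (cost q M L a + cX q M a)) := Nat.mul_le_mul_left _ (cX_sq a ha)
      _ = _ := by ring
  · have h2 := loss_up (p := p) (h := h) (r := r) a h1 hnL
    have h3 : ∑ i ∈ (Ico M L).filter (fun i => n ≤ 2 * i), a i ≤ cY M L a :=
      sum_le_sum_of_subset (filter_subset _ _)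
    have h4 : k ≤ 2 * cY M L a := by omega
    calc k ^ 2 ≤ (2 * cY M L a) ^ 2 := Nat.pow_le_pow_left h4 2
      _ = 4 * (cY M L a) ^ 2 := by ring
      _ ≤ 4 * (2 * q * cost q M L a) := Nat.mul_le_mul_left _ (cY_sq a ha)
      _ = 8 * q * cost q M L a := by ring
      _ ≤ _ := Nat.mul_le_mul_left _ (Nat.le_add_right _ _)

end Gouvea
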