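import Pool.Agent.Work.MP_d3517d_nt.Iwahori

/-!
# Coordinates of forms and the matrices of the Hecke operators (MP_d3517d_nt, M15)

`slM n g` is the matrix of the weight `n` action of `g ∈ M₂(ℤ_p)`.  A `Frame` on a
`GL₂(ℚ_p)`-set `Ω` is a choice of representatives of the orbits of the Iwahori subgroup and of
`GL₂(ℤ_p)`.  The value at `w ∈ Ω` of a form, in terms of its values at the base points, is given by
the matrix `evE n w` (forms for the Iwahori group) resp. `evV n w`.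
-/

open Polynomial Finset Matrix

noncomputable section

namespace Gouvea

variable {p : ℕ} [Fact p.Prime]

/-! ### the matrices `slM` -/

lemma slM_scalar (n : ℕ) (M : Matrix (Fin 2) (Fin 2) ℤ_[p]) (a : ℤ_[p]) (h00 : M 0 0 = a)
    (h01 : M 0 1 = 0) (h10 : M 1 0 = 0) (h11 : M 1 1 = a) : slM n M = a ^ n • 1 := by
  have h : M = a • 1 := by
    ext i j
    fin_cases i <;> fin_cases j <;> simp [h00, h01, h10, h11]
  rw [h, slM_smul, slM_one]

/-! ### groups -/

/-- `GL₂(ℤ_p)`. -/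
abbrev K0 (p : ℕ) [Fact p.Prime] := Matrix.GeneralLinearGroup (Fin 2) ℤ_[p]

/-- `GL₂(ℤ_p) → GL₂(ℚ_p)`. -/
def toG : K0 p →* G p :=
  Matrix.GeneralLinearGroup.map (n := Fin 2) (algebraMap ℤ_[p] ℚ_[p])

lemma toG_apply (k : K0 p) (i j : Fin 2) : toG k i j = ((k i j : ℤ_[p]) : ℚ_[p]) := rfl

lemma mem_K_iff_toG (g : G p) : g ∈ K p ↔ ∃ k : K0 p, toG k = g := MonoidHom.mem_range

lemma toG_mem_K (k : K0 p) : toG k ∈ K p := (mem_K_iff_toG _).2 ⟨k, rfl⟩

/-- The Iwahori subgroup (upper triangular modulo `p`) of `GL₂(ℤ_p)`. -/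
def Iw0 (p : ℕ) [Fact p.Prime] : Subgroup (K0 p) where
  carrier := {g | (p : ℤ_[p]) ∣ g 1 0}
  one_mem' := by simp
  mul_mem' := by
    intro a b ha hb
    simp only [Set.mem_ofPred_eq] at ha hb ⊢
    rw [Matrix.GeneralLinearGroup.coe_mul, Matrix.mul_apply, Fin.sum_univ_two]
    exact dvd_add (Dvd.dvd.mul_right ha _) (Dvd.dvd.mul_left hb _)
  inv_mem' := by
    intro a ha
    simp only [Set.mem_ofPred_eq] at ha ⊢
    rw [Matrix.coe_units_inv, Matrix.inv_def, Matrix.adjugate_fin_two]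
    simp only [Matrix.smul_apply, Matrix.of_apply, Matrix.cons_val', Matrix.cons_val_zero,
      Matrix.cons_val_one, smul_eq_mul]
    exact Dvd.dvd.mul_left (by simpa using ha) _

lemma mem_Iw0 {g : K0 p} : g ∈ Iw0 p ↔ (p : ℤ_[p]) ∣ g 1 0 := Iff.rfl

/-- The Atkin-Lehner element `(0 1; p 0)`, as a matrix over `ℤ_p`. -/
def etaM (p : ℕ) [Fact p.Prime] : Matrix (Fin 2) (Fin 2) ℤ_[p] := !![0, 1; (p : ℤ_[p]), 0]

lemma eta_coe : ((eta p : G p) : Matrix (Fin 2) (Fin 2) ℚ_[p]) = !![0, 1; (p : ℚ_[p]), 0] := rfl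

/-- representatives of `Iw \ K`: `1` and `(0 1; 1 t)`. -/
def kt0 (t : ℤ_[p]) : K0 p :=
  ⟨!![0, 1; 1, t], !![-t, 1; 1, 0], by
    ext i j; fin_cases i <;> fin_cases j <;> simp [Matrix.mul_apply, Fin.sum_univ_two], by
    ext i j; fin_cases i <;> fin_cases j <;> simp [Matrix.mul_apply, Fin.sum_univ_two]⟩

lemma kt0_coe (t : ℤ_[p]) : ((kt0 t : K0 p) : Matrix (Fin 2) (Fin 2) ℤ_[p]) = !![0, 1; 1, t] := rfl

lemma kt0_inv_coe (t : ℤ_[p]) :
    ((kt0 t)⁻¹ : K0 p).1 = !![-t, 1; 1, 0] := rfl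

/-- the class in `Iw \ K`: `none` for `Iw`, `some t` for `Iw (0 1; 1 t)`. -/
def rp : Option (Fin p) → K0 p
  | none => 1
  | some t => kt0 ((t : ℕ) : ℤ_[p])

@[simp] lemma rp_none : rp (p := p) none = 1 := rfl
@[simp] lemma rp_some (t : Fin p) : rp (some t) = kt0 (((t : ℕ) : ℤ_[p])) := rfl

lemma mul_kt0_inv_10 (k : K0 p) (t : ℤ_[p]) : (k * (kt0 t)⁻¹) 1 0 = k 1 1 - k 1 0 * t := by
  rw [Matrix.GeneralLinearGroup.coe_mul, Matrix.mul_apply, Fin.sum_univ_two]
  change k 1 0 * (-t) + k 1 1 * 1 = _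
  ring

lemma exists_rp (k : K0 p) : ∃ s : Option (Fin p), k * (rp s)⁻¹ ∈ Iw0 p := by
  by_cases h : (p : ℤ_[p]) ∣ k 1 0
  · exact ⟨none, by simpa [mem_Iw0] using h⟩
  · have hp : (p : ℕ) ≠ 0 := (Fact.out : p.Prime).ne_zero
    have hc : PadicInt.toZMod (k 1 0) ≠ 0 := by
      intro h0
      apply h
      have : k 1 0 ∈ RingHom.ker (PadicInt.toZMod (p := p)) := h0
      rwa [PadicInt.ker_toZMod, PadicInt.maximalIdeal_eq_span_p, Ideal.mem_span_singleton] at this
    set t : ZMod p := PadicInt.toZMod (k 1 1) / PadicInt.toZMod (k 1 0) with ht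
    have : NeZero p := ⟨hp⟩
    refine ⟨some ⟨t.val, ZMod.val_lt t⟩, ?_⟩
    rw [mem_Iw0, rp_some, mul_kt0_inv_10]
    have h0 : k 1 1 - k 1 0 * ((t.val : ℕ) : ℤ_[p]) ∈ RingHom.ker (PadicInt.toZMod (p := p)) := by
      rw [RingHom.mem_ker, map_sub, map_mul, map_natCast, ZMod.natCast_zmod_val, ht]
      field_simp
      ring
    rwa [PadicInt.ker_toZMod, PadicInt.maximalIdeal_eq_span_p, Ideal.mem_span_singleton] at h0

lemma rp_unique {s s' : Option (Fin p)} (h : rp s * (rp s')⁻¹ ∈ Iw0 p) : s = s' := by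
  have hp1 : ¬ (p : ℤ_[p]) ∣ 1 := by
    intro h1
    exact PadicInt.prime_p.not_isUnit (isUnit_of_dvd_one h1)
  cases s with
  | none =>
    cases s' with
    | none => rfl
    | some t' =>
      exfalso
      rw [mem_Iw0, rp_some, rp_none, mul_kt0_inv_10] at h
      apply hp1
      simpa using h
  | some t =>
    cases s' with
    | none =>
      exfalso
      rw [mem_Iw0, rp_none, rp_some] at h
      apply hp1
      simpa [kt0_coe] using h
    | some t' =>
      rw [mem_Iw0, rp_some, rp_some, mul_kt0_inv_10] at h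
      have h2 : (p : ℤ_[p]) ∣ ((t : ℕ) : ℤ_[p]) - ((t' : ℕ) : ℤ_[p]) := by
        simpa [kt0_coe] using h
      have h3 : ((t : ℕ) : ℤ_[p]) - ((t' : ℕ) : ℤ_[p]) ∈
          RingHom.ker (PadicInt.toZMod (p := p)) := by
        rwa [PadicInt.ker_toZMod, PadicInt.maximalIdeal_eq_span_p, Ideal.mem_span_singleton]
      rw [RingHom.mem_ker, map_sub, map_natCast, map_natCast, sub_eq_zero] at h3
      have h4 := (ZMod.natCast_eq_natCast_iff' _ _ _).1 h3
      rw [Nat.mod_eq_of_lt t.2, Nat.mod_eq_of_lt t'.2] at h4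
      rw [Fin.ext h4]

/-- the class of an element of `K` in `Iw \ K`. -/
def clsK (k : K0 p) : Option (Fin p) := (exists_rp k).choose

lemma clsK_mem (k : K0 p) : k * (rp (clsK k))⁻¹ ∈ Iw0 p := (exists_rp k).choose_spec

/-- A sum over `Iw \ K` is invariant under right translations. -/
lemma sum_rp_mul {M : Type*} [AddCommMonoid M] (φ : K0 p → M)
    (hφ : ∀ u ∈ Iw0 p, ∀ k, φ (u * k) = φ k) (g : K0 p) :
    ∑ s, φ (rp s * g) = ∑ s, φ (rp s) := by
  have hinj : Function.Injective fun s : Option (Fin p) => clsK (rp s * g) := by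
    intro s s' h
    apply rp_unique
    have h1 := clsK_mem (rp s * g)
    have h2 := clsK_mem (rp s' * g)
    simp only at h
    rw [h] at h1
    have h3 := (Iw0 p).mul_mem h1 ((Iw0 p).inv_mem h2)
    simpa [mul_assoc] using h3
  have hbij := Finite.injective_iff_bijective.1 hinj
  rw [← hbij.sum_comp fun s => φ (rp s)]
  refine Finset.sum_congr rfl fun s _ => ?_
  have h1 := hφ _ (clsK_mem (rp s * g)) (rp (clsK (rp s * g)))
  change _ = φ (rp (clsK (rp s * g)))
  rw [← h1]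
  congr 1
  simp [mul_assoc]

/-! ### frames -/

/-- A choice of representatives of the orbits of the Iwahori group (`x e`, `e ∈ E`) and of
`GL₂(ℤ_p)` (`y v`, `v ∈ V`) on a `GL₂(ℚ_p)`-set on which `±1` are the only elements of `GL₂(ℤ_p)`
with a fixed point, and `p` acts trivially. -/
structure Frame (p : ℕ) [Fact p.Prime] (Ω : Type) [MulAction (G p) Ω] (E V : Type) where
  /-- representatives for `Iw` -/
  x : E → Ω
  /-- representatives for `K` -/
  y : V → Ω
  cE : Ω → E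
  cV : Ω → V
  kE : Ω → K0 p
  kV : Ω → K0 p
  kE_mem : ∀ w, kE w ∈ Iw0 p
  kE_smul : ∀ w, toG (kE w) • x (cE w) = w
  kV_smul : ∀ w, toG (kV w) • y (cV w) = w
  cE_smul : ∀ k ∈ Iw0 p, ∀ w, cE (toG k • w) = cE w
  cV_smul : ∀ (k : K0 p) (w), cV (toG k • w) = cV w
  cE_x : ∀ e, cE (x e) = e
  cV_y : ∀ v, cV (y v) = v
  /-- the Atkin-Lehner involution on the orbits of `Iw` -/
  σ : Equiv.Perm E
  σσ : ∀ e, σ (σ e) = e
  t : E → K0 p
  t01 : ∀ e, t e 0 1 = 0
  t10 : ∀ e, t e 1 0 = 0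
  eta_x : ∀ e, eta p • x e = toG (t e) • x (σ e)
  free : ∀ (k : K0 p) (w : Ω), toG k • w = w → k = 1 ∨ k = -1
  scal_smul : ∀ w : Ω, scal p • w = w

namespace Frame

variable {Ω : Type} [MulAction (G p) Ω] {E V : Type} (F : Frame p Ω E V)

include F in
lemma eq_or_neg {k k' : K0 p} {w : Ω} (h : toG k • w = toG k' • w) : k = k' ∨ k = -k' := by
  have h1 : toG (k'⁻¹ * k) • w = w := by
    rw [map_mul, mul_smul, h, ← mul_smul, ← map_mul, inv_mul_cancel, map_one, one_smul]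
  rcases F.free _ _ h1 with h2 | h2
  · left
    rw [inv_mul_eq_one] at h2
    exact h2.symm
  · right
    have := congrArg (k' * ·) h2
    simpa using this

lemma kE_toG {k : K0 p} (hk : k ∈ Iw0 p) (w : Ω) :
    F.kE (toG k • w) = k * F.kE w ∨ F.kE (toG k • w) = -(k * F.kE w) := by
  apply F.eq_or_neg (w := F.x (F.cE w))
  have h := F.kE_smul (toG k • w)
  rw [F.cE_smul k hk] at h
  rw [h, map_mul, mul_smul, F.kE_smul]

lemma kV_toG (k : K0 p) (w : Ω) :
    F.kV (toG k • w) = k * F.kV w ∨ F.kV (toG k • w) = -(k * F.kV w) := by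
  apply F.eq_or_neg (w := F.y (F.cV w))
  have h := F.kV_smul (toG k • w)
  rw [F.cV_smul k] at h
  rw [h, map_mul, mul_smul, F.kV_smul]

variable [DecidableEq E] [DecidableEq V]

/-- The value at `w` of a form for the Iwahori group, in terms of its coordinates. -/
def evE (n : ℕ) (w : Ω) : Matrix (Fin (n + 1)) (E × Fin (n + 1)) ℤ_[p] :=
  Matrix.of fun i x => if F.cE w = x.1 then slM n ((F.kE w)⁻¹ : K0 p).1 i x.2 else 0

/-- The value at `w` of a form for `K`, in terms of its coordinates. -/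
def evV (n : ℕ) (w : Ω) : Matrix (Fin (n + 1)) (V × Fin (n + 1)) ℤ_[p] :=
  Matrix.of fun i x => if F.cV w = x.1 then slM n ((F.kV w)⁻¹ : K0 p).1 i x.2 else 0

variable {n : ℕ}

lemma slM_inv_mul (k k' : K0 p) :
    slM n ((k * k')⁻¹ : K0 p).1 = slM n (k⁻¹ : K0 p).1 * slM n (k'⁻¹ : K0 p).1 := by
  rw [_root_.mul_inv_rev, Units.val_mul, slM_mul]

lemma slM_neg_inv (hn : Even n) (k : K0 p) :
    slM n ((-k)⁻¹ : K0 p).1 = slM n (k⁻¹ : K0 p).1 := by
  rw [inv_neg, Units.val_neg, slM_neg n hn]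

omit [DecidableEq V] in
lemma evE_smul (hn : Even n) {k : K0 p} (hk : k ∈ Iw0 p) (w : Ω) :
    F.evE n (toG k • w) = slM n (k⁻¹ : K0 p).1 * F.evE n w := by
  ext i x
  simp only [evE, Matrix.of_apply, Matrix.mul_apply, F.cE_smul k hk]
  by_cases h : F.cE w = x.1
  · simp only [h, if_true]
    have h1 : slM n ((F.kE (toG k • w))⁻¹ : K0 p).1 =
        slM n (k⁻¹ : K0 p).1 * slM n ((F.kE w)⁻¹ : K0 p).1 := by
      rcases F.kE_toG hk w with h2 | h2 <;> rw [h2]
      · rw [slM_inv_mul]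
      · rw [slM_neg_inv hn, slM_inv_mul]
    rw [h1, Matrix.mul_apply]
  · simp [h]

omit [DecidableEq E] in
lemma evV_smul (hn : Even n) (k : K0 p) (w : Ω) :
    F.evV n (toG k • w) = slM n (k⁻¹ : K0 p).1 * F.evV n w := by
  ext i x
  simp only [evV, Matrix.of_apply, Matrix.mul_apply, F.cV_smul k]
  by_cases h : F.cV w = x.1
  · simp only [h, if_true]
    have h1 : slM n ((F.kV (toG k • w))⁻¹ : K0 p).1 =
        slM n (k⁻¹ : K0 p).1 * slM n ((F.kV w)⁻¹ : K0 p).1 := by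
      rcases F.kV_toG k w with h2 | h2 <;> rw [h2]
      · rw [slM_inv_mul]
      · rw [slM_neg_inv hn, slM_inv_mul]
    rw [h1, Matrix.mul_apply]
  · simp [h]

omit [DecidableEq V] in
lemma evE_x (hn : Even n) (e : E) (i : Fin (n + 1)) (x : E × Fin (n + 1)) :
    F.evE n (F.x e) i x = if e = x.1 ∧ i = x.2 then 1 else 0 := by
  simp only [evE, Matrix.of_apply, F.cE_x]
  have h : toG (F.kE (F.x e)) • F.x e = toG (1 : K0 p) • F.x e := by
    have := F.kE_smul (F.x e)
    rw [F.cE_x] at this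
    rw [this, map_one, one_smul]
  have h1 : slM n ((F.kE (F.x e))⁻¹ : K0 p).1 = 1 := by
    rcases F.eq_or_neg h with h2 | h2 <;> rw [h2]
    · simp [slM_one]
    · rw [slM_neg_inv hn]; simp [slM_one]
  rw [h1]
  by_cases h : e = x.1
  · simp [h, Matrix.one_apply]
  · simp [h]

omit [DecidableEq E] in
lemma evV_y (hn : Even n) (v : V) (i : Fin (n + 1)) (x : V × Fin (n + 1)) :
    F.evV n (F.y v) i x = if v = x.1 ∧ i = x.2 then 1 else 0 := by
  simp only [evV, Matrix.of_apply, F.cV_y]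
  have h : toG (F.kV (F.y v)) • F.y v = toG (1 : K0 p) • F.y v := by
    have := F.kV_smul (F.y v)
    rw [F.cV_y] at this
    rw [this, map_one, one_smul]
  have h1 : slM n ((F.kV (F.y v))⁻¹ : K0 p).1 = 1 := by
    rcases F.eq_or_neg h with h2 | h2 <;> rw [h2]
    · simp [slM_one]
    · rw [slM_neg_inv hn]; simp [slM_one]
  rw [h1]
  by_cases h : v = x.1
  · simp [h, Matrix.one_apply]
  · simp [h]

end Frame

/-- The matrix whose rows with first index `a` are the rows of `M a`. -/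
def rows {A Y : Type} {n : ℕ} (M : A → Matrix (Fin (n + 1)) Y ℤ_[p]) :
    Matrix (A × Fin (n + 1)) Y ℤ_[p] := Matrix.of fun x y => M x.1 x.2 y

lemma rows_apply {A Y : Type} {n : ℕ} (M : A → Matrix (Fin (n + 1)) Y ℤ_[p]) (x y) :
    rows M x y = M x.1 x.2 y := rfl

lemma rows_mul {A Y Z : Type} [Fintype Y] {n : ℕ} (M : A → Matrix (Fin (n + 1)) Y ℤ_[p])
    (N : Matrix Y Z ℤ_[p]) : rows M * N = rows fun a => M a * N := by
  ext x y
  simp [rows_apply, Matrix.mul_apply]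

lemma rows_sub {A Y : Type} {n : ℕ} (M N : A → Matrix (Fin (n + 1)) Y ℤ_[p]) :
    rows M - rows N = rows fun a => M a - N a := rfl

lemma rows_smul {A Y : Type} {n : ℕ} (c : ℤ_[p]) (M : A → Matrix (Fin (n + 1)) Y ℤ_[p]) :
    c • rows M = rows fun a => c • M a := rfl

namespace Frame

variable {Ω : Type} [MulAction (G p) Ω] {E V : Type} (F : Frame p Ω E V)
variable [DecidableEq E] [DecidableEq V] {n : ℕ}

omit [DecidableEq V] in
lemma rows_evE_x (hn : Even n) : rows (fun e => F.evE n (F.x e)) = 1 := by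
  ext x y
  rw [rows_apply, F.evE_x hn, Matrix.one_apply]
  simp [Prod.ext_iff]

omit [DecidableEq E] in
lemma rows_evV_y (hn : Even n) : rows (fun v => F.evV n (F.y v)) = 1 := by
  ext x y
  rw [rows_apply, F.evV_y hn, Matrix.one_apply]
  simp [Prod.ext_iff]

omit [DecidableEq V] in
lemma evE_mul_rows [Fintype E] {Y : Type} (M : E → Matrix (Fin (n + 1)) Y ℤ_[p]) (w : Ω) :
    F.evE n w * rows M = slM n ((F.kE w)⁻¹ : K0 p).1 * M (F.cE w) := by
  ext i y
  simp only [Matrix.mul_apply, evE, Matrix.of_apply, rows_apply, Fintype.sum_prod_type, ite_mul,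
    zero_mul]
  rw [Finset.sum_eq_single (F.cE w)]
  · simp
  · intro e _ he
    simp [he.symm]
  · simp

omit [DecidableEq E] in
lemma evV_mul_rows [Fintype V] {Y : Type} (M : V → Matrix (Fin (n + 1)) Y ℤ_[p]) (w : Ω) :
    F.evV n w * rows M = slM n ((F.kV w)⁻¹ : K0 p).1 * M (F.cV w) := by
  ext i y
  simp only [Matrix.mul_apply, evV, Matrix.of_apply, rows_apply, Fintype.sum_prod_type, ite_mul,
    zero_mul]
  rw [Finset.sum_eq_single (F.cV w)]
  · simp
  · intro e _ he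
    simp [he.symm]
  · simp

end Frame

end Gouvea
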