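import Mathlib

/-!
# From counting functions to weak convergence on `[0, ∞]` (MP_d3517d_nt)

* `tendsto_avg` : if `#{v ∈ x_T : v ≤ y} / #x_T → y` for all `y ∈ [0,1]`, then the averages over
  `x_T` of every continuous function on `[0, ∞]` tend to its integral over `[0, 1]`.
* `counts_union` : the same hypothesis for the union of the scaled multisets of all weights, from
  approximations `#{v ∈ S_n : v ≤ x} = β_n x + o(n)` for all `n` outside a set of density zero.
* `tendsto_avg_union` : both together.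
-/

open Filter Topology Finset MeasureTheory

noncomputable section

namespace Gouvea

namespace Weak

/-- telescoping with a cut-off -/
lemma tele (g : ℕ → ℝ) {k m : ℕ} (hk : k ≤ m) :
    ∑ i ∈ range m, (g (i + 1) - g i) * (if i < k then 1 else 0) = g k - g 0 := by
  have h1 : ∑ i ∈ range m, (g (i + 1) - g i) * (if i < k then (1 : ℝ) else 0) =
      ∑ i ∈ range m, if i < k then (g (i + 1) - g i) else 0 := by
    refine sum_congr rfl fun i _ => ?_
    split_ifs <;> simp
  rw [h1, ← sum_filter]
  have h2 : (range m).filter (fun i => i < k) = range k := by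
    ext i
    simp only [mem_filter, mem_range]
    omega
  rw [h2, sum_range_sub]

/-- step function approximating `f` -/
def step (f : ENNReal → ℝ) (m : ℕ) (v : ENNReal) : ℝ :=
  f 0 + ∑ i ∈ range m, (f (ENNReal.ofReal (((i : ℕ) + 1 : ℝ) / m)) -
    f (ENNReal.ofReal ((i : ℝ) / m))) * (if ENNReal.ofReal ((i : ℝ) / m) < v then 1 else 0)

lemma step_eq (f : ENNReal → ℝ) {m : ℕ} (hm : 0 < m) {t : ℝ} (h1 : t ≤ 1) :
    step f m (ENNReal.ofReal t) = f (ENNReal.ofReal ((⌈t * m⌉₊ : ℝ) / m)) := by
  have hm' : (0 : ℝ) < m := by exact_mod_cast hm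
  have hk : ⌈t * m⌉₊ ≤ m := by
    refine Nat.ceil_le.2 ?_
    nlinarith
  have h := tele (fun i => f (ENNReal.ofReal ((i : ℝ) / m))) hk
  have h2 : step f m (ENNReal.ofReal t) = f 0 + ∑ i ∈ range m,
      (f (ENNReal.ofReal (((i + 1 : ℕ) : ℝ) / m)) - f (ENNReal.ofReal ((i : ℝ) / m))) *
        (if i < ⌈t * m⌉₊ then 1 else 0) := by
    unfold step
    congr 1
    refine sum_congr rfl fun i _ => ?_
    have h3 : (ENNReal.ofReal ((i : ℝ) / m) < ENNReal.ofReal t) ↔ i < ⌈t * m⌉₊ := by
      rw [Nat.lt_ceil, ENNReal.ofReal_lt_ofReal_iff_of_nonneg (by positivity),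
        div_lt_iff₀ hm']
    simp only [h3]
    push_cast
    rfl
  rw [h2, h]
  simp

/-- the averages of a function over a multiset -/
def avg (s : Multiset ENNReal) (f : ENNReal → ℝ) : ℝ := (s.map f).sum / s.card

lemma avg_const {s : Multiset ENNReal} (hs : 0 < s.card) (c : ℝ) : avg s (fun _ => c) = c := by
  have : (s.card : ℝ) ≠ 0 := by positivity
  simp [avg, Multiset.map_const', Multiset.sum_replicate, nsmul_eq_mul]
  field_simp

lemma avg_add (s : Multiset ENNReal) (f g : ENNReal → ℝ) :
    avg s (fun v => f v + g v) = avg s f + avg s g := by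
  simp [avg, Multiset.sum_map_add, add_div]

lemma avg_sum {ι : Type*} (s : Multiset ENNReal) (u : Finset ι) (f : ι → ENNReal → ℝ) :
    avg s (fun v => ∑ i ∈ u, f i v) = ∑ i ∈ u, avg s (f i) := by
  classical
  induction u using Finset.induction_on with
  | empty => simp [avg]
  | insert a u ha ih =>
    simp only [Finset.sum_insert ha]
    rw [avg_add, ih]

lemma avg_const_mul (s : Multiset ENNReal) (c : ℝ) (f : ENNReal → ℝ) :
    avg s (fun v => c * f v) = c * avg s f := by
  simp [avg, Multiset.sum_map_mul_left, mul_div_assoc]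

lemma avg_mono {s : Multiset ENNReal} {f g : ENNReal → ℝ} (h : ∀ v ∈ s, f v ≤ g v) :
    avg s f ≤ avg s g := by
  unfold avg
  refine div_le_div_of_nonneg_right ?_ (by positivity)
  exact Multiset.sum_map_le_sum_map _ _ h

lemma abs_avg_sub_le {s : Multiset ENNReal} {f g e : ENNReal → ℝ}
    (h : ∀ v ∈ s, |f v - g v| ≤ e v) : |avg s f - avg s g| ≤ avg s e := by
  rw [abs_le]
  constructor
  · have h1 : avg s g ≤ avg s (fun v => f v + e v) :=
      avg_mono fun v hv => by have := (abs_le.1 (h v hv)).1; linarith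
    rw [avg_add] at h1
    linarith
  · have h1 : avg s f ≤ avg s (fun v => g v + e v) :=
      avg_mono fun v hv => by have := (abs_le.1 (h v hv)).2; linarith
    rw [avg_add] at h1
    linarith

lemma countP_eq (s : Multiset ENNReal) (a : ENNReal) :
    (s.countP (fun v => v ≤ a) : ℝ) = (s.map fun v => if v ≤ a then (1 : ℝ) else 0).sum := by
  induction s using Multiset.induction_on with
  | empty => simp
  | cons b s ih =>
    rw [Multiset.countP_cons, Multiset.map_cons, Multiset.sum_cons, ← ih]
    split_ifs <;> push_cast <;> ring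

/-- the proportion of elements above `a` -/
lemma avg_ind {s : Multiset ENNReal} (hs : 0 < s.card) (a : ENNReal) :
    avg s (fun v => if a < v then 1 else 0) =
      1 - (s.countP (fun v => v ≤ a) : ℝ) / s.card := by
  have h2 : avg s (fun v => if a < v then 1 else 0) + avg s (fun v => if v ≤ a then 1 else 0) =
      avg s (fun _ => 1) := by
    rw [← avg_add]
    congr 1
    ext v
    by_cases hv : v ≤ a
    · simp [hv, not_lt.2 hv]
    · simp [hv, not_le.1 hv]
  rw [avg_const hs] at h2
  have h3 : avg s (fun v => if v ≤ a then 1 else 0) = (s.countP (fun v => v ≤ a) : ℝ) / s.card := by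
    rw [countP_eq]; rfl
  linarith

/-- integral of an indicator -/
lemma int_ind {a : ℝ} (h0 : 0 ≤ a) (h1 : a ≤ 1) :
    ∫ t in (0 : ℝ)..1, (if ENNReal.ofReal a < ENNReal.ofReal t then (1 : ℝ) else 0) = 1 - a := by
  have h : ∀ t : ℝ, (if ENNReal.ofReal a < ENNReal.ofReal t then (1 : ℝ) else 0) =
      (Set.Ioi a).indicator (fun _ => (1 : ℝ)) t := by
    intro t
    rw [Set.indicator_apply]
    simp only [ENNReal.ofReal_lt_ofReal_iff_of_nonneg h0, Set.mem_Ioi]
  simp only [h]
  rw [intervalIntegral.integral_of_le zero_le_one, setIntegral_indicator measurableSet_Ioi]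
  simp only [integral_const, smul_eq_mul, mul_one]
  have h2 : Set.Ioc (0 : ℝ) 1 ∩ Set.Ioi a = Set.Ioc a 1 := by
    ext t
    simp only [Set.mem_inter_iff, Set.mem_Ioc, Set.mem_Ioi]
    constructor
    · rintro ⟨⟨_, h3⟩, h4⟩
      exact ⟨h4, h3⟩
    · rintro ⟨h3, h4⟩
      exact ⟨⟨lt_of_le_of_lt h0 h3, h4⟩, h3⟩
  rw [h2]
  simp [Measure.real, Real.volume_Ioc, ENNReal.toReal_ofReal (by linarith : (0 : ℝ) ≤ 1 - a)]

lemma ind_integrable {a : ℝ} (h0 : 0 ≤ a) : IntervalIntegrable
    (fun t : ℝ => (if ENNReal.ofReal a < ENNReal.ofReal t then (1 : ℝ) else 0)) volume 0 1 := by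
  have h : (fun t : ℝ => if ENNReal.ofReal a < ENNReal.ofReal t then (1 : ℝ) else 0) =
      (Set.Ioi a).indicator (fun _ => (1 : ℝ)) := by
    ext t
    rw [Set.indicator_apply]
    simp only [ENNReal.ofReal_lt_ofReal_iff_of_nonneg h0, Set.mem_Ioi]
  rw [h, intervalIntegrable_iff]
  exact (integrableOn_const (by simp)).indicator measurableSet_Ioi

lemma sum_integrable (f : ENNReal → ℝ) (m : ℕ) : IntervalIntegrable
    (fun t : ℝ => ∑ i ∈ range m, (f (ENNReal.ofReal (((i : ℕ) + 1 : ℝ) / m)) -
    f (ENNReal.ofReal ((i : ℝ) / m))) *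
      (if ENNReal.ofReal ((i : ℝ) / m) < ENNReal.ofReal t then 1 else 0)) volume 0 1 := by
  rw [intervalIntegrable_iff]
  refine MeasureTheory.integrable_finsetSum _ fun i _ => ?_
  have h := ((ind_integrable (a := (i : ℝ) / m) (by positivity)).const_mul
    (f (ENNReal.ofReal (((i : ℕ) + 1 : ℝ) / m)) - f (ENNReal.ofReal ((i : ℝ) / m))))
  rw [intervalIntegrable_iff] at h
  exact h

lemma int_step (f : ENNReal → ℝ) (m : ℕ) (hm : 0 < m) :
    (∫ t in (0 : ℝ)..1, step f m (ENNReal.ofReal t)) =
          f 0 + ∑ i ∈ range m, (f (ENNReal.ofReal (((i : ℕ) + 1 : ℝ) / m)) -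
            f (ENNReal.ofReal ((i : ℝ) / m))) * (1 - (i : ℝ) / m) := by
  have hm' : (0 : ℝ) < m := by exact_mod_cast hm
  unfold step
  rw [intervalIntegral.integral_add, intervalIntegral.integral_finsetSum]
  · congr 1
    · simp
    · refine sum_congr rfl fun i hi => ?_
      rw [intervalIntegral.integral_const_mul, int_ind (by positivity)]
      rw [div_le_one hm']
      exact_mod_cast (mem_range.1 hi).le
  · intro i _
    exact (ind_integrable (by positivity)).const_mul _
  · simp
  · exact sum_integrable f m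

lemma step_integrable (f : ENNReal → ℝ) (m : ℕ) :
    IntervalIntegrable (fun t : ℝ => step f m (ENNReal.ofReal t)) volume 0 1 := by
  unfold step
  exact IntervalIntegrable.add (by simp) (sum_integrable f m)

theorem tendsto_avg {ι : Type*} {l : Filter ι} (x : ι → Multiset ENNReal)
    (hpos : ∀ᶠ T in l, 0 < (x T).card)
    (h : ∀ y : ℝ, 0 ≤ y → y ≤ 1 → Tendsto
      (fun T => ((x T).countP (fun v => v ≤ ENNReal.ofReal y) : ℝ) / (x T).card) l (𝓝 y))
    (f : ENNReal → ℝ) (hf : Continuous f) :
    Tendsto (fun T => avg (x T) f) l (𝓝 (∫ t in (0 : ℝ)..1, f (ENNReal.ofReal t))) := by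
  -- bound of f
  obtain ⟨B, hB⟩ : ∃ B : ℝ, ∀ v, |f v| ≤ B := by
    obtain ⟨B, hB⟩ := (isCompact_range hf).isBounded.exists_norm_le
    exact ⟨B, fun v => hB _ ⟨v, rfl⟩⟩
  have hB0 : 0 ≤ B := (abs_nonneg _).trans (hB 0)
  set g : ℝ → ℝ := fun t => f (ENNReal.ofReal t) with hg
  have hgc : Continuous g := hf.comp ENNReal.continuous_ofReal
  have huc : UniformContinuousOn g (Set.Icc 0 1) :=
    isCompact_Icc.uniformContinuousOn_of_continuous hgc.continuousOn
  rw [Metric.tendsto_nhds]
  intro ε hε
  -- choose m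
  obtain ⟨δ, hδ, hδ'⟩ := Metric.uniformContinuousOn_iff.1 huc (ε / 5) (by positivity)
  obtain ⟨m, hm⟩ := exists_nat_gt (1 / δ)
  have hm0 : 0 < m := by
    have h1 : (0 : ℝ) < m := lt_trans (by positivity) hm
    exact_mod_cast h1
  have hm' : (0 : ℝ) < m := by exact_mod_cast hm0
  have hstep : ∀ t : ℝ, 0 ≤ t → t ≤ 1 → |g t - step f m (ENNReal.ofReal t)| ≤ ε / 5 := by
    intro t ht0 ht1
    rw [step_eq f hm0 ht1]
    have h1 : t * m ≤ ⌈t * m⌉₊ := Nat.le_ceil _
    have h2 : (⌈t * m⌉₊ : ℝ) < t * m + 1 := Nat.ceil_lt_add_one (by positivity)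
    have h3 : ((⌈t * m⌉₊ : ℝ)) / m ≤ 1 := by
      rw [div_le_one hm']
      have : ⌈t * m⌉₊ ≤ m := Nat.ceil_le.2 (by nlinarith)
      exact_mod_cast this
    refine (hδ' t ⟨ht0, ht1⟩ _ ⟨by positivity, h3⟩ ?_).le
    rw [Real.dist_eq, abs_sub_comm, abs_of_nonneg]
    · rw [sub_lt_iff_lt_add, div_lt_iff₀ hm', add_mul]
      have : 1 < δ * m := by
        rw [div_lt_iff₀ hδ] at hm
        linarith
      linarith
    · rw [sub_nonneg, le_div_iff₀ hm']
      exact h1
  -- bound of step
  have hstepB : ∀ v, ∃ k : ℕ, k ≤ m ∧ step f m v = f (ENNReal.ofReal ((k : ℝ) / m)) := by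
    intro v
    by_cases hv : v ≤ 1
    · have hv' : v = ENNReal.ofReal v.toReal :=
        (ENNReal.ofReal_toReal (ne_top_of_le_ne_top ENNReal.one_ne_top hv)).symm
      have h1 : v.toReal ≤ 1 := by
        have := ENNReal.toReal_mono ENNReal.one_ne_top hv
        simpa using this
      refine ⟨⌈v.toReal * m⌉₊, Nat.ceil_le.2 (by nlinarith), ?_⟩
      conv_lhs => rw [hv']
      exact step_eq f hm0 h1
    · refine ⟨m, le_rfl, ?_⟩
      have h2 : step f m v = step f m (ENNReal.ofReal 1) := by
        unfold step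
        congr 1
        refine sum_congr rfl fun i hi => ?_
        have hi' : (i : ℝ) / m < 1 := by
          rw [div_lt_one hm']
          exact_mod_cast mem_range.1 hi
        have h3 : ENNReal.ofReal ((i : ℝ) / m) < ENNReal.ofReal 1 :=
          (ENNReal.ofReal_lt_ofReal_iff one_pos).2 hi'
        have h4 : ENNReal.ofReal ((i : ℝ) / m) < v := by
          refine h3.trans ?_
          simpa using not_le.1 hv
        rw [if_pos h3, if_pos h4]
      rw [h2, step_eq f hm0 le_rfl]
      simp
  -- the three estimates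
  have e1 : ∀ᶠ T in l, |avg (x T) f - avg (x T) (step f m)| ≤ 2 * (ε / 5) := by
    have h1 := h 1 zero_le_one le_rfl
    have h2 : ∀ᶠ T in l, 2 * B *
        (1 - ((x T).countP (fun v => v ≤ ENNReal.ofReal 1) : ℝ) / (x T).card) < ε / 5 := by
      have h3 : Tendsto (fun T => 2 * B *
        (1 - ((x T).countP (fun v => v ≤ ENNReal.ofReal 1) : ℝ) / (x T).card)) l
          (𝓝 (2 * B * (1 - 1))) := (tendsto_const_nhds.sub h1).const_mul _
      simp only [sub_self, mul_zero] at h3
      exact h3.eventually_lt_const (by positivity)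
    filter_upwards [h2, hpos] with T hT hT0
    have h3 : |avg (x T) f - avg (x T) (step f m)| ≤
        avg (x T) (fun v => ε / 5 + 2 * B * (if ENNReal.ofReal 1 < v then 1 else 0)) := by
      refine abs_avg_sub_le fun v _ => ?_
      split_ifs with hv
      · obtain ⟨k, _, hk⟩ := hstepB v
        rw [hk]
        have h4 := hB v
        have h5 := hB (ENNReal.ofReal ((k : ℝ) / m))
        have h6 := abs_sub (f v) (f (ENNReal.ofReal ((k : ℝ) / m)))
        linarith
      · have hv1 : v ≤ 1 := by simpa using hv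
        have hv' : v = ENNReal.ofReal v.toReal :=
          (ENNReal.ofReal_toReal (ne_top_of_le_ne_top ENNReal.one_ne_top hv1)).symm
        have h4 : v.toReal ≤ 1 := by
          have := ENNReal.toReal_mono ENNReal.one_ne_top hv1
          simpa using this
        have h5 := hstep v.toReal ENNReal.toReal_nonneg h4
        rw [hg] at h5
        simp only at h5
        rw [← hv'] at h5
        simpa using h5
    rw [avg_add, avg_const hT0, avg_const_mul, avg_ind hT0] at h3
    linarith
  have e2 : ∀ᶠ T in l, |avg (x T) (step f m) - ∫ t in (0 : ℝ)..1, step f m (ENNReal.ofReal t)| ≤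
      ε / 5 := by
    have h1 : Tendsto (fun T => avg (x T) (step f m)) l
        (𝓝 (∫ t in (0 : ℝ)..1, step f m (ENNReal.ofReal t))) := by
      have h2 : (∫ t in (0 : ℝ)..1, step f m (ENNReal.ofReal t)) =
          f 0 + ∑ i ∈ range m, (f (ENNReal.ofReal (((i : ℕ) + 1 : ℝ) / m)) -
            f (ENNReal.ofReal ((i : ℝ) / m))) * (1 - (i : ℝ) / m) := int_step f m hm0
      rw [h2]
      have h3 : (fun T => f 0 + ∑ i ∈ range m, (f (ENNReal.ofReal (((i : ℕ) + 1 : ℝ) / m)) -
            f (ENNReal.ofReal ((i : ℝ) / m))) *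
              (1 - ((x T).countP (fun v => v ≤ ENNReal.ofReal ((i : ℝ) / m)) : ℝ) / (x T).card))
          =ᶠ[l] fun T => avg (x T) (step f m) := by
        filter_upwards [hpos] with T hT
        unfold step
        rw [avg_add, avg_const hT, avg_sum]
        congr 1
        refine sum_congr rfl fun i _ => ?_
        rw [avg_const_mul, avg_ind hT]
      refine Tendsto.congr' h3 ?_
      refine tendsto_const_nhds.add (tendsto_finsetSum _ fun i hi => ?_)
      refine Tendsto.const_mul _ (tendsto_const_nhds.sub (h _ (by positivity) ?_))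
      rw [div_le_one hm']
      exact_mod_cast (mem_range.1 hi).le
    rw [Metric.tendsto_nhds] at h1
    filter_upwards [h1 (ε / 5) (by positivity)] with T hT
    rw [Real.dist_eq] at hT
    exact hT.le
  have e3 : |(∫ t in (0 : ℝ)..1, step f m (ENNReal.ofReal t)) - ∫ t in (0 : ℝ)..1, g t| ≤
      ε / 5 := by
    rw [← intervalIntegral.integral_sub (step_integrable f m)
      (hgc.intervalIntegrable _ _)]
    have h1 := intervalIntegral.norm_integral_le_of_norm_le_const (a := (0 : ℝ)) (b := 1)
      (f := fun t => step f m (ENNReal.ofReal t) - g t) (C := ε / 5) (by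
        intro t ht
        rw [Set.uIoc_of_le zero_le_one] at ht
        rw [Real.norm_eq_abs, abs_sub_comm]
        exact hstep t ht.1.le ht.2)
    simpa using h1
  filter_upwards [e1, e2] with T h1 h2
  rw [Real.dist_eq]
  have := abs_le.1 h1
  have := abs_le.1 h2
  have := abs_le.1 e3
  rw [abs_lt]
  constructor <;> linarith

/-! ### Union over the weights -/

/-- The union over `n < N` of the multisets `S n` scaled by `P / (n + 2)`. -/
def unionX (P : ℝ) (S : ℕ → Multiset ENNReal) (N : ℕ) : Multiset ENNReal :=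
  ∑ n ∈ range N, (S n).map fun v => ENNReal.ofReal (P / (n + 2)) * v

lemma scaled_le_iff {c y : ℝ} (hc : 0 < c) (hy : 0 ≤ y) (v : ENNReal) :
    ENNReal.ofReal c * v ≤ ENNReal.ofReal y ↔ v ≤ ENNReal.ofReal (y / c) := by
  induction v using ENNReal.recTopCoe with
  | top =>
    simp [ENNReal.mul_top, hc]
  | coe a =>
    have ha : (a : ENNReal) = ENNReal.ofReal (a : ℝ) := by simp
    rw [ha, ← ENNReal.ofReal_mul hc.le, ENNReal.ofReal_le_ofReal_iff hy,
      ENNReal.ofReal_le_ofReal_iff (by positivity), le_div_iff₀ hc, mul_comm]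

lemma card_unionX (P : ℝ) (S : ℕ → Multiset ENNReal) (N : ℕ) :
    (unionX P S N).card = ∑ n ∈ range N, (S n).card := by
  simp [unionX]

lemma countP_unionX {P : ℝ} (hP : 0 < P) (S : ℕ → Multiset ENNReal) (N : ℕ) {y : ℝ}
    (hy : 0 ≤ y) :
    (unionX P S N).countP (fun v => v ≤ ENNReal.ofReal y) =
      ∑ n ∈ range N, (S n).countP (fun v => v ≤ ENNReal.ofReal (y * (n + 2) / P)) := by
  induction N with
  | zero => simp [unionX]
  | succ N ih =>
    unfold unionX at ih ⊢
    rw [sum_range_succ, Multiset.countP_add, ih, sum_range_succ, Multiset.countP_map,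
      ← Multiset.countP_eq_card_filter]
    congr 1
    refine Multiset.countP_congr rfl fun v _ => ?_
    rw [scaled_le_iff (by positivity) hy]
    have : y / (P / ((N : ℝ) + 2)) = y * (N + 2) / P := by
      field_simp
    rw [this]

lemma countP_mono_ofReal (s : Multiset ENNReal) {a b : ℝ}
    (hab : a ≤ b) : s.countP (fun v => v ≤ ENNReal.ofReal a) ≤
      s.countP (fun v => v ≤ ENNReal.ofReal b) := by
  induction s using Multiset.induction_on with
  | empty => simp
  | cons c s ih =>
    rw [Multiset.countP_cons, Multiset.countP_cons]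
    have : c ≤ ENNReal.ofReal a → c ≤ ENNReal.ofReal b := fun h =>
      h.trans (ENNReal.ofReal_le_ofReal hab)
    split_ifs <;> first | omega | (exfalso; tauto)

open scoped Classical in
lemma sum_err {t : ℕ → ℝ} {K K' : ℝ} (hK' : ∀ n, |t n| ≤ K' * (n + 1))
    (h : ∀ δ : ℝ, 0 < δ → ∃ E : Set ℕ,
      Tendsto (fun N : ℕ => (#{n ∈ range N | n ∈ E} : ℝ) / N) atTop (𝓝 0) ∧
      ∀ n ∉ E, |t n| ≤ δ * (n + 1) + K) {η : ℝ} (hη : 0 < η) :
    ∀ᶠ N : ℕ in atTop, |∑ n ∈ range N, t n| ≤ η * (N : ℝ) ^ 2 := by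
  have hK0 : 0 ≤ K' := by
    have := (abs_nonneg _).trans (hK' 0)
    simpa using this
  obtain ⟨E, hE, hE'⟩ := h (η / 4) (by positivity)
  have h1 : ∀ᶠ N : ℕ in atTop, K' * ((#{n ∈ range N | n ∈ E} : ℝ) / N) < η / 4 := by
    have := hE.const_mul K'
    rw [mul_zero] at this
    exact this.eventually_lt_const (by positivity)
  have h2 : ∀ᶠ N : ℕ in atTop, |K| * 4 / η < N := by
    exact tendsto_natCast_atTop_atTop.eventually_gt_atTop _
  filter_upwards [h1, h2, eventually_gt_atTop 0] with N h3 h4 h5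
  have hN : (0 : ℝ) < N := by exact_mod_cast h5
  have h6 : ∀ n ∈ range N, |t n| ≤ η / 4 * N + |K| + (if n ∈ E then K' * N else 0) := by
    intro n hn
    have hn' : (n : ℝ) + 1 ≤ N := by
      have := mem_range.1 hn
      exact_mod_cast this
    split_ifs with hnE
    · have := hK' n
      have h7 : K' * (n + 1) ≤ K' * N := mul_le_mul_of_nonneg_left hn' hK0
      have h8 : 0 ≤ η / 4 * N + |K| := by positivity
      linarith
    · have := hE' n hnE
      have h7 : η / 4 * (n + 1) ≤ η / 4 * N := mul_le_mul_of_nonneg_left hn' (by positivity)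
      have h8 := le_abs_self K
      linarith
  calc |∑ n ∈ range N, t n| ≤ ∑ n ∈ range N, |t n| := abs_sum_le_sum_abs _ _
    _ ≤ ∑ n ∈ range N, (η / 4 * N + |K| + (if n ∈ E then K' * N else 0)) := sum_le_sum h6
    _ = N * (η / 4 * N + |K|) + #{n ∈ range N | n ∈ E} * (K' * N) := by
        rw [sum_add_distrib, sum_const, card_range, nsmul_eq_mul, ← sum_filter, sum_const,
          nsmul_eq_mul]
    _ ≤ η * (N : ℝ) ^ 2 := by
        have h7 : K' * (#{n ∈ range N | n ∈ E} : ℝ) < η / 4 * N := by
          rw [← mul_div_assoc, div_lt_iff₀ hN] at h3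
          exact h3
        have h8 : |K| * 4 < N * η := by
          rw [div_lt_iff₀ hη] at h4
          exact h4
        nlinarith

open scoped Classical in
theorem counts_union {P : ℝ} (hP : 0 < P) {β : ℕ → ℝ} {B C c : ℝ} (hβ0 : ∀ n, 0 ≤ β n)
    (hβ1 : ∀ n, β n ≤ B) (hc : 0 < c)
    (hβ : ∀ᶠ N : ℕ in atTop, c * (N : ℝ) ^ 2 ≤ ∑ n ∈ range N, β n * n)
    (S : ℕ → Multiset ENNReal) (hS : ∀ n, ((S n).card : ℝ) ≤ C * (n + 1))
    (h : ∀ δ : ℝ, 0 < δ → ∃ E : Set ℕ,
      Tendsto (fun N : ℕ => (#{n ∈ range N | n ∈ E} : ℝ) / N) atTop (𝓝 0) ∧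
      ∀ n ∉ E, (∀ x : ℝ, 0 ≤ x → x ≤ n / P →
        |((S n).countP (fun v => v ≤ ENNReal.ofReal x) : ℝ) - β n * x| ≤ δ * (n + 1)) ∧
        |((S n).card : ℝ) - β n * (n / P)| ≤ δ * (n + 1)) :
    (∀ᶠ N in atTop, 0 < (unionX P S N).card) ∧
    ∀ y : ℝ, 0 ≤ y → y ≤ 1 → Tendsto (fun N =>
      ((unionX P S N).countP (fun v => v ≤ ENNReal.ofReal y) : ℝ) / (unionX P S N).card)
      atTop (𝓝 y) := by
  have hB0 : 0 ≤ B := (hβ0 0).trans (hβ1 0)
  set W : ℕ → ℝ := fun N => ∑ n ∈ range N, β n * (n / P) with hW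
  have bound : ∀ n : ℕ, β n * (n / P) ≤ B / P * (n + 1) := by
    intro n
    have h1 : β n * (n / P) ≤ B * (n / P) := mul_le_mul_of_nonneg_right (hβ1 n) (by positivity)
    have h2 : B * (n / P) = B / P * n := by ring
    have h3 : 0 ≤ B / P := by positivity
    nlinarith
  have hD : ∀ η : ℝ, 0 < η → ∀ᶠ N : ℕ in atTop,
      |((unionX P S N).card : ℝ) - W N| ≤ η * (N : ℝ) ^ 2 := by
    intro η hη
    have h1 := sum_err (t := fun n => ((S n).card : ℝ) - β n * (n / P)) (K := 0)
      (K' := C + B / P) (fun n => by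
        have h1 := hS n
        have h2 : (0 : ℝ) ≤ (S n).card := by positivity
        have h3 := bound n
        have h4 : 0 ≤ β n * (n / P) := mul_nonneg (hβ0 n) (by positivity)
        rw [abs_le]
        constructor <;> nlinarith) (fun δ hδ => by
        obtain ⟨E, hE, hE'⟩ := h δ hδ
        exact ⟨E, hE, fun n hn => by simpa using (hE' n hn).2⟩) hη
    filter_upwards [h1] with N hN
    rw [card_unionX]
    push_cast
    rw [hW]
    simp only
    rw [← sum_sub_distrib]
    exact hN
  have hA : ∀ y : ℝ, 0 ≤ y → y ≤ 1 → ∀ η : ℝ, 0 < η → ∀ᶠ N : ℕ in atTop,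
      |((unionX P S N).countP (fun v => v ≤ ENNReal.ofReal y) : ℝ) - y * W N| ≤
        η * (N : ℝ) ^ 2 := by
    intro y hy0 hy1 η hη
    have h1 := sum_err (t := fun n => ((S n).countP
        (fun v => v ≤ ENNReal.ofReal (y * (n + 2) / P)) : ℝ) - y * (β n * (n / P)))
        (K := 2 * B / P)
      (K' := C + B / P) (fun n => by
        have h1 := hS n
        have h2 : (0 : ℝ) ≤ ((S n).countP
          (fun v => v ≤ ENNReal.ofReal (y * (n + 2) / P)) : ℝ) := by positivity
        have h2' : (((S n).countP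
          (fun v => v ≤ ENNReal.ofReal (y * (n + 2) / P)) : ℕ) : ℝ) ≤ (S n).card := by
          exact_mod_cast Multiset.countP_le_card _ _
        have h3 := bound n
        have h4 : 0 ≤ β n * (n / P) := mul_nonneg (hβ0 n) (by positivity)
        have h5 : y * (β n * (n / P)) ≤ β n * (n / P) := by nlinarith
        have h6 : 0 ≤ y * (β n * (n / P)) := mul_nonneg hy0 h4
        rw [abs_le]
        constructor <;> nlinarith) (fun δ hδ => by
        obtain ⟨E, hE, hE'⟩ := h δ hδ
        refine ⟨E, hE, fun n hn => ?_⟩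
        obtain ⟨h1, h2⟩ := hE' n hn
        have hn0 : (0 : ℝ) ≤ n := by positivity
        have hβP : β n / P ≤ B / P := div_le_div_of_nonneg_right (hβ1 n) hP.le
        have hβP0 : 0 ≤ β n / P := div_nonneg (hβ0 n) hP.le
        by_cases hx : y * (n + 2) / P ≤ n / P
        · have h3 := abs_le.1 (h1 (y * (n + 2) / P) (by positivity) hx)
          have h4 : β n * (y * (n + 2) / P) = y * (β n * (n / P)) + 2 * y * (β n / P) := by
            field_simp
          rw [h4] at h3
          have h5 : 2 * y * (β n / P) ≤ 2 * B / P := by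
            have : y * (β n / P) ≤ B / P := by nlinarith
            have h6 : 2 * B / P = 2 * (B / P) := by ring
            linarith
          have h6 : 0 ≤ 2 * y * (β n / P) := by positivity
          rw [abs_le]
          constructor <;> linarith
        · have hx' : n / P < y * (n + 2) / P := not_le.1 hx
          have h3 := abs_le.1 (h1 (n / P) (by positivity) le_rfl)
          have h4 := abs_le.1 h2
          have h5 : (((S n).countP (fun v => v ≤ ENNReal.ofReal (n / P)) : ℕ) : ℝ) ≤
              ((S n).countP (fun v => v ≤ ENNReal.ofReal (y * (n + 2) / P)) : ℕ) := by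
            exact_mod_cast countP_mono_ofReal (S n) hx'.le
          have h6 : (((S n).countP
            (fun v => v ≤ ENNReal.ofReal (y * (n + 2) / P)) : ℕ) : ℝ) ≤ (S n).card := by
            exact_mod_cast Multiset.countP_le_card _ _
          have h7 : y * (β n * (n / P)) ≤ β n * (n / P) := by
            have : 0 ≤ β n * (n / P) := mul_nonneg (hβ0 n) (by positivity)
            nlinarith
          have h8 : β n * (n / P) ≤ y * (β n * (n / P)) + 2 * B / P := by
            rw [div_lt_div_iff_of_pos_right hP] at hx'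
            have e1 : β n * (n / P) - y * (β n * (n / P)) = (n - y * n) * (β n / P) := by
              field_simp
            have e2 : (n - y * n : ℝ) ≤ 2 := by nlinarith
            have e3 : (n - y * n) * (β n / P) ≤ 2 * (B / P) := by
              have e4 : 0 ≤ (n - y * n : ℝ) := by nlinarith
              nlinarith
            have e5 : 2 * B / P = 2 * (B / P) := by ring
            linarith
          have h9 : 0 ≤ 2 * B / P := by positivity
          rw [abs_le]
          constructor <;> linarith) hη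
    filter_upwards [h1] with N hN
    rw [countP_unionX hP S N hy0]
    push_cast
    rw [hW]
    simp only
    rw [mul_sum, ← sum_sub_distrib]
    exact hN
  have hWc : ∀ᶠ N : ℕ in atTop, c / P * (N : ℝ) ^ 2 ≤ W N := by
    filter_upwards [hβ] with N hN
    have h1 : W N = (∑ n ∈ range N, β n * n) / P := by
      rw [hW]
      simp only
      rw [sum_div]
      exact sum_congr rfl fun n _ => by ring
    rw [h1, div_mul_eq_mul_div]
    exact div_le_div_of_nonneg_right hN hP.le
  constructor
  · filter_upwards [hWc, hD (c / (2 * P)) (by positivity), eventually_gt_atTop 0] with N h1 h2 h3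
    have hN : (0 : ℝ) < N := by exact_mod_cast h3
    have h4 := (abs_le.1 h2).1
    have h5 : 0 < c / (2 * P) * (N : ℝ) ^ 2 := by positivity
    have h6 : c / P * (N : ℝ) ^ 2 = 2 * (c / (2 * P) * (N : ℝ) ^ 2) := by
      field_simp
    have h7 : (0 : ℝ) < (unionX P S N).card := by linarith
    exact_mod_cast h7
  · intro y hy0 hy1
    rw [Metric.tendsto_nhds]
    intro ε hε
    set η : ℝ := min (c / (2 * P)) (ε * c / (8 * P)) with hηd
    have hη : 0 < η := by positivity
    filter_upwards [hWc, hD η hη, hA y hy0 hy1 η hη, eventually_gt_atTop 0] with N h1 h2 h3 h4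
    have hN : (0 : ℝ) < N := by exact_mod_cast h4
    have hN2 : (0 : ℝ) < (N : ℝ) ^ 2 := by positivity
    have e1 : η * (N : ℝ) ^ 2 ≤ c / (2 * P) * (N : ℝ) ^ 2 :=
      mul_le_mul_of_nonneg_right (min_le_left _ _) hN2.le
    have e2 : η * (N : ℝ) ^ 2 ≤ ε * c / (8 * P) * (N : ℝ) ^ 2 :=
      mul_le_mul_of_nonneg_right (min_le_right _ _) hN2.le
    have h5 : 0 < c / (2 * P) * (N : ℝ) ^ 2 := by positivity
    have h6 : c / P * (N : ℝ) ^ 2 = 2 * (c / (2 * P) * (N : ℝ) ^ 2) := by
      field_simp
    have h7 := abs_le.1 h2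
    have h8 := abs_le.1 h3
    have hD1 : c / (2 * P) * (N : ℝ) ^ 2 ≤ ((unionX P S N).card : ℝ) := by linarith
    have hD0 : (0 : ℝ) < (unionX P S N).card := by linarith
    rw [Real.dist_eq]
    have h9 : ((unionX P S N).countP (fun v => v ≤ ENNReal.ofReal y) : ℝ) /
        (unionX P S N).card - y = (((unionX P S N).countP (fun v => v ≤ ENNReal.ofReal y) : ℝ)
          - y * (unionX P S N).card) / (unionX P S N).card := by
      field_simp
    rw [h9, abs_div, abs_of_pos hD0, div_lt_iff₀ hD0]
    have h10 : |((unionX P S N).countP (fun v => v ≤ ENNReal.ofReal y) : ℝ)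
          - y * (unionX P S N).card| ≤ 2 * (η * (N : ℝ) ^ 2) := by
      rw [abs_le]
      constructor <;> nlinarith
    have h11 : ε * c / (8 * P) * (N : ℝ) ^ 2 = ε / 4 * (c / (2 * P) * (N : ℝ) ^ 2) := by
      field_simp
      ring
    nlinarith

open scoped Classical in
/-- The final step: approximations for all weights outside a set of density zero give the weak
convergence of the uniform measures on the scaled multisets to Lebesgue measure on `[0, 1]`
(averages of every continuous function on `[0, ∞]`). -/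
theorem tendsto_avg_union {P : ℝ} (hP : 0 < P) {β : ℕ → ℝ} {B C c : ℝ} (hβ0 : ∀ n, 0 ≤ β n)
    (hβ1 : ∀ n, β n ≤ B) (hc : 0 < c)
    (hβ : ∀ᶠ N : ℕ in atTop, c * (N : ℝ) ^ 2 ≤ ∑ n ∈ range N, β n * n)
    (S : ℕ → Multiset ENNReal) (hS : ∀ n, ((S n).card : ℝ) ≤ C * (n + 1))
    (h : ∀ δ : ℝ, 0 < δ → ∃ E : Set ℕ,
      Tendsto (fun N : ℕ => (#{n ∈ range N | n ∈ E} : ℝ) / N) atTop (𝓝 0) ∧
      ∀ n ∉ E, (∀ x : ℝ, 0 ≤ x → x ≤ n / P →
        |((S n).countP (fun v => v ≤ ENNReal.ofReal x) : ℝ) - β n * x| ≤ δ * (n + 1)) ∧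
        |((S n).card : ℝ) - β n * (n / P)| ≤ δ * (n + 1))
    (f : ENNReal → ℝ) (hf : Continuous f) :
    Tendsto (fun T : ℕ => avg (unionX P S (T - 1)) f) atTop
      (𝓝 (∫ t in (0 : ℝ)..1, f (ENNReal.ofReal t))) := by
  obtain ⟨h1, h2⟩ := counts_union hP hβ0 hβ1 hc hβ S hS h
  exact (tendsto_avg (unionX P S) h1 h2 f hf).comp (tendsto_sub_atTop_nat 1)

/-! ### The same as a statement about measures -/

/-- the uniform measure on a multiset of points of `[0, ∞]` (with multiplicity) -/
def unif (s : Multiset ENNReal) : Measure ENNReal :=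
  (s.card : ENNReal)⁻¹ • (s.map fun v => Measure.dirac v).sum

lemma sum_dirac_univ (s : Multiset ENNReal) :
    (s.map fun v => Measure.dirac v).sum Set.univ = s.card := by
  induction s using Multiset.induction_on with
  | empty => simp
  | cons a s ih =>
    simp only [Multiset.map_cons, Multiset.sum_cons, Multiset.card_cons]
    rw [Measure.add_apply, ih]
    simp [add_comm]

instance (s : Multiset ENNReal) :
    IsFiniteMeasure (s.map fun v => (Measure.dirac v : Measure ENNReal)).sum :=
  ⟨by rw [sum_dirac_univ]; exact ENNReal.natCast_lt_top _⟩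

lemma unif_prob {s : Multiset ENNReal} (hs : 0 < s.card) : IsProbabilityMeasure (unif s) := by
  constructor
  unfold unif
  rw [Measure.smul_apply, sum_dirac_univ, smul_eq_mul]
  exact ENNReal.inv_mul_cancel (by exact_mod_cast hs.ne') (ENNReal.natCast_ne_top _)

lemma integral_unif (s : Multiset ENNReal) {f : ENNReal → ℝ} (hf : Continuous f) :
    ∫ v, f v ∂(unif s) = avg s f := by
  have hint : ∀ (μ : Measure ENNReal) [IsFiniteMeasure μ], Integrable f μ := fun μ _ =>
    (BoundedContinuousFunction.mkOfCompact ⟨f, hf⟩).integrable μ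
  have h1 : ∀ s : Multiset ENNReal,
      ∫ v, f v ∂((s.map fun v => (Measure.dirac v : Measure ENNReal)).sum) = (s.map f).sum := by
    intro s
    induction s using Multiset.induction_on with
    | empty => simp
    | cons a s ih =>
      simp only [Multiset.map_cons, Multiset.sum_cons]
      rw [integral_add_measure (hint _) (hint _), ih, integral_dirac]
  unfold unif avg
  rw [integral_smul_measure, h1]
  simp [div_eq_inv_mul]

end Weak

end Gouvea
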