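import Pool.Agent.Work.MP_d3517d_nt.Eigs
import Pool.Agent.Work.MP_d3517d_nt.Dens
import Pool.Agent.Work.MP_d3517d_nt.Weak

/-!
# The end of the proof: from the counting theorem to the weak convergence
-/

open Polynomial Finset Filter Topology MeasureTheory

noncomputable section

namespace Gouvea

variable {p : ℕ} [Fact p.Prime]

/-! ### Convergence in finite dimensional spaces -/

/-- In a finite dimensional space, convergence to `0` can be tested on a separating family of
linear forms. -/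
theorem tendsto_iff_of_separating {W ι J : Type} [AddCommGroup W] [Module ℚ_[p] W] [Fintype ι]
    (Ψ : W ≃ₗ[ℚ_[p]] (ι → ℚ_[p])) (ℓ : J → W →ₗ[ℚ_[p]] ℚ_[p])
    (hsep : ∀ w, (∀ j, ℓ j w = 0) → w = 0) (v : ℕ → W) :
    (∀ j, Tendsto (fun N => ℓ j (v N)) atTop (𝓝 0)) ↔
      ∀ i, Tendsto (fun N => Ψ (v N) i) atTop (𝓝 0) := by
  classical
  have : FiniteDimensional ℚ_[p] W := Module.Finite.equiv Ψ.symm
  constructor
  · intro h
    have htop : Submodule.span ℚ_[p] (Set.range ℓ) = ⊤ := by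
      have h1 : (Submodule.span ℚ_[p] (Set.range ℓ)).dualCoannihilator = ⊥ := by
        rw [eq_bot_iff]
        intro w hw
        rw [Submodule.mem_dualCoannihilator] at hw
        exact hsep w fun j => hw _ (Submodule.subset_span ⟨j, rfl⟩)
      have h2 := Subspace.dualCoannihilator_dualAnnihilator_eq
        (W := Submodule.span ℚ_[p] (Set.range ℓ))
      rw [← h2, h1, Submodule.dualAnnihilator_bot]
    have hall : ∀ φ : Module.Dual ℚ_[p] W, Tendsto (fun N => φ (v N)) atTop (𝓝 0) := by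
      intro φ
      have hφ : φ ∈ Submodule.span ℚ_[p] (Set.range ℓ) := by rw [htop]; trivial
      induction hφ using Submodule.span_induction with
      | mem x hx => obtain ⟨j, rfl⟩ := hx; exact h j
      | zero => simp
      | add x y _ _ hx hy => simpa using hx.add hy
      | smul a x _ hx => simpa using hx.const_mul a
    intro i
    exact hall ((LinearMap.proj i).comp Ψ.toLinearMap)
  · intro h j
    have h1 : ∀ w : W, ℓ j w = ∑ i, Ψ w i * ℓ j (Ψ.symm (Pi.single i 1)) := by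
      intro w
      have h2 : w = ∑ i, Ψ w i • Ψ.symm (Pi.single i 1) := by
        apply Ψ.injective
        rw [map_sum]
        funext k
        simp [Finset.sum_apply, Pi.single_apply]
      conv_lhs => rw [h2, map_sum]
      simp
    have h3 : Tendsto (fun N => ∑ i, Ψ (v N) i * ℓ j (Ψ.symm (Pi.single i 1))) atTop
        (𝓝 (∑ i : ι, 0 * ℓ j (Ψ.symm (Pi.single i 1)))) :=
      tendsto_finsetSum _ fun i _ => (h i).mul_const _
    simp only [zero_mul, Finset.sum_const_zero] at h3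
    exact h3.congr fun N => (h1 (v N)).symm

/-! ### One weight -/

section weight

variable {Ω : Type} [MulAction (G p) Ω] {R : Type} [CommRing R]

/-- Membership in `FormsAt`, in coordinates. -/
theorem mem_formsAt_iff {ι : Type} [Fintype ι] [DecidableEq ι]
    (act : R →+* Module.End ℤ_[p] (Ω →₀ ℤ_[p])) (m : Ideal R) (n : ℕ)
    (Ψ : Forms Ω n ≃ₗ[ℚ_[p]] (ι → ℚ_[p])) (TV : R →+* Matrix ι ι ℤ_[p])
    (hT : ∀ (f : Ω → ℚ_[p][X]) (h0 : f ∈ Forms Ω n) (t : R), ∃ h2 : corr (act t) f ∈ Forms Ω n,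
      Ψ ⟨corr (act t) f, h2⟩ = (toQ (TV t)).mulVec (Ψ ⟨f, h0⟩)) (f : Ω → ℚ_[p][X]) :
    f ∈ FormsAt act m n ↔ ∃ h0 : f ∈ Forms Ω n, ∀ t ∈ m, ∀ i,
      Tendsto (fun N : ℕ => ((toQ (TV t)) ^ N).mulVec (Ψ ⟨f, h0⟩) i) atTop (𝓝 0) := by
  have hpow : ∀ (f : Ω → ℚ_[p][X]) (h0 : f ∈ Forms Ω n) (t : R) (N : ℕ),
      ∃ h2 : (corr (act t) ^ N) f ∈ Forms Ω n,
        Ψ ⟨(corr (act t) ^ N) f, h2⟩ = ((toQ (TV t)) ^ N).mulVec (Ψ ⟨f, h0⟩) := by
    intro f h0 t N
    induction N with
    | zero => exact ⟨h0, by simp⟩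
    | succ N ih =>
      obtain ⟨h2, h3⟩ := ih
      obtain ⟨h4, h5⟩ := hT _ h2 t
      have e : (corr (act t) ^ (N + 1)) f = corr (act t) ((corr (act t) ^ N) f) := by
        rw [pow_succ']; rfl
      refine ⟨by rw [e]; exact h4, ?_⟩
      have e' : (⟨(corr (act t) ^ (N + 1)) f, by rw [e]; exact h4⟩ : Forms Ω n) =
          ⟨corr (act t) ((corr (act t) ^ N) f), h4⟩ := Subtype.ext e
      rw [e', h5, h3, Matrix.mulVec_mulVec, ← pow_succ']
  have key : ∀ (f : Ω → ℚ_[p][X]) (h0 : f ∈ Forms Ω n) (t : R),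
      (∀ (x : Ω) (i : ℕ), Tendsto (fun N : ℕ => ((corr (act t) ^ N) f x).coeff i) atTop (𝓝 0)) ↔
      ∀ i, Tendsto (fun N : ℕ => ((toQ (TV t)) ^ N).mulVec (Ψ ⟨f, h0⟩) i) atTop (𝓝 0) := by
    intro f h0 t
    have h := tendsto_iff_of_separating Ψ
      (fun (j : Ω × ℕ) => (Polynomial.lcoeff ℚ_[p] j.2).comp
        ((LinearMap.proj j.1).comp (Forms Ω n).subtype))
      (by
        intro w hw
        apply Subtype.ext
        funext x
        ext i
        simpa using hw (x, i))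
      (fun N => ⟨(corr (act t) ^ N) f, (hpow f h0 t N).1⟩)
    rw [show (∀ (x : Ω) (i : ℕ), Tendsto (fun N : ℕ => ((corr (act t) ^ N) f x).coeff i) atTop
      (𝓝 0)) ↔ ∀ j : Ω × ℕ, Tendsto (fun N : ℕ => ((corr (act t) ^ N) f j.1).coeff j.2) atTop
      (𝓝 0) from ⟨fun h j => h j.1 j.2, fun h x i => h (x, i)⟩]
    refine (Iff.trans (Iff.of_eq ?_) h).trans (Iff.of_eq ?_)
    · rfl
    · refine forall_congr fun i => ?_
      congr 1
      funext N
      rw [(hpow f h0 t N).2]
  constructor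
  · rintro ⟨h0, h1⟩
    exact ⟨h0, fun t ht => (key f h0 t).1 (h1 t ht)⟩
  · rintro ⟨h0, h1⟩
    exact ⟨h0, fun t ht => (key f h0 t).2 (h1 t ht)⟩

variable {h : ℕ} {E V : Type} [Fintype E] [DecidableEq E] [Fintype V] [DecidableEq V]
  {D : Dat p h E V}

/-- The space `FormsAt` and the eigenvalues of `T_p` on it, in coordinates. -/
theorem eigs_of_dat (n : ℕ) (s : Summ D n)
    (act : R →+* Module.End ℤ_[p] (Ω →₀ ℤ_[p])) (m : Ideal R)
    (Ψ : Forms Ω n ≃ₗ[ℚ_[p]] (V × Fin (n + 1) → ℚ_[p]))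
    (TV : R →+* Matrix (V × Fin (n + 1)) (V × Fin (n + 1)) ℤ_[p])
    (hΨ : ∀ (f : Ω → ℚ_[p][X]) (h0 : f ∈ Forms Ω n),
        (∃ h1 : heckeT Ω n f ∈ Forms Ω n,
          Ψ ⟨heckeT Ω n f, h1⟩ = (toQ (D.π n * D.W n * D.ι n)).mulVec (Ψ ⟨f, h0⟩)) ∧
        ∀ t, ∃ h2 : corr (act t) f ∈ Forms Ω n,
          Ψ ⟨corr (act t) f, h2⟩ = (toQ (TV t)).mulVec (Ψ ⟨f, h0⟩))
    (hs : ∀ v : V × Fin (n + 1) → ℚ_[p],
      (∀ t ∈ m, ∀ i, Tendsto (fun N : ℕ => ((toQ (TV t)) ^ N).mulVec v i) atTop (𝓝 0)) ↔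
        (toQ s.εV).mulVec v = v) :
    (∀ v ∈ FormsAt act m n, heckeT Ω n v ∈ FormsAt act m n) ∧
      Module.Finite ℚ_[p] (FormsAt act m n) ∧
      Module.finrank ℚ_[p] (FormsAt act m n) = (toQ s.εV).rank ∧
      specM (toQ s.T) = eigs (heckeT Ω n) (FormsAt act m n) +
        Multiset.replicate (Fintype.card (V × Fin (n + 1)) - (toQ s.εV).rank) 0 := by
  have hmul : ∀ {ι : Type} [Fintype ι] [DecidableEq ι] (A B : Matrix ι ι ℤ_[p]),
      toQ (A * B) = toQ A * toQ B := fun A B => by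
    unfold toQ; exact Matrix.map_mul
  have hT : toQ s.T = toQ s.εV * toQ (D.π n * D.W n * D.ι n) := by
    unfold Summ.T; exact hmul _ _
  have hε : toQ s.εV * toQ s.εV = toQ s.εV := by rw [← hmul, s.idV]
  have hc : toQ (D.π n * D.W n * D.ι n) * toQ s.εV = toQ s.εV * toQ (D.π n * D.W n * D.ι n) := by
    rw [← hmul, ← hmul]
    congr 1
    calc D.π n * D.W n * D.ι n * s.εV = D.π n * D.W n * (D.ι n * s.εV) := by
          rw [Matrix.mul_assoc]
      _ = D.π n * (D.W n * s.εE) * D.ι n := by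
          rw [← s.comι]; simp only [Matrix.mul_assoc]
      _ = D.π n * s.εE * D.W n * D.ι n := by
          rw [← s.comW]; simp only [Matrix.mul_assoc]
      _ = s.εV * (D.π n * D.W n * D.ι n) := by
          rw [s.comπ]; simp only [Matrix.mul_assoc]
  rw [hT]
  refine eigs_of_equiv (heckeT Ω n) (Forms Ω n) (FormsAt act m n) Ψ _ _ hε hc
    (fun f h0 => (hΨ f h0).1) fun f => ?_
  rw [mem_formsAt_iff act m n Ψ TV (fun f h0 t => (hΨ f h0).2 t)]
  exact exists_congr fun h0 => hs _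

end weight

/-! ### Slopes and counting functions -/

theorem val_le_iff {x : ℝ} (hx : 0 ≤ x) (l : PadicAlgCl p) :
    val l ≤ ENNReal.ofReal x ↔ (p : ℝ) ^ (-x) ≤ ‖l‖ := by
  have hp1 : (1 : ℝ) < p := by exact_mod_cast (Fact.out : p.Prime).one_lt
  unfold val
  split_ifs with h
  · subst h
    simp only [top_le_iff, ENNReal.ofReal_ne_top, norm_zero, false_iff, not_le]
    positivity
  · have hl : 0 < ‖l‖ := norm_pos_iff.2 h
    rw [ENNReal.ofReal_le_ofReal_iff hx, neg_le, Real.le_logb_iff_rpow_le hp1 hl]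

theorem Nf_eq_countP {ι : Type} [Fintype ι] [DecidableEq ι] (A : Matrix ι ι ℚ_[p])
    (S : Multiset (PadicAlgCl p)) (k : ℕ) (hA : specM A = S + Multiset.replicate k 0) {x : ℝ}
    (hx : 0 ≤ x) :
    Nf A x = (S.map val).countP (fun v => v ≤ ENNReal.ofReal x) := by
  classical
  have hp0 : (0 : ℝ) < p := by exact_mod_cast (Fact.out : p.Prime).pos
  unfold Nf
  rw [hA, Multiset.filter_add, Multiset.card_add, Multiset.countP_map]
  have h1 : (Multiset.filter (fun l : PadicAlgCl p => (p : ℝ) ^ (-x) ≤ ‖l‖)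
      (Multiset.replicate k 0)) = 0 := by
    rw [Multiset.filter_eq_nil]
    intro a ha
    rw [Multiset.eq_of_mem_replicate ha, norm_zero, not_le]
    positivity
  rw [h1, Multiset.card_zero, add_zero]
  congr 1
  exact Multiset.filter_congr fun l _ => (val_le_iff hx l).symm

/-! ### Periodicity of the multiplicities -/

section periodic

variable {dd : ℕ → ℕ → ℕ}

theorem dens_nonneg (n : ℕ) : 0 ≤ dens p dd n := by
  have hp1 : (1 : ℝ) ≤ p := by exact_mod_cast (Fact.out : p.Prime).one_le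
  unfold dens
  apply div_nonneg
  · exact_mod_cast Nat.zero_le _
  · linarith

omit [Fact p.Prime] in
theorem dens_add (hn : ∀ n i, dd (n + (p - 1)) i = dd n i) (n k : ℕ) :
    dens p dd (n + (p - 1) * k) = dens p dd n := by
  induction k with
  | zero => simp
  | succ k ih =>
    rw [← ih]
    unfold dens
    rw [show n + (p - 1) * (k + 1) = n + (p - 1) * k + (p - 1) by ring]
    simp only [hn]

theorem dens_bound (hn : ∀ n i, dd (n + (p - 1)) i = dd n i) :
    ∃ B : ℝ, ∀ n, dens p dd n ≤ B := by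
  have hp1 : 0 < p - 1 := Nat.sub_pos_of_lt (Fact.out : p.Prime).one_lt
  refine ⟨∑ m ∈ range (p - 1), dens p dd m, fun n => ?_⟩
  have h1 : dens p dd n = dens p dd (n % (p - 1)) := by
    conv_lhs => rw [← Nat.mod_add_div n (p - 1)]
    exact dens_add hn _ _
  rw [h1]
  exact Finset.single_le_sum (f := fun m => dens p dd m) (fun m _ => dens_nonneg m)
    (mem_range.2 (Nat.mod_lt _ hp1))

theorem dens_pos (hi : ∀ n i, dd n (i + (p - 1)) = dd n i) {n i : ℕ} (h : 0 < dd n i) :
    1 / ((p : ℝ) - 1) ≤ dens p dd n := by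
  have hp1 : 0 < p - 1 := Nat.sub_pos_of_lt (Fact.out : p.Prime).one_lt
  have hp2 : (1 : ℝ) < p := by exact_mod_cast (Fact.out : p.Prime).one_lt
  have h1 : ∀ k, dd n (i % (p - 1) + (p - 1) * k) = dd n (i % (p - 1)) := by
    intro k
    induction k with
    | zero => simp
    | succ k ih =>
      rw [← ih, show i % (p - 1) + (p - 1) * (k + 1) = i % (p - 1) + (p - 1) * k + (p - 1) by ring,
        hi]
  have h2 : 0 < dd n (i % (p - 1)) := by
    rw [← h1 (i / (p - 1)), Nat.mod_add_div]; exact h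
  unfold dens
  rw [div_le_div_iff_of_pos_right (by linarith)]
  have h3 : dd n (i % (p - 1)) ≤ ∑ j ∈ range (p - 1), dd n j :=
    Finset.single_le_sum (f := fun j => dd n j) (fun _ _ => Nat.zero_le _)
      (mem_range.2 (Nat.mod_lt _ hp1))
  have h4 : 1 ≤ ∑ j ∈ range (p - 1), dd n j := le_trans h2 h3
  exact_mod_cast h4

end periodic

/-- A function which is `≥ b` on an arithmetic progression has a large weighted sum. -/
theorem sum_ge_of_progression {β : ℕ → ℝ} (hβ : ∀ n, 0 ≤ β n) {b : ℝ} (hb : 0 < b) {n0 d : ℕ}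
    (hd : 0 < d) (h : ∀ k, b ≤ β (n0 + d * k)) :
    ∃ c : ℝ, 0 < c ∧ ∀ᶠ N : ℕ in atTop, c * (N : ℝ) ^ 2 ≤ ∑ n ∈ range N, β n * n := by
  have hd' : (0 : ℝ) < d := by exact_mod_cast hd
  refine ⟨b / (32 * d), by positivity, ?_⟩
  filter_upwards [eventually_ge_atTop (8 * (n0 + d + 1))] with N hN
  -- the indices `k` with `N / (4 d) ≤ k < N / (2 d)`
  set A : ℕ := N / (2 * d) with hA
  have hA1 : 2 * d * A ≤ N := Nat.mul_div_le N (2 * d)
  have hA2 : N < 2 * d * (A + 1) := by
    have := Nat.lt_mul_div_succ N (show 0 < 2 * d by omega)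
    simpa [hA] using this
  have hmaps : ∀ k ∈ range A, n0 + d * k ∈ range N := by
    intro k hk
    rw [mem_range] at hk ⊢
    have h1 : d * k < d * A := Nat.mul_lt_mul_of_pos_left hk hd
    have h2 : 2 * d * A = d * A + d * A := by ring
    nlinarith
  have hinj : Set.InjOn (fun k => n0 + d * k) (range A : Set ℕ) := by
    intro a _ b _ hab
    simp only [add_right_inj] at hab
    exact Nat.eq_of_mul_eq_mul_left hd hab
  have h1 : ∑ k ∈ range A, b * (d * k : ℝ) ≤ ∑ n ∈ range N, β n * n := by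
    calc ∑ k ∈ range A, b * (d * k : ℝ)
        ≤ ∑ k ∈ range A, β (n0 + d * k) * ((n0 + d * k : ℕ) : ℝ) := by
          apply Finset.sum_le_sum
          intro k _
          have h3 : (d * k : ℝ) ≤ ((n0 + d * k : ℕ) : ℝ) := by
            push_cast
            linarith [n0.cast_nonneg (α := ℝ)]
          exact mul_le_mul (h k) h3 (by positivity) (hβ _)
      _ = ∑ n ∈ (range A).image (fun k => n0 + d * k), β n * n := by
          rw [Finset.sum_image hinj]
      _ ≤ ∑ n ∈ range N, β n * n := by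
          apply Finset.sum_le_sum_of_subset_of_nonneg
          · intro n hn
            obtain ⟨k, hk, rfl⟩ := Finset.mem_image.1 hn
            exact hmaps k hk
          · intro n _ _
            exact mul_nonneg (hβ n) (Nat.cast_nonneg n)
  refine le_trans ?_ h1
  rw [← Finset.mul_sum, ← Finset.mul_sum]
  have hsum : (∑ k ∈ range A, (k : ℝ)) = A * (A - 1) / 2 := by
    have : ∀ m : ℕ, (∑ k ∈ range m, (k : ℝ)) = m * (m - 1) / 2 := by
      intro m
      induction m with
      | zero => simp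
      | succ m ih => rw [Finset.sum_range_succ, ih]; push_cast; ring
    exact this A
  rw [hsum]
  have hN' : (8 : ℝ) * (n0 + d + 1) ≤ N := by exact_mod_cast hN
  have hA2' : (N : ℝ) < 2 * d * (A + 1) := by exact_mod_cast hA2
  have hn0 : (0 : ℝ) ≤ n0 := Nat.cast_nonneg _
  -- `A ≥ N/(2d) - 1 ≥ N / (4 d) + 1`, since `N ≥ 8 d`
  have h5 : (N : ℝ) / (2 * d) ≤ A + 1 := by
    rw [div_le_iff₀ (by positivity)]; linarith
  have h6 : (4 : ℝ) ≤ N / (2 * d) := by
    rw [le_div_iff₀ (by positivity)]; nlinarith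
  set y : ℝ := (N : ℝ) / (2 * d) with hy
  have hNy : (N : ℝ) = 2 * d * y := by rw [hy]; field_simp
  have h7 : y / 2 ≤ A - 1 := by linarith
  have h8 : y / 2 ≤ (A : ℝ) := by linarith
  have h9 : y / 2 * (y / 2) ≤ (A : ℝ) * (A - 1) :=
    mul_le_mul h8 h7 (by linarith) (by linarith)
  rw [hNy]
  have h10 : b / (32 * d) * (2 * d * y) ^ 2 = b * d * (y / 2 * (y / 2)) / 2 := by
    field_simp
    ring
  rw [h10]
  have h11 : 0 ≤ b * d := by positivity
  nlinarith [mul_le_mul_of_nonneg_left h9 h11]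

/-! ### Weak convergence -/

/-- Convergence of the averages of continuous functions implies weak convergence. -/
theorem core_weak_of_avg (S : ℕ → Multiset ENNReal) (hS : ∀ᶠ T in atTop, 0 < (S T).card)
    (h : ∀ f : ENNReal → ℝ, Continuous f →
      Tendsto (fun T => Weak.avg (S T) f) atTop (𝓝 (∫ t in (0 : ℝ)..1, f (ENNReal.ofReal t)))) :
    ∃ (μ : ℕ → ProbabilityMeasure ENNReal) (ν : ProbabilityMeasure ENNReal),
      (∀ᶠ T in atTop, (μ T : Measure ENNReal) = unif (S T)) ∧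
      (ν : Measure ENNReal) = (volume.restrict (Set.Icc (0 : ℝ) 1)).map ENNReal.ofReal ∧
      Tendsto μ atTop (𝓝 ν) := by
  classical
  have hmeas : Measurable (ENNReal.ofReal) := ENNReal.measurable_ofReal
  have hν : IsProbabilityMeasure ((volume.restrict (Set.Icc (0 : ℝ) 1)).map ENNReal.ofReal) := by
    constructor
    rw [Measure.map_apply hmeas MeasurableSet.univ]
    simp
  set ν : ProbabilityMeasure ENNReal :=
    ⟨(volume.restrict (Set.Icc (0 : ℝ) 1)).map ENNReal.ofReal, hν⟩ with hνdef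
  have hun : ∀ s : Multiset ENNReal, unif s = Weak.unif s := fun s => rfl
  set μ : ℕ → ProbabilityMeasure ENNReal := fun T =>
    if hT : 0 < (S T).card then ⟨unif (S T), by rw [hun]; exact Weak.unif_prob hT⟩ else ν with hμ
  have hμS : ∀ T, 0 < (S T).card → (μ T : Measure ENNReal) = unif (S T) := by
    intro T hT
    have e : μ T = ⟨unif (S T), by rw [hun]; exact Weak.unif_prob hT⟩ := dif_pos hT
    rw [e]
    rfl
  refine ⟨μ, ν, ?_, rfl, ?_⟩
  · filter_upwards [hS] with T hT using hμS T hT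
  · rw [ProbabilityMeasure.tendsto_iff_forall_integral_tendsto]
    intro f
    have h1 := h f f.continuous
    have h2 : ∫ x, f x ∂(ν : Measure ENNReal) = ∫ t in (0 : ℝ)..1, f (ENNReal.ofReal t) := by
      rw [intervalIntegral.integral_of_le zero_le_one, ← integral_Icc_eq_integral_Ioc]
      change ∫ x, f x ∂((volume.restrict (Set.Icc (0 : ℝ) 1)).map ENNReal.ofReal) = _
      rw [integral_map hmeas.aemeasurable f.continuous.aestronglyMeasurable]
    rw [h2]
    refine h1.congr' ?_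
    filter_upwards [hS] with T hT
    rw [hμS T hT, hun, Weak.integral_unif _ f.continuous]

/-! ### The end of the proof -/

section glue

variable {Ω : Type} [MulAction (G p) Ω] {R : Type} [CommRing R]
  {h : ℕ} {E V : Type} [Fintype E] [DecidableEq E] [Fintype V] [DecidableEq V]

open Classical in
/-- The counting theorem implies the equidistribution of the slopes. -/
theorem equi_of_few (D : Dat p h E V)
    (act : R →+* Module.End ℤ_[p] (Ω →₀ ℤ_[p])) (m : Ideal R)
    (hm : ∃ n, Even n ∧ FormsAt act m n ≠ ⊥)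
    (Ψ : ∀ n, Even n → (Forms Ω n ≃ₗ[ℚ_[p]] (V × Fin (n + 1) → ℚ_[p])))
    (TV : ∀ n, Even n → (R →+* Matrix (V × Fin (n + 1)) (V × Fin (n + 1)) ℤ_[p]))
    (hΨ : ∀ (n : ℕ) (hn : Even n) (f : Ω → ℚ_[p][X]) (h0 : f ∈ Forms Ω n),
        (∃ h1 : heckeT Ω n f ∈ Forms Ω n,
          Ψ n hn ⟨heckeT Ω n f, h1⟩ = (toQ (D.π n * D.W n * D.ι n)).mulVec (Ψ n hn ⟨f, h0⟩)) ∧
        ∀ t, ∃ h2 : corr (act t) f ∈ Forms Ω n,
          Ψ n hn ⟨corr (act t) f, h2⟩ = (toQ (TV n hn t)).mulVec (Ψ n hn ⟨f, h0⟩))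
    (s : ∀ n, Even n → Summ D n) (dd : ℕ → ℕ → ℕ)
    (hd : ∀ n hn i, (s n hn).d i = dd n i)
    (hdn : ∀ n i, dd (n + (p - 1)) i = dd n i) (hdi : ∀ n i, dd n (i + (p - 1)) = dd n i)
    (hs : ∀ n hn (v : V × Fin (n + 1) → ℚ_[p]),
        (∀ t ∈ m, ∀ i, Tendsto (fun N : ℕ => ((toQ (TV n hn t)) ^ N).mulVec v i) atTop (𝓝 0)) ↔
        (toQ (s n hn).εV).mulVec v = v)
    (hpos : ∀ n (hn : Even n), (s n hn).εV ≠ 0 → ∃ i, 0 < (s n hn).d i)
    (few : ∀ η ε : ℝ, 0 < η → 0 < ε →
      ∃ N0 : ℕ, ∀ N ≥ N0, (((range N).filter fun n : ℕ => ∃ hn : Even n,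
      ¬ ((∀ x : ℝ, 0 ≤ x → x * (p + 1) ≤ n →
          |(Nf (toQ (s n hn).T) x : ℝ) - dens p dd n * x| ≤ η * n) ∧
        |((toQ (s n hn).εV).rank : ℝ) - dens p dd n * (n / (p + 1))| ≤ η * n)).card : ℝ) ≤
      ε * N) :
    (∀ n, Even n → (∀ f ∈ FormsAt act m n, heckeT Ω n f ∈ FormsAt act m n) ∧
      Module.Finite ℚ_[p] (FormsAt act m n) ∧
      ∀ l ∈ eigs (heckeT Ω n) (FormsAt act m n), ‖l‖ ≤ 1) ∧
    ∃ (μ : ℕ → ProbabilityMeasure ENNReal) (ν : ProbabilityMeasure ENNReal),
      (∀ᶠ T in atTop, (μ T : Measure ENNReal) = unif (slopes act m T)) ∧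
      (ν : Measure ENNReal) = (volume.restrict (Set.Icc (0 : ℝ) 1)).map ENNReal.ofReal ∧
      Tendsto μ atTop (𝓝 ν) := by
  have hp0 : (0 : ℝ) < p := by exact_mod_cast (Fact.out : p.Prime).pos
  have hp1 : 0 < p - 1 := Nat.sub_pos_of_lt (Fact.out : p.Prime).one_lt
  have W := fun n (hn : Even n) =>
    eigs_of_dat n (s n hn) act m (Ψ n hn) (TV n hn) (hΨ n hn) (hs n hn)
  refine ⟨fun n hn => ⟨(W n hn).1, (W n hn).2.1, fun l hl => ?_⟩, ?_⟩
  · refine norm_le_one_of_mem_specM (s n hn).T l ?_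
    rw [(W n hn).2.2.2]
    exact Multiset.mem_add.2 (Or.inl hl)
  -- the multisets of valuations
  set S : ℕ → Multiset ENNReal := fun n =>
    if Even n then (eigs (heckeT Ω n) (FormsAt act m n)).map val else 0 with hSdef
  set β : ℕ → ℝ := fun n => if Even n then dens p dd n else 0 with hβdef
  have hSe : ∀ n, Even n → S n = (eigs (heckeT Ω n) (FormsAt act m n)).map val := fun n hn => by
    simp only [hSdef, if_pos hn]
  have hSo : ∀ n, ¬ Even n → S n = 0 := fun n hn => by simp only [hSdef, if_neg hn]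
  have hβe : ∀ n, Even n → β n = dens p dd n := fun n hn => by simp only [hβdef, if_pos hn]
  have hβo : ∀ n, ¬ Even n → β n = 0 := fun n hn => by simp only [hβdef, if_neg hn]
  have hβ0 : ∀ n, 0 ≤ β n := fun n => by
    by_cases hn : Even n
    · rw [hβe n hn]; exact dens_nonneg n
    · rw [hβo n hn]
  obtain ⟨B, hB⟩ := dens_bound hdn
  have hβ1 : ∀ n, β n ≤ B := fun n => by
    by_cases hn : Even n
    · rw [hβe n hn]; exact hB n
    · rw [hβo n hn]; exact (dens_nonneg 0).trans (hB 0)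
  -- the cardinalities
  have hcardspec : ∀ {ι : Type} [Fintype ι] [DecidableEq ι] (A : Matrix ι ι ℚ_[p]),
      (specM A).card = Fintype.card ι := by
    intro ι _ _ A
    unfold specM
    have h := IsAlgClosed.splits (A.charpoly.map (algebraMap ℚ_[p] (PadicAlgCl p)))
    rw [← h.natDegree_eq_card_roots, Polynomial.natDegree_map, Matrix.charpoly_natDegree_eq_dim]
  have hcard : ∀ n (hn : Even n), (S n).card = (toQ (s n hn).εV).rank := by
    intro n hn
    have h1 := congrArg Multiset.card (W n hn).2.2.2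
    rw [hcardspec, Multiset.card_add, Multiset.card_replicate] at h1
    have h2 : (toQ (s n hn).εV).rank ≤ Fintype.card (V × Fin (n + 1)) :=
      Matrix.rank_le_card_width _
    rw [hSe n hn, Multiset.card_map]
    omega
  have hSC : ∀ n, ((S n).card : ℝ) ≤ (Fintype.card V : ℝ) * (n + 1) := by
    intro n
    by_cases hn : Even n
    · rw [hcard n hn]
      have h2 : (toQ (s n hn).εV).rank ≤ Fintype.card (V × Fin (n + 1)) :=
        Matrix.rank_le_card_width _
      rw [Fintype.card_prod, Fintype.card_fin] at h2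
      exact_mod_cast h2
    · rw [hSo n hn]
      simp only [Multiset.card_zero, Nat.cast_zero]
      positivity
  -- positivity of the density
  have hβpos : ∃ c : ℝ, 0 < c ∧ ∀ᶠ N : ℕ in atTop, c * (N : ℝ) ^ 2 ≤ ∑ n ∈ range N, β n * n := by
    obtain ⟨n, hn, hne⟩ := hm
    have hne' : (s n hn).εV ≠ 0 := by
      intro h0
      apply hne
      have h1 := (W n hn).2.2.1
      have := (W n hn).2.1
      have h2 : (toQ (s n hn).εV) = 0 := by
        rw [h0]
        ext i j
        simp [toQ]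
      rw [h2, Matrix.rank_zero] at h1
      exact Submodule.finrank_eq_zero.1 h1
    obtain ⟨i, hi⟩ := hpos n hn hne'
    rw [hd] at hi
    have hb := dens_pos (p := p) hdi hi
    have hp2 : (1 : ℝ) < p := by exact_mod_cast (Fact.out : p.Prime).one_lt
    refine sum_ge_of_progression hβ0 (b := 1 / ((p : ℝ) - 1)) (n0 := n) (d := 2 * (p - 1))
      (by apply div_pos one_pos; linarith) (by omega) fun k => ?_
    have hev : Even (n + 2 * (p - 1) * k) :=
      hn.add ((even_two_mul (p - 1)).mul_right k)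
    rw [hβe _ hev, show n + 2 * (p - 1) * k = n + (p - 1) * (2 * k) by ring, dens_add hdn]
    exact hb
  obtain ⟨c, hc, hcN⟩ := hβpos
  -- the main approximations
  have happ : ∀ δ : ℝ, 0 < δ → ∃ E : Set ℕ,
      Tendsto (fun N : ℕ => (#{n ∈ range N | n ∈ E} : ℝ) / N) atTop (𝓝 0) ∧
      ∀ n ∉ E, (∀ x : ℝ, 0 ≤ x → x ≤ n / ((p : ℝ) + 1) →
        |((S n).countP (fun v => v ≤ ENNReal.ofReal x) : ℝ) - β n * x| ≤ δ * (n + 1)) ∧
        |((S n).card : ℝ) - β n * (n / ((p : ℝ) + 1))| ≤ δ * (n + 1) := by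
    intro δ hδ
    refine ⟨{n | ∃ hn : Even n, ¬ ((∀ x : ℝ, 0 ≤ x → x * (p + 1) ≤ n →
          |(Nf (toQ (s n hn).T) x : ℝ) - dens p dd n * x| ≤ δ * n) ∧
        |((toQ (s n hn).εV).rank : ℝ) - dens p dd n * (n / (p + 1))| ≤ δ * n)}, ?_, ?_⟩
    · rw [Metric.tendsto_atTop]
      intro ε hε
      obtain ⟨N0, hN0⟩ := few δ (ε / 2) hδ (by linarith)
      refine ⟨N0 + 1, fun N hN => ?_⟩
      have h1 := hN0 N (by omega)
      have hNpos : (0 : ℝ) < N := by exact_mod_cast (show 0 < N by omega)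
      rw [Real.dist_eq, sub_zero, abs_of_nonneg (by positivity), div_lt_iff₀ hNpos]
      refine lt_of_le_of_lt ?_ (lt_of_le_of_lt h1 ?_)
      · apply le_of_eq
        congr 2
        ext n
        simp only [Finset.mem_filter, Set.mem_ofPred_eq]
      · nlinarith
    · intro n hnE
      by_cases hn : Even n
      · have h1 : (∀ x : ℝ, 0 ≤ x → x * (p + 1) ≤ n →
            |(Nf (toQ (s n hn).T) x : ℝ) - dens p dd n * x| ≤ δ * n) ∧
          |((toQ (s n hn).εV).rank : ℝ) - dens p dd n * (n / (p + 1))| ≤ δ * n := by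
          by_contra h2
          exact hnE ⟨hn, h2⟩
        have hle : δ * n ≤ δ * (n + 1) := by nlinarith
        rw [hβe n hn]
        refine ⟨fun x hx hxn => ?_, ?_⟩
        · rw [hSe n hn, ← Nf_eq_countP (toQ (s n hn).T) _ _ (W n hn).2.2.2 hx]
          refine (h1.1 x hx ?_).trans hle
          rwa [le_div_iff₀ (by positivity)] at hxn
        · rw [hcard n hn]
          exact h1.2.trans hle
      · rw [hSo n hn, hβo n hn]
        refine ⟨fun x _ _ => ?_, ?_⟩
        · simp only [Multiset.countP_zero, Nat.cast_zero, zero_mul, sub_zero, abs_zero]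
          positivity
        · simp only [Multiset.card_zero, Nat.cast_zero, zero_mul, sub_zero, abs_zero]
          positivity
  have hP : (0 : ℝ) < (p : ℝ) + 1 := by positivity
  -- the slopes
  have hsl : ∀ T, slopes act m T = Weak.unionX ((p : ℝ) + 1) S (T - 1) := by
    intro T
    unfold slopes Weak.unionX
    rcases T with _ | T
    · simp
    · rw [Nat.add_sub_cancel, Finset.sum_range_succ]
      have e : (if Even T ∧ T + 2 ≤ T + 1 then
          (eigs (heckeT Ω T) (FormsAt act m T)).map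
            fun l => ENNReal.ofReal (((p : ℝ) + 1) / (T + 2)) * val l
          else 0) = 0 := if_neg (by omega)
      rw [e, add_zero]
      apply Finset.sum_congr rfl
      intro n hn
      have hnT := mem_range.1 hn
      by_cases he : Even n
      · rw [if_pos ⟨he, by omega⟩, hSe n he, Multiset.map_map]
        rfl
      · rw [if_neg (fun h => he h.1), hSo n he, Multiset.map_zero]
  have h1 := (Weak.counts_union hP hβ0 hβ1 hc hcN S hSC happ).1
  have h2 : ∀ᶠ T : ℕ in atTop, 0 < (slopes act m T).card := by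
    have := (tendsto_sub_atTop_nat 1).eventually h1
    filter_upwards [this] with T hT
    rw [hsl]
    exact hT
  exact core_weak_of_avg (slopes act m) h2 fun f hf => by
    have := Weak.tendsto_avg_union hP hβ0 hβ1 hc hcN S hSC happ f hf
    exact this.congr fun T => by rw [hsl]

end glue

end Gouvea
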