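import Pool.Agent.Work.MP_d3517d_nt.Coord

/-!
# The data `Dat` attached to a frame (MP_d3517d_nt, M15)
-/

open Polynomial Finset Matrix

noncomputable section

namespace Gouvea

variable {p : ℕ} [Fact p.Prime]

lemma coe_eta_mul (k : K0 p) : ((eta p * toG k : G p) : Matrix (Fin 2) (Fin 2) ℚ_[p]) =
    (etaM p * k.1).map (algebraMap ℤ_[p] ℚ_[p]) := by
  ext i j
  rw [Matrix.GeneralLinearGroup.coe_mul, Matrix.map_apply, Matrix.mul_apply, Matrix.mul_apply]
  fin_cases i <;> fin_cases j <;>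
    simp [Fin.sum_univ_two, eta_coe, etaM, toG_apply]

lemma coe_mul_eta (k : K0 p) : ((toG k * eta p : G p) : Matrix (Fin 2) (Fin 2) ℚ_[p]) =
    (k.1 * etaM p).map (algebraMap ℤ_[p] ℚ_[p]) := by
  ext i j
  rw [Matrix.GeneralLinearGroup.coe_mul, Matrix.map_apply, Matrix.mul_apply, Matrix.mul_apply]
  fin_cases i <;> fin_cases j <;>
    simp [Fin.sum_univ_two, eta_coe, etaM, toG_apply]

/-- conjugation by `η` on the Iwahori group. -/
lemma exists_conj {k : K0 p} (hk : k ∈ Iw0 p) : ∃ k' ∈ Iw0 p, etaM p * k.1 = k'.1 * etaM p := by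
  obtain ⟨c, hc⟩ := mem_Iw0.1 hk
  have hdet : IsUnit (Matrix.det k.1) := k.1.isUnit_iff_isUnit_det.1 k.isUnit
  have hdet' : IsUnit (Matrix.det (!![k 1 1, c; (p : ℤ_[p]) * k 0 1, k 0 0] :
      Matrix (Fin 2) (Fin 2) ℤ_[p])) := by
    rw [Matrix.det_fin_two] at hdet ⊢
    convert hdet using 1
    simp only [Matrix.of_apply, Matrix.cons_val', Matrix.cons_val_zero, Matrix.cons_val_one]
    have : (k.1 1 0) = (p : ℤ_[p]) * c := hc
    rw [this]
    change k.1 1 1 * k.1 0 0 - c * ((p : ℤ_[p]) * k.1 0 1) = _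
    ring
  refine ⟨((Matrix.isUnit_iff_isUnit_det _).2 hdet').unit, ?_, ?_⟩
  · rw [mem_Iw0]
    exact ⟨k 0 1, rfl⟩
  · ext i j
    fin_cases i <;> fin_cases j <;>
      simp [Matrix.mul_apply, Fin.sum_univ_two, etaM, hc, mul_comm]

lemma eta_smul_toG {Ω : Type} [MulAction (G p) Ω] {k k' : K0 p}
    (h : etaM p * k.1 = k'.1 * etaM p) (w : Ω) : eta p • toG k • w = toG k' • eta p • w := by
  rw [← mul_smul, ← mul_smul]
  congr 1
  apply Units.ext
  rw [coe_eta_mul, coe_mul_eta, h]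

lemma etaM_mul_inv {k k' : K0 p} (h : etaM p * k.1 = k'.1 * etaM p) :
    etaM p * (k⁻¹ : K0 p).1 = (k'⁻¹ : K0 p).1 * etaM p := by
  calc etaM p * (k⁻¹ : K0 p).1 = (k'⁻¹ : K0 p).1 * (k'.1 * etaM p) * (k⁻¹ : K0 p).1 := by
        rw [← mul_assoc (k'⁻¹ : K0 p).1, ← Units.val_mul, inv_mul_cancel]; simp
    _ = (k'⁻¹ : K0 p).1 * etaM p * (k.1 * (k⁻¹ : K0 p).1) := by rw [← h]; simp only [mul_assoc]
    _ = _ := by rw [← Units.val_mul, mul_inv_cancel]; simp

lemma slM_etaM_sq (n : ℕ) : slM n (etaM p) * slM n (etaM p) = (p : ℤ_[p]) ^ n • 1 := by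
  rw [← slM_mul]
  apply slM_scalar <;> simp [etaM, Matrix.mul_apply, Fin.sum_univ_two]

namespace Frame

variable {Ω : Type} [MulAction (G p) Ω] {E V : Type} (F : Frame p Ω E V)
variable [DecidableEq E] [DecidableEq V] {n : ℕ}

/-- The value at `w` of `k ↦ (f(k w)) | k`, in terms of the coordinates of `f`. -/
def trE (n : ℕ) (k : K0 p) (w : Ω) : Matrix (Fin (n + 1)) (E × Fin (n + 1)) ℤ_[p] :=
  slM n k.1 * F.evE n (toG k • w)

omit [DecidableEq V] in
lemma trE_mul_left (hn : Even n) {u : K0 p} (hu : u ∈ Iw0 p) (k : K0 p) (w : Ω) :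
    F.trE n (u * k) w = F.trE n k w := by
  rw [trE, trE, map_mul, mul_smul, F.evE_smul hn hu, Units.val_mul, slM_mul, Matrix.mul_assoc,
    ← Matrix.mul_assoc (slM n u.1), ← slM_mul, ← Units.val_mul, inv_mul_cancel, Units.val_one,
    slM_one, Matrix.one_mul]

omit [DecidableEq V] in
lemma trE_smul (k g : K0 p) (w : Ω) :
    F.trE n k (toG g • w) = slM n (g⁻¹ : K0 p).1 * F.trE n (k * g) w := by
  rw [trE, trE, ← Matrix.mul_assoc, ← slM_mul, ← Units.val_mul, mul_inv_cancel_right, ← mul_smul,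
    ← map_mul]

omit [DecidableEq V] in
lemma trE_one (w : Ω) : F.trE n 1 w = F.evE n w := by
  rw [trE, map_one, one_smul, Units.val_one, slM_one, Matrix.one_mul]

/-- The matrix of `W`. -/
def Wm (n : ℕ) : Matrix (E × Fin (n + 1)) (E × Fin (n + 1)) ℤ_[p] :=
  rows fun e => slM n (etaM p) * F.evE n (eta p • F.x e)

/-- The matrix of `ι`. -/
def ιm (n : ℕ) : Matrix (E × Fin (n + 1)) (V × Fin (n + 1)) ℤ_[p] :=
  rows fun e => F.evV n (F.x e)

/-- The matrix of `π`. -/
def πm (n : ℕ) : Matrix (V × Fin (n + 1)) (E × Fin (n + 1)) ℤ_[p] :=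
  rows fun v => ∑ s, F.trE n (rp s) (F.y v)

omit [DecidableEq V] in
lemma evE_mul_W [Fintype E] (hn : Even n) (w : Ω) :
    F.evE n w * F.Wm n = slM n (etaM p) * F.evE n (eta p • w) := by
  rw [Wm, evE_mul_rows]
  obtain ⟨k', hk', h⟩ := exists_conj (F.kE_mem w)
  have h1 : eta p • w = toG k' • eta p • F.x (F.cE w) := by
    rw [← eta_smul_toG h, F.kE_smul]
  rw [h1, F.evE_smul hn hk', ← Matrix.mul_assoc, ← Matrix.mul_assoc, ← slM_mul, ← slM_mul,
    etaM_mul_inv h]

lemma evE_mul_ι [Fintype E] (hn : Even n) (w : Ω) : F.evE n w * F.ιm n = F.evV n w := by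
  rw [ιm, evE_mul_rows, ← F.evV_smul hn, F.kE_smul]

omit [DecidableEq V] in
/-- the sum defining `π` -/
lemma sum_trE_smul (hn : Even n) (w : Ω) (g : K0 p) :
    ∑ s, F.trE n (rp s) (toG g • w) =
      slM n (g⁻¹ : K0 p).1 * ∑ s, F.trE n (rp s) w := by
  rw [← sum_rp_mul (fun k : K0 p => F.trE n k w) (fun u hu k => F.trE_mul_left hn hu k w) g,
    Matrix.mul_sum]
  exact Finset.sum_congr rfl fun s _ => F.trE_smul _ _ _

lemma evV_mul_π [Fintype V] (hn : Even n) (w : Ω) :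
    F.evV n w * F.πm n = ∑ s, F.trE n (rp s) w := by
  rw [πm, evV_mul_rows, ← F.sum_trE_smul hn, F.kV_smul]

lemma trE_mul_ι [Fintype E] (hn : Even n) (k : K0 p) (w : Ω) :
    F.trE n k w * F.ιm n = F.evV n w := by
  rw [trE, Matrix.mul_assoc, F.evE_mul_ι hn, F.evV_smul hn, ← Matrix.mul_assoc, ← slM_mul,
    ← Units.val_mul, inv_mul_cancel, Units.val_one, slM_one, Matrix.one_mul]

lemma π_mul_ι [Fintype E] (hn : Even n) : F.πm n * F.ιm n = ((p : ℤ_[p]) + 1) • 1 := by
  rw [πm, rows_mul, ← F.rows_evV_y hn, rows_smul]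
  congr 1
  funext v
  rw [Matrix.sum_mul]
  simp only [F.trE_mul_ι hn, Finset.sum_const, Finset.card_univ, Fintype.card_option,
    Fintype.card_fin]
  rw [← Nat.cast_smul_eq_nsmul ℤ_[p]]
  push_cast
  rfl

omit [DecidableEq V] in
lemma W_mul_W [Fintype E] (hn : Even n) : F.Wm n * F.Wm n = ((p : ℤ_[p]) ^ n) • 1 := by
  conv_lhs => lhs; rw [Wm]
  rw [rows_mul, ← F.rows_evE_x hn, rows_smul]
  congr 1
  funext e
  rw [Matrix.mul_assoc, F.evE_mul_W hn, ← mul_smul, eta_mul_eta, F.scal_smul, ← Matrix.mul_assoc,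
    slM_etaM_sq]
  simp

/-- the edges data -/
def gam : Gam p E where
  m := p
  co _ _ := 1
  tgt e t := F.cE (toG (rp (some t)) • eta p • F.x e)
  γ e t := ((F.kE (toG (rp (some t)) • eta p • F.x e))⁻¹ * rp (some t) : K0 p).1 * etaM p
  h00 e t := by
    rw [Matrix.mul_apply, Fin.sum_univ_two]
    simp [etaM]
  h10 e t := by
    rw [Matrix.mul_apply, Fin.sum_univ_two]
    simp [etaM]
  h11 e t := by
    set k := (F.kE (toG (rp (some t)) • eta p • F.x e)) with hk
    rw [Matrix.mul_apply, Fin.sum_univ_two]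
    have h1 : etaM p 0 1 = 1 := by simp [etaM]
    have h2 : etaM p 1 1 = 0 := by simp [etaM]
    rw [h1, h2, mul_one, mul_zero, add_zero]
    by_contra h
    have h3 : (p : ℤ_[p]) ∣ (k⁻¹ * rp (some t) : K0 p) 1 0 := by
      rw [← Ideal.mem_span_singleton, ← PadicInt.maximalIdeal_eq_span_p]
      exact h
    have h4 : k⁻¹ * rp (some t) ∈ Iw0 p := h3
    have h5 : rp (some t) ∈ Iw0 p := by
      have := (Iw0 p).mul_mem (F.kE_mem (toG (rp (some t)) • eta p • F.x e)) h4
      rwa [← hk, mul_inv_cancel_left] at this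
    have h6 : rp (some t) * (rp none)⁻¹ ∈ Iw0 p := by simpa using h5
    have := rp_unique h6
    simp at this

lemma W_mul_U [Fintype E] [Fintype V] (hn : Even n) :
    F.Wm n * (F.ιm n * F.πm n - 1) = Um F.gam n := by
  have key : ∀ e : E, slM n (etaM p) * F.evE n (eta p • F.x e) * (F.ιm n * F.πm n - 1) =
      ∑ t : Fin p, slM n (etaM p) * F.trE n (rp (some t)) (eta p • F.x e) := by
    intro e
    rw [Matrix.mul_assoc, Matrix.mul_sub, ← Matrix.mul_assoc (F.evE n _),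
      F.evE_mul_ι hn, F.evV_mul_π hn, Fintype.sum_option, Matrix.mul_one, rp_none, trE_one,
      add_sub_cancel_left, Matrix.mul_sum]
  rw [Wm, rows_mul]
  ext x y
  rw [rows_apply, key, Matrix.sum_apply]
  change _ = ∑ t : Fin p, if F.gam.tgt x.1 t = y.1 then
    (1 : ℤ_[p]) * sl n (F.gam.γ x.1 t) x.2 y.2 else 0
  refine Finset.sum_congr rfl fun t _ => ?_
  rw [one_mul]
  have h2 : slM n (etaM p) * F.trE n (rp (some t)) (eta p • F.x x.1) =
      slM n ((rp (some t)).1 * etaM p) * F.evE n (toG (rp (some t)) • eta p • F.x x.1) := by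
    rw [trE, ← Matrix.mul_assoc, ← slM_mul]
  rw [h2, Matrix.mul_apply]
  simp only [gam, evE, Matrix.of_apply]
  split_ifs with h
  · rw [← Matrix.mul_apply, ← slM_mul, Units.val_mul, Matrix.mul_assoc, slM_apply]
  · simp

omit [DecidableEq V] in
/-- `W` in coordinates. -/
lemma Wm_apply (hn : Even n) (x y : E × Fin (n + 1)) : F.Wm n x y =
    if F.σ x.1 = y.1 then slM n (((F.t x.1)⁻¹ : K0 p).1 * etaM p) x.2 y.2 else 0 := by
  have ht : F.t x.1 ∈ Iw0 p := by
    rw [mem_Iw0, F.t10]; exact dvd_zero _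
  rw [Wm, rows_apply, F.eta_x, F.evE_smul hn ht, ← Matrix.mul_assoc, ← slM_mul, Matrix.mul_apply]
  simp only [F.evE_x hn]
  split_ifs with h
  · rw [Finset.sum_eq_single y.2]
    · simp [h]
    · intro j _ hj
      simp [hj]
    · simp
  · simp [h]

lemma sl_antidiag (n : ℕ) (M : Matrix (Fin 2) (Fin 2) ℤ_[p]) (h00 : M 0 0 = 0) (h11 : M 1 1 = 0)
    (i j : ℕ) (hj : j ≤ n) :
    sl n M i j = if i + j = n then M 0 1 ^ j * M 1 0 ^ (n - j) else 0 := by
  rw [sl, h00, h11]
  have : (C (0 : ℤ_[p]) * X + C (M 0 1)) ^ j * (C (M 1 0) * X + C 0) ^ (n - j) =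
      C (M 0 1 ^ j * M 1 0 ^ (n - j)) * X ^ (n - j) := by
    simp only [map_zero, zero_mul, zero_add, add_zero, mul_pow, map_mul, map_pow]
    ring
  rw [this, coeff_C_mul, coeff_X_pow]
  by_cases h : i + j = n
  · have h' : i = n - j := by omega
    rw [if_pos h, if_pos h', mul_one]
  · have h' : ¬ i = n - j := by omega
    rw [if_neg h, if_neg h', mul_zero]

omit [DecidableEq E] [DecidableEq V] in
lemma tinv_eta (e : E) : (((F.t e)⁻¹ : K0 p).1 * etaM p) 0 0 = 0 ∧
    (((F.t e)⁻¹ : K0 p).1 * etaM p) 1 1 = 0 ∧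
    (p : ℤ_[p]) ∣ (((F.t e)⁻¹ : K0 p).1 * etaM p) 1 0 := by
  have h01 : ((F.t e)⁻¹ : K0 p) 0 1 = 0 := by
    rw [Matrix.coe_units_inv, Matrix.inv_def, Matrix.adjugate_fin_two]
    simp [F.t01]
  have h10 : ((F.t e)⁻¹ : K0 p) 1 0 = 0 := by
    rw [Matrix.coe_units_inv, Matrix.inv_def, Matrix.adjugate_fin_two]
    simp [F.t10]
  refine ⟨?_, ?_, ?_⟩
  · rw [Matrix.mul_apply, Fin.sum_univ_two, h01]; simp [etaM]
  · rw [Matrix.mul_apply, Fin.sum_univ_two, h10]; simp [etaM]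
  · rw [Matrix.mul_apply, Fin.sum_univ_two]; simp [etaM]

/-- The data attached to a frame. -/
def dat [Fintype E] [Fintype V] {h : ℕ} (hE : Fintype.card E = (p + 1) * h)
    (hV : Fintype.card V = h) : Dat p h E V where
  toGam := F.gam
  cardE := hE
  cardV := hV
  σ := F.σ
  W := F.Wm
  ι := F.ιm
  π := F.πm
  πι _ hn := F.π_mul_ι hn
  WW _ hn := F.W_mul_W hn
  W0 n hn x y hxy := by
    rw [F.Wm_apply hn] at hxy
    split_ifs at hxy with h1
    · refine ⟨by rw [← h1, F.σσ], ?_⟩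
      by_contra h2
      apply hxy
      rw [slM_apply, sl_antidiag n _ (F.tinv_eta _).1 (F.tinv_eta _).2.1 _ _
        (Nat.lt_succ_iff.1 y.2.2), if_neg h2]
    · exact absurd rfl hxy
  Wdvd n hn x y := by
    rw [F.Wm_apply hn]
    split_ifs with h1
    · rw [slM_apply, sl_antidiag n _ (F.tinv_eta _).1 (F.tinv_eta _).2.1 _ _
        (Nat.lt_succ_iff.1 y.2.2)]
      split_ifs
      · exact Dvd.dvd.mul_left (pow_dvd_pow_of_dvd (F.tinv_eta _).2.2 _) _
      · exact dvd_zero _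
    · exact dvd_zero _
  WU _ hn := F.W_mul_U hn

omit [DecidableEq E] [DecidableEq V] in
include F in
/-- the number of orbits of the Iwahori group. -/
lemma card_E [Fintype E] [Fintype V] : Fintype.card E = (p + 1) * Fintype.card V := by
  have h : Function.Bijective fun x : V × Option (Fin p) => F.cE (toG (rp x.2) • F.y x.1) := by
    constructor
    · rintro ⟨v, s⟩ ⟨v', s'⟩ hx
      simp only at hx
      have h1 := F.kE_smul (toG (rp s) • F.y v)
      have h2 := F.kE_smul (toG (rp s') • F.y v')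
      have hv : v = v' := by
        have h3 := congrArg F.cV h1
        have h4 := congrArg F.cV h2
        rw [F.cV_smul, F.cV_smul, F.cV_y] at h3 h4
        rw [← h3, ← h4, hx]
      subst hv
      rw [hx] at h1
      set e := F.cE (toG (rp s') • F.y v)
      set k := F.kE (toG (rp s) • F.y v)
      set k' := F.kE (toG (rp s') • F.y v)
      have h5 : toG (rp s) • F.y v = toG (k * k'⁻¹ * rp s') • F.y v := by
        rw [map_mul, mul_smul, ← h2, ← mul_smul, ← map_mul, mul_assoc, inv_mul_cancel, mul_one, h1]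
      have hmem : k * k'⁻¹ ∈ Iw0 p := (Iw0 p).mul_mem (F.kE_mem _) ((Iw0 p).inv_mem (F.kE_mem _))
      have h6 : s = s' := by
        apply rp_unique
        rcases F.eq_or_neg h5 with h7 | h7 <;> rw [h7]
        · rw [mul_inv_cancel_right]; exact hmem
        · rw [neg_mul, mul_inv_cancel_right]
          have : ((-(k * k'⁻¹) : K0 p) 1 0) = - ((k * k'⁻¹ : K0 p) 1 0) := rfl
          rw [mem_Iw0, this]
          exact (dvd_neg).2 hmem
      rw [h6]
    · intro e
      refine ⟨(F.cV (F.x e), clsK (F.kV (F.x e))), ?_⟩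
      simp only
      have h1 := F.kV_smul (F.x e)
      have h2 := clsK_mem (F.kV (F.x e))
      set k := F.kV (F.x e)
      have h3 : toG (rp (clsK k)) • F.y (F.cV (F.x e)) = toG ((k * (rp (clsK k))⁻¹)⁻¹) • F.x e := by
        conv_rhs => rw [← h1]
        rw [← mul_smul, ← map_mul]
        congr 2
        group
      rw [h3, F.cE_smul _ ((Iw0 p).inv_mem h2), F.cE_x]
  have h2 := Fintype.card_of_bijective h
  rw [← h2, Fintype.card_prod, Fintype.card_option, Fintype.card_fin, mul_comm]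

end Frame

end Gouvea
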