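import Pool.Agent.Work.MP_d3517d_nt.Defs

/-!
# Definitions for the statement, part II: eigenvalues, slopes, measures
-/

open Polynomial Finset Filter Topology MeasureTheory

noncomputable section

namespace Gouvea

variable {p : ℕ} [Fact p.Prime]

open Classical in
/-- The eigenvalues (in `\bar ℚ_p`, with multiplicities) of the endomorphism `T` on the finite
dimensional `T`-stable subspace `N` (and `0` if `N` is not finite dimensional or not stable). -/
def eigs {M : Type} [AddCommGroup M] [Module ℚ_[p] M] (T : M →ₗ[ℚ_[p]] M)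
    (N : Submodule ℚ_[p] M) : Multiset (PadicAlgCl p) :=
  if h : (∀ v ∈ N, T v ∈ N) ∧ Module.Finite ℚ_[p] N then
    haveI := h.2
    (((T.restrict h.1).charpoly).map (algebraMap ℚ_[p] (PadicAlgCl p))).roots
  else 0

open Classical in
/-- The valuation `v_p(l) ∈ [0, ∞]` of an integral element `l` of `\bar ℚ_p`. -/
def val (l : PadicAlgCl p) : ENNReal := if l = 0 then ⊤ else ENNReal.ofReal (-Real.logb p ‖l‖)

/-- The normalised slopes `(p+1) v_p(l) / k`, `l` running through the eigenvalues of `T_p` on the
forms of even weight `k = n + 2 ≤ T` at the ideal `m`. -/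
def slopes {Ω : Type} [MulAction (G p) Ω] {R : Type} [CommRing R]
    (act : R →+* Module.End ℤ_[p] (Ω →₀ ℤ_[p])) (m : Ideal R) (T : ℕ) : Multiset ENNReal :=
  ∑ n ∈ range T, if Even n ∧ n + 2 ≤ T then
    (eigs (heckeT Ω n) (FormsAt act m n)).map
      fun l => ENNReal.ofReal (((p : ℝ) + 1) / (n + 2)) * val l
  else 0

/-- The uniform probability measure on a (non empty) finite multiset. -/
def unif (S : Multiset ENNReal) : Measure ENNReal :=
  ((Multiset.card S : ENNReal))⁻¹ • (S.map Measure.dirac).sum

end Gouvea
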