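import Pool.Agent.Work.MP_d3517d_nt.Slash
import Pool.Agent.Work.MP_d3517d_nt.Basic2

/-!
# The weight `n` action as matrices over `ℤ_p` (MP_d3517d_nt)
-/

open Polynomial Finset

noncomputable section

namespace Gouvea

section General

variable {R : Type*} [CommRing R]

/-- the coefficients of `X^j | M`. -/
def slR (n : ℕ) (M : Matrix (Fin 2) (Fin 2) R) (i j : ℕ) : R :=
  ((C (M 0 0) * X + C (M 0 1)) ^ j * (C (M 1 0) * X + C (M 1 1)) ^ (n - j)).coeff i

lemma coeff_slashM (n : ℕ) (M : Matrix (Fin 2) (Fin 2) R) (f : R[X]) (i : ℕ) :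
    (slashM n M f).coeff i = ∑ j ∈ range (n + 1), slR n M i j * f.coeff j := by
  rw [slashM_apply, finsetSum_coeff]
  refine Finset.sum_congr rfl fun j _ => ?_
  rw [coeff_C_mul, slR, mul_comm]

lemma slashM_X_pow (n : ℕ) (M : Matrix (Fin 2) (Fin 2) R) (j : ℕ) (hj : j ≤ n) :
    slashM n M (X ^ j) =
      (C (M 0 0) * X + C (M 0 1)) ^ j * (C (M 1 0) * X + C (M 1 1)) ^ (n - j) := by
  rw [slashM_apply, Finset.sum_eq_single j]
  · simp
  · intro i _ hij
    simp [coeff_X_pow, hij]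
  · intro h
    exact absurd (mem_range.2 (Nat.lt_succ_of_le hj)) h

lemma slR_eq (n : ℕ) (M : Matrix (Fin 2) (Fin 2) R) (i j : ℕ) (hj : j ≤ n) :
    slR n M i j = (slashM n M (X ^ j)).coeff i := by
  rw [slashM_X_pow n M j hj]; rfl

lemma slR_mul (n : ℕ) (M N : Matrix (Fin 2) (Fin 2) R) (i j : ℕ) (hj : j ≤ n) :
    slR n (M * N) i j = ∑ k ∈ range (n + 1), slR n N i k * slR n M k j := by
  rw [slR_eq n (M * N) i j hj, ← slashM_slashM, coeff_slashM]
  exact Finset.sum_congr rfl fun k _ => by rw [slR_eq n M k j hj]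

lemma slR_eq_zero (n : ℕ) (M : Matrix (Fin 2) (Fin 2) R) (i j : ℕ) (hj : j ≤ n) (hi : n < i) :
    slR n M i j = 0 := by
  rw [slR_eq n M i j hj]
  exact coeff_eq_zero_of_natDegree_lt ((natDegree_slashM_le n M _).trans_lt hi)

lemma slR_one (n i j : ℕ) (hj : j ≤ n) :
    slR n (1 : Matrix (Fin 2) (Fin 2) R) i j = if i = j then 1 else 0 := by
  rw [slR_eq n 1 i j hj, slashM_one n _ (mem_degreeLE.2 ((degree_X_pow_le j).trans (by exact_mod_cast hj))), coeff_X_pow]

lemma slR_smul (n : ℕ) (c : R) (M : Matrix (Fin 2) (Fin 2) R) (i j : ℕ) (hj : j ≤ n) :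
    slR n (c • M) i j = c ^ n * slR n M i j := by
  have h : (C c : R[X]) ^ n = C c ^ j * C c ^ (n - j) := by rw [← pow_add, Nat.add_sub_cancel' hj]
  rw [slR, slR, ← coeff_C_mul, map_pow, h]
  congr 1
  simp only [Matrix.smul_apply, smul_eq_mul, map_mul]
  rw [show (C c * C (M 0 0) * X + C c * C (M 0 1) : R[X]) = C c * (C (M 0 0) * X + C (M 0 1)) by
    ring, show (C c * C (M 1 0) * X + C c * C (M 1 1) : R[X]) = C c * (C (M 1 0) * X + C (M 1 1)) by
    ring, mul_pow, mul_pow]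
  ring

lemma slR_map {S : Type*} [CommRing S] (φ : R →+* S) (n : ℕ) (M : Matrix (Fin 2) (Fin 2) R)
    (i j : ℕ) : slR n (M.map φ) i j = φ (slR n M i j) := by
  rw [slR, slR, ← coeff_map]
  simp [Polynomial.map_mul, Polynomial.map_pow]

end General

variable {p : ℕ} [Fact p.Prime]

lemma sl_eq_slR (n : ℕ) (g : Matrix (Fin 2) (Fin 2) ℤ_[p]) (i j : ℕ) :
    sl n g i j = slR n g i j := rfl

/-- the matrix of `f ↦ f | g` in the basis `1, X, …, X^n`. -/
def slM (n : ℕ) (g : Matrix (Fin 2) (Fin 2) ℤ_[p]) : Matrix (Fin (n + 1)) (Fin (n + 1)) ℤ_[p] :=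
  Matrix.of fun i j => sl n g i j

@[simp] lemma slM_apply (n : ℕ) (g : Matrix (Fin 2) (Fin 2) ℤ_[p]) (i j : Fin (n + 1)) :
    slM n g i j = sl n g i j := rfl

lemma slM_one (n : ℕ) : slM n (1 : Matrix (Fin 2) (Fin 2) ℤ_[p]) = 1 := by
  ext i j
  rw [slM_apply, sl_eq_slR, slR_one n i j (Nat.lt_succ_iff.1 j.2), Matrix.one_apply]
  simp [Fin.ext_iff]

lemma slM_mul (n : ℕ) (g h : Matrix (Fin 2) (Fin 2) ℤ_[p]) :
    slM n (g * h) = slM n h * slM n g := by
  ext i j
  rw [slM_apply, sl_eq_slR, slR_mul n g h i j (Nat.lt_succ_iff.1 j.2), Matrix.mul_apply,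
    ← Fin.sum_univ_eq_sum_range (fun k => slR n h i k * slR n g k j) (n + 1)]
  rfl

lemma slM_smul (n : ℕ) (c : ℤ_[p]) (g : Matrix (Fin 2) (Fin 2) ℤ_[p]) :
    slM n (c • g) = c ^ n • slM n g := by
  ext i j
  rw [slM_apply, sl_eq_slR, slR_smul n c g i j (Nat.lt_succ_iff.1 j.2)]
  rfl

lemma slM_neg (n : ℕ) (hn : Even n) (g : Matrix (Fin 2) (Fin 2) ℤ_[p]) :
    slM n (-g) = slM n g := by
  rw [← neg_one_smul ℤ_[p] g, slM_smul, hn.neg_one_pow, one_smul]

/-- `slM` on the coefficient vector. -/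
lemma coeff_slashM_int (n : ℕ) (g : Matrix (Fin 2) (Fin 2) ℤ_[p]) (f : ℤ_[p][X])
    (i : Fin (n + 1)) :
    (slashM n g f).coeff i = (slM n g).mulVec (fun j : Fin (n + 1) => f.coeff j) i := by
  rw [coeff_slashM, Matrix.mulVec, dotProduct,
    ← Fin.sum_univ_eq_sum_range (fun k => slR n g i k * f.coeff k) (n + 1)]
  rfl

/-! ### integral elements of `GL₂(ℚ_p)` -/

/-- `g` has entries in `ℤ_p`. -/
def IsInt (g : G p) : Prop := ∀ i j, ‖g i j‖ ≤ 1

open Classical in
/-- the matrix over `ℤ_p` of an integral element of `GL₂(ℚ_p)` (`0` if it is not integral). -/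
def intM (g : G p) : Matrix (Fin 2) (Fin 2) ℤ_[p] := Matrix.of fun i j =>
  if h : ‖g i j‖ ≤ 1 then ⟨g i j, h⟩ else 0

lemma intM_coe {g : G p} (hg : IsInt g) (i j : Fin 2) : ((intM g i j : ℤ_[p]) : ℚ_[p]) = g i j := by
  have h : intM g i j = ⟨g i j, hg i j⟩ := dif_pos (hg i j)
  exact congrArg Subtype.val h

lemma intM_map {g : G p} (hg : IsInt g) :
    (intM g).map (algebraMap ℤ_[p] ℚ_[p]) = (g : Matrix (Fin 2) (Fin 2) ℚ_[p]) := by
  ext i j; exact intM_coe hg i j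

lemma intM_map_coe {g : G p} (hg : IsInt g) :
    (intM g).map (PadicInt.Coe.ringHom (p := p)) = (g : Matrix (Fin 2) (Fin 2) ℚ_[p]) := by
  ext i j; exact intM_coe hg i j

lemma intM_unique {g : G p} (hg : IsInt g) (M : Matrix (Fin 2) (Fin 2) ℤ_[p])
    (h : ∀ i j, ((M i j : ℤ_[p]) : ℚ_[p]) = g i j) : intM g = M := by
  refine Matrix.ext fun i j => Subtype.ext ?_
  exact (intM_coe hg i j).trans (h i j).symm

lemma IsInt.mul {g h : G p} (hg : IsInt g) (hh : IsInt h) : IsInt (g * h) := by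
  intro i j
  have : (g * h) i j = g i 0 * h 0 j + g i 1 * h 1 j := by
    simp [Matrix.mul_apply, Fin.sum_univ_two]
  rw [this]
  refine (IsUltrametricDist.norm_add_le_max _ _).trans (max_le ?_ ?_)
  · rw [norm_mul]; exact mul_le_one₀ (hg _ _) (norm_nonneg _) (hh _ _)
  · rw [norm_mul]; exact mul_le_one₀ (hg _ _) (norm_nonneg _) (hh _ _)

lemma IsInt.one : IsInt (1 : G p) := by
  intro i j
  fin_cases i <;> fin_cases j <;> simp

lemma IsInt.neg {g : G p} (hg : IsInt g) : IsInt (-g) := by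
  intro i j
  simpa using hg i j

lemma intM_one : intM (1 : G p) = 1 := by
  refine intM_unique IsInt.one _ fun i j => ?_
  fin_cases i <;> fin_cases j <;> simp

lemma intM_neg {g : G p} (hg : IsInt g) : intM (-g) = -intM g := by
  refine intM_unique hg.neg _ fun i j => ?_
  simp [intM_coe hg]

lemma intM_mul {g h : G p} (hg : IsInt g) (hh : IsInt h) : intM (g * h) = intM g * intM h := by
  refine intM_unique (hg.mul hh) _ fun i j => ?_
  simp [Matrix.mul_apply, Fin.sum_univ_two, intM_coe hg, intM_coe hh]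

/-- coefficients of `slash` for an integral element. -/
lemma coeff_slash {g : G p} (hg : IsInt g) (n : ℕ) (f : ℚ_[p][X]) (i : ℕ) :
    (slash n g f).coeff i =
      ∑ j ∈ range (n + 1), ((sl n (intM g) i j : ℤ_[p]) : ℚ_[p]) * f.coeff j := by
  rw [slash_eq, coeff_slashM]
  refine Finset.sum_congr rfl fun j _ => ?_
  rw [← intM_map hg, slR_map]
  rfl

end Gouvea
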