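import Pool.Agent.Work.MP_d3517d_nt.Defs

/-!
# The weight `n` action on polynomials (MP_d3517d_nt)

`slashM n M f = (c X + d)^n f((a X + b)/(c X + d))` for a `2 × 2` matrix `M` over a commutative
ring; it is a right action on polynomials of degree `≤ n`, compatible with base change, and
`slash n g = slashM n g` for `g ∈ GL₂(ℚ_p)`.
-/

open Polynomial Finset

noncomputable section

namespace Gouvea

section General

variable {R : Type*} [CommRing R]

/-- the weight `n` action of a matrix. -/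
def slashM (n : ℕ) (M : Matrix (Fin 2) (Fin 2) R) : R[X] →ₗ[R] R[X] where
  toFun f := ∑ j ∈ range (n + 1), C (f.coeff j) *
    ((C (M 0 0) * X + C (M 0 1)) ^ j * (C (M 1 0) * X + C (M 1 1)) ^ (n - j))
  map_add' f g := by simp [add_mul, Finset.sum_add_distrib]
  map_smul' a f := by simp [Finset.smul_sum, smul_eq_C_mul, mul_assoc]

lemma slashM_apply (n : ℕ) (M : Matrix (Fin 2) (Fin 2) R) (f : R[X]) :
    slashM n M f = ∑ j ∈ range (n + 1), C (f.coeff j) *
    ((C (M 0 0) * X + C (M 0 1)) ^ j * (C (M 1 0) * X + C (M 1 1)) ^ (n - j)) := rfl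

lemma aeval_homogenize {A : Type*} [CommRing A] [Algebra R A] (n : ℕ) (f : R[X]) (P Q : A) :
    MvPolynomial.aeval ![P, Q] (homogenize f n) =
      ∑ j ∈ range (n + 1), algebraMap R A (f.coeff j) * (P ^ j * Q ^ (n - j)) := by
  rw [homogenize, Finset.Nat.sum_antidiagonal_eq_sum_range_succ_mk, map_sum]
  refine Finset.sum_congr rfl fun k _ => ?_
  rw [MvPolynomial.aeval_monomial, Finsupp.update_eq_add_single (by simp),
    Finsupp.prod_add_index' (by simp) (by intros; rw [pow_add]), Finsupp.prod_single_index (by simp),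
    Finsupp.prod_single_index (by simp)]
  simp

lemma slashM_eq (n : ℕ) (M : Matrix (Fin 2) (Fin 2) R) (f : R[X]) :
    slashM n M f = MvPolynomial.aeval
      ![C (M 0 0) * X + C (M 0 1), C (M 1 0) * X + C (M 1 1)] (homogenize f n) := by
  rw [aeval_homogenize, slashM_apply]
  rfl

lemma homogenize_slashM (n : ℕ) (M : Matrix (Fin 2) (Fin 2) R) (f : R[X]) :
    homogenize (slashM n M f) n = MvPolynomial.aeval
      ![MvPolynomial.C (M 0 0) * MvPolynomial.X 0 + MvPolynomial.C (M 0 1) * MvPolynomial.X 1,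
        MvPolynomial.C (M 1 0) * MvPolynomial.X 0 + MvPolynomial.C (M 1 1) * MvPolynomial.X 1]
      (homogenize f n) := by
  apply homogenize_eq_of_isHomogeneous
  · rw [aeval_homogenize]
    apply MvPolynomial.IsHomogeneous.sum
    intro j hj
    have hj' : j ≤ n := by simpa [Nat.lt_succ_iff] using hj
    have h0 : (MvPolynomial.C (M 0 0) * MvPolynomial.X 0 + MvPolynomial.C (M 0 1) *
        MvPolynomial.X 1 : MvPolynomial (Fin 2) R).IsHomogeneous 1 := by
      apply MvPolynomial.IsHomogeneous.add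
      · simpa using (MvPolynomial.isHomogeneous_C (Fin 2) (M 0 0)).mul
          (MvPolynomial.isHomogeneous_X R (0 : Fin 2))
      · simpa using (MvPolynomial.isHomogeneous_C (Fin 2) (M 0 1)).mul
          (MvPolynomial.isHomogeneous_X R (1 : Fin 2))
    have h1 : (MvPolynomial.C (M 1 0) * MvPolynomial.X 0 + MvPolynomial.C (M 1 1) *
        MvPolynomial.X 1 : MvPolynomial (Fin 2) R).IsHomogeneous 1 := by
      apply MvPolynomial.IsHomogeneous.add
      · simpa using (MvPolynomial.isHomogeneous_C (Fin 2) (M 1 0)).mul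
          (MvPolynomial.isHomogeneous_X R (0 : Fin 2))
      · simpa using (MvPolynomial.isHomogeneous_C (Fin 2) (M 1 1)).mul
          (MvPolynomial.isHomogeneous_X R (1 : Fin 2))
    have := ((MvPolynomial.isHomogeneous_C (Fin 2) (f.coeff j)).mul
      ((h0.pow j).mul (h1.pow (n - j))))
    simpa [Nat.add_sub_cancel' hj', one_mul] using this
  · rw [slashM_eq, ← AlgHom.comp_apply, MvPolynomial.comp_aeval]
    have h : (fun i => (MvPolynomial.aeval (R := R) ![(X : R[X]), 1])
        (![MvPolynomial.C (M 0 0) * MvPolynomial.X 0 + MvPolynomial.C (M 0 1) * MvPolynomial.X 1,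
        MvPolynomial.C (M 1 0) * MvPolynomial.X 0 + MvPolynomial.C (M 1 1) * MvPolynomial.X 1] i))
        = ![C (M 0 0) * X + C (M 0 1), C (M 1 0) * X + C (M 1 1)] := by
      funext i
      fin_cases i <;> simp [C_eq_algebraMap]
    rw [h]

/-- `slashM` is a right action. -/
lemma slashM_slashM (n : ℕ) (M N : Matrix (Fin 2) (Fin 2) R) (f : R[X]) :
    slashM n N (slashM n M f) = slashM n (M * N) f := by
  rw [slashM_eq n N, homogenize_slashM, slashM_eq n (M * N), ← AlgHom.comp_apply,
    MvPolynomial.comp_aeval]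
  have h : (fun i => (MvPolynomial.aeval (R := R)
        ![C (N 0 0) * X + C (N 0 1), C (N 1 0) * X + C (N 1 1)])
        (![MvPolynomial.C (M 0 0) * MvPolynomial.X 0 + MvPolynomial.C (M 0 1) * MvPolynomial.X 1,
        MvPolynomial.C (M 1 0) * MvPolynomial.X 0 + MvPolynomial.C (M 1 1) * MvPolynomial.X 1] i))
        = ![C ((M * N) 0 0) * X + C ((M * N) 0 1), C ((M * N) 1 0) * X + C ((M * N) 1 1)] := by
    funext i
    fin_cases i <;> simp [Matrix.mul_apply, Fin.sum_univ_two] <;> ring
  rw [h]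

lemma natDegree_slashM_le (n : ℕ) (M : Matrix (Fin 2) (Fin 2) R) (f : R[X]) :
    (slashM n M f).natDegree ≤ n := by
  rw [slashM_apply]
  apply natDegree_sum_le_of_forall_le
  intro j hj
  have hj' : j ≤ n := by simpa [Nat.lt_succ_iff] using hj
  refine (natDegree_C_mul_le _ _).trans (natDegree_mul_le.trans ?_)
  have h1 : ((C (M 0 0) * X + C (M 0 1)) ^ j).natDegree ≤ j := by
    refine natDegree_pow_le.trans ?_
    have := natDegree_linear_le (a := M 0 0) (b := M 0 1)
    nlinarith
  have h2 : ((C (M 1 0) * X + C (M 1 1)) ^ (n - j)).natDegree ≤ n - j := by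
    refine natDegree_pow_le.trans ?_
    have := natDegree_linear_le (a := M 1 0) (b := M 1 1)
    nlinarith
  omega

lemma degree_slashM_le (n : ℕ) (M : Matrix (Fin 2) (Fin 2) R) (f : R[X]) :
    (slashM n M f).degree ≤ n := degree_le_of_natDegree_le (natDegree_slashM_le n M f)

lemma slashM_mem (n : ℕ) (M : Matrix (Fin 2) (Fin 2) R) (f : R[X]) :
    slashM n M f ∈ degreeLE R n := mem_degreeLE.2 (degree_slashM_le n M f)

/-- scalar matrices act by `a ^ n`. -/
lemma slashM_scalar (n : ℕ) (M : Matrix (Fin 2) (Fin 2) R) (a : R) (h00 : M 0 0 = a)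
    (h01 : M 0 1 = 0) (h10 : M 1 0 = 0) (h11 : M 1 1 = a) (f : R[X]) (hf : f ∈ degreeLE R n) :
    slashM n M f = a ^ n • f := by
  have hf' : f.natDegree ≤ n := natDegree_le_iff_degree_le.2 (mem_degreeLE.1 hf)
  rw [slashM_apply]
  conv_rhs => rw [f.as_sum_range_C_mul_X_pow' (Nat.lt_succ_of_le hf'), Finset.smul_sum]
  refine Finset.sum_congr rfl fun j hj => ?_
  have hj' : j ≤ n := by simpa [Nat.lt_succ_iff] using hj
  rw [h00, h01, h10, h11, smul_eq_C_mul]
  have : (C a : R[X]) ^ n = C a ^ j * C a ^ (n - j) := by rw [← pow_add, Nat.add_sub_cancel' hj']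
  simp only [map_zero, add_zero, zero_mul, zero_add, mul_pow, map_pow, this]
  ring

lemma slashM_one (n : ℕ) (f : R[X]) (hf : f ∈ degreeLE R n) : slashM n 1 f = f := by
  simpa using slashM_scalar n 1 (1 : R) (by simp) (by simp) (by simp) (by simp) f hf

/-- base change. -/
lemma slashM_map {S : Type*} [CommRing S] (φ : R →+* S) (n : ℕ) (M : Matrix (Fin 2) (Fin 2) R)
    (f : R[X]) : slashM n (M.map φ) (f.map φ) = (slashM n M f).map φ := by
  rw [slashM_apply, slashM_apply, Polynomial.map_sum]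
  refine Finset.sum_congr rfl fun j _ => ?_
  simp [Polynomial.map_mul, Polynomial.map_pow]

end General

variable {p : ℕ} [Fact p.Prime]

lemma slash_eq (n : ℕ) (g : G p) (f : ℚ_[p][X]) :
    slash n g f = slashM n (g : Matrix (Fin 2) (Fin 2) ℚ_[p]) f := rfl

lemma slash_slash (n : ℕ) (g h : G p) (f : ℚ_[p][X]) :
    slash n h (slash n g f) = slash n (g * h) f := by
  rw [slash_eq, slash_eq, slash_eq, slashM_slashM]
  rfl

lemma slash_one (n : ℕ) (f : ℚ_[p][X]) (hf : f ∈ degreeLE ℚ_[p] n) : slash n (1 : G p) f = f := by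
  rw [slash_eq]; exact slashM_one n f hf

lemma slash_mem (n : ℕ) (g : G p) (f : ℚ_[p][X]) : slash n g f ∈ degreeLE ℚ_[p] n :=
  slashM_mem n _ f

lemma slash_inv_slash (n : ℕ) (g : G p) (f : ℚ_[p][X]) (hf : f ∈ degreeLE ℚ_[p] n) :
    slash n g⁻¹ (slash n g f) = f := by
  rw [slash_slash, mul_inv_cancel, slash_one n f hf]

lemma slash_slash_inv (n : ℕ) (g : G p) (f : ℚ_[p][X]) (hf : f ∈ degreeLE ℚ_[p] n) :
    slash n g (slash n g⁻¹ f) = f := by
  rw [slash_slash, inv_mul_cancel, slash_one n f hf]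

lemma slash_scal (n : ℕ) (f : ℚ_[p][X]) (hf : f ∈ degreeLE ℚ_[p] n) :
    slash n (scal p) f = (p : ℚ_[p]) ^ n • f := by
  rw [slash_eq]
  exact slashM_scalar n _ _ (by simp [scal, upper]) (by simp [scal, upper])
    (by simp [scal, upper]) (by simp [scal, upper]) f hf

end Gouvea
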