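import Pool.Agent.Work.MP_d3517d_nt.Basic2
import Pool.Agent.Work.MP_d3517d_nt.Defs2

/-!
# Eigenvalues on a stable subspace, in coordinates
-/

open Polynomial Finset

noncomputable section

namespace Gouvea

/-- the characteristic polynomial of `e a`, for an idempotent `e` commuting with `a` -/
theorem eigs_charpoly_idem {k V : Type*} [Field k] [AddCommGroup V] [Module k V]
    [Module.Finite k V] (e a : V →ₗ[k] V) (he : IsIdempotentElem e)
    (hc : a * e = e * a) (hst : ∀ v ∈ LinearMap.range e, a v ∈ LinearMap.range e) :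
    (e * a).charpoly =
      (a.restrict hst).charpoly * X ^ Module.finrank k (LinearMap.ker e) := by
  have hcomp := LinearMap.IsIdempotentElem.isCompl he
  set E := Submodule.prodEquivOfIsCompl _ _ hcomp with hE
  have key : e * a = E.conj ((a.restrict hst).prodMap (0 : LinearMap.ker e →ₗ[k] _)) := by
    refine LinearMap.ext fun x => ?_
    obtain ⟨⟨x1, x2⟩, rfl⟩ := E.surjective x
    rw [LinearEquiv.conj_apply_apply, LinearEquiv.symm_apply_apply]
    simp only [hE, Submodule.coe_prodEquivOfIsCompl', LinearMap.prodMap_apply,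
      LinearMap.zero_apply, Submodule.coe_zero, add_zero, map_add]
    have h1 : (e * a) (x1 : V) = a x1 := by
      rw [← hc]
      have := (LinearMap.IsIdempotentElem.mem_range_iff he).1 x1.2
      simp [Module.End.mul_apply, this]
    have h2 : (e * a) (x2 : V) = 0 := by
      rw [← hc]
      have : e x2 = 0 := x2.2
      simp [Module.End.mul_apply, this]
    rw [h1, h2, add_zero]
    rfl
  rw [key, LinearEquiv.charpoly_conj, LinearMap.charpoly_prodMap, LinearMap.charpoly_zero]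

variable {p : ℕ} [Fact p.Prime]

/-- eigenvalues on a stable subspace cut out by an idempotent -/
theorem eigs_of_equiv {M : Type} [AddCommGroup M] [Module ℚ_[p] M] (T : M →ₗ[ℚ_[p]] M)
    (F N : Submodule ℚ_[p] M) {ι : Type} [Fintype ι] [DecidableEq ι]
    (Ψ : F ≃ₗ[ℚ_[p]] (ι → ℚ_[p])) (A ε : Matrix ι ι ℚ_[p]) (hε : ε * ε = ε) (hc : A * ε = ε * A)
    (hT : ∀ f (h0 : f ∈ F), ∃ h1 : T f ∈ F, Ψ ⟨T f, h1⟩ = A.mulVec (Ψ ⟨f, h0⟩))
    (hN : ∀ f, f ∈ N ↔ ∃ h0 : f ∈ F, ε.mulVec (Ψ ⟨f, h0⟩) = Ψ ⟨f, h0⟩) :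
    (∀ v ∈ N, T v ∈ N) ∧ Module.Finite ℚ_[p] N ∧ Module.finrank ℚ_[p] N = ε.rank ∧
      specM (ε * A) = eigs T N + Multiset.replicate (Fintype.card ι - ε.rank) 0 := by
  classical
  have hst : ∀ v ∈ N, T v ∈ N := by
    intro v hv
    obtain ⟨h0, h1⟩ := (hN v).1 hv
    obtain ⟨h2, h3⟩ := hT v h0
    refine (hN _).2 ⟨h2, ?_⟩
    rw [h3, Matrix.mulVec_mulVec, ← hc, ← Matrix.mulVec_mulVec, h1]
  have hNF : N ≤ F := fun v hv => ((hN v).1 hv).1
  have : Module.Finite ℚ_[p] F := Module.Finite.equiv Ψ.symm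
  have hfin : Module.Finite ℚ_[p] N :=
    Module.Finite.of_injective (Submodule.inclusion hNF) (Submodule.inclusion_injective hNF)
  set e : (ι → ℚ_[p]) →ₗ[ℚ_[p]] (ι → ℚ_[p]) := Matrix.toLin' ε with he_def
  set a : (ι → ℚ_[p]) →ₗ[ℚ_[p]] (ι → ℚ_[p]) := Matrix.toLin' A with ha_def
  have he : IsIdempotentElem e := by
    change e * e = e
    rw [he_def, Module.End.mul_eq_comp, ← Matrix.toLin'_mul, hε]
  have hac : a * e = e * a := by
    rw [he_def, ha_def, Module.End.mul_eq_comp, Module.End.mul_eq_comp, ← Matrix.toLin'_mul,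
      ← Matrix.toLin'_mul, hc]
  have hrange : ∀ v, v ∈ LinearMap.range e ↔ ε.mulVec v = v := by
    intro v
    rw [LinearMap.IsIdempotentElem.mem_range_iff he, he_def, Matrix.toLin'_apply]
  have hsta : ∀ v ∈ LinearMap.range e, a v ∈ LinearMap.range e := by
    intro v hv
    rw [hrange] at hv ⊢
    rw [ha_def, Matrix.toLin'_apply, Matrix.mulVec_mulVec, ← hc, ← Matrix.mulVec_mulVec, hv]
  -- the equivalence between `N` and the range of `e`
  let Φ0 : N →ₗ[ℚ_[p]] (ι → ℚ_[p]) := Ψ.toLinearMap ∘ₗ Submodule.inclusion hNF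
  have hΦ0 : ∀ v, Φ0 v ∈ LinearMap.range e := by
    intro v
    rw [hrange]
    obtain ⟨h0, h1⟩ := (hN v).1 v.2
    exact h1
  let Φ1 : N →ₗ[ℚ_[p]] LinearMap.range e := Φ0.codRestrict _ hΦ0
  have hΦ1 : Function.Bijective Φ1 := by
    constructor
    · intro v w hvw
      have h1 : Φ0 v = Φ0 w := congrArg Subtype.val hvw
      have h2 := Ψ.injective h1
      exact Submodule.inclusion_injective hNF h2
    · intro w
      have hw := (hrange w).1 w.2
      have hmem : ((Ψ.symm w : F) : M) ∈ N := by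
        refine (hN _).2 ⟨(Ψ.symm w).2, ?_⟩
        simpa using hw
      refine ⟨⟨_, hmem⟩, Subtype.ext ?_⟩
      change Ψ ⟨_, _⟩ = (w : ι → ℚ_[p])
      exact Ψ.apply_symm_apply _
  let Φ : N ≃ₗ[ℚ_[p]] LinearMap.range e := LinearEquiv.ofBijective Φ1 hΦ1
  have hΦ : ∀ v : N, ((Φ v : LinearMap.range e) : ι → ℚ_[p]) = Ψ ⟨v, hNF v.2⟩ := fun v => rfl
  have hrank : Module.finrank ℚ_[p] (LinearMap.range e) = ε.rank := by
    rw [he_def, Matrix.rank, Matrix.toLin'_apply']
  have hfr : Module.finrank ℚ_[p] N = ε.rank := by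
    rw [Φ.finrank_eq, hrank]
  have hconj : T.restrict hst = Φ.symm.conj (a.restrict hsta) := by
    refine LinearMap.ext fun v => ?_
    rw [LinearEquiv.conj_apply_apply, LinearEquiv.symm_symm]
    apply Φ.injective
    rw [LinearEquiv.apply_symm_apply]
    apply Subtype.ext
    rw [hΦ]
    obtain ⟨h1, h2⟩ := hT v (hNF v.2)
    have h3 : ((a.restrict hsta (Φ v) : LinearMap.range e) : ι → ℚ_[p]) =
        A.mulVec (Ψ ⟨v, hNF v.2⟩) := by
      rw [LinearMap.coe_restrict_apply, hΦ, ha_def, Matrix.toLin'_apply]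
    rw [h3, ← h2]
    rfl
  refine ⟨hst, hfin, hfr, ?_⟩
  have heigs : eigs T N =
      (((T.restrict hst).charpoly).map (algebraMap ℚ_[p] (PadicAlgCl p))).roots := by
    unfold eigs
    rw [dif_pos (⟨hst, hfin⟩ : (∀ v ∈ N, T v ∈ N) ∧ Module.Finite ℚ_[p] N)]
  have hker : Module.finrank ℚ_[p] (LinearMap.ker e) = Fintype.card ι - ε.rank := by
    have h1 := LinearMap.finrank_range_add_finrank_ker e
    rw [hrank, Module.finrank_fintype_fun_eq_card] at h1
    omega
  have hch : (ε * A).charpoly =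
      (T.restrict hst).charpoly * X ^ (Fintype.card ι - ε.rank) := by
    rw [← Matrix.charpoly_toLin', Matrix.toLin'_mul, ← Module.End.mul_eq_comp,
      eigs_charpoly_idem e a he hac hsta, hker, hconj, LinearEquiv.charpoly_conj]
  rw [heigs, specM, hch, Polynomial.map_mul, Polynomial.map_pow, Polynomial.map_X,
    Polynomial.roots_mul, Polynomial.roots_X_pow, Multiset.nsmul_singleton]
  refine mul_ne_zero ?_ (pow_ne_zero _ X_ne_zero)
  exact ((LinearMap.charpoly_monic _).map _).ne_zero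

/-- eigenvalues of integral matrices are integral -/
theorem norm_le_one_of_mem_specM {ι : Type} [Fintype ι] [DecidableEq ι] (A : Matrix ι ι ℤ_[p])
    (l : PadicAlgCl p) (hl : l ∈ specM (toQ A)) : ‖l‖ ≤ 1 := by
  by_contra hlt
  push Not at hlt
  set P : (PadicAlgCl p)[X] :=
    (toQ A).charpoly.map (algebraMap ℚ_[p] (PadicAlgCl p)) with hP
  have hmon : P.Monic := (Matrix.charpoly_monic _).map _
  have hroot : P.eval l = 0 := by
    have := (Polynomial.mem_roots hmon.ne_zero).1 hl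
    exact this
  have hco : ∀ i, ‖P.coeff i‖ ≤ 1 := by
    intro i
    have h1 : (toQ A).charpoly = A.charpoly.map (algebraMap ℤ_[p] ℚ_[p]) :=
      Matrix.charpoly_map A (algebraMap ℤ_[p] ℚ_[p])
    rw [hP, h1, Polynomial.coeff_map, Polynomial.coeff_map]
    have h2 := PadicAlgCl.norm_extends p (algebraMap ℤ_[p] ℚ_[p] (A.charpoly.coeff i))
    rw [h2]
    exact (A.charpoly.coeff i).2
  set n := P.natDegree with hn
  have h1 : P.eval l = ∑ i ∈ range n, P.coeff i * l ^ i + l ^ n := by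
    rw [Polynomial.eval_eq_sum_range, Finset.sum_range_succ]
    congr 1
    rw [← hn] at *
    have : P.coeff P.natDegree = 1 := hmon.coeff_natDegree
    rw [hn, this, one_mul]
  have hl0 : 0 < ‖l‖ := lt_trans one_pos hlt
  rcases Nat.eq_zero_or_pos n with h0 | h0
  · rw [h0] at h1
    simp only [range_zero, sum_empty, pow_zero, zero_add] at h1
    rw [hroot] at h1
    exact zero_ne_one h1
  have h2 : l ^ n = -∑ i ∈ range n, P.coeff i * l ^ i := by
    rw [eq_neg_iff_add_eq_zero, add_comm, ← h1, hroot]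
  have h3 : ‖∑ i ∈ range n, P.coeff i * l ^ i‖ ≤ ‖l‖ ^ (n - 1) := by
    refine IsUltrametricDist.norm_sum_le_of_forall_le_of_nonneg (by positivity) fun i hi => ?_
    rw [norm_mul, norm_pow]
    calc ‖P.coeff i‖ * ‖l‖ ^ i ≤ 1 * ‖l‖ ^ i := by gcongr; exact hco i
      _ = ‖l‖ ^ i := one_mul _
      _ ≤ ‖l‖ ^ (n - 1) := pow_le_pow_right₀ hlt.le (by have := mem_range.1 hi; omega)
  have h4 : ‖l‖ ^ n ≤ ‖l‖ ^ (n - 1) := by
    rw [← norm_pow, h2, norm_neg]
    exact h3
  exact absurd h4 (not_le.2 (pow_lt_pow_right₀ hlt (by omega)))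

end Gouvea
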