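import Pool.Agent.Work.MP_d3517d_nt.Weak
import Pool.Agent.Work.MP_d3517d_nt.Defs2

/-!
# Weak convergence of the uniform measures (MP_d3517d_nt)
-/

open Filter Topology Finset MeasureTheory

noncomputable section

namespace Gouvea

lemma weakcdf_unif_eq (s : Multiset ENNReal) : unif s = Weak.unif s := rfl

lemma weakcdf_integral_unif (s : Multiset ENNReal) {f : ENNReal → ℝ} (hf : Continuous f) :
    ∫ v, f v ∂(unif s) = Weak.avg s f := Weak.integral_unif s hf

lemma weakcdf_unif_prob {s : Multiset ENNReal} (hs : s ≠ 0) : IsProbabilityMeasure (unif s) :=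
  Weak.unif_prob (Multiset.card_pos.2 hs)

lemma weakcdf_prob : IsProbabilityMeasure
    ((volume.restrict (Set.Icc (0 : ℝ) 1)).map ENNReal.ofReal) := by
  have : IsProbabilityMeasure (volume.restrict (Set.Icc (0 : ℝ) 1)) := ⟨by simp⟩
  exact Measure.isProbabilityMeasure_map ENNReal.measurable_ofReal.aemeasurable

/-- Lebesgue measure on `[0, 1]`, as a probability measure on `[0, ∞]` -/
def weakcdfNu : ProbabilityMeasure ENNReal :=
  ⟨(volume.restrict (Set.Icc (0 : ℝ) 1)).map ENNReal.ofReal, weakcdf_prob⟩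

lemma weakcdfNu_coe : (weakcdfNu : Measure ENNReal) =
    (volume.restrict (Set.Icc (0 : ℝ) 1)).map ENNReal.ofReal := rfl

open Classical in
/-- the uniform measure as a probability measure (a point mass for the empty multiset) -/
def weakcdfMu (s : Multiset ENNReal) : ProbabilityMeasure ENNReal :=
  if h : s ≠ 0 then ⟨unif s, weakcdf_unif_prob h⟩
  else ⟨Measure.dirac 0, Measure.dirac.isProbabilityMeasure⟩

lemma weakcdfMu_coe {s : Multiset ENNReal} (h : s ≠ 0) :
    (weakcdfMu s : Measure ENNReal) = unif s := by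
  unfold weakcdfMu
  rw [dif_pos h]
  rfl

/-- convergence of the averages of all continuous functions implies weak convergence -/
theorem weak_of_avg (S : ℕ → Multiset ENNReal) (hS : ∀ᶠ T in atTop, S T ≠ 0)
    (h : ∀ f : ENNReal → ℝ, Continuous f → Tendsto (fun T => Weak.avg (S T) f) atTop
      (𝓝 (∫ t in (0 : ℝ)..1, f (ENNReal.ofReal t)))) :
    ∃ (μ : ℕ → ProbabilityMeasure ENNReal) (ν : ProbabilityMeasure ENNReal),
      (∀ᶠ T in atTop, (μ T : Measure ENNReal) = unif (S T)) ∧
      (ν : Measure ENNReal) = (volume.restrict (Set.Icc (0 : ℝ) 1)).map ENNReal.ofReal ∧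
      Tendsto μ atTop (𝓝 ν) := by
  have hμ : ∀ᶠ T in atTop, (weakcdfMu (S T) : Measure ENNReal) = unif (S T) :=
    hS.mono fun T hT => weakcdfMu_coe hT
  refine ⟨fun T => weakcdfMu (S T), weakcdfNu, hμ, weakcdfNu_coe, ?_⟩
  rw [ProbabilityMeasure.tendsto_iff_forall_integral_tendsto]
  intro f
  have h1 : ∫ v, f v ∂(weakcdfNu : Measure ENNReal) =
      ∫ t in (0 : ℝ)..1, f (ENNReal.ofReal t) := by
    rw [weakcdfNu_coe, integral_map ENNReal.measurable_ofReal.aemeasurable
      f.continuous.measurable.aestronglyMeasurable, intervalIntegral.integral_of_le zero_le_one,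
      integral_Icc_eq_integral_Ioc]
  rw [h1]
  refine (h f f.continuous).congr' ?_
  filter_upwards [hμ] with T hT
  rw [hT, weakcdf_integral_unif _ f.continuous]

/-- convergence of the distribution functions implies weak convergence -/
theorem weak_of_cdf (S : ℕ → Multiset ENNReal) (hS : ∀ᶠ T in atTop, S T ≠ 0)
    (h : ∀ x : ℝ, 0 ≤ x → x ≤ 1 → Tendsto (fun T => (((S T).countP
      fun s => s ≤ ENNReal.ofReal x : ℕ) : ℝ) / (S T).card) atTop (𝓝 x)) :
    ∃ (μ : ℕ → ProbabilityMeasure ENNReal) (ν : ProbabilityMeasure ENNReal),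
      (∀ᶠ T in atTop, (μ T : Measure ENNReal) = unif (S T)) ∧
      (ν : Measure ENNReal) = (volume.restrict (Set.Icc (0 : ℝ) 1)).map ENNReal.ofReal ∧
      Tendsto μ atTop (𝓝 ν) :=
  weak_of_avg S hS fun f hf => Weak.tendsto_avg S (hS.mono fun _ hT => Multiset.card_pos.2 hT)
    h f hf

end Gouvea
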