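import Pool.Agent.Work.MP_d3517d_nt.Stmt
import Pool.Agent.Work.MP_d3517d_nt.WeakCdf

/-!
# The last step for Q1 (MP_d3517d_nt)

`third_of_counts`: if the numbers of newforms of weight `n + 2` in the class of `f₀`, and of those
with slope at most `x`, are `β n * x + o(n)` for all weights outside a set of density zero, then
the uniform measures `unifT` of the statement converge weakly to Lebesgue measure on `[0, 1]`.
-/

open Filter Topology MeasureTheory UpperHalfPlane CongruenceSubgroup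
open scoped MatrixGroups ModularForm ENNReal

noncomputable section

namespace Gouvea

variable (p : ℕ) [Fact p.Prime]

/-- The newforms of level `N` and weight `k` in the class of `f₀`. -/
def cls (N : ℕ) (j : algebraicClosure ℚ ℂ →+* PadicAlgCl p) (f₀ : ℍ → ℂ) (k : ℕ) :
    Set (Cusp N k) :=
  {f | IsNewform N k f ∧ ∀ l : ℕ, l.Prime → ¬ l ∣ N * p →
    ‖emb p j (coef f l) - emb p j (coef f₀ l)‖ < 1}

/-- The slope of `f` at `p`. -/
def slo (N : ℕ) (j : algebraicClosure ℚ ℂ →+* PadicAlgCl p) (k : ℕ) (f : Cusp N k) : ℝ≥0∞ :=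
  vp p (emb p j (coef f p))

/-- The slopes of the newforms in the class, one entry per newform. -/
def clsM (N : ℕ) (j : algebraicClosure ℚ ℂ →+* PadicAlgCl p) (f₀ : ℍ → ℂ)
    (hfin : ∀ k, (cls p N j f₀ k).Finite) (k : ℕ) : Multiset ℝ≥0∞ :=
  (hfin k).toFinset.val.map (slo p N j k)

variable {p}

/-- The multiset of all entries `(p + 1) / k * v_p(a_p(f))`, `k ≤ T`. -/
def entM {N : ℕ} {j : algebraicClosure ℚ ℂ →+* PadicAlgCl p} {f₀ : ℍ → ℂ}
    (hfin : ∀ k, (cls p N j f₀ k).Finite) (k : ℕ) : Multiset ℝ≥0∞ :=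
  (clsM p N j f₀ hfin k).map fun v => ENNReal.ofReal ((p + 1 : ℝ) / k) * v

section

variable {N : ℕ} {j : algebraicClosure ℚ ℂ →+* PadicAlgCl p} {f₀ : ℍ → ℂ}

open Classical in
/-- `x_T` as a finset. -/
def xTF (hfin : ∀ k, (cls p N j f₀ k).Finite) (T : ℕ) : Finset (Σ k : ℕ, Cusp N k) :=
  (Finset.range (T + 1)).sigma fun k => (hfin k).toFinset

lemma xT_eq (hfin : ∀ k, (cls p N j f₀ k).Finite) (T : ℕ) :
    xT p N j f₀ T = (xTF hfin T : Set (Σ k : ℕ, Cusp N k)) := by
  ext f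
  simp only [xT, xTF, Set.mem_ofPred_eq, Finset.coe_sigma, Set.mem_sigma_iff, Finset.mem_coe,
    Finset.mem_range, Set.Finite.mem_toFinset, cls, Order.lt_add_one_iff]

lemma xT_finite (hfin : ∀ k, (cls p N j f₀ k).Finite) (T : ℕ) : (xT p N j f₀ T).Finite := by
  rw [xT_eq hfin T]
  exact Finset.finite_toSet _

/-- all entries. -/
def allM (hfin : ∀ k, (cls p N j f₀ k).Finite) (T : ℕ) : Multiset ℝ≥0∞ :=
  ∑ k ∈ Finset.range (T + 1), entM hfin k

lemma sum_map_dirac (s : Finset ℕ) (F : ℕ → Multiset ℝ≥0∞) :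
    ((∑ k ∈ s, F k).map fun v => (Measure.dirac v : Measure ℝ≥0∞)).sum
      = ∑ k ∈ s, ((F k).map fun v => (Measure.dirac v : Measure ℝ≥0∞)).sum := by
  classical
  induction s using Finset.induction_on with
  | empty => simp
  | insert a s ha ih => rw [Finset.sum_insert ha, Finset.sum_insert ha, Multiset.map_add,
      Multiset.sum_add, ih]

lemma unifT_eq (hfin : ∀ k, (cls p N j f₀ k).Finite) (T : ℕ) :
    unifT p N j f₀ T = unif (allM hfin T) := by
  have h1 : unifT p N j f₀ T = (fun s : Set (Σ k : ℕ, Cusp N k) =>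
      ((s.ncard : ℝ≥0∞))⁻¹ • Measure.sum fun f : s =>
      Measure.dirac (ENNReal.ofReal ((p + 1 : ℝ) / f.1.1) * vp p (emb p j (coef f.1.2 p))))
      (xT p N j f₀ T) := rfl
  rw [h1, xT_eq hfin T]
  simp only
  rw [Set.ncard_coe_finset, Measure.sum_fintype]
  have h2 : (∑ f : (xTF hfin T : Set (Σ k : ℕ, Cusp N k)),
      (Measure.dirac (ENNReal.ofReal ((p + 1 : ℝ) / f.1.1) * vp p (emb p j (coef f.1.2 p)))
        : Measure ℝ≥0∞))
      = ∑ f ∈ xTF hfin T, Measure.dirac (ENNReal.ofReal ((p + 1 : ℝ) / f.1)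
        * vp p (emb p j (coef f.2 p))) :=
    Finset.sum_coe_sort (xTF hfin T) (fun f => (Measure.dirac (ENNReal.ofReal ((p + 1 : ℝ) / f.1)
        * vp p (emb p j (coef f.2 p))) : Measure ℝ≥0∞))
  rw [h2, xTF, Finset.sum_sigma]
  unfold unif
  congr 1
  · congr 1
    rw [Finset.card_sigma, allM, Multiset.card_sum]
    push_cast
    refine Finset.sum_congr rfl fun k _ => ?_
    simp [entM, clsM]
  · rw [allM, sum_map_dirac]
    refine Finset.sum_congr rfl fun k _ => ?_
    rw [entM, clsM, Multiset.map_map, Multiset.map_map]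
    rfl

/-- the modified multisets: the weights `0` and `1` are moved to the weight `2`. -/
def shiftM (hfin : ∀ k, (cls p N j f₀ k).Finite) (n : ℕ) : Multiset ℝ≥0∞ :=
  if n = 0 then clsM p N j f₀ hfin 2 + ((entM hfin 0 + entM hfin 1).map
    fun e => ENNReal.ofReal (2 / (p + 1 : ℝ)) * e) else clsM p N j f₀ hfin (n + 2)

lemma union_shiftM (hfin : ∀ k, (cls p N j f₀ k).Finite) {T : ℕ} (hT : 2 ≤ T) :
    Weak.unionX ((p : ℝ) + 1) (shiftM hfin) (T - 1) = allM hfin T := by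
  obtain ⟨m, rfl⟩ : ∃ m, T = m + 2 := ⟨T - 2, by omega⟩
  have e1 : m + 2 - 1 = m + 1 := by omega
  rw [Weak.unionX, e1, Finset.sum_range_succ', allM, Finset.sum_range_succ',
    Finset.sum_range_succ']
  have hp : (0 : ℝ) < (p : ℝ) + 1 := by positivity
  have e2 : (shiftM hfin 0).map (fun v => ENNReal.ofReal (((p : ℝ) + 1) / (((0 : ℕ) : ℝ) + 2)) * v)
      = entM hfin 2 + (entM hfin 0 + entM hfin 1) := by
    rw [shiftM, if_pos rfl, Multiset.map_add]
    congr 1
    · rw [entM]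
      congr 1
      funext v
      norm_num
    · rw [Multiset.map_map]
      conv_rhs => rw [← Multiset.map_id (entM hfin 0 + entM hfin 1)]
      refine Multiset.map_congr rfl fun e _ => ?_
      simp only [Function.comp, id]
      rw [← mul_assoc, ← ENNReal.ofReal_mul (by positivity)]
      have : ((p : ℝ) + 1) / (((0 : ℕ) : ℝ) + 2) * (2 / ((p : ℝ) + 1)) = 1 := by
        push_cast
        field_simp
        norm_num
      rw [this, ENNReal.ofReal_one, one_mul]
  rw [e2, Finset.sum_range_succ']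
  have e3 : ∀ n : ℕ, (shiftM hfin (n + 1)).map
      (fun v => ENNReal.ofReal (((p : ℝ) + 1) / (((n + 1 : ℕ) : ℝ) + 2)) * v)
      = entM hfin (n + 1 + 1 + 1) := by
    intro n
    rw [shiftM, if_neg (Nat.succ_ne_zero n), entM]
    refine Multiset.map_congr rfl fun v _ => ?_
    congr 2
    push_cast
    ring
  rw [Finset.sum_congr rfl fun n _ => e3 n]
  have e4 : entM hfin (0 + 1 + 1) = entM hfin 2 := rfl
  have e5 : entM hfin (0 + 1) = entM hfin 1 := rfl
  rw [e4, e5]
  abel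

lemma card_filter_insert (M : ℕ) (P Q : ℕ → Prop) (dP : DecidablePred P) (dQ : DecidablePred Q)
    (h : ∀ n, P n → n = 0 ∨ Q n) :
    ((Finset.range M).filter P).card ≤ ((Finset.range M).filter Q).card + 1 := by
  refine (Finset.card_le_card ?_).trans (Finset.card_insert_le 0 _)
  intro n hn
  have hn' := Finset.mem_filter.mp hn
  rcases h n hn'.2 with h0 | h0
  · exact Finset.mem_insert.mpr (Or.inl h0)
  · exact Finset.mem_insert.mpr (Or.inr (Finset.mem_filter.mpr ⟨hn'.1, h0⟩))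

open scoped Classical in
/-- **The last step.** -/
theorem third_of_counts (hfin : ∀ k, (cls p N j f₀ k).Finite) {β : ℕ → ℝ} {B C c : ℝ}
    (hβ0 : ∀ n, 0 ≤ β n) (hβ1 : ∀ n, β n ≤ B) (hc : 0 < c)
    (hβ : ∀ᶠ M : ℕ in atTop, c * (M : ℝ) ^ 2 ≤ ∑ n ∈ Finset.range M, β n * n)
    (hS : ∀ n, ((clsM p N j f₀ hfin (n + 2)).card : ℝ) ≤ C * (n + 1))
    (h : ∀ δ : ℝ, 0 < δ → ∃ E : Set ℕ,
      Tendsto (fun M : ℕ => (({n ∈ Finset.range M | n ∈ E} : Finset ℕ).card : ℝ) / M) atTop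
        (𝓝 0) ∧
      ∀ n ∉ E, (∀ x : ℝ, 0 ≤ x → x ≤ n / ((p : ℝ) + 1) →
        |((clsM p N j f₀ hfin (n + 2)).countP (fun v => v ≤ ENNReal.ofReal x) : ℝ) - β n * x|
          ≤ δ * (n + 1)) ∧
        |((clsM p N j f₀ hfin (n + 2)).card : ℝ) - β n * (n / ((p : ℝ) + 1))| ≤ δ * (n + 1)) :
    (∀ T, (xT p N j f₀ T).Finite) ∧
    ∃ (μ : ℕ → ProbabilityMeasure ℝ≥0∞) (ν : ProbabilityMeasure ℝ≥0∞),
      (∀ᶠ T in atTop, (μ T : Measure ℝ≥0∞) = unifT p N j f₀ T) ∧
      (ν : Measure ℝ≥0∞) = (volume.restrict (Set.Icc (0 : ℝ) 1)).map ENNReal.ofReal ∧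
      Tendsto μ atTop (𝓝 ν) := by
  refine ⟨xT_finite hfin, ?_⟩
  have hP : (0 : ℝ) < (p : ℝ) + 1 := by positivity
  set C' : ℝ := |C| + (shiftM hfin 0).card with hC'
  have hS' : ∀ n, ((shiftM hfin n).card : ℝ) ≤ C' * (n + 1) := by
    intro n
    rcases Nat.eq_zero_or_pos n with rfl | hn
    · rw [hC']
      have := abs_nonneg C
      push_cast
      linarith
    · have e : shiftM hfin n = clsM p N j f₀ hfin (n + 2) := by
        rw [shiftM, if_neg hn.ne']
      rw [e]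
      refine (hS n).trans ?_
      have h3 : C ≤ C' := by
        rw [hC']
        have := le_abs_self C
        have h4 : (0 : ℝ) ≤ (shiftM hfin 0).card := by positivity
        linarith
      have h4 : (0 : ℝ) ≤ n + 1 := by positivity
      exact mul_le_mul_of_nonneg_right h3 h4
  have h' : ∀ δ : ℝ, 0 < δ → ∃ E : Set ℕ,
      Tendsto (fun M : ℕ => (({n ∈ Finset.range M | n ∈ E} : Finset ℕ).card : ℝ) / M) atTop
        (𝓝 0) ∧
      ∀ n ∉ E, (∀ x : ℝ, 0 ≤ x → x ≤ n / ((p : ℝ) + 1) →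
        |((shiftM hfin n).countP (fun v => v ≤ ENNReal.ofReal x) : ℝ) - β n * x|
          ≤ δ * (n + 1)) ∧
        |((shiftM hfin n).card : ℝ) - β n * (n / ((p : ℝ) + 1))| ≤ δ * (n + 1) := by
    intro δ hδ
    obtain ⟨E, hE, hEn⟩ := h δ hδ
    refine ⟨insert 0 E, ?_, fun n hn => ?_⟩
    · refine squeeze_zero' (Eventually.of_forall fun M => by positivity) ?_
        (show Tendsto (fun M : ℕ => (({n ∈ Finset.range M | n ∈ E} : Finset ℕ).card : ℝ) / M
          + 1 / (M : ℝ)) atTop (𝓝 0) from by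
          simpa using hE.add tendsto_one_div_atTop_nhds_zero_nat)
      filter_upwards [eventually_gt_atTop 0] with M hM
      have hM' : (0 : ℝ) < M := by exact_mod_cast hM
      rw [← add_div]
      refine div_le_div_of_nonneg_right ?_ hM'.le
      norm_cast
      exact card_filter_insert M _ _ _ _ fun n hn => Set.mem_insert_iff.mp hn
    · have hn0 : n ≠ 0 := fun h0 => hn (Set.mem_insert_iff.mpr (Or.inl h0))
      have hnE : n ∉ E := fun h0 => hn (Set.mem_insert_iff.mpr (Or.inr h0))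
      have e : shiftM hfin n = clsM p N j f₀ hfin (n + 2) := by
        rw [shiftM, if_neg hn0]
      rw [e]
      exact hEn n hnE
  obtain ⟨h1, h2⟩ := Weak.counts_union (P := (p : ℝ) + 1) hP hβ0 hβ1 hc hβ (shiftM hfin) hS' h'
  have hpos : ∀ᶠ T in atTop, Weak.unionX ((p : ℝ) + 1) (shiftM hfin) (T - 1) ≠ 0 := by
    have h3 := (tendsto_sub_atTop_nat 1).eventually h1
    filter_upwards [h3] with T hT h0
    rw [h0] at hT
    simp at hT
  obtain ⟨μ, ν, hμ, hν, hlim⟩ := weak_of_cdf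
    (fun T => Weak.unionX ((p : ℝ) + 1) (shiftM hfin) (T - 1)) hpos
    (fun x hx0 hx1 => (h2 x hx0 hx1).comp (tendsto_sub_atTop_nat 1))
  refine ⟨μ, ν, ?_, hν, hlim⟩
  filter_upwards [hμ, eventually_ge_atTop 2] with T hT hT2
  rw [hT, unifT_eq hfin T, union_shiftM hfin hT2]
end

end Gouvea
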