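import Mathlib

/-!
# Weak convergence from convergence of distribution functions

`equi_of_cdf`: if for every `x ∈ (0,1)` the proportion of the entries `≤ x` of a finite multiset
`M T` in `[-∞, ∞]` tends to `x`, then the uniform probability measures on `M T` converge weakly
to the Lebesgue measure on `[0, 1]`.
-/

namespace Pool.Agent.Gouv

open Filter Topology Finset

noncomputable section

/-- the number of entries `≤ x` -/
def cdf (M : Multiset EReal) (x : ℝ) : ℝ := (M.filter (fun y => y ≤ (x : EReal))).card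

/-- the average of `f` over the entries of `M` -/
def avg (M : Multiset EReal) (f : EReal → ℝ) : ℝ := (M.map f).sum / M.card

theorem sum_ind (M : Multiset EReal) (x : ℝ) :
    (M.map (fun y => if y ≤ (x : EReal) then (1 : ℝ) else 0)).sum = cdf M x := by
  unfold cdf
  induction M using Multiset.induction_on with
  | empty => simp
  | cons a s ih =>
    rw [Multiset.map_cons, Multiset.sum_cons, ih]
    by_cases h : a ≤ (x : EReal)
    · rw [Multiset.filter_cons_of_pos (p := fun y => y ≤ (x : EReal)) s h, if_pos h]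
      push_cast [Multiset.card_cons]; ring
    · rw [Multiset.filter_cons_of_neg (p := fun y => y ≤ (x : EReal)) s h, if_neg h]; ring

theorem cdf_nonneg (M : Multiset EReal) (x : ℝ) : 0 ≤ cdf M x := Nat.cast_nonneg _

theorem cdf_le_card (M : Multiset EReal) (x : ℝ) : cdf M x ≤ M.card := by
  unfold cdf
  exact_mod_cast Multiset.card_le_card (Multiset.filter_le _ _)

/-- the step function attached to the subdivision `i / m` -/
def stp (g : ℝ → ℝ) (m : ℕ) (y : EReal) : ℝ :=
  g 1 + ∑ i ∈ Finset.Ico 1 m, (g (i / m) - g ((i + 1) / m)) *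
    (if y ≤ (((i : ℝ) / m : ℝ) : EReal) then (1 : ℝ) else 0)

theorem telescope (u : ℕ → ℝ) {j m : ℕ} (h : j ≤ m) :
    ∑ i ∈ Finset.Ico j m, (u i - u (i + 1)) = u j - u m := by
  induction m, h using Nat.le_induction with
  | base => simp
  | succ m hm ih => rw [Finset.sum_Ico_succ_top hm, ih]; ring

theorem stp_eq (g : ℝ → ℝ) {m j : ℕ} (hj : 1 ≤ j) (hjm : j < m) {y : EReal}
    (h1 : (((j : ℝ) / m : ℝ) : EReal) < y) (h2 : y ≤ ((((j : ℝ) + 1) / m : ℝ) : EReal)) :
    stp g m y = g ((j + 1) / m) := by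
  have hm : (0 : ℝ) < m := by exact_mod_cast (lt_of_le_of_lt (Nat.zero_le j) hjm)
  unfold stp
  have e : ∀ i ∈ Finset.Ico 1 m, (g (i / m) - g ((i + 1) / m)) *
      (if y ≤ (((i : ℝ) / m : ℝ) : EReal) then (1 : ℝ) else 0)
      = if j + 1 ≤ i then (g (i / m) - g ((i + 1) / m)) else 0 := by
    intro i _
    by_cases h : j + 1 ≤ i
    · rw [if_pos h, if_pos, mul_one]
      refine h2.trans ?_
      rw [EReal.coe_le_coe_iff]
      have : ((j : ℝ) + 1) ≤ i := by exact_mod_cast h
      gcongr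
    · rw [if_neg h, if_neg, mul_zero]
      intro h3
      have h4 := h1.trans_le h3
      rw [EReal.coe_lt_coe_iff, div_lt_div_iff_of_pos_right hm] at h4
      have : j < i := by exact_mod_cast h4
      omega
  rw [Finset.sum_congr rfl e, ← Finset.sum_filter]
  have e2 : (Finset.Ico 1 m).filter (fun i => j + 1 ≤ i) = Finset.Ico (j + 1) m := by
    ext i; simp only [Finset.mem_filter, Finset.mem_Ico]; omega
  rw [e2]
  have := telescope (fun i : ℕ => g ((i : ℝ) / m)) (j := j + 1) (m := m) (by omega)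
  push_cast at this
  rw [this, div_self hm.ne']
  ring

theorem abs_stp_le (g : ℝ → ℝ) {m : ℕ} (hm : 2 ≤ m) {B : ℝ} (hB : ∀ t, |g t| ≤ B) (y : EReal)
    (h : ∀ j : ℕ, 1 ≤ j → j < m - 1 →
      ¬ ((((j : ℝ) / m : ℝ) : EReal) < y ∧ y ≤ ((((j : ℝ) + 1) / m : ℝ) : EReal))) :
    |stp g m y| ≤ B := by
  have hm0 : (0 : ℝ) < m := by exact_mod_cast (by omega : 0 < m)
  have hstep : ∀ j : ℕ, 1 ≤ j → (((j : ℝ) / m : ℝ) : EReal) < y → j < m - 1 →
      ((((j : ℝ) + 1) / m : ℝ) : EReal) < y := by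
    intro j hj h1 h2
    by_contra h3
    exact h j hj h2 ⟨h1, not_lt.1 h3⟩
  by_cases h1 : y ≤ (((1 : ℝ) / m : ℝ) : EReal)
  · -- all indicators are one
    have : stp g m y = g (1 / m) := by
      unfold stp
      have e : ∀ i ∈ Finset.Ico 1 m, (g (i / m) - g ((i + 1) / m)) *
          (if y ≤ (((i : ℝ) / m : ℝ) : EReal) then (1 : ℝ) else 0)
          = (g (i / m) - g ((i + 1) / m)) := by
        intro i hi
        rw [if_pos, mul_one]
        refine h1.trans ?_
        rw [EReal.coe_le_coe_iff]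
        have : (1 : ℝ) ≤ i := by exact_mod_cast (Finset.mem_Ico.1 hi).1
        gcongr
      rw [Finset.sum_congr rfl e]
      have := telescope (fun i : ℕ => g ((i : ℝ) / m)) (j := 1) (m := m) (by omega)
      push_cast at this
      rw [this, div_self hm0.ne']
      ring
    rw [this]; exact hB _
  · have h2 : ∀ j : ℕ, 1 ≤ j → j ≤ m - 1 → (((j : ℝ) / m : ℝ) : EReal) < y := by
      intro j hj hjm
      induction j, hj using Nat.le_induction with
      | base => push_cast; exact not_le.1 h1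
      | succ j hj ih =>
        have := hstep j hj (ih (by omega)) (by omega)
        push_cast
        exact this
    have : stp g m y = g 1 := by
      unfold stp
      have e : ∀ i ∈ Finset.Ico 1 m, (g (i / m) - g ((i + 1) / m)) *
          (if y ≤ (((i : ℝ) / m : ℝ) : EReal) then (1 : ℝ) else 0) = 0 := by
        intro i hi
        rw [if_neg, mul_zero]
        have := h2 i (Finset.mem_Ico.1 hi).1 (by have := (Finset.mem_Ico.1 hi).2; omega)
        exact not_le.2 this
      rw [Finset.sum_congr rfl e]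
      simp
    rw [this]; exact hB _

theorem cases_y {m : ℕ} (hm : 2 ≤ m) (y : EReal) :
    y ≤ (((1 : ℝ) / m : ℝ) : EReal) ∨ ((((m - 1 : ℕ) : ℝ) / m : ℝ) : EReal) < y ∨
    ∃ j : ℕ, 1 ≤ j ∧ j < m - 1 ∧
      (((j : ℝ) / m : ℝ) : EReal) < y ∧ y ≤ ((((j : ℝ) + 1) / m : ℝ) : EReal) := by
  by_cases h1 : y ≤ (((1 : ℝ) / m : ℝ) : EReal)
  · exact Or.inl h1
  by_cases h : ∃ j : ℕ, 1 ≤ j ∧ j < m - 1 ∧
      (((j : ℝ) / m : ℝ) : EReal) < y ∧ y ≤ ((((j : ℝ) + 1) / m : ℝ) : EReal)
  · exact Or.inr (Or.inr h)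
  right; left
  have h2 : ∀ j : ℕ, 1 ≤ j → j ≤ m - 1 → (((j : ℝ) / m : ℝ) : EReal) < y := by
    intro j hj hjm
    induction j, hj using Nat.le_induction with
    | base => push_cast; exact not_le.1 h1
    | succ j hj ih =>
      have h3 := ih (by omega)
      by_contra h4
      push_cast at h4
      exact h ⟨j, hj, by omega, h3, not_lt.1 h4⟩
  exact h2 (m - 1) (by omega) le_rfl

theorem abs_f_sub_stp (f : EReal → ℝ) {m : ℕ} (hm : 2 ≤ m) {B ε : ℝ} (hB : ∀ y, |f y| ≤ B)
    (hε0 : 0 ≤ ε)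
    (hε : ∀ s t : ℝ, 0 ≤ s → s ≤ t → t ≤ 1 → t - s ≤ 1 / m → |f s - f t| ≤ ε) (y : EReal) :
    |f y - stp (fun t => f t) m y| ≤ ε + 2 * B *
      ((if y ≤ (((1 : ℝ) / m : ℝ) : EReal) then (1 : ℝ) else 0) + 1 -
        (if y ≤ ((((m - 1 : ℕ) : ℝ) / m : ℝ) : EReal) then (1 : ℝ) else 0)) := by
  have hm0 : (0 : ℝ) < m := by exact_mod_cast (by omega : 0 < m)
  have hB0 : 0 ≤ B := (abs_nonneg _).trans (hB 0)
  by_cases h : ∃ j : ℕ, 1 ≤ j ∧ j < m - 1 ∧
      (((j : ℝ) / m : ℝ) : EReal) < y ∧ y ≤ ((((j : ℝ) + 1) / m : ℝ) : EReal)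
  · obtain ⟨j, hj, hjm, h1, h2⟩ := h
    have e := stp_eq (fun t => f t) hj (by omega : j < m) h1 h2
    rw [e]
    have hy : ∃ t : ℝ, y = (t : EReal) := by
      refine ⟨y.toReal, (EReal.coe_toReal ?_ ?_).symm⟩
      · exact ne_top_of_le_ne_top (EReal.coe_ne_top _) h2
      · exact (lt_of_le_of_lt bot_le h1).ne'
    obtain ⟨t, rfl⟩ := hy
    rw [EReal.coe_lt_coe_iff] at h1
    rw [EReal.coe_le_coe_iff] at h2
    have h3 : |f t - f (((j : ℝ) + 1) / m : ℝ)| ≤ ε := by
      apply hε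
      · exact (by positivity : (0 : ℝ) ≤ (j : ℝ) / m).trans h1.le
      · exact h2
      · rw [div_le_one hm0]
        have : j + 1 ≤ m := by omega
        exact_mod_cast this
      · have : ((j : ℝ) + 1) / m - (j : ℝ) / m = 1 / m := by ring
        linarith
    have h4 : (if (t : EReal) ≤ ((((m - 1 : ℕ) : ℝ) / m : ℝ) : EReal) then (1 : ℝ) else 0) ≤ 1 := by
      split_ifs <;> norm_num
    have h5 : 0 ≤ (if (t : EReal) ≤ (((1 : ℝ) / m : ℝ) : EReal) then (1 : ℝ) else 0) := by
      split_ifs <;> norm_num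
    refine h3.trans ?_
    have : 0 ≤ 2 * B *
      ((if (t : EReal) ≤ (((1 : ℝ) / m : ℝ) : EReal) then (1 : ℝ) else 0) + 1 -
        (if (t : EReal) ≤ ((((m - 1 : ℕ) : ℝ) / m : ℝ) : EReal) then (1 : ℝ) else 0)) := by
      apply mul_nonneg (by linarith)
      linarith
    linarith
  · have h1 := abs_stp_le (fun t => f t) hm (fun t => hB t) y (by
      intro j hj hjm hc
      exact h ⟨j, hj, hjm, hc⟩)
    have h2 : |f y - stp (fun t => f t) m y| ≤ 2 * B := by
      refine (abs_sub _ _).trans ?_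
      have := hB y
      linarith
    have h3 : 1 ≤ (if y ≤ (((1 : ℝ) / m : ℝ) : EReal) then (1 : ℝ) else 0) + 1 -
        (if y ≤ ((((m - 1 : ℕ) : ℝ) / m : ℝ) : EReal) then (1 : ℝ) else 0) := by
      rcases cases_y hm y with h4 | h4 | h4
      · rw [if_pos h4]
        split_ifs <;> norm_num
      · rw [if_neg (not_le.2 h4)]
        split_ifs <;> norm_num
      · exact absurd h4 h
    nlinarith

theorem avg_stp (M : Multiset EReal) (g : ℝ → ℝ) (m : ℕ) (hM : (0 : ℝ) < M.card) :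
    (M.map (stp g m)).sum / M.card = g 1 + ∑ i ∈ Finset.Ico 1 m,
      (g (i / m) - g ((i + 1) / m)) * (cdf M (i / m) / M.card) := by
  have e : (M.map (stp g m)).sum = M.card * g 1 + ∑ i ∈ Finset.Ico 1 m,
      (g (i / m) - g ((i + 1) / m)) * cdf M (i / m) := by
    unfold stp
    rw [Multiset.sum_map_add, Multiset.map_const', Multiset.sum_replicate, nsmul_eq_mul]
    congr 1
    rw [Multiset.sum_map_sum]
    apply Finset.sum_congr rfl
    intro i _
    rw [Multiset.sum_map_mul_left, sum_ind]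
  rw [e, add_div, mul_div_cancel_left₀ _ hM.ne', Finset.sum_div]
  congr 1
  apply Finset.sum_congr rfl
  intro i _
  rw [mul_div_assoc]

theorem sum_map_le {s : Multiset EReal} {u w : EReal → ℝ} (h : ∀ y, u y ≤ w y) :
    (s.map u).sum ≤ (s.map w).sum := by
  apply Multiset.sum_map_le_sum_map
  intro y _
  exact h y

theorem abs_avg_sub (M : Multiset EReal) (f : EReal → ℝ) {m : ℕ} (hm : 2 ≤ m) {B ε : ℝ}
    (hB : ∀ y, |f y| ≤ B) (hε0 : 0 ≤ ε)
    (hε : ∀ s t : ℝ, 0 ≤ s → s ≤ t → t ≤ 1 → t - s ≤ 1 / m → |f s - f t| ≤ ε)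
    (hM : (0 : ℝ) < M.card) :
    |avg M f - (M.map (stp (fun t => f t) m)).sum / M.card| ≤
      ε + 2 * B * (cdf M (1 / m) / M.card + 1 - cdf M ((m - 1 : ℕ) / m) / M.card) := by
  have h := abs_f_sub_stp f hm hB hε0 hε
  have e : (M.map (fun y => ε + 2 * B *
      ((if y ≤ (((1 : ℝ) / m : ℝ) : EReal) then (1 : ℝ) else 0) + 1 -
        (if y ≤ ((((m - 1 : ℕ) : ℝ) / m : ℝ) : EReal) then (1 : ℝ) else 0)))).sum
      = M.card * ε + 2 * B * (cdf M (1 / m) + M.card - cdf M ((m - 1 : ℕ) / m)) := by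
    rw [Multiset.sum_map_add, Multiset.map_const', Multiset.sum_replicate, nsmul_eq_mul,
      Multiset.sum_map_mul_left, Multiset.sum_map_sub, Multiset.sum_map_add, Multiset.map_const',
      Multiset.sum_replicate, nsmul_eq_mul, sum_ind, sum_ind, mul_one]
  unfold avg
  rw [← sub_div, ← Multiset.sum_map_sub, abs_div, abs_of_pos hM, div_le_iff₀ hM]
  have h1 : |(M.map (fun y => f y - stp (fun t => f t) m y)).sum| ≤
      (M.map (fun y => |f y - stp (fun t => f t) m y|)).sum := by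
    have := Multiset.abs_sum_le_sum_abs (s := M.map (fun y => f y - stp (fun t => f t) m y))
    rw [Multiset.map_map] at this
    exact this
  refine h1.trans ((sum_map_le h).trans (le_of_eq ?_))
  rw [e]
  field_simp

theorem sum_abel (u : ℕ → ℝ) {m : ℕ} (hm : 1 ≤ m) :
    ∑ i ∈ Finset.Ico 1 m, (u i - u (i + 1)) * i = ∑ i ∈ Finset.range m, u (i + 1) - m * u m := by
  induction m, hm using Nat.le_induction with
  | base => simp
  | succ m hm ih =>
    rw [Finset.sum_Ico_succ_top hm, ih, Finset.sum_range_succ]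
    push_cast
    ring

theorem riemann (g : ℝ → ℝ) (hg : Continuous g) {m : ℕ} (hm : 1 ≤ m) {ε : ℝ}
    (hε : ∀ s t : ℝ, 0 ≤ s → s ≤ t → t ≤ 1 → t - s ≤ 1 / m → |g s - g t| ≤ ε) :
    |(∑ i ∈ Finset.range m, g ((i + 1 : ℕ) / m)) / m - ∫ t in (0 : ℝ)..1, g t| ≤ ε := by
  have hm0 : (0 : ℝ) < m := by exact_mod_cast hm
  have e1 : ∫ t in (0 : ℝ)..1, g t = ∑ i ∈ Finset.range m,
      ∫ t in ((i : ℕ) / m : ℝ)..((i + 1 : ℕ) / m : ℝ), g t := by
    rw [intervalIntegral.sum_integral_adjacent_intervals (a := fun i : ℕ => (i / m : ℝ))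
      (fun k _ => hg.intervalIntegrable _ _)]
    simp [div_self hm0.ne']
  have e2 : (∑ i ∈ Finset.range m, g ((i + 1 : ℕ) / m)) / m = ∑ i ∈ Finset.range m,
      ∫ _t in ((i : ℕ) / m : ℝ)..((i + 1 : ℕ) / m : ℝ), g ((i + 1 : ℕ) / m) := by
    rw [Finset.sum_div]
    apply Finset.sum_congr rfl
    intro i _
    rw [intervalIntegral.integral_const, smul_eq_mul]
    push_cast
    ring
  rw [e1, e2, ← Finset.sum_sub_distrib]
  refine (Finset.abs_sum_le_sum_abs _ _).trans ?_
  have h : ∀ i ∈ Finset.range m,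
      |(∫ _t in ((i : ℕ) / m : ℝ)..((i + 1 : ℕ) / m : ℝ), g ((i + 1 : ℕ) / m)) -
        ∫ t in ((i : ℕ) / m : ℝ)..((i + 1 : ℕ) / m : ℝ), g t| ≤ ε / m := by
    intro i hi
    have hi' := Finset.mem_range.1 hi
    have hle : ((i : ℕ) / m : ℝ) ≤ ((i + 1 : ℕ) / m : ℝ) := by
      push_cast; gcongr; linarith
    rw [← intervalIntegral.integral_sub (by simp) (hg.intervalIntegrable _ _),
      ← Real.norm_eq_abs]
    have := intervalIntegral.norm_integral_le_of_norm_le_const (a := ((i : ℕ) / m : ℝ))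
      (b := ((i + 1 : ℕ) / m : ℝ)) (C := ε) (f := fun t => g ((i + 1 : ℕ) / m) - g t) (by
        intro t ht
        rw [Set.uIoc_of_le hle] at ht
        rw [Real.norm_eq_abs, abs_sub_comm]
        apply hε
        · exact (by positivity : (0 : ℝ) ≤ (i : ℝ) / m).trans ht.1.le
        · exact ht.2
        · rw [div_le_one hm0]; exact_mod_cast hi'
        · have h3 : (((i + 1 : ℕ) : ℝ)) / m - (i : ℝ) / m = 1 / m := by push_cast; ring
          linarith [ht.1])
    refine this.trans (le_of_eq ?_)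
    have h3 : (((i + 1 : ℕ) : ℝ)) / m - (i : ℝ) / m = 1 / m := by push_cast; ring
    rw [h3, abs_of_pos (by positivity)]
    ring
  refine (Finset.sum_le_sum h).trans (le_of_eq ?_)
  rw [Finset.sum_const, Finset.card_range, nsmul_eq_mul]
  field_simp

/-- Convergence of the distribution functions at the points of `(0,1)` implies weak convergence
to the Lebesgue measure of `[0,1]`. -/
theorem equi_of_cdf (M : ℕ → Multiset EReal)
    (h : ∀ x : ℝ, 0 < x → x < 1 →
      Tendsto (fun T => cdf (M T) x / (M T).card) atTop (𝓝 x))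
    (f : EReal → ℝ) (hf : Continuous f) :
    Tendsto (fun T => avg (M T) f) atTop (𝓝 (∫ t in (0 : ℝ)..1, f t)) := by
  -- bound of f
  obtain ⟨B, hB⟩ : ∃ B : ℝ, ∀ y, |f y| ≤ B := by
    obtain ⟨B, hB⟩ := isCompact_univ.exists_bound_of_continuousOn (f := f) hf.continuousOn
    exact ⟨B, fun y => hB y (Set.mem_univ _)⟩
  have hB0 : 0 ≤ B := (abs_nonneg _).trans (hB 0)
  have hg : Continuous (fun t : ℝ => f t) := hf.comp continuous_coe_real_ereal
  have hcard : ∀ᶠ T in atTop, (0 : ℝ) < (M T).card := by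
    have h1 := h (1 / 2) (by norm_num) (by norm_num)
    have h2 := h1.eventually (lt_mem_nhds (a := (0 : ℝ)) (by norm_num))
    filter_upwards [h2] with T hT
    by_contra h3
    have h4 : ((M T).card : ℝ) = 0 := le_antisymm (not_lt.1 h3) (Nat.cast_nonneg _)
    rw [h4, div_zero] at hT
    exact lt_irrefl _ hT
  rw [Metric.tendsto_atTop]
  intro ε hε
  -- choose the subdivision
  obtain ⟨m, hm2, hmε, hmB⟩ : ∃ m : ℕ, 2 ≤ m ∧
      (∀ s t : ℝ, 0 ≤ s → s ≤ t → t ≤ 1 → t - s ≤ 1 / m → |f s - f t| ≤ ε / 8) ∧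
      4 * B / m < ε / 8 := by
    have huc : UniformContinuousOn (fun t : ℝ => f t) (Set.Icc 0 1) :=
      isCompact_Icc.uniformContinuousOn_of_continuous hg.continuousOn
    rw [Metric.uniformContinuousOn_iff] at huc
    obtain ⟨δ, hδ, hδ'⟩ := huc (ε / 8) (by positivity)
    obtain ⟨m0, hm0⟩ := exists_nat_gt (max (1 / δ) (32 * B / ε))
    refine ⟨m0 + 2, by omega, ?_, ?_⟩
    · intro s t hs hst ht hd
      have h1 : (1 : ℝ) / ((m0 + 2 : ℕ) : ℝ) < δ := by
        have : 1 / δ < ((m0 + 2 : ℕ) : ℝ) := by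
          push_cast
          linarith [le_max_left (1 / δ) (32 * B / ε)]
        rw [div_lt_comm₀ (by positivity) hδ]
        exact this
      have := hδ' s ⟨hs, hst.trans ht⟩ t ⟨hs.trans hst, ht⟩ (by
        rw [Real.dist_eq, abs_sub_comm, abs_of_nonneg (by linarith)]
        linarith)
      rw [Real.dist_eq] at this
      exact this.le
    · have : 32 * B / ε < ((m0 + 2 : ℕ) : ℝ) := by
        push_cast
        linarith [le_max_right (1 / δ) (32 * B / ε)]
      rw [div_lt_iff₀ hε] at this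
      rw [div_lt_iff₀ (by positivity)]
      nlinarith
  have hm0 : (0 : ℝ) < m := by exact_mod_cast (by omega : 0 < m)
  have hm1 : (((m - 1 : ℕ) : ℝ)) = (m : ℝ) - 1 := by
    rw [Nat.cast_sub (by omega)]; norm_num
  -- limits
  have hL1 : Tendsto (fun T => (fun t : ℝ => f t) 1 + ∑ i ∈ Finset.Ico 1 m,
      (f ((i / m : ℝ)) - f (((i + 1) / m : ℝ))) * (cdf (M T) (i / m) / (M T).card)) atTop
      (𝓝 (f (1 : ℝ) + ∑ i ∈ Finset.Ico 1 m,
      (f ((i / m : ℝ)) - f (((i + 1) / m : ℝ))) * (i / m))) := by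
    apply Tendsto.add tendsto_const_nhds
    apply tendsto_finsetSum
    intro i hi
    have hi' := Finset.mem_Ico.1 hi
    apply Tendsto.const_mul
    apply h
    · have : (1 : ℝ) ≤ i := by exact_mod_cast hi'.1
      positivity
    · rw [div_lt_one hm0]; exact_mod_cast hi'.2
  have hlim : f (1 : ℝ) + ∑ i ∈ Finset.Ico 1 m,
      (f ((i / m : ℝ)) - f (((i + 1) / m : ℝ))) * (i / m)
      = (∑ i ∈ Finset.range m, f (((i + 1 : ℕ) / m : ℝ))) / m := by
    have := sum_abel (fun i : ℕ => f ((i / m : ℝ))) (m := m) (by omega)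
    simp only [div_self hm0.ne'] at this
    have e : ∑ i ∈ Finset.Ico 1 m, (f ((i / m : ℝ)) - f (((i + 1) / m : ℝ))) * (i / m)
        = (∑ i ∈ Finset.Ico 1 m, (f ((i / m : ℝ)) - f (((i + 1 : ℕ) / m : ℝ))) * i) / m := by
      rw [Finset.sum_div]
      apply Finset.sum_congr rfl
      intro i _
      push_cast
      ring
    rw [e, this]
    field_simp
    ring
  rw [hlim] at hL1
  have hL2 : Tendsto (fun T => cdf (M T) (1 / m) / (M T).card + 1
      - cdf (M T) ((m - 1 : ℕ) / m) / (M T).card) atTop (𝓝 (1 / m + 1 - (m - 1 : ℕ) / m)) := by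
    apply Tendsto.sub
    · apply Tendsto.add_const
      apply h
      · positivity
      · rw [div_lt_one hm0]; exact_mod_cast (by omega : 1 < m)
    · apply h
      · rw [hm1]
        have : (2 : ℝ) ≤ m := by exact_mod_cast hm2
        apply div_pos _ hm0
        linarith
      · rw [div_lt_one hm0, hm1]; linarith
  have hL2' : (1 : ℝ) / m + 1 - (m - 1 : ℕ) / m = 2 / m := by
    rw [hm1]; field_simp; ring
  rw [hL2'] at hL2
  have h1 := hL1.eventually (Metric.ball_mem_nhds _ (by positivity : 0 < ε / 8))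
  have h2 := hL2.eventually (Metric.ball_mem_nhds _ (by positivity : 0 < ε / (8 * (2 * B + 1))))
  obtain ⟨T0, hT0⟩ := (h1.and (h2.and hcard)).exists_forall_of_atTop
  refine ⟨T0, fun T hT => ?_⟩
  obtain ⟨a1, a2, a3⟩ := hT0 T hT
  rw [Real.dist_eq] at a1 a2
  have b1 := abs_avg_sub (M T) f hm2 hB (by positivity) hmε a3
  rw [avg_stp _ _ _ a3] at b1
  have b2 := riemann (fun t : ℝ => f t) hg (m := m) (by omega) hmε
  have b3 : 2 * B * (cdf (M T) (1 / m) / (M T).card + 1
      - cdf (M T) ((m - 1 : ℕ) / m) / (M T).card) ≤ ε / 4 := by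
    have c1 := (abs_lt.1 a2).2
    have c2 : cdf (M T) (1 / m) / (M T).card + 1
      - cdf (M T) ((m - 1 : ℕ) / m) / (M T).card ≤ 2 / m + ε / (8 * (2 * B + 1)) := by linarith
    have c3 : 2 * B * (2 / m + ε / (8 * (2 * B + 1))) ≤ ε / 4 := by
      have d1 : 2 * B * (2 / m) < ε / 8 := by
        have : 2 * B * (2 / (m : ℝ)) = 4 * B / m := by ring
        rw [this]; exact hmB
      have d2 : 2 * B * (ε / (8 * (2 * B + 1))) ≤ ε / 8 := by
        rw [mul_div_assoc', div_le_div_iff₀ (by positivity) (by norm_num)]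
        nlinarith
      linarith
    exact (mul_le_mul_of_nonneg_left c2 (by positivity)).trans c3
  rw [Real.dist_eq]
  rw [abs_le] at b1 b2
  rw [abs_lt] at a1
  rw [abs_lt]
  constructor <;> linarith [b1.1, b1.2, b2.1, b2.2, a1.1, a1.2]

end

end Pool.Agent.Gouv
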