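import Pool.Agent.Work.MP_d3517d_nt.Basic2
import Pool.Agent.Work.MP_d3517d_nt.Few
import Pool.Agent.Work.MP_d3517d_nt.Special

/-!
# Few exceptional weights (MP_d3517d_nt), M14 (a)
-/

open Polynomial Finset Filter Topology

noncomputable section

namespace Gouvea

variable {p : ℕ} [Fact p.Prime]

/-- The statement of `exists_fam`. -/
def ExistsFamStat {h : ℕ} {E V : Type} [Fintype E] [DecidableEq E] [Fintype V] [DecidableEq V]
    (D : Dat p h E V) : Prop :=
  ∀ n0 L J : ℕ, Even n0 → ∃ F : WFam p h n0 L J E, Compat F D.toGam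

/-- The statement of `Gf_fam`. -/
def GfFamStat {h : ℕ} {E V : Type} [Fintype E] [DecidableEq E] [Fintype V] [DecidableEq V]
    (D : Dat p h E V) : Prop :=
  ∀ {n0 L J : ℕ} (F : WFam p h n0 L J E), Compat F D.toGam → ∀ κ : ℕ,
    n0 + (p - 1) * κ < J → n0 + (p - 1) * κ < L → ∀ (r : ℕ) (x : ℝ),
    x ≤ (n0 + (p - 1) * κ : ℕ) + 1 →
    ‖(cr F.U r).eval (κ : ℚ_[p])‖ ≤
      (p : ℝ) ^ (Gf (toQ (Um D.toGam (n0 + (p - 1) * κ))) x - r * x)

/-- a family for the irrelevant classes of weights -/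
def zeroFam (p h n0 L J : ℕ) [Fact p.Prime] (E : Type) [Fintype E] [DecidableEq E] :
    WFam p h n0 L J E where
  U := 0
  σ := Equiv.refl E
  G := 0
  H := 0
  hG x y i := by simp [VB]
  hH x y := by simp [VB]
  fac x y := by simp
  dec κ _ := ⟨0, 0, by ext; simp, by simp, fun x y hxy => absurd rfl hxy⟩

theorem Gf_nonneg {ι : Type} [Fintype ι] [DecidableEq ι] (A : Matrix ι ι ℚ_[p]) (x : ℝ) :
    0 ≤ Gf A x := by
  unfold Gf
  refine Multiset.sum_nonneg fun y hy => ?_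
  obtain ⟨l, _, rfl⟩ := Multiset.mem_map.1 hy
  have hp1 : (1 : ℝ) < p := by exact_mod_cast (Fact.out : p.Prime).one_lt
  exact Real.logb_nonneg hp1 (le_max_left _ _)

/-- choice of `V` -/
theorem exc_exists_V (hp : 5 ≤ p) (σ : ℝ) (hσ : 0 < σ) (K0 : ℕ) :
    ∃ T0 : ℕ, 1 ≤ T0 ∧ ∀ T : ℕ, T0 ≤ T → ∃ V : ℕ, K0 ≤ V ∧ 1 ≤ V ∧ 2 * (p + 1) * T < p ^ V ∧
      p ^ V ≤ 2 * (p + 1) * p ^ 2 * T ∧ (V : ℝ) ^ 10 ≤ σ * T := by
  have hp1 : (1 : ℝ) < p := by
    have : 1 < p := by omega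
    exact_mod_cast this
  have hlim := tendsto_pow_const_div_const_pow_of_one_lt 10 hp1
  have hs : 0 < σ / (2 * ((p : ℝ) + 1) * p ^ 2) := by positivity
  obtain ⟨K1, hK1⟩ := (hlim.eventually (gt_mem_nhds hs)).exists_forall_of_atTop
  refine ⟨p ^ (max K0 K1), Nat.one_le_pow _ _ (by omega), fun T hT => ?_⟩
  have hT1 : 1 ≤ T := le_trans (Nat.one_le_pow _ _ (by omega)) hT
  set V := Nat.log p (2 * (p + 1) * T) + 1 with hV
  have hbig : T ≤ 2 * (p + 1) * T := Nat.le_mul_of_pos_left T (by omega)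
  have hVK : max K0 K1 ≤ V := by
    have h1 : max K0 K1 ≤ Nat.log p (2 * (p + 1) * T) := by
      exact Nat.le_log_of_pow_le (by omega) (hT.trans hbig)
    omega
  have hlow : 2 * (p + 1) * T < p ^ V := Nat.lt_pow_succ_log_self (by omega) _
  have hup : p ^ V ≤ 2 * (p + 1) * p ^ 2 * T := by
    have h1 : p ^ Nat.log p (2 * (p + 1) * T) ≤ 2 * (p + 1) * T :=
      Nat.pow_log_le_self _ (by positivity)
    calc p ^ V = p ^ Nat.log p (2 * (p + 1) * T) * p := by rw [hV, pow_succ]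
      _ ≤ 2 * (p + 1) * T * p := Nat.mul_le_mul_right _ h1
      _ ≤ 2 * (p + 1) * T * p ^ 2 := by
          refine Nat.mul_le_mul_left _ ?_
          nlinarith
      _ = 2 * (p + 1) * p ^ 2 * T := by ring
  refine ⟨V, le_trans (le_max_left _ _) hVK, by omega, hlow, hup, ?_⟩
  have h1 := hK1 V (le_trans (le_max_right _ _) hVK)
  have h2 : (0 : ℝ) < (p : ℝ) ^ V := by positivity
  have h3 : (V : ℝ) ^ 10 < σ / (2 * ((p : ℝ) + 1) * p ^ 2) * (p : ℝ) ^ V := by
    rwa [div_lt_iff₀ h2] at h1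
  have h4 : (p : ℝ) ^ V ≤ 2 * ((p : ℝ) + 1) * p ^ 2 * T := by exact_mod_cast hup
  refine h3.le.trans ?_
  calc σ / (2 * ((p : ℝ) + 1) * p ^ 2) * (p : ℝ) ^ V
      ≤ σ / (2 * ((p : ℝ) + 1) * p ^ 2) * (2 * ((p : ℝ) + 1) * p ^ 2 * T) :=
        mul_le_mul_of_nonneg_left h4 hs.le
    _ = σ * T := by field_simp

omit [Fact p.Prime] in
/-- bound for the modulus -/
theorem exc_P_le (hp : 5 ≤ p) {V : ℕ} (hV : 1 ≤ V) :
    (p - 1) * p ^ (Nat.clog p (V ^ 6) + 1) ≤ p ^ 3 * V ^ 6 := by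
  have h1 : p ^ Nat.clog p (V ^ 6) ≤ p * V ^ 6 := by
    rcases Nat.eq_zero_or_pos (Nat.clog p (V ^ 6)) with h0 | h0
    · rw [h0, pow_zero]
      exact Nat.mul_pos (by omega) (by positivity)
    · have h2 : p ^ (Nat.clog p (V ^ 6) - 1) < V ^ 6 := by
        refine Nat.pow_pred_clog_lt_self (by omega) ?_
        by_contra h3
        have h4 : Nat.clog p (V ^ 6) = 0 := Nat.clog_of_right_le_one (by omega) _
        omega
      calc p ^ Nat.clog p (V ^ 6) = p * p ^ (Nat.clog p (V ^ 6) - 1) := by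
            rw [← pow_succ']; congr 1; omega
        _ ≤ p * V ^ 6 := Nat.mul_le_mul_left _ h2.le
  calc (p - 1) * p ^ (Nat.clog p (V ^ 6) + 1) = (p - 1) * (p ^ Nat.clog p (V ^ 6) * p) := by
        rw [pow_succ]
    _ ≤ p * (p * V ^ 6 * p) := Nat.mul_le_mul (Nat.sub_le _ _) (Nat.mul_le_mul_right _ h1)
    _ = p ^ 3 * V ^ 6 := by ring

section

variable {h : ℕ} {E V : Type} [Fintype E] [DecidableEq E] [Fintype V] [DecidableEq V]

/-- The dyadic version. -/
theorem exc_dyadic (hp : 5 ≤ p) (hh : 1 ≤ h) (D : Dat p h E V) {V0 : ℕ}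
    (hmain : MainBadStat p h V0) (hfam : ExistsFamStat D) (hGf : GfFamStat D)
    (η ε : ℝ) (hη : 0 < η) (hε : 0 < ε) :
    ∃ T0 : ℕ, 1 ≤ T0 ∧ ∀ T : ℕ, T0 ≤ T → ∃ Ex : Finset ℕ, (Ex.card : ℝ) ≤ ε * T ∧
      ∀ n : ℕ, Even n → T < n → n ≤ 2 * T → n ∉ Ex → ∀ x : ℝ, 0 ≤ x → x * (p + 1) ≤ n →
        ((p : ℝ) + 1) * h * x ^ 2 / 2 - η * (n : ℝ) ^ 2 ≤ Gf (toQ (Um D.toGam n)) x := by
  classical
  have hp1 : (1 : ℝ) < p := by
    have : 1 < p := by omega
    exact_mod_cast this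
  have hp5 : (5 : ℝ) ≤ p := by exact_mod_cast hp
  have hh1 : (1 : ℝ) ≤ h := by exact_mod_cast hh
  set q : ℝ := ((p : ℝ) + 1) * h with hq
  have hq6 : 6 ≤ q := by rw [hq]; nlinarith
  set θ : ℝ := min 1 (η / q) with hθ
  have hθ0 : 0 < θ := lt_min one_pos (by positivity)
  have hθ1 : θ ≤ 1 := min_le_left _ _
  have hθq : θ * q ≤ η := by
    have h1 : θ ≤ η / q := min_le_right _ _
    rwa [le_div_iff₀ (by positivity)] at h1
  set δ : ℝ := θ / 9 with hδ
  have hδ0 : 0 < δ := by positivity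
  set σ : ℝ := min (δ / p ^ 3) (min (δ * ε / (6 * p ^ 3)) (η / (120 * p ^ 2 * h))) with hσ
  have hσ0 : 0 < σ := by
    refine lt_min (by positivity) (lt_min (by positivity) (by positivity))
  have hσ1 : σ * p ^ 3 ≤ δ := by
    have h1 : σ ≤ δ / p ^ 3 := min_le_left _ _
    rwa [le_div_iff₀ (by positivity)] at h1
  have hσ2 : σ * (6 * p ^ 3) ≤ δ * ε := by
    have h1 : σ ≤ δ * ε / (6 * p ^ 3) := (min_le_right _ _).trans (min_le_left _ _)
    rwa [le_div_iff₀ (by positivity)] at h1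
  have hσ3 : σ * (120 * p ^ 2 * h) ≤ η := by
    have h1 : σ ≤ η / (120 * p ^ 2 * h) := (min_le_right _ _).trans (min_le_right _ _)
    rwa [le_div_iff₀ (by positivity)] at h1
  obtain ⟨T1, hT11, hT1⟩ := exc_exists_V hp σ hσ0 (max V0 ⌈1 / (6 * δ)⌉₊)
  refine ⟨max T1 ⌈4 / δ⌉₊, le_trans hT11 (le_max_left _ _), fun T hT => ?_⟩
  obtain ⟨W, hWK, hW1, hTW, hWT, hW10⟩ := hT1 T (le_trans (le_max_left _ _) hT)
  have hTδ : 4 ≤ δ * T := by
    have h1 : 4 / δ ≤ (T : ℝ) := (Nat.le_ceil _).trans (by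
      exact_mod_cast le_trans (le_max_right _ _) hT)
    rw [div_le_iff₀ hδ0] at h1
    linarith
  have hTpos : 0 < T := lt_of_lt_of_le hT11 (le_trans (le_max_left _ _) hT)
  have hTR : (0 : ℝ) < T := by exact_mod_cast hTpos
  have hWR : (1 : ℝ) ≤ W := by exact_mod_cast hW1
  have hW6 : (W : ℝ) ^ 6 ≤ W ^ 10 := pow_le_pow_right₀ hWR (by norm_num)
  have hW1' : (W : ℝ) ≤ W ^ 10 := by
    calc (W : ℝ) = W ^ 1 := (pow_one _).symm
      _ ≤ W ^ 10 := pow_le_pow_right₀ hWR (by norm_num)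
  set ℓ : ℕ := ⌈δ * T⌉₊ with hℓ
  have hℓ1 : δ * T ≤ ℓ := Nat.le_ceil _
  have hℓ2 : (ℓ : ℝ) < δ * T + 1 := Nat.ceil_lt_add_one (by positivity)
  set P : ℕ := (p - 1) * p ^ (Nat.clog p (W ^ 6) + 1) with hP
  have hPW : (P : ℝ) ≤ p ^ 3 * W ^ 6 := by exact_mod_cast exc_P_le hp hW1
  have hPℓ : P ≤ ℓ := by
    have h1 : (P : ℝ) ≤ ℓ := by
      calc (P : ℝ) ≤ p ^ 3 * W ^ 6 := hPW
        _ ≤ p ^ 3 * W ^ 10 := by gcongr
        _ ≤ p ^ 3 * (σ * T) := by gcongr
        _ = (σ * p ^ 3) * T := by ring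
        _ ≤ δ * T := by gcongr
        _ ≤ ℓ := hℓ1
    exact_mod_cast h1
  -- the families
  set L : ℕ := 2 * (p + 1) * T + 1 with hL
  have hLT : 2 * (p + 1) * T < L := Nat.lt_succ_self _
  have h2TL : 2 * T < L := by
    have : 2 * T ≤ 2 * (p + 1) * T := by nlinarith
    omega
  let F : ∀ n0, WFam p h n0 L L E := fun n0 =>
    if he : Even n0 then (hfam n0 L L he).choose else zeroFam p h n0 L L E
  have hF : ∀ n0, Even n0 → Compat (F n0) D.toGam := by
    intro n0 he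
    simp only [F, dif_pos he]
    exact (hfam n0 L L he).choose_spec
  have hpodd : Odd p := (Fact.out : p.Prime).odd_of_ne_two (by omega)
  have hp1e : Even (p - 1) := by
    obtain ⟨k, hk⟩ := hpodd
    exact ⟨k, by omega⟩
  -- the special values
  have hsv : ∀ M : ℕ, ∃ u : ℕ, u ≤ (p + 1) * h ∧ (Even (M - 1) → 1 ≤ M → M ≤ T →
      (p : ℝ) ^ (-(((M - 1 : ℕ) : ℤ) * ((p + 1) * h / 2 : ℕ) * M + h * M - u * M)) ≤
        ‖(cr (F ((M - 1) % (p - 1))).U ((p + 1) * h * M - u)).eval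
          (((M - 1) / (p - 1) : ℕ) : ℚ_[p])‖) := by
    intro M
    by_cases hM : Even (M - 1) ∧ 1 ≤ M ∧ M ≤ T
    · obtain ⟨hMe, hM1, hMT⟩ := hM
      have hκ : (M - 1) % (p - 1) + (p - 1) * ((M - 1) / (p - 1)) = M - 1 := Nat.mod_add_div _ _
      have hne : Even ((M - 1) % (p - 1)) := (hp1e.mod_even_iff).2 hMe
      obtain ⟨u, r, hu, hr, hb⟩ := special_value hh (by omega) D (F ((M - 1) % (p - 1)))
        (hF _ hne) (M := M) (κ0 := (M - 1) / (p - 1)) (by rw [hκ]; omega) (by rw [hκ]; exact hMe)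
        (by rw [hκ]; omega) (by rw [hκ]; omega)
      refine ⟨u, hu, fun _ _ _ => ?_⟩
      have hr' : r = (p + 1) * h * M - u := by omega
      rw [← hr']
      exact hb
    · exact ⟨0, Nat.zero_le _, fun h1 h2 h3 => absurd ⟨h1, h2, h3⟩ hM⟩
  choose u hu hsp using hsv
  obtain ⟨Ex, hExc, hEx⟩ := few_windows hp hmain D.cardE (V := W) (T := T) (ℓ := ℓ)
    (le_trans (le_max_left _ _) hWK) hTW hWT hLT hLT hPℓ F u hu
    (fun M h1 h2 h3 _ => hsp M h1 h2 h3)
  refine ⟨Ex, ?_, ?_⟩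
  · have h1 : (Ex.card : ℝ) * ℓ ≤ 6 * T * W ^ 4 * P := by exact_mod_cast hExc
    have h2 : (Ex.card : ℝ) * (δ * T) ≤ (ε * T) * (δ * T) := by
      calc (Ex.card : ℝ) * (δ * T) ≤ Ex.card * ℓ := by gcongr
        _ ≤ 6 * T * W ^ 4 * P := h1
        _ ≤ 6 * T * W ^ 4 * (p ^ 3 * W ^ 6) := by gcongr
        _ = 6 * p ^ 3 * T * W ^ 10 := by ring
        _ ≤ 6 * p ^ 3 * T * (σ * T) := by gcongr
        _ = (σ * (6 * p ^ 3)) * (T * T) := by ring
        _ ≤ (δ * ε) * (T * T) := by gcongr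
        _ = (ε * T) * (δ * T) := by ring
    exact le_of_mul_le_mul_right h2 (by positivity)
  · intro n hne hnT hn2 hnEx x hx0 hxn
    have hnR : (T : ℝ) < n := by exact_mod_cast hnT
    have hn0 : (0 : ℝ) < n := hTR.trans hnR
    by_cases hxs : x ≤ θ * n
    · -- small `x`
      have h1 : q * x ^ 2 / 2 ≤ η * (n : ℝ) ^ 2 := by
        have h2 : x ^ 2 ≤ (θ * n) ^ 2 := by gcongr
        have h3 : θ ^ 2 ≤ θ := by nlinarith
        calc q * x ^ 2 / 2 ≤ q * (θ * n) ^ 2 / 2 := by gcongr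
          _ = (θ ^ 2 * q) * (n : ℝ) ^ 2 / 2 := by ring
          _ ≤ (θ * q) * (n : ℝ) ^ 2 / 2 := by gcongr
          _ ≤ η * (n : ℝ) ^ 2 / 2 := by gcongr
          _ ≤ η * (n : ℝ) ^ 2 := by
            have : 0 ≤ η * (n : ℝ) ^ 2 := by positivity
            linarith
      have h4 := Gf_nonneg (toQ (Um D.toGam n)) x
      linarith
    · rw [not_le] at hxs
      have hxT : 9 * (δ * T) < x := by
        have h1 : θ * T < θ * n := by gcongr
        have h2 : θ = 9 * δ := by rw [hδ]; ring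
        rw [h2] at h1 hxs
        linarith
      set y : ℕ := ⌊x⌋₊ with hy
      have hy1 : (y : ℝ) ≤ x := Nat.floor_le hx0
      have hy2 : x < y + 1 := Nat.lt_floor_add_one x
      have hya : 2 * ℓ ≤ y := by
        have : (2 * ℓ : ℝ) ≤ y := by linarith
        exact_mod_cast this
      obtain ⟨a, ha⟩ : ∃ a, a = y - 2 * ℓ := ⟨_, rfl⟩
      have hay : a + 2 * ℓ = y := by omega
      have hayR : (a : ℝ) + 2 * ℓ = y := by exact_mod_cast hay
      have ha6 : 6 * (δ * T) ≤ a := by linarith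
      have ha1 : 1 ≤ a := by
        have : (0 : ℝ) < a := by linarith
        exact_mod_cast this
      have hTa : T ≤ W * a := by
        have h1 : 1 / (6 * δ) ≤ (W : ℝ) := (Nat.le_ceil _).trans (by
          exact_mod_cast le_trans (le_max_right _ _) hWK)
        rw [div_le_iff₀ (by positivity)] at h1
        have h2 : (T : ℝ) ≤ W * a := by
          calc (T : ℝ) = 1 * T := (one_mul _).symm
            _ ≤ W * (6 * δ) * T := by gcongr
            _ = W * (6 * (δ * T)) := by ring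
            _ ≤ W * a := by gcongr
        exact_mod_cast h2
      have hna : (p + 1) * (a + 2 * ℓ) ≤ n := by
        rw [hay]
        have h1 : ((p : ℝ) + 1) * y ≤ n := by
          calc ((p : ℝ) + 1) * y ≤ (p + 1) * x := by gcongr
            _ = x * (p + 1) := mul_comm _ _
            _ ≤ n := hxn
        exact_mod_cast h1
      obtain ⟨M, hMa, hMu, _, hnorm⟩ := hEx n hne hn2 hnEx a ha1 hTa hna
      have hmd : n % (p - 1) + (p - 1) * (n / (p - 1)) = n := Nat.mod_add_div _ _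
      have hnm : Even (n % (p - 1)) := (hp1e.mod_even_iff).2 hne
      obtain ⟨r, hr⟩ : ∃ r, r = (p + 1) * h * M - u M := ⟨_, rfl⟩
      rw [← hr] at hnorm
      have hG := hGf (F (n % (p - 1))) (hF _ hnm) (n / (p - 1)) (by rw [hmd]; omega)
        (by rw [hmd]; omega) r x (by
          rw [hmd]
          nlinarith)
      have hG' : Gf (toQ (Um D.toGam (n % (p - 1) + (p - 1) * (n / (p - 1))))) x =
          Gf (toQ (Um D.toGam n)) x :=
        congrArg (fun m => Gf (toQ (Um D.toGam m)) x) hmd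
      rw [hG'] at hG
      have h1 := hnorm.trans_le hG
      rw [Real.rpow_lt_rpow_left_iff hp1] at h1
      -- `r` is near `q x`
      have hM1 : 1 ≤ M := le_trans ha1 hMa
      have huM : u M ≤ (p + 1) * h * M := (hu M).trans (Nat.le_mul_of_pos_right _ hM1)
      have hrR : (r : ℝ) = q * M - u M := by
        rw [hr, Nat.cast_sub huM]
        push_cast
        rw [hq]
      have huR : (u M : ℝ) ≤ q := by
        have := hu M
        rw [hq]
        exact_mod_cast this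
      have hu0 : (0 : ℝ) ≤ u M := Nat.cast_nonneg _
      have hMaR : (a : ℝ) ≤ M := by exact_mod_cast hMa
      have hMuR : (M : ℝ) ≤ a + 2 * ℓ := by exact_mod_cast hMu.le
      have hd1 : r - q * x ≤ q * (2 * ℓ + 2) := by
        rw [hrR]
        have : q * M ≤ q * x := by
          gcongr
          linarith
        have h3 : 0 ≤ q * (2 * ℓ + 2) := by positivity
        linarith
      have hd2 : -(q * (2 * ℓ + 2)) ≤ r - q * x := by
        rw [hrR]
        have : q * x ≤ q * (M + 2 * ℓ + 1) := by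
          gcongr
          linarith
        nlinarith
      have hsq : (r - q * x) ^ 2 ≤ (q * (2 * ℓ + 2)) ^ 2 := sq_le_sq' hd2 hd1
      have hq0 : 0 < q := by linarith
      have h5 : (r : ℝ) * x - (r : ℝ) ^ 2 / (2 * q) = q * x ^ 2 / 2 - (r - q * x) ^ 2 / (2 * q) := by
        field_simp
        ring
      have h6 : (r - q * x) ^ 2 / (2 * q) ≤ η * (n : ℝ) ^ 2 / 2 := by
        have h7 : (q * (2 * ℓ + 2)) ^ 2 ≤ (q * (3 * (δ * T))) ^ 2 := by
          gcongr
          linarith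
        have h8 : (r - q * x) ^ 2 / (2 * q) ≤ (q * (3 * (δ * T))) ^ 2 / (2 * q) :=
          div_le_div_of_nonneg_right (hsq.trans h7) (by positivity)
        refine h8.trans ?_
        have h9 : (q * (3 * (δ * T))) ^ 2 / (2 * q) = (9 * δ * q) * δ * T ^ 2 / 2 := by
          field_simp
          ring
        rw [h9]
        have h10 : 9 * δ * q ≤ η := by
          have : 9 * δ = θ := by rw [hδ]; ring
          rw [this]; exact hθq
        have h11 : δ ≤ 1 := by rw [hδ]; linarith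
        calc (9 * δ * q) * δ * (T : ℝ) ^ 2 / 2 ≤ η * 1 * (n : ℝ) ^ 2 / 2 := by gcongr
          _ = η * (n : ℝ) ^ 2 / 2 := by ring
      have h12 : 30 * (p : ℝ) ^ 2 * h * T * W ≤ η * (n : ℝ) ^ 2 / 4 := by
        calc 30 * (p : ℝ) ^ 2 * h * T * W ≤ 30 * (p : ℝ) ^ 2 * h * T * W ^ 10 := by gcongr
          _ ≤ 30 * (p : ℝ) ^ 2 * h * T * (σ * T) := by gcongr
          _ = (σ * (120 * p ^ 2 * h)) * T ^ 2 / 4 := by ring
          _ ≤ η * (n : ℝ) ^ 2 / 4 := by gcongr
      have h13 : 0 ≤ η * (n : ℝ) ^ 2 := by positivity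
      linarith

open Classical in
/-- `few_exceptional` from its inputs. -/
theorem few_exceptional_of (hp : 5 ≤ p) (hh : 1 ≤ h) (D : Dat p h E V) {V0 : ℕ}
    (hmain : MainBadStat p h V0) (hfam : ExistsFamStat D) (hGf : GfFamStat D)
    (η ε : ℝ) (hη : 0 < η) (hε : 0 < ε) :
    ∃ N0 : ℕ, ∀ N ≥ N0, (((range N).filter fun n : ℕ => Even n ∧ ∃ x : ℝ, 0 ≤ x ∧
      x * (p + 1) ≤ n ∧ Gf (toQ (Um D.toGam n)) x <
        ((p : ℝ) + 1) * h * x ^ 2 / 2 - η * (n : ℝ) ^ 2).card : ℝ) ≤ ε * N := by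
  obtain ⟨T0, hT01, hT0⟩ := exc_dyadic hp hh D hmain hfam hGf η (ε / 4) hη (by positivity)
  let B : ℕ → Prop := fun n => Even n ∧ ∃ x : ℝ, 0 ≤ x ∧
      x * (p + 1) ≤ n ∧ Gf (toQ (Um D.toGam n)) x <
        ((p : ℝ) + 1) * h * x ^ 2 / 2 - η * (n : ℝ) ^ 2
  have hrec : ∀ T, T0 ≤ T → ∀ N, N ≤ 2 * T + 1 →
      (((range N).filter B).card : ℝ) ≤ ((range (T + 1)).filter B).card + ε / 4 * T := by
    intro T hT N hN
    obtain ⟨Ex, hExc, hEx⟩ := hT0 T hT
    have hsub : (range N).filter B ⊆ (range (T + 1)).filter B ∪ Ex := by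
      intro n hn
      obtain ⟨hnN, hnB⟩ := mem_filter.1 hn
      rw [mem_range] at hnN
      rw [mem_union, mem_filter, mem_range]
      by_cases hnT : n < T + 1
      · exact Or.inl ⟨hnT, hnB⟩
      · right
        by_contra hnEx
        obtain ⟨hne, x, hx0, hxn, hx⟩ := hnB
        exact absurd (hEx n hne (by omega) (by omega) hnEx x hx0 hxn) (not_le.2 hx)
    have h1 : ((range N).filter B).card ≤ ((range (T + 1)).filter B).card + Ex.card :=
      (card_le_card hsub).trans (card_union_le _ _)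
    have h2 : (((range N).filter B).card : ℝ) ≤ ((range (T + 1)).filter B).card + Ex.card := by
      exact_mod_cast h1
    linarith
  have hind : ∀ N : ℕ, (((range N).filter B).card : ℝ) ≤ ε / 2 * N + (2 * T0 + 4) := by
    intro N
    induction N using Nat.strong_induction_on with
    | _ N ih =>
      by_cases hN : N < 2 * T0 + 4
      · have h1 : ((range N).filter B).card ≤ N := by
          refine (card_filter_le _ _).trans ?_
          rw [card_range]
        have h2 : (((range N).filter B).card : ℝ) ≤ 2 * T0 + 4 := by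
          have : ((range N).filter B).card ≤ 2 * T0 + 4 := by omega
          exact_mod_cast this
        have h3 : 0 ≤ ε / 2 * (N : ℝ) := by positivity
        linarith
      · obtain ⟨T, hT⟩ : ∃ T, T = N / 2 := ⟨_, rfl⟩
        have h1 := hrec T (by omega) N (by omega)
        have h2 := ih (T + 1) (by omega)
        have h3 : (2 * T : ℝ) ≤ N := by
          have : 2 * T ≤ N := by omega
          exact_mod_cast this
        have h4 : (2 : ℝ) ≤ T := by
          have : 2 ≤ T := by omega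
          exact_mod_cast this
        push_cast at h2
        nlinarith
  refine ⟨⌈(2 * (T0 : ℝ) + 4) * 2 / ε⌉₊, fun N hN => ?_⟩
  have h1 := hind N
  have h2 : (2 * (T0 : ℝ) + 4) * 2 / ε ≤ N := (Nat.le_ceil _).trans (by exact_mod_cast hN)
  rw [div_le_iff₀ hε] at h2
  have h3 : (((range N).filter B).card : ℝ) ≤ ε * N := by linarith
  exact h3

end

end Gouvea
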