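import Pool.Agent.Work.MP_d3517d_nt.Basic2

/-! The weight family of the slash action, as power series in `z` over `ℚ_p[κ]`. -/

open Polynomial Finset

noncomputable section

namespace Gouvea

variable (p : ℕ) [Fact p.Prime]

/-- the weight `n0 + (p - 1) κ` as an element of `ℚ_p[κ]` -/
def wtP (n0 : ℕ) : ℚ_[p][X] := C (n0 : ℚ_[p]) + C ((p : ℚ_[p]) - 1) * X

/-- the truncated binomial expansion of `d ^ ((p - 1) κ)` -/
def Pd (J : ℕ) (d : ℚ_[p]) : ℚ_[p][X] :=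
  ∑ t ∈ range J, Ring.choose (X : ℚ_[p][X]) t * C ((d ^ (p - 1) - 1) ^ t)

variable {p}

/-- `z^j |_κ γ` -/
def famS (n0 J : ℕ) (g : Matrix (Fin 2) (Fin 2) ℤ_[p]) (j : ℕ) : PowerSeries (ℚ_[p][X]) :=
  PowerSeries.C (C ((g 1 1 : ℚ_[p]) ^ ((n0 : ℤ) - (j : ℤ))) * Pd p J (g 1 1 : ℚ_[p])) *
    PowerSeries.rescale (C ((g 1 0 : ℚ_[p]) / (g 1 1 : ℚ_[p])))
      (PowerSeries.binomialSeries (ℚ_[p][X]) (wtP p n0 - (j : ℚ_[p][X]))) *
    (PowerSeries.C (C (g 0 0 : ℚ_[p])) * PowerSeries.X + PowerSeries.C (C (g 0 1 : ℚ_[p]))) ^ j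

end Gouvea
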