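import Pool.Agent.Work.MP_d3517d_nt.Basic

/-!
# M1: the functions `φ` and `ψ`
-/

open Polynomial Finset

noncomputable section

namespace Gouvea

variable {p : ℕ} [Fact p.Prime]

theorem psi_mono : Monotone (psi p) := by
  intro a b hab
  unfold psi
  have h1 : (a / p).factorial ∣ (b / p).factorial :=
    Nat.factorial_dvd_factorial (Nat.div_le_div_right hab)
  exact (padicValNat_dvd_iff_le (Nat.factorial_ne_zero _)).1 (pow_padicValNat_dvd.trans h1)

theorem val_factorial (i : ℕ) :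
    padicValNat p i.factorial = i / p + padicValNat p (i / p).factorial := by
  rw [← padicValNat_mul_div_factorial i, padicValNat_factorial_mul]
  ring

theorem sub_one_mul_val (i : ℕ) :
    (p - 1) * padicValNat p i.factorial + (Nat.digits p i).sum = i := by
  rw [sub_one_mul_padicValNat_factorial]
  exact Nat.sub_add_cancel (Nat.digit_sum_le p i)

theorem val_factorial_le (i : ℕ) : padicValNat p i.factorial ≤ i := by
  have h := sub_one_mul_val (p := p) i
  have hp : 1 ≤ p - 1 := by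
    have := (Fact.out : p.Prime).two_le
    omega
  have : 1 * padicValNat p i.factorial ≤ (p - 1) * padicValNat p i.factorial :=
    Nat.mul_le_mul_right _ hp
  omega

/-- `φ + ψ = i - ⌊i/p⌋`. -/
theorem phi_add_psi (i : ℕ) : phi p i + psi p i + i / p = i := by
  have h1 := val_factorial (p := p) i
  have h2 := val_factorial_le (p := p) i
  unfold phi psi
  omega

/-- `(p - 1) φ(i) = (p - 2) i + s_p(i)` -/
theorem phi_digits (i : ℕ) :
    ((p : ℝ) - 1) * phi p i = ((p : ℝ) - 2) * i + ((Nat.digits p i).sum : ℝ) := by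
  have h1 := sub_one_mul_val (p := p) i
  have h2 := val_factorial_le (p := p) i
  have hp := (Fact.out : p.Prime).two_le
  unfold phi
  rw [Nat.cast_sub h2]
  have h3 : ((p : ℝ) - 1) * (padicValNat p i.factorial : ℝ) + ((Nat.digits p i).sum : ℝ) = i := by
    have : ((p - 1 : ℕ) : ℝ) = (p : ℝ) - 1 := by
      rw [Nat.cast_sub (by omega)]
      simp
    rw [← this]
    exact_mod_cast h1
  linear_combination -h3

theorem digits_sum_le {V i : ℕ} (hi : i < p ^ (V + 1)) : (Nat.digits p i).sum ≤ (p - 1) * (V + 1) := by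
  have hp := (Fact.out : p.Prime).two_le
  have h1 : (Nat.digits p i).length ≤ V + 1 := (Nat.digits_length_le_iff (by omega) i).2 hi
  have h2 : (Nat.digits p i).sum ≤ (Nat.digits p i).length • (p - 1) := by
    refine List.sum_le_card_nsmul _ _ fun d hd => ?_
    have := Nat.digits_lt_base (by omega : 1 < p) hd
    omega
  rw [smul_eq_mul] at h2
  calc (Nat.digits p i).sum ≤ (Nat.digits p i).length * (p - 1) := h2
    _ ≤ (V + 1) * (p - 1) := Nat.mul_le_mul_right _ h1
    _ = (p - 1) * (V + 1) := Nat.mul_comm _ _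

theorem phi_sub_ge (hp : 5 ≤ p) {V i j : ℕ} (hi : i < p ^ (V + 1)) :
    ((p : ℝ) - 2) / (p - 1) * ((j : ℝ) - i) - (V + 1) ≤ (phi p j : ℝ) - phi p i := by
  have hp' : (5 : ℝ) ≤ p := by exact_mod_cast hp
  have h1 := phi_digits (p := p) i
  have h2 := phi_digits (p := p) j
  have h3 : ((Nat.digits p i).sum : ℝ) ≤ ((p : ℝ) - 1) * (V + 1) := by
    have h4 := digits_sum_le hi
    have : ((p - 1 : ℕ) : ℝ) = (p : ℝ) - 1 := by
      rw [Nat.cast_sub (by omega)]
      simp
    rw [← this]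
    exact_mod_cast h4
  have h4 : (0 : ℝ) ≤ ((Nat.digits p j).sum : ℝ) := Nat.cast_nonneg _
  have h5 : (0 : ℝ) < (p : ℝ) - 1 := by linarith
  rw [div_mul_eq_mul_div, sub_le_iff_le_add, div_le_iff₀ h5]
  nlinarith

theorem phi_up (hp : 5 ≤ p) {M V j : ℕ} (hM : 1 ≤ M) (hV : M < p ^ (V + 1)) (hj : M ≤ j + 1) :
    ((p : ℝ) - 2) / (p - 1) * ((j : ℝ) - M + 1) - (V + 1) ≤ (phi p j : ℝ) - phi p (M - 1) := by
  have h := phi_sub_ge (p := p) hp (V := V) (i := M - 1) (j := j) (by omega)
  rw [Nat.cast_sub hM] at h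
  have h1 : (j : ℝ) - ((M : ℝ) - (1 : ℕ)) = (j : ℝ) - M + 1 := by push_cast; ring
  rwa [h1] at h

theorem phi_down (hp : 5 ≤ p) {M V i : ℕ} (hM : 1 ≤ M) (hV : M < p ^ (V + 1)) (hi : i < M) :
    ((p : ℝ) - 2) / (p - 1) * ((M : ℝ) - 1 - i) - (V + 1) ≤ (phi p (M - 1) : ℝ) - phi p i := by
  have h := phi_sub_ge (p := p) hp (V := V) (i := i) (j := M - 1) (by omega)
  rw [Nat.cast_sub hM] at h
  have h1 : ((M : ℝ) - (1 : ℕ)) - (i : ℝ) = (M : ℝ) - 1 - i := by push_cast; ring
  rwa [h1] at h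

end Gouvea
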