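import Pool.Agent.Work.MP_d3517d_nt.GBTool
import Pool.Agent.Work.MP_d3517d_nt.PhiPsi
import Pool.Agent.Work.MP_d3517d_nt.FamDef

/-!
# M9b, part 1: the power series of the family

`F = d^{n0} P_d(κ) (1 + (c/d) z)^{n0 + (p-1) κ}` and `y = (a z + b) / (c z + d)`, as power series in
`z` over `ℚ_p[κ]`; `z^j |_κ γ = F y^j`.
-/

open Polynomial Finset

noncomputable section

namespace Gouvea

variable {p : ℕ} [Fact p.Prime]

/-- `f ∈ p^k A`: the coefficient of `z^i` has Gauss valuation `≥ φ(i) + k` -/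
def InA (f : PowerSeries ℚ_[p][X]) (k : ℤ) : Prop :=
  ∀ i, GB p (PowerSeries.coeff i f) ((phi p i : ℤ) + k)

theorem fm_phi_add_le (i j : ℕ) : phi p (i + j) ≤ phi p i + phi p j := by
  have h1 := val_factorial_le (p := p) i
  have h2 := val_factorial_le (p := p) j
  have h3 := val_factorial_le (p := p) (i + j)
  have h4 : padicValNat p i.factorial + padicValNat p j.factorial ≤
      padicValNat p (i + j).factorial := by
    rw [← padicValNat.mul (Nat.factorial_ne_zero i) (Nat.factorial_ne_zero j)]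
    exact (padicValNat_dvd_iff_le (Nat.factorial_ne_zero _)).1
      (pow_padicValNat_dvd.trans (Nat.factorial_mul_factorial_dvd_factorial_add i j))
  unfold phi
  omega

omit [Fact p.Prime] in
theorem fm_phi_zero : phi p 0 = 0 := by simp [phi]

omit [Fact p.Prime] in
theorem fm_phi_one : phi p 1 = 1 := by simp [phi]

omit [Fact p.Prime] in
theorem fm_phi_le (i : ℕ) : phi p i ≤ i := Nat.sub_le _ _

theorem InA.mono {f : PowerSeries ℚ_[p][X]} {k l : ℤ} (h : InA f k) (hl : l ≤ k) : InA f l :=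
  fun i => (h i).mono (by omega)

theorem InA.mul {f g : PowerSeries ℚ_[p][X]} {k l : ℤ} (hf : InA f k) (hg : InA g l) :
    InA (f * g) (k + l) := fun i => by
  rw [PowerSeries.coeff_mul]
  refine GB.sum fun x hx => ?_
  refine ((hf x.1).mul (hg x.2)).mono ?_
  have h1 : x.1 + x.2 = i := mem_antidiagonal.1 hx
  have h2 := fm_phi_add_le (p := p) x.1 x.2
  rw [h1] at h2
  have h3 : ((phi p i : ℕ) : ℤ) ≤ ((phi p x.1 + phi p x.2 : ℕ) : ℤ) := by exact_mod_cast h2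
  push_cast at h3
  omega

theorem InA.add {f g : PowerSeries ℚ_[p][X]} {k : ℤ} (hf : InA f k) (hg : InA g k) :
    InA (f + g) k := fun i => by
  rw [map_add]
  exact (hf i).add (hg i)

theorem InA.neg {f : PowerSeries ℚ_[p][X]} {k : ℤ} (hf : InA f k) : InA (-f) k := fun i => by
  rw [map_neg]
  exact (hf i).neg

theorem InA.C {F : ℚ_[p][X]} {k : ℤ} (hF : GB p F k) : InA (PowerSeries.C F) k := fun i => by
  rw [PowerSeries.coeff_C]
  split_ifs with h
  · rw [h, fm_phi_zero]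
    exact hF.mono (by simp)
  · exact GB.zero _

theorem InA.one : InA (1 : PowerSeries ℚ_[p][X]) 0 := by
  rw [← map_one (PowerSeries.C (R := ℚ_[p][X]))]
  exact InA.C GB.one

theorem InA.pow {f : PowerSeries ℚ_[p][X]} (hf : InA f 0) (n : ℕ) : InA (f ^ n) 0 := by
  induction n with
  | zero => rw [pow_zero]; exact InA.one
  | succ n ih =>
    rw [pow_succ]
    have := ih.mul hf
    rwa [add_zero] at this

/-! ### The binomial series -/

/-- `(1 + x z)^m` -/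
def bs (m : ℚ_[p][X]) (x : ℚ_[p]) : PowerSeries ℚ_[p][X] :=
  PowerSeries.rescale (C x) (PowerSeries.binomialSeries ℚ_[p][X] m)

theorem coeff_bs (m : ℚ_[p][X]) (x : ℚ_[p]) (l : ℕ) :
    PowerSeries.coeff l (bs m x) = C (x ^ l) * Ring.choose m l := by
  rw [bs, PowerSeries.coeff_rescale, PowerSeries.binomialSeries_coeff, smul_eq_mul, mul_one,
    C_pow]

theorem bs_add (m k : ℚ_[p][X]) (x : ℚ_[p]) : bs (m + k) x = bs m x * bs k x := by
  rw [bs, PowerSeries.binomialSeries_add, map_mul]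
  rfl

theorem bs_zero (x : ℚ_[p]) : bs 0 x = 1 := by
  rw [bs, PowerSeries.binomialSeries_zero, map_one]

theorem bs_one (x : ℚ_[p]) : bs 1 x = 1 + PowerSeries.C (C x) * PowerSeries.X := by
  have h : (1 : ℚ_[p][X]) = ((1 : ℕ) : ℚ_[p][X]) := by simp
  rw [bs, h, PowerSeries.binomialSeries_nat, pow_one, map_add, map_one, PowerSeries.rescale_X]

/-- `(1 + x z)^{-1}` -/
theorem bs_neg_one (x : ℚ_[p]) : bs (-1) x * (1 + PowerSeries.C (C x) * PowerSeries.X) = 1 := by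
  rw [← bs_one, ← bs_add, neg_add_cancel, bs_zero]

theorem fm_factorial_mul_choose (m : ℚ_[p][X]) (l : ℕ) :
    ((l.factorial : ℕ) : ℚ_[p][X]) * Ring.choose m l =
      ∏ i ∈ range l, (m - (i : ℚ_[p][X])) := by
  have h := Ring.descPochhammer_eq_factorial_smul_choose m l
  rw [nsmul_eq_mul] at h
  rw [← h]
  clear h
  induction l with
  | zero => simp
  | succ l ih =>
    rw [descPochhammer_succ_right, Polynomial.smeval_mul, ih, prod_range_succ]
    congr 1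
    simp [Polynomial.smeval_sub, Polynomial.smeval_natCast]

theorem fm_GB_choose_mul {m : ℚ_[p][X]} (hm : GB p m 0) {x : ℚ_[p]} (hx : VB p x 1) (l : ℕ) :
    GB p (C (x ^ l) * Ring.choose m l) (phi p l) := by
  have hl0 : ((l.factorial : ℕ) : ℚ_[p]) ≠ 0 := by exact_mod_cast Nat.factorial_ne_zero l
  have h1 : C (x ^ l) * Ring.choose m l =
      C (x ^ l * ((l.factorial : ℕ) : ℚ_[p])⁻¹) * ∏ i ∈ range l, (m - (i : ℚ_[p][X])) := by
    rw [← fm_factorial_mul_choose, C_mul, mul_assoc, ← mul_assoc (C _) ((l.factorial : ℕ) : ℚ_[p][X])]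
    have : C (((l.factorial : ℕ) : ℚ_[p])⁻¹) * ((l.factorial : ℕ) : ℚ_[p][X]) = 1 := by
      rw [← map_natCast (C : ℚ_[p] →+* ℚ_[p][X]) l.factorial, ← C_mul, inv_mul_cancel₀ hl0, C_1]
    rw [this, one_mul]
  have h2 : VB p (x ^ l * ((l.factorial : ℕ) : ℚ_[p])⁻¹) (phi p l) := by
    unfold VB at *
    have h3 : ‖((l.factorial : ℕ) : ℚ_[p])‖ = (p : ℝ) ^ (-(padicValNat p l.factorial : ℤ)) := by
      rw [Padic.norm_eq_zpow_neg_valuation hl0, Padic.valuation_natCast]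
    have h4 : phi p l = l - padicValNat p l.factorial := rfl
    have h5 := val_factorial_le (p := p) l
    rw [norm_mul, norm_inv, norm_pow, h3, h4, Nat.cast_sub h5, ← zpow_neg, neg_neg, neg_sub,
      sub_eq_add_neg, zpow_add₀ p_pos.ne', mul_comm]
    refine mul_le_mul_of_nonneg_left ?_ (zpow_nonneg p_pos.le _)
    calc ‖x‖ ^ l ≤ ((p : ℝ) ^ (-1 : ℤ)) ^ l := pow_le_pow_left₀ (norm_nonneg _) hx l
      _ = (p : ℝ) ^ (-(l : ℤ)) := by
        rw [← zpow_natCast, ← zpow_mul]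
        congr 1
        ring
  have h3 : GB p (∏ i ∈ range l, (m - (i : ℚ_[p][X]))) 0 := by
    refine GB.prod_zero fun i _ => ?_
    refine hm.sub ?_
    rw [← map_natCast (C : ℚ_[p] →+* ℚ_[p][X]) i]
    refine GB.C ?_
    have := VB.intCast (p := p) (i : ℤ)
    simpa using this
  rw [h1]
  have := (GB.C h2).mul h3
  rwa [add_zero] at this

theorem InA_bs {m : ℚ_[p][X]} (hm : GB p m 0) {x : ℚ_[p]} (hx : VB p x 1) : InA (bs m x) 0 :=
  fun l => by
    rw [coeff_bs, add_zero]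
    exact fm_GB_choose_mul hm hx l

/-! ### The character part -/

theorem fm_GB_X : GB p (X : ℚ_[p][X]) 0 := fun i => by
  rw [coeff_X]
  split_ifs
  · exact VB.one
  · exact VB.zero _

theorem GB_Pd (J : ℕ) {d : ℚ_[p]} (hd : VB p (d ^ (p - 1) - 1) 1) : GB p (Pd p J d) 0 := by
  refine GB.sum fun t _ => ?_
  rw [mul_comm]
  exact (fm_GB_choose_mul fm_GB_X hd t).mono (by positivity)

theorem wtP_eq (n0 : ℕ) : wtP p n0 = (n0 : ℚ_[p][X]) + ((p - 1 : ℕ) : ℚ_[p][X]) * X := by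
  have hp := (Fact.out : p.Prime).one_le
  rw [wtP, Nat.cast_sub hp]
  simp

theorem fm_GB_natCast (n : ℕ) : GB p ((n : ℕ) : ℚ_[p][X]) 0 := by
  rw [← map_natCast (C : ℚ_[p] →+* ℚ_[p][X]) n]
  refine GB.C ?_
  have := VB.intCast (p := p) (n : ℤ)
  simpa using this

theorem GB_wtP (n0 : ℕ) : GB p (wtP p n0) 0 := by
  rw [wtP_eq]
  refine (fm_GB_natCast n0).add ?_
  have := (fm_GB_natCast (p := p) (p - 1)).mul fm_GB_X
  rwa [add_zero] at this

/-- the factor `F` -/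
def FF (p : ℕ) [Fact p.Prime] (n0 J : ℕ) (c d : ℚ_[p]) : PowerSeries ℚ_[p][X] :=
  PowerSeries.C (C (d ^ n0) * Pd p J d) * bs (wtP p n0) (c / d)

/-- `y = (a z + b) / (c z + d)` -/
def yy (a b c d : ℚ_[p]) : PowerSeries ℚ_[p][X] :=
  (PowerSeries.C (C (a / d)) * PowerSeries.X + PowerSeries.C (C (b / d))) * bs (-1) (c / d)

/-- the unit hypothesis in terms of the norm -/
theorem fm_VB_div {x d : ℚ_[p]} {k : ℤ} (hx : VB p x k) (hd : ‖d‖ = 1) : VB p (x / d) k := by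
  unfold VB at *
  rw [norm_div, hd, div_one]
  exact hx

theorem InA_FF (n0 J : ℕ) {c d : ℚ_[p]} (hc : VB p c 1) (hd : ‖d‖ = 1)
    (hd' : VB p (d ^ (p - 1) - 1) 1) : InA (FF p n0 J c d) 0 := by
  have h1 : GB p (C (d ^ n0) * Pd p J d) 0 := by
    have h2 : VB p (d ^ n0) 0 := by
      unfold VB
      rw [norm_pow, hd, one_pow, neg_zero, zpow_zero]
    have := (GB.C h2).mul (GB_Pd J hd')
    rwa [add_zero] at this
  have := (InA.C h1).mul (InA_bs (GB_wtP n0) (fm_VB_div hc hd))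
  rwa [add_zero] at this

theorem InA_yy {a b c d : ℚ_[p]} (ha : VB p a 1) (hb : VB p b 0) (hc : VB p c 1)
    (hd : ‖d‖ = 1) : InA (yy a b c d) 0 := by
  have h1 : InA (PowerSeries.C (C (a / d)) * PowerSeries.X + PowerSeries.C (C (b / d))) 0 := by
    refine InA.add ?_ (InA.C (GB.C (fm_VB_div hb hd)))
    intro i
    rw [PowerSeries.coeff_C_mul, PowerSeries.coeff_X]
    split_ifs with h
    · rw [h, fm_phi_one, mul_one]
      exact (GB.C (fm_VB_div ha hd)).mono (by norm_num)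
    · rw [mul_zero]
      exact GB.zero _
  have h2 : InA (bs (-1 : ℚ_[p][X]) (c / d)) 0 := InA_bs GB.one.neg (fm_VB_div hc hd)
  have := h1.mul h2
  rwa [add_zero] at this

theorem bs_sub_nat (m : ℚ_[p][X]) (x : ℚ_[p]) (j : ℕ) :
    bs (m - (j : ℚ_[p][X])) x = bs m x * bs (-1) x ^ j := by
  induction j with
  | zero => simp
  | succ j ih =>
    rw [pow_succ, ← mul_assoc, ← ih, ← bs_add]
    congr 1
    push_cast
    ring

/-- the family in the form `F y^j` -/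
theorem fm_famS_eq (n0 J : ℕ) (g : Matrix (Fin 2) (Fin 2) ℤ_[p]) (hd : (g 1 1 : ℚ_[p]) ≠ 0)
    (j : ℕ) : famS n0 J g j = FF p n0 J (g 1 0 : ℚ_[p]) (g 1 1 : ℚ_[p]) *
      yy (g 0 0 : ℚ_[p]) (g 0 1 : ℚ_[p]) (g 1 0 : ℚ_[p]) (g 1 1 : ℚ_[p]) ^ j := by
  have h1 : PowerSeries.rescale (C ((g 1 0 : ℚ_[p]) / (g 1 1 : ℚ_[p])))
      (PowerSeries.binomialSeries (ℚ_[p][X]) (wtP p n0 - (j : ℚ_[p][X]))) =
      bs (wtP p n0) ((g 1 0 : ℚ_[p]) / (g 1 1 : ℚ_[p])) *
        bs (-1) ((g 1 0 : ℚ_[p]) / (g 1 1 : ℚ_[p])) ^ j := bs_sub_nat _ _ _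
  have h2 : (PowerSeries.C (C ((g 0 0 : ℚ_[p]) / (g 1 1 : ℚ_[p]))) * PowerSeries.X +
      PowerSeries.C (C ((g 0 1 : ℚ_[p]) / (g 1 1 : ℚ_[p]))) : PowerSeries ℚ_[p][X]) =
      PowerSeries.C (C ((g 1 1 : ℚ_[p])⁻¹)) * (PowerSeries.C (C (g 0 0 : ℚ_[p])) * PowerSeries.X +
        PowerSeries.C (C (g 0 1 : ℚ_[p]))) := by
    rw [div_eq_inv_mul, div_eq_inv_mul, C_mul, C_mul, map_mul, map_mul]
    ring
  have h3 : C ((g 1 1 : ℚ_[p]) ^ ((n0 : ℤ) - (j : ℤ))) =
      C ((g 1 1 : ℚ_[p]) ^ n0) * C ((g 1 1 : ℚ_[p])⁻¹) ^ j := by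
    rw [zpow_sub₀ hd, zpow_natCast, zpow_natCast, div_eq_mul_inv, C_mul, ← C_pow, inv_pow]
  have h4 : (PowerSeries.C (C ((g 1 1 : ℚ_[p])⁻¹) ^ j) : PowerSeries ℚ_[p][X]) =
      PowerSeries.C (C ((g 1 1 : ℚ_[p])⁻¹)) ^ j := map_pow _ _ _
  rw [famS, h1, FF, yy, h2, h3, mul_pow, mul_pow, map_mul, map_mul, map_mul, h4]
  ring

end Gouvea
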