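import Pool.Agent.Work.MP_d3517d_nt.Fam1

/-!
# M9b, part 2: the values of the family at integer weights
-/

open Polynomial Finset

noncomputable section

namespace Gouvea

variable {p : ℕ} [Fact p.Prime]

theorem fm_norm_unit {x : ℤ_[p]} (hx : IsUnit x) : ‖(x : ℚ_[p])‖ = 1 := PadicInt.isUnit_iff.1 hx

theorem fm_unit_ne {x : ℤ_[p]} (hx : IsUnit x) : (x : ℚ_[p]) ≠ 0 := by
  intro h
  have := fm_norm_unit hx
  rw [h, norm_zero] at this
  exact zero_ne_one this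

/-- the matrix coefficient of the family: coefficient of `z^i` in `z^j |_κ γ` -/
def slk (n0 J : ℕ) (g : Matrix (Fin 2) (Fin 2) ℤ_[p]) (i j : ℕ) : ℚ_[p][X] :=
  PowerSeries.coeff i (famS n0 J g j)

/-- evaluation of the coefficients at `κ` -/
def evk (κ : ℕ) : PowerSeries ℚ_[p][X] →+* PowerSeries ℚ_[p] :=
  PowerSeries.map (Polynomial.evalRingHom (κ : ℚ_[p]))

theorem coeff_evk (κ : ℕ) (f : PowerSeries ℚ_[p][X]) (i : ℕ) :
    PowerSeries.coeff i (evk κ f) = (PowerSeries.coeff i f).eval (κ : ℚ_[p]) := by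
  rw [evk, PowerSeries.coeff_map]
  rfl

theorem evk_C (κ : ℕ) (F : ℚ_[p][X]) : evk κ (PowerSeries.C F) =
    PowerSeries.C (F.eval (κ : ℚ_[p])) := by
  rw [evk, PowerSeries.map_C]
  rfl

theorem evk_X (κ : ℕ) : evk κ (PowerSeries.X : PowerSeries ℚ_[p][X]) = PowerSeries.X := by
  rw [evk, PowerSeries.map_X]

theorem evk_bs (κ : ℕ) (m : ℚ_[p][X]) (x : ℚ_[p]) : evk κ (bs m x) =
    PowerSeries.rescale x (PowerSeries.binomialSeries ℚ_[p] (m.eval (κ : ℚ_[p]))) := by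
  ext l
  rw [coeff_evk, coeff_bs, PowerSeries.coeff_rescale, PowerSeries.binomialSeries_coeff,
    smul_eq_mul, mul_one, eval_mul, eval_C]
  congr 1
  have := Ring.map_choose (Polynomial.evalRingHom (κ : ℚ_[p])) m l
  exact this

theorem evk_bs_nat (κ : ℕ) (m : ℚ_[p][X]) (x : ℚ_[p]) (n : ℕ)
    (hm : m.eval (κ : ℚ_[p]) = (n : ℚ_[p])) :
    evk κ (bs m x) = (1 + PowerSeries.C x * PowerSeries.X) ^ n := by
  rw [evk_bs, hm, PowerSeries.binomialSeries_nat, map_pow, map_add, map_one,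
    PowerSeries.rescale_X]

theorem eval_wtP (n0 κ : ℕ) :
    (wtP p n0).eval (κ : ℚ_[p]) = ((n0 + (p - 1) * κ : ℕ) : ℚ_[p]) := by
  simp [wtP_eq]

theorem eval_Pd {J κ : ℕ} (hκ : κ < J) (d : ℚ_[p]) :
    (Pd p J d).eval (κ : ℚ_[p]) = d ^ ((p - 1) * κ) := by
  have h1 : (Pd p J d).eval (κ : ℚ_[p]) =
      ∑ t ∈ range J, (d ^ (p - 1) - 1) ^ t * (Nat.choose κ t : ℚ_[p]) := by
    rw [Pd, eval_finsetSum]
    refine sum_congr rfl fun t _ => ?_
    rw [eval_mul, eval_C, mul_comm]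
    congr 1
    have h := Ring.map_choose (Polynomial.evalRingHom (κ : ℚ_[p])) X t
    rw [coe_evalRingHom, eval_X, Ring.choose_natCast] at h
    exact h
  rw [h1]
  have h2 : ∑ t ∈ range J, (d ^ (p - 1) - 1) ^ t * (Nat.choose κ t : ℚ_[p]) =
      ∑ t ∈ range (κ + 1), (d ^ (p - 1) - 1) ^ t * (Nat.choose κ t : ℚ_[p]) := by
    symm
    refine sum_subset (range_subset_range.2 hκ) fun t _ ht => ?_
    rw [mem_range, not_lt] at ht
    rw [Nat.choose_eq_zero_of_lt ht, Nat.cast_zero, mul_zero]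
  rw [h2, pow_mul]
  have h3 := add_pow (d ^ (p - 1) - 1) 1 κ
  rw [sub_add_cancel] at h3
  rw [h3]
  refine sum_congr rfl fun t _ => ?_
  rw [one_pow, mul_one]

theorem fm_kappa_lt {n0 J κ : ℕ} (h : n0 + (p - 1) * κ < J) : κ < J := by
  have hp := (Fact.out : p.Prime).two_le
  have : 1 * κ ≤ (p - 1) * κ := Nat.mul_le_mul_right _ (by omega)
  omega

theorem evk_FF {n0 J κ : ℕ} (h : n0 + (p - 1) * κ < J) (c d : ℚ_[p]) (hd : d ≠ 0) :
    evk κ (FF p n0 J c d) =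
      (PowerSeries.C d + PowerSeries.C c * PowerSeries.X) ^ (n0 + (p - 1) * κ) := by
  rw [FF, map_mul, evk_C, evk_bs_nat κ _ _ _ (eval_wtP n0 κ), eval_mul, eval_C,
    eval_Pd (fm_kappa_lt h), ← pow_add, map_pow, ← mul_pow]
  congr 1
  rw [mul_add, mul_one, ← mul_assoc, ← map_mul, mul_div_cancel₀ _ hd]

theorem evk_yy (κ : ℕ) (a b c d : ℚ_[p]) (hd : d ≠ 0) :
    evk κ (yy a b c d) * (PowerSeries.C d + PowerSeries.C c * PowerSeries.X) =
      PowerSeries.C a * PowerSeries.X + PowerSeries.C b := by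
  have h1 : yy a b c d * (1 + PowerSeries.C (C (c / d)) * PowerSeries.X) =
      PowerSeries.C (C (a / d)) * PowerSeries.X + PowerSeries.C (C (b / d)) := by
    rw [yy, mul_assoc, bs_neg_one, mul_one]
  have h2 := congrArg (evk κ) h1
  simp only [map_mul, map_add, map_one, evk_C, evk_X, eval_C] at h2
  have h3 : (PowerSeries.C d + PowerSeries.C c * PowerSeries.X : PowerSeries ℚ_[p]) =
      (1 + PowerSeries.C (c / d) * PowerSeries.X) * PowerSeries.C d := by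
    rw [add_mul, one_mul, mul_right_comm, ← map_mul, div_mul_cancel₀ _ hd]
  rw [h3, ← mul_assoc, h2, add_mul, mul_right_comm, ← map_mul, ← map_mul,
    div_mul_cancel₀ _ hd, div_mul_cancel₀ _ hd]

theorem evk_prod {n0 J κ j : ℕ} (h : n0 + (p - 1) * κ < J) (hj : j ≤ n0 + (p - 1) * κ)
    (a b c d : ℚ_[p]) (hd : d ≠ 0) :
    evk κ (FF p n0 J c d * yy a b c d ^ j) =
      (PowerSeries.C a * PowerSeries.X + PowerSeries.C b) ^ j *
      (PowerSeries.C c * PowerSeries.X + PowerSeries.C d) ^ (n0 + (p - 1) * κ - j) := by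
  rw [map_mul, map_pow, evk_FF h c d hd, ← evk_yy κ a b c d hd]
  obtain ⟨k, hk⟩ := Nat.exists_eq_add_of_le hj
  rw [hk, Nat.add_sub_cancel_left, pow_add, mul_pow]
  ring

theorem slk_eval {n0 J κ : ℕ} (h : n0 + (p - 1) * κ < J) (g : Matrix (Fin 2) (Fin 2) ℤ_[p])
    (hg : IsUnit (g 1 1)) (i j : ℕ) (hj : j ≤ n0 + (p - 1) * κ) :
    (slk n0 J g i j).eval (κ : ℚ_[p]) = ((sl (n0 + (p - 1) * κ) g i j : ℤ_[p]) : ℚ_[p]) := by
  have hd : ((g 1 1 : ℤ_[p]) : ℚ_[p]) ≠ 0 := fm_unit_ne hg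
  rw [slk, fm_famS_eq n0 J g hd, ← coeff_evk, evk_prod h hj _ _ _ _ hd, sl]
  have h1 : ((((C (g 0 0) * X + C (g 0 1)) ^ j *
      (C (g 1 0) * X + C (g 1 1)) ^ (n0 + (p - 1) * κ - j) : ℤ_[p][X])).map
        PadicInt.Coe.ringHom : ℚ_[p][X]) =
      (C ((g 0 0 : ℤ_[p]) : ℚ_[p]) * X + C ((g 0 1 : ℤ_[p]) : ℚ_[p])) ^ j *
      (C ((g 1 0 : ℤ_[p]) : ℚ_[p]) * X + C ((g 1 1 : ℤ_[p]) : ℚ_[p])) ^
        (n0 + (p - 1) * κ - j) := by
    simp only [Polynomial.map_mul, Polynomial.map_pow, Polynomial.map_add, Polynomial.map_C,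
      Polynomial.map_X]
    rfl
  have h2 := congrArg (fun f : ℚ_[p][X] => f.coeff i) h1
  simp only [Polynomial.coeff_map] at h2
  have h3 : ((((C (g 0 0) * X + C (g 0 1)) ^ j *
      (C (g 1 0) * X + C (g 1 1)) ^ (n0 + (p - 1) * κ - j) : ℤ_[p][X]).coeff i : ℤ_[p]) : ℚ_[p]) =
      PadicInt.Coe.ringHom (((C (g 0 0) * X + C (g 0 1)) ^ j *
      (C (g 1 0) * X + C (g 1 1)) ^ (n0 + (p - 1) * κ - j) : ℤ_[p][X]).coeff i) := rfl
  rw [h3, h2, ← Polynomial.coeff_coe]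
  congr 1
  simp

theorem fm_sl_eq_zero {n i j : ℕ} (g : Matrix (Fin 2) (Fin 2) ℤ_[p]) (hj : j ≤ n) (hi : n < i) :
    sl n g i j = 0 := by
  rw [sl]
  refine coeff_eq_zero_of_natDegree_lt (lt_of_le_of_lt ?_ hi)
  refine natDegree_mul_le.trans ?_
  have h1 : ∀ a b : ℤ_[p], (C a * X + C b).natDegree ≤ 1 := fun a b => natDegree_linear_le
  have h2 : ((C (g 0 0) * X + C (g 0 1)) ^ j).natDegree ≤ j := by
    refine natDegree_pow_le.trans ?_
    have := Nat.mul_le_mul_left j (h1 (g 0 0) (g 0 1))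
    omega
  have h3 : ((C (g 1 0) * X + C (g 1 1)) ^ (n - j)).natDegree ≤ n - j := by
    refine natDegree_pow_le.trans ?_
    have := Nat.mul_le_mul_left (n - j) (h1 (g 1 0) (g 1 1))
    omega
  omega

theorem slk_eval_zero {n0 J κ : ℕ} (h : n0 + (p - 1) * κ < J)
    (g : Matrix (Fin 2) (Fin 2) ℤ_[p]) (hg : IsUnit (g 1 1)) (i j : ℕ)
    (hj : j ≤ n0 + (p - 1) * κ) (hi : n0 + (p - 1) * κ < i) :
    (slk n0 J g i j).eval (κ : ℚ_[p]) = 0 := by
  rw [slk_eval h g hg i j hj, fm_sl_eq_zero g hj hi]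
  rfl

/-! ### Rows are divisible by `p^level` at integer weights -/

/-- the coefficient of `z^i` has valuation `≥ i` -/
def InP (f : PowerSeries ℚ_[p]) : Prop := ∀ i, VB p (PowerSeries.coeff i f) i

theorem InP.mul {f g : PowerSeries ℚ_[p]} (hf : InP f) (hg : InP g) : InP (f * g) := fun i => by
  rw [PowerSeries.coeff_mul]
  refine VB.sum fun x hx => ?_
  refine ((hf x.1).mul (hg x.2)).mono ?_
  have h1 : x.1 + x.2 = i := mem_antidiagonal.1 hx
  omega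

theorem InP.one : InP (1 : PowerSeries ℚ_[p]) := fun i => by
  rw [PowerSeries.coeff_one]
  split_ifs with h
  · rw [h]; exact VB.one
  · exact VB.zero _

theorem InP.pow {f : PowerSeries ℚ_[p]} (hf : InP f) (n : ℕ) : InP (f ^ n) := by
  induction n with
  | zero => rw [pow_zero]; exact InP.one
  | succ n ih => rw [pow_succ]; exact ih.mul hf

theorem InP.lin {a b : ℚ_[p]} (ha : VB p a 1) (hb : VB p b 0) :
    InP (PowerSeries.C a * PowerSeries.X + PowerSeries.C b) := fun i => by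
  rw [map_add, PowerSeries.coeff_C_mul, PowerSeries.coeff_X, PowerSeries.coeff_C]
  rcases Nat.lt_trichotomy i 1 with h | h | h
  · have h0 : i = 0 := by omega
    rw [h0]
    simpa using hb
  · rw [h]
    simpa using ha
  · rw [if_neg (by omega), if_neg (by omega), mul_zero, add_zero]
    exact VB.zero _

theorem InP.inv {x : ℚ_[p]} (hx : VB p x 1) {f : PowerSeries ℚ_[p]}
    (hf : f * (1 + PowerSeries.C x * PowerSeries.X) = 1) : InP f := by
  have h1 : PowerSeries.coeff 0 f = 1 := by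
    have := congrArg (PowerSeries.coeff 0) hf
    simpa using this
  have h2 : ∀ i, PowerSeries.coeff (i + 1) f = -(x * PowerSeries.coeff i f) := by
    intro i
    have h3 := congrArg (PowerSeries.coeff (i + 1)) hf
    rw [mul_add, mul_one, map_add, ← mul_assoc, PowerSeries.coeff_succ_mul_X,
      PowerSeries.coeff_one, if_neg (by omega), mul_comm f, PowerSeries.coeff_C_mul] at h3
    linear_combination h3
  intro i
  induction i with
  | zero => rw [h1]; exact VB.one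
  | succ i ih =>
    rw [h2]
    refine (hx.mul ih).neg.mono ?_
    push_cast
    omega

theorem InP_yy (κ : ℕ) {a b c d : ℚ_[p]} (ha : VB p a 1) (hb : VB p b 0) (hc : VB p c 1)
    (hd : ‖d‖ = 1) : InP (evk κ (yy a b c d)) := by
  rw [yy, map_mul, map_add, map_mul, evk_C, evk_C, evk_X, eval_C, eval_C]
  refine (InP.lin (fm_VB_div ha hd) (fm_VB_div hb hd)).mul ?_
  refine InP.inv (fm_VB_div hc hd) ?_
  have h := congrArg (evk κ) (bs_neg_one (p := p) (c / d))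
  simpa only [map_mul, map_add, map_one, evk_C, evk_X, eval_C] using h

theorem fm_VB_coe (x : ℤ_[p]) : VB p (x : ℚ_[p]) 0 := by
  unfold VB
  rw [neg_zero, zpow_zero]
  exact PadicInt.norm_le_one x

theorem fm_VB_coe_dvd {x : ℤ_[p]} (hx : (p : ℤ_[p]) ∣ x) : VB p (x : ℚ_[p]) 1 := by
  obtain ⟨y, rfl⟩ := hx
  rw [PadicInt.coe_mul, PadicInt.coe_natCast]
  have h1 := VB.p_pow (p := p) 1
  rw [pow_one] at h1
  exact h1.mul (fm_VB_coe y)

theorem slk_low {n0 J κ : ℕ} (h : n0 + (p - 1) * κ < J)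
    (g : Matrix (Fin 2) (Fin 2) ℤ_[p]) (h00 : (p : ℤ_[p]) ∣ g 0 0) (h10 : (p : ℤ_[p]) ∣ g 1 0)
    (hg : IsUnit (g 1 1)) (i j : ℕ) :
    VB p ((slk n0 J g i j).eval (κ : ℚ_[p])) i := by
  have hd : ((g 1 1 : ℤ_[p]) : ℚ_[p]) ≠ 0 := fm_unit_ne hg
  rw [slk, fm_famS_eq n0 J g hd, ← coeff_evk, map_mul, map_pow, evk_FF h _ _ hd,
    add_comm (PowerSeries.C _)]
  exact ((InP.lin (fm_VB_coe_dvd h10) (fm_VB_coe _)).pow _).mul
    ((InP_yy κ (fm_VB_coe_dvd h00) (fm_VB_coe _) (fm_VB_coe_dvd h10) (fm_norm_unit hg)).pow _) i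

end Gouvea
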