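import Pool.Agent.Work.MP_d3517d_nt.Fam2

/-!
# M9b, part 3: the family attached to the data of a `GL₂(ℚ_p)`-set
-/

open Polynomial Finset

noncomputable section

namespace Gouvea

variable {p : ℕ} [Fact p.Prime]

/-- the integral factorisation of the family `famS` (Lemma 2.1) -/
def FamFac (p : ℕ) [Fact p.Prime] : Prop :=
  ∃ H : ℕ → ℕ → ℤ, ∀ (n0 J : ℕ) (g : Matrix (Fin 2) (Fin 2) ℤ_[p]),
    (p : ℤ_[p]) ∣ g 0 0 → (p : ℤ_[p]) ∣ g 1 0 → IsUnit (g 1 1) →
    ∃ G : ℕ → ℕ → ℚ_[p][X], (∀ i k, GB p (G i k) 0) ∧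
      ∀ i j, PowerSeries.coeff i (famS n0 J g j) = ∑ k ∈ range (j + 1),
        C ((p : ℚ_[p]) ^ phi p i) * G i k * C ((p : ℚ_[p]) ^ psi p k * (H k j : ℚ_[p]))

variable {E : Type} [Fintype E] [DecidableEq E]

/-- the matrix of the family -/
def famU (D : Gam p E) (n0 L J : ℕ) : Matrix (E × Fin L) (E × Fin L) ℚ_[p][X] :=
  fun x y => ∑ t, if D.tgt x.1 t = y.1 then
    C ((D.co x.1 t : ℤ_[p]) : ℚ_[p]) * slk n0 J (D.γ x.1 t) (lev x) (lev y) else 0

omit [Fintype E] in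
theorem famU_eval (D : Gam p E) {n0 L J κ : ℕ} (h : n0 + (p - 1) * κ < J) (x y : E × Fin L)
    (hx : lev x < n0 + (p - 1) * κ + 1) (hy : lev y < n0 + (p - 1) * κ + 1) :
    (famU D n0 L J x y).eval (κ : ℚ_[p]) =
      ((Um D (n0 + (p - 1) * κ) (x.1, ⟨lev x, hx⟩) (y.1, ⟨lev y, hy⟩) : ℤ_[p]) : ℚ_[p]) := by
  have h1 : ((Um D (n0 + (p - 1) * κ) (x.1, ⟨lev x, hx⟩) (y.1, ⟨lev y, hy⟩) : ℤ_[p]) : ℚ_[p]) =
      ∑ t, if D.tgt x.1 t = y.1 then
        ((D.co x.1 t : ℤ_[p]) : ℚ_[p]) *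
          ((sl (n0 + (p - 1) * κ) (D.γ x.1 t) (lev x) (lev y) : ℤ_[p]) : ℚ_[p]) else 0 := by
    rw [Um]
    have h2 := map_sum (PadicInt.Coe.ringHom (p := p)) (fun t => if D.tgt x.1 t = y.1 then
      D.co x.1 t * sl (n0 + (p - 1) * κ) (D.γ x.1 t) (lev x) (lev y) else 0) univ
    refine h2.trans (sum_congr rfl fun t _ => ?_)
    by_cases ht : D.tgt x.1 t = y.1
    · rw [if_pos ht, if_pos ht, map_mul]; rfl
    · rw [if_neg ht, if_neg ht, map_zero]
  rw [h1, famU, eval_finsetSum]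
  refine sum_congr rfl fun t _ => ?_
  by_cases ht : D.tgt x.1 t = y.1
  · rw [if_pos ht, if_pos ht, eval_mul, eval_C]
    congr 1
    exact slk_eval h _ (D.h11 _ _) _ _ (by omega)
  · rw [if_neg ht, if_neg ht, eval_zero]

omit [Fintype E] in
theorem famU_zero (D : Gam p E) {n0 L J κ : ℕ} (h : n0 + (p - 1) * κ < J) (x y : E × Fin L)
    (hx : n0 + (p - 1) * κ < lev x) (hy : lev y ≤ n0 + (p - 1) * κ) :
    (famU D n0 L J x y).eval (κ : ℚ_[p]) = 0 := by
  rw [famU, eval_finsetSum]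
  refine sum_eq_zero fun t _ => ?_
  by_cases ht : D.tgt x.1 t = y.1
  · rw [if_pos ht, eval_mul, slk_eval_zero h _ (D.h11 _ _) _ _ hy hx, mul_zero]
  · rw [if_neg ht, eval_zero]

omit [Fintype E] in
theorem famU_low (D : Gam p E) {n0 L J κ : ℕ} (h : n0 + (p - 1) * κ < J) (x y : E × Fin L) :
    VB p ((famU D n0 L J x y).eval (κ : ℚ_[p])) (lev x) := by
  rw [famU, eval_finsetSum]
  refine VB.sum fun t _ => ?_
  by_cases ht : D.tgt x.1 t = y.1
  · rw [if_pos ht, eval_mul, eval_C]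
    have h1 := (fm_VB_coe (D.co x.1 t)).mul
      (slk_low h _ (D.h00 x.1 t) (D.h10 x.1 t) (D.h11 x.1 t) (lev x) (lev y))
    rwa [zero_add] at h1
  · rw [if_neg ht, eval_zero]
    exact VB.zero _

/-- the decomposition at an integer weight -/
theorem famU_dec {h : ℕ} {V : Type} [Fintype V] [DecidableEq V] (D : Dat p h E V)
    {n0 L J κ : ℕ} (he : Even (n0 + (p - 1) * κ)) (hJ : n0 + (p - 1) * κ < J) :
    ∃ P Q : Matrix (E × Fin L) (E × Fin L) ℚ_[p],
      ((famU D.toGam n0 L J).map fun F => F.eval (κ : ℚ_[p])) = P + Q ∧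
      P.rank ≤ h * (n0 + (p - 1) * κ + 1) ∧
      ∀ x y, Q x y ≠ 0 → (n0 + (p - 1) * κ < lev y ∨
        (x.1 = D.σ y.1 ∧ lev x + lev y = n0 + (p - 1) * κ)) := by
  obtain ⟨n, hn⟩ : ∃ n, n = n0 + (p - 1) * κ := ⟨_, rfl⟩
  obtain ⟨A, hA⟩ : ∃ A : Matrix (E × Fin L) (V × Fin (n + 1)) ℚ_[p], A = fun x v =>
    if hx : lev x < n + 1 then (((D.W n * D.ι n) (x.1, ⟨lev x, hx⟩) v : ℤ_[p]) : ℚ_[p])
      else 0 := ⟨_, rfl⟩
  obtain ⟨B, hB⟩ : ∃ B : Matrix (V × Fin (n + 1)) (E × Fin L) ℚ_[p], B = fun v y =>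
    if hy : lev y < n + 1 then ((D.π n v (y.1, ⟨lev y, hy⟩) : ℤ_[p]) : ℚ_[p])
      else 0 := ⟨_, rfl⟩
  refine ⟨A * B, ((famU D.toGam n0 L J).map fun F => F.eval (κ : ℚ_[p])) - A * B,
    (add_sub_cancel _ _).symm, ?_, ?_⟩
  · refine (Matrix.rank_mul_le_left A B).trans ((Matrix.rank_le_card_width A).trans ?_)
    rw [Fintype.card_prod, Fintype.card_fin, D.cardV, hn]
  · intro x y hxy
    by_contra hcon
    rw [not_or, not_lt] at hcon
    obtain ⟨hy, hcon⟩ := hcon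
    refine hxy ?_
    rw [Matrix.sub_apply, Matrix.map_apply]
    by_cases hx : lev x < n + 1
    · have hy' : lev y < n + 1 := by omega
      have hAB : (A * B) x y = (((D.W n * (D.ι n * D.π n)) (x.1, ⟨lev x, hx⟩)
          (y.1, ⟨lev y, hy'⟩) : ℤ_[p]) : ℚ_[p]) := by
        rw [← Matrix.mul_assoc, Matrix.mul_apply, Matrix.mul_apply]
        have h2 := map_sum (PadicInt.Coe.ringHom (p := p))
          (fun v => (D.W n * D.ι n) (x.1, ⟨lev x, hx⟩) v * D.π n v (y.1, ⟨lev y, hy'⟩)) univ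
        refine Eq.trans ?_ h2.symm
        refine sum_congr rfl fun v _ => ?_
        rw [hA, hB, map_mul]
        simp only [dif_pos hx, dif_pos hy']
        rfl
      have hU : (famU D.toGam n0 L J x y).eval (κ : ℚ_[p]) =
          ((Um D.toGam n (x.1, ⟨lev x, hx⟩) (y.1, ⟨lev y, hy'⟩) : ℤ_[p]) : ℚ_[p]) := by
        subst hn
        exact famU_eval D.toGam hJ x y hx hy'
      have hWU := D.WU n (hn ▸ he)
      rw [hU, hAB, ← hWU, mul_sub, mul_one, Matrix.sub_apply, PadicInt.coe_sub,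
        sub_sub_cancel_left]
      have hW : D.W n (x.1, ⟨lev x, hx⟩) (y.1, ⟨lev y, hy'⟩) = 0 := by
        by_contra hne
        have := D.W0 n (hn ▸ he) _ _ hne
        refine hcon ⟨this.1, ?_⟩
        rw [← hn]
        exact this.2
      rw [hW, PadicInt.coe_zero, neg_zero]
    · rw [famU_zero D.toGam hJ x y (by omega) hy, zero_sub, neg_eq_zero, Matrix.mul_apply]
      refine sum_eq_zero fun v _ => ?_
      rw [hA]
      simp only [dif_neg hx, zero_mul]

theorem famU_fac {H : ℕ → ℕ → ℤ} {n0 J : ℕ} (L : ℕ) (D : Gam p E)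
    (G : E → Fin D.m → ℕ → ℕ → ℚ_[p][X])
    (hG : ∀ e t i j, PowerSeries.coeff i (famS n0 J (D.γ e t) j) = ∑ k ∈ range (j + 1),
        C ((p : ℚ_[p]) ^ phi p i) * G e t i k * C ((p : ℚ_[p]) ^ psi p k * (H k j : ℚ_[p])))
    (x y : E × Fin L) :
    famU D n0 L J x y = ∑ z : E × Fin L, C ((p : ℚ_[p]) ^ phi p (lev x)) *
      (∑ t, if D.tgt x.1 t = z.1 then
        C ((D.co x.1 t : ℤ_[p]) : ℚ_[p]) * G x.1 t (lev x) (lev z) else 0) *
      C ((p : ℚ_[p]) ^ psi p (lev z) *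
        (if z.1 = y.1 ∧ lev z ≤ lev y then (H (lev z) (lev y) : ℚ_[p]) else 0)) := by
  rw [Fintype.sum_prod_type, sum_eq_single y.1]
  · have h1 : ∀ k : Fin L, C ((p : ℚ_[p]) ^ phi p (lev x)) *
        (∑ t, if D.tgt x.1 t = ((y.1, k) : E × Fin L).1 then
          C ((D.co x.1 t : ℤ_[p]) : ℚ_[p]) *
            G x.1 t (lev x) (lev ((y.1, k) : E × Fin L)) else 0) *
        C ((p : ℚ_[p]) ^ psi p (lev ((y.1, k) : E × Fin L)) *
        (if ((y.1, k) : E × Fin L).1 = y.1 ∧ lev ((y.1, k) : E × Fin L) ≤ lev y then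
          (H (lev ((y.1, k) : E × Fin L)) (lev y) : ℚ_[p]) else 0)) =
        (fun k : ℕ => if k ≤ lev y then ∑ t, (if D.tgt x.1 t = y.1 then
          C ((D.co x.1 t : ℤ_[p]) : ℚ_[p]) * (C ((p : ℚ_[p]) ^ phi p (lev x)) * G x.1 t (lev x) k *
            C ((p : ℚ_[p]) ^ psi p k * (H k (lev y) : ℚ_[p]))) else 0) else 0) k := by
      intro k
      have e1 : lev ((y.1, k) : E × Fin L) = (k : ℕ) := rfl
      simp only [e1, true_and]
      by_cases hk : (k : ℕ) ≤ lev y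
      · rw [if_pos hk, if_pos hk, mul_sum, sum_mul]
        refine sum_congr rfl fun t _ => ?_
        by_cases ht : D.tgt x.1 t = y.1
        · rw [if_pos ht, if_pos ht]
          ring
        · rw [if_neg ht, if_neg ht, mul_zero, zero_mul]
      · rw [if_neg hk, if_neg hk, mul_zero, C_0, mul_zero]
    rw [sum_congr rfl (fun k _ => h1 k)]
    rw [Fin.sum_univ_eq_sum_range (fun k : ℕ => if k ≤ lev y then
      ∑ t, (if D.tgt x.1 t = y.1 then
          C ((D.co x.1 t : ℤ_[p]) : ℚ_[p]) * (C ((p : ℚ_[p]) ^ phi p (lev x)) * G x.1 t (lev x) k *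
            C ((p : ℚ_[p]) ^ psi p k * (H k (lev y) : ℚ_[p]))) else 0) else 0) L]
    have h2 : (range L).filter (fun k => k ≤ lev y) = range (lev y + 1) := by
      ext k
      have : lev y < L := y.2.2
      simp only [mem_filter, mem_range]
      omega
    rw [← sum_filter, h2, sum_comm, famU]
    refine sum_congr rfl fun t _ => ?_
    by_cases ht : D.tgt x.1 t = y.1
    · simp only [if_pos ht]
      rw [slk, hG, mul_sum]
    · simp only [if_neg ht, sum_const_zero]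
  · intro e _ he
    refine sum_eq_zero fun k _ => ?_
    rw [if_neg (fun h => he h.1), mul_zero, C_0, mul_zero]
  · intro h
    exact absurd (mem_univ _) h

/-- M9b: the family of the matrices `Um`. -/
theorem exists_fam_of (hF : FamFac p) {h : ℕ} {V : Type} [Fintype V] [DecidableEq V]
    (D : Dat p h E V) (hp : Odd p) {n0 : ℕ} (hn0 : Even n0) (L J : ℕ) :
    ∃ F : WFam p h n0 L J E, Compat F D.toGam := by
  obtain ⟨H, hH⟩ := hF
  choose G hG0 hG using fun (e : E) (t : Fin D.m) =>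
    hH n0 J (D.γ e t) (D.h00 e t) (D.h10 e t) (D.h11 e t)
  have hev : ∀ κ, Even (n0 + (p - 1) * κ) := by
    intro κ
    refine hn0.add (Even.mul_right ?_ κ)
    obtain ⟨k, hk⟩ := hp
    exact ⟨k, by omega⟩
  refine ⟨{ U := famU D.toGam n0 L J
            σ := D.σ
            G := fun x z => ∑ t, if D.tgt x.1 t = z.1 then
              C ((D.co x.1 t : ℤ_[p]) : ℚ_[p]) * G x.1 t (lev x) (lev z) else 0
            H := fun z y => if z.1 = y.1 ∧ lev z ≤ lev y then (H (lev z) (lev y) : ℚ_[p]) else 0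
            hG := ?_
            hH := ?_
            fac := fun x y => famU_fac L D.toGam G hG x y
            dec := fun κ hκ => famU_dec D (hev κ) hκ }, ?_⟩
  · intro x y
    refine GB.sum fun t _ => ?_
    by_cases ht : D.tgt x.1 t = y.1
    · rw [if_pos ht]
      have h1 := (GB.C (fm_VB_coe (D.co x.1 t))).mul (hG0 x.1 t (lev x) (lev y))
      rwa [zero_add] at h1
    · rw [if_neg ht]
      exact GB.zero _
  · intro x y
    split_ifs
    · exact VB.intCast _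
    · exact VB.zero _
  · exact { blk := fun κ hJ _ x y hx hy => famU_eval D.toGam hJ x y hx hy
            zero := fun κ hJ _ x y hx hy => famU_zero D.toGam hJ x y hx hy
            low := fun κ hJ _ x y _ => famU_low D.toGam hJ x y }

end Gouvea
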