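import Pool.Agent.Work.MP_d3517d_nt.Fam3
import Pool.Agent.Work.MP_d3517d_nt.FamFac

/-!
# M9b: the family
-/

noncomputable section

namespace Gouvea

variable {p : ℕ} [Fact p.Prime]
variable {h : ℕ} {E V : Type} [Fintype E] [DecidableEq E] [Fintype V] [DecidableEq V]

theorem famFac (p : ℕ) [Fact p.Prime] : FamFac p := by
  obtain ⟨H, hH⟩ := fam_fac p
  exact ⟨H, fun n0 J g h00 h10 h11 => hH g h00 h10 h11 n0 J⟩

theorem exists_fam (hp : 5 ≤ p) (D : Dat p h E V) (n0 L J : ℕ) (h0 : Even n0) :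
    ∃ F : WFam p h n0 L J E, Compat F D.toGam := by
  refine exists_fam_of (famFac p) D ?_ h0 L J
  exact (Fact.out : p.Prime).odd_of_ne_two (by omega)

end Gouvea
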