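import Pool.Agent.Work.MP_d3517d_nt.FinalG

/-!
# Counting eigenvalues of a summand in one weight (M14 b)

* `core` : from the upper bounds of the two functions `GG` (summand and complement) and the lower
  bound of their sum to the counting functions and the ranks.
* `Nf_le_rank` : the number of non-zero eigenvalues is at most the rank.
* `per_sum_le` : the sum `sum_i g(i) (x - (n - i))^+` for a periodic `g`.
-/

namespace Pool.Agent.Gouv

open Filter Topology Finset

noncomputable section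

section core

variable {K : Type*} [NormedField K]

theorem fb_close {p : ℝ} {s1 s2 : Multiset K} {β1 β2 q P η n : ℝ}
    (hp : 1 < p) (h1 : 0 ≤ β1) (h2 : 0 ≤ β2) (hβ : β1 + β2 = q) (hP : 0 ≤ P) (hη : 0 ≤ η)
    (hn : 0 ≤ n)
    (hu1 : ∀ x, 0 ≤ x → x ≤ n / (p + 1) → GG p s1 x ≤ β1 * (x + P) ^ 2 / 2)
    (hu2 : ∀ x, 0 ≤ x → x ≤ n / (p + 1) → GG p s2 x ≤ β2 * (x + P) ^ 2 / 2)
    (hlow : ∀ x, 0 ≤ x → x ≤ n / (p + 1) →
      q * x ^ 2 / 2 - η * n ^ 2 ≤ GG p s1 x + GG p s2 x)
    (x : ℝ) (hx0 : 0 ≤ x) (hx : x ≤ n / (p + 1)) :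
    |(s1.map (fun a => pp p a x)).sum - β1 * x ^ 2 / 2| ≤ η * n ^ 2 + q * (P * n + P ^ 2) := by
  have a1 := hu1 x hx0 hx
  have a2 := hu2 x hx0 hx
  have a3 := hlow x hx0 hx
  have hxn : x ≤ n := hx.trans (div_le_self hn (by linarith))
  unfold GG at a1 a2 a3
  have e1 : β1 * (x + P) ^ 2 / 2 = β1 * x ^ 2 / 2 + (β1 * (P * x) + β1 * P ^ 2 / 2) := by ring
  have e2 : β2 * (x + P) ^ 2 / 2 = β2 * x ^ 2 / 2 + (β2 * (P * x) + β2 * P ^ 2 / 2) := by ring
  have hPx : P * x ≤ P * n := mul_le_mul_of_nonneg_left hxn hP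
  have b1 : β1 * (P * x) + β1 * P ^ 2 / 2 ≤ q * (P * n + P ^ 2) := by
    have c1 : β1 * (P * x) ≤ q * (P * n) := by
      apply mul_le_mul (by linarith) hPx (by positivity) (by linarith)
    have c2 : β1 * P ^ 2 ≤ q * P ^ 2 := mul_le_mul_of_nonneg_right (by linarith) (by positivity)
    have c3 : 0 ≤ q * P ^ 2 := mul_nonneg (by linarith) (by positivity)
    have c4 : q * (P * n + P ^ 2) = q * (P * n) + q * P ^ 2 := by ring
    rw [c4]; linarith
  have b2 : β2 * (P * x) + β2 * P ^ 2 / 2 ≤ q * (P * n + P ^ 2) := by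
    have c1 : β2 * (P * x) ≤ q * (P * n) := by
      apply mul_le_mul (by linarith) hPx (by positivity) (by linarith)
    have c2 : β2 * P ^ 2 ≤ q * P ^ 2 := mul_le_mul_of_nonneg_right (by linarith) (by positivity)
    have c3 : 0 ≤ q * P ^ 2 := mul_nonneg (by linarith) (by positivity)
    have c4 : q * (P * n + P ^ 2) = q * (P * n) + q * P ^ 2 := by ring
    rw [c4]; linarith
  have e3 : q * x ^ 2 / 2 = β1 * x ^ 2 / 2 + β2 * x ^ 2 / 2 := by rw [← hβ]; ring
  have e4 : 0 ≤ η * n ^ 2 := by positivity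
  rw [abs_le]
  constructor <;> linarith

/-- lower bound for the counting function -/
theorem fb_lower {p : ℝ} {s1 : Multiset K} {β1 q n E δ : ℝ} (hp : 1 < p) (h1 : 0 ≤ β1)
    (hβ : β1 ≤ q) (hδ : 0 < δ) (hE : 0 ≤ E)
    (hc : ∀ x, 0 ≤ x → x ≤ n / (p + 1) →
      |(s1.map (fun a => pp p a x)).sum - β1 * x ^ 2 / 2| ≤ E)
    (x : ℝ) (hx : x ≤ n / (p + 1)) :
    β1 * x - (q * δ + 2 * E / δ) ≤ (cnt p s1 x : ℝ) := by
  have hqδ : β1 * δ ≤ q * δ := mul_le_mul_of_nonneg_right hβ hδ.le
  have h0 : 0 ≤ 2 * E / δ := by positivity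
  have hβδ : 0 ≤ β1 * δ := by positivity
  by_cases hxδ : δ ≤ x
  · have := le_cnt_of_close hp s1 hδ (lo := 0) (hi := n / (p + 1)) (q := β1) (E := E)
      (fun y hy0 hy => hc y hy0 hy) (by linarith) hx
    linarith
  · have : β1 * x ≤ β1 * δ := mul_le_mul_of_nonneg_left (by linarith) h1
    have h2 : (0 : ℝ) ≤ cnt p s1 x := Nat.cast_nonneg _
    linarith

/-- The counting functions and ranks in one weight. -/
theorem core {p : ℝ} {s1 s2 : Multiset K} {β1 β2 q P h η n r1 r2 δ : ℝ}
    (hp : 1 < p) (h1 : 0 ≤ β1) (h2 : 0 ≤ β2) (hβ : β1 + β2 = q) (hq : q = (p + 1) * h)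
    (hP : 0 ≤ P) (hη : 0 ≤ η) (hn : 0 ≤ n) (hh : 0 ≤ h) (hδ : 0 < δ)
    (hr : r1 + r2 = h * (n + 1))
    (hc1 : ∀ x, (cnt p s1 x : ℝ) ≤ r1) (hc2 : ∀ x, (cnt p s2 x : ℝ) ≤ r2)
    (hu1 : ∀ x, 0 ≤ x → x ≤ n / (p + 1) → GG p s1 x ≤ β1 * (x + P) ^ 2 / 2)
    (hu2 : ∀ x, 0 ≤ x → x ≤ n / (p + 1) → GG p s2 x ≤ β2 * (x + P) ^ 2 / 2)
    (hlow : ∀ x, 0 ≤ x → x ≤ n / (p + 1) →
      q * x ^ 2 / 2 - η * n ^ 2 ≤ GG p s1 x + GG p s2 x) :
    (∀ x, 0 ≤ x → x ≤ n / (p + 1) → |(cnt p s1 x : ℝ) - β1 * x| ≤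
      h + 2 * (q * δ) + 2 * (η * n ^ 2 + q * (P * n + P ^ 2)) / δ) ∧
    |r1 - β1 * (n / (p + 1))| ≤
      h + 2 * (q * δ) + 2 * (η * n ^ 2 + q * (P * n + P ^ 2)) / δ := by
  set E := η * n ^ 2 + q * (P * n + P ^ 2) with hE
  have hq0 : 0 ≤ q := by rw [← hβ]; linarith
  have hE0 : 0 ≤ E := by positivity
  have hp1 : 0 < p + 1 := by linarith
  have hc := fb_close hp h1 h2 hβ hP hη hn hu1 hu2 hlow
  have hc' := fb_close (s1 := s2) (s2 := s1) (β1 := β2) (β2 := β1) hp h2 h1
    (by linarith : β2 + β1 = q) hP hη hn hu2 hu1 (fun x a b => by rw [add_comm]; exact hlow x a b)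
  have hn1 : 0 ≤ n / (p + 1) := by positivity
  have l1 := fb_lower hp h1 (by linarith : β1 ≤ q) hδ hE0 hc
  have l2 := fb_lower hp h2 (by linarith : β2 ≤ q) hδ hE0 hc'
  have hqδ : 0 ≤ q * δ := by positivity
  have h0 : 0 ≤ 2 * E / δ := by positivity
  -- the ranks
  have hqn : h * n = β1 * (n / (p + 1)) + β2 * (n / (p + 1)) := by
    rw [← add_mul, hβ, hq]; field_simp
  have r1u : r1 ≤ β1 * (n / (p + 1)) + h + q * δ + 2 * E / δ := by
    have a1 := l2 (n / (p + 1)) le_rfl
    have a2 := hc2 (n / (p + 1))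
    have a3 : r1 = h * n + h - r2 := by linarith
    rw [a3, hqn]; linarith
  have r1l : β1 * (n / (p + 1)) - (q * δ + 2 * E / δ) ≤ r1 :=
    (l1 (n / (p + 1)) le_rfl).trans (hc1 _)
  refine ⟨?_, ?_⟩
  · intro x hx0 hx
    rw [abs_le]
    constructor
    · have := l1 x hx
      linarith
    · by_cases hxδ : x + δ ≤ n / (p + 1)
      · have := cnt_le_of_close hp s1 hδ (lo := 0) (hi := n / (p + 1)) (q := β1) (E := E)
          (fun y hy0 hy => hc y hy0 hy) hx0 hxδ
        have hb : β1 * δ ≤ q * δ := mul_le_mul_of_nonneg_right (by linarith) hδ.le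
        have hb0 : 0 ≤ β1 * δ := by positivity
        linarith
      · have a1 := hc1 x
        have a2 : β1 * (n / (p + 1)) ≤ β1 * (x + δ) :=
          mul_le_mul_of_nonneg_left (by linarith) h1
        have hb : β1 * δ ≤ q * δ := mul_le_mul_of_nonneg_right (by linarith) hδ.le
        rw [mul_add] at a2
        linarith
  · rw [abs_le]
    constructor <;> linarith

end core

end

end Pool.Agent.Gouv

namespace Gouvea

open Filter Topology Finset Pool.Agent.Gouv

noncomputable section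

/-! ### Periodic sums -/

/-- `Φ(y) = (y^+)^2/2` -/
def fbPhi (y : ℝ) : ℝ := (max 0 y) ^ 2 / 2

theorem fb_step {P : ℝ} (hP : 0 ≤ P) (y : ℝ) : P * max 0 y ≤ fbPhi (y + P) - fbPhi y := by
  unfold fbPhi
  rcases le_total 0 y with h | h
  · rw [max_eq_right h, max_eq_right (by linarith)]
    nlinarith
  · rw [max_eq_left h]
    have : 0 ≤ (max 0 (y + P)) ^ 2 := by positivity
    simp; linarith

theorem fbPhi_nonneg (y : ℝ) : 0 ≤ fbPhi y := by unfold fbPhi; positivity

theorem window_sum {g : ℕ → ℕ} {P : ℕ} (hg : ∀ i, g (i + P) = g i) (k : ℕ) :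
    ∑ i ∈ range P, g (k + i) = ∑ i ∈ range P, g i := by
  induction k with
  | zero => simp
  | succ k ih =>
    rw [← ih]
    have h1 : ∑ i ∈ range (P + 1), g (k + i) = ∑ i ∈ range P, g (k + 1 + i) + g (k + 0) := by
      rw [Finset.sum_range_succ']
      congr 1
      apply Finset.sum_congr rfl
      intro i _
      congr 1; ring
    have h2 : ∑ i ∈ range (P + 1), g (k + i) = ∑ i ∈ range P, g (k + i) + g (k + P) :=
      Finset.sum_range_succ _ _
    rw [hg k] at h2
    simp only [add_zero] at h1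
    omega

theorem per_sum_le {g : ℕ → ℕ} {P : ℕ} (hP : 0 < P) (hg : ∀ i, g (i + P) = g i) (β : ℝ)
    (hβ : β * P = ∑ i ∈ range P, (g i : ℝ)) (n : ℕ) : ∀ x : ℝ,
    ∑ i ∈ range (n + 1), (g i : ℝ) * max 0 (x - ((n : ℝ) - i)) ≤ β * fbPhi (x + P) := by
  have hβ0 : 0 ≤ β := by
    have h1 : 0 ≤ ∑ i ∈ range P, (g i : ℝ) := Finset.sum_nonneg (fun i _ => Nat.cast_nonneg _)
    have hP' : (0 : ℝ) < P := by exact_mod_cast hP
    rw [← hβ] at h1
    exact nonneg_of_mul_nonneg_left h1 hP'
  induction n using Nat.strong_induction_on with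
  | _ n ih =>
    intro x
    by_cases hn : n + 1 ≤ P
    · -- one block
      have h1 : ∑ i ∈ range (n + 1), (g i : ℝ) * max 0 (x - ((n : ℝ) - i))
          ≤ ∑ i ∈ range (n + 1), (g i : ℝ) * max 0 x := by
        apply Finset.sum_le_sum
        intro i hi
        have hi' : (i : ℝ) ≤ n := by
          exact_mod_cast Nat.lt_succ_iff.1 (Finset.mem_range.1 hi)
        apply mul_le_mul_of_nonneg_left _ (Nat.cast_nonneg _)
        exact max_le_max le_rfl (by linarith)
      have h2 : ∑ i ∈ range (n + 1), (g i : ℝ) * max 0 x ≤ ∑ i ∈ range P, (g i : ℝ) * max 0 x := by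
        apply Finset.sum_le_sum_of_subset_of_nonneg
        · intro i hi; exact Finset.mem_range.2 (lt_of_lt_of_le (Finset.mem_range.1 hi) hn)
        · intro i _ _; positivity
      rw [← Finset.sum_mul, ← Finset.sum_mul, ← hβ] at h2
      have h3 := fb_step (Nat.cast_nonneg P : (0 : ℝ) ≤ P) x
      have h4 : β * (P * max 0 x) ≤ β * (fbPhi (x + P) - fbPhi x) :=
        mul_le_mul_of_nonneg_left h3 hβ0
      have h5 : 0 ≤ β * fbPhi x := mul_nonneg hβ0 (fbPhi_nonneg x)
      rw [Finset.sum_mul] at h2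
      linarith
    · have hn' : P ≤ n := by omega
      obtain ⟨m, rfl⟩ : ∃ m, n = m + P := ⟨n - P, by omega⟩
      have hsplit : ∑ i ∈ range (m + P + 1), (g i : ℝ) * max 0 (x - (((m + P : ℕ) : ℝ) - i))
          = ∑ i ∈ range (m + 1), (g i : ℝ) * max 0 (x - (((m + P : ℕ) : ℝ) - i))
          + ∑ i ∈ range P, (g (m + 1 + i) : ℝ) *
            max 0 (x - (((m + P : ℕ) : ℝ) - ((m + 1 + i : ℕ) : ℝ))) := by
        have : m + P + 1 = m + 1 + P := by ring
        rw [this, Finset.sum_range_add]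
      rw [hsplit]
      have h1 : ∑ i ∈ range (m + 1), (g i : ℝ) * max 0 (x - (((m + P : ℕ) : ℝ) - i))
          ≤ β * fbPhi x := by
        have := ih m (by omega) (x - P)
        refine le_trans (le_of_eq ?_) (this.trans (le_of_eq ?_))
        · apply Finset.sum_congr rfl
          intro i _
          congr 2
          push_cast; ring
        · congr 2; ring
      have h2 : ∑ i ∈ range P, (g (m + 1 + i) : ℝ) *
            max 0 (x - (((m + P : ℕ) : ℝ) - ((m + 1 + i : ℕ) : ℝ))) ≤ β * (P * max 0 x) := by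
        have : ∑ i ∈ range P, (g (m + 1 + i) : ℝ) *
            max 0 (x - (((m + P : ℕ) : ℝ) - ((m + 1 + i : ℕ) : ℝ)))
            ≤ ∑ i ∈ range P, (g (m + 1 + i) : ℝ) * max 0 x := by
          apply Finset.sum_le_sum
          intro i hi
          have hi' : ((i : ℝ) + 1) ≤ P := by exact_mod_cast Finset.mem_range.1 hi
          apply mul_le_mul_of_nonneg_left _ (Nat.cast_nonneg _)
          apply max_le_max le_rfl
          push_cast
          linarith
        refine this.trans (le_of_eq ?_)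
        rw [← Finset.sum_mul]
        have hw := window_sum hg (m + 1)
        have hw' : ∑ i ∈ range P, (g (m + 1 + i) : ℝ) = ∑ i ∈ range P, (g i : ℝ) := by
          exact_mod_cast hw
        rw [hw', ← hβ]; ring
      have h3 := fb_step (Nat.cast_nonneg P : (0 : ℝ) ≤ P) x
      have h4 : β * (P * max 0 x) ≤ β * (fbPhi (x + P) - fbPhi x) :=
        mul_le_mul_of_nonneg_left h3 hβ0
      linarith

/-! ### The number of non-zero eigenvalues is at most the rank -/

open Polynomial in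
theorem natDegree_prod_one_sub {K : Type*} [Field K] [DecidableEq K] (s : Multiset K) :
    (s.map (fun a => (1 - C a * X : K[X]))).prod.natDegree = (s.filter (fun a => a ≠ 0)).card := by
  have hne : ∀ a : K, (1 - C a * X : K[X]) ≠ 0 := by
    intro a h
    have := congrArg (fun Q => Q.coeff 0) h
    simp at this
  induction s using Multiset.induction_on with
  | empty => simp
  | cons a s ih =>
    have hpr : (s.map (fun a => (1 - C a * X : K[X]))).prod ≠ 0 := by
      apply Multiset.prod_ne_zero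
      intro h
      obtain ⟨b, _, hb⟩ := Multiset.mem_map.1 h
      exact hne b hb
    rw [Multiset.map_cons, Multiset.prod_cons, natDegree_mul (hne a) hpr, ih]
    by_cases ha : a = 0
    · subst ha
      rw [Multiset.filter_cons_of_neg (p := fun a : K => a ≠ 0) s (by simp)]
      simp
    · rw [Multiset.filter_cons_of_pos (p := fun a : K => a ≠ 0) s ha, Multiset.card_cons]
      have : (1 - C a * X : K[X]).natDegree = 1 := by
        have e : (1 - C a * X : K[X]) = C (-a) * X + C 1 := by simp; ring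
        rw [e, natDegree_linear (neg_ne_zero.2 ha)]
      rw [this]; ring

open Polynomial in
theorem natDegree_charpolyRev_le {R : Type*} [CommRing R] [Nontrivial R] {m : Type*} [Fintype m]
    [DecidableEq m] (N : Matrix m m R) : N.charpolyRev.natDegree ≤ Fintype.card m := by
  rw [← Matrix.reverse_charpoly]
  exact (reverse_natDegree_le _).trans (Matrix.charpoly_natDegree_eq_dim N).le

open Polynomial Matrix in
theorem charpolyRev_mul_le {K : Type*} [Field K] {m : Type*} [Fintype m] [DecidableEq m] {r : ℕ}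
    (B : Matrix m (Fin r) K) (D : Matrix (Fin r) m K) : (B * D).charpolyRev.natDegree ≤ r := by
  have hcomm : (B * D).charpolyRev = (D * B).charpolyRev := by
    unfold charpolyRev
    rw [Matrix.map_mul, ← Matrix.smul_mul, det_one_sub_mul_comm, Matrix.mul_smul,
      ← Matrix.map_mul]
  rw [hcomm]
  exact (natDegree_charpolyRev_le _).trans (by simp)

open Polynomial Matrix in
theorem charpolyRev_rank {K : Type*} [Field K] {m : Type*} [Fintype m] [DecidableEq m]
    (M : Matrix m m K) : M.charpolyRev.natDegree ≤ M.rank := by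
  obtain ⟨V, U, e, hV, hU, h⟩ := exists_rank_normal_form M
  -- rank factorization
  obtain ⟨B, D, hBD⟩ : ∃ (B : Matrix m (Fin M.rank) K) (D : Matrix (Fin M.rank) m K), M = B * D := by
    have hVd := (isUnit_iff_isUnit_det _).1 hV
    have hUd := (isUnit_iff_isUnit_det _).1 hU
    refine ⟨V⁻¹ * (fromRows (1 : Matrix (Fin M.rank) (Fin M.rank) K) 0).submatrix e id,
      (fromCols (1 : Matrix (Fin M.rank) (Fin M.rank) K) 0).submatrix id e * U⁻¹, ?_⟩
    have e1 : (fromRows (1 : Matrix (Fin M.rank) (Fin M.rank) K) 0).submatrix e id *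
        (fromCols (1 : Matrix (Fin M.rank) (Fin M.rank) K) 0).submatrix id e
        = (fromBlocks 1 0 0 0).submatrix e e := by
      have e0 : (fromRows (1 : Matrix (Fin M.rank) (Fin M.rank) K) 0 *
          fromCols (1 : Matrix (Fin M.rank) (Fin M.rank) K) 0) =
          (fromBlocks 1 0 0 0 : Matrix (Fin M.rank ⊕ Fin (Fintype.card m - M.rank))
            (Fin M.rank ⊕ Fin (Fintype.card m - M.rank)) K) := by
        rw [fromRows_mul_fromCols]
        simp
      rw [← e0]
      rfl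
    have e2 : M = V⁻¹ * (V * M * U) * U⁻¹ := by
      rw [← Matrix.mul_assoc, ← Matrix.mul_assoc, nonsing_inv_mul _ hVd, Matrix.one_mul,
        Matrix.mul_assoc, mul_nonsing_inv _ hUd, Matrix.mul_one]
    rw [h, ← e1] at e2
    rw [Matrix.mul_assoc, Matrix.mul_assoc] at e2
    rw [Matrix.mul_assoc]
    exact e2
  calc M.charpolyRev.natDegree = (B * D).charpolyRev.natDegree := by rw [← hBD]
    _ ≤ M.rank := charpolyRev_mul_le B D

variable {p : ℕ} [Fact p.Prime]

theorem Nf_eq_cnt {ι : Type} [Fintype ι] [DecidableEq ι] (A : Matrix ι ι ℚ_[p]) (x : ℝ) :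
    Nf A x = Pool.Agent.Gouv.cnt (p : ℝ) (specM A) x := by
  unfold Nf Pool.Agent.Gouv.cnt
  congr

open Classical in
theorem Nf_le_rank {ι : Type} [Fintype ι] [DecidableEq ι] (A : Matrix ι ι ℚ_[p]) (x : ℝ) :
    Nf A x ≤ A.rank := by
  have h1 : Nf A x ≤ ((specM A).filter (fun a => a ≠ 0)).card := by
    unfold Nf
    apply Multiset.card_le_card
    apply Multiset.monotone_filter_right
    intro a ha h0
    rw [h0] at ha
    exact not_le_norm_zero one_lt_pF x ha
  refine h1.trans ?_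
  rw [← natDegree_prod_one_sub]
  have h2 : (A.charpolyRev.map (algebraMap ℚ_[p] (PadicAlgCl p)))
      = ((specM A).map (fun a => (1 - Polynomial.C a * Polynomial.X))).prod := by
    rw [← charpolyRev_map, charpolyRev_eq, Matrix.charpoly_map]
    rfl
  rw [← h2, Polynomial.natDegree_map]
  exact charpolyRev_rank A

/-- ranks of complementary idempotents -/
theorem rank_compl {K : Type*} [Field K] {ι : Type*} [Fintype ι] [DecidableEq ι]
    (e : Matrix ι ι K) (he : e * e = e) : e.rank + (1 - e).rank = Fintype.card ι := by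
  apply le_antisymm
  · apply Matrix.rank_add_rank_le_card_of_mul_eq_zero
    rw [Matrix.mul_sub, Matrix.mul_one, he, sub_self]
  · have h1 : (1 : Matrix ι ι K).rank = Fintype.card ι := Matrix.rank_one
    rw [← h1]
    have h2 : (1 : Matrix ι ι K).mulVecLin = e.mulVecLin + (1 - e).mulVecLin := by
      rw [← Matrix.mulVecLin_add]; congr 1; abel
    unfold Matrix.rank
    rw [h2]
    have h3 := LinearMap.rank_add_le e.mulVecLin (1 - e).mulVecLin
    rw [LinearMap.rank, LinearMap.rank, LinearMap.rank, ← Module.finrank_eq_rank,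
      ← Module.finrank_eq_rank, ← Module.finrank_eq_rank] at h3
    exact_mod_cast h3

end

end Gouvea
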