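import Pool.Agent.Work.MP_d3517d_nt.GaussProd
import Pool.Agent.Work.MP_d3517d_nt.Equi

/-!
# From Newton functions to equidistribution

`final`: let `s n` be the multiset of eigenvalues in weight `n + 2`. If `sum (x - v)^+` is
`β_n x^2/2` up to `o(n^2)` for most `n`, then the numbers `(p+1) v / (n+2)`, `n + 2 ≤ T`, are
equidistributed on `[0,1]`.
-/

namespace Pool.Agent.Gouv

open Filter Topology Finset

noncomputable section

variable {K : Type*} [NormedField K] {p : ℝ}

/-- the function `sum (x - v a)^+` -/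
def GG (p : ℝ) (s : Multiset K) (x : ℝ) : ℝ := (s.map (fun a => pp p a x)).sum

/-- The entry `(p+1)/k * v(a)` in `[-∞, ∞]`, where `v(0) = ∞`. -/
def entry (p k : ℝ) (a : K) : EReal :=
  open Classical in if a = 0 then ⊤ else (((p + 1) / k * vv p a : ℝ) : EReal)

/-- the multiset of all entries of the weights `n + 2 ≤ T + 1` -/
def entries (p : ℝ) (s : ℕ → Multiset K) (T : ℕ) : Multiset EReal :=
  ∑ n ∈ range T, (s n).map (entry p (n + 2))

theorem card_entries (s : ℕ → Multiset K) (T : ℕ) :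
    ((entries p s T).card : ℝ) = ∑ n ∈ range T, ((s n).card : ℝ) := by
  unfold entries
  rw [Multiset.card_sum]
  push_cast
  simp

theorem entry_le (hp : 1 < p) {k : ℝ} (hk : 0 < k) (a : K) (x : ℝ) :
    entry p k a ≤ (x : EReal) ↔ p ^ (-(x * k / (p + 1))) ≤ ‖a‖ := by
  unfold entry
  by_cases ha : a = 0
  · subst ha
    simp only [if_true, top_le_iff, EReal.coe_ne_top, false_iff]
    exact not_le_norm_zero hp _
  · rw [if_neg ha, EReal.coe_le_coe_iff, le_norm_iff hp ha, le_div_iff₀ (by linarith),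
      div_mul_eq_mul_div, div_le_iff₀ hk, mul_comm (p + 1)]

theorem cdf_entry (hp : 1 < p) {k : ℝ} (hk : 0 < k) (s : Multiset K) (x : ℝ) :
    cdf (s.map (entry p k)) x = cnt p s (x * k / (p + 1)) := by
  unfold cdf cnt
  rw [Multiset.filter_map, Multiset.card_map]
  congr 2
  apply Multiset.filter_congr
  intro a _
  exact entry_le hp hk a x

theorem cdf_add (A B : Multiset EReal) (x : ℝ) : cdf (A + B) x = cdf A x + cdf B x := by
  unfold cdf
  rw [Multiset.filter_add, Multiset.card_add]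
  push_cast
  ring

theorem cdf_entries (hp : 1 < p) (s : ℕ → Multiset K) (T : ℕ) (x : ℝ) :
    cdf (entries p s T) x = ∑ n ∈ range T, (cnt p (s n) (x * (n + 2) / (p + 1)) : ℝ) := by
  induction T with
  | zero => simp [entries, cdf]
  | succ T ih =>
    have : entries p s (T + 1) = entries p s T + (s T).map (entry p (T + 2)) := by
      unfold entries; rw [Finset.sum_range_succ]
    rw [this, cdf_add, ih, Finset.sum_range_succ, cdf_entry hp (by positivity)]

/-- density zero -/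
def DZ (E : Set ℕ) : Prop :=
  open Classical in
  Tendsto (fun T : ℕ => (((range T).filter (fun n => n ∈ E)).card : ℝ) / T) atTop (𝓝 0)

theorem sum_sub_small {a b : ℕ → ℝ} {C : ℝ} (hC : 0 ≤ C)
    (hab : ∀ n, |a n - b n| ≤ C * (n + 1))
    (h : ∀ η : ℝ, 0 < η → ∃ E : Set ℕ, DZ E ∧ ∀ᶠ n : ℕ in atTop, n ∉ E → |a n - b n| ≤ η * n) :
    Tendsto (fun T : ℕ => (∑ n ∈ range T, a n - ∑ n ∈ range T, b n) / (T : ℝ) ^ 2) atTop (𝓝 0) := by
  classical
  rw [Metric.tendsto_atTop]
  intro ε hε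
  obtain ⟨E, hE, hE'⟩ := h (ε / 4) (by positivity)
  obtain ⟨n0, hn0⟩ := hE'.exists_forall_of_atTop
  unfold DZ at hE
  have h1 := (hE.eventually (Metric.ball_mem_nhds _ (by positivity : 0 < ε / (8 * (C + 1)))))
  -- the constant term
  have h2 : Tendsto (fun T : ℕ => (C * (n0 + 1) * n0) / (T : ℝ) ^ 2) atTop (𝓝 0) :=
    Tendsto.div_atTop tendsto_const_nhds
      ((tendsto_pow_atTop (by norm_num)).comp tendsto_natCast_atTop_atTop)
  have h3 := h2.eventually (Metric.ball_mem_nhds _ (by positivity : 0 < ε / 4))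
  obtain ⟨T0, hT0⟩ := (h1.and (h3.and (eventually_ge_atTop 1))).exists_forall_of_atTop
  refine ⟨T0, fun T hT => ?_⟩
  obtain ⟨a1, a2, a3⟩ := hT0 T hT
  rw [Real.dist_eq, sub_zero] at a1 a2
  have hT1 : (1 : ℝ) ≤ T := by exact_mod_cast a3
  have hTpos : (0 : ℝ) < T := by linarith
  rw [Real.dist_eq, sub_zero, ← Finset.sum_sub_distrib, abs_div, abs_of_pos (by positivity :
    (0 : ℝ) < (T : ℝ) ^ 2), div_lt_iff₀ (by positivity)]
  have key : ∀ n ∈ range T, |a n - b n| ≤ ε / 4 * T +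
      (if n ∈ E then C * (T + 1) else 0) + (if n < n0 then C * (n0 + 1) else 0) := by
    intro n hn
    have hn' : (n : ℝ) ≤ T := by exact_mod_cast (Finset.mem_range.1 hn).le
    have p1 : 0 ≤ ε / 4 * T := by positivity
    have p2 : 0 ≤ (if n ∈ E then C * ((T : ℝ) + 1) else 0) := by split_ifs <;> positivity
    have p3 : 0 ≤ (if n < n0 then C * ((n0 : ℝ) + 1) else 0) := by split_ifs <;> positivity
    by_cases c1 : n < n0
    · rw [if_pos c1]
      have : (n : ℝ) ≤ n0 := by exact_mod_cast c1.le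
      have := hab n
      nlinarith
    · by_cases c2 : n ∈ E
      · rw [if_pos c2]
        have := hab n
        nlinarith
      · have := hn0 n (not_lt.1 c1) c2
        have c3 : ε / 4 * (n : ℝ) ≤ ε / 4 * T := by gcongr
        linarith
  have s1 : |∑ n ∈ range T, (a n - b n)| ≤ T * (ε / 4 * T) +
      (((range T).filter (fun n => n ∈ E)).card : ℝ) * (C * (T + 1)) + n0 * (C * (n0 + 1)) := by
    refine (Finset.abs_sum_le_sum_abs _ _).trans ((Finset.sum_le_sum key).trans ?_)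
    rw [Finset.sum_add_distrib, Finset.sum_add_distrib, Finset.sum_const, Finset.card_range,
      nsmul_eq_mul, ← Finset.sum_filter, Finset.sum_const, nsmul_eq_mul, ← Finset.sum_filter,
      Finset.sum_const, nsmul_eq_mul]
    have : (((range T).filter (fun n => n < n0)).card : ℝ) ≤ n0 := by
      have : ((range T).filter (fun n => n < n0)).card ≤ (range n0).card := by
        apply Finset.card_le_card
        intro n hn
        exact Finset.mem_range.2 (Finset.mem_filter.1 hn).2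
      rw [Finset.card_range] at this
      exact_mod_cast this
    gcongr
  refine lt_of_le_of_lt s1 ?_
  have e1 : (((range T).filter (fun n => n ∈ E)).card : ℝ) ≤ ε / (8 * (C + 1)) * T := by
    have := (abs_lt.1 a1).2.le
    rwa [div_le_iff₀ hTpos] at this
  have e2 : (((range T).filter (fun n => n ∈ E)).card : ℝ) * (C * (T + 1)) ≤ ε / 4 * T ^ 2 := by
    calc (((range T).filter (fun n => n ∈ E)).card : ℝ) * (C * (T + 1))
        ≤ (ε / (8 * (C + 1)) * T) * (C * (T + 1)) := by gcongr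
      _ ≤ (ε / (8 * (C + 1)) * T) * ((C + 1) * (2 * T)) := by gcongr <;> linarith
      _ = ε / 4 * T ^ 2 := by field_simp; ring
  have e3 : (n0 : ℝ) * (C * (n0 + 1)) ≤ ε / 4 * T ^ 2 := by
    have := (abs_lt.1 a2).2.le
    rw [div_le_iff₀ (by positivity)] at this
    linarith
  have e4 : 0 < ε * (T : ℝ) ^ 2 := by positivity
  have e5 : (T : ℝ) * (ε / 4 * T) = ε / 4 * (T : ℝ) ^ 2 := by ring
  rw [e5]
  linarith

/-- The counting function of one weight. -/
theorem cnt_close (hp : 1 < p) (s : ℕ → Multiset K) (β : ℕ → ℝ) {q C : ℝ} (hq : 0 ≤ q) (hC : 0 ≤ C)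
    (hβ0 : ∀ n, 0 ≤ β n) (hβq : ∀ n, β n ≤ q)
    (hup : ∀ (n : ℕ) (x : ℝ), 0 ≤ x → x ≤ n / 2 → GG p (s n) x ≤ β n * x ^ 2 / 2 + C * (x + 1))
    (hlow : ∀ ε : ℝ, 0 < ε → ∃ E : Set ℕ, DZ E ∧ ∀ᶠ n : ℕ in atTop, n ∉ E →
      ∀ x : ℝ, ε * n ≤ x → x ≤ (1 - ε) * n / (p + 1) →
        β n * x ^ 2 / 2 - ε * n ^ 2 ≤ GG p (s n) x)
    {x : ℝ} (hx0 : 0 < x) (hx1 : x < 1) (η : ℝ) (hη : 0 < η) :
    ∃ E : Set ℕ, DZ E ∧ ∀ᶠ n : ℕ in atTop, n ∉ E →
      |(cnt p (s n) (x * (n + 2) / (p + 1)) : ℝ) - x * (β n * n / (p + 1))| ≤ η * n := by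
  have hp1 : 0 < p + 1 := by linarith
  -- choice of the parameters
  obtain ⟨δ, hδ0, hδ1, hδ2, hδ3⟩ : ∃ δ : ℝ, 0 < δ ∧ (q / 2 + 4) * δ ≤ η / 2 ∧
      2 * δ ≤ x / (p + 1) ∧ 3 * δ ≤ (1 - x) / (p + 1) := by
    refine ⟨min (η / 2 / (q / 2 + 4)) (min (x / (p + 1) / 2) ((1 - x) / (p + 1) / 3)), ?_, ?_, ?_, ?_⟩
    · apply lt_min (by positivity)
      apply lt_min (by positivity)
      have : 0 < 1 - x := by linarith
      positivity
    · have h1 := min_le_left (η / 2 / (q / 2 + 4)) (min (x / (p + 1) / 2) ((1 - x) / (p + 1) / 3))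
      rw [le_div_iff₀ (by positivity)] at h1
      linarith
    · have h1 := (min_le_right (η / 2 / (q / 2 + 4))
        (min (x / (p + 1) / 2) ((1 - x) / (p + 1) / 3))).trans (min_le_left _ _)
      linarith
    · have h1 := (min_le_right (η / 2 / (q / 2 + 4))
        (min (x / (p + 1) / 2) ((1 - x) / (p + 1) / 3))).trans (min_le_right _ _)
      linarith
  obtain ⟨ε, hε0, hε1, hε2, hε3⟩ : ∃ ε : ℝ, 0 < ε ∧ ε ≤ δ ^ 2 ∧ ε ≤ δ ∧ ε ≤ 1 := by
    refine ⟨min (δ ^ 2) (min δ 1), ?_, min_le_left _ _, (min_le_right _ _).trans (min_le_left _ _),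
      (min_le_right _ _).trans (min_le_right _ _)⟩
    apply lt_min (by positivity) (lt_min hδ0 one_pos)
  obtain ⟨E, hE, hE'⟩ := hlow ε hε0
  refine ⟨E, hE, ?_⟩
  -- n large
  have hbig : ∀ᶠ n : ℕ in atTop, (2 : ℝ) ≤ δ * n ∧ 2 * C / (δ * δ) + 2 * C / δ +
      2 * q + 1 ≤ (η / 2) * n ∧ (1 : ℝ) ≤ n := by
    have t1 : Tendsto (fun n : ℕ => δ * (n : ℝ)) atTop atTop :=
      Tendsto.const_mul_atTop hδ0 tendsto_natCast_atTop_atTop
    have t2 : Tendsto (fun n : ℕ => (η / 2) * (n : ℝ)) atTop atTop :=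
      Tendsto.const_mul_atTop (by positivity) tendsto_natCast_atTop_atTop
    have t3 : Tendsto (fun n : ℕ => (n : ℝ)) atTop atTop := tendsto_natCast_atTop_atTop
    filter_upwards [t1.eventually_ge_atTop 2, t2.eventually_ge_atTop _,
      t3.eventually_ge_atTop 1] with n h1 h2 h3
    exact ⟨h1, h2, h3⟩
  filter_upwards [hE', hbig] with n hn1 hn2 hnE
  obtain ⟨b1, b2, b3⟩ := hn2
  have hlown := hn1 hnE
  have hn0 : (0 : ℝ) < n := by linarith
  set y : ℝ := x * (n + 2) / (p + 1) with hy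
  have hyn : y = x / (p + 1) * n + 2 * (x / (p + 1)) := by rw [hy]; field_simp
  have hxp : x / (p + 1) ≤ 1 / 2 := by
    rw [div_le_div_iff₀ hp1 (by norm_num)]; nlinarith
  have hxp1 : 0 < x / (p + 1) := by positivity
  have hlo : ε * n ≤ y - δ * n := by
    have h1 : (ε + δ) * n ≤ x / (p + 1) * n := by
      apply mul_le_mul_of_nonneg_right _ hn0.le
      linarith
    rw [add_mul] at h1
    rw [hyn]; linarith
  have hhi : y + δ * n ≤ (1 - ε) * n / (p + 1) := by
    have e1 : (1 - ε) * n / (p + 1) = (1 / (p + 1) - ε / (p + 1)) * n := by ring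
    have e2 : ε / (p + 1) ≤ δ := by
      rw [div_le_iff₀ hp1]; nlinarith
    have e3 : (1 - x) / (p + 1) = 1 / (p + 1) - x / (p + 1) := by ring
    rw [e1, hyn]
    have e4 : (x / (p + 1) + 2 * δ) * n ≤ (1 / (p + 1) - ε / (p + 1)) * n := by
      apply mul_le_mul_of_nonneg_right _ hn0.le
      linarith
    rw [add_mul] at e4
    linarith
  have hhalf : (1 - ε) * n / (p + 1) ≤ n / 2 := by
    rw [div_le_div_iff₀ hp1 (by norm_num)]
    have : (1 - ε) * n ≤ n := by nlinarith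
    nlinarith
  have hclose : ∀ z, ε * n ≤ z → z ≤ (1 - ε) * n / (p + 1) →
      |((s n).map (fun a => pp p a z)).sum - β n * z ^ 2 / 2| ≤ ε * n ^ 2 + C * (n + 1) := by
    intro z hz1 hz2
    have hz0 : 0 ≤ z := le_trans (by positivity) hz1
    have c1 := hlown z hz1 hz2
    have c2 := hup n z hz0 (hz2.trans hhalf)
    have c3 : C * (z + 1) ≤ C * (n + 1) := by
      apply mul_le_mul_of_nonneg_left _ hC
      have := hz2.trans hhalf
      linarith
    unfold GG at c1 c2
    rw [abs_le]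
    have c4 : 0 ≤ ε * (n : ℝ) ^ 2 := by positivity
    have c5 : 0 ≤ C * ((n : ℝ) + 1) := by positivity
    constructor <;> linarith
  have hδn : 0 < δ * n := by positivity
  have r1 := cnt_le_of_close hp (s n) hδn hclose (by linarith : ε * n ≤ y) hhi
  have r2 := le_cnt_of_close hp (s n) hδn hclose hlo (by linarith : y ≤ (1 - ε) * n / (p + 1))
  have hE1 : 2 * (ε * n ^ 2 + C * (n + 1)) / (δ * n) ≤ 2 * δ * n + (2 * C / δ + 2 * C / δ) := by
    rw [div_le_iff₀ hδn]
    have d1 : 2 * (ε * (n : ℝ) ^ 2) ≤ 2 * δ * n * (δ * n) := by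
      have : ε * (n : ℝ) ^ 2 ≤ δ ^ 2 * (n : ℝ) ^ 2 := by gcongr
      have e : 2 * δ * n * (δ * n) = 2 * (δ ^ 2 * (n : ℝ) ^ 2) := by ring
      rw [e]; linarith
    have d2 : 2 * (C * (n + 1)) ≤ (2 * C / δ + 2 * C / δ) * (δ * n) := by
      have e : (2 * C / δ + 2 * C / δ) * (δ * n) = 4 * (C * n) := by field_simp; ring
      have : C * 1 ≤ C * n := mul_le_mul_of_nonneg_left b3 hC
      rw [e]; linarith
    rw [add_mul]; linarith
  have hC2 : 2 * C / δ + 2 * C / δ ≤ 2 * C / (δ * δ) + 2 * C / δ := by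
    have hδ1' : δ ≤ 1 := by
      have : x / (p + 1) ≤ 1 := by linarith
      linarith
    have : 2 * C / δ ≤ 2 * C / (δ * δ) := by
      exact div_le_div_of_nonneg_left (by positivity) (by positivity)
        (mul_le_of_le_one_left hδ0.le hδ1')
    linarith
  have hβn := hβ0 n
  have hβqn := hβq n
  have hqδ : β n * (δ * n) / 2 ≤ q / 2 * δ * n := by
    have : β n * (δ * n) ≤ q * (δ * n) := mul_le_mul_of_nonneg_right hβqn hδn.le
    linarith
  have hyy : β n * y = x * (β n * n / (p + 1)) + β n * (2 * (x / (p + 1))) := by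
    rw [hyn]; ring
  have hβx : β n * (2 * (x / (p + 1))) ≤ q := by
    have : β n * (2 * (x / (p + 1))) ≤ β n * 1 := mul_le_mul_of_nonneg_left (by linarith) hβn
    linarith
  have hβx0 : 0 ≤ β n * (2 * (x / (p + 1))) := by positivity
  have htot : (q / 2 + 2) * δ * n ≤ η / 2 * n := by
    apply mul_le_mul_of_nonneg_right _ hn0.le
    have : 0 ≤ 2 * δ := by positivity
    linarith
  have htot' : (q / 2 + 2) * δ * n = q / 2 * δ * n + 2 * δ * n := by ring
  rw [htot'] at htot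
  rw [abs_le]
  constructor
  · linarith
  · linarith

/-- From the Newton functions to the equidistribution of the slopes. -/
theorem final (hp : 1 < p) (s : ℕ → Multiset K) (β : ℕ → ℝ) {q C c : ℝ} (hq : 0 ≤ q) (hC : 0 ≤ C)
    (hβ0 : ∀ n, 0 ≤ β n) (hβq : ∀ n, β n ≤ q)
    (hcard : ∀ n : ℕ, ((s n).card : ℝ) ≤ β n * n / (p + 1) + C)
    (hup : ∀ (n : ℕ) (x : ℝ), 0 ≤ x → x ≤ n / 2 → GG p (s n) x ≤ β n * x ^ 2 / 2 + C * (x + 1))
    (hlow : ∀ ε : ℝ, 0 < ε → ∃ E : Set ℕ, DZ E ∧ ∀ᶠ n : ℕ in atTop, n ∉ E →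
      ∀ x : ℝ, ε * n ≤ x → x ≤ (1 - ε) * n / (p + 1) →
        β n * x ^ 2 / 2 - ε * n ^ 2 ≤ GG p (s n) x)
    (hc : 0 < c) (hpos : ∀ᶠ T : ℕ in atTop, c * (T : ℝ) ^ 2 ≤ ∑ n ∈ range T, β n * n)
    (f : EReal → ℝ) (hf : Continuous f) :
    Tendsto (fun T => avg (entries p s T) f) atTop (𝓝 (∫ t in (0 : ℝ)..1, f t)) := by
  have hp1 : 0 < p + 1 := by linarith
  set S : ℕ → ℝ := fun T => ∑ n ∈ range T, β n * n / (p + 1) with hS
  have hSge : ∀ᶠ T : ℕ in atTop, c / (p + 1) * (T : ℝ) ^ 2 ≤ S T := by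
    filter_upwards [hpos] with T hT
    rw [hS]
    simp only
    rw [← Finset.sum_div, div_mul_eq_mul_div]
    gcongr
  -- N_x / S → x
  have hNx : ∀ x : ℝ, 0 < x → x < 1 →
      Tendsto (fun T => cdf (entries p s T) x / S T) atTop (𝓝 x) := by
    intro x hx0 hx1
    have h1 := sum_sub_small (a := fun n => (cnt p (s n) (x * (n + 2) / (p + 1)) : ℝ))
      (b := fun n => x * (β n * n / (p + 1))) (C := q + C) (by positivity) (by
        intro n
        have h0 : (0 : ℝ) ≤ cnt p (s n) (x * (n + 2) / (p + 1)) := Nat.cast_nonneg _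
        have h1 : (cnt p (s n) (x * (n + 2) / (p + 1)) : ℝ) ≤ (s n).card := by
          unfold cnt
          exact_mod_cast Multiset.card_le_card (Multiset.filter_le _ _)
        have h2 := hcard n
        have h3 : β n * n / (p + 1) ≤ q * n := by
          rw [div_le_iff₀ hp1]
          have : β n * (n : ℝ) ≤ q * n := mul_le_mul_of_nonneg_right (hβq n) (Nat.cast_nonneg _)
          have : 0 ≤ q * (n : ℝ) := by positivity
          nlinarith
        have h4 : 0 ≤ β n * n / (p + 1) := by have := hβ0 n; positivity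
        have h5 : (0 : ℝ) ≤ n := Nat.cast_nonneg _
        rw [abs_le]
        constructor
        · nlinarith
        · nlinarith)
      (fun η hη => cnt_close hp s β hq hC hβ0 hβq hup hlow hx0 hx1 η hη)
    have h2 : Tendsto (fun T : ℕ => (∑ n ∈ range T, (cnt p (s n) (x * (n + 2) / (p + 1)) : ℝ)
        - ∑ n ∈ range T, x * (β n * n / (p + 1))) / S T) atTop (𝓝 0) := by
      have h3 : Tendsto (fun T : ℕ => (p + 1) / c *
          |(∑ n ∈ range T, (cnt p (s n) (x * (n + 2) / (p + 1)) : ℝ)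
        - ∑ n ∈ range T, x * (β n * n / (p + 1))) / (T : ℝ) ^ 2|) atTop (𝓝 0) := by
        have := (h1.abs).const_mul ((p + 1) / c)
        simpa using this
      apply squeeze_zero_norm' _ h3
      filter_upwards [hSge, eventually_ge_atTop 1] with T hT hT1
      have hT0 : (0 : ℝ) < T := by exact_mod_cast hT1
      have hS0 : 0 < S T := lt_of_lt_of_le (by positivity) hT
      rw [Real.norm_eq_abs, abs_div, abs_of_pos hS0, abs_div, abs_of_pos (by positivity :
        (0 : ℝ) < (T : ℝ) ^ 2), div_le_iff₀ hS0]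
      have : (p + 1) / c * (|∑ n ∈ range T, (cnt p (s n) (x * (n + 2) / (p + 1)) : ℝ)
          - ∑ n ∈ range T, x * (β n * n / (p + 1))| / (T : ℝ) ^ 2) * (c / (p + 1) * (T : ℝ) ^ 2)
          = |∑ n ∈ range T, (cnt p (s n) (x * (n + 2) / (p + 1)) : ℝ)
          - ∑ n ∈ range T, x * (β n * n / (p + 1))| := by
        field_simp
      refine (le_of_eq this.symm).trans (mul_le_mul_of_nonneg_left hT (by positivity))
    have h3 : Tendsto (fun T : ℕ => (∑ n ∈ range T, (cnt p (s n) (x * (n + 2) / (p + 1)) : ℝ)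
        - ∑ n ∈ range T, x * (β n * n / (p + 1))) / S T + x) atTop (𝓝 (0 + x)) := h2.add_const x
    rw [zero_add] at h3
    apply h3.congr'
    filter_upwards [hSge, eventually_ge_atTop 1] with T hT hT1
    have hT0 : (0 : ℝ) < T := by exact_mod_cast hT1
    have hS0 : 0 < S T := lt_of_lt_of_le (by positivity) hT
    rw [cdf_entries hp, ← Finset.mul_sum]
    have : ∑ i ∈ range T, β i * ↑i / (p + 1) = S T := rfl
    rw [this]
    field_simp
    ring
  -- N / S → 1
  have hN : Tendsto (fun T => ((entries p s T).card : ℝ) / S T) atTop (𝓝 1) := by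
    rw [Metric.tendsto_atTop]
    intro ε hε
    have h1 := hNx (max (1 / 2) (1 - ε / 2)) (by positivity)
      (max_lt (by norm_num) (by linarith))
    have h2 := h1.eventually (Metric.ball_mem_nhds _ (by positivity : 0 < ε / 2))
    have h3 : Tendsto (fun T : ℕ => (C * (p + 1) / c) / (T : ℝ)) atTop (𝓝 0) :=
      Tendsto.div_atTop tendsto_const_nhds tendsto_natCast_atTop_atTop
    have h4 := h3.eventually (Metric.ball_mem_nhds _ hε)
    obtain ⟨T0, hT0⟩ := (h2.and (h4.and (hSge.and (eventually_ge_atTop 1)))).exists_forall_of_atTop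
    refine ⟨T0, fun T hT => ?_⟩
    obtain ⟨a1, a2, a3, a4⟩ := hT0 T hT
    have hT0' : (0 : ℝ) < T := by exact_mod_cast a4
    have hS0 : 0 < S T := lt_of_lt_of_le (by positivity) a3
    rw [Real.dist_eq] at a1 a2
    have u1 : ((entries p s T).card : ℝ) ≤ S T + C * T := by
      rw [card_entries]
      refine (Finset.sum_le_sum (fun n _ => hcard n)).trans (le_of_eq ?_)
      rw [Finset.sum_add_distrib, Finset.sum_const, Finset.card_range, nsmul_eq_mul]
      ring
    have u2 : C * T / S T ≤ (C * (p + 1) / c) / (T : ℝ) := by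
      rw [div_le_div_iff₀ hS0 hT0']
      have : C * (p + 1) / c * (c / (p + 1) * (T : ℝ) ^ 2) = C * T * T := by field_simp
      rw [← this]
      gcongr
    have u3 : ((entries p s T).card : ℝ) / S T ≤ 1 + C * T / S T := by
      rw [div_le_iff₀ hS0, add_mul, div_mul_cancel₀ _ hS0.ne']
      linarith
    have u4 : cdf (entries p s T) (max (1 / 2) (1 - ε / 2)) / S T ≤
        ((entries p s T).card : ℝ) / S T := by
      gcongr
      exact cdf_le_card _ _
    have u5 := (abs_lt.1 a1).1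
    have u6 := (abs_lt.1 a2).2
    have u7 := le_max_right (1 / 2) (1 - ε / 2)
    rw [Real.dist_eq, abs_lt]
    constructor <;> linarith
  apply equi_of_cdf _ _ f hf
  intro x hx0 hx1
  have h := (hNx x hx0 hx1).div hN one_ne_zero
  rw [div_one] at h
  apply h.congr'
  filter_upwards [hSge, eventually_ge_atTop 1] with T hT hT1
  have hT0 : (0 : ℝ) < T := by exact_mod_cast hT1
  have hS0 : 0 < S T := lt_of_lt_of_le (by positivity) hT
  simp only [Pi.div_apply]
  rw [div_div_div_cancel_right₀ hS0.ne']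

/-- The same with `T` the bound for the weights `n + 2`. -/
theorem final_weight (hp : 1 < p) (s : ℕ → Multiset K) (β : ℕ → ℝ) {q C c : ℝ} (hq : 0 ≤ q)
    (hC : 0 ≤ C) (hβ0 : ∀ n, 0 ≤ β n) (hβq : ∀ n, β n ≤ q)
    (hcard : ∀ n : ℕ, ((s n).card : ℝ) ≤ β n * n / (p + 1) + C)
    (hup : ∀ (n : ℕ) (x : ℝ), 0 ≤ x → x ≤ n / 2 → GG p (s n) x ≤ β n * x ^ 2 / 2 + C * (x + 1))
    (hlow : ∀ ε : ℝ, 0 < ε → ∃ E : Set ℕ, DZ E ∧ ∀ᶠ n : ℕ in atTop, n ∉ E →
      ∀ x : ℝ, ε * n ≤ x → x ≤ (1 - ε) * n / (p + 1) →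
        β n * x ^ 2 / 2 - ε * n ^ 2 ≤ GG p (s n) x)
    (hc : 0 < c) (hpos : ∀ᶠ T : ℕ in atTop, c * (T : ℝ) ^ 2 ≤ ∑ n ∈ range T, β n * n)
    (f : EReal → ℝ) (hf : Continuous f) :
    Tendsto (fun T : ℕ => avg (∑ n ∈ (range T).filter (fun n => n + 2 ≤ T),
      (s n).map (entry p (n + 2))) f) atTop (𝓝 (∫ t in (0 : ℝ)..1, f t)) := by
  have h := (final hp s β hq hC hβ0 hβq hcard hup hlow hc hpos f hf).comp
    (tendsto_sub_atTop_nat 1)
  refine h.congr (fun T => ?_)
  have e : (range T).filter (fun n => n + 2 ≤ T) = range (T - 1) := by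
    ext n; simp only [Finset.mem_filter, Finset.mem_range]; omega
  rw [e]
  rfl

end

end Pool.Agent.Gouv
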