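import Pool.Agent.Work.MP_d3517d_nt.Final
import Pool.Agent.Work.MP_d3517d_nt.Weak
import Pool.Agent.Work.MP_d3517d_nt.Basic2

/-!
# From the functions `Gf` to weak convergence on `[0, ∞]` (M14 b)

`equi_of_Gf`: for matrices `A n` over `ℚ_p` such that `Gf (A n) x = β_n x^2/2 + o(n^2)` for most
`n`, the numbers `(p+1) v(λ) / (n+2)`, `λ` an eigenvalue of `A n`, `n + 2 ≤ T`, are equidistributed
on `[0,1]`.
-/

namespace Gouvea

open Filter Topology Finset Pool.Agent.Gouv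

noncomputable section

variable {p : ℕ} [Fact p.Prime]

/-- The valuation of an element of `ℚ̄_p` as an element of `[0, ∞]` (for integral elements). -/
def slope (l : PadicAlgCl p) : ENNReal :=
  open Classical in if l = 0 then ⊤ else ENNReal.ofReal (- Real.logb p ‖l‖)

theorem one_lt_pF : (1 : ℝ) < (p : ℝ) := by exact_mod_cast (Fact.out : p.Prime).one_lt

theorem Gf_eq_GG {ι : Type} [Fintype ι] [DecidableEq ι] (A : Matrix ι ι ℚ_[p]) (x : ℝ) :
    Gf A x = GG (p : ℝ) (specM A) x := rfl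

theorem na_alg : IsNonarchimedean (NormedField.toAbsoluteValue (PadicAlgCl p)) :=
  PadicAlgCl.isNonarchimedean p

/-- The Newton function of `det (1 - X A)`. -/
theorem FF_det {ι : Type} [Fintype ι] [DecidableEq ι] (A : Matrix ι ι ℚ_[p]) (x : ℝ) :
    FF (p : ℝ) A.charpolyRev x = - Gf A x :=
  FF_charpolyRev one_lt_pF na_alg (algebraMap ℚ_[p] (PadicAlgCl p))
    (fun a => PadicAlgCl.norm_extends p a) A x

theorem card_specM {ι : Type} [Fintype ι] [DecidableEq ι] (A : Matrix ι ι ℚ_[p]) :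
    (specM A).card = Fintype.card ι := by
  unfold specM
  have h := IsAlgClosed.splits (A.charpoly.map (algebraMap ℚ_[p] (PadicAlgCl p)))
  rw [← h.natDegree_eq_card_roots, Polynomial.natDegree_map, Matrix.charpoly_natDegree_eq_dim]

theorem toENNReal_entry {k : ℝ} (hk : 0 < k) (l : PadicAlgCl p) :
    (entry (p : ℝ) k l).toENNReal = ENNReal.ofReal (((p : ℝ) + 1) / k) * slope l := by
  have h0 : 0 < ((p : ℝ) + 1) / k := by positivity
  unfold entry slope
  by_cases hl : l = 0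
  · rw [if_pos hl, if_pos hl, EReal.toENNReal_top, ENNReal.mul_top]
    exact (ENNReal.ofReal_pos.2 h0).ne'
  · rw [if_neg hl, if_neg hl, EReal.toENNReal_of_ne_top (EReal.coe_ne_top _), EReal.toReal_coe,
      ENNReal.ofReal_mul h0.le, vv]

theorem avg_entries (s : ℕ → Multiset (PadicAlgCl p)) (N : ℕ) (f : ENNReal → ℝ) :
    Weak.avg (Weak.unionX ((p : ℝ) + 1) (fun n => (s n).map slope) N) f =
      avg (entries (p : ℝ) s N) (fun y => f y.toENNReal) := by
  have e : Weak.unionX ((p : ℝ) + 1) (fun n => (s n).map slope) N =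
      (entries (p : ℝ) s N).map EReal.toENNReal := by
    unfold Weak.unionX entries
    induction N with
    | zero => simp
    | succ N ih =>
      rw [Finset.sum_range_succ, Finset.sum_range_succ, ih, Multiset.map_add, Multiset.map_map,
        Multiset.map_map]
      congr 1
      apply Multiset.map_congr rfl
      intro l _
      simp only [Function.comp_apply]
      rw [toENNReal_entry (by positivity)]
  rw [e]
  unfold Weak.avg avg
  rw [Multiset.map_map, Multiset.card_map]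
  rfl

/-- From approximations of the sums `sum (x - v)^+` in most weights to the equidistribution of the
slopes, as weak convergence on `[0, ∞]`. -/
theorem equi_of_GG (s : ℕ → Multiset (PadicAlgCl p)) (β : ℕ → ℝ) {q C c : ℝ} (hq : 0 ≤ q)
    (hC : 0 ≤ C) (hβ0 : ∀ n, 0 ≤ β n) (hβq : ∀ n, β n ≤ q)
    (hcard : ∀ n : ℕ, ((s n).card : ℝ) ≤ β n * n / ((p : ℝ) + 1) + C)
    (hup : ∀ (n : ℕ) (x : ℝ), 0 ≤ x → x ≤ n / 2 →
      GG (p : ℝ) (s n) x ≤ β n * x ^ 2 / 2 + C * (x + 1))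
    (hlow : ∀ ε : ℝ, 0 < ε → ∃ E : Set ℕ, DZ E ∧ ∀ᶠ n : ℕ in atTop, n ∉ E →
      ∀ x : ℝ, ε * n ≤ x → x ≤ (1 - ε) * n / ((p : ℝ) + 1) →
        β n * x ^ 2 / 2 - ε * n ^ 2 ≤ GG (p : ℝ) (s n) x)
    (hc : 0 < c) (hpos : ∀ᶠ T : ℕ in atTop, c * (T : ℝ) ^ 2 ≤ ∑ n ∈ range T, β n * n)
    (f : ENNReal → ℝ) (hf : Continuous f) :
    Tendsto (fun T : ℕ => Weak.avg (Weak.unionX ((p : ℝ) + 1)
      (fun n => (s n).map slope) (T - 1)) f) atTop
      (𝓝 (∫ t in (0 : ℝ)..1, f (ENNReal.ofReal t))) := by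
  have h := (final one_lt_pF s β hq hC hβ0 hβq hcard hup hlow hc hpos
    (fun y => f y.toENNReal) (hf.comp EReal.continuous_toENNReal)).comp (tendsto_sub_atTop_nat 1)
  have e : ∫ t in (0 : ℝ)..1, f (t : EReal).toENNReal
      = ∫ t in (0 : ℝ)..1, f (ENNReal.ofReal t) := by
    apply intervalIntegral.integral_congr
    intro t _
    simp only
    rw [EReal.toENNReal_of_ne_top (EReal.coe_ne_top _), EReal.toReal_coe]
  rw [e] at h
  refine h.congr (fun T => ?_)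
  rw [avg_entries]
  rfl

/-- The lower bound for a summand from the lower bound for the total and the upper bound for the
complement. -/
theorem low_of_total {s1 s2 st : ℕ → Multiset (PadicAlgCl p)} {β1 β2 : ℕ → ℝ} {q C : ℝ}
    (hC : 0 ≤ C) (hβ : ∀ n, β1 n + β2 n = q)
    (hadd : ∀ (n : ℕ) (x : ℝ), 0 ≤ x → x ≤ n / 2 →
      GG (p : ℝ) (st n) x = GG (p : ℝ) (s1 n) x + GG (p : ℝ) (s2 n) x)
    (hup2 : ∀ (n : ℕ) (x : ℝ), 0 ≤ x → x ≤ n / 2 →
      GG (p : ℝ) (s2 n) x ≤ β2 n * x ^ 2 / 2 + C * (x + 1))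
    (hlow : ∀ ε : ℝ, 0 < ε → ∃ E : Set ℕ, DZ E ∧ ∀ᶠ n : ℕ in atTop, n ∉ E →
      ∀ x : ℝ, ε * n ≤ x → x ≤ (1 - ε) * n / ((p : ℝ) + 1) →
        q * x ^ 2 / 2 - ε * n ^ 2 ≤ GG (p : ℝ) (st n) x) :
    ∀ ε : ℝ, 0 < ε → ∃ E : Set ℕ, DZ E ∧ ∀ᶠ n : ℕ in atTop, n ∉ E →
      ∀ x : ℝ, ε * n ≤ x → x ≤ (1 - ε) * n / ((p : ℝ) + 1) →
        β1 n * x ^ 2 / 2 - ε * n ^ 2 ≤ GG (p : ℝ) (s1 n) x := by
  intro ε hε
  obtain ⟨E, hE, hE'⟩ := hlow (min (ε / 2) 1) (lt_min (by positivity) one_pos)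
  refine ⟨E, hE, ?_⟩
  have hbig : ∀ᶠ n : ℕ in atTop, 2 * C / ε * 2 ≤ (n : ℝ) ∧ (1 : ℝ) ≤ n := by
    have t3 : Tendsto (fun n : ℕ => (n : ℝ)) atTop atTop := tendsto_natCast_atTop_atTop
    exact (t3.eventually_ge_atTop _).and (t3.eventually_ge_atTop 1)
  filter_upwards [hE', hbig] with n hn1 hn2 hnE x hx1 hx2
  have hn0 : (0 : ℝ) ≤ n := by linarith [hn2.2]
  have hp1 : (1 : ℝ) < p := one_lt_pF
  have hx0 : 0 ≤ x := le_trans (by positivity) hx1
  have a1 : min (ε / 2) 1 * (n : ℝ) ≤ x := by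
    refine le_trans (mul_le_mul_of_nonneg_right ((min_le_left _ _).trans (by linarith)) hn0) hx1
  have a2 : x ≤ (1 - min (ε / 2) 1) * n / ((p : ℝ) + 1) := by
    refine hx2.trans ?_
    have : min (ε / 2) 1 ≤ ε := (min_le_left _ _).trans (by linarith)
    gcongr
  have hxn : x ≤ n / 2 := by
    refine hx2.trans ?_
    rw [div_le_div_iff₀ (by positivity) (by norm_num)]
    nlinarith
  have b1 := hn1 hnE x a1 a2
  have b2 := hup2 n x hx0 hxn
  rw [hadd n x hx0 hxn] at b1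
  have b3 : min (ε / 2) 1 * (n : ℝ) ^ 2 ≤ ε / 2 * (n : ℝ) ^ 2 :=
    mul_le_mul_of_nonneg_right (min_le_left _ _) (by positivity)
  have b4 : C * (x + 1) ≤ ε / 2 * (n : ℝ) ^ 2 := by
    have h1 : C * (x + 1) ≤ C * (2 * n) := mul_le_mul_of_nonneg_left (by linarith [hn2.2]) hC
    have h2 := hn2.1
    rw [div_mul_eq_mul_div, div_le_iff₀ hε] at h2
    nlinarith
  have b5 : q * x ^ 2 / 2 = β1 n * x ^ 2 / 2 + β2 n * x ^ 2 / 2 := by
    rw [← hβ n]; ring
  linarith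

end

end Gouvea
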