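import Pool.Agent.Work.MP_d3517d_nt.Base
import Pool.Agent.Work.MP_d3517d_nt.Coord

/-!
# Existence of frames (MP_d3517d_nt, M15)
-/

open Polynomial Finset

noncomputable section

namespace Gouvea

variable {p : ℕ} [Fact p.Prime] {Ω : Type} [MulAction (G p) Ω]

lemma toG_injective : Function.Injective (toG (p := p)) := by
  intro a b h
  apply Units.ext
  ext i j
  have h1 : ((a i j : ℤ_[p]) : ℚ_[p]) = ((b i j : ℤ_[p]) : ℚ_[p]) := by
    rw [← toG_apply, ← toG_apply, h]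
  exact Subtype.ext h1

lemma toG_neg (k : K0 p) : toG (-k) = -toG k := by
  apply Units.ext
  ext i j
  change ((-(k i j) : ℤ_[p]) : ℚ_[p]) = -((k i j : ℤ_[p]) : ℚ_[p])
  exact PadicInt.coe_neg _

lemma toG_mem_Iw {k : K0 p} (hk : k ∈ Iw0 p) : toG k ∈ Iw p := by
  refine ⟨toG_mem_K k, ?_⟩
  rw [toG_apply]
  exact (PadicInt.norm_lt_one_iff_dvd _).2 (mem_Iw0.1 hk)

lemma exists_toG_Iw {g : G p} (hg : g ∈ Iw p) : ∃ k ∈ Iw0 p, toG k = g := by
  obtain ⟨k, rfl⟩ := (mem_K_iff_toG g).1 hg.1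
  refine ⟨k, ?_, rfl⟩
  rw [mem_Iw0, ← PadicInt.norm_lt_one_iff_dvd]
  exact hg.2

/-- a transversal gives the class function and the translating element. -/
lemma Transv.exists_fun {H : Subgroup (G p)} {E : Type} {x : E → Ω} (hx : Transv H x) :
    ∃ (c : Ω → E) (k : Ω → G p), (∀ ω, k ω ∈ H) ∧ (∀ ω, k ω • x (c ω) = ω) ∧
      (∀ g ∈ H, ∀ ω, c (g • ω) = c ω) ∧ ∀ e, c (x e) = e := by
  choose c k hk hck using hx.surj
  refine ⟨c, k, hk, fun ω => (hck ω).symm, ?_, ?_⟩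
  · intro g hg ω
    apply hx.inj (c (g • ω)) (c ω) ((k ω)⁻¹ * g⁻¹ * k (g • ω))
      (H.mul_mem (H.mul_mem (H.inv_mem (hk ω)) (H.inv_mem hg)) (hk _))
    rw [mul_smul, mul_smul, ← hck (g • ω), inv_smul_smul, inv_smul_eq_iff]
    exact hck ω
  · intro e
    exact hx.inj (c (x e)) e (k (x e)) (hk _) (hck (x e)).symm

theorem exists_frame (hst : ∀ k ∈ K p, ∀ ω : Ω, k • ω = ω → k = 1 ∨ k = -1)
    (hscal : ∀ ω : Ω, scal p • ω = ω) (hfin : Finite (MulAction.orbitRel.Quotient (K p) Ω)) :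
    ∃ (V E : Type) (_ : Fintype V) (_ : DecidableEq V) (_ : Fintype E) (_ : DecidableEq E),
      Fintype.card V = Nat.card (MulAction.orbitRel.Quotient (K p) Ω) ∧
      Fintype.card E = (p + 1) * Nat.card (MulAction.orbitRel.Quotient (K p) Ω) ∧
      Nonempty (Frame p Ω E V) := by
  obtain ⟨V, E, i1, i2, i3, i4, y, x, σ, t, hV, hE, hy, hx, hσ, ht, htt⟩ :=
    exists_base hst hscal hfin
  obtain ⟨cE, kE, h1, h2, h3, h4⟩ := hx.exists_fun
  obtain ⟨cV, kV, h5, h6, h7, h8⟩ := hy.exists_fun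
  choose kE' hkE' hkE2 using fun ω => exists_toG_Iw (h1 ω)
  choose kV' hkV' using fun ω => (mem_K_iff_toG (kV ω)).1 (h5 ω)
  choose t' ht' ht2 using fun e => exists_toG_Iw (ht e).1
  have hco : ∀ e i j, (((t' e) i j : ℤ_[p]) : ℚ_[p]) = t e i j := fun e i j => by
    rw [← toG_apply, ht2]
  refine ⟨V, E, i1, i2, i3, i4, hV, hE, ⟨{
    x := x, y := y, cE := cE, cV := cV, kE := kE', kV := kV', kE_mem := hkE',
    kE_smul := fun w => by rw [hkE2, h2], kV_smul := fun w => by rw [hkV', h6],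
    cE_smul := fun k hk w => h3 _ (toG_mem_Iw hk) w,
    cV_smul := fun k w => h7 _ (toG_mem_K k) w,
    cE_x := h4, cV_y := h8, σ := σ, σσ := hσ, t := t',
    t01 := fun e => ?_, t10 := fun e => ?_,
    eta_x := fun e => by rw [htt, ht2], free := fun k w h => ?_, scal_smul := hscal }⟩⟩
  · exact Subtype.ext ((hco e 0 1).trans (ht e).2.1)
  · exact Subtype.ext ((hco e 1 0).trans (ht e).2.2)
  · rcases hst _ (toG_mem_K k) w h with h' | h'
    · left
      apply toG_injective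
      rw [h', map_one]
    · right
      apply toG_injective
      rw [h', toG_neg, map_one]

end Gouvea
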