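import Pool.Agent.Work.MP_d3517d_nt.Basic

/-!
# Rules for the Gauss bound `GB`
-/

open Polynomial Finset

noncomputable section

namespace Gouvea

variable {p : ℕ} [Fact p.Prime]

theorem p_pos : (0 : ℝ) < p := by exact_mod_cast (Fact.out : p.Prime).pos

theorem one_lt_p : (1 : ℝ) < p := by exact_mod_cast (Fact.out : p.Prime).one_lt

theorem VB.mono {x : ℚ_[p]} {Λ Λ' : ℤ} (h : VB p x Λ) (hΛ : Λ' ≤ Λ) : VB p x Λ' :=
  le_trans h (zpow_le_zpow_right₀ one_lt_p.le (by omega))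

theorem VB.zero (Λ : ℤ) : VB p (0 : ℚ_[p]) Λ := by
  unfold VB
  rw [norm_zero]
  exact zpow_nonneg p_pos.le _

theorem VB.add {x y : ℚ_[p]} {Λ : ℤ} (hx : VB p x Λ) (hy : VB p y Λ) : VB p (x + y) Λ :=
  (Padic.nonarchimedean x y).trans (max_le hx hy)

theorem VB.neg {x : ℚ_[p]} {Λ : ℤ} (hx : VB p x Λ) : VB p (-x) Λ := by
  unfold VB
  rw [norm_neg]
  exact hx

theorem VB.sub {x y : ℚ_[p]} {Λ : ℤ} (hx : VB p x Λ) (hy : VB p y Λ) : VB p (x - y) Λ := by
  rw [sub_eq_add_neg]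
  exact hx.add hy.neg

theorem VB.mul {x y : ℚ_[p]} {Λ Λ' : ℤ} (hx : VB p x Λ) (hy : VB p y Λ') :
    VB p (x * y) (Λ + Λ') := by
  unfold VB at *
  rw [norm_mul, neg_add, zpow_add₀ p_pos.ne']
  exact mul_le_mul hx hy (norm_nonneg _) (zpow_nonneg p_pos.le _)

theorem VB.sum {ι : Type*} {s : Finset ι} {f : ι → ℚ_[p]} {Λ : ℤ}
    (h : ∀ i ∈ s, VB p (f i) Λ) : VB p (∑ i ∈ s, f i) Λ := by
  classical
  induction s using Finset.induction_on with
  | empty => rw [Finset.sum_empty]; exact VB.zero _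
  | insert i s hi ih =>
    rw [Finset.sum_insert hi]
    exact (h i (Finset.mem_insert_self i s)).add
      (ih fun j hj => h j (Finset.mem_insert_of_mem hj))

theorem VB.one : VB p (1 : ℚ_[p]) 0 := by
  unfold VB
  simp

theorem VB.p_pow (n : ℕ) : VB p ((p : ℚ_[p]) ^ n) n := by
  unfold VB
  rw [norm_pow, Padic.norm_p, inv_pow, zpow_neg, zpow_natCast]

theorem VB.intCast (n : ℤ) : VB p (n : ℚ_[p]) 0 := by
  unfold VB
  rw [neg_zero, zpow_zero]
  exact Padic.norm_int_le_one n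

theorem VB.prod {ι : Type*} {s : Finset ι} {f : ι → ℚ_[p]} {Λ : ι → ℤ}
    (h : ∀ i ∈ s, VB p (f i) (Λ i)) : VB p (∏ i ∈ s, f i) (∑ i ∈ s, Λ i) := by
  classical
  induction s using Finset.induction_on with
  | empty => rw [Finset.sum_empty, Finset.prod_empty]; exact VB.one
  | insert i s hi ih =>
    rw [Finset.sum_insert hi, Finset.prod_insert hi]
    exact (h i (Finset.mem_insert_self i s)).mul
      (ih fun j hj => h j (Finset.mem_insert_of_mem hj))

theorem GB.mono {F : ℚ_[p][X]} {Λ Λ' : ℤ} (h : GB p F Λ) (hΛ : Λ' ≤ Λ) : GB p F Λ' :=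
  fun i => (h i).mono hΛ

theorem GB.zero (Λ : ℤ) : GB p (0 : ℚ_[p][X]) Λ := fun i => by
  rw [coeff_zero]
  exact VB.zero _

theorem GB.add {F G : ℚ_[p][X]} {Λ : ℤ} (hF : GB p F Λ) (hG : GB p G Λ) : GB p (F + G) Λ :=
  fun i => by
    rw [coeff_add]
    exact (hF i).add (hG i)

theorem GB.neg {F : ℚ_[p][X]} {Λ : ℤ} (hF : GB p F Λ) : GB p (-F) Λ := fun i => by
  rw [coeff_neg]
  exact (hF i).neg

theorem GB.sub {F G : ℚ_[p][X]} {Λ : ℤ} (hF : GB p F Λ) (hG : GB p G Λ) : GB p (F - G) Λ := by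
  rw [sub_eq_add_neg]
  exact hF.add hG.neg

theorem GB.sum {ι : Type*} {s : Finset ι} {f : ι → ℚ_[p][X]} {Λ : ℤ}
    (h : ∀ i ∈ s, GB p (f i) Λ) : GB p (∑ i ∈ s, f i) Λ := fun k => by
  rw [finsetSum_coeff]
  exact VB.sum fun i hi => h i hi k

theorem GB.mul {F G : ℚ_[p][X]} {Λ Λ' : ℤ} (hF : GB p F Λ) (hG : GB p G Λ') :
    GB p (F * G) (Λ + Λ') := fun i => by
  rw [coeff_mul]
  exact VB.sum fun x _ => (hF _).mul (hG _)

theorem GB.C {x : ℚ_[p]} {Λ : ℤ} (hx : VB p x Λ) : GB p (C x) Λ := fun i => by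
  rw [coeff_C]
  split_ifs
  · exact hx
  · exact VB.zero _

theorem GB.one : GB p (1 : ℚ_[p][X]) 0 := by
  rw [← C_1]
  exact GB.C VB.one

theorem GB.prod {ι : Type*} {s : Finset ι} {f : ι → ℚ_[p][X]} {Λ : ι → ℤ}
    (h : ∀ i ∈ s, GB p (f i) (Λ i)) : GB p (∏ i ∈ s, f i) (∑ i ∈ s, Λ i) := by
  classical
  induction s using Finset.induction_on with
  | empty => rw [Finset.sum_empty, Finset.prod_empty]; exact GB.one
  | insert i s hi ih =>
    rw [Finset.sum_insert hi, Finset.prod_insert hi]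
    exact (h i (Finset.mem_insert_self i s)).mul
      (ih fun j hj => h j (Finset.mem_insert_of_mem hj))

theorem GB.prod_zero {ι : Type*} {s : Finset ι} {f : ι → ℚ_[p][X]}
    (h : ∀ i ∈ s, GB p (f i) 0) : GB p (∏ i ∈ s, f i) 0 := by
  have h1 := GB.prod (Λ := fun _ => 0) h
  rwa [Finset.sum_const_zero] at h1

/-- determinants of matrices with integral entries -/
theorem GB.det {n : Type*} [Fintype n] [DecidableEq n] {A : Matrix n n ℚ_[p][X]}
    (h : ∀ i j, GB p (A i j) 0) : GB p A.det 0 := by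
  rw [Matrix.det_apply']
  refine GB.sum fun σ _ => ?_
  have h1 : GB p (∏ i, A (σ i) i) 0 := GB.prod_zero fun i _ => h _ _
  have h2 : GB p (((Equiv.Perm.sign σ : ℤ) : ℚ_[p][X])) 0 := by
    rw [← map_intCast (Polynomial.C : ℚ_[p] →+* ℚ_[p][X])]
    exact GB.C (VB.intCast _)
  have h3 := h2.mul h1
  rwa [add_zero] at h3

/-- evaluation at an integral point -/
theorem GB.eval {F : ℚ_[p][X]} {Λ : ℤ} (hF : GB p F Λ) {x : ℚ_[p]} (hx : VB p x 0) :
    VB p (F.eval x) Λ := by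
  rw [eval_eq_sum_range]
  refine VB.sum fun i _ => ?_
  have h1 : VB p (x ^ i) 0 := by
    unfold VB at *
    rw [norm_pow]
    rw [neg_zero, zpow_zero] at *
    exact pow_le_one₀ (norm_nonneg _) hx
  have h2 := (hF i).mul h1
  rwa [add_zero] at h2

end Gouvea
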