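import Mathlib

/-!
# Newton functions of polynomials over a nonarchimedean field

For a nonarchimedean normed field `K`, a number `p > 1` and a polynomial `P` put
`F_P(x) = min_r (v(e_r) - r x)`, where `v = - log_p ‖.‖` and `e_r` are the coefficients of `P`.
If `P = prod (1 - a X)` over a multiset of elements `a` then `F_P(x) = - sum (x - v a)^+`.
-/

namespace Pool.Agent.Gouv

open Polynomial

noncomputable section

variable {K : Type*} [NormedField K]

/-- The valuation `- log_p ‖a‖` (the value at `0` is the junk value `0`). -/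
def vv (p : ℝ) (a : K) : ℝ := - Real.logb p ‖a‖

/-- The Newton function `F_P(x) = min_r (v(e_r) - r x)` of a nonzero polynomial. -/
def FF (p : ℝ) (P : K[X]) (x : ℝ) : ℝ :=
  - Real.logb p (P.gaussNorm (NormedField.toAbsoluteValue K) (p ^ x))

/-- The positive part `(x - v a)^+`, which is `0` for `a = 0`. -/
def pp (p : ℝ) (a : K) (x : ℝ) : ℝ := Real.logb p (max 1 (‖a‖ * p ^ x))

variable {p : ℝ}

theorem toAbs_apply (a : K) : NormedField.toAbsoluteValue K a = ‖a‖ := rfl

theorem pp_zero (x : ℝ) : pp p (0 : K) x = 0 := by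
  simp [pp]

theorem pp_nonneg (hp : 1 < p) (a : K) (x : ℝ) : 0 ≤ pp p a x :=
  Real.logb_nonneg hp (le_max_left _ _)

theorem pp_eq (hp : 1 < p) {a : K} (ha : a ≠ 0) (x : ℝ) : pp p a x = max 0 (x - vv p a) := by
  have hp0 : 0 < p := by linarith
  have ha' : 0 < ‖a‖ := norm_pos_iff.mpr ha
  have hc : (0 : ℝ) < p ^ x := Real.rpow_pos_of_pos hp0 x
  have h1 : Real.logb p (‖a‖ * p ^ x) = x - vv p a := by
    rw [Real.logb_mul ha'.ne' hc.ne', Real.logb_rpow hp0 hp.ne', vv]; ring
  unfold pp
  rcases le_total 1 (‖a‖ * p ^ x) with h | h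
  · rw [max_eq_right h, h1, max_eq_right]
    rw [← h1]; exact Real.logb_nonneg hp h
  · rw [max_eq_left h, Real.logb_one, max_eq_left]
    rw [← h1]; exact Real.logb_nonpos hp (by positivity) h

theorem FF_pos (hp : 1 < p) {P : K[X]} (hP : P ≠ 0) (x : ℝ) :
    0 < P.gaussNorm (NormedField.toAbsoluteValue K) (p ^ x) := by
  have hp0 : 0 < p := by linarith
  have hc : (0 : ℝ) < p ^ x := Real.rpow_pos_of_pos hp0 x
  have h := P.gaussNorm_nonneg (NormedField.toAbsoluteValue K) hc.le
  rcases h.lt_or_eq with h | h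
  · exact h
  · exact absurd ((gaussNorm_eq_zero_iff (NormedField.toAbsoluteValue K) P
      (fun x hx => (AbsoluteValue.eq_zero _).mp hx) hc).1 h.symm) hP

theorem FF_mul (hp : 1 < p) (hna : IsNonarchimedean (NormedField.toAbsoluteValue K))
    {P Q : K[X]} (hP : P ≠ 0) (hQ : Q ≠ 0) (x : ℝ) :
    FF p (P * Q) x = FF p P x + FF p Q x := by
  have hp0 : 0 < p := by linarith
  have hc : (0 : ℝ) < p ^ x := Real.rpow_pos_of_pos hp0 x
  unfold FF
  rw [gaussNorm_mul hna hc, Real.logb_mul (FF_pos hp hP x).ne' (FF_pos hp hQ x).ne']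
  ring

/-- `F_P(x) ≤ v(e_r) - r x`. -/
theorem FF_le (hp : 1 < p) {P : K[X]} {r : ℕ} (hr : P.coeff r ≠ 0) (x : ℝ) :
    FF p P x ≤ vv p (P.coeff r) - r * x := by
  have hp0 : 0 < p := by linarith
  have hc : (0 : ℝ) < p ^ x := Real.rpow_pos_of_pos hp0 x
  have h := P.le_gaussNorm (NormedField.toAbsoluteValue K) hc.le r
  rw [toAbs_apply] at h
  have h0 : 0 < ‖P.coeff r‖ := norm_pos_iff.mpr hr
  have h1 : Real.logb p (‖P.coeff r‖ * (p ^ x) ^ r)
      ≤ Real.logb p (P.gaussNorm (NormedField.toAbsoluteValue K) (p ^ x)) :=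
    Real.logb_le_logb_of_le hp (by positivity) h
  rw [Real.logb_mul h0.ne' (by positivity), ← Real.rpow_natCast, ← Real.rpow_mul hp0.le,
    Real.logb_rpow hp0 hp.ne'] at h1
  unfold FF vv
  nlinarith

/-- A lower bound for all `v(e_r) - r x` is a lower bound for `F_P(x)`. -/
theorem le_FF (hp : 1 < p) {P : K[X]} (hP : P ≠ 0) {x b : ℝ}
    (h : ∀ r, P.coeff r ≠ 0 → b ≤ vv p (P.coeff r) - r * x) : b ≤ FF p P x := by
  have hp0 : 0 < p := by linarith
  have hc : (0 : ℝ) < p ^ x := Real.rpow_pos_of_pos hp0 x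
  obtain ⟨r, hr⟩ := P.exists_eq_gaussNorm (NormedField.toAbsoluteValue K) (p ^ x)
  have hpos := FF_pos hp hP x
  rw [hr, toAbs_apply] at hpos
  have h0 : P.coeff r ≠ 0 := by
    intro h0
    rw [h0] at hpos; simp at hpos
  have h0' : 0 < ‖P.coeff r‖ := norm_pos_iff.mpr h0
  have h1 := h r h0
  unfold FF
  rw [hr, toAbs_apply, Real.logb_mul h0'.ne' (by positivity), ← Real.rpow_natCast,
    ← Real.rpow_mul hp0.le, Real.logb_rpow hp0 hp.ne']
  unfold vv at h1
  nlinarith

theorem one_sub_ne_zero (a : K) : (1 - C a * X : K[X]) ≠ 0 := by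
  intro h
  have := congrArg (fun Q => Q.coeff 0) h
  simp at this

theorem FF_one_sub (hp : 1 < p) (a : K) (x : ℝ) :
    FF p (1 - C a * X : K[X]) x = - pp p a x := by
  have hp0 : 0 < p := by linarith
  have hc : (0 : ℝ) < p ^ x := Real.rpow_pos_of_pos hp0 x
  unfold FF pp
  congr 1
  congr 1
  apply le_antisymm
  · obtain ⟨r, hr⟩ := (1 - C a * X : K[X]).exists_eq_gaussNorm (NormedField.toAbsoluteValue K)
      (p ^ x)
    rw [hr, toAbs_apply]
    rcases r with _ | _ | r
    · simp
    · simp [coeff_one]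
    · have : (1 - C a * X : K[X]).coeff (r + 1 + 1) = 0 := by
        simp [coeff_one]
      rw [this]; simp
  · apply max_le
    · have := (1 - C a * X : K[X]).le_gaussNorm (NormedField.toAbsoluteValue K) hc.le 0
      rw [toAbs_apply] at this
      simpa using this
    · have := (1 - C a * X : K[X]).le_gaussNorm (NormedField.toAbsoluteValue K) hc.le 1
      rw [toAbs_apply] at this
      simpa [coeff_one] using this

theorem prod_ne_zero' (s : Multiset K) :
    (s.map (fun a => (1 - C a * X : K[X]))).prod ≠ 0 := by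
  apply Multiset.prod_ne_zero
  intro h
  obtain ⟨a, _, ha⟩ := Multiset.mem_map.1 h
  exact one_sub_ne_zero a ha

/-- `F_P(x) = - sum (x - v a)^+` for `P = prod (1 - a X)`. -/
theorem FF_prod (hp : 1 < p) (hna : IsNonarchimedean (NormedField.toAbsoluteValue K))
    (s : Multiset K) (x : ℝ) :
    FF p (s.map (fun a => (1 - C a * X : K[X]))).prod x = - (s.map (fun a => pp p a x)).sum := by
  induction s using Multiset.induction_on with
  | empty =>
    have := FF_one_sub hp (0 : K) x
    rw [pp_zero] at this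
    simpa using this
  | cons a s ih =>
    rw [Multiset.map_cons, Multiset.prod_cons, FF_mul hp hna (one_sub_ne_zero a)
      (prod_ne_zero' s), ih, FF_one_sub hp, Multiset.map_cons, Multiset.sum_cons]
    ring

theorem pp_nonneg' (hp : 1 < p) (s : Multiset K) (x : ℝ) :
    0 ≤ (s.map (fun a => pp p a x)).sum := by
  apply Multiset.sum_nonneg
  intro y hy
  obtain ⟨a, _, rfl⟩ := Multiset.mem_map.1 hy
  exact pp_nonneg hp a x

/-! ### Compatibility with isometric embeddings, and characteristic polynomials -/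

variable {L : Type*} [NormedField L]

theorem FF_map (f : K →+* L) (hf : ∀ a, ‖f a‖ = ‖a‖) (P : K[X]) (x : ℝ) :
    FF p (P.map f) x = FF p P x := by
  have hsupp : (P.map f).support = P.support := by
    ext r
    simp [mem_support_iff, coeff_map]
  unfold FF gaussNorm
  congr 2
  by_cases h : P.support.Nonempty
  · have h' : (P.map f).support.Nonempty := by rw [hsupp]; exact h
    rw [dif_pos h, dif_pos h']
    apply le_antisymm
    · apply Finset.sup'_le
      intro i hi
      rw [hsupp] at hi
      refine le_trans (le_of_eq ?_) (Finset.le_sup' _ hi)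
      rw [toAbs_apply, toAbs_apply, coeff_map, hf]
    · apply Finset.sup'_le
      intro i hi
      rw [← hsupp] at hi
      refine le_trans (le_of_eq ?_) (Finset.le_sup' _ hi)
      rw [toAbs_apply, toAbs_apply, coeff_map, hf]
  · have h' : ¬ (P.map f).support.Nonempty := by rw [hsupp]; exact h
    rw [dif_neg h, dif_neg h']

theorem reverse_X_sub_C (a : K) : (X - C a : K[X]).reverse = 1 - C a * X := by
  have h : (X - C a : K[X]) = C 1 * X + C (-a) := by simp [sub_eq_add_neg]
  rw [h, reverse, natDegree_linear (one_ne_zero)]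
  ext r
  rw [coeff_reflect]
  rcases r with _ | _ | r
  · rw [revAt_le (by norm_num)]
    simp
  · rw [revAt_le (by norm_num)]
    simp [coeff_one]
  · have : revAt 1 (r + 1 + 1) = r + 1 + 1 := by
      rw [revAt_eq_self_of_lt]; omega
    rw [this]
    simp [coeff_X, coeff_one]

theorem reverse_prod (s : Multiset K) :
    (s.map (fun a => (X - C a : K[X]))).prod.reverse
      = (s.map (fun a => (1 - C a * X : K[X]))).prod := by
  induction s using Multiset.induction_on with
  | empty =>
    rw [Multiset.map_zero, Multiset.prod_zero, Multiset.map_zero, Multiset.prod_zero, ← C_1,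
      reverse_C]
  | cons a s ih =>
    rw [Multiset.map_cons, Multiset.prod_cons, reverse_mul_of_domain, ih, reverse_X_sub_C,
      Multiset.map_cons, Multiset.prod_cons]

/-- `det (1 - X M) = prod (1 - a X)` over the eigenvalues `a` of `M`. -/
theorem charpolyRev_eq [IsAlgClosed K] {n : Type*} [Fintype n] [DecidableEq n]
    (M : Matrix n n K) :
    M.charpolyRev = (M.charpoly.roots.map (fun a => (1 - C a * X : K[X]))).prod := by
  rw [← Matrix.reverse_charpoly, ← reverse_prod]
  congr 1
  have h := (IsAlgClosed.splits M.charpoly).eq_prod_roots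
  rw [(M.charpoly_monic).leadingCoeff, C_1, one_mul] at h
  exact h

theorem charpolyRev_map {R S : Type*} [CommRing R] [CommRing S] {n : Type*} [Fintype n]
    [DecidableEq n] (f : R →+* S) (M : Matrix n n R) :
    (M.map f).charpolyRev = M.charpolyRev.map f := by
  unfold Matrix.charpolyRev
  rw [← coe_mapRingHom, RingHom.map_det]
  congr 1
  ext i j : 2
  by_cases hij : i = j
  · subst hij; simp [Matrix.map_apply]
  · simp [Matrix.map_apply, hij]

/-- The Newton function of `det (1 - X M)` in terms of the eigenvalues of `M` in an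
algebraically closed extension. -/
theorem FF_charpolyRev [IsAlgClosed L] (hp : 1 < p)
    (hna : IsNonarchimedean (NormedField.toAbsoluteValue L))
    (f : K →+* L) (hf : ∀ a, ‖f a‖ = ‖a‖) {n : Type*} [Fintype n] [DecidableEq n]
    (M : Matrix n n K) (x : ℝ) :
    FF p M.charpolyRev x
      = - ((M.charpoly.map f).roots.map (fun a => pp p a x)).sum := by
  rw [← FF_map f hf, ← charpolyRev_map, charpolyRev_eq, FF_prod hp hna, Matrix.charpoly_map]

/-! ### Convexity: from the Newton function to the number of eigenvalues -/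

/-- The number of elements with `v ≤ x`. -/
def cnt (p : ℝ) (s : Multiset K) (x : ℝ) : ℕ :=
  (s.filter (fun a => p ^ (-x) ≤ ‖a‖)).card

theorem le_norm_iff (hp : 1 < p) {a : K} (ha : a ≠ 0) (x : ℝ) :
    p ^ (-x) ≤ ‖a‖ ↔ vv p a ≤ x := by
  have hp0 : 0 < p := by linarith
  have ha' : 0 < ‖a‖ := norm_pos_iff.mpr ha
  rw [vv, ← Real.le_logb_iff_rpow_le hp ha']
  constructor <;> intro h <;> linarith

theorem not_le_norm_zero (hp : 1 < p) (x : ℝ) : ¬ p ^ (-x) ≤ ‖(0 : K)‖ := by
  rw [norm_zero, not_le]
  exact Real.rpow_pos_of_pos (by linarith) _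

theorem cnt_mono (hp : 1 < p) (s : Multiset K) {x y : ℝ} (hxy : x ≤ y) :
    cnt p s x ≤ cnt p s y := by
  unfold cnt
  apply Multiset.card_le_card
  apply Multiset.monotone_filter_right
  intro a ha
  exact le_trans (Real.rpow_le_rpow_of_exponent_le hp.le (by linarith)) ha

theorem slope (hp : 1 < p) (s : Multiset K) {x y : ℝ} (hxy : x ≤ y) :
    (y - x) * cnt p s x ≤ (s.map (fun a => pp p a y)).sum - (s.map (fun a => pp p a x)).sum ∧
    (s.map (fun a => pp p a y)).sum - (s.map (fun a => pp p a x)).sum ≤ (y - x) * cnt p s y := by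
  induction s using Multiset.induction_on with
  | empty => simp [cnt]
  | cons a s ih =>
    have key : (y - x) * (if p ^ (-x) ≤ ‖a‖ then 1 else 0) ≤ pp p a y - pp p a x ∧
        pp p a y - pp p a x ≤ (y - x) * (if p ^ (-y) ≤ ‖a‖ then 1 else 0) := by
      by_cases ha : a = 0
      · subst ha
        rw [if_neg (not_le_norm_zero hp x), if_neg (not_le_norm_zero hp y), pp_zero, pp_zero]
        simp
      · rw [pp_eq hp ha, pp_eq hp ha]
        simp only [le_norm_iff hp ha]
        rcases le_total (vv p a) x with h1 | h1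
        · have h2 : vv p a ≤ y := h1.trans hxy
          rw [if_pos h1, if_pos h2, max_eq_right (by linarith), max_eq_right (by linarith)]
          constructor <;> linarith
        · have e1 : max 0 (x - vv p a) = 0 := max_eq_left (by linarith)
          rw [e1]
          rcases le_total (vv p a) y with h2 | h2
          · rw [if_pos h2, max_eq_right (by linarith)]
            split_ifs with h3
            · constructor <;> linarith
            · constructor <;> linarith
          · rw [max_eq_left (by linarith)]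
            have h0 : 0 ≤ (y - x) * (if vv p a ≤ y then 1 else 0 : ℝ) := by
              split_ifs <;> nlinarith
            constructor
            · split_ifs with h3
              · linarith
              · simp
            · linarith
    have c1 : (cnt p (a ::ₘ s) x : ℝ) = (if p ^ (-x) ≤ ‖a‖ then 1 else 0) + cnt p s x := by
      unfold cnt
      by_cases h : p ^ (-x) ≤ ‖a‖
      · rw [Multiset.filter_cons_of_pos (p := fun a => p ^ (-x) ≤ ‖a‖) s h, if_pos h]
        push_cast [Multiset.card_cons]; ring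
      · rw [Multiset.filter_cons_of_neg (p := fun a => p ^ (-x) ≤ ‖a‖) s h, if_neg h]; ring
    have c2 : (cnt p (a ::ₘ s) y : ℝ) = (if p ^ (-y) ≤ ‖a‖ then 1 else 0) + cnt p s y := by
      unfold cnt
      by_cases h : p ^ (-y) ≤ ‖a‖
      · rw [Multiset.filter_cons_of_pos (p := fun a => p ^ (-y) ≤ ‖a‖) s h, if_pos h]
        push_cast [Multiset.card_cons]; ring
      · rw [Multiset.filter_cons_of_neg (p := fun a => p ^ (-y) ≤ ‖a‖) s h, if_neg h]; ring
    rw [c1, c2, Multiset.map_cons, Multiset.map_cons, Multiset.sum_cons, Multiset.sum_cons]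
    constructor
    · nlinarith [ih.1, key.1]
    · nlinarith [ih.2, key.2]

/-- If the Newton function is within `E` of `q x^2 / 2` on `[lo, hi]` then the number of elements
with `v ≤ x` is at most `q x + q δ / 2 + 2 E / δ` for `lo ≤ x ≤ hi - δ`. -/
theorem cnt_le_of_close (hp : 1 < p) (s : Multiset K) {q E lo hi δ x : ℝ} (hδ : 0 < δ)
    (h : ∀ y, lo ≤ y → y ≤ hi → |(s.map (fun a => pp p a y)).sum - q * y ^ 2 / 2| ≤ E)
    (h1 : lo ≤ x) (h2 : x + δ ≤ hi) :
    (cnt p s x : ℝ) ≤ q * x + q * δ / 2 + 2 * E / δ := by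
  have a1 := (slope hp s (x := x) (y := x + δ) (by linarith)).1
  have a2 := abs_le.1 (h x h1 (by linarith))
  have a3 := abs_le.1 (h (x + δ) (by linarith) h2)
  have a4 : δ * (cnt p s x : ℝ) ≤ q * δ * x + q * δ ^ 2 / 2 + 2 * E := by nlinarith
  have e : q * x + q * δ / 2 + 2 * E / δ = (q * δ * x + q * δ ^ 2 / 2 + 2 * E) / δ := by
    field_simp
  rw [e, le_div_iff₀ hδ]
  linarith

theorem le_cnt_of_close (hp : 1 < p) (s : Multiset K) {q E lo hi δ x : ℝ} (hδ : 0 < δ)
    (h : ∀ y, lo ≤ y → y ≤ hi → |(s.map (fun a => pp p a y)).sum - q * y ^ 2 / 2| ≤ E)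
    (h1 : lo ≤ x - δ) (h2 : x ≤ hi) :
    q * x - q * δ / 2 - 2 * E / δ ≤ (cnt p s x : ℝ) := by
  have a1 := (slope hp s (x := x - δ) (y := x) (by linarith)).2
  have a2 := abs_le.1 (h x (by linarith) h2)
  have a3 := abs_le.1 (h (x - δ) h1 (by linarith))
  have a4 : q * δ * x - q * δ ^ 2 / 2 - 2 * E ≤ δ * (cnt p s x : ℝ) := by nlinarith
  have e : q * x - q * δ / 2 - 2 * E / δ = (q * δ * x - q * δ ^ 2 / 2 - 2 * E) / δ := by
    field_simp
  rw [e, div_le_iff₀ hδ]
  linarith

end

end Pool.Agent.Gouv
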