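import Pool.Agent.Work.MP_d3517d_nt.GhostA
import Pool.Agent.Work.MP_d3517d_nt.Comb

/-!
# Gouvêa slope distribution (MP_d3517d_nt), M6: ghost sums
-/

set_option autoImplicit false

open Polynomial Finset

noncomputable section

namespace Gouvea

/-- the valuation is at most the number of `j ≤ J` with `p ^ j ∣ t`, if `t < p ^ (J + 1)` -/
lemma val_le {p : ℕ} (hp : p.Prime) {J t : ℕ} (ht : t ≠ 0) (hJ : t < p ^ (J + 1)) :
    padicValNat p t ≤ ∑ j ∈ range J, (if p ^ (j + 1) ∣ t then 1 else 0) := by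
  have := Fact.mk hp
  rw [← card_filter]
  have h0 : padicValNat p t ≤ J := by
    by_contra hcon
    push Not at hcon
    have h1 : p ^ (J + 1) ∣ t := (padicValNat_dvd_iff_le ht).2 hcon
    exact absurd (Nat.le_of_dvd (Nat.pos_of_ne_zero ht) h1) (not_le.2 hJ)
  have h1 : range (padicValNat p t) ⊆ (range J).filter (fun j => p ^ (j + 1) ∣ t) := by
    intro j hj
    rw [mem_range] at hj
    rw [mem_filter, mem_range]
    exact ⟨by omega, (padicValNat_dvd_iff_le ht).2 hj⟩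
  have h2 := card_le_card h1
  rwa [card_range] at h2

/-- the valuation of a difference -/
lemma vd_le {p : ℕ} (hp : p.Prime) {J a b : ℕ} (hab : a ≠ b) (ha : a < p ^ (J + 1))
    (hb : b < p ^ (J + 1)) :
    vd p a b ≤ ∑ j ∈ range J, (if b % p ^ (j + 1) = a % p ^ (j + 1) then 1 else 0) := by
  have h0 : vd p a b = padicValNat p ((a : ℤ) - b).natAbs := rfl
  rw [h0]
  refine (val_le hp (J := J) (by omega) (by omega)).trans (le_of_eq ?_)
  refine sum_congr rfl fun j _ => ?_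
  have h1 : p ^ (j + 1) ∣ ((a : ℤ) - b).natAbs ↔ b % p ^ (j + 1) = a % p ^ (j + 1) := by
    rw [← Int.natCast_dvd, ← Nat.modEq_iff_dvd]
    rfl
  by_cases h2 : p ^ (j + 1) ∣ ((a : ℤ) - b).natAbs
  · rw [if_pos h2, if_pos (h1.1 h2)]
  · rw [if_neg h2, if_neg (fun h => h2 (h1.2 h))]

/-- the number of elements of a residue class in an interval -/
lemma card_class {d a b : ℕ} (c : ℕ) (hd : 0 < d) (hab : a ≤ b) (S : Finset ℕ)
    (hS : ∀ n ∈ S, a ≤ n ∧ n < b ∧ n % d = c) : d * S.card ≤ b - a + d := by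
  have hinj : Set.InjOn (fun x : ℕ × ℕ => x.1 + x.2) ((S ×ˢ range d : Finset (ℕ × ℕ)) : Set (ℕ × ℕ)) := by
    rintro ⟨t, i⟩ hx ⟨t', i'⟩ hx' hxx
    simp only [coe_product, Set.mem_prod, mem_coe, mem_range] at hx hx'
    simp only at hxx
    have m1 : t % d = c := (hS t hx.1).2.2
    have m2 : t' % d = c := (hS t' hx'.1).2.2
    have m3 : (t + i) % d = (t' + i') % d := by rw [hxx]
    have m4 : i = i' := by
      rw [Nat.add_mod, Nat.add_mod t', m1, m2] at m3
      have m6 : c + i % d ≡ c + i' % d [MOD d] := m3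
      have m7 := Nat.ModEq.add_left_cancel' c m6
      have m8 : i % d = i' % d := by
        have := m7
        unfold Nat.ModEq at this
        rwa [Nat.mod_mod, Nat.mod_mod] at this
      rwa [Nat.mod_eq_of_lt hx.2, Nat.mod_eq_of_lt hx'.2] at m8
    subst m4
    have : t = t' := by omega
    rw [this]
  have h1 : (S ×ˢ range d).card = d * S.card := by rw [card_product, card_range, mul_comm]
  rw [← h1, ← card_image_of_injOn hinj]
  have h2 : (S ×ˢ range d).image (fun x : ℕ × ℕ => x.1 + x.2) ⊆ Ico a (b + d) := by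
    intro y hy
    rw [mem_image] at hy
    obtain ⟨⟨t, i⟩, hx, rfl⟩ := hy
    rw [mem_product, mem_range] at hx
    have := hS t hx.1
    rw [mem_Ico]
    simp only at hx ⊢
    omega
  refine (card_le_card h2).trans ?_
  rw [Nat.card_Ico]
  omega

/-- the geometric sum -/
lemma geom_le {p : ℕ} (hp : 2 ≤ p) (J : ℕ) :
    ∑ j ∈ range J, (1 / (p : ℝ)) ^ (j + 1) ≤ 1 / (p - 1) := by
  have hp1 : (1 : ℝ) < p := by exact_mod_cast (by omega : 1 < p)
  have h1 : ∀ J : ℕ, ∑ j ∈ range J, (1 / (p : ℝ)) ^ (j + 1) =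
      (1 - (1 / (p : ℝ)) ^ J) / (p - 1) := by
    intro J
    induction J with
    | zero => simp
    | succ J ih =>
      rw [sum_range_succ, ih]
      have : (p : ℝ) - 1 ≠ 0 := by linarith
      rw [one_div, inv_pow, inv_pow]
      field_simp
      ring
  rw [h1]
  have h2 : (0 : ℝ) ≤ (1 / (p : ℝ)) ^ J := by positivity
  have h3 : (0 : ℝ) < (p : ℝ) - 1 := by linarith
  gcongr
  linarith

/-- `n ≡ s` modulo `p - 1` and modulo `p ^ j` -/
lemma mod_mul_iff {p : ℕ} (hp : 2 ≤ p) {n s : ℕ} (h : n ≡ s [MOD (p - 1)]) (j : ℕ) :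
    n % p ^ j = s % p ^ j ↔ n % ((p - 1) * p ^ j) = s % ((p - 1) * p ^ j) := by
  have hco : Nat.Coprime (p - 1) (p ^ j) := by
    refine Nat.Coprime.pow_right j ?_
    have h1 : Nat.Coprime (p - 1) (p - 1 + 1) := by simp
    rwa [Nat.sub_add_cancel (by omega)] at h1
  have h2 : n ≡ s [MOD (p - 1) * p ^ j] ↔ n ≡ s [MOD (p - 1)] ∧ n ≡ s [MOD p ^ j] :=
    (Nat.modEq_and_modEq_iff_modEq_mul hco).symm
  exact ⟨fun h3 => h2.2 ⟨h, h3⟩, fun h3 => (h2.1 h3).2⟩

/-- interval bound for the valuation weights -/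
theorem IB_val {p : ℕ} [Fact p.Prime] (hp : 5 ≤ p) {s V : ℕ} (N : Finset ℕ)
    (hN : ∀ n ∈ N, n ≡ s [MOD (p - 1)] ∧ n ≠ s ∧ n < p ^ (V + 1) ∧ s < p ^ (V + 1)) :
    IB p (fun n => if n ∈ N then (vd p s n : ℝ) else 0) V := by
  have hpp : p.Prime := Fact.out
  have hp1 : (1 : ℝ) < p := by exact_mod_cast (by omega : 1 < p)
  refine ⟨fun n => ?_, fun a b hab => ?_⟩
  · show 0 ≤ if n ∈ N then (vd p s n : ℝ) else 0
    split_ifs
    · positivity
    · exact le_rfl
  · have h1 : ∀ n ∈ Ico a b, (if n ∈ N then (vd p s n : ℝ) else 0) ≤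
        ∑ j ∈ range V, (if n ∈ N ∧ n % ((p - 1) * p ^ (j + 1)) = s % ((p - 1) * p ^ (j + 1))
          then 1 else 0 : ℝ) := by
      intro n _
      by_cases hn : n ∈ N
      · obtain ⟨h2, h3, h4, h5⟩ := hN n hn
        rw [if_pos hn]
        have h6 := vd_le hpp (J := V) h3.symm h5 h4
        have h7 := (Nat.cast_le (α := ℝ)).2 h6
        refine h7.trans (le_of_eq ?_)
        rw [Nat.cast_sum]
        refine sum_congr rfl fun j _ => ?_
        have h8 := mod_mul_iff (by omega) h2 (j + 1)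
        by_cases h9 : n % p ^ (j + 1) = s % p ^ (j + 1)
        · rw [if_pos h9, if_pos ⟨hn, h8.1 h9⟩]; simp
        · rw [if_neg h9, if_neg fun h => h9 (h8.2 h.2)]; simp
      · rw [if_neg hn]
        exact sum_nonneg fun j _ => by split_ifs <;> norm_num
    refine (sum_le_sum h1).trans ?_
    rw [sum_comm]
    have h2 : ∀ j ∈ range V, (∑ n ∈ Ico a b,
        (if n ∈ N ∧ n % ((p - 1) * p ^ (j + 1)) = s % ((p - 1) * p ^ (j + 1)) then 1 else 0 : ℝ)) ≤
        ((b : ℝ) - a) / (p - 1) * (1 / (p : ℝ)) ^ (j + 1) + 1 := by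
      intro j _
      rw [← sum_filter, sum_const, nsmul_eq_mul, mul_one]
      have hd : 0 < (p - 1) * p ^ (j + 1) := Nat.mul_pos (by omega) (pow_pos (by omega) _)
      have h3 := card_class (a := a) (b := b) (s % ((p - 1) * p ^ (j + 1))) hd hab
        ((Ico a b).filter fun n => n ∈ N ∧ n % ((p - 1) * p ^ (j + 1)) = s % ((p - 1) * p ^ (j + 1)))
        fun n hn => by
          rw [mem_filter, mem_Ico] at hn
          exact ⟨hn.1.1, hn.1.2, hn.2.2⟩
      have h4 := (Nat.cast_le (α := ℝ)).2 h3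
      rw [Nat.cast_add, Nat.cast_sub hab, Nat.cast_mul] at h4
      have h5 : (((p - 1) * p ^ (j + 1) : ℕ) : ℝ) = ((p : ℝ) - 1) * (p : ℝ) ^ (j + 1) := by
        rw [Nat.cast_mul, Nat.cast_sub (by omega)]; push_cast; ring
      rw [h5] at h4
      have h6 : (0 : ℝ) < ((p : ℝ) - 1) * (p : ℝ) ^ (j + 1) := mul_pos (by linarith) (by positivity)
      rw [mul_comm, ← le_div_iff₀ h6, add_div, div_self h6.ne'] at h4
      refine h4.trans (le_of_eq ?_)
      rw [one_div, inv_pow]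
      field_simp
    refine (sum_le_sum h2).trans ?_
    rw [sum_add_distrib, ← mul_sum, sum_const, card_range, nsmul_eq_mul, mul_one]
    have h3 := geom_le (p := p) (by omega) V
    have h4 : (0 : ℝ) ≤ ((b : ℝ) - a) / (p - 1) :=
      div_nonneg (sub_nonneg.2 (by exact_mod_cast hab)) (by linarith)
    have h5 := mul_le_mul_of_nonneg_left h3 h4
    have h6 : ((b : ℝ) - a) / (p - 1) * (1 / (p - 1)) = ((b : ℝ) - a) / ((p : ℝ) - 1) ^ 2 := by
      field_simp
    rw [h6] at h5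
    linarith

/-- ghost weights lie strictly between `M` and `(p+1) M` -/
theorem ghost_range {p : ℕ} [Fact p.Prime] (_hp : 5 ≤ p) {h q M u r n : ℕ} (hq : q = (p + 1) * h) (_hh : 1 ≤ h)
    (hM : p + 2 ≤ M) (hu : u ≤ q) (hr : r + u = q * M) (hn : 0 < mr p h r n) :
    M ≤ n ∧ n + 1 < (p + 1) * M := by
  unfold mr at hn
  rw [lt_min_iff] at hn
  obtain ⟨h1, h2⟩ := hn
  have h3 : h * (n + 1) < r := Nat.lt_of_sub_pos h1
  have h4 : r < p * h * (n + 1) := Nat.lt_of_sub_pos h2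
  subst hq
  constructor
  · by_contra hcon
    push Not at hcon
    have h5 : p * h * (n + 1) ≤ p * h * M := Nat.mul_le_mul_left _ hcon
    have h6 : (p + 1) * h * M = p * h * M + h * M := by ring
    have h7 : (p + 1) * h ≤ h * M := by
      rw [mul_comm]
      exact Nat.mul_le_mul_left h (by omega)
    omega
  · have h5 : h * (n + 1) < h * ((p + 1) * M) := by
      have h6 : (p + 1) * h * M = h * ((p + 1) * M) := by ring
      omega
    exact lt_of_mul_lt_mul_left h5 (Nat.zero_le h)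

/-- `φ + ψ = i - ⌊i/p⌋`. -/
lemma phi_add_psi' {p : ℕ} [Fact p.Prime] (i : ℕ) : phi p i + psi p i + i / p = i := by
  unfold phi psi
  have h1 : padicValNat p (i.factorial) = padicValNat p (i / p).factorial + i / p := by
    rw [← padicValNat_mul_div_factorial, padicValNat_factorial_mul]
  have h2 : padicValNat p (i.factorial) ≤ i := by
    have := sub_one_mul_padicValNat_factorial (p := p) i
    have hp : 2 ≤ p := (Fact.out : p.Prime).two_le
    have h3 : padicValNat p (i.factorial) ≤ (p - 1) * padicValNat p (i.factorial) :=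
      Nat.le_mul_of_pos_left _ (by omega)
    omega
  omega

lemma lam0_eq {p : ℕ} [Fact p.Prime] (q M u : ℕ) :
    2 * Lam0 p q M u = (q : ℤ) * ((M : ℤ) * (M - 1)) - 2 * q * (∑ i ∈ range M, i / p : ℕ) -
      2 * u * (((M - 1 : ℕ) : ℤ) - ((M - 1) / p : ℕ)) := by
  have h1 : ∀ i, (phi p i : ℤ) + psi p i = i - (i / p : ℕ) := fun i => by
    have := phi_add_psi' (p := p) i
    omega
  unfold Lam0
  simp only [h1]
  rw [sum_sub_distrib]
  have h2 : 2 * ∑ i ∈ range M, (i : ℤ) = (M : ℤ) * (M - 1) := by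
    induction M with
    | zero => simp
    | succ M ih =>
      rw [sum_range_succ, mul_add, ih]
      push_cast
      ring
  rw [Nat.cast_sum]
  linear_combination (q : ℤ) * h2

/-- Lemma 3.2. `Gh` is any finite set of `κ` containing all ghost weights for `r`
other than possibly those with zero multiplicity. -/
theorem ghost_special {p : ℕ} [Fact p.Prime] (hp : 5 ≤ p) {h q n0 M u r V κ0 : ℕ}
    (hq : q = (p + 1) * h) (hh : 1 ≤ h)
    (hM : p + 2 ≤ M) (hu : u ≤ q) (hr : r + u = q * M) (hκ0 : n0 + (p - 1) * κ0 + 1 = M)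
    (hV : (p + 1) * M < p ^ (V + 1)) (Gh : Finset ℕ)
    (hGh : ∀ κ, 0 < mr p h r (n0 + (p - 1) * κ) → κ ∈ Gh) :
    ((M - 1 : ℕ) : ℤ) * (q / 2 : ℕ) * M + h * M - u * M ≤
      Lam0 p q M u + ∑ κ ∈ Gh, (mr p h r (n0 + (p - 1) * κ) : ℤ) * vd p κ0 κ +
      20 * p ^ 2 * q * V := by
  have hpp : p.Prime := Fact.out
  subst hq
  have hr' : r = (p + 1) * h * M - u := by omega
  have hJ : M ≤ (p - 1) * p ^ V := by
    have h1 : p * M < p * p ^ V := by
      calc p * M ≤ (p + 1) * M := Nat.mul_le_mul_right M (by omega)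
        _ < p ^ (V + 1) := hV
        _ = p * p ^ V := by ring
    have h2 : M < p ^ V := lt_of_mul_lt_mul_left h1 (Nat.zero_le p)
    have h3 : p ^ V ≤ (p - 1) * p ^ V := Nat.le_mul_of_pos_left _ (by omega)
    omega
  have hV1 : 1 ≤ V := by
    by_contra hcon
    have h1 : V = 0 := by omega
    subst h1
    have : p + 1 ≤ (p + 1) * M := Nat.le_mul_of_pos_right _ (by omega)
    rw [zero_add, pow_one] at hV
    omega
  have h1 := ghost_special_core (N := p * M) (J := V) hpp (by omega) (by omega) hu le_rfl hJ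
  -- the sum over `Gh`
  have h2 : ∑ t ∈ Icc 1 (p * M), mr p h ((p + 1) * h * M - u) (M - 1 + (p - 1) * t) * padicValNat p t ≤
      ∑ κ ∈ Gh, mr p h r (n0 + (p - 1) * κ) * vd p κ0 κ := by
    have hinj : Set.InjOn (fun t => κ0 + t) ((Icc 1 (p * M)).filter (fun t =>
        0 < mr p h ((p + 1) * h * M - u) (M - 1 + (p - 1) * t)) : Set ℕ) :=
      fun a _ b _ hab => Nat.add_left_cancel hab
    have h3 : ∑ t ∈ Icc 1 (p * M), mr p h ((p + 1) * h * M - u) (M - 1 + (p - 1) * t) * padicValNat p t =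
        ∑ t ∈ (Icc 1 (p * M)).filter (fun t =>
          0 < mr p h ((p + 1) * h * M - u) (M - 1 + (p - 1) * t)),
          mr p h ((p + 1) * h * M - u) (M - 1 + (p - 1) * t) * padicValNat p t := by
      rw [sum_filter]
      refine sum_congr rfl fun t _ => ?_
      split_ifs with h4
      · rfl
      · rw [Nat.eq_zero_of_not_pos h4, zero_mul]
    have h4 : ∀ t, n0 + (p - 1) * (κ0 + t) = M - 1 + (p - 1) * t := fun t => by
      rw [mul_add]; omega
    have h5 : ∑ t ∈ (Icc 1 (p * M)).filter (fun t =>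
          0 < mr p h ((p + 1) * h * M - u) (M - 1 + (p - 1) * t)),
          mr p h ((p + 1) * h * M - u) (M - 1 + (p - 1) * t) * padicValNat p t =
        ∑ κ ∈ ((Icc 1 (p * M)).filter (fun t =>
          0 < mr p h ((p + 1) * h * M - u) (M - 1 + (p - 1) * t))).image (fun t => κ0 + t),
          mr p h r (n0 + (p - 1) * κ) * vd p κ0 κ := by
      rw [sum_image hinj]
      refine sum_congr rfl fun t _ => ?_
      have h6 : vd p κ0 (κ0 + t) = padicValNat p t := by
        show padicValNat p ((κ0 : ℤ) - ((κ0 + t : ℕ) : ℤ)).natAbs = padicValNat p t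
        congr 1
        omega
      rw [h4, h6, hr']
    rw [h3, h5]
    refine sum_le_sum_of_subset ?_
    intro κ hκ
    rw [mem_image] at hκ
    obtain ⟨t, ht, rfl⟩ := hκ
    rw [mem_filter] at ht
    refine hGh _ ?_
    rw [h4, hr']
    exact ht.2
  have h3 : (∑ t ∈ Icc 1 (p * M), ((mr p h ((p + 1) * h * M - u) (M - 1 + (p - 1) * t) *
      padicValNat p t : ℕ) : ℤ)) ≤
      ∑ κ ∈ Gh, (mr p h r (n0 + (p - 1) * κ) : ℤ) * vd p κ0 κ := by
    have := (Nat.cast_le (α := ℤ)).2 h2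
    rw [Nat.cast_sum, Nat.cast_sum] at this
    simpa only [Nat.cast_mul] using this
  have h4 := lam0_eq (p := p) ((p + 1) * h) M u
  -- `q` is even
  have h5 : (((p + 1) * h / 2 : ℕ) : ℤ) * 2 = (p + 1) * h := by
    have h6 : 2 ∣ (p + 1) * h := by
      refine Dvd.dvd.mul_right ?_ h
      rcases hpp.eq_two_or_odd' with h7 | h7
      · omega
      · exact (Odd.add_one h7).two_dvd
    have := Nat.div_mul_cancel h6
    exact_mod_cast this
  have h6 : ((M - 1 : ℕ) : ℤ) = (M : ℤ) - 1 := by rw [Nat.cast_sub (by omega)]; simp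
  generalize (∑ i ∈ range M, i / p) = Φ at *
  generalize (M - 1) / p = fl at *
  rw [h6] at h4 ⊢
  push_cast at h4
  generalize ((((p + 1) * h / 2 : ℕ) : ℤ)) = Q at *
  generalize (∑ κ ∈ Gh, (mr p h r (n0 + (p - 1) * κ) : ℤ) * vd p κ0 κ) = Sg at *
  have hu' : (u : ℤ) ≤ (p + 1) * h := by exact_mod_cast hu
  have hu0 : (0 : ℤ) ≤ u := by positivity
  have hV' : (1 : ℤ) ≤ V := by exact_mod_cast hV1
  have hP : (5 : ℤ) ≤ p := by exact_mod_cast hp
  have hH : (1 : ℤ) ≤ h := by exact_mod_cast hh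
  have e1 : ((p : ℤ) + 1) * h = Q * 2 := h5.symm
  -- error terms
  have b1 : (h : ℤ) * p ^ 2 + 4 * u + 8 * u * V ≤ 80 * p ^ 2 * ((p + 1) * h) * V := by
    have c1 : (h : ℤ) * p ^ 2 ≤ p ^ 2 * ((p + 1) * h) * V := by
      have : (h : ℤ) * p ^ 2 * 1 ≤ h * p ^ 2 * ((p + 1) * V) := by
        refine mul_le_mul_of_nonneg_left ?_ (by positivity)
        nlinarith
      linarith
    have c2 : (u : ℤ) ≤ p ^ 2 * ((p + 1) * h) * V := by
      have : ((p : ℤ) + 1) * h * 1 ≤ (p + 1) * h * (p ^ 2 * V) := by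
        refine mul_le_mul_of_nonneg_left ?_ (by positivity)
        nlinarith
      linarith
    have c3 : (u : ℤ) * V ≤ p ^ 2 * ((p + 1) * h) * V := by
      have d1 : (u : ℤ) * V ≤ (p + 1) * h * V := mul_le_mul_of_nonneg_right hu' (by positivity)
      have d2 : ((p : ℤ) + 1) * h * V * 1 ≤ (p + 1) * h * V * p ^ 2 := by
        refine mul_le_mul_of_nonneg_left ?_ (by positivity)
        nlinarith
      linarith
    nlinarith
  have e2 : 4 * (((M : ℤ) - 1) * Q * M + h * M - u * M) =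
      2 * (((p : ℤ) + 1) * h * (M * (M - 1))) + 4 * h * M - 4 * u * M := by
    rw [e1]; ring
  refine le_of_mul_le_mul_left ?_ (by norm_num : (0 : ℤ) < 4)
  rw [e2]
  push_cast
  linarith


/-! ### Section 6 -/

/-- the shape of the ghost multiplicity as a function of the weight -/
lemma mr_shape {p h r x : ℕ} (hp : 1 ≤ p) :
    ((min (r - h * x) (p * h * x - r) : ℕ) : ℤ) =
      ((r - h * x : ℕ) : ℤ) - ((2 * r - (p + 1) * h * x : ℕ) : ℤ) + ((r - p * h * x : ℕ) : ℤ) := by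
  have h1 : h * x ≤ p * h * x := Nat.mul_le_mul_right x (Nat.le_mul_of_pos_left h (by omega))
  have h2 : (p + 1) * h * x = p * h * x + h * x := by ring
  rw [h2]
  omega

/-- the sum of the ghost multiplicities -/
lemma sum_mr_le {p h r N : ℕ} (hp : 1 ≤ p) (hh : 1 ≤ h) (hN : 2 * r ≤ N) :
    8 * (p : ℤ) * (p + 1) * h * ∑ x ∈ Icc 1 N, ((min (r - h * x) (p * h * x - r) : ℕ) : ℤ) ≤
      4 * ((p : ℤ) - 1) ^ 2 * r ^ 2 + p * ((p + 1) * h) ^ 2 := by
  have hph : 0 < p * h := Nat.mul_pos (by omega) (by omega)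
  have hqh : 0 < (p + 1) * h := Nat.mul_pos (by omega) (by omega)
  have h1 : ∑ x ∈ Icc 1 N, ((min (r - h * x) (p * h * x - r) : ℕ) : ℤ) =
      gX h r - gX ((p + 1) * h) (2 * r) + gX (p * h) r := by
    rw [sum_congr rfl fun x _ => mr_shape hp, sum_add_distrib, sum_sub_distrib]
    rw [← gX_eq (c := h) (M := r) (N := N) (by omega) (by omega),
      ← gX_eq (c := (p + 1) * h) (M := 2 * r) (N := N) hqh hN,
      ← gX_eq (c := p * h) (M := r) (N := N) hph (by omega)]
    push_cast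
    ring
  have b1 := gX_le (c := h) (by omega) r
  have b2 := gX_ge (c := (p + 1) * h) hqh (2 * r)
  have b3 := gX_le (c := p * h) hph r
  rw [h1]
  push_cast at b2 b3
  have hP : (0 : ℤ) ≤ p := by positivity
  have c1 := mul_le_mul_of_nonneg_left b1 (by positivity : (0 : ℤ) ≤ p * (p + 1))
  have c2 := mul_le_mul_of_nonneg_left b2 (by positivity : (0 : ℤ) ≤ 4 * p)
  have c3 := mul_le_mul_of_nonneg_left b3 (by positivity : (0 : ℤ) ≤ p + 1)
  nlinarith

/-- the maximum of the ghost multiplicities -/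
lemma min_le_peak {p h M r x : ℕ} (hr : r ≤ (p + 1) * h * M) :
    min (r - h * x) (p * h * x - r) ≤ p * h * M := by
  rw [min_le_iff]
  by_contra hcon
  push Not at hcon
  obtain ⟨h1, h2⟩ := hcon
  have h3 : p * h * M + h * x < r := by omega
  have h4 : p * h * M + r < p * h * x := by omega
  have h5 : (p + 1) * h * M = p * h * M + h * M := by ring
  have h6 : h * x < h * M := by omega
  have h7 : p * (h * x) ≤ p * (h * M) := Nat.mul_le_mul_left p h6.le
  have h8 : p * (h * x) = p * h * x := by ring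
  have h9 : p * (h * M) = p * h * M := by ring
  omega

/-- unimodality of the ghost multiplicities -/
lemma min_unimodal {p h r : ℕ} (hh : 1 ≤ h) :
    ∃ t0, t0 ≤ 2 * r ∧
      (∀ x y, x ≤ y → y ≤ t0 → min (r - h * x) (p * h * x - r) ≤ min (r - h * y) (p * h * y - r)) ∧
      (∀ x y, t0 < x → x ≤ y →
        min (r - h * y) (p * h * y - r) ≤ min (r - h * x) (p * h * x - r)) := by
  set A : ℕ → ℕ := fun t => r - h * t with hA
  set B : ℕ → ℕ := fun t => p * h * t - r with hB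
  have hAanti : ∀ x y, x ≤ y → A y ≤ A x := fun x y hxy =>
    Nat.sub_le_sub_left (Nat.mul_le_mul_left h hxy) r
  have hBmono : ∀ x y, x ≤ y → B x ≤ B y := fun x y hxy =>
    Nat.sub_le_sub_right (Nat.mul_le_mul_left (p * h) hxy) r
  have hex : B 0 ≤ A 0 := by
    show p * h * 0 - r ≤ r - h * 0
    simp
  set t0 := Nat.findGreatest (fun t => B t ≤ A t) (2 * r) with ht0
  have g1 : B t0 ≤ A t0 := Nat.findGreatest_spec (P := fun t => B t ≤ A t) (Nat.zero_le (2 * r)) hex
  have gA : ∀ t, 2 * r < t → A t = 0 := by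
    intro t ht
    have : t ≤ h * t := Nat.le_mul_of_pos_left t (by omega)
    show r - h * t = 0
    omega
  refine ⟨t0, Nat.findGreatest_le (2 * r), fun x y hxy hy => ?_, fun x y hx hxy => ?_⟩
  · show min (A x) (B x) ≤ min (A y) (B y)
    have h2 : B y ≤ A y := (hBmono _ _ hy).trans (g1.trans (hAanti _ _ hy))
    rw [min_eq_right h2]
    exact (min_le_right _ _).trans (hBmono _ _ hxy)
  · show min (A y) (B y) ≤ min (A x) (B x)
    have h2 : A x ≤ B x := by
      by_cases hxM : x ≤ 2 * r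
      · have := Nat.findGreatest_is_greatest (P := fun t => B t ≤ A t) hx hxM
        exact (not_le.1 this).le
      · rw [gA x (by omega)]
        exact Nat.zero_le _
    rw [min_eq_left h2]
    exact (min_le_left _ _).trans (hAanti _ _ hxy)

/-- the ghost sum at any weight -/
lemma ghost_sum_le {p : ℕ} [Fact p.Prime] (hp : 5 ≤ p) {h n0 M r V s : ℕ} (hh : 1 ≤ h)
    (hr : r ≤ (p + 1) * h * M) (Gh : Finset ℕ) (hGh : ∀ κ ∈ Gh, κ < p ^ (V + 1))
    (hs : s < p ^ (V + 1)) (hs' : s ∉ Gh) :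
    ∑ κ ∈ Gh, (mr p h r (n0 + (p - 1) * κ) : ℝ) * vd p s κ ≤
      (∑ x ∈ Icc 1 (2 * r), ((min (r - h * x) (p * h * x - r) : ℕ) : ℝ)) / ((p : ℝ) - 1) ^ 2 +
        2 * (p * h * M) * V := by
  have hpp : p.Prime := Fact.out
  set f : ℕ → ℕ := fun x => min (r - h * x) (p * h * x - r) with hf
  obtain ⟨t0, ht0, hinc, hdec⟩ := min_unimodal (p := p) (r := r) hh
  have hmax : ∀ t, f t ≤ p * h * M := fun t => min_le_peak hr
  have hf0 : f 0 = 0 := by
    show min (r - h * 0) (p * h * 0 - r) = 0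
    simp
  have hfar : ∀ x, 2 * r < x → f x = 0 := by
    intro x hx
    have h1 : x ≤ h * x := Nat.le_mul_of_pos_left x (by omega)
    have h2 : r - h * x = 0 := by omega
    show min (r - h * x) (p * h * x - r) = 0
    rw [h2]
    simp
  have hmr : ∀ κ, mr p h r (n0 + (p - 1) * κ) = f (n0 + (p - 1) * κ + 1) := fun κ => rfl
  have hsum0 : ∑ t ∈ range (2 * r + 1), f t = ∑ t ∈ Icc 1 (2 * r), f t := by
    rw [sum_range_succ', hf0, add_zero, range_eq_Ico, sum_Ico_add' f 0 (2 * r) 1]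
    refine sum_congr ?_ fun _ _ => rfl
    ext j
    simp
  have hp1 : (1 : ℝ) < p := by exact_mod_cast (by omega : 1 < p)
  set Sg : ℝ := ∑ t ∈ Icc 1 (2 * r), (f t : ℝ) with hSg
  -- one residue class
  have hj : ∀ j : ℕ, (∑ κ ∈ Gh, (f (n0 + (p - 1) * κ + 1) : ℝ) *
      ((if κ % p ^ (j + 1) = s % p ^ (j + 1) then 1 else 0 : ℕ) : ℝ)) ≤
      Sg / (p - 1) * (1 / (p : ℝ)) ^ (j + 1) + 2 * (p * h * M) := by
    intro j
    set d := (p - 1) * p ^ (j + 1) with hd
    set c := (n0 + (p - 1) * s + 1) % d with hc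
    have hinj : Set.InjOn (fun κ => n0 + (p - 1) * κ + 1)
        ((Gh.filter fun κ => κ % p ^ (j + 1) = s % p ^ (j + 1)) : Set ℕ) := by
      intro a _ b _ hab
      simp only at hab
      have : (p - 1) * a = (p - 1) * b := by omega
      exact Nat.eq_of_mul_eq_mul_left (by omega) this
    have h1 : ∑ κ ∈ Gh.filter (fun κ => κ % p ^ (j + 1) = s % p ^ (j + 1)),
        f (n0 + (p - 1) * κ + 1) ≤
        ∑ t ∈ (range (2 * r + 1)).filter (fun t => t % d = c), f t := by
      have h2 : ∑ κ ∈ Gh.filter (fun κ => κ % p ^ (j + 1) = s % p ^ (j + 1)),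
          f (n0 + (p - 1) * κ + 1) =
          ∑ x ∈ (Gh.filter (fun κ => κ % p ^ (j + 1) = s % p ^ (j + 1))).image
            (fun κ => n0 + (p - 1) * κ + 1), f x := (sum_image hinj).symm
      rw [h2]
      have h3 : ∑ x ∈ (Gh.filter (fun κ => κ % p ^ (j + 1) = s % p ^ (j + 1))).image
            (fun κ => n0 + (p - 1) * κ + 1), f x =
          ∑ x ∈ ((Gh.filter (fun κ => κ % p ^ (j + 1) = s % p ^ (j + 1))).image
            (fun κ => n0 + (p - 1) * κ + 1)).filter (fun x => x ≤ 2 * r), f x := by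
        rw [sum_filter]
        refine sum_congr rfl fun x _ => ?_
        split_ifs with h4
        · rfl
        · exact hfar x (not_le.1 h4)
      rw [h3]
      refine sum_le_sum_of_subset ?_
      intro x hx
      rw [mem_filter, mem_image] at hx
      obtain ⟨⟨κ, hκ, rfl⟩, hx2⟩ := hx
      rw [mem_filter] at hκ
      rw [mem_filter, mem_range]
      refine ⟨by omega, ?_⟩
      have h5 : κ ≡ s [MOD p ^ (j + 1)] := hκ.2
      have h6 : (p - 1) * κ ≡ (p - 1) * s [MOD (p - 1) * p ^ (j + 1)] :=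
        Nat.ModEq.mul_left' (p - 1) h5
      exact (h6.add_left n0).add_right 1
    have h2 : (∑ κ ∈ Gh, (f (n0 + (p - 1) * κ + 1) : ℝ) *
        ((if κ % p ^ (j + 1) = s % p ^ (j + 1) then 1 else 0 : ℕ) : ℝ)) =
        ((∑ κ ∈ Gh.filter (fun κ => κ % p ^ (j + 1) = s % p ^ (j + 1)),
        f (n0 + (p - 1) * κ + 1) : ℕ) : ℝ) := by
      rw [sum_filter, Nat.cast_sum]
      refine sum_congr rfl fun κ _ => ?_
      split_ifs <;> simp
    rw [h2]
    have h3 := tent_ap (a := c) (d := d) ht0 hinc hdec hmax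
    rw [hsum0] at h3
    have h4 := (Nat.cast_le (α := ℝ)).2 ((Nat.mul_le_mul_left d h1).trans h3)
    rw [Nat.cast_mul, Nat.cast_add, Nat.cast_sum (Icc 1 (2 * r))] at h4
    have h5 : (d : ℝ) = ((p : ℝ) - 1) * (p : ℝ) ^ (j + 1) := by
      rw [hd, Nat.cast_mul, Nat.cast_sub (by omega)]; push_cast; ring
    rw [← hSg] at h4
    generalize ((∑ κ ∈ Gh.filter (fun κ => κ % p ^ (j + 1) = s % p ^ (j + 1)),
      f (n0 + (p - 1) * κ + 1) : ℕ) : ℝ) = Z at *
    push_cast at h4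
    rw [h5] at h4
    have h6 : (0 : ℝ) < ((p : ℝ) - 1) * (p : ℝ) ^ (j + 1) := mul_pos (by linarith) (by positivity)
    have h7 : Z ≤ (Sg + 2 * (((p : ℝ) - 1) * (p : ℝ) ^ (j + 1)) * (p * h * M)) /
        (((p : ℝ) - 1) * (p : ℝ) ^ (j + 1)) := by
      rw [le_div_iff₀ h6]
      linarith
    refine h7.trans (le_of_eq ?_)
    rw [one_div, inv_pow]
    have h8 : (p : ℝ) - 1 ≠ 0 := by linarith
    field_simp
  calc ∑ κ ∈ Gh, (mr p h r (n0 + (p - 1) * κ) : ℝ) * vd p s κ
      ≤ ∑ κ ∈ Gh, (f (n0 + (p - 1) * κ + 1) : ℝ) *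
          ∑ j ∈ range V, ((if κ % p ^ (j + 1) = s % p ^ (j + 1) then 1 else 0 : ℕ) : ℝ) := by
        refine sum_le_sum fun κ hκ => ?_
        rw [hmr]
        refine mul_le_mul_of_nonneg_left ?_ (by positivity)
        have := vd_le hpp (J := V) (a := s) (b := κ) (fun h => hs' (h ▸ hκ)) hs (hGh κ hκ)
        exact_mod_cast this
    _ = ∑ j ∈ range V, ∑ κ ∈ Gh, (f (n0 + (p - 1) * κ + 1) : ℝ) *
          ((if κ % p ^ (j + 1) = s % p ^ (j + 1) then 1 else 0 : ℕ) : ℝ) := by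
        simp only [mul_sum]
        rw [sum_comm]
    _ ≤ ∑ j ∈ range V, (Sg / (p - 1) * (1 / (p : ℝ)) ^ (j + 1) + 2 * (p * h * M)) :=
        sum_le_sum fun j _ => hj j
    _ ≤ Sg / ((p : ℝ) - 1) ^ 2 + 2 * (p * h * M) * V := by
        rw [sum_add_distrib, ← mul_sum, sum_const, card_range, nsmul_eq_mul]
        have hg := geom_le (p := p) (by omega) V
        have hS0 : 0 ≤ Sg / ((p : ℝ) - 1) := div_nonneg (by positivity) (by linarith)
        have h1 := mul_le_mul_of_nonneg_left hg hS0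
        have h8 : (p : ℝ) - 1 ≠ 0 := by linarith
        have e : Sg / ((p : ℝ) - 1) * (1 / ((p : ℝ) - 1)) = Sg / ((p : ℝ) - 1) ^ 2 := by
          field_simp
        rw [e] at h1
        linarith

/-- Section 6. -/
theorem ghost_total {p : ℕ} [Fact p.Prime] (hp : 5 ≤ p) {h q n0 M u r V s : ℕ}
    (hq : q = (p + 1) * h) (hh : 1 ≤ h)
    (hV : 1 ≤ V) (hM : p + 2 ≤ M) (hu : u ≤ q) (hr : r + u = q * M)
    (Gh : Finset ℕ) (hGh : ∀ κ ∈ Gh, κ < p ^ (V + 1)) (hs : s < p ^ (V + 1)) (hs' : s ∉ Gh) :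
    (Lam0 p q M u : ℝ) + ∑ κ ∈ Gh, (mr p h r (n0 + (p - 1) * κ) : ℝ) * vd p s κ ≤
      (r : ℝ) ^ 2 / (2 * q) + 20 * p * q * M * V := by
  have hpp : p.Prime := Fact.out
  have h1 := ghost_sum_le (n0 := n0) hp hh (r := r) (M := M) (by rw [← hq]; omega) Gh hGh hs hs'
  have h2 := sum_mr_le (p := p) (h := h) (r := r) (N := 2 * r) (by omega) hh le_rfl
  have h3 := lam0_eq (p := p) q M u
  have hp0 : 0 < p := by omega
  rw [sum_div_eq hp0] at h3
  have h4 := gX_ge hp0 M
  have hP : (5 : ℝ) ≤ p := by exact_mod_cast hp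
  have hH : (1 : ℝ) ≤ h := by exact_mod_cast hh
  have hV' : (1 : ℝ) ≤ V := by exact_mod_cast hV
  have hM' : (7 : ℝ) ≤ M := by exact_mod_cast (by omega : 7 ≤ M)
  have hu' : (u : ℝ) ≤ q := by exact_mod_cast hu
  have hu0 : (0 : ℝ) ≤ u := by positivity
  have hq' : (q : ℝ) = (p + 1) * h := by rw [hq]; push_cast; ring
  have hq0 : (0 : ℝ) < q := by rw [hq']; positivity
  have hr' : (r : ℝ) = q * M - u := by
    have : ((r + u : ℕ) : ℝ) = ((q * M : ℕ) : ℝ) := by rw [hr]
    push_cast at this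
    linarith
  -- the sum of the multiplicities
  have h2' : (∑ x ∈ Icc 1 (2 * r), ((min (r - h * x) (p * h * x - r) : ℕ) : ℝ)) /
      ((p : ℝ) - 1) ^ 2 ≤ (r : ℝ) ^ 2 / (2 * p * q) + q / 8 := by
    have h5 : 8 * (p : ℝ) * q * ∑ x ∈ Icc 1 (2 * r), ((min (r - h * x) (p * h * x - r) : ℕ) : ℝ) ≤
        4 * ((p : ℝ) - 1) ^ 2 * r ^ 2 + p * q ^ 2 := by
      have h6 := (Int.cast_le (R := ℝ)).2 h2
      push_cast at h6 ⊢
      rw [hq']
      refine le_trans (le_of_eq ?_) h6
      ring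
    have h6 : (0 : ℝ) < ((p : ℝ) - 1) ^ 2 := by nlinarith
    generalize (∑ x ∈ Icc 1 (2 * r), ((min (r - h * x) (p * h * x - r) : ℕ) : ℝ)) = Z at *
    rw [div_le_iff₀ h6]
    have h7 : (0 : ℝ) < 8 * p * q := by positivity
    refine le_of_mul_le_mul_left ?_ h7
    refine h5.trans ?_
    have e : 8 * (p : ℝ) * q * (((r : ℝ) ^ 2 / (2 * p * q) + q / 8) * ((p : ℝ) - 1) ^ 2) =
        4 * ((p : ℝ) - 1) ^ 2 * r ^ 2 + p * q ^ 2 * ((p : ℝ) - 1) ^ 2 := by
      field_simp
      ring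
    rw [e]
    have : (1 : ℝ) ≤ ((p : ℝ) - 1) ^ 2 := by nlinarith
    have : (p : ℝ) * q ^ 2 * 1 ≤ p * q ^ 2 * ((p : ℝ) - 1) ^ 2 :=
      mul_le_mul_of_nonneg_left this (by positivity)
    linarith
  -- the Hodge part
  have h3' : (Lam0 p q M u : ℝ) ≤ (q : ℝ) * M ^ 2 * (p - 1) / (2 * p) := by
    have h5 := congrArg (Int.cast (R := ℝ)) h3
    push_cast at h5
    have h6 := (Int.cast_le (R := ℝ)).2 h4
    push_cast at h6
    have h7 : (0 : ℝ) ≤ ((M - 1 : ℕ) : ℝ) - (((M - 1) / p : ℕ) : ℝ) := by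
      have : (M - 1) / p ≤ M - 1 := Nat.div_le_self _ _
      have := (Nat.cast_le (α := ℝ)).2 this
      linarith
    have h8 : 0 ≤ 2 * (u : ℝ) * (((M - 1 : ℕ) : ℝ) - (((M - 1) / p : ℕ) : ℝ)) :=
      mul_nonneg (by positivity) h7
    have h9 : 2 * (Lam0 p q M u : ℝ) ≤ (q : ℝ) * (M * (M - 1)) - 2 * q * gX p M := by
      have h10 : ((((M - 1 : ℕ) : ℤ) - (((M - 1) / p : ℕ) : ℤ) : ℤ) : ℝ) =
        ((M - 1 : ℕ) : ℝ) - (((M - 1) / p : ℕ) : ℝ) := by
          rw [Int.cast_sub, Int.cast_natCast, Int.cast_natCast]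
      have h11 := congrArg (Int.cast (R := ℝ)) h3
      rw [Int.cast_sub, Int.cast_mul (2 * (u : ℤ)), h10] at h11
      push_cast at h11

      linarith
    have h10 : (0 : ℝ) < p := by linarith
    rw [le_div_iff₀ (by positivity)]
    have h11 := mul_le_mul_of_nonneg_right h9 h10.le
    have h12 := mul_le_mul_of_nonneg_left h6 hq0.le
    nlinarith
  -- conclusion
  have h5 : (q : ℝ) * M ^ 2 * (p - 1) / (2 * p) ≤
      (r : ℝ) ^ 2 * (p - 1) / (2 * p * q) + q * M + q := by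
    have e : (q : ℝ) * M ^ 2 = (r + u) ^ 2 / q := by
      rw [hr']; field_simp; ring
    have e2 : ((r : ℝ) + u) ^ 2 / q * (p - 1) / (2 * p) =
        (r : ℝ) ^ 2 * (p - 1) / (2 * p * q) + (2 * r * u + u ^ 2) * (p - 1) / (2 * p * q) := by
      field_simp
      ring
    rw [e, e2]
    have e3 : (2 * (r : ℝ) * u + u ^ 2) * (p - 1) / (2 * p * q) ≤ q * M + q := by
      rw [div_le_iff₀ (by positivity)]
      have hr0 : (0 : ℝ) ≤ r := by positivity
      have hrq : (r : ℝ) ≤ q * M := by rw [hr']; linarith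
      have f1 : 2 * (r : ℝ) * u + u ^ 2 ≤ 2 * (q * M) * q + q ^ 2 := by
        have g1 : (r : ℝ) * u ≤ q * M * q := mul_le_mul hrq hu' hu0 (by positivity)
        have g2 : (u : ℝ) ^ 2 ≤ q ^ 2 := by gcongr
        linarith
      have f2 : (0 : ℝ) ≤ p - 1 := by linarith
      have f3 := mul_le_mul_of_nonneg_right f1 f2
      refine f3.trans ?_
      have : (0 : ℝ) ≤ q * M * q := by positivity
      have : (0 : ℝ) ≤ q ^ 2 := by positivity
      nlinarith
    linarith
  have h6 : (r : ℝ) ^ 2 * (p - 1) / (2 * p * q) + (r : ℝ) ^ 2 / (2 * p * q) =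
      (r : ℝ) ^ 2 / (2 * q) := by
    field_simp
    ring
  have h7 : 2 * ((p : ℝ) * h * M) * V ≤ 2 * q * M * V := by
    have h9 : (p : ℝ) * h ≤ q := by rw [hq']; nlinarith
    have h10 : (p : ℝ) * h * (M * V) ≤ q * (M * V) :=
      mul_le_mul_of_nonneg_right h9 (by positivity)
    linarith
  have h8 : (q : ℝ) * M + q + q / 8 + 2 * q * M * V ≤ 20 * p * q * M * V := by
    have a1 : (q : ℝ) ≤ q * M * V := by
      have : (1 : ℝ) ≤ M * V := by nlinarith
      nlinarith
    have a2 : (q : ℝ) * M ≤ q * M * V := by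
      have : (0 : ℝ) ≤ q * M := by positivity
      nlinarith
    have a3 : (q : ℝ) * M * V ≤ p * (q * M * V) := by
      have : (0 : ℝ) ≤ q * M * V := by positivity
      nlinarith
    have e : 20 * (p : ℝ) * q * M * V = 20 * (p * (q * M * V)) := by ring
    rw [e]
    nlinarith
  linarith

end Gouvea
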