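import Pool.Agent.Work.MP_d3517d_nt.Basic

/-!
# Gouvêa slope distribution (MP_d3517d_nt), M6: ghost sums
-/

set_option autoImplicit false

open Finset

namespace Gouvea

/-- `X c M = ∑_(s ≥ 1) (M - c s)^+` -/
def gX (c M : ℕ) : ℕ := ∑ s ∈ Icc 1 M, (M - c * s)

/-- the number of `s ≥ 1` with `c s < M` -/
def gN (c M : ℕ) : ℕ := ∑ s ∈ Icc 1 M, if c * s < M then 1 else 0

/-- `X` may be computed over a longer range -/
lemma gX_eq {c M N : ℕ} (hc : 0 < c) (hN : M ≤ N) : ∑ s ∈ Icc 1 N, (M - c * s) = gX c M := by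
  unfold gX
  symm
  refine sum_subset (Icc_subset_Icc le_rfl hN) fun s hs hs' => ?_
  rw [mem_Icc] at hs hs'
  have h1 : M < s := by
    by_contra h
    exact hs' ⟨hs.1, not_lt.1 h⟩
  have h2 : s ≤ c * s := Nat.le_mul_of_pos_left s hc
  omega

lemma gN_eq {c M N : ℕ} (hc : 0 < c) (hN : M ≤ N) :
    ∑ s ∈ Icc 1 N, (if c * s < M then 1 else 0) = gN c M := by
  unfold gN
  symm
  refine sum_subset (Icc_subset_Icc le_rfl hN) fun s hs hs' => ?_
  rw [mem_Icc] at hs hs'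
  have h1 : M < s := by
    by_contra h
    exact hs' ⟨hs.1, not_lt.1 h⟩
  have h2 : s ≤ c * s := Nat.le_mul_of_pos_left s hc
  rw [if_neg (by omega)]

lemma gX_zero {c M : ℕ} (h : M ≤ c) : gX c M = 0 := by
  refine sum_eq_zero fun s hs => ?_
  rw [mem_Icc] at hs
  have : c * 1 ≤ c * s := Nat.mul_le_mul_left c hs.1
  omega

lemma gN_zero {c M : ℕ} (h : M ≤ c) : gN c M = 0 := by
  refine sum_eq_zero fun s hs => ?_
  rw [mem_Icc] at hs
  have : c * 1 ≤ c * s := Nat.mul_le_mul_left c hs.1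
  rw [if_neg (by omega)]

/-- `2 c X = M^2 - c M + b (c - b)`, `b = M mod c` -/
lemma gX_val {c : ℕ} (hc : 0 < c) (M : ℕ) :
    2 * (c : ℤ) * gX c M = (M : ℤ) ^ 2 - c * M + (M % c : ℕ) * (c - (M % c : ℕ)) := by
  have h1 : (gX c M : ℤ) = ∑ s ∈ Icc 1 (M / c), ((M : ℤ) - c * s) := by
    unfold gX
    have h2 : ∑ s ∈ Icc 1 M, (M - c * s) = ∑ s ∈ Icc 1 (M / c), (M - c * s) := by
      symm
      refine sum_subset (Icc_subset_Icc le_rfl (Nat.div_le_self M c)) fun s hs hs' => ?_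
      rw [mem_Icc] at hs hs'
      have h3 : M / c < s := by
        by_contra h
        exact hs' ⟨hs.1, not_lt.1 h⟩
      have h4 : M < s * c := (Nat.div_lt_iff_lt_mul hc).1 h3
      rw [mul_comm] at h4
      omega
    rw [h2]
    push_cast
    refine sum_congr rfl fun s hs => ?_
    rw [mem_Icc] at hs
    have h4 : s * c ≤ M := (Nat.le_div_iff_mul_le hc).1 hs.2
    rw [mul_comm] at h4
    rw [Nat.cast_sub h4]
    push_cast
    ring
  have h2 : ∀ a : ℕ, 2 * ∑ s ∈ Icc 1 a, ((M : ℤ) - c * s) = 2 * a * M - c * a * (a + 1) := by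
    intro a
    induction a with
    | zero => simp
    | succ a ih =>
      rw [sum_Icc_succ_top (by omega), mul_add, ih]
      push_cast
      ring
  have h3 := Nat.div_add_mod M c
  have h4 : (M : ℤ) = c * (M / c : ℕ) + (M % c : ℕ) := by exact_mod_cast h3.symm
  rw [mul_assoc, mul_comm (c : ℤ), ← mul_assoc, h1, h2]
  generalize ((M / c : ℕ) : ℤ) = a at *
  generalize ((M % c : ℕ) : ℤ) = b at *
  rw [h4]
  ring

lemma gX_ge {c : ℕ} (hc : 0 < c) (M : ℕ) : (M : ℤ) ^ 2 - c * M ≤ 2 * (c : ℤ) * gX c M := by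
  rw [gX_val hc]
  have h1 : M % c < c := Nat.mod_lt M hc
  have h2 : (0 : ℤ) ≤ (M % c : ℕ) * (c - (M % c : ℕ)) :=
    mul_nonneg (by positivity) (by have : ((M % c : ℕ) : ℤ) < c := by exact_mod_cast h1
                                   linarith)
  linarith

lemma gX_le {c : ℕ} (hc : 0 < c) (M : ℕ) :
    8 * (c : ℤ) * gX c M ≤ 4 * (M : ℤ) ^ 2 - 4 * c * M + c ^ 2 := by
  have h1 := gX_val hc M
  nlinarith [sq_nonneg ((c : ℤ) - 2 * (M % c : ℕ))]

/-- the sum of the integer parts -/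
lemma sum_div_eq {p : ℕ} (hp : 0 < p) (M : ℕ) : ∑ i ∈ range M, i / p = gX p M := by
  -- `i / p` is the number of `s ≥ 1` with `p s ≤ i`
  have h1 : ∀ i ∈ range M, i / p = ∑ s ∈ Icc 1 M, if p * s ≤ i then 1 else 0 := by
    intro i hi
    rw [mem_range] at hi
    rw [← card_filter]
    have h2 : (Icc 1 M).filter (fun s => p * s ≤ i) = Icc 1 (i / p) := by
      ext s
      rw [mem_filter, mem_Icc, mem_Icc, Nat.le_div_iff_mul_le hp, mul_comm p s]
      constructor
      · rintro ⟨⟨h3, h4⟩, h5⟩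
        exact ⟨h3, h5⟩
      · rintro ⟨h3, h4⟩
        have : s ≤ s * p := Nat.le_mul_of_pos_right s hp
        exact ⟨⟨h3, by omega⟩, h4⟩
    rw [h2, Nat.card_Icc, Nat.add_sub_cancel]
  rw [sum_congr rfl h1, sum_comm]
  unfold gX
  refine sum_congr rfl fun s _ => ?_
  rw [← card_filter]
  have h2 : (range M).filter (fun i => p * s ≤ i) = Ico (p * s) M := by
    ext i
    rw [mem_filter, mem_range, mem_Ico]
    tauto
  rw [h2, Nat.card_Ico]

lemma gN_val {c : ℕ} (hc : 0 < c) {M : ℕ} (hM : 0 < M) : gN c M = (M - 1) / c := by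
  unfold gN
  rw [← card_filter]
  have h2 : (Icc 1 M).filter (fun s => c * s < M) = Icc 1 ((M - 1) / c) := by
    ext s
    rw [mem_filter, mem_Icc, mem_Icc, Nat.le_div_iff_mul_le hc, mul_comm c s]
    constructor
    · rintro ⟨⟨h3, h4⟩, h5⟩
      exact ⟨h3, by omega⟩
    · rintro ⟨h3, h4⟩
      have : s ≤ s * c := Nat.le_mul_of_pos_right s hc
      exact ⟨⟨h3, by omega⟩, by omega⟩
  rw [h2, Nat.card_Icc, Nat.add_sub_cancel]

/-! ### The ghost multiplicity -/

/-- the shape of the ghost multiplicity -/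
lemma mr_eq {p h M u y : ℕ} (hp : 2 ≤ p) (hM : 2 ≤ M) (hu : u ≤ (p + 1) * h) :
    ((mr p h ((p + 1) * h * M - u) (M - 1 + y) : ℕ) : ℤ) =
      max 0 ((h : ℤ) * (p * M - y) - u) - max 0 ((p + 1) * (h : ℤ) * (M - y) - 2 * u) +
        max 0 ((h : ℤ) * (M - p * y) - u) := by
  have h0 : u ≤ (p + 1) * h * M := hu.trans (Nat.le_mul_of_pos_right _ (by omega))
  have h1 : M - 1 + y + 1 = M + y := by omega
  set a : ℤ := (h : ℤ) * (p * M - y) - u with ha
  set b : ℤ := (p : ℤ) * h * (M + y) - ((p + 1) * h * M - u) with hb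
  have h2 : ((mr p h ((p + 1) * h * M - u) (M - 1 + y) : ℕ) : ℤ) = max 0 (min a b) := by
    unfold mr
    rw [h1]
    have e1 : (((p + 1) * h * M - u - h * (M + y) : ℕ) : ℤ) = max 0 a := by
      rw [Nat.sub_sub]
      have : (((p + 1) * h * M : ℕ) : ℤ) - ((u + h * (M + y) : ℕ) : ℤ) = a := by
        rw [ha]; push_cast; ring
      rw [← this]
      omega
    have e2 : ((p * h * (M + y) - ((p + 1) * h * M - u) : ℕ) : ℤ) = max 0 b := by
      have : ((p * h * (M + y) : ℕ) : ℤ) - (((p + 1) * h * M - u : ℕ) : ℤ) = b := by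
        rw [hb, Nat.cast_sub h0]; push_cast; ring
      rw [← this]
      omega
    rw [Nat.cast_min, e1, e2]
    omega
  rw [h2]
  have e3 : (p + 1) * (h : ℤ) * (M - y) - 2 * u = a - b := by rw [ha, hb]; ring
  have e4 : (h : ℤ) * (M - p * y) - u = -b := by rw [hb]; ring
  rw [e3, e4]
  have h3 : b < 0 → 0 ≤ a := by
    intro hb0
    -- `h p y < h M - u`
    have h4 : (h : ℤ) * (p * y) < h * M := by
      have : b = h * (p * y) - h * M + u := by rw [hb]; ring
      have hu0 : (0 : ℤ) ≤ u := by positivity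
      linarith
    have hh : (0 : ℤ) < h := by
      by_contra hcon
      have h5 : (h : ℤ) = 0 := le_antisymm (not_lt.1 hcon) (by positivity)
      rw [h5] at h4
      simp at h4
    have h5 : (p : ℤ) * y < M := lt_of_mul_lt_mul_left h4 hh.le
    have hp' : (2 : ℤ) ≤ p := by exact_mod_cast hp
    have hM' : (2 : ℤ) ≤ M := by exact_mod_cast hM
    have hu' : (u : ℤ) ≤ (p + 1) * h := by exact_mod_cast hu
    have hy' : (0 : ℤ) ≤ y := by positivity
    -- `p M - y ≥ p + 1`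
    have h6 : (p : ℤ) + 1 ≤ p * M - y := by nlinarith
    have h7 : (h : ℤ) * (p + 1) ≤ h * (p * M - y) := mul_le_mul_of_nonneg_left h6 hh.le
    rw [ha]
    linarith
  omega


/-- a valuation is at least the number of `j ≤ J` with `p ^ j ∣ t` -/
lemma val_ge {p : ℕ} (hp : p.Prime) (J : ℕ) {t : ℕ} (ht : t ≠ 0) :
    ∑ j ∈ Icc 1 J, (if p ^ j ∣ t then 1 else 0) ≤ padicValNat p t := by
  have := Fact.mk hp
  rw [← card_filter]
  have h1 : (Icc 1 J).filter (fun j => p ^ j ∣ t) ⊆ Icc 1 (padicValNat p t) := by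
    intro j hj
    rw [mem_filter, mem_Icc] at hj
    rw [mem_Icc]
    exact ⟨hj.1.1, (padicValNat_dvd_iff_le ht).1 hj.2⟩
  have h2 := card_le_card h1
  rwa [Nat.card_Icc, Nat.add_sub_cancel] at h2

/-- sums over multiples -/
lemma sum_mult {d N : ℕ} (hd : 0 < d) (f : ℕ → ℕ) (hf : ∀ t, N < t → f t = 0) :
    ∑ t ∈ Icc 1 N, (if d ∣ t then f t else 0) = ∑ s ∈ Icc 1 N, f (d * s) := by
  rw [← sum_filter]
  have h1 : ∑ s ∈ Icc 1 N, f (d * s) = ∑ s ∈ (Icc 1 N).filter (fun s => d * s ≤ N), f (d * s) := by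
    rw [sum_filter]
    refine sum_congr rfl fun s _ => ?_
    split_ifs with h
    · rfl
    · exact hf _ (not_le.1 h)
  rw [h1]
  symm
  refine sum_nbij (fun s => d * s) ?_ ?_ ?_ fun s _ => rfl
  · intro s hs
    rw [mem_filter, mem_Icc] at hs ⊢
    exact ⟨⟨Nat.mul_pos hd hs.1.1, hs.2⟩, dvd_mul_right d s⟩
  · intro s _ s' _ h
    exact Nat.eq_of_mul_eq_mul_left hd h
  · rintro t ht
    rw [mem_coe, mem_filter, mem_Icc] at ht
    obtain ⟨⟨h2, h3⟩, s, rfl⟩ := ht
    refine ⟨s, ?_, rfl⟩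
    rw [mem_coe, mem_filter, mem_Icc]
    have h4 : 0 < s := Nat.pos_of_ne_zero fun h => by subst h; simp at h2
    have h5 : s ≤ d * s := Nat.le_mul_of_pos_left s hd
    exact ⟨⟨h4, h5.trans h3⟩, h3⟩

/-- the sum over the multiples of `p ^ j` -/
lemma sum_j {p h M u N : ℕ} (hp : 2 ≤ p) (hM : 2 ≤ M) (hu : u ≤ (p + 1) * h) (hN : M ≤ N) (j : ℕ) :
    (h : ℤ) * p * gX ((p - 1) * p ^ j) M - (p + 1) * h * gX ((p - 1) * p ^ (j + 1)) M +
      h * gX ((p - 1) * p ^ (j + 2)) M - u * gN ((p - 1) * p ^ j) M +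
      2 * u * gN ((p - 1) * p ^ (j + 1)) M - u * gN ((p - 1) * p ^ (j + 2)) M - 2 * u ≤
    ∑ s ∈ Icc 1 N, ((mr p h ((p + 1) * h * M - u) (M - 1 + (p - 1) * (p ^ (j + 1) * s)) : ℕ) : ℤ) := by
  have hc : ∀ j, 0 < (p - 1) * p ^ j := fun j =>
    Nat.mul_pos (by omega) (pow_pos (by omega) j)
  have hu0 : (0 : ℤ) ≤ u := by positivity
  have hh0 : (0 : ℤ) ≤ h := by positivity
  have hp1 : ((p - 1 : ℕ) : ℤ) = (p : ℤ) - 1 := by rw [Nat.cast_sub (by omega)]; simp
  -- pointwise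
  have key : ∀ s : ℕ, (h : ℤ) * p * ((M - (p - 1) * p ^ j * s : ℕ) : ℤ) -
      (p + 1) * h * ((M - (p - 1) * p ^ (j + 1) * s : ℕ) : ℤ) +
      h * ((M - (p - 1) * p ^ (j + 2) * s : ℕ) : ℤ) -
      u * (if (p - 1) * p ^ j * s < M then 1 else 0 : ℕ) +
      2 * u * (if (p - 1) * p ^ (j + 1) * s < M then 1 else 0 : ℕ) -
      u * (if (p - 1) * p ^ (j + 2) * s < M then 1 else 0 : ℕ) -
      2 * u * (if (p - 1) * p ^ (j + 1) * s + 1 = M then 1 else 0 : ℕ) ≤
      ((mr p h ((p + 1) * h * M - u) (M - 1 + (p - 1) * (p ^ (j + 1) * s)) : ℕ) : ℤ) := by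
    intro s
    rw [mr_eq hp hM hu]
    -- the three parts
    have e1 : (h : ℤ) * p * ((M - (p - 1) * p ^ j * s : ℕ) : ℤ) -
        u * (if (p - 1) * p ^ j * s < M then 1 else 0 : ℕ) ≤
        max 0 ((h : ℤ) * (p * M - ((p - 1) * (p ^ (j + 1) * s) : ℕ)) - u) := by
      have e2 : (((p - 1) * (p ^ (j + 1) * s) : ℕ) : ℤ) = p * (((p - 1) * p ^ j * s : ℕ) : ℤ) := by
        push_cast; ring
      rw [e2]
      split_ifs with h1
      · rw [Nat.cast_sub h1.le]
        refine le_trans (le_of_eq ?_) (le_max_right _ _)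
        push_cast
        ring
      · rw [Nat.sub_eq_zero_of_le (not_lt.1 h1)]
        simp
    have e3 : max 0 ((p + 1) * (h : ℤ) * (M - ((p - 1) * (p ^ (j + 1) * s) : ℕ)) - 2 * u) ≤
        (p + 1) * h * ((M - (p - 1) * p ^ (j + 1) * s : ℕ) : ℤ) -
        2 * u * (if (p - 1) * p ^ (j + 1) * s < M then 1 else 0 : ℕ) +
        2 * u * (if (p - 1) * p ^ (j + 1) * s + 1 = M then 1 else 0 : ℕ) := by
      have e2 : (((p - 1) * (p ^ (j + 1) * s) : ℕ) : ℤ) = (((p - 1) * p ^ (j + 1) * s : ℕ) : ℤ) := by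
        rw [mul_assoc]
      rw [e2]
      generalize (p - 1) * p ^ (j + 1) * s = y
      have hu' : (u : ℤ) ≤ (p + 1) * h := by exact_mod_cast hu
      by_cases h1 : y < M
      · rw [if_pos h1, Nat.cast_sub h1.le]
        by_cases h2 : y + 1 = M
        · rw [if_pos h2]
          have h3 : (M : ℤ) - y = 1 := by omega
          rw [h3]
          push_cast
          refine max_le ?_ ?_ <;> linarith
        · rw [if_neg h2]
          have h3 : (2 : ℤ) ≤ (M : ℤ) - y := by omega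
          push_cast
          refine max_le ?_ ?_
          · nlinarith
          · linarith
      · have h2 : y + 1 ≠ M := by omega
        rw [if_neg h1, if_neg h2, Nat.sub_eq_zero_of_le (not_lt.1 h1)]
        have h3 : (M : ℤ) - y ≤ 0 := by have := not_lt.1 h1; omega
        push_cast
        refine max_le ?_ ?_
        · linarith
        · have : (p + 1) * (h : ℤ) * (M - y) ≤ 0 :=
            mul_nonpos_of_nonneg_of_nonpos (by positivity) h3
          linarith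
    have e4 : (h : ℤ) * ((M - (p - 1) * p ^ (j + 2) * s : ℕ) : ℤ) -
        u * (if (p - 1) * p ^ (j + 2) * s < M then 1 else 0 : ℕ) ≤
        max 0 ((h : ℤ) * (M - p * ((p - 1) * (p ^ (j + 1) * s) : ℕ)) - u) := by
      have e2 : (p : ℤ) * (((p - 1) * (p ^ (j + 1) * s) : ℕ) : ℤ) =
          (((p - 1) * p ^ (j + 2) * s : ℕ) : ℤ) := by
        push_cast; ring
      rw [e2]
      split_ifs with h1
      · rw [Nat.cast_sub h1.le]
        refine le_trans (le_of_eq ?_) (le_max_right _ _)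
        push_cast
        ring
      · rw [Nat.sub_eq_zero_of_le (not_lt.1 h1)]
        simp
    linarith
  have h1 := sum_le_sum fun s (_ : s ∈ Icc 1 N) => key s
  refine le_trans ?_ h1
  rw [sum_sub_distrib, sum_sub_distrib, sum_add_distrib, sum_sub_distrib, sum_add_distrib,
    sum_sub_distrib]
  simp only [← mul_sum]
  have h2 : ∑ s ∈ Icc 1 N, (if (p - 1) * p ^ (j + 1) * s + 1 = M then 1 else 0 : ℕ) ≤ 1 := by
    rw [← card_filter]
    refine card_le_one.2 fun a ha b hb => ?_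
    rw [mem_filter] at ha hb
    have h3 : (p - 1) * p ^ (j + 1) * a = (p - 1) * p ^ (j + 1) * b := by omega
    exact Nat.eq_of_mul_eq_mul_left (hc (j + 1)) h3
  have h2' : (∑ s ∈ Icc 1 N, ((if (p - 1) * p ^ (j + 1) * s + 1 = M then 1 else 0 : ℕ) : ℤ)) ≤ 1 := by
    exact_mod_cast h2
  have g1 : ∀ i, (∑ s ∈ Icc 1 N, ((M - (p - 1) * p ^ i * s : ℕ) : ℤ)) =
      gX ((p - 1) * p ^ i) M := fun i => by
    rw [← gX_eq (hc i) hN]; push_cast; rfl
  have g2 : ∀ i, (∑ s ∈ Icc 1 N, ((if (p - 1) * p ^ i * s < M then 1 else 0 : ℕ) : ℤ)) =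
      gN ((p - 1) * p ^ i) M := fun i => by
    rw [← gN_eq (hc i) hN]; push_cast; rfl
  rw [g1, g1, g1, g2, g2, g2]
  nlinarith


lemma mr_far {p h M u t : ℕ} (hp : 2 ≤ p) (hM : 2 ≤ M) (ht : p * M ≤ t) :
    mr p h ((p + 1) * h * M - u) (M - 1 + (p - 1) * t) = 0 := by
  unfold mr
  have h1 : M - 1 + (p - 1) * t + 1 = M + (p - 1) * t := by omega
  rw [h1]
  have h2 : t ≤ (p - 1) * t := Nat.le_mul_of_pos_left t (by omega)
  have h3 : (p + 1) * h * M - u - h * (M + (p - 1) * t) = 0 := by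
    have h4 : h * (M + p * M) ≤ h * (M + (p - 1) * t) := Nat.mul_le_mul_left h (by omega)
    have h5 : (p + 1) * h * M = h * (M + p * M) := by ring
    omega
  rw [h3]
  simp

/-- telescoping -/
lemma tele (f : ℕ → ℤ) (J : ℕ) :
    ∑ j ∈ range J, (f j - 2 * f (j + 1) + f (j + 2)) = f 0 - f 1 - (f J - f (J + 1)) := by
  induction J with
  | zero => simp
  | succ J ih => rw [sum_range_succ, ih]; ring

lemma tele2 (a b : ℤ) (f : ℕ → ℤ) (J : ℕ) :
    ∑ j ∈ range J, (a * f j - (a + b) * f (j + 1) + b * f (j + 2)) =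
      a * (f 0 - f J) - b * (f 1 - f (J + 1)) := by
  induction J with
  | zero => simp
  | succ J ih => rw [sum_range_succ, ih]; ring

/-- the lower bound for the ghost sum -/
theorem ghost_lower {p h M u N J : ℕ} (hp : p.Prime) (hM : 2 ≤ M) (hu : u ≤ (p + 1) * h)
    (hN : p * M ≤ N) (hJ : M ≤ (p - 1) * p ^ J) :
    (h : ℤ) * (p * gX (p - 1) M - gX ((p - 1) * p) M) - u * (gN (p - 1) M - gN ((p - 1) * p) M) -
      2 * u * J ≤
    ∑ t ∈ Icc 1 N, ((mr p h ((p + 1) * h * M - u) (M - 1 + (p - 1) * t) * padicValNat p t : ℕ) : ℤ) := by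
  have hp2 := hp.two_le
  have hMN : M ≤ N := (Nat.le_mul_of_pos_left M hp.pos).trans hN
  set m : ℕ → ℕ := fun t => mr p h ((p + 1) * h * M - u) (M - 1 + (p - 1) * t) with hm
  have hfar : ∀ t, N < t → m t = 0 := fun t ht => mr_far hp2 hM (hN.trans ht.le)
  -- the valuation
  have h1 : ∑ j ∈ range J, ∑ s ∈ Icc 1 N, m (p ^ (j + 1) * s) ≤
      ∑ t ∈ Icc 1 N, m t * padicValNat p t := by
    have h2 : ∀ j ∈ range J, ∑ s ∈ Icc 1 N, m (p ^ (j + 1) * s) =
        ∑ t ∈ Icc 1 N, (if p ^ (j + 1) ∣ t then m t else 0) := fun j _ =>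
      (sum_mult (pow_pos hp.pos _) m hfar).symm
    rw [sum_congr rfl h2, sum_comm]
    refine sum_le_sum fun t ht => ?_
    rw [mem_Icc] at ht
    have h3 := val_ge hp J (t := t) (by omega)
    have h4 : ∑ j ∈ range J, (if p ^ (j + 1) ∣ t then m t else 0) =
        m t * ∑ j ∈ Icc 1 J, (if p ^ j ∣ t then 1 else 0) := by
      rw [mul_sum, range_eq_Ico, sum_Ico_add' (fun j => if p ^ j ∣ t then m t else 0) 0 J 1]
      refine sum_congr ?_ fun j _ => by split_ifs <;> simp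
      ext j
      simp
    rw [h4]
    exact Nat.mul_le_mul_left _ h3
  have h5 : (∑ j ∈ range J, ∑ s ∈ Icc 1 N, (m (p ^ (j + 1) * s) : ℤ)) ≤
      ∑ t ∈ Icc 1 N, ((m t * padicValNat p t : ℕ) : ℤ) := by exact_mod_cast h1
  refine le_trans ?_ h5
  have h6 := sum_le_sum fun j (_ : j ∈ range J) => sum_j (p := p) (N := N) hp2 hM hu hMN j
  refine le_trans (le_of_eq ?_) h6
  have h7 : ∀ j, (h : ℤ) * p * gX ((p - 1) * p ^ j) M - (p + 1) * h * gX ((p - 1) * p ^ (j + 1)) M +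
      h * gX ((p - 1) * p ^ (j + 2)) M - u * gN ((p - 1) * p ^ j) M +
      2 * u * gN ((p - 1) * p ^ (j + 1)) M - u * gN ((p - 1) * p ^ (j + 2)) M - 2 * u =
      ((h : ℤ) * p * (gX ((p - 1) * p ^ j) M : ℤ) -
        (h * p + h) * (gX ((p - 1) * p ^ (j + 1)) M : ℤ) +
        h * (gX ((p - 1) * p ^ (j + 2)) M : ℤ)) -
      u * ((gN ((p - 1) * p ^ j) M : ℤ) - 2 * (gN ((p - 1) * p ^ (j + 1)) M : ℤ) +
        (gN ((p - 1) * p ^ (j + 2)) M : ℤ)) - 2 * u := fun j => by ring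
  simp only [h7]
  rw [sum_sub_distrib, sum_sub_distrib, ← mul_sum,
    tele (fun j => (gN ((p - 1) * p ^ j) M : ℤ)) J,
    tele2 ((h : ℤ) * p) h (fun j => (gX ((p - 1) * p ^ j) M : ℤ)) J]
  have z1 : gX ((p - 1) * p ^ J) M = 0 := gX_zero hJ
  have hJ' : M ≤ (p - 1) * p ^ (J + 1) := hJ.trans (Nat.mul_le_mul_left _
    (Nat.pow_le_pow_right hp.pos (by omega)))
  have z2 : gX ((p - 1) * p ^ (J + 1)) M = 0 := gX_zero hJ'
  have z3 : gN ((p - 1) * p ^ J) M = 0 := gN_zero hJ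
  have z4 : gN ((p - 1) * p ^ (J + 1)) M = 0 := gN_zero hJ'
  simp only [z1, z2, z3, z4, pow_zero, mul_one, pow_one, sum_const, card_range, nsmul_eq_mul]
  push_cast
  ring

/-- Lemma 3.2: comparison of the special value with the ghost bound
(`q = (p+1) h`, `r = q M - u`). -/
theorem ghost_special_core {p h M u N J : ℕ} (hp : p.Prime) (hp3 : 3 ≤ p) (hM : 2 ≤ M)
    (hu : u ≤ (p + 1) * h) (hN : p * M ≤ N) (hJ : M ≤ (p - 1) * p ^ J) :
    4 * ((h : ℤ) * M + (p + 1) * h * ∑ i ∈ range M, i / p) -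
      4 * u * (1 + ((M - 1) / p : ℕ)) ≤
    4 * ∑ t ∈ Icc 1 N, ((mr p h ((p + 1) * h * M - u) (M - 1 + (p - 1) * t) *
      padicValNat p t : ℕ) : ℤ) + h * p ^ 2 + 4 * u + 8 * u * J := by
  have h1 := ghost_lower hp hM hu hN hJ
  have hp1 : 0 < p - 1 := by omega
  have hp0 : 0 < p := by omega
  have hpp : 0 < (p - 1) * p := Nat.mul_pos hp1 hp0
  have e1 : ((p - 1 : ℕ) : ℤ) = (p : ℤ) - 1 := by rw [Nat.cast_sub (by omega)]; simp
  have e2 : (((p - 1) * p : ℕ) : ℤ) = ((p : ℤ) - 1) * p := by rw [Nat.cast_mul, e1]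
  have b1 := gX_ge hp1 M
  have b2 := gX_le hpp M
  have b3 := gX_le hp0 M
  rw [e1] at b1
  rw [e2] at b2
  have hsum : ((∑ i ∈ range M, i / p : ℕ) : ℤ) = gX p M := by rw [sum_div_eq hp0]
  -- the number of terms
  have n1 : (gN (p - 1) M : ℤ) - gN ((p - 1) * p) M ≤ 2 + ((M - 1) / p : ℕ) := by
    rw [gN_val hp1 (by omega), gN_val hpp (by omega)]
    generalize M - 1 = m
    have a1 := Nat.div_add_mod m (p - 1)
    have a2 := Nat.div_add_mod m ((p - 1) * p)
    have a3 := Nat.div_add_mod m p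
    have a4 := Nat.mod_lt m hpp
    have a5 := Nat.mod_lt m hp0
    have a1' : ((p : ℤ) - 1) * (m / (p - 1) : ℕ) + (m % (p - 1) : ℕ) = m := by
      rw [← e1]; exact_mod_cast a1
    have a2' : (((p : ℤ) - 1) * p) * (m / ((p - 1) * p) : ℕ) + (m % ((p - 1) * p) : ℕ) = m := by
      rw [← e2]; exact_mod_cast a2
    have a3' : (p : ℤ) * (m / p : ℕ) + (m % p : ℕ) = m := by exact_mod_cast a3
    have a4' : ((m % ((p - 1) * p) : ℕ) : ℤ) < ((p : ℤ) - 1) * p := by
      rw [← e2]; exact_mod_cast a4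
    have a5' : ((m % p : ℕ) : ℤ) < p := by exact_mod_cast a5
    have a6 : (0 : ℤ) ≤ (m % (p - 1) : ℕ) := by positivity
    generalize ((m / (p - 1) : ℕ) : ℤ) = x at *
    generalize ((m / ((p - 1) * p) : ℕ) : ℤ) = y at *
    generalize ((m / p : ℕ) : ℤ) = z at *
    generalize ((m % (p - 1) : ℕ) : ℤ) = x' at *
    generalize ((m % ((p - 1) * p) : ℕ) : ℤ) = y' at *
    generalize ((m % p : ℕ) : ℤ) = z' at *
    have hP : (3 : ℤ) ≤ p := by exact_mod_cast hp3
    -- `p (p-1) (x - y - z) < p (p - 1) * 3`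
    by_contra hcon
    push Not at hcon
    have h3 : 2 + z + 1 ≤ x - y := hcon
    have h4 : ((p : ℤ) - 1) * p * (2 + z + 1) ≤ ((p : ℤ) - 1) * p * (x - y) :=
      mul_le_mul_of_nonneg_left h3 (by nlinarith)
    have h5 : ((p : ℤ) - 1) * p * x ≤ p * m := by nlinarith
    have h6 : (m : ℤ) - ((p : ℤ) - 1) * p < ((p : ℤ) - 1) * p * y := by linarith
    have h7 : ((p : ℤ) - 1) * (m - p) < ((p : ℤ) - 1) * (p * z) := by
      refine mul_lt_mul_of_pos_left ?_ (by linarith)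
      linarith
    nlinarith
  have hh : (0 : ℤ) ≤ h := by positivity
  have hu0 : (0 : ℤ) ≤ u := by positivity
  -- the quadratic part
  have q1 : 4 * ((M : ℤ) + (p + 1) * gX p M) ≤
      4 * (p * gX (p - 1) M - gX ((p - 1) * p) M) + p ^ 2 := by
    have hP : (3 : ℤ) ≤ p := by exact_mod_cast hp3
    have hPP : (0 : ℤ) < 2 * (((p : ℤ) - 1) * p) := by nlinarith
    refine le_of_mul_le_mul_left ?_ hPP
    have c1 : 2 * (((p : ℤ) - 1) * p) * (4 * ((p + 1) * gX p M)) =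
        ((p : ℤ) - 1) * (p + 1) * (8 * p * gX p M) := by ring
    have c2 : 2 * (((p : ℤ) - 1) * p) * (4 * (p * gX (p - 1) M)) =
        4 * p ^ 2 * (2 * ((p : ℤ) - 1) * gX (p - 1) M) := by ring
    have c3 : 2 * (((p : ℤ) - 1) * p) * (4 * gX ((p - 1) * p) M) =
        8 * (((p : ℤ) - 1) * p) * gX ((p - 1) * p) M := by ring
    have d1 : ((p : ℤ) - 1) * (p + 1) * (8 * p * gX p M) ≤
        ((p : ℤ) - 1) * (p + 1) * (4 * (M : ℤ) ^ 2 - 4 * p * M + p ^ 2) :=
      mul_le_mul_of_nonneg_left b3 (by nlinarith)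
    have d2 : 4 * (p : ℤ) ^ 2 * ((M : ℤ) ^ 2 - (p - 1) * M) ≤
        4 * p ^ 2 * (2 * ((p : ℤ) - 1) * gX (p - 1) M) :=
      mul_le_mul_of_nonneg_left b1 (by positivity)
    have e3 : 2 * (((p : ℤ) - 1) * p) * (4 * ((M : ℤ) + (p + 1) * gX p M)) =
        8 * (((p : ℤ) - 1) * p) * M + ((p : ℤ) - 1) * (p + 1) * (8 * p * gX p M) := by
      rw [← c1]; ring
    have e4 : 2 * (((p : ℤ) - 1) * p) * (4 * (p * gX (p - 1) M - gX ((p - 1) * p) M) + p ^ 2) =
        4 * p ^ 2 * (2 * ((p : ℤ) - 1) * gX (p - 1) M) -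
          8 * (((p : ℤ) - 1) * p) * gX ((p - 1) * p) M + 2 * (((p : ℤ) - 1) * p) * p ^ 2 := by
      rw [← c2, ← c3]; ring
    rw [e3, e4]
    nlinarith
  have q2 := mul_le_mul_of_nonneg_left q1 hh
  have q3 := mul_le_mul_of_nonneg_left n1 hu0
  rw [hsum]
  nlinarith

/-- sums of a unimodal function over a residue class -/
lemma tent_ap {f : ℕ → ℕ} {d a t0 N B : ℕ} (ht0 : t0 ≤ N)
    (hinc : ∀ x y, x ≤ y → y ≤ t0 → f x ≤ f y)
    (hdec : ∀ x y, t0 < x → x ≤ y → f y ≤ f x) (hB : ∀ t, f t ≤ B) :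
    d * ∑ t ∈ (range (N + 1)).filter (fun t => t % d = a), f t ≤
      ∑ t ∈ range (N + 1), f t + 2 * d * B := by
  set S := (range (N + 1)).filter (fun t => t % d = a) with hS
  set S1 := S.filter (fun t => t + d ≤ t0 + 1) with hS1
  set S2 := S.filter (fun t => t0 + d ≤ t) with hS2
  set S3 := S.filter (fun t => t0 + 1 < t + d ∧ t ≤ t0) with hS3
  set S4 := S.filter (fun t => t0 < t ∧ t < t0 + d) with hS4
  have hSmod : ∀ t ∈ S, t % d = a := fun t ht => (mem_filter.1 ht).2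
  have hSN : ∀ t ∈ S, t ≤ N := fun t ht => by
    have := mem_range.1 (mem_filter.1 ht).1
    omega
  have hcov : S ⊆ (S1 ∪ S2) ∪ (S3 ∪ S4) := by
    intro t ht
    simp only [hS1, hS2, hS3, hS4, mem_union, mem_filter]
    have : (t + d ≤ t0 + 1 ∨ t0 + d ≤ t) ∨ ((t0 + 1 < t + d ∧ t ≤ t0) ∨ (t0 < t ∧ t < t0 + d)) := by
      omega
    tauto
  -- the increasing part
  have h1 : d * ∑ t ∈ S1, f t ≤ ∑ t ∈ range (t0 + 1), f t := by
    have e1 : d * ∑ t ∈ S1, f t ≤ ∑ x ∈ S1 ×ˢ range d, f (x.1 + x.2) := by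
      rw [sum_product, mul_sum]
      refine sum_le_sum fun t ht => ?_
      rw [mem_filter] at ht
      have : d * f t = ∑ i ∈ range d, f t := by simp
      rw [this]
      refine sum_le_sum fun i hi => ?_
      rw [mem_range] at hi
      exact hinc _ _ (Nat.le_add_right _ _) (by omega)
    refine e1.trans ?_
    have hinj : Set.InjOn (fun x : ℕ × ℕ => x.1 + x.2) ((S1 ×ˢ range d : Finset (ℕ × ℕ)) : Set (ℕ × ℕ)) := by
      rintro ⟨t, i⟩ hx ⟨t', i'⟩ hx' hxx
      simp only [coe_product, Set.mem_prod, mem_coe, mem_range] at hx hx'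
      simp only at hxx
      have m1 : t % d = a := hSmod t (mem_filter.1 hx.1).1
      have m2 : t' % d = a := hSmod t' (mem_filter.1 hx'.1).1
      have m3 : (t + i) % d = (t' + i') % d := by rw [hxx]
      have m4 : i = i' := by
        rw [Nat.add_mod, Nat.add_mod t', m1, m2] at m3
        have m5 : (a + i % d) % d = (a + i' % d) % d := m3
        have m6 : a + i % d ≡ a + i' % d [MOD d] := m5
        have m7 := Nat.ModEq.add_left_cancel' a m6
        have m8 : i % d = i' % d := by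
          have := m7
          unfold Nat.ModEq at this
          rwa [Nat.mod_mod, Nat.mod_mod] at this
        rwa [Nat.mod_eq_of_lt hx.2, Nat.mod_eq_of_lt hx'.2] at m8
      subst m4
      have : t = t' := by omega
      rw [this]
    rw [← sum_image (f := f) hinj]
    refine sum_le_sum_of_subset ?_
    intro y hy
    rw [mem_image] at hy
    obtain ⟨⟨t, i⟩, hx, rfl⟩ := hy
    rw [mem_product, mem_filter, mem_range] at hx
    rw [mem_range]
    simp only at hx ⊢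
    omega
  -- the decreasing part
  have h2 : d * ∑ t ∈ S2, f t ≤ ∑ t ∈ Ico (t0 + 1) (N + 1), f t := by
    have e1 : d * ∑ t ∈ S2, f t ≤ ∑ x ∈ S2 ×ˢ range d, f (x.1 - x.2) := by
      rw [sum_product, mul_sum]
      refine sum_le_sum fun t ht => ?_
      rw [mem_filter] at ht
      have : d * f t = ∑ i ∈ range d, f t := by simp
      rw [this]
      refine sum_le_sum fun i hi => ?_
      rw [mem_range] at hi
      exact hdec _ _ (by omega) (Nat.sub_le _ _)
    refine e1.trans ?_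
    have hinj : Set.InjOn (fun x : ℕ × ℕ => x.1 - x.2) ((S2 ×ˢ range d : Finset (ℕ × ℕ)) : Set (ℕ × ℕ)) := by
      rintro ⟨t, i⟩ hx ⟨t', i'⟩ hx' hxx
      simp only [coe_product, Set.mem_prod, mem_coe, mem_range] at hx hx'
      simp only at hxx
      have m1 : t % d = a := hSmod t (mem_filter.1 hx.1).1
      have m2 : t' % d = a := hSmod t' (mem_filter.1 hx'.1).1
      have n1 := (mem_filter.1 hx.1).2
      have n2 := (mem_filter.1 hx'.1).2
      have hxx' : t + i' = t' + i := by omega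
      have m3 : (t + i') % d = (t' + i) % d := by rw [hxx']
      have m4 : i' = i := by
        rw [Nat.add_mod, Nat.add_mod t', m1, m2] at m3
        have m6 : a + i' % d ≡ a + i % d [MOD d] := m3
        have m7 := Nat.ModEq.add_left_cancel' a m6
        have m8 : i' % d = i % d := by
          have := m7
          unfold Nat.ModEq at this
          rwa [Nat.mod_mod, Nat.mod_mod] at this
        rwa [Nat.mod_eq_of_lt hx.2, Nat.mod_eq_of_lt hx'.2] at m8
      subst m4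
      have : t = t' := by omega
      rw [this]
    rw [← sum_image (f := f) hinj]
    refine sum_le_sum_of_subset ?_
    intro y hy
    rw [mem_image] at hy
    obtain ⟨⟨t, i⟩, hx, rfl⟩ := hy
    rw [mem_product, mem_filter, mem_range] at hx
    have := hSN t hx.1.1
    rw [mem_Ico]
    simp only at hx ⊢
    omega
  -- the two exceptional terms
  have hone : ∀ S' : Finset ℕ, (∀ t ∈ S', ∀ t' ∈ S', t % d = t' % d ∧ t < t' + d) →
      ∑ t ∈ S', f t ≤ B := by
    intro S' h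
    have hc : S'.card ≤ 1 := by
      refine card_le_one.2 fun t ht t' ht' => ?_
      obtain ⟨e1, e2⟩ := h t ht t' ht'
      obtain ⟨-, e3⟩ := h t' ht' t ht
      have key : ∀ x y : ℕ, x % d = y % d → x ≤ y → y < x + d → x = y := by
        intro x y hxy hle hlt
        have h5 : d ∣ y - x := (Nat.modEq_iff_dvd' hle).1 hxy
        have h6 : y - x = 0 := Nat.eq_zero_of_dvd_of_lt h5 (by omega)
        omega
      rcases le_total t t' with hle | hle
      · exact key t t' e1 hle e3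
      · exact (key t' t e1.symm hle e2).symm
    calc ∑ t ∈ S', f t ≤ ∑ t ∈ S', B := sum_le_sum fun t _ => hB t
      _ = S'.card * B := by simp
      _ ≤ 1 * B := Nat.mul_le_mul_right _ hc
      _ = B := one_mul B
  have h3 : ∑ t ∈ S3, f t ≤ B := hone _ fun t ht t' ht' => by
    rw [mem_filter] at ht ht'
    exact ⟨by rw [hSmod t ht.1, hSmod t' ht'.1], by omega⟩
  have h4 : ∑ t ∈ S4, f t ≤ B := hone _ fun t ht t' ht' => by
    rw [mem_filter] at ht ht'
    exact ⟨by rw [hSmod t ht.1, hSmod t' ht'.1], by omega⟩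
  have h5 : ∑ t ∈ S, f t ≤ (∑ t ∈ S1, f t + ∑ t ∈ S2, f t) + (∑ t ∈ S3, f t + ∑ t ∈ S4, f t) := by
    have u1 : ∀ A C : Finset ℕ, ∑ t ∈ A ∪ C, f t ≤ ∑ t ∈ A, f t + ∑ t ∈ C, f t := fun A C => by
      rw [← sum_union_inter]
      exact Nat.le_add_right _ _
    refine (sum_le_sum_of_subset hcov).trans ((u1 _ _).trans ?_)
    exact Nat.add_le_add (u1 _ _) (u1 _ _)
  have h6 : ∑ t ∈ range (t0 + 1), f t + ∑ t ∈ Ico (t0 + 1) (N + 1), f t = ∑ t ∈ range (N + 1), f t := by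
    rw [range_eq_Ico, range_eq_Ico]
    exact sum_Ico_consecutive f (Nat.zero_le _) (by omega)
  calc d * ∑ t ∈ S, f t ≤
      d * ((∑ t ∈ S1, f t + ∑ t ∈ S2, f t) + (∑ t ∈ S3, f t + ∑ t ∈ S4, f t)) :=
        Nat.mul_le_mul_left _ h5
    _ = (d * ∑ t ∈ S1, f t + d * ∑ t ∈ S2, f t) + d * (∑ t ∈ S3, f t + ∑ t ∈ S4, f t) := by ring
    _ ≤ (∑ t ∈ range (t0 + 1), f t + ∑ t ∈ Ico (t0 + 1) (N + 1), f t) + d * (B + B) := by
        gcongr
    _ = _ := by rw [h6]; ring


end Gouvea
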