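import Pool.Agent.Work.MP_d3517d_nt.SlashM

/-!
# The Iwahori subgroup (MP_d3517d_nt)
-/

open Polynomial Finset

noncomputable section

namespace Gouvea

variable {p : ℕ} [Fact p.Prime]

lemma mem_K_iff {g : G p} : g ∈ K p ↔
    (∀ i j, ‖g i j‖ ≤ 1) ∧ ‖(g : Matrix (Fin 2) (Fin 2) ℚ_[p]).det‖ = 1 := by
  constructor
  · rintro ⟨M, rfl⟩
    refine ⟨fun i j => ?_, ?_⟩
    · have : (Matrix.GeneralLinearGroup.map (n := Fin 2) (algebraMap ℤ_[p] ℚ_[p]) M) i j
        = ((M i j : ℤ_[p]) : ℚ_[p]) := rfl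
      rw [this]
      exact PadicInt.norm_le_one _
    · have h : ((Matrix.GeneralLinearGroup.map (n := Fin 2) (algebraMap ℤ_[p] ℚ_[p]) M :
          G p) : Matrix (Fin 2) (Fin 2) ℚ_[p]) =
          (M : Matrix (Fin 2) (Fin 2) ℤ_[p]).map (algebraMap ℤ_[p] ℚ_[p]) := rfl
      rw [h, ← RingHom.mapMatrix_apply, ← RingHom.map_det]
      have hu : IsUnit (M : Matrix (Fin 2) (Fin 2) ℤ_[p]).det :=
        (Matrix.isUnit_iff_isUnit_det _).1 M.isUnit
      exact PadicInt.isUnit_iff.1 hu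
  · rintro ⟨h1, h2⟩
    let M : Matrix (Fin 2) (Fin 2) ℤ_[p] := fun i j => ⟨g i j, h1 i j⟩
    have hM : M.map (algebraMap ℤ_[p] ℚ_[p]) = (g : Matrix (Fin 2) (Fin 2) ℚ_[p]) := by
      ext i j; rfl
    have hdet : IsUnit M.det := by
      rw [PadicInt.isUnit_iff]
      have : ((M.det : ℤ_[p]) : ℚ_[p]) = (g : Matrix (Fin 2) (Fin 2) ℚ_[p]).det := by
        rw [← hM, ← RingHom.mapMatrix_apply, ← RingHom.map_det]; rfl
      rw [← h2, ← this]; rfl
    refine ⟨Matrix.GeneralLinearGroup.mk'' M hdet, ?_⟩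
    ext i j; rfl

/-- The Iwahori subgroup. -/
def Iw (p : ℕ) [Fact p.Prime] : Subgroup (G p) where
  carrier := {g | g ∈ K p ∧ ‖g 1 0‖ < 1}
  one_mem' := ⟨(K p).one_mem, by simp⟩
  mul_mem' := by
    rintro a b ⟨ha, ha'⟩ ⟨hb, hb'⟩
    refine ⟨(K p).mul_mem ha hb, ?_⟩
    have h : (a * b) 1 0 = a 1 0 * b 0 0 + a 1 1 * b 1 0 := by
      simp [Matrix.mul_apply, Fin.sum_univ_two]
    rw [h]
    refine lt_of_le_of_lt (IsUltrametricDist.norm_add_le_max _ _) (max_lt ?_ ?_)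
    · rw [norm_mul]
      have := (mem_K_iff.1 hb).1 0 0
      nlinarith [norm_nonneg (b 0 0), norm_nonneg (a 1 0)]
    · rw [norm_mul]
      have := (mem_K_iff.1 ha).1 1 1
      nlinarith [norm_nonneg (b 1 0), norm_nonneg (a 1 1)]
  inv_mem' := by
    rintro a ⟨ha, ha'⟩
    refine ⟨(K p).inv_mem ha, ?_⟩
    have hd := (mem_K_iff.1 ha).2
    have h : (a⁻¹) 1 0 = - (a : Matrix (Fin 2) (Fin 2) ℚ_[p]).det⁻¹ * a 1 0 := by
      rw [Matrix.GeneralLinearGroup.coe_inv, Matrix.inv_def, Matrix.adjugate_fin_two]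
      simp [Ring.inverse_eq_inv']
    rw [h, norm_mul, norm_neg, norm_inv, hd]
    simpa using ha'

lemma mem_Iw_iff {g : G p} : g ∈ Iw p ↔ g ∈ K p ∧ ‖g 1 0‖ < 1 := Iff.rfl

lemma Iw_le_K : Iw p ≤ K p := fun _ h => h.1

lemma mul_fin_two (g h : G p) (i j : Fin 2) : (g * h) i j = g i 0 * h 0 j + g i 1 * h 1 j := by
  simp [Matrix.mul_apply, Fin.sum_univ_two]

lemma ext_fin_two {g h : G p} (h00 : g 0 0 = h 0 0) (h01 : g 0 1 = h 0 1) (h10 : g 1 0 = h 1 0)
    (h11 : g 1 1 = h 1 1) : g = h := by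
  ext i j
  fin_cases i <;> fin_cases j
  · exact h00
  · exact h01
  · exact h10
  · exact h11

lemma det_fin_two (g : G p) : (g : Matrix (Fin 2) (Fin 2) ℚ_[p]).det =
    g 0 0 * g 1 1 - g 0 1 * g 1 0 := Matrix.det_fin_two _

/-- constructor from the entries. -/
def mkG (a b c d : ℚ_[p]) (h : a * d - b * c ≠ 0) : G p :=
  Matrix.GeneralLinearGroup.mkOfDetNeZero !![a, b; c, d] (by
    simpa [Matrix.det_fin_two] using h)

@[simp] lemma mkG_00 (a b c d : ℚ_[p]) (h : a * d - b * c ≠ 0) : (mkG a b c d h) 0 0 = a := rfl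
@[simp] lemma mkG_01 (a b c d : ℚ_[p]) (h : a * d - b * c ≠ 0) : (mkG a b c d h) 0 1 = b := rfl
@[simp] lemma mkG_10 (a b c d : ℚ_[p]) (h : a * d - b * c ≠ 0) : (mkG a b c d h) 1 0 = c := rfl
@[simp] lemma mkG_11 (a b c d : ℚ_[p]) (h : a * d - b * c ≠ 0) : (mkG a b c d h) 1 1 = d := rfl

/-- `(0 1; p 0)` -/
def eta (p : ℕ) [Fact p.Prime] : G p := mkG 0 1 p 0 (by simpa using p_ne_zero p)

/-- `(0 1; 1 t)` -/
def kt (p : ℕ) [Fact p.Prime] (t : ℕ) : G p := mkG 0 1 1 t (by simp)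

/-- `(p 0; p t 1)` -/
def gt (p : ℕ) [Fact p.Prime] (t : ℕ) : G p := mkG p 0 (p * t) 1 (by simpa using p_ne_zero p)

@[simp] lemma upper_00 (a b d : ℚ_[p]) (h : a * d ≠ 0) : (upper p a b d h) 0 0 = a := rfl
@[simp] lemma upper_01 (a b d : ℚ_[p]) (h : a * d ≠ 0) : (upper p a b d h) 0 1 = b := rfl
@[simp] lemma upper_10 (a b d : ℚ_[p]) (h : a * d ≠ 0) : (upper p a b d h) 1 0 = 0 := rfl
@[simp] lemma upper_11 (a b d : ℚ_[p]) (h : a * d ≠ 0) : (upper p a b d h) 1 1 = d := rfl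

lemma eta_mul_eta : eta p * eta p = scal p := by
  apply ext_fin_two <;> simp [mul_fin_two, eta, scal]

lemma kt_mul_eta (t : ℕ) : kt p t * eta p = gt p t := by
  apply ext_fin_two <;> simp [mul_fin_two, eta, kt, gt, mul_comm]

lemma eta_mul_kt (t : ℕ) : eta p * kt p t = rep p t := by
  apply ext_fin_two <;> simp [mul_fin_two, eta, kt, rep]

lemma kt_zero_mul_repInf : kt p 0 * repInf p = eta p := by
  apply ext_fin_two <;> simp [mul_fin_two, eta, kt, repInf]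

lemma scal_comm (g : G p) : scal p * g = g * scal p := by
  apply ext_fin_two <;> simp [mul_fin_two, scal, mul_comm]

lemma norm_nat_le (t : ℕ) : ‖(t : ℚ_[p])‖ ≤ 1 := by
  simpa using Padic.norm_int_le_one (p := p) (t : ℤ)

lemma kt_mem_K (t : ℕ) : kt p t ∈ K p := by
  rw [mem_K_iff]
  constructor
  · intro i j
    fin_cases i <;> fin_cases j <;> simp [kt]
    exact norm_nat_le t
  · rw [det_fin_two]; simp [kt]

lemma gt_isInt (t : ℕ) : IsInt (gt p t) := by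
  intro i j
  fin_cases i <;> fin_cases j
  · simpa [gt] using norm_nat_le (p := p) p
  · simp [gt]
  · simp only [gt, Fin.mk_one, Fin.zero_eta, mkG_10, norm_mul]
    exact mul_le_one₀ (norm_nat_le p) (norm_nonneg _) (norm_nat_le t)
  · simp [gt]

lemma isInt_of_mem_K {g : G p} (hg : g ∈ K p) : IsInt g := (mem_K_iff.1 hg).1

/-- representatives of `Iw \ K` -/
def rIw (p : ℕ) [Fact p.Prime] : Option (Fin p) → G p
  | none => 1
  | some t => kt p t

lemma rIw_mem_K (i : Option (Fin p)) : rIw p i ∈ K p := by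
  cases i with
  | none => exact (K p).one_mem
  | some t => exact kt_mem_K _

lemma kt_inv (t : ℕ) : (kt p t)⁻¹ = mkG (-t) 1 1 0 (by simp) := by
  rw [inv_eq_iff_mul_eq_one]
  apply ext_fin_two <;> simp [mul_fin_two, kt]

lemma mul_kt_inv_mem {k : G p} (hk : k ∈ K p) (t : ℕ) :
    k * (kt p t)⁻¹ ∈ Iw p ↔ ‖k 1 1 - t * k 1 0‖ < 1 := by
  have h : (k * (kt p t)⁻¹) 1 0 = k 1 1 - t * k 1 0 := by
    rw [kt_inv, mul_fin_two]; simp; ring
  rw [mem_Iw_iff, h]
  exact ⟨fun h => h.2, fun h => ⟨(K p).mul_mem hk ((K p).inv_mem (kt_mem_K t)), h⟩⟩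

theorem existsUnique_rIw {k : G p} (hk : k ∈ K p) : ∃! i, k * (rIw p i)⁻¹ ∈ Iw p := by
  have hk' := mem_K_iff.1 hk
  have h1 : ‖k 1 0‖ ≤ 1 := hk'.1 1 0
  rcases h1.lt_or_eq with h | h
  · refine ⟨none, by simpa [rIw, mem_Iw_iff] using And.intro hk h, ?_⟩
    intro i hi
    cases i with
    | none => rfl
    | some t =>
      exfalso
      have h2 := (mul_kt_inv_mem hk t).1 hi
      have h3 : ‖k 1 1‖ < 1 := by
        have : k 1 1 = (k 1 1 - (t : ℕ) * k 1 0) + (t : ℕ) * k 1 0 := by ring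
        rw [this]
        refine lt_of_le_of_lt (IsUltrametricDist.norm_add_le_max _ _) (max_lt h2 ?_)
        rw [norm_mul]
        nlinarith [norm_nat_le (p := p) t, norm_nonneg (k 1 0)]
      have h4 := hk'.2
      rw [det_fin_two] at h4
      have h5 : ‖k 0 0 * k 1 1 - k 0 1 * k 1 0‖ < 1 := by
        rw [sub_eq_add_neg]
        refine lt_of_le_of_lt (IsUltrametricDist.norm_add_le_max _ _) (max_lt ?_ ?_)
        · rw [norm_mul]; nlinarith [hk'.1 0 0, norm_nonneg (k 1 1), norm_nonneg (k 0 0)]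
        · rw [norm_neg, norm_mul]; nlinarith [hk'.1 0 1, norm_nonneg (k 1 0), norm_nonneg (k 0 1)]
      exact h5.ne h4
  · have h0 : k 1 0 ≠ 0 := by
      intro h0; rw [h0] at h; simp at h
    let x : ℤ_[p] := ⟨k 1 1 / k 1 0, by rw [norm_div, h, div_one]; exact hk'.1 1 1⟩
    obtain ⟨t, htp, ht⟩ := PadicInt.exists_mem_range x
    rw [PadicInt.maximalIdeal_eq_span_p, Ideal.mem_span_singleton,
      ← PadicInt.norm_lt_one_iff_dvd] at ht
    have ht' : ‖k 1 1 - t * k 1 0‖ < 1 := by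
      have h3 : ‖k 1 1 / k 1 0 - t‖ < 1 := by
        have : ((x - t : ℤ_[p]) : ℚ_[p]) = k 1 1 / k 1 0 - t := by
          rw [PadicInt.coe_sub, PadicInt.coe_natCast]
        rw [← this]; exact ht
      have h4 : k 1 1 - t * k 1 0 = (k 1 1 / k 1 0 - t) * k 1 0 := by
        field_simp
      rw [h4, norm_mul, h, mul_one]; exact h3
    refine ⟨some ⟨t, htp⟩, (mul_kt_inv_mem hk t).2 ht', ?_⟩
    intro i hi
    cases i with
    | none =>
      exfalso
      have : ‖k 1 0‖ < 1 := by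
        have := hi.2
        simpa [rIw] using this
      exact this.ne h
    | some s =>
      have h2 := (mul_kt_inv_mem hk s).1 hi
      have h3 : ‖(((s : ℕ) - (t : ℕ) : ℤ) : ℚ_[p])‖ < 1 := by
        have h4 : ((((s : ℕ) - (t : ℕ) : ℤ) : ℚ_[p])) * k 1 0 =
            (k 1 1 - t * k 1 0) + -(k 1 1 - (s : ℕ) * k 1 0) := by push_cast; ring
        have h5 : ‖((((s : ℕ) - (t : ℕ) : ℤ) : ℚ_[p])) * k 1 0‖ < 1 := by
          rw [h4]
          exact lt_of_le_of_lt (IsUltrametricDist.norm_add_le_max _ _)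
            (max_lt ht' (by rwa [norm_neg]))
        rwa [norm_mul, h, mul_one] at h5
      rw [Padic.norm_intCast_lt_one_iff] at h3
      have h6 : ((s : ℕ) : ℤ) = t := by
        have hs := s.2
        rcases h3 with ⟨c, hc⟩
        have hp0 : (0 : ℤ) < p := by exact_mod_cast (Fact.out : p.Prime).pos
        have h7 : c < 1 := by nlinarith
        have h8 : -1 < c := by nlinarith
        have : c = 0 := by omega
        rw [this] at hc; omega
      congr 1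
      ext
      exact_mod_cast h6

/-! ### `eta` normalises `Iw` -/

lemma norm_p_mul_lt {x : ℚ_[p]} (hx : ‖x‖ ≤ 1) : ‖(p : ℚ_[p]) * x‖ < 1 := by
  rw [norm_mul]
  have h1 : ‖(p : ℚ_[p])‖ < 1 := Padic.norm_p_lt_one
  nlinarith [norm_nonneg x, norm_nonneg (p : ℚ_[p])]

lemma norm_div_p_le {x : ℚ_[p]} (hx : ‖x‖ < 1) : ‖x / p‖ ≤ 1 := by
  have h : (⟨x, hx.le⟩ : ℤ_[p]) ∈ nonunits ℤ_[p] := PadicInt.mem_nonunits.2 hx
  obtain ⟨y, hy⟩ := (PadicInt.norm_lt_one_iff_dvd (⟨x, hx.le⟩ : ℤ_[p])).1 hx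
  have hy' : x = p * (y : ℚ_[p]) := by
    have := congrArg (fun z : ℤ_[p] => (z : ℚ_[p])) hy
    simpa using this
  rw [hy', mul_div_assoc, mul_comm (p : ℚ_[p]), div_mul_cancel₀ _ (p_ne_zero p)]
  exact PadicInt.norm_le_one y

/-- `eta g eta⁻¹`. -/
def cEta (g : G p) : G p := mkG (g 1 1) (g 1 0 / p) (p * g 0 1) (g 0 0) (by
  have h : (g : Matrix (Fin 2) (Fin 2) ℚ_[p]).det ≠ 0 := Matrix.GeneralLinearGroup.det_ne_zero g
  rw [det_fin_two] at h
  have hp := p_ne_zero p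
  intro h'
  apply h
  rw [← h']
  field_simp)

lemma cEta_mul_eta (g : G p) : cEta g * eta p = eta p * g := by
  have hp := p_ne_zero p
  apply ext_fin_two
  · simp [mul_fin_two, cEta, eta]; try field_simp
  · simp [mul_fin_two, cEta, eta]
  · simp [mul_fin_two, cEta, eta]; try ring
  · simp [mul_fin_two, cEta, eta]

lemma eta_conj (g : G p) : eta p * g * (eta p)⁻¹ = cEta g := by
  rw [← cEta_mul_eta, mul_inv_cancel_right]

lemma cEta_mem {g : G p} (hg : g ∈ Iw p) : cEta g ∈ Iw p := by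
  have h1 := mem_K_iff.1 hg.1
  refine ⟨mem_K_iff.2 ⟨?_, ?_⟩, ?_⟩
  · intro i j
    fin_cases i <;> fin_cases j
    · exact h1.1 1 1
    · exact norm_div_p_le hg.2
    · exact (norm_p_mul_lt (h1.1 0 1)).le
    · exact h1.1 0 0
  · have : ((cEta g : G p) : Matrix (Fin 2) (Fin 2) ℚ_[p]).det =
        (g : Matrix (Fin 2) (Fin 2) ℚ_[p]).det := by
      have hp := p_ne_zero p
      rw [det_fin_two, det_fin_two]
      simp only [cEta, mkG_00, mkG_01, mkG_10, mkG_11]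
      field_simp
    rw [this]; exact h1.2
  · exact norm_p_mul_lt (h1.1 0 1)

lemma eta_conj_mem {g : G p} (hg : g ∈ Iw p) : eta p * g * (eta p)⁻¹ ∈ Iw p := by
  rw [eta_conj]; exact cEta_mem hg

/-- diagonal elements of `Iw`. -/
def IsDiag (g : G p) : Prop := g ∈ Iw p ∧ g 0 1 = 0 ∧ g 1 0 = 0

lemma IsDiag.one : IsDiag (1 : G p) := ⟨(Iw p).one_mem, by simp, by simp⟩

lemma norm_diag_of_mem_Iw {g : G p} (hg : g ∈ Iw p) : ‖g 0 0‖ = 1 ∧ ‖g 1 1‖ = 1 := by
  have h1 := mem_K_iff.1 hg.1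
  have h2 := h1.2
  rw [det_fin_two] at h2
  have h3 : ‖g 0 1 * g 1 0‖ < 1 := by
    rw [norm_mul]; nlinarith [h1.1 0 1, norm_nonneg (g 1 0), norm_nonneg (g 0 1), hg.2]
  have h4 : 1 ≤ ‖g 0 0 * g 1 1‖ := by
    by_contra h
    push Not at h
    have : ‖g 0 0 * g 1 1 - g 0 1 * g 1 0‖ < 1 := by
      rw [sub_eq_add_neg]
      exact lt_of_le_of_lt (IsUltrametricDist.norm_add_le_max _ _)
        (max_lt h (by rwa [norm_neg]))
    exact this.ne h2
  rw [norm_mul] at h4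
  have h5 := h1.1 0 0
  have h6 := h1.1 1 1
  constructor
  · nlinarith [norm_nonneg (g 0 0), norm_nonneg (g 1 1)]
  · nlinarith [norm_nonneg (g 0 0), norm_nonneg (g 1 1)]

/-- normal form of `g ∈ Iw eta` with scalar square. -/
theorem normal_form {v : G p} (hv : v ∈ Iw p) (hsq : ((v * eta p) * (v * eta p)) 0 1 = 0) :
    ∃ m ∈ Iw p, ∃ t, IsDiag t ∧ m * (v * eta p) * m⁻¹ = t * eta p := by
  have hn := norm_diag_of_mem_Iw hv
  have hK := mem_K_iff.1 hv.1
  have hd0 : v 1 1 ≠ 0 := by intro h; rw [h] at hn; simp at hn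
  have ha0 : v 0 0 ≠ 0 := by intro h; rw [h] at hn; simp at hn
  have hc : v 1 0 = -(p * v 0 1) := by
    have h : v 0 0 * (p * v 0 1 + v 1 0) = 0 := by
      rw [← hsq]
      simp [mul_fin_two, eta]; ring
    rcases mul_eq_zero.1 h with h | h
    · exact absurd h ha0
    · linear_combination h
  have hbd : ‖v 0 1 / v 1 1‖ ≤ 1 := by rw [norm_div, hn.2, div_one]; exact hK.1 0 1
  let s : ℚ_[p] := -(v 0 1 / v 1 1)
  let a' : ℚ_[p] := v 0 0 + p * (v 0 1 * (v 0 1 / v 1 1))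
  have hsn : ‖s‖ ≤ 1 := by simpa [s] using hbd
  have hrest : ‖(p : ℚ_[p]) * (v 0 1 * (v 0 1 / v 1 1))‖ < 1 := by
    apply norm_p_mul_lt
    rw [norm_mul]
    exact mul_le_one₀ (hK.1 0 1) (norm_nonneg _) hbd
  have ha' : ‖a'‖ = 1 := by
    have := IsUltrametricDist.norm_add_eq_max_of_norm_ne_norm
      (x := v 0 0) (y := (p : ℚ_[p]) * (v 0 1 * (v 0 1 / v 1 1))) (by rw [hn.1]; exact hrest.ne')
    rw [show a' = v 0 0 + (p : ℚ_[p]) * (v 0 1 * (v 0 1 / v 1 1)) from rfl, this, hn.1]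
    exact max_eq_left hrest.le
  have ha'0 : a' ≠ 0 := by intro h; rw [h] at ha'; simp at ha'
  let m : G p := mkG 1 s 0 1 (by simp)
  let t : G p := mkG a' 0 0 (v 1 1) (by simpa using ⟨ha'0, hd0⟩)
  have hm : m ∈ Iw p := by
    refine ⟨mem_K_iff.2 ⟨?_, ?_⟩, ?_⟩
    · intro i j
      fin_cases i <;> fin_cases j <;> simp [m]
      exact hsn
    · rw [det_fin_two]; simp [m]
    · simp [m]
  have ht : t ∈ Iw p := by
    refine ⟨mem_K_iff.2 ⟨?_, ?_⟩, ?_⟩
    · intro i j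
      fin_cases i <;> fin_cases j <;> simp [t]
      · exact ha'.le
      · exact hn.2.le
    · rw [det_fin_two]; simp [t, ha', hn.2]
    · simp [t]
  refine ⟨m, hm, t, ⟨ht, by simp [t], by simp [t]⟩, ?_⟩
  rw [mul_inv_eq_iff_eq_mul]
  apply ext_fin_two
  · simp only [mul_fin_two, eta, m, t, mkG_00, mkG_01, mkG_10, mkG_11, hc, s]
    field_simp
    ring
  · simp only [mul_fin_two, eta, m, t, mkG_00, mkG_01, mkG_10, mkG_11, hc, s, a']
    field_simp
    ring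
  · simp only [mul_fin_two, eta, m, t, mkG_00, mkG_01, mkG_10, mkG_11, hc, s]
    ring
  · simp only [mul_fin_two, eta, m, t, mkG_00, mkG_01, mkG_10, mkG_11, hc, s]
    field_simp
    ring

end Gouvea
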