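import Pool.Agent.Work.MP_d3517d_nt.Basic

/-!
# M2: level sums
-/

open Polynomial Finset

noncomputable section

namespace Gouvea

/-- at most `q` elements of each level -/
theorem cnt_le {E : Type} [Fintype E] [DecidableEq E] {L : ℕ} (R : Finset (E × Fin L)) (i : ℕ) :
    cnt R i ≤ Fintype.card E := by
  unfold cnt
  rw [← Finset.card_univ]
  refine Finset.card_le_card_of_injOn Prod.fst (fun _ _ => Finset.mem_coe.2 (Finset.mem_univ _)) ?_
  intro x hx y hy hxy
  rw [Finset.mem_coe, Finset.mem_filter] at hx hy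
  refine Prod.ext hxy (Fin.ext ?_)
  have h1 := hx.2
  have h2 := hy.2
  unfold lev at h1 h2
  rw [h1, h2]

/-- sums over `R` of functions of the level -/
theorem sum_lev {E : Type} [DecidableEq E] {L N : ℕ} (hN : L ≤ N) (R : Finset (E × Fin L))
    (g : ℕ → ℤ) : ∑ x ∈ R, g (lev x) = ∑ i ∈ range N, (cnt R i : ℤ) * g i := by
  have h1 : ∀ x ∈ R, lev x ∈ range N := by
    intro x _
    rw [mem_range]
    exact x.2.2.trans_le hN
  rw [← Finset.sum_fiberwise_of_maps_to h1]
  refine Finset.sum_congr rfl fun i _ => ?_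
  unfold cnt
  rw [Finset.sum_congr rfl (g := fun _ => g i) (fun x hx => by rw [(mem_filter.1 hx).2])]
  rw [Finset.sum_const, nsmul_eq_mul]

theorem level_sum_ge {E : Type} [Fintype E] [DecidableEq E] {L q M u : ℕ} (f : ℕ → ℕ)
    (hf : Monotone f) (hq : Fintype.card E = q) (hM : 1 ≤ M) (hu : u ≤ q)
    (R : Finset (E × Fin L)) (hR : R.card + u = q * M) :
    q * ∑ i ∈ range M, f i ≤ ∑ x ∈ R, f (lev x) + u * f (M - 1) := by
  set N := max L M with hN
  have hML : M ≤ N := le_max_right _ _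
  have h1 := sum_lev (le_max_left L M) R (fun i => (f i : ℤ))
  have h2 := sum_lev (le_max_left L M) R (fun _ => (1 : ℤ))
  rw [← hN] at h1 h2
  rw [Finset.sum_const, nsmul_eq_mul, mul_one] at h2
  simp only [mul_one] at h2
  -- the block `i < M`
  have h3 : ∀ g : ℕ → ℤ, ∑ i ∈ range N, (if i < M then g i else 0) = ∑ i ∈ range M, g i := by
    intro g
    rw [← Finset.sum_filter]
    congr 1
    ext i
    rw [mem_filter, mem_range, mem_range]
    omega
  have h4 : ∀ i ∈ range N, 0 ≤ ((cnt R i : ℤ) - if i < M then (q : ℤ) else 0) *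
      ((f i : ℤ) - f (M - 1)) := by
    intro i _
    have hc : (cnt R i : ℤ) ≤ q := by
      rw [← hq]
      exact_mod_cast cnt_le R i
    split_ifs with hi
    · have : (f i : ℤ) ≤ f (M - 1) := by exact_mod_cast hf (by omega : i ≤ M - 1)
      nlinarith
    · have : (f (M - 1) : ℤ) ≤ f i := by exact_mod_cast hf (by omega : M - 1 ≤ i)
      have h0 : (0 : ℤ) ≤ cnt R i := Nat.cast_nonneg _
      nlinarith
  have h5 := Finset.sum_nonneg h4
  have h6 : ∑ i ∈ range N, ((cnt R i : ℤ) - if i < M then (q : ℤ) else 0) *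
      ((f i : ℤ) - f (M - 1)) = ∑ i ∈ range N, (cnt R i : ℤ) * f i -
      (∑ i ∈ range N, (cnt R i : ℤ)) * f (M - 1) -
      (q * ∑ i ∈ range M, (f i : ℤ) - q * M * f (M - 1)) := by
    have e1 : ∀ i, ((cnt R i : ℤ) - if i < M then (q : ℤ) else 0) * ((f i : ℤ) - f (M - 1)) =
        (cnt R i : ℤ) * f i - (cnt R i : ℤ) * f (M - 1) -
        (if i < M then (q : ℤ) * ((f i : ℤ) - f (M - 1)) else 0) := by
      intro i
      split_ifs <;> ring
    rw [Finset.sum_congr rfl fun i _ => e1 i, Finset.sum_sub_distrib, Finset.sum_sub_distrib, h3,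
      ← Finset.sum_mul, ← Finset.mul_sum, Finset.sum_sub_distrib, Finset.sum_const, card_range,
      nsmul_eq_mul]
    ring
  rw [h6, ← h1, ← h2] at h5
  have hR' : (R.card : ℤ) + u = q * M := by exact_mod_cast hR
  have h7 : (q : ℤ) * ∑ i ∈ range M, (f i : ℤ) ≤ ∑ x ∈ R, (f (lev x) : ℤ) + u * f (M - 1) := by
    have : (R.card : ℤ) = q * M - u := by linarith
    rw [this] at h5
    linarith
  exact_mod_cast h7

end Gouvea
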