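import Pool.Agent.Work.MP_d3517d_nt.GBTool
import Pool.Agent.Work.MP_d3517d_nt.PhiPsi
import Pool.Agent.Work.MP_d3517d_nt.LevelSum

/-!
# M3: Gauss bound for the minors
-/

open Polynomial Finset

noncomputable section

namespace Gouvea

variable {p : ℕ} [Fact p.Prime]

/-- Cauchy-Binet in the form of a sum over maps -/
theorem det_sum_columns {A ι ρ : Type} [CommRing A] [Fintype ι] [Fintype ρ] [DecidableEq ι]
    [DecidableEq ρ] (g : ρ → ι → A) (c : ι → ρ → A) :
    (Matrix.of fun x y : ρ => ∑ z, g x z * c z y).det =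
      ∑ f : ρ → ι, (∏ y, c (f y) y) * (Matrix.of fun x y : ρ => g x (f y)).det := by
  rw [← Matrix.det_transpose]
  have h1 : (Matrix.of fun x y : ρ => ∑ z, g x z * c z y).transpose =
      fun y => ∑ z, c z y • (fun x => g x z) := by
    funext y x
    simp only [Matrix.transpose_apply, Matrix.of_apply, Finset.sum_apply, Pi.smul_apply,
      smul_eq_mul]
    exact Finset.sum_congr rfl fun z _ => mul_comm _ _
  have h2 : ∀ B : Matrix ρ ρ A, B.det = Matrix.detRowAlternating.toMultilinearMap B := fun B => rfl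
  rw [h1, h2, MultilinearMap.map_sum]
  refine Finset.sum_congr rfl fun f _ => ?_
  rw [MultilinearMap.map_smul_univ, smul_eq_mul]
  congr 1
  rw [← h2, ← Matrix.det_transpose]
  rfl

theorem minor_GB {h n0 L J : ℕ} {E : Type} [Fintype E] [DecidableEq E]
    (F : WFam p h n0 L J E) {q M u : ℕ} (hq : Fintype.card E = q) (hM : 1 ≤ M) (hu : u ≤ q)
    (R : Finset (E × Fin L)) (hR : R.card + u = q * M) :
    GB p (minor F.U R) (LamA p q M u L (cnt R)) := by
  classical
  -- take out the rows
  have h1 : minor F.U R = (∏ x : R, C ((p : ℚ_[p]) ^ phi p (lev (x : E × Fin L)))) *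
      (Matrix.of fun x y : R => ∑ z, F.G x z * C ((p : ℚ_[p]) ^ psi p (lev z) * F.H z y)).det := by
    rw [← Matrix.det_mul_column]
    unfold minor
    congr 1
    funext x y
    simp only [Matrix.submatrix_apply, Matrix.of_apply]
    rw [F.fac, Finset.mul_sum]
    exact Finset.sum_congr rfl fun z _ => mul_assoc _ _ _
  -- the first factor
  have h2 : GB p (∏ x : R, C ((p : ℚ_[p]) ^ phi p (lev (x : E × Fin L))))
      (∑ i ∈ range L, (cnt R i : ℤ) * phi p i) := by
    have h3 := GB.prod (p := p) (s := (univ : Finset R))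
      (f := fun x : R => C ((p : ℚ_[p]) ^ phi p (lev (x : E × Fin L))))
      (Λ := fun x : R => (phi p (lev (x : E × Fin L)) : ℤ)) (fun x _ => GB.C (VB.p_pow _))
    rw [Finset.sum_coe_sort R (fun x => (phi p (lev x) : ℤ)),
      sum_lev le_rfl R (fun i => (phi p i : ℤ))] at h3
    exact h3
  -- the second factor
  have h3 : GB p (Matrix.of fun x y : R => ∑ z, F.G x z *
      C ((p : ℚ_[p]) ^ psi p (lev z) * F.H z y)).det
      ((q : ℤ) * ∑ i ∈ range M, (psi p i : ℤ) - u * (psi p (M - 1) : ℤ)) := by
    rw [det_sum_columns]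
    refine GB.sum fun f _ => ?_
    by_cases hf : Function.Injective f
    · have h4 : GB p (∏ y, C ((p : ℚ_[p]) ^ psi p (lev (f y)) * F.H (f y) y))
          (∑ y, ((psi p (lev (f y)) : ℤ) + 0)) :=
        GB.prod fun y _ => GB.C ((VB.p_pow _).mul (F.hH _ _))
      have h5 : GB p (Matrix.of fun x y : R => F.G x (f y)).det 0 :=
        GB.det fun x y => F.hG _ _
      have h6 := h4.mul h5
      refine h6.mono ?_
      have h7 := level_sum_ge (psi p) psi_mono hq hM hu (univ.map ⟨f, hf⟩) (by
        rw [Finset.card_map, Finset.card_univ, Fintype.card_coe]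
        exact hR)
      rw [Finset.sum_map] at h7
      simp only [Function.Embedding.coeFn_mk] at h7
      have h8 : (q : ℤ) * ∑ i ∈ range M, (psi p i : ℤ) ≤ ∑ y : R, (psi p (lev (f y)) : ℤ) +
          u * (psi p (M - 1) : ℤ) := by exact_mod_cast h7
      simp only [add_zero]
      linarith
    · have h4 : (Matrix.of fun x y : R => F.G x (f y)).det = 0 := by
        rw [Function.Injective] at hf
        push Not at hf
        obtain ⟨y, y', hyy, hne⟩ := hf
        exact Matrix.det_zero_of_column_eq hne fun x => by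
          simp only [Matrix.of_apply]
          rw [hyy]
      rw [h4, mul_zero]
      exact GB.zero _
  rw [h1]
  exact h2.mul h3

end Gouvea
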