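import Pool.Agent.Work.MP_d3517d_nt.Rank
import Pool.Agent.Work.MP_d3517d_nt.MinorGB

/-!
# M4 (end): the ghost factors of the principal minors of a family (MP_d3517d_nt)
-/

open Polynomial Finset

noncomputable section

namespace Gouvea

variable {p : ℕ} [Fact p.Prime]

theorem minor_fac {h n0 L J : ℕ} {E : Type} [Fintype E] [DecidableEq E]
    (F : WFam p h n0 L J E) {q M u : ℕ} (hq : Fintype.card E = q) (hM : 1 ≤ M) (hu : u ≤ q)
    (R : Finset (E × Fin L)) (hR : R.card + u = q * M) (s : Finset ℕ)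
    (hs : ∀ κ ∈ s, n0 + (p - 1) * κ < J ∧ n0 + (p - 1) * κ < L) :
    ∃ e, GB p e (LamA p q M u L (cnt R)) ∧ minor F.U R =
      (∏ κ ∈ s, (X - C (κ : ℚ_[p])) ^ ma h R.card (cnt R) L (n0 + (p - 1) * κ)) * e := by
  refine GB_factor (minor F.U R) _ (minor_GB F hq hM hu R hR) s _ fun κ hκ => ?_
  unfold minor
  refine pow_dvd_det _ _ _ ?_
  have h1 := minor_rank F R κ (hs κ hκ).1 (hs κ hκ).2
  have h2 := Matrix.rank_le_card_width
    (((F.U.submatrix (Subtype.val : R → E × Fin L) (Subtype.val : R → E × Fin L))).map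
      fun f => f.eval (κ : ℚ_[p]))
  rw [Fintype.card_coe] at h2 ⊢
  unfold ma
  omega

end Gouvea
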