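import Pool.Agent.Work.MP_d3517d_nt.Comb2
import Pool.Agent.Work.MP_d3517d_nt.MinorFac
import Pool.Agent.Work.MP_d3517d_nt.Ghost
import Pool.Agent.Work.MP_d3517d_nt.Interp

/-!
# Few bad weights
-/

open Polynomial Finset

noncomputable section

namespace Gouvea

variable {p : ℕ} [Fact p.Prime]

omit [Fact p.Prime] in
private lemma mb_dvd (a b : ℕ) : ((p : ℤ) ^ vd p a b) ∣ ((a : ℤ) - b) := padicValInt_dvd _

private lemma mb_vd_affine (hp : 5 ≤ p) (n0 a b : ℕ) :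
    vd p (n0 + (p - 1) * a) (n0 + (p - 1) * b) = vd p a b := by
  unfold vd
  by_cases hab : a = b
  · subst hab
    simp
  have h1 : (((n0 + (p - 1) * a : ℕ) : ℤ) - ((n0 + (p - 1) * b : ℕ) : ℤ)) =
      ((p - 1 : ℕ) : ℤ) * ((a : ℤ) - b) := by
    push_cast
    ring
  have h2 : ((p - 1 : ℕ) : ℤ) ≠ 0 := by
    have : p - 1 ≠ 0 := by omega
    exact_mod_cast this
  have h3 : ((a : ℤ) - b) ≠ 0 := fun h => hab (by omega)
  have h4 : padicValInt p ((p - 1 : ℕ) : ℤ) = 0 := by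
    rw [padicValInt.of_nat]
    refine padicValNat.eq_zero_of_not_dvd fun h => ?_
    have := Nat.le_of_dvd (by omega) h
    omega
  rw [h1, padicValInt.mul h2 h3, h4, zero_add]

private lemma mb_vd_lt {V a b : ℕ} (hab : a ≠ b) (ha : a < p ^ V) (hb : b < p ^ V) :
    vd p a b < V := by
  have hp1 : 1 < p := (Fact.out : p.Prime).one_lt
  by_contra hlt
  push Not at hlt
  have h1 : ((p : ℤ) ^ V) ∣ ((a : ℤ) - b) := (pow_dvd_pow _ hlt).trans (mb_dvd a b)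
  have h2 : ((a : ℤ) - b) ≠ 0 := fun h => hab (by omega)
  have h3 := Int.le_of_dvd (abs_pos.2 h2) ((dvd_abs _ _).2 h1)
  have ha' : (a : ℤ) < (p : ℤ) ^ V := by exact_mod_cast ha
  have hb' : (b : ℤ) < (p : ℤ) ^ V := by exact_mod_cast hb
  have h4 : |(a : ℤ) - b| < (p : ℤ) ^ V := by
    rw [abs_lt]
    constructor <;> omega
  omega

private lemma mb_two_pow {V : ℕ} (hV : 64 ≤ V) : V ^ 6 ≤ 2 ^ V := by
  induction V, hV using Nat.le_induction with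
  | base => norm_num
  | succ n hn ih =>
    have h1 : (n + 1) ^ 6 ≤ 2 * n ^ 6 := by
      have e : (n + 1) ^ 6 = n ^ 6 + (6 * n ^ 5 + 15 * n ^ 4 + 20 * n ^ 3 + 15 * n ^ 2 + 6 * n + 1) := by
        ring
      have h5 : n ^ 4 ≤ n ^ 5 := Nat.pow_le_pow_right (by omega) (by norm_num)
      have h6 : n ^ 3 ≤ n ^ 5 := Nat.pow_le_pow_right (by omega) (by norm_num)
      have h7 : n ^ 2 ≤ n ^ 5 := Nat.pow_le_pow_right (by omega) (by norm_num)
      have h8 : n ^ 1 ≤ n ^ 5 := Nat.pow_le_pow_right (by omega) (by norm_num)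
      have h9 : n ^ 0 ≤ n ^ 5 := Nat.pow_le_pow_right (by omega) (by norm_num)
      have h10 : 63 * n ^ 5 ≤ n * n ^ 5 := Nat.mul_le_mul_right _ (by omega)
      have h11 : n * n ^ 5 = n ^ 6 := by ring
      rw [pow_one] at h8
      rw [pow_zero] at h9
      rw [e]
      omega
    calc (n + 1) ^ 6 ≤ 2 * n ^ 6 := h1
      _ ≤ 2 * 2 ^ n := by omega
      _ = 2 ^ (n + 1) := by ring

omit [Fact p.Prime] in
/-- the numerical conditions that hold for large `V` -/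
private lemma mb_T_large (hp : 5 ≤ p) {T V q : ℕ} (hq : 1 ≤ q) (hV : 1000 * p ^ 2 * q ≤ V)
    (hT : p ^ V ≤ 2 * (p + 1) * p ^ 2 * T) : V ^ 10 ≤ T := by
  have hp2 : 25 ≤ p ^ 2 := by nlinarith
  have hV1 : 1000 * p ^ 2 ≤ V := le_trans (by nlinarith) hV
  have h1 : V ^ 6 ≤ 2 ^ V := mb_two_pow (by omega)
  have h2 : (2 ^ V) * (2 ^ V) ≤ p ^ V := by
    rw [← Nat.mul_pow]
    exact Nat.pow_le_pow_left (by omega) V
  have h3 : V ^ 12 ≤ p ^ V := le_trans (by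
    calc V ^ 12 = V ^ 6 * V ^ 6 := by ring
      _ ≤ 2 ^ V * 2 ^ V := Nat.mul_le_mul h1 h1) h2
  have h4 : 2 * (p + 1) * p ^ 2 ≤ V ^ 2 := by
    have h5 : (2 * (p + 1) * p ^ 2) ≤ (1000 * p ^ 2) * (1000 * p ^ 2) := by
      have h6 : 2 * (p + 1) ≤ 1000 * (1000 * p ^ 2) := by nlinarith
      calc 2 * (p + 1) * p ^ 2 ≤ 1000 * (1000 * p ^ 2) * p ^ 2 := Nat.mul_le_mul_right _ h6
        _ = (1000 * p ^ 2) * (1000 * p ^ 2) := by ring
    calc 2 * (p + 1) * p ^ 2 ≤ (1000 * p ^ 2) * (1000 * p ^ 2) := h5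
      _ ≤ V * V := Nat.mul_le_mul hV1 hV1
      _ = V ^ 2 := by ring
  have h5 : V ^ 2 * V ^ 10 ≤ V ^ 2 * T :=
    calc V ^ 2 * V ^ 10 = V ^ 12 := by ring
      _ ≤ p ^ V := h3
      _ ≤ 2 * (p + 1) * p ^ 2 * T := hT
      _ ≤ V ^ 2 * T := Nat.mul_le_mul_right _ h4
  exact Nat.le_of_mul_le_mul_left h5 (Nat.pow_pos (by omega))

private lemma mb_cnt_le {E : Type} [Fintype E] [DecidableEq E] {L : ℕ} (R : Finset (E × Fin L))
    (i : ℕ) : cnt R i ≤ Fintype.card E := by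
  unfold cnt
  rw [← Finset.card_univ]
  refine Finset.card_le_card_of_injOn (fun x => x.1) (fun x _ => mem_coe.2 (mem_univ _)) ?_
  intro x hx y hy hxy
  rw [mem_coe, mem_filter] at hx hy
  have hx2 : (x.2 : ℕ) = i := hx.2
  have hy2 : (y.2 : ℕ) = i := hy.2
  refine Prod.ext hxy (Fin.ext ?_)
  rw [hx2, hy2]

private lemma mb_cnt_sum {E : Type} [Fintype E] [DecidableEq E] {L : ℕ}
    (R : Finset (E × Fin L)) : ∑ i ∈ range L, cnt R i = R.card := by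
  unfold cnt
  exact (Finset.card_eq_sum_card_fiberwise fun x _ => mem_coe.2 (mem_range.2 x.2.2)).symm

omit [Fact p.Prime] in
private lemma mb_IB_mono {w w' : ℕ → ℝ} {V : ℕ} (hw : IB p w V) (h0 : ∀ n, 0 ≤ w' n)
    (h1 : ∀ n, w' n ≤ w n) : IB p w' V :=
  ⟨h0, fun a b hab => le_trans (Finset.sum_le_sum fun n _ => h1 n) (hw.2 a b hab)⟩

omit [Fact p.Prime] in
/-- few windows of the ball around the special weight are close to the centre -/
private lemma mb_few (hp : 5 ≤ p) {n0 M V κ0 J1 : ℕ} (hV : 64 ≤ V) (hJ : V ^ 6 ≤ p ^ J1)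
    (B : Finset ℕ) (hB : ∀ k ∈ B, J1 ≤ vd p κ0 k) :
    (B.filter fun k => |((n0 + (p - 1) * k : ℕ) : ℤ) + 2 - 2 * M| ≤ 64 * (V : ℤ) ^ 5).card ≤ 1 := by
  rw [Finset.card_le_one]
  intro a ha b hb
  rw [mem_filter] at ha hb
  by_contra hab
  have h1 : ((p : ℤ) ^ J1) ∣ ((κ0 : ℤ) - a) := (pow_dvd_pow _ (hB a ha.1)).trans (mb_dvd _ _)
  have h2 : ((p : ℤ) ^ J1) ∣ ((κ0 : ℤ) - b) := (pow_dvd_pow _ (hB b hb.1)).trans (mb_dvd _ _)
  have h3 : ((p : ℤ) ^ J1) ∣ ((a : ℤ) - b) := by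
    have : ((a : ℤ) - b) = ((κ0 : ℤ) - b) - ((κ0 : ℤ) - a) := by ring
    rw [this]
    exact dvd_sub h2 h1
  have h4 : ((a : ℤ) - b) ≠ 0 := fun h => hab (by omega)
  have h5 := Int.le_of_dvd (abs_pos.2 h4) ((dvd_abs _ _).2 h3)
  have h6 : (V : ℤ) ^ 6 ≤ |(a : ℤ) - b| := le_trans (by exact_mod_cast hJ) h5
  have h7 : |((p - 1 : ℕ) : ℤ) * ((a : ℤ) - b)| ≤ 128 * (V : ℤ) ^ 5 := by
    have e : ((p - 1 : ℕ) : ℤ) * ((a : ℤ) - b) =
        (((n0 + (p - 1) * a : ℕ) : ℤ) + 2 - 2 * M) - (((n0 + (p - 1) * b : ℕ) : ℤ) + 2 - 2 * M) := by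
      push_cast
      ring
    rw [e]
    have := abs_sub (((n0 + (p - 1) * a : ℕ) : ℤ) + 2 - 2 * M)
      (((n0 + (p - 1) * b : ℕ) : ℤ) + 2 - 2 * M)
    have ha2 := ha.2
    have hb2 := hb.2
    linarith
  rw [abs_mul] at h7
  have h8 : (4 : ℤ) ≤ |((p - 1 : ℕ) : ℤ)| := by
    rw [abs_of_nonneg (by positivity)]
    have : 4 ≤ p - 1 := by omega
    exact_mod_cast this
  have h9 : 4 * (V : ℤ) ^ 6 ≤ 128 * (V : ℤ) ^ 5 := by
    have h10 : 4 * (V : ℤ) ^ 6 ≤ |((p - 1 : ℕ) : ℤ)| * |(a : ℤ) - b| :=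
      mul_le_mul h8 h6 (by positivity) (by positivity)
    linarith
  have h11 : (64 : ℤ) ≤ V := by exact_mod_cast hV
  have h12 : (0 : ℤ) < (V : ℤ) ^ 5 := by positivity
  have h13 : 64 * (V : ℤ) ^ 5 ≤ V * (V : ℤ) ^ 5 := mul_le_mul_of_nonneg_right h11 h12.le
  have h14 : (V : ℤ) * (V : ℤ) ^ 5 = (V : ℤ) ^ 6 := by ring
  linarith

/-- an unimportant minor is expensive -/
private lemma mb_cost (hp : 5 ≤ p) {h q M u L r V n D : ℕ} (hq : q = (p + 1) * h) (hh : 1 ≤ h)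
    (hV : 1000 * p ^ 2 * q ≤ V) (hM : 1 ≤ M)
    (hu : u ≤ q) (a : ℕ → ℕ) (ha : ∀ i, a i ≤ q) (hr : r + u = q * M)
    (hsum : ∑ i ∈ range L, a i = r) (hn : M ≤ n) (hnL : n < L)
    (hD : D = if |(n : ℤ) + 2 - 2 * M| ≤ 64 * (V : ℤ) ^ 5 then V ^ 3 else 0)
    (hk : ma h r a L n < mr p h r n - D) :
    4 * (4 * V ^ 5) ≤ cost q M L a := by
  have hq1 : 1 ≤ q := by
    rw [hq]
    nlinarith
  have hp2 : 25 ≤ p ^ 2 := by nlinarith
  have hVq : 1000 * q ≤ V := le_trans (by nlinarith) hV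
  by_cases hc : |(n : ℤ) + 2 - 2 * M| ≤ 64 * (V : ℤ) ^ 5
  · rw [if_pos hc] at hD
    have hk' : ma h r a L n + (V ^ 3 + 1) ≤ mr p h r n := by omega
    have h1 := comb_cost2 (p := p) hq hM hu a ha hr hsum hn hnL hk'
    have h2 := cX_sq (M := M) (L := L) a ha
    by_contra hlt
    push Not at hlt
    have h3 : V ^ 6 ≤ 8 * q * (cost q M L a + cX q M a) := le_trans (by nlinarith) h1
    have hV5 : 1 ≤ V ^ 5 := Nat.one_le_pow _ _ (by omega)
    have hqV : q ≤ V ^ 5 := le_trans (by omega) (Nat.le_self_pow (by norm_num) V)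
    have h4 : cX q M a ≤ 16 * V ^ 5 := by
      by_contra h5
      push Not at h5
      have h6 : cX q M a ^ 2 ≤ 2 * q * (2 * cX q M a) :=
        le_trans h2 (Nat.mul_le_mul_left _ (by omega))
      have h7 : cX q M a * cX q M a ≤ (4 * q) * cX q M a := by nlinarith
      have h8 := Nat.le_of_mul_le_mul_right h7 (by omega)
      omega
    have h9 : V ^ 6 ≤ 8 * q * (32 * V ^ 5) := le_trans h3 (Nat.mul_le_mul_left _ (by omega))
    have h10 : V * V ^ 5 ≤ (256 * q) * V ^ 5 := by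
      calc V * V ^ 5 = V ^ 6 := by ring
        _ ≤ 8 * q * (32 * V ^ 5) := h9
        _ = (256 * q) * V ^ 5 := by ring
    have h11 := Nat.le_of_mul_le_mul_right h10 hV5
    omega
  · rw [if_neg hc] at hD
    have hk' : ma h r a L n + 1 ≤ mr p h r n := by omega
    have h1 := comb_cost1 (p := p) hq hM hu a ha hr hsum hn hnL hk'
    push Not at hc
    have h2 : 64 * (V : ℤ) ^ 5 < 4 * cost q M L a := by
      push_cast at h1
      linarith
    have h3 : 64 * V ^ 5 < 4 * cost q M L a := by exact_mod_cast h2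
    omega

omit [Fact p.Prime] in
private lemma mb_H4 {q h M V T : ℕ} (hp : 5 ≤ p) (hq : q = (p + 1) * h) (hh : 1 ≤ h)
    (hVpos : 1 ≤ V) (hMT : M ≤ T) (hT10 : V ^ 10 ≤ T) :
    20 * p * q * M * V + 4 * V ^ 5 + 1 ≤ 30 * p ^ 2 * h * T * V := by
  have hp5 : 20 * p ≤ 4 * p ^ 2 := by nlinarith
  have h5 : 20 * p * q * M * V ≤ 24 * p ^ 2 * h * T * V := by
    have h6 : 20 * p * q ≤ 24 * p ^ 2 * h :=
      calc 20 * p * q = 20 * p ^ 2 * h + 20 * p * h := by rw [hq]; ring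
        _ ≤ 20 * p ^ 2 * h + 4 * p ^ 2 * h := Nat.add_le_add_left (Nat.mul_le_mul_right _ hp5) _
        _ = 24 * p ^ 2 * h := by ring
    calc 20 * p * q * M * V ≤ 24 * p ^ 2 * h * M * V :=
          Nat.mul_le_mul_right _ (Nat.mul_le_mul_right _ h6)
      _ ≤ 24 * p ^ 2 * h * T * V :=
          Nat.mul_le_mul_right _ (Nat.mul_le_mul_left _ hMT)
  have h7 : 4 * V ^ 5 + 1 ≤ 6 * p ^ 2 * h * T * V := by
    have h8 : V ^ 5 ≤ V ^ 10 := Nat.pow_le_pow_right hVpos (by norm_num)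
    have h9 : V ^ 5 ≤ T := le_trans h8 hT10
    have h10 : 1 ≤ V ^ 5 := Nat.one_le_pow _ _ hVpos
    have h11 : 5 * 1 ≤ 6 * p ^ 2 * h := Nat.mul_le_mul (by nlinarith) hh
    calc 4 * V ^ 5 + 1 ≤ 5 * V ^ 5 := by omega
      _ ≤ 5 * T := by omega
      _ = 5 * 1 * T * 1 := by ring
      _ ≤ 6 * p ^ 2 * h * T * V := Nat.mul_le_mul (Nat.mul_le_mul_right _ h11) hVpos
  calc 20 * p * q * M * V + 4 * V ^ 5 + 1 = 20 * p * q * M * V + (4 * V ^ 5 + 1) := by ring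
    _ ≤ 24 * p ^ 2 * h * T * V + 6 * p ^ 2 * h * T * V := Nat.add_le_add h5 h7
    _ = 30 * p ^ 2 * h * T * V := by ring

theorem main_bad (hp : 5 ≤ p) {h : ℕ} (hh : 1 ≤ h) : ∃ V0 : ℕ,
    ∀ (E : Type) (_ : Fintype E) (_ : DecidableEq E) (n0 L J : ℕ) (F : WFam p h n0 L J E)
      (T V M u r κ0 : ℕ), Fintype.card E = (p + 1) * h → V0 ≤ V → 2 * (p + 1) * T < p ^ V →
      p ^ V ≤ 2 * (p + 1) * p ^ 2 * T → M ≤ T → T ≤ V * M → u ≤ (p + 1) * h →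
      r + u = (p + 1) * h * M → n0 + (p - 1) * κ0 + 1 = M → 2 * (p + 1) * T < L →
      2 * (p + 1) * T < J →
      (p : ℝ) ^ (-(((M - 1 : ℕ) : ℤ) * ((p + 1) * h / 2 : ℕ) * M + h * M - u * M)) ≤
        ‖(cr F.U r).eval (κ0 : ℚ_[p])‖ →
      ∀ S : Finset ℕ, (∀ s ∈ S, (p + 1) * M ≤ n0 + (p - 1) * s ∧ n0 + (p - 1) * s ≤ 2 * T ∧
        Nat.clog p (V ^ 6) + 1 ≤ vd p κ0 s ∧
        ‖(cr F.U r).eval (s : ℚ_[p])‖ ≤
          (p : ℝ) ^ (-((r : ℝ) ^ 2 / (2 * ((p + 1) * h)) + 30 * p ^ 2 * h * T * V) + 1)) →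
      S.card < 3 * V ^ 4 := by
  have hp1 : 1 < p := by omega
  refine ⟨1000 * p ^ 2 * ((p + 1) * h), ?_⟩
  intro E instF instD n0 L J F T V M u r κ0 hE hV0 hTV hVT hMT hTM hu hr hκ0 hL hJ hspec S hS
  obtain ⟨q, hq⟩ : ∃ q, q = (p + 1) * h := ⟨_, rfl⟩
  rw [← hq] at hE hV0 hu hr hspec
  have hq1 : 1 ≤ q := by
    rw [hq]
    nlinarith
  have hp2 : 25 ≤ p ^ 2 := by nlinarith
  have hVq : 1000 * q ≤ V := le_trans (by nlinarith) hV0
  have hVp : 1000 * p ^ 2 ≤ V := le_trans (by nlinarith) hV0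
  have hVpos : 1 ≤ V := by omega
  have hT10 := mb_T_large hp hq1 hV0 hVT
  have hM9 : V ^ 9 ≤ M := by
    have h1 : V * V ^ 9 ≤ V * M := le_trans (le_of_eq (by ring)) (le_trans hT10 hTM)
    exact Nat.le_of_mul_le_mul_left h1 hVpos
  have hMp : p + 2 ≤ M := by
    have h1 : V ≤ V ^ 9 := Nat.le_self_pow (by norm_num) V
    nlinarith
  have hM1 : 1 ≤ M := by omega
  -- the ghost weights
  let Gh : Finset ℕ := (range ((p + 1) * M)).filter fun κ => 0 < mr p h r (n0 + (p - 1) * κ)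
  have hpow : p ^ V ≤ p ^ (V + 1) := Nat.pow_le_pow_right (by omega) (by omega)
  have hrange : ∀ κ, 0 < mr p h r (n0 + (p - 1) * κ) →
      M ≤ n0 + (p - 1) * κ ∧ n0 + (p - 1) * κ + 1 < (p + 1) * M := fun κ hκ =>
    ghost_range hp hq hh hMp hu hr hκ
  have hle : ∀ κ, κ ≤ n0 + (p - 1) * κ := fun κ => by
    have : 1 * κ ≤ (p - 1) * κ := Nat.mul_le_mul_right _ (by omega)
    omega
  have hGh : ∀ κ, 0 < mr p h r (n0 + (p - 1) * κ) → κ ∈ Gh := fun κ hκ => by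
    refine mem_filter.2 ⟨mem_range.2 ?_, hκ⟩
    have h1 := hrange κ hκ
    have h2 := hle κ
    omega
  have hGhr : ∀ κ ∈ Gh, M ≤ n0 + (p - 1) * κ ∧ n0 + (p - 1) * κ + 1 < (p + 1) * M :=
    fun κ hκ => hrange κ (mem_filter.1 hκ).2
  have hpM : (p + 1) * M ≤ (p + 1) * T := Nat.mul_le_mul_left _ hMT
  have hpT : 2 * (p + 1) * T = (p + 1) * T + (p + 1) * T := by ring
  have hGhL : ∀ κ ∈ Gh, n0 + (p - 1) * κ < L := fun κ hκ => by
    have h1 := hGhr κ hκ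
    omega
  have hGhJ : ∀ κ ∈ Gh, n0 + (p - 1) * κ < J := fun κ hκ => by
    have h1 := hGhr κ hκ
    omega
  have hGhV : ∀ κ ∈ Gh, n0 + (p - 1) * κ < p ^ V := fun κ hκ => by
    have h1 := hGhr κ hκ
    omega
  have hMV : M < p ^ V := by
    have h1 : 1 * M ≤ (p + 1) * M := Nat.mul_le_mul_right _ (by omega)
    omega
  have hML : M ≤ L := by
    have h1 : 1 * M ≤ (p + 1) * M := Nat.mul_le_mul_right _ (by omega)
    omega
  have hκ0Gh : κ0 ∉ Gh := fun h1 => by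
    have := hGhr κ0 h1
    omega
  have hSGh : ∀ s ∈ S, s ∉ Gh := fun s hs h1 => by
    have := hGhr s h1
    have := (hS s hs).1
    omega
  have hκ0S : κ0 ∉ S := fun h1 => by
    have h2 := (hS κ0 h1).1
    have h3 : 1 * M ≤ (p + 1) * M := Nat.mul_le_mul_right _ (by omega)
    omega
  have hTV2 : 2 * T < p ^ V := by
    have h1 : 2 * T ≤ 2 * (p + 1) * T := Nat.mul_le_mul_right _ (by omega)
    omega
  -- all relevant weights are below `p ^ V`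
  have hlt : ∀ s ∈ insert κ0 S, n0 + (p - 1) * s < p ^ V := fun s hs => by
    rcases mem_insert.1 hs with rfl | hs
    · omega
    · have := (hS s hs).2.1
      omega
  have hnot : ∀ s ∈ insert κ0 S, s ∉ Gh := fun s hs => by
    rcases mem_insert.1 hs with rfl | hs
    · exact hκ0Gh
    · exact hSGh s hs
  -- the set of ghost weights `n`
  let N : Finset ℕ := Gh.image fun κ => n0 + (p - 1) * κ
  have hinj : Set.InjOn (fun κ => n0 + (p - 1) * κ) (Gh : Set ℕ) := fun a _ b _ hab => by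
    have h1 : (p - 1) * a = (p - 1) * b := by
      have : n0 + (p - 1) * a = n0 + (p - 1) * b := hab
      omega
    exact Nat.eq_of_mul_eq_mul_left (by omega) h1
  have hsumN : ∀ f : ℕ → ℝ, ∑ n ∈ N, f n = ∑ κ ∈ Gh, f (n0 + (p - 1) * κ) := fun f =>
    Finset.sum_image hinj
  have hNM : ∀ n ∈ N, M ≤ n ∧ n < L := fun n hn => by
    obtain ⟨κ, hκ, rfl⟩ := mem_image.1 hn
    exact ⟨(hGhr κ hκ).1, hGhL κ hκ⟩
  -- interval bounds
  have hIB : ∀ s ∈ insert κ0 S,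
      IB p (fun n => if n ∈ N then (vd p (n0 + (p - 1) * s) n : ℝ) else 0) V := by
    intro s hs
    refine IB_val hp N fun n hn => ?_
    obtain ⟨κ, hκ, rfl⟩ := mem_image.1 hn
    refine ⟨?_, ?_, lt_of_lt_of_le (hGhV κ hκ) hpow, lt_of_lt_of_le (hlt s hs) hpow⟩
    · have h1 : n0 + (p - 1) * κ ≡ n0 [MOD (p - 1)] := by
        simp [Nat.ModEq]
      have h2 : n0 + (p - 1) * s ≡ n0 [MOD (p - 1)] := by
        simp [Nat.ModEq]
      exact h1.trans h2.symm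
    · intro h1
      have h2 : κ = s := Nat.eq_of_mul_eq_mul_left (show 0 < p - 1 by omega) (by omega)
      exact hnot s hs (h2 ▸ hκ)
  have hwval : ∀ s, ∀ κ ∈ Gh, (if n0 + (p - 1) * κ ∈ N then
      (vd p (n0 + (p - 1) * s) (n0 + (p - 1) * κ) : ℝ) else 0) = (vd p s κ : ℝ) := fun s κ hκ => by
    rw [if_pos (mem_image_of_mem (fun κ => n0 + (p - 1) * κ) hκ), mb_vd_affine hp]
  -- level counts
  have hRs : ∀ R ∈ powersetCard r (univ : Finset (E × Fin L)), R.card = r := fun R hR =>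
    (mem_powersetCard.1 hR).2
  have hcnt : ∀ R : Finset (E × Fin L), ∀ i, cnt R i ≤ q := fun R i => hE ▸ mb_cnt_le R i
  let J1 : ℕ := Nat.clog p (V ^ 6)
  have hJ1 : V ^ 6 ≤ p ^ J1 := Nat.le_pow_clog hp1 _
  let B : Finset ℕ := Gh.filter fun k => J1 ≤ vd p κ0 k
  let D : ℕ → ℕ := fun k =>
    if |((n0 + (p - 1) * k : ℕ) : ℤ) + 2 - 2 * M| ≤ 64 * (V : ℤ) ^ 5 then V ^ 3 else 0
  have hvdle : ∀ k ∈ Gh, vd p κ0 k ≤ V := fun k hk => by
    refine (mb_vd_lt (a := κ0) (b := k) (fun h1 => hκ0Gh (by rw [h1]; exact hk)) ?_ ?_).le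
    · exact lt_of_le_of_lt (hle κ0) (hlt κ0 (mem_insert_self _ _))
    · exact lt_of_le_of_lt (hle k) (hGhV k hk)
  have hfew := mb_few hp (n0 := n0) (M := M) (κ0 := κ0) (V := V) (J1 := J1) (by omega) hJ1 B
    (fun k hk => (mem_filter.1 hk).2)
  have hDsum : ∑ k ∈ B, D k * vd p κ0 k ≤ V ^ 4 := by
    have h1 : ∀ k ∈ B, D k * vd p κ0 k ≤
        if |((n0 + (p - 1) * k : ℕ) : ℤ) + 2 - 2 * M| ≤ 64 * (V : ℤ) ^ 5 then V ^ 4 else 0 := by
      intro k hk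
      have h2 := hvdle k (mem_filter.1 hk).1
      simp only [D]
      split_ifs
      · calc V ^ 3 * vd p κ0 k ≤ V ^ 3 * V := Nat.mul_le_mul_left _ h2
          _ = V ^ 4 := by ring
      · simp
    calc ∑ k ∈ B, D k * vd p κ0 k ≤ ∑ k ∈ B,
        (if |((n0 + (p - 1) * k : ℕ) : ℤ) + 2 - 2 * M| ≤ 64 * (V : ℤ) ^ 5 then V ^ 4 else 0) :=
          Finset.sum_le_sum h1
      _ = (B.filter fun k =>
          |((n0 + (p - 1) * k : ℕ) : ℤ) + 2 - 2 * M| ≤ 64 * (V : ℤ) ^ 5).card * V ^ 4 := by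
          rw [← Finset.sum_filter, Finset.sum_const, smul_eq_mul]
      _ ≤ 1 * V ^ 4 := Nat.mul_le_mul_right _ hfew
      _ = V ^ 4 := one_mul _
  -- numerical facts
  have hn1 : 20 * p ^ 2 * q * V ≤ V ^ 2 := by
    calc 20 * p ^ 2 * q * V ≤ V * V := Nat.mul_le_mul_right _ (le_trans (by nlinarith) hV0)
      _ = V ^ 2 := by ring
  have hn2 : 2 * q * (5 * V + 3) ^ 2 ≤ V ^ 3 := by
    calc 2 * q * (5 * V + 3) ^ 2 ≤ 2 * q * (6 * V) ^ 2 :=
          Nat.mul_le_mul_left _ (Nat.pow_le_pow_left (by omega) 2)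
      _ = (72 * q) * V ^ 2 := by ring
      _ ≤ V * V ^ 2 := Nat.mul_le_mul_right _ (by omega)
      _ = V ^ 3 := by ring
  have hV23 : V ^ 2 ≤ V ^ 3 := Nat.pow_le_pow_right hVpos (by norm_num)
  have hV34 : 3 * V ^ 3 ≤ V ^ 4 := by
    calc 3 * V ^ 3 ≤ V * V ^ 3 := Nat.mul_le_mul_right _ (by omega)
      _ = V ^ 4 := by ring
  have hV45 : 3 * V ^ 4 ≤ V ^ 5 := by
    calc 3 * V ^ 4 ≤ V * V ^ 4 := Nat.mul_le_mul_right _ (by omega)
      _ = V ^ 5 := by ring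
  have hV3p : 1 ≤ V ^ 3 := Nat.one_le_pow _ _ hVpos
  have hX4 : 32 * q * (5 * V + 2) ^ 2 ≤ 4 * V ^ 5 := by
    calc 32 * q * (5 * V + 2) ^ 2 ≤ 32 * q * (6 * V) ^ 2 :=
          Nat.mul_le_mul_left _ (Nat.pow_le_pow_left (by omega) 2)
      _ = (1152 * q) * V ^ 2 := by ring
      _ ≤ (4 * V) * V ^ 2 := Nat.mul_le_mul_right _ (by omega)
      _ = 4 * V ^ 3 := by ring
      _ ≤ 4 * V ^ 5 := by omega
  have hNV : 3 * V ^ 4 * V = 3 * V ^ 5 := by ring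
  refine interp_main (ρ := Finset (E × Fin L)) (powersetCard r univ) (fun R => minor F.U R)
    (fun R => LamA p q M u L (cnt R)) (fun R κ => ma h R.card (cnt R) L (n0 + (p - 1) * κ))
    Gh (fun κ => mr p h r (n0 + (p - 1) * κ)) (Lam0 p q M u) ?_ B (filter_subset _ _) D J1 V
    (2 * q * (5 * V + 3) ^ 2) (4 * V ^ 5) (20 * p ^ 2 * q * V) (3 * V ^ 4) κ0 S hκ0Gh hSGh hκ0S
    ?_ ?_ ?_ ?_ ?_ ?_ ?_ ?_ ?_
  · -- the factorisation
    intro R hR
    exact minor_fac F hE hM1 hu R (by rw [hRs R hR]; exact hr) Gh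
      fun κ hκ => ⟨hGhJ κ hκ, hGhL κ hκ⟩
  · intro k hk
    exact ⟨fun h1 => (mem_filter.1 h1).2, fun h1 => mem_filter.2 ⟨hk, h1⟩⟩
  · intro s hs
    exact (hS s hs).2.2.1
  · intro a ha b hb hab
    exact (mb_vd_lt hab (lt_of_le_of_lt (hle a) (hlt a ha)) (lt_of_le_of_lt (hle b) (hlt b hb))).le
  · -- H1
    intro R hR
    have hc : R.card = r := hRs R hR
    have hw : IB p (fun n => if n ∈ N then ((min (vd p (n0 + (p - 1) * κ0) n) J1 : ℕ) : ℝ) else 0)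
        V := by
      refine mb_IB_mono (hIB κ0 (mem_insert_self _ _)) (fun n => ?_) (fun n => ?_)
      · split_ifs
        · positivity
        · exact le_rfl
      · split_ifs
        · exact_mod_cast Nat.min_le_left _ _
        · exact le_rfl
    have h1 := comb_beta hp hq hh hM1 hML (lt_of_lt_of_le hMV hpow) hu (cnt R) (hcnt R) hr
      ((mb_cnt_sum R).trans hc) _ hw N hNM
    rw [hsumN, hsumN] at h1
    have e1 : ∀ m : ℕ → ℕ, ∑ κ ∈ Gh, (m (n0 + (p - 1) * κ) : ℝ) *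
        (if n0 + (p - 1) * κ ∈ N then
          ((min (vd p (n0 + (p - 1) * κ0) (n0 + (p - 1) * κ)) J1 : ℕ) : ℝ) else 0) =
        ((∑ κ ∈ Gh, (m (n0 + (p - 1) * κ) : ℤ) * (min (vd p κ0 κ) J1 : ℕ) : ℤ) : ℝ) := by
      intro m
      push_cast
      refine Finset.sum_congr rfl fun κ hκ => ?_
      rw [if_pos (mem_image_of_mem (fun κ => n0 + (p - 1) * κ) hκ), mb_vd_affine hp]
    rw [e1 (fun n => mr p h r n), e1 (fun n => ma h r (cnt R) L n)] at h1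
    have h2 : Lam0 p q M u + (∑ κ ∈ Gh, (mr p h r (n0 + (p - 1) * κ) : ℤ) *
        (min (vd p κ0 κ) J1 : ℕ)) - ((2 * q * (5 * V + 3) ^ 2 : ℕ) : ℤ) ≤
        LamA p q M u L (cnt R) + ∑ κ ∈ Gh, (ma h r (cnt R) L (n0 + (p - 1) * κ) : ℤ) *
        (min (vd p κ0 κ) J1 : ℕ) := by
      have h3 : ((Lam0 p q M u + (∑ κ ∈ Gh, (mr p h r (n0 + (p - 1) * κ) : ℤ) *
        (min (vd p κ0 κ) J1 : ℕ)) - ((2 * q * (5 * V + 3) ^ 2 : ℕ) : ℤ) : ℤ) : ℝ) ≤
        ((LamA p q M u L (cnt R) + ∑ κ ∈ Gh, (ma h r (cnt R) L (n0 + (p - 1) * κ) : ℤ) *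
        (min (vd p κ0 κ) J1 : ℕ) : ℤ) : ℝ) := by
        push_cast at h1 ⊢
        exact h1
      exact_mod_cast h3
    simpa only [hc] using h2
  · -- H2
    intro R hR hex s hs
    have hc : R.card = r := hRs R hR
    obtain ⟨k, hkB, hk⟩ := hex
    have hkGh : k ∈ Gh := (mem_filter.1 hkB).1
    rw [hc] at hk
    have hcost := mb_cost hp hq hh hV0 hM1 hu (cnt R) (hcnt R) hr ((mb_cnt_sum R).trans hc)
      (hGhr k hkGh).1 (hGhL k hkGh) (D := D k) rfl hk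
    have h1 := comb_beta' hp hq hh hVpos hM1 hML (lt_of_lt_of_le hMV hpow) hu (cnt R) (hcnt R) hr
      ((mb_cnt_sum R).trans hc) _ (hIB s hs) N hNM hX4 hcost
    rw [hsumN, hsumN] at h1
    have e1 : ∀ m : ℕ → ℕ, ∑ κ ∈ Gh, (m (n0 + (p - 1) * κ) : ℝ) *
        (if n0 + (p - 1) * κ ∈ N then
          (vd p (n0 + (p - 1) * s) (n0 + (p - 1) * κ) : ℝ) else 0) =
        ((∑ κ ∈ Gh, (m (n0 + (p - 1) * κ) : ℤ) * vd p s κ : ℤ) : ℝ) := by
      intro m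
      push_cast
      refine Finset.sum_congr rfl fun κ hκ => ?_
      rw [hwval s κ hκ]
    rw [e1 (fun n => mr p h r n), e1 (fun n => ma h r (cnt R) L n)] at h1
    have h2 : Lam0 p q M u + (∑ κ ∈ Gh, (mr p h r (n0 + (p - 1) * κ) : ℤ) * vd p s κ) +
        ((4 * V ^ 5 : ℕ) : ℤ) ≤
        LamA p q M u L (cnt R) + ∑ κ ∈ Gh, (ma h r (cnt R) L (n0 + (p - 1) * κ) : ℤ) *
        vd p s κ := by
      have h3 : ((Lam0 p q M u + (∑ κ ∈ Gh, (mr p h r (n0 + (p - 1) * κ) : ℤ) * vd p s κ) +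
        ((4 * V ^ 5 : ℕ) : ℤ) : ℤ) : ℝ) ≤
        ((LamA p q M u L (cnt R) + ∑ κ ∈ Gh, (ma h r (cnt R) L (n0 + (p - 1) * κ) : ℤ) *
        vd p s κ : ℤ) : ℝ) := by
        push_cast at h1 ⊢
        exact h1
      exact_mod_cast h3
    simpa only [hc] using h2
  · -- H3
    have h1 := ghost_special hp (V := V) hq hh hMp hu hr hκ0
      (lt_of_lt_of_le (by omega) hpow) Gh hGh
    refine le_trans ?_ hspec
    refine zpow_le_zpow_right₀ (by exact_mod_cast hp1.le) ?_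
    push_cast at h1 ⊢
    linarith
  · -- H4
    intro s hs
    obtain ⟨-, -, -, h1⟩ := hS s hs
    have h2 := ghost_total hp (n0 := n0) (V := V) hq hh hVpos hMp hu hr Gh
      (fun κ hκ => lt_of_lt_of_le (lt_of_le_of_lt (hle κ) (hGhV κ hκ)) hpow)
      (lt_of_lt_of_le (lt_of_le_of_lt (hle s) (hlt s (mem_insert_of_mem hs))) hpow) (hSGh s hs)
    unfold VB
    refine le_trans h1 ?_
    rw [← Real.rpow_intCast]
    refine Real.rpow_le_rpow_of_exponent_le (by exact_mod_cast hp1.le) ?_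
    push_cast
    have hqR : ((p : ℝ) + 1) * h = q := by
      rw [hq]
      push_cast
      ring
    rw [hqR]
    have h3 : 20 * (p : ℝ) * q * M * V + 4 * (V : ℝ) ^ 5 + 1 ≤ 30 * p ^ 2 * h * T * V := by
      have h4 : 20 * p * q * M * V + 4 * V ^ 5 + 1 ≤ 30 * p ^ 2 * h * T * V :=
        mb_H4 hp hq hh hVpos hMT hT10
      exact_mod_cast h4
    linarith
  · -- H5
    have h1 : ∑ k ∈ B, D k * (vd p κ0 k - J1) ≤ V ^ 4 :=
      le_trans (Finset.sum_le_sum fun k _ => Nat.mul_le_mul_left _ (Nat.sub_le _ _)) hDsum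
    omega
  · -- H6
    rw [hNV]
    omega

end Gouvea
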