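import Pool.Agent.Work.MP_d3517d_nt.Assembly
import Pool.Agent.Work.MP_d3517d_nt.Exceptional
import Pool.Agent.Work.MP_d3517d_nt.MainBad
import Pool.Agent.Work.MP_d3517d_nt.Family
import Pool.Agent.Work.MP_d3517d_nt.Quat.Main
import Pool.Agent.Work.MP_d3517d_nt.Quat.Class

/-!
# The equidistribution theorem for `p ≥ 5`
-/

open Polynomial Finset Filter Topology MeasureTheory

noncomputable section

namespace Gouvea

variable {p : ℕ} [Fact p.Prime]

theorem fewExc_v1 (hp : 5 ≤ p) (h : ℕ) (E V : Type) [Fintype E] [DecidableEq E] [Fintype V]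
    [DecidableEq V] (D : Dat p h E V) (hh : 1 ≤ h) : FewExcStat D := by
  obtain ⟨V0, hV0⟩ := main_bad (p := p) hp hh
  intro η ε hη hε
  exact few_exceptional_of hp hh D (V0 := V0) hV0 (fun n0 L J h0 => exists_fam hp D n0 L J h0)
    (fun F hc κ hJ hL r x hx => Gf_fam F D.toGam hc κ hJ hL r x hx) η ε hη hε

/-- The abstract theorem for `p ≥ 5`. -/
theorem abstract_v1 (hp : 5 ≤ p) : Quat.Abstract p := by
  intro Ω _ hstab horb hscal R _ act hact m hm
  exact equidistribution_of (fun h E V _ _ _ _ D hh => fewExc_v1 hp h E V D hh) Ω hstab horb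
    hscal R act hact m hm

end Gouvea
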