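import Mathlib

/-!
# Sums of principal minors

`esum r A` is the sum of the principal minors of size `r` of the square matrix `A`, the
coefficient of `X ^ r` in `det (1 + X A)`.
-/

namespace Pool.Agent.Gouv

open Matrix Polynomial Finset

section Ring

variable {n m : Type*} [Fintype n] [DecidableEq n] [Fintype m] [DecidableEq m]
  {R : Type*} [CommRing R]

/-- the minor with the rows and columns in `s` -/
def pmin (A : Matrix n n R) (s : Finset n) : R :=
  (A.submatrix (Subtype.val : s → n) (Subtype.val : s → n)).det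

/-- the sum of the principal minors of size `r` -/
def esum (r : ℕ) (A : Matrix n n R) : R := ∑ s ∈ univ.powersetCard r, pmin A s

/-- the polynomial `det (1 + X A)` -/
noncomputable def eP (A : Matrix n n R) : R[X] := det (1 + (X : R[X]) • A.map C)

theorem coeff_eP (A : Matrix n n R) (r : ℕ) : (eP A).coeff r = esum r A :=
  coeff_det_one_add_X_smul_eq_sum_minors A r

@[simp] theorem esum_zero (A : Matrix n n R) : esum 0 A = 1 := by
  simp [esum, pmin]

theorem esum_of_lt (A : Matrix n n R) {r : ℕ} (hr : Fintype.card n < r) : esum r A = 0 := by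
  rw [esum, powersetCard_eq_empty.2 (by rwa [card_univ]), sum_empty]

theorem esum_card (A : Matrix n n R) : esum (Fintype.card n) A = A.det := by
  rw [esum, ← card_univ, powersetCard_self, sum_singleton, pmin]
  let e : (univ : Finset n) ≃ n := Equiv.subtypeUnivEquiv mem_univ
  exact det_submatrix_equiv_self e A

theorem eP_mul_comm (A : Matrix n m R) (B : Matrix m n R) : eP (A * B) = eP (B * A) := by
  rw [eP, eP, Matrix.map_mul, Matrix.map_mul, ← Matrix.smul_mul, det_one_add_mul_comm,
    Matrix.mul_smul]

theorem esum_mul_comm (A : Matrix n m R) (B : Matrix m n R) (r : ℕ) :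
    esum r (A * B) = esum r (B * A) := by
  rw [← coeff_eP, ← coeff_eP, eP_mul_comm]

theorem eP_submatrix_equiv (e : m ≃ n) (A : Matrix n n R) : eP (A.submatrix e e) = eP A := by
  have : (1 : Matrix m m R[X]) + (X : R[X]) • (A.submatrix e e).map C =
      ((1 : Matrix n n R[X]) + (X : R[X]) • A.map C).submatrix e e := by
    ext i j
    simp [Matrix.one_apply]
  rw [eP, this, det_submatrix_equiv_self, eP]

theorem esum_submatrix_equiv (e : m ≃ n) (A : Matrix n n R) (r : ℕ) :
    esum r (A.submatrix e e) = esum r A := by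
  rw [← coeff_eP, ← coeff_eP, eP_submatrix_equiv]

theorem eP_fromBlocks (A : Matrix n n R) (B : Matrix n m R) (D : Matrix m m R) :
    eP (fromBlocks A B 0 D) = eP A * eP D := by
  have : (1 : Matrix (n ⊕ m) (n ⊕ m) R[X]) + (X : R[X]) • (fromBlocks A B 0 D).map C =
      fromBlocks (1 + (X : R[X]) • A.map C) ((X : R[X]) • B.map C) 0
        (1 + (X : R[X]) • D.map C) := by
    rw [fromBlocks_map, fromBlocks_smul, ← fromBlocks_one, fromBlocks_add]
    simp
  rw [eP, this, det_fromBlocks_zero₂₁, eP, eP]

theorem esum_fromBlocks (A : Matrix n n R) (B : Matrix n m R) (D : Matrix m m R) (r : ℕ) :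
    esum r (fromBlocks A B 0 D) = ∑ x ∈ antidiagonal r, esum x.1 A * esum x.2 D := by
  rw [← coeff_eP, eP_fromBlocks, coeff_mul]
  simp only [coeff_eP]

theorem esum_map {S : Type*} [CommRing S] (f : R →+* S) (A : Matrix n n R) (r : ℕ) :
    esum r (A.map f) = f (esum r A) := by
  rw [esum, esum, map_sum]
  refine sum_congr rfl fun s _ => ?_
  rw [pmin, pmin, RingHom.map_det]
  rfl

theorem esum_smul (c : R) (A : Matrix n n R) (r : ℕ) : esum r (c • A) = c ^ r * esum r A := by
  rw [esum, esum, mul_sum]
  refine sum_congr rfl fun s hs => ?_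
  have h : (c • A).submatrix (Subtype.val : s → n) (Subtype.val : s → n) =
      c • A.submatrix (Subtype.val : s → n) (Subtype.val : s → n) := rfl
  rw [pmin, pmin, h, det_smul, Fintype.card_coe, (mem_powersetCard.1 hs).2]

/-- The coefficients of `det (X + A)`. -/
theorem coeff_det_X_add (A : Matrix n n R) {r : ℕ} (hr : r ≤ Fintype.card n) :
    (det ((X : R[X]) • (1 : Matrix n n R[X]) + A.map C)).coeff (Fintype.card n - r) =
      esum r A := by
  have h : (-A).charpoly = det ((X : R[X]) • (1 : Matrix n n R[X]) + A.map C) := by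
    rw [charpoly, charmatrix]
    congr 1
    ext i j
    simp [Matrix.one_apply, Matrix.diagonal_apply]
  rw [← h, charpoly_coeff_eq_sum_minors _ _ hr, esum, mul_sum]
  refine sum_congr rfl fun s hs => ?_
  have h2 : (-A).submatrix (Subtype.val : s → n) (Subtype.val : s → n) =
      -A.submatrix (Subtype.val : s → n) (Subtype.val : s → n) := rfl
  rw [pmin, h2, det_neg, Fintype.card_coe, (mem_powersetCard.1 hs).2,
    ← mul_assoc, ← pow_add, ← two_mul, pow_mul]
  simp

end Ring

section Field

variable {n : Type*} [Fintype n] [DecidableEq n] {K : Type*} [Field K]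

/-- If `A * B = c` then `c ^ j e_(D - j) (A) = det A * e_j (B)`. -/
theorem esum_reverse {A B : Matrix n n K} {c : K} (hc : c ≠ 0) (h : A * B = c • 1) {j : ℕ}
    (hj : j ≤ Fintype.card n) :
    c ^ j * esum (Fintype.card n - j) A = A.det * esum j B := by
  set D := Fintype.card n with hD
  -- the determinant of `c + X B`
  have hcoef : (det (C c • (1 : Matrix n n K[X]) + (X : K[X]) • B.map C)).coeff j =
      c ^ (D - j) * esum j B := by
    have h1 : C c • (1 : Matrix n n K[X]) + (X : K[X]) • B.map C =
        C c • (1 + (X : K[X]) • (c⁻¹ • B).map C) := by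
      refine Matrix.ext fun i k => ?_
      simp only [Matrix.add_apply, Matrix.smul_apply, Matrix.map_apply, smul_eq_mul, C_mul,
        mul_add]
      congr 1
      have : C c * (X * (C c⁻¹ * C (B i k))) = X * C (B i k) * C (c * c⁻¹) := by
        rw [C_mul]; ring
      rw [this, mul_inv_cancel₀ hc, C_1, mul_one]
    have h2 := coeff_eP (c⁻¹ • B) j
    rw [h1, det_smul, ← C_pow, coeff_C_mul]
    change c ^ D * (eP (c⁻¹ • B)).coeff j = _
    rw [h2, esum_smul, ← mul_assoc]
    congr 1
    rw [inv_pow, ← div_eq_mul_inv, pow_sub₀ _ hc hj, div_eq_mul_inv]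
  -- compare with the determinant of `X + A`
  have h3 : A.map C * (C c • (1 : Matrix n n K[X]) + (X : K[X]) • B.map C) =
      C c • ((X : K[X]) • (1 : Matrix n n K[X]) + A.map C) := by
    rw [Matrix.mul_add, Matrix.mul_smul, Matrix.mul_one, Matrix.mul_smul, ← Matrix.map_mul, h,
      smul_add, add_comm]
    congr 1
    refine Matrix.ext fun i k => ?_
    rcases eq_or_ne i k with rfl | hik
    · simp only [Matrix.smul_apply, Matrix.map_apply, Matrix.one_apply_eq, smul_eq_mul, mul_one]
      exact mul_comm _ _
    · simp only [Matrix.smul_apply, Matrix.map_apply, Matrix.one_apply_ne hik, smul_eq_mul,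
        mul_zero, C_0]
  have h4 := congrArg det h3
  rw [det_mul, det_smul] at h4
  have h5 := congrArg (fun q => q.coeff j) h4
  have h6 : det (A.map C) = C (det A) := by
    rw [← RingHom.mapMatrix_apply, ← RingHom.map_det]
  have h7 := coeff_det_X_add A (r := D - j) (Nat.sub_le _ _)
  rw [Nat.sub_sub_self hj] at h7
  simp only [h6, coeff_C_mul, hcoef, ← C_pow, h7] at h5
  have h8 : c ^ (D - j) ≠ 0 := pow_ne_zero _ hc
  apply mul_left_cancel₀ h8
  calc c ^ (D - j) * (c ^ j * esum (D - j) A) = c ^ D * esum (D - j) A := by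
        rw [← mul_assoc, ← pow_add, Nat.sub_add_cancel hj]
    _ = A.det * (c ^ (D - j) * esum j B) := h5.symm
    _ = _ := by ring

end Field

end Pool.Agent.Gouv
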