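import Mathlib

/-!
# Positivity of the new part (MP_d3517d_nt): the combinatorial core

A function `d` on `ℤ/P` with sum zero, symmetric under `i ↦ n₀ - i`, all of whose sums over the
(long) cyclic intervals `j, …, n₀ - j` are non negative, vanishes.
-/

set_option autoImplicit false

open Finset

namespace Gouvea.Posit

variable {P : ℕ}

/-- the sum over the interval `j, …, j + L - 1` -/
def iv (d : ZMod P → ℤ) (j : ZMod P) (L : ℕ) : ℤ := ∑ t ∈ range L, d (j + t)

lemma iv_succ (d : ZMod P → ℤ) (j : ZMod P) (L : ℕ) :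
    iv d j (L + 1) = iv d j L + d (j + L) := sum_range_succ _ _

lemma iv_succ' (d : ZMod P → ℤ) (j : ZMod P) (L : ℕ) :
    iv d j (L + 1) = d j + iv d (j + 1) L := by
  unfold iv
  rw [sum_range_succ', Nat.cast_zero, add_zero, add_comm]
  congr 1
  refine sum_congr rfl fun t _ => ?_
  congr 1
  push_cast
  ring

lemma iv_add (d : ZMod P → ℤ) (j : ZMod P) (L M : ℕ) :
    iv d j (L + M) = iv d j L + iv d (j + L) M := by
  unfold iv
  rw [sum_range_add]
  congr 1
  refine sum_congr rfl fun t _ => ?_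
  congr 1
  push_cast
  ring

lemma iv_period [NeZero P] (d : ZMod P → ℤ) (j : ZMod P) : iv d j P = ∑ x, d x := by
  unfold iv
  refine sum_nbij' (fun t => j + t) (fun x => (x - j).val) (fun t _ => mem_univ _)
    (fun x _ => mem_range.2 (ZMod.val_lt _)) (fun t ht => ?_) (fun x _ => ?_) (fun t _ => rfl)
  · rw [add_sub_cancel_left, ZMod.val_natCast, Nat.mod_eq_of_lt (mem_range.1 ht)]
  · rw [ZMod.natCast_zmod_val]
    ring

lemma iv_add_mul [NeZero P] {d : ZMod P → ℤ} (h0 : ∑ x, d x = 0) (j : ZMod P) (L c : ℕ) :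
    iv d j (L + P * c) = iv d j L := by
  induction c with
  | zero => simp
  | succ c ih =>
    rw [mul_add, mul_one, ← add_assoc, iv_add, ih, iv_period, h0, add_zero]

lemma iv_congr [NeZero P] {d : ZMod P → ℤ} (h0 : ∑ x, d x = 0) (j : ZMod P) {L M : ℕ}
    (h : (L : ZMod P) = M) : iv d j L = iv d j M := by
  have h1 : L % P = M % P := (ZMod.natCast_eq_natCast_iff' _ _ _).1 h
  rw [← Nat.mod_add_div L P, ← Nat.mod_add_div M P, iv_add_mul h0, iv_add_mul h0, h1]

/-- **The core of the positivity argument.** -/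
theorem core [NeZero P] {d : ZMod P → ℤ} {n₀ : ZMod P} (h0 : ∑ x, d x = 0) (hrev : ∀ i, d (n₀ - i) = d i)
    (hpos : ∀ j : ZMod P, ∃ n : ℕ, (n : ZMod P) = n₀ - 2 * j ∧ 0 ≤ iv d j (n + 1)) :
    ∀ i, d i = 0 := by
  choose r hr hS using hpos
  -- the interval sums
  have key : ∀ j, iv d j (r j + 1) = 0 := by
    intro j
    refine le_antisymm ?_ (hS j)
    set j' := n₀ + 1 - j with hj'
    -- a long full period
    obtain ⟨c, hc⟩ : ∃ c, r j + 1 ≤ P * c := ⟨r j + 1, Nat.le_mul_of_pos_left _ (NeZero.pos P)⟩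
    obtain ⟨M, hM⟩ := Nat.exists_eq_add_of_le hc
    have h1 : iv d j (P * c) = 0 := by
      have := iv_add_mul h0 j 0 c
      rw [zero_add] at this
      rw [this]
      rfl
    rw [hM, iv_add] at h1
    have e1 : j + ((r j + 1 : ℕ) : ZMod P) = j' := by
      push_cast
      rw [hr j, hj']
      ring
    rw [e1] at h1
    have e2 : ((M : ℕ) : ZMod P) = ((r j' + 1 : ℕ) : ZMod P) := by
      have h2 : ((P * c : ℕ) : ZMod P) = ((r j + 1 + M : ℕ) : ZMod P) := by rw [hM]
      push_cast at h2 ⊢
      rw [ZMod.natCast_self, zero_mul, hr j] at h2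
      rw [hr j', hj']
      linear_combination -h2
    rw [iv_congr h0 j' e2] at h1
    have := hS j'
    linarith
  intro j
  -- compare the intervals of `j` and `j + 1`
  have h1 : iv d j (r j + P + 1) = 0 := by
    have e : ((r j + P + 1 : ℕ) : ZMod P) = ((r j + 1 : ℕ) : ZMod P) := by
      push_cast
      rw [ZMod.natCast_self, add_zero]
    rw [iv_congr h0 j e]
    exact key j
  obtain ⟨L, hL⟩ : ∃ L, r j + P = L + 1 := ⟨r j + P - 1, by
    have := NeZero.pos P
    omega⟩
  rw [hL, iv_succ', iv_succ] at h1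
  have hL' : ((L : ℕ) : ZMod P) = n₀ - 2 * j - 1 := by
    have h2 : ((r j + P : ℕ) : ZMod P) = ((L + 1 : ℕ) : ZMod P) := by rw [hL]
    push_cast at h2
    rw [ZMod.natCast_self, add_zero, hr j] at h2
    linear_combination -h2
  have h2 : iv d (j + 1) L = 0 := by
    have e : ((L : ℕ) : ZMod P) = ((r (j + 1) + 1 : ℕ) : ZMod P) := by
      push_cast
      rw [hr (j + 1), hL']
      ring
    rw [iv_congr h0 (j + 1) e]
    exact key (j + 1)
  have h3 : d (j + 1 + L) = d j := by
    rw [← hrev j]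
    congr 1
    rw [hL']
    ring
  rw [h2, h3] at h1
  omega

/-- The version with states (a class of weights and a maximal ideal) and the twist `tw` (by the
determinant, which lowers the weight by two). -/
theorem core_states [NeZero P] {X : Type*} (cls : X → ZMod P) (tw : X → X)
    (hcls : ∀ x, cls (tw x) = cls x - 2) (d : X → ZMod P → ℤ)
    (htw : ∀ x i, d (tw x) i = d x (i + 1)) (hrev : ∀ x i, d x (cls x - i) = d x i)
    (hpos : ∀ x, ∃ n : ℕ, (n : ZMod P) = cls x ∧ 0 ≤ ∑ i ∈ range (n + 1), d x (i : ZMod P))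
    (x : X) (h0 : ∑ i, d x i = 0) (i : ZMod P) : d x i = 0 := by
  have hc : ∀ j : ℕ, cls (tw^[j] x) = cls x - 2 * j := by
    intro j
    induction j with
    | zero => simp
    | succ j ih =>
      rw [Function.iterate_succ_apply', hcls, ih]
      push_cast
      ring
  have ht : ∀ (j : ℕ) i, d (tw^[j] x) i = d x (i + j) := by
    intro j
    induction j with
    | zero => simp
    | succ j ih =>
      intro i
      rw [Function.iterate_succ_apply', htw, ih]
      congr 1
      push_cast
      ring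
  refine core (n₀ := cls x) h0 (hrev x) (fun j => ?_) i
  obtain ⟨n, hn, h1⟩ := hpos (tw^[j.val] x)
  refine ⟨n, ?_, ?_⟩
  · rw [hn, hc, ZMod.natCast_zmod_val]
  · unfold iv
    refine h1.trans (le_of_eq (sum_congr rfl fun t _ => ?_))
    rw [ht, ZMod.natCast_zmod_val, add_comm]

end Gouvea.Posit
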