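import Pool.Agent.Work.MP_d3517d_nt.Basic

/-!
# M4: rank and divisibility (MP_d3517d_nt)

* `pow_dvd_det` : if the value at `a` of a polynomial matrix has corank `≥ m`, then `(X - a)^m`
  divides the determinant;
* `GB_factor` : division by a monic integral polynomial keeps the Gauss bound;
* `minor_rank` : the ranks of the principal minors of a family at the integer weights.
-/

open Polynomial Finset

noncomputable section

namespace Gouvea

/-! ### determinants of polynomial matrices -/

theorem pow_dvd_det {K n : Type} [Field K] [Fintype n] [DecidableEq n] (F : Matrix n n K[X])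
    (a : K) (m : ℕ) (h : (F.map fun f => f.eval a).rank + m ≤ Fintype.card n) :
    (X - C a) ^ m ∣ F.det := by
  classical
  obtain ⟨L, L', D, hD⟩ :=
    Matrix.Pivot.exists_list_transvec_mul_mul_list_transvec_eq_diagonal (F.map fun f => f.eval a)
  set P := (L.map Matrix.TransvectionStruct.toMatrix).prod with hP
  set Q := (L'.map Matrix.TransvectionStruct.toMatrix).prod with hQ
  have hPdet : P.det = 1 := Matrix.TransvectionStruct.det_toMatrix_prod L
  have hQdet : Q.det = 1 := Matrix.TransvectionStruct.det_toMatrix_prod L'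
  -- the number of zeros of `D`
  have hrank : (Matrix.diagonal D).rank = (F.map fun f => f.eval a).rank := by
    rw [← hD, Matrix.rank_mul_eq_left_of_isUnit_det _ _ (by rw [hQdet]; exact isUnit_one),
      Matrix.rank_mul_eq_right_of_isUnit_det _ _ (by rw [hPdet]; exact isUnit_one)]
  have hzero : m ≤ (univ.filter fun i => D i = 0).card := by
    have h1 : (Matrix.diagonal D).rank = (univ.filter fun i => D i ≠ 0).card := by
      rw [Matrix.rank_diagonal, Fintype.card_subtype]
    have h2 : (univ.filter fun i => D i = 0).card + (univ.filter fun i => ¬ D i = 0).card =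
        Fintype.card n := by
      rw [Finset.card_filter_add_card_filter_not, Finset.card_univ]
    have h3 := hrank.symm.trans h1
    simp only [ne_eq] at h3
    omega
  -- the transformed matrix
  set F' := P.map C * F * Q.map C with hF'
  have hdet : F'.det = F.det := by
    have h1 : (P.map (C : K →+* K[X])).det = 1 := by
      rw [← RingHom.mapMatrix_apply, ← RingHom.map_det, hPdet, map_one]
    have h2 : (Q.map (C : K →+* K[X])).det = 1 := by
      rw [← RingHom.mapMatrix_apply, ← RingHom.map_det, hQdet, map_one]
    rw [hF', Matrix.det_mul, Matrix.det_mul, h1, h2, one_mul, mul_one]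
  have heval : F'.map (fun f => f.eval a) = Matrix.diagonal D := by
    rw [← hD, hF']
    have h0 : ∀ A : Matrix n n K[X], A.map (fun f => f.eval a) =
        (evalRingHom a).mapMatrix A := fun A => rfl
    rw [h0, h0, map_mul, map_mul]
    congr 1
    · congr 1
      ext i j
      simp
    · ext i j
      simp
  have hdvd : ∀ i j, D j = 0 → (X - C a) ∣ F' i j := by
    intro i j hj
    rw [dvd_iff_isRoot, IsRoot.def]
    have h1 := congrFun (congrFun heval i) j
    simp only [Matrix.map_apply] at h1
    rw [h1, Matrix.diagonal_apply]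
    split_ifs with hij
    · rw [hij, hj]
    · rfl
  let v : n → K[X] := fun j => if D j = 0 then X - C a else 1
  have hex : ∀ i j, ∃ g, F' i j = v j * g := by
    intro i j
    by_cases hj : D j = 0
    · simp only [v, hj, if_true]
      exact hdvd i j hj
    · exact ⟨F' i j, by simp [v, hj]⟩
  choose G hG using hex
  have hF'G : F' = Matrix.of fun i j => v j * (Matrix.of G) i j := by
    exact Matrix.ext fun i j => hG i j
  rw [← hdet, hF'G, Matrix.det_mul_row]
  refine Dvd.dvd.mul_right ?_ _
  have hprod : ∏ j, v j = (X - C a) ^ (univ.filter fun i => D i = 0).card := by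
    simp only [v]
    rw [Finset.prod_ite, Finset.prod_const_one, mul_one, Finset.prod_const]
  rw [hprod]
  exact pow_dvd_pow _ hzero

/-! ### Gauss bounds -/

section

variable {p : ℕ} [Fact p.Prime]

private theorem vb_add {x y : ℚ_[p]} {Λ : ℤ} (hx : VB p x Λ) (hy : VB p y Λ) : VB p (x + y) Λ :=
  (Padic.nonarchimedean x y).trans (max_le hx hy)

private theorem vb_neg {x : ℚ_[p]} {Λ : ℤ} (hx : VB p x Λ) : VB p (-x) Λ := by
  unfold VB
  rw [norm_neg]
  exact hx

private theorem vb_zero (Λ : ℤ) : VB p (0 : ℚ_[p]) Λ := by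
  unfold VB
  rw [norm_zero]
  have := (Fact.out : p.Prime).pos
  positivity

private theorem vb_sum {ι : Type} (s : Finset ι) {f : ι → ℚ_[p]} {Λ : ℤ} (h : ∀ i ∈ s, VB p (f i) Λ) :
    VB p (∑ i ∈ s, f i) Λ := by
  classical
  induction s using Finset.induction_on with
  | empty => exact vb_zero Λ
  | insert a s ha ih =>
    rw [Finset.sum_insert ha]
    exact vb_add (h a (Finset.mem_insert_self a s)) (ih fun i hi => h i (Finset.mem_insert_of_mem hi))

private theorem vb_mul_int {x y : ℚ_[p]} {Λ : ℤ} (hx : VB p x 0) (hy : VB p y Λ) : VB p (x * y) Λ := by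
  unfold VB at *
  rw [neg_zero, zpow_zero] at hx
  rw [norm_mul]
  calc ‖x‖ * ‖y‖ ≤ 1 * (p : ℝ) ^ (-Λ) :=
        mul_le_mul hx hy (norm_nonneg _) zero_le_one
    _ = _ := one_mul _

/-- Division by a monic integral polynomial. -/
theorem GB_of_monic_mul {P e : ℚ_[p][X]} (hP : P.Monic) (hPi : GB p P 0) {Λ : ℤ}
    (h : GB p (P * e) Λ) : GB p e Λ := by
  have key : ∀ k i, e.natDegree < i + k → VB p (e.coeff i) Λ := by
    intro k
    induction k with
    | zero =>
      intro i hi
      rw [coeff_eq_zero_of_natDegree_lt (by simpa using hi)]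
      exact vb_zero Λ
    | succ k ih =>
      intro i hi
      have h1 : (P * e).coeff (P.natDegree + i) =
          e.coeff i + ∑ x ∈ (antidiagonal (P.natDegree + i)).erase (P.natDegree, i),
            P.coeff x.1 * e.coeff x.2 := by
        rw [coeff_mul, ← Finset.add_sum_erase _ _ (a := (P.natDegree, i)) (by simp)]
        rw [hP.coeff_natDegree, one_mul]
      have h2 : VB p (∑ x ∈ (antidiagonal (P.natDegree + i)).erase (P.natDegree, i),
          P.coeff x.1 * e.coeff x.2) Λ := by
        refine vb_sum _ fun x hx => ?_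
        rw [Finset.mem_erase, Finset.HasAntidiagonal.mem_antidiagonal] at hx
        by_cases hlt : P.natDegree < x.1
        · rw [coeff_eq_zero_of_natDegree_lt hlt, zero_mul]
          exact vb_zero Λ
        · refine vb_mul_int (hPi _) (ih _ ?_)
          have h3 : x.1 ≠ P.natDegree := by
            intro h4
            apply hx.1
            rw [Prod.ext_iff]
            exact ⟨h4, by simpa [h4] using hx.2⟩
          omega
      have h4 : e.coeff i = (P * e).coeff (P.natDegree + i) +
          -(∑ x ∈ (antidiagonal (P.natDegree + i)).erase (P.natDegree, i),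
            P.coeff x.1 * e.coeff x.2) := by
        rw [h1]; ring
      rw [h4]
      exact vb_add (h _) (vb_neg h2)
  intro i
  exact key (e.natDegree + 1) i (by omega)

private theorem GB_mul_zero {P Q : ℚ_[p][X]} (hP : GB p P 0) (hQ : GB p Q 0) : GB p (P * Q) 0 := by
  intro i
  rw [coeff_mul]
  exact vb_sum _ fun x _ => vb_mul_int (hP _) (hQ _)

private theorem GB_one : GB p (1 : ℚ_[p][X]) 0 := by
  intro i
  rw [coeff_one]
  unfold VB
  split_ifs <;> simp

private theorem GB_pow_zero {P : ℚ_[p][X]} (hP : GB p P 0) (m : ℕ) : GB p (P ^ m) 0 := by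
  induction m with
  | zero => simpa using GB_one
  | succ m ih => rw [pow_succ]; exact GB_mul_zero ih hP

private theorem GB_X_sub_C (k : ℕ) : GB p (X - C (k : ℚ_[p])) 0 := by
  intro i
  unfold VB
  rw [neg_zero, zpow_zero, coeff_sub, coeff_X, coeff_C]
  have h1 : ‖(k : ℚ_[p])‖ ≤ 1 := by
    have := Padic.norm_int_le_one (p := p) (k : ℤ)
    simpa using this
  rcases i with _ | _ | i
  · simpa using h1
  · simp
  · simp

private theorem GB_prod_zero (s : Finset ℕ) (m : ℕ → ℕ) :
    GB p (∏ k ∈ s, (X - C (k : ℚ_[p])) ^ m k) 0 := by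
  classical
  induction s using Finset.induction_on with
  | empty => simpa using GB_one
  | insert a s ha ih =>
    rw [Finset.prod_insert ha]
    exact GB_mul_zero (GB_pow_zero (GB_X_sub_C a) _) ih

theorem GB_factor (F : ℚ_[p][X]) (Λ : ℤ) (hF : GB p F Λ) (s : Finset ℕ) (m : ℕ → ℕ)
    (h : ∀ k ∈ s, (X - C (k : ℚ_[p])) ^ m k ∣ F) :
    ∃ e, GB p e Λ ∧ F = (∏ k ∈ s, (X - C (k : ℚ_[p])) ^ m k) * e := by
  have hcop : ((s : Set ℕ)).Pairwise
      (Function.onFun IsCoprime fun k : ℕ => (X - C (k : ℚ_[p])) ^ m k) := by
    intro a _ b _ hab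
    refine IsCoprime.pow ?_
    refine pairwise_coprime_X_sub_C (K := ℚ_[p]) (I := ℕ) (s := fun k => (k : ℚ_[p])) ?_ hab
    exact Nat.cast_injective
  obtain ⟨e, he⟩ := Finset.prod_dvd_of_coprime hcop h
  refine ⟨e, ?_, he⟩
  refine GB_of_monic_mul (monic_prod_of_monic _ _ fun k _ => (monic_X_sub_C _).pow _)
    (GB_prod_zero s m) ?_
  rw [← he]
  exact hF

end

/-! ### ranks -/

private theorem rank_add_le' {K m n : Type} [Field K] [Fintype n] [Fintype m] (A B : Matrix m n K) :
    (A + B).rank ≤ A.rank + B.rank := by
  rw [Matrix.rank, Matrix.rank, Matrix.rank, Matrix.mulVecLin_add]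
  exact (Submodule.finrank_mono (LinearMap.range_add_le _ _)).trans
    (Submodule.finrank_add_le_finrank_add_finrank _ _)

private theorem rank_le_card_cols {K n : Type} [Field K] [Fintype n] [DecidableEq n] (A : Matrix n n K)
    (s : Finset n) (h : ∀ x y, A x y ≠ 0 → y ∈ s) : A.rank ≤ s.card := by
  classical
  have h1 : A = A * Matrix.diagonal fun y => if y ∈ s then (1 : K) else 0 := by
    ext x y
    rw [Matrix.mul_diagonal]
    split_ifs with hy
    · rw [mul_one]
    · rw [mul_zero]
      by_contra hne
      exact hy (h x y hne)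
  rw [h1]
  refine (Matrix.rank_mul_le_right _ _).trans ?_
  rw [Matrix.rank_diagonal, Fintype.card_subtype]
  refine (Finset.card_le_card ?_)
  intro y hy
  by_contra hys
  simp [hys] at hy

section

variable {p : ℕ} [Fact p.Prime]

theorem minor_rank {h n0 L J : ℕ} {E : Type} [Fintype E] [DecidableEq E]
    (F : WFam p h n0 L J E) (R : Finset (E × Fin L)) (κ : ℕ) (hκ : n0 + (p - 1) * κ < J)
    (hL : n0 + (p - 1) * κ < L) :
    (((F.U.submatrix (Subtype.val : R → E × Fin L) (Subtype.val : R → E × Fin L))).map
      fun f => f.eval (κ : ℚ_[p])).rank ≤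
      h * (n0 + (p - 1) * κ + 1) + Acount (cnt R) L (n0 + (p - 1) * κ) := by
  classical
  obtain ⟨P, Q, hPQ, hP, hQ⟩ := F.dec κ hκ
  set n := n0 + (p - 1) * κ with hn
  have h1 : ((F.U.submatrix (Subtype.val : R → E × Fin L) (Subtype.val : R → E × Fin L))).map
      (fun f => f.eval (κ : ℚ_[p])) = P.submatrix (Subtype.val : R → E × Fin L) Subtype.val +
        Q.submatrix (Subtype.val : R → E × Fin L) Subtype.val := by
    have h2 : (F.U.map fun f => f.eval (κ : ℚ_[p])).submatrix
        (Subtype.val : R → E × Fin L) (Subtype.val : R → E × Fin L) =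
        (P + Q).submatrix (Subtype.val : R → E × Fin L) Subtype.val := by rw [hPQ]
    exact h2
  rw [h1]
  refine (rank_add_le' _ _).trans (Nat.add_le_add ((Matrix.rank_submatrix_le _ _ _).trans hP) ?_)
  -- the antidiagonal part
  let s : Finset R := univ.filter fun y => n < lev y.1 ∨
    ∃ x : R, x.1.1 = F.σ y.1.1 ∧ lev x.1 + lev y.1 = n
  refine (rank_le_card_cols _ s ?_).trans ?_
  · intro x y hxy
    have h2 := hQ x.1 y.1 hxy
    simp only [s, Finset.mem_filter, Finset.mem_univ, true_and]
    rcases h2 with h2 | h2
    · exact Or.inl h2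
    · exact Or.inr ⟨x, h2⟩
  · -- counting by level
    let t : Finset (E × Fin L) := R.filter fun y => n < lev y ∨
      ∃ x ∈ R, x.1 = F.σ y.1 ∧ lev x + lev y = n
    have hst : s.card ≤ t.card := by
      refine Finset.card_le_card_of_injOn (fun y => y.1) ?_ (fun a _ b _ hab => Subtype.ext hab)
      intro y hy
      simp only [s, Finset.coe_filter, Finset.mem_univ, true_and, Set.mem_ofPred_eq] at hy
      simp only [t, Finset.coe_filter, Set.mem_ofPred_eq]
      refine ⟨y.2, hy.imp id ?_⟩
      rintro ⟨x, hx1, hx2⟩
      exact ⟨x.1, x.2, hx1, hx2⟩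
    refine hst.trans ?_
    have hmaps : ∀ y ∈ t, lev y ∈ range L := fun y _ => Finset.mem_range.2 y.2.2
    rw [Finset.card_eq_sum_card_fiberwise hmaps]
    have hsplit : range L = range (n + 1) ∪ Ico (n + 1) L := by
      ext i
      simp only [Finset.mem_range, Finset.mem_union, Finset.mem_Ico]
      omega
    have hdisj : Disjoint (range (n + 1)) (Ico (n + 1) L) := by
      rw [Finset.disjoint_left]
      intro i hi hi'
      simp only [Finset.mem_range, Finset.mem_Ico] at hi hi'
      omega
    rw [hsplit, Finset.sum_union hdisj]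
    unfold Acount
    refine Nat.add_le_add (Finset.sum_le_sum fun i hi => ?_) (Finset.sum_le_sum fun i hi => ?_)
    · -- level `i ≤ n`
      rw [Finset.mem_range] at hi
      refine le_min ?_ ?_
      · refine Finset.card_le_card ?_
        intro y hy
        simp only [t, Finset.mem_filter] at hy ⊢
        exact ⟨hy.1.1, hy.2⟩
      · -- send `y` to its partner
        refine Finset.card_le_card_of_injOn
          (fun y => if hL' : n - i < L then (F.σ y.1, (⟨n - i, hL'⟩ : Fin L)) else y) ?_ ?_
        · intro y hy
          simp only [t, Finset.coe_filter, Finset.mem_filter, Set.mem_ofPred_eq] at hy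
          have hL' : n - i < L := by omega
          simp only [hL', dif_pos, Finset.coe_filter, Set.mem_ofPred_eq]
          obtain ⟨⟨hyR, hy2⟩, hyi⟩ := hy
          rcases hy2 with hy2 | ⟨x, hxR, hx1, hx2⟩
          · omega
          · have hx : x = (F.σ y.1, (⟨n - i, hL'⟩ : Fin L)) := by
              refine Prod.ext hx1 (Fin.ext ?_)
              show lev x = n - i
              omega
            rw [← hx]
            exact ⟨hxR, by omega⟩
        · intro y hy y' hy' hyy'
          have hL' : n - i < L := by omega
          simp only [t, Finset.coe_filter, Finset.mem_filter, Set.mem_ofPred_eq] at hy hy'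
          simp only [hL', dif_pos, Prod.mk.injEq, and_true] at hyy'
          refine Prod.ext (F.σ.injective hyy') (Fin.ext ?_)
          show lev y = lev y'
          omega
    · refine Finset.card_le_card ?_
      intro y hy
      simp only [t, Finset.mem_filter] at hy ⊢
      exact ⟨hy.1.1, hy.2⟩

end

end Gouvea
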