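import Mathlib

/-!
# Rank bounds and divisibility of determinants (Lemma 2.3 and (2.4))
-/

set_option autoImplicit false

namespace Pool.Agent.Gouv

open Polynomial Matrix

section RankDiv

variable {F : Type*} [Field F] {m : Type*} [Fintype m] [DecidableEq m]

/-- (RD1) a polynomial matrix whose value at `a` has rank at most `k` -/
theorem X_sub_C_pow_dvd_det (A : Matrix m m F[X]) (a : F) (k : ℕ)
    (h : (A.map (eval a)).rank ≤ k) : (X - C a) ^ (Fintype.card m - k) ∣ A.det := by
  set M := A.map (eval a) with hM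
  obtain ⟨V, U, e, hV, hU, hVU⟩ := exists_rank_normal_form M
  let N : Matrix m m F[X] := V.map C * A * U.map C
  have hNa : N.map (eval a) = V * M * U := by
    have h1 : N.map (eval a) = (evalRingHom a).mapMatrix N := rfl
    rw [h1]
    simp only [N, map_mul]
    congr 1
    · congr 1
      ext i j
      simp
    · ext i j
      simp
  let v : m → F[X] := fun i => Sum.elim (fun _ => 1) (fun _ => X - C a) (e i)
  have hdiv : ∀ i j, v i ∣ N i j := by
    intro i j
    have h2 : eval a (N i j) = (fromBlocks 1 0 0 0 : Matrix (Fin M.rank ⊕ Fin (Fintype.card m - M.rank))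
        (Fin M.rank ⊕ Fin (Fintype.card m - M.rank)) F) (e i) (e j) := by
      have := congrFun (congrFun (hNa.trans hVU) i) j
      simpa using this
    rcases hi : e i with i' | i'
    · simp [v, hi]
    · have h3 : v i = X - C a := by simp [v, hi]
      rw [h3, dvd_iff_isRoot, IsRoot, h2, hi]
      rcases e j with j' | j' <;> simp
  choose N' hN' using hdiv
  have hdet : N.det = (∏ i, v i) * (Matrix.of N').det := by
    rw [← det_mul_column]
    congr 1
    ext i j
    rw [of_apply, of_apply, hN' i j]
  have hprod : ∏ i, v i = (X - C a) ^ (Fintype.card m - M.rank) := by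
    rw [← Equiv.prod_comp e.symm]
    simp [v, Fintype.prod_sum_type]
  have hdetN : N.det = C V.det * A.det * C U.det := by
    simp only [N, det_mul]
    rw [← RingHom.mapMatrix_apply, ← RingHom.mapMatrix_apply, ← RingHom.map_det, ← RingHom.map_det]
  have hVd : IsUnit (C V.det) := ((isUnit_iff_isUnit_det V).1 hV).map C
  have hUd : IsUnit (C U.det) := ((isUnit_iff_isUnit_det U).1 hU).map C
  have h4 : (X - C a) ^ (Fintype.card m - M.rank) ∣ A.det := by
    have h5 : (X - C a) ^ (Fintype.card m - M.rank) ∣ C V.det * A.det * C U.det := by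
      rw [← hdetN, hdet, hprod]
      exact dvd_mul_right _ _
    rw [hUd.dvd_mul_right, hVd.dvd_mul_left] at h5
    exact h5
  exact (pow_dvd_pow _ (by omega)).trans h4

/-- (RD2) several points -/
theorem prod_X_sub_C_pow_dvd_det (A : Matrix m m F[X]) (Z : Finset F) (k : F → ℕ)
    (h : ∀ a ∈ Z, (A.map (eval a)).rank ≤ k a) :
    ∏ a ∈ Z, (X - C a) ^ (Fintype.card m - k a) ∣ A.det := by
  refine Finset.prod_dvd_of_coprime ?_ fun a ha => X_sub_C_pow_dvd_det A a (k a) (h a ha)
  intro a _ b _ hab
  exact (pairwise_coprime_X_sub_C Function.injective_id hab).pow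

theorem rank_add_le (M B : Matrix m m F) : (M + B).rank ≤ M.rank + B.rank := by
  rw [Matrix.rank, Matrix.rank, Matrix.rank, mulVecLin_add]
  refine le_trans (Submodule.finrank_mono ?_)
    (Submodule.finrank_add_le_finrank_add_finrank (LinearMap.range M.mulVecLin)
      (LinearMap.range B.mulVecLin))
  rintro _ ⟨x, rfl⟩
  exact Submodule.add_mem_sup ⟨x, rfl⟩ ⟨x, rfl⟩

/-- (RD4) the rank of a matrix which agrees with `B` outside of a set of columns -/
theorem rank_le_of_columns (M B : Matrix m m F) (s : Finset m)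
    (h : ∀ j ∉ s, ∀ i, M i j = B i j) : M.rank ≤ B.rank + s.card := by
  have h1 : M = B + (M - B) := by abel
  have h2 : (M - B).rank ≤ s.card := by
    rw [← rank_transpose]
    refine rank_le_card_of_support_subset _ s ?_
    rw [Function.support_subset_iff']
    intro j hj
    funext i
    simp only [Finset.mem_coe] at hj
    change M i j - B i j = 0
    rw [h j hj i, sub_self]
  calc M.rank = (B + (M - B)).rank := by rw [← h1]
    _ ≤ B.rank + (M - B).rank := rank_add_le _ _
    _ ≤ B.rank + s.card := by omega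

/-- Lemma 2.3: the divisibility of the determinant from the rank bounds -/
theorem prod_dvd_det_of_columns (A : Matrix m m F[X]) (Z : Finset F) (B : F → Matrix m m F)
    (ρ : F → ℕ) (s : F → Finset m) (hB : ∀ a ∈ Z, (B a).rank ≤ ρ a)
    (h : ∀ a ∈ Z, ∀ j ∉ s a, ∀ i, eval a (A i j) = B a i j) :
    ∏ a ∈ Z, (X - C a) ^ (Fintype.card m - (ρ a + (s a).card)) ∣ A.det := by
  refine prod_X_sub_C_pow_dvd_det A Z (fun a => ρ a + (s a).card) fun a ha => ?_
  refine (rank_le_of_columns (A.map (eval a)) (B a) (s a) fun j hj i => ?_).trans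
    (Nat.add_le_add_right (hB a ha) _)
  exact h a ha j hj i

end RankDiv

section Monic

variable {K : Type*} [NormedField K] [IsUltrametricDist K]

/-- (RD3) division by a monic integral polynomial -/
theorem norm_coeff_le_of_monic_mul {D Q : K[X]} (hD : D.Monic) (hD1 : ∀ i, ‖D.coeff i‖ ≤ 1)
    {c : ℝ} (hP : ∀ i, ‖(D * Q).coeff i‖ ≤ c) (i : ℕ) : ‖Q.coeff i‖ ≤ c := by
  have hc : 0 ≤ c := (norm_nonneg _).trans (hP 0)
  by_contra hcon
  push Not at hcon
  -- the largest bad index
  have hfin : {j | c < ‖Q.coeff j‖}.Finite := by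
    refine (Q.support.finite_toSet).subset fun j hj => ?_
    rw [Finset.mem_coe, mem_support_iff]
    intro h0
    rw [Set.mem_ofPred_eq, h0, norm_zero] at hj
    exact absurd hj (not_lt.2 hc)
  obtain ⟨j, hj, hmax⟩ := hfin.exists_maximal ⟨i, hcon⟩
  have hj' : c < ‖Q.coeff j‖ := hj
  have hlt : ∀ l, j < l → ‖Q.coeff l‖ ≤ c := by
    intro l hl
    by_contra h
    push Not at h
    exact absurd (hmax h hl.le) (not_le.2 hl)
  have hcoef : (D * Q).coeff (D.natDegree + j) = Q.coeff j +
      ∑ x ∈ (Finset.HasAntidiagonal.antidiagonal (D.natDegree + j)).erase (D.natDegree, j),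
        D.coeff x.1 * Q.coeff x.2 := by
    rw [coeff_mul, ← Finset.add_sum_erase _ _ (Finset.HasAntidiagonal.mem_antidiagonal.2 rfl :
      (D.natDegree, j) ∈ Finset.HasAntidiagonal.antidiagonal (D.natDegree + j))]
    rw [hD.coeff_natDegree, one_mul]
  have hrest : ‖∑ x ∈ (Finset.HasAntidiagonal.antidiagonal (D.natDegree + j)).erase (D.natDegree, j),
      D.coeff x.1 * Q.coeff x.2‖ ≤ c := by
    refine IsUltrametricDist.norm_sum_le_of_forall_le_of_nonneg hc fun x hx => ?_
    rw [Finset.mem_erase, Finset.HasAntidiagonal.mem_antidiagonal] at hx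
    rw [norm_mul]
    rcases lt_trichotomy x.2 j with h1 | h1 | h1
    · have : D.natDegree < x.1 := by omega
      rw [coeff_eq_zero_of_natDegree_lt this, norm_zero, zero_mul]
      exact hc
    · exact absurd (Prod.ext (by omega) h1 : x = (D.natDegree, j)) hx.1
    · calc ‖D.coeff x.1‖ * ‖Q.coeff x.2‖ ≤ 1 * c :=
            mul_le_mul (hD1 _) (hlt _ h1) (norm_nonneg _) zero_le_one
        _ = c := one_mul c
  have h2 := hP (D.natDegree + j)
  rw [hcoef] at h2
  have h3 : ‖Q.coeff j‖ ≤ c := by
    have h4 : Q.coeff j = (Q.coeff j + ∑ x ∈ (Finset.HasAntidiagonal.antidiagonal (D.natDegree + j)).erase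
        (D.natDegree, j), D.coeff x.1 * Q.coeff x.2) -
        ∑ x ∈ (Finset.HasAntidiagonal.antidiagonal (D.natDegree + j)).erase (D.natDegree, j),
        D.coeff x.1 * Q.coeff x.2 := by ring
    rw [h4, sub_eq_add_neg]
    refine (IsUltrametricDist.norm_add_le_max _ _).trans (max_le h2 ?_)
    rw [norm_neg]
    exact hrest
  exact absurd h3 (not_le.2 hj')

end Monic

end Pool.Agent.Gouv
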